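import Mathlib

/-! Linear algebraic groups over an algebraic closure of a prime field, cocharacter data, the zip
group and the ring of automorphic forms on the stack of `G`-zips.

A smooth affine group over `k` is identified with its group of `k`-points inside `GL n k`; a group
over the prime field is one that is stable under the Frobenius map. -/

namespace ZipDefs

open Matrix Polynomial DirectSum

section general

variable (k : Type) [Field k]

/-- The space `O ⊗ V` of maps `X → V` that are finite sums of maps `x ↦ a x • v` with `a` in the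
algebra of functions `O` and `v` in `V`. -/
def regMaps {X W : Type} [AddCommGroup W] [Module k W] (O : Subalgebra k (X → k))
    (V : Submodule k W) : Submodule k (X → W) :=
  Submodule.span k {f | ∃ a ∈ O, ∃ v ∈ V, f = fun x => a x • v}

variable {k} in
/-- `f (x g y⁻¹) = x • f g` for `(x, y)` in `E`, where `(x • h) z = h (x⁻¹ z)`. -/
def IsEquivariant {Γ : Type} [Group Γ] (G P : Subgroup Γ) (E : Set (Γ × Γ)) (f : G → P → k) :
    Prop :=
  ∀ (x : P) (y : Γ), (x.1, y) ∈ E →
    ∀ g g' : G, g'.1 = x.1 * g.1 * y⁻¹ → ∀ z, f g' z = f g (x⁻¹ * z)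

/-- The space of equivariant maps from `G` to functions on `P`. -/
def equivariant {Γ : Type} [Group Γ] (G P : Subgroup Γ) (E : Set (Γ × Γ)) :
    Submodule k (G → P → k) where
  carrier := {f | IsEquivariant G P E f}
  add_mem' ha hb x y h g g' e z := congrArg₂ (· + ·) (ha x y h g g' e z) (hb x y h g g' e z)
  zero_mem' _ _ _ _ _ _ _ := rfl
  smul_mem' c _ hf x y h g g' e z := congrArg (c * ·) (hf x y h g g' e z)

variable {k}

/-- For subspaces `V i` of an algebra with `1 ∈ V 0` and `V i * V j ⊆ V (i + j)`: the graded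
algebra `⨁ i, V i` (external direct sum) is finitely generated. -/
def GradedFG {ι A : Type} [DecidableEq ι] [AddCommMonoid ι] [CommRing A] [Algebra k A]
    (V : ι → Submodule k A) [SetLike.GradedMonoid V] : Prop :=
  Algebra.FiniteType k (⨁ i, V i)

end general

section groups

variable {k : Type} [Field k] {n : Type} [Fintype n] [DecidableEq n]

/-- The coordinate ring `k[x_ij, det⁻¹]` of `GL n`, as an algebra of functions. -/
def coordRing (k : Type) [Field k] (n : Type) [Fintype n] [DecidableEq n] :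
    Subalgebra k (GL n k → k) :=
  Algebra.adjoin k ({f | ∃ i j, f = fun g => g.val i j} ∪ {fun g => (g.val.det)⁻¹})

/-- The regular functions on a subgroup `H`: the restrictions of the coordinate ring. -/
def regFun (H : Subgroup (GL n k)) : Subalgebra k (H → k) :=
  (coordRing k n).map (Pi.algHom k _ fun x : H => Pi.evalAlgHom k (fun _ => k) x.1)

/-- Zariski closed subsets of `GL n k`. -/
def IsZClosed (S : Set (GL n k)) : Prop :=
  ∀ g, (∀ F ∈ coordRing k n, (∀ x ∈ S, F x = 0) → F g = 0) → g ∈ S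

/-- Zariski connected subsets of `GL n k`. -/
def IsZConnected (S : Set (GL n k)) : Prop :=
  ∀ C D, IsZClosed C → IsZClosed D → S ⊆ C ∪ D → S ∩ C ∩ D = ∅ → S ⊆ C ∨ S ⊆ D

/-- Closed connected subgroups of `GL n k`, that is, connected linear algebraic groups. -/
def IsConnGroup (H : Subgroup (GL n k)) : Prop :=
  IsZClosed (H : Set (GL n k)) ∧ IsZConnected (H : Set (GL n k))

/-- Unipotent elements. -/
def IsUnip (g : GL n k) : Prop := IsNilpotent (g.val - 1)

/-- Connected reductive groups: every connected normal unipotent subgroup is trivial. -/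
def IsReductive (G : Subgroup (GL n k)) : Prop :=
  IsConnGroup G ∧ ∀ N ≤ G, IsConnGroup N → (∀ g ∈ G, ∀ x ∈ N, g * x * g⁻¹ ∈ N) →
    (∀ x ∈ N, IsUnip x) → N = ⊥

/-- Borel subgroups: maximal connected solvable subgroups. -/
def IsBorel (G B : Subgroup (GL n k)) : Prop :=
  Maximal (fun H : Subgroup (GL n k) => H ≤ G ∧ IsConnGroup H ∧ Group.IsSolvable H) B

/-- Tori: connected diagonalisable groups. -/
def IsTorus (T : Subgroup (GL n k)) : Prop :=
  IsConnGroup T ∧ ∃ h : GL n k, ∀ t ∈ T, (h * t * h⁻¹).val.IsDiag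

/-- Maximal tori. -/
def IsMaxTorus (G T : Subgroup (GL n k)) : Prop :=
  Maximal (fun H : Subgroup (GL n k) => H ≤ G ∧ IsTorus H) T

/-- Cocharacters of `G`: homomorphisms whose entries are Laurent polynomials. -/
def IsCochar (G : Subgroup (GL n k)) (μ : kˣ →* GL n k) : Prop :=
  (∀ t, μ t ∈ G) ∧ ∀ i j, ∃ (N : ℕ) (q : k[X]), ∀ t : kˣ, (μ t).val i j * (t : k) ^ N = q.eval ↑t

/-- Characters of `T`: homomorphisms `χ` to `kˣ` with `χ` and `χ⁻¹` regular. -/
def IsChar (T : Subgroup (GL n k)) (χ : T →* kˣ) : Prop :=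
  (fun t => (χ t).val) ∈ regFun T ∧ (fun t => (χ t)⁻¹.val) ∈ regFun T

/-- The character group `X^*(T)`. -/
def charGroup (T : Subgroup (GL n k)) : Subgroup (T →* kˣ) where
  carrier := {χ | IsChar T χ}
  mul_mem' := fun {a b} ha hb => ⟨mul_mem ha.1 hb.1, by
    convert mul_mem ha.2 hb.2 using 1
    ext t
    simp [mul_comm]⟩
  one_mem' := ⟨one_mem _, one_mem _⟩
  inv_mem' := fun {a} ha => ⟨ha.2, by simpa using ha.1⟩

/-- The map `t ↦ μ t * g * (μ t)⁻¹` extends to a morphism from the affine line to `GL n`, that is,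
to a point of `GL n` with values in `k[X]`, whose value at `0` is `l`. -/
def Lim (μ : kˣ → GL n k) (g l : GL n k) : Prop :=
  ∃ A : GL n k[X], (∀ t : kˣ, GeneralLinearGroup.map (evalRingHom (t : k)) A = μ t * g * (μ t)⁻¹) ∧
    GeneralLinearGroup.map (evalRingHom 0) A = l

/-- The parabolic subgroup `P₊(μ)`. -/
def Pplus (G : Subgroup (GL n k)) (μ : kˣ → GL n k) : Subgroup (GL n k) where
  carrier := {g | g ∈ G ∧ ∃ l ∈ G, Lim μ g l}
  mul_mem' := by
    rintro a b ⟨ha, l, hl, A, hA, rfl⟩ ⟨hb, l', hl', B, hB, rfl⟩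
    exact ⟨mul_mem ha hb, _, mul_mem hl hl', A * B, fun t => by simp [hA, hB, mul_assoc],
      map_mul _ _ _⟩
  one_mem' := ⟨one_mem _, 1, one_mem _, 1, fun t => by simp, map_one _⟩
  inv_mem' := by
    rintro a ⟨ha, l, hl, A, hA, rfl⟩
    exact ⟨inv_mem ha, _, inv_mem hl, A⁻¹, fun t => by simp [hA, mul_assoc], map_inv _ _⟩

/-- The parabolic subgroup `P₋(μ)`. -/
def Pminus (G : Subgroup (GL n k)) (μ : kˣ → GL n k) : Subgroup (GL n k) :=
  Pplus G fun t => (μ t)⁻¹

/-- The centraliser `L` of `μ` in `G`. -/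
def Levi (G : Subgroup (GL n k)) (μ : kˣ → GL n k) : Subgroup (GL n k) :=
  G ⊓ Subgroup.centralizer (Set.range μ)

/-- `h` is a regular function on `P` with `h (x b) = λ(b)⁻¹ h x` for `b` in `B`, where `λ` is
extended to `B = T ⋉ R_u B`. -/
def IsInd (P B T : Subgroup (GL n k)) (χ : T →* kˣ) (h : P → k) : Prop :=
  h ∈ regFun P ∧ ∀ (x x' : P) (t : T), ∀ u ∈ B, IsUnip u →
    x'.1 = x.1 * (t.1 * u) → h x' = (χ t)⁻¹.val * h x

/-- The induced representation `ind_B^P λ`. The group `P` acts by `(y • h) x = h (y⁻¹ x)`. -/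
def ind (P B T : Subgroup (GL n k)) (χ : T →* kˣ) : Submodule k (P → k) where
  carrier := {h | IsInd P B T χ h}
  add_mem' ha hb := ⟨add_mem ha.1 hb.1, fun x x' t u hu hu' e => by
    simp only [Pi.add_apply, ha.2 x x' t u hu hu' e, hb.2 x x' t u hu hu' e, mul_add]⟩
  zero_mem' := ⟨zero_mem _, fun _ _ _ _ _ _ _ => by simp⟩
  smul_mem' c h hh := ⟨Subalgebra.smul_mem _ hh.1 c, fun x x' t u hu hu' e => by
    simp only [Pi.smul_apply, hh.2 x x' t u hu hu' e, smul_eq_mul]; ring⟩

end groups

section zip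

variable {k : Type} [Field k] {n : Type} [Fintype n] [DecidableEq n]
  (p : ℕ) [Fact p.Prime] [CharP k p]

/-- The Frobenius endomorphism `(g_ij) ↦ (g_ij ^ p)`. -/
def frob : GL n k →* GL n k := GeneralLinearGroup.map (frobenius k p)

/-- Closed subgroups defined over the prime field. -/
def DefinedOverFp (H : Subgroup (GL n k)) : Prop := H.map (frob p) = H

variable (G : Subgroup (GL n k)) (μ : kˣ → GL n k) (B T : Subgroup (GL n k))

/-- The zip group: pairs `(x, y)` in `P × Q` with `φ (θ^P_L x) = θ^Q_M y`. Here `Q` is the image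
of `P₊(μ)` under Frobenius, and `θ^Q_M (φ y') = φ (θ^{P₊}_L y')`. -/
def zipGroup : Set (GL n k × GL n k) :=
  {e | e.1 ∈ Pminus G μ ∧ ∃ y' ∈ Pplus G μ, e.2 = frob p y' ∧
    ∃ l l', Lim (fun t => (μ t)⁻¹) e.1 l ∧ Lim μ y' l' ∧ frob p l = frob p l'}

/-- Global sections over `[E \ G]` of the vector bundle attached to `V = ind_B^P λ`: regular maps
`f : G → V` (elements of `k[G] ⊗ V`) that are equivariant for the zip group. -/
def sec (χ : T →* kˣ) : Submodule k (G → Pminus G μ → k) :=
  regMaps k (regFun G) (ind (Pminus G μ) B T χ) ⊓ equivariant k G (Pminus G μ) (zipGroup p G μ)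

noncomputable instance : DecidableEq (Additive (charGroup T)) := Classical.decEq _

/-- The family `λ ↦ H⁰(G-Zip^μ, V_I(λ))`, indexed by the character group written additively. -/
def secFam (l : Additive (charGroup T)) : Submodule k (G → Pminus G μ → k) :=
  sec p G μ B T l.toMul.1

/-- The maps `V_I(λ) ⊗ V_I(λ') → V_I(λ + λ')` are given by the product of functions. -/
instance : SetLike.GradedMonoid (secFam p G μ B T) where
  one_mem := ⟨Submodule.subset_span ⟨1, one_mem _, 1, ⟨one_mem _, fun _ _ t _ _ _ _ => by simp⟩,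
    by ext; simp⟩, fun _ _ _ _ _ _ _ => rfl⟩
  mul_mem := by
    rintro i j f f' ⟨h1, h2⟩ ⟨h1', h2'⟩
    refine ⟨?_, fun x y h g g' e z => congrArg₂ (· * ·) (h2 x y h g g' e z) (h2' x y h g g' e z)⟩
    have h3 := Submodule.mul_mem_mul h1 h1'
    rw [regMaps, regMaps, Submodule.span_mul_span] at h3
    refine Submodule.span_le.2 ?_ h3
    rintro _ ⟨_, ⟨a, ha, h, hh, rfl⟩, _, ⟨a', ha', h', hh', rfl⟩, rfl⟩
    refine Submodule.subset_span ⟨a * a', mul_mem ha ha', h * h',
      ⟨mul_mem hh.1 hh'.1, fun x x' t u hu hu' e => ?_⟩, by ext; simp; ring⟩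
    rw [Pi.mul_apply, hh.2 x x' t u hu hu' e, hh'.2 x x' t u hu hu' e]
    simp
    ring

/-- The ring of automorphic forms `⨁_λ H⁰(G-Zip^μ, V_I(λ))` is finitely generated. -/
def RzipFG : Prop := GradedFG (secFam p G μ B T)

end zip

end ZipDefs
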