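import Pool.Agent.Work.MP_5c492e_ag.NF
import Mathlib
import Pool.Agent.Work.MP_5c492e_ag.Defs

-- merged part: Pool.Agent.Work.MP_5c492e_ag.Smooth
section
-- merged part: Pool.Agent.Work.MP_5c492e_ag.Grp
section
/-! Algebraic groups: identity component, Lie-Kolchin, orbits. -/

namespace ZipFG

open Function Set
open scoped commutatorElement

variable {k : Type} [Field k] {Γ : Type} [Group Γ] [Reg k Γ] [RegMul Γ] [RegInv Γ]

omit [RegMul Γ] [RegInv Γ] in
lemma Irr.subgroup {H : Subgroup Γ} (hH : Irr (H : Set Γ)) : Irr (univ : Set H) :=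
  Irr.univ_subtype (P := fun x => x ∈ H) hH

omit [RegMul Γ] [RegInv Γ] in
lemma ZClosed.affSub [Aff Γ] {H : Subgroup Γ} (hH : ZClosed (H : Set Γ)) : Aff H :=
  ZClosed.aff (P := fun x => x ∈ H) hH

/-- The closure of a subgroup. -/
def zclSub (H : Subgroup Γ) : Subgroup Γ where
  carrier := zcl (H : Set Γ)
  one_mem' := subset_zcl _ H.one_mem
  mul_mem' {x y} hx hy := by
    refine (zclosed_zcl _).mem_of_zcl (f := fun y => x * y) (by fun_prop) (fun h hh => ?_) hy
    exact zcl_map (f := fun x => x * h) (by fun_prop) (fun z hz => H.mul_mem hz hh) hx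
  inv_mem' {x} hx := zcl_map (f := fun x => x⁻¹) (by fun_prop) (fun z hz => H.inv_mem hz) hx

lemma le_zclSub (H : Subgroup Γ) : H ≤ zclSub H := subset_zcl _

lemma zclosed_zclSub (H : Subgroup Γ) : ZClosed (zclSub H : Set Γ) := zclosed_zcl _

/-- The identity component. -/
def idc (H : Subgroup Γ) : Subgroup Γ where
  carrier := {x | ∃ S : Set Γ, Irr S ∧ S ⊆ H ∧ 1 ∈ S ∧ x ∈ S}
  one_mem' := ⟨{1}, irr_singleton _, by simp, rfl, rfl⟩
  mul_mem' := by
    rintro x y ⟨S, hS, hSH, h1, hx⟩ ⟨T, hT, hTH, h1', hy⟩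
    refine ⟨_, (hS.prod hT).image (f := fun p => p.1 * p.2) (by fun_prop), ?_,
      ⟨(1, 1), ⟨h1, h1'⟩, by simp⟩, ⟨(x, y), ⟨hx, hy⟩, rfl⟩⟩
    rintro _ ⟨p, hp, rfl⟩
    exact H.mul_mem (hSH hp.1) (hTH hp.2)
  inv_mem' := by
    rintro x ⟨S, hS, hSH, h1, hx⟩
    refine ⟨_, hS.image (f := fun p => p⁻¹) (by fun_prop), ?_, ⟨1, h1, by simp⟩, ⟨x, hx, rfl⟩⟩
    rintro _ ⟨p, hp, rfl⟩
    exact H.inv_mem (hSH hp)

lemma idc_le (H : Subgroup Γ) : idc H ≤ H := fun _ ⟨_, _, h, _, hx⟩ => h hx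

lemma Irr.subset_idc {H : Subgroup Γ} {S : Set Γ} (hS : Irr S) (h : S ⊆ H) (h1 : 1 ∈ S) :
    S ⊆ idc H := fun _ hx => ⟨S, hS, h, h1, hx⟩

lemma Irr.le_idc {H K : Subgroup Γ} (hK : Irr (K : Set Γ)) (h : K ≤ H) : K ≤ idc H :=
  hK.subset_idc h K.one_mem

lemma irr_idc (H : Subgroup Γ) : Irr (idc H : Set Γ) := by
  refine irr_of_pair ⟨1, (idc H).one_mem⟩ ?_
  rintro x ⟨S, hS, hSH, h1, hx⟩ y ⟨T, hT, hTH, h1', hy⟩
  have := (hS.prod hT).image (f := fun p => p.1 * p.2) (by fun_prop)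
  refine ⟨_, this, this.subset_idc ?_ ⟨(1, 1), ⟨h1, h1'⟩, by simp⟩,
    ⟨(x, 1), ⟨hx, h1'⟩, by simp⟩, ⟨(1, y), ⟨h1, hy⟩, by simp⟩⟩
  rintro _ ⟨p, hp, rfl⟩
  exact H.mul_mem (hSH hp.1) (hTH hp.2)

lemma irr_of_le_idc {H : Subgroup Γ} (h : H ≤ idc H) : Irr (H : Set Γ) := by
  rw [le_antisymm h (idc_le H)]; exact irr_idc H

lemma zclosed_idc {H : Subgroup Γ} (hH : ZClosed (H : Set Γ)) : ZClosed (idc H : Set Γ) :=
  (irr_idc H).zcl.subset_idc (hH.zcl_subset (idc_le H)) (subset_zcl _ (idc H).one_mem)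

lemma idc_mono {H K : Subgroup Γ} (h : H ≤ K) : idc H ≤ idc K :=
  (irr_idc H).le_idc ((idc_le H).trans h)

lemma conj_mem_idc {H K : Subgroup Γ} {g : Γ} (hg : ∀ x ∈ H, g * x * g⁻¹ ∈ K) {x : Γ}
    (hx : x ∈ idc H) : g * x * g⁻¹ ∈ idc K := by
  refine ((irr_idc H).image (f := fun x => g * x * g⁻¹) (by fun_prop)).subset_idc ?_
    ⟨1, (idc H).one_mem, by simp⟩ ⟨x, hx, rfl⟩
  rintro _ ⟨y, hy, rfl⟩
  exact hg y (idc_le H hy)

lemma exists_irr_cover {X : Type} [Reg k X] [Aff X] {C : Set X} (hC : ZClosed C) :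
    ∃ s : Set (Set X), s.Finite ∧ (∀ S ∈ s, Irr S ∧ S ⊆ C) ∧ C ⊆ ⋃₀ s := by
  by_contra h
  obtain ⟨D, ⟨hD, hD'⟩, hmin⟩ := exists_minimal_closed
    (fun C : Set X => ZClosed C ∧
      ¬ ∃ s : Set (Set X), s.Finite ∧ (∀ S ∈ s, Irr S ∧ S ⊆ C) ∧ C ⊆ ⋃₀ s) id
    (fun _ h => h.1) ⟨C, hC, h⟩
  have hne : D.Nonempty := by
    by_contra h
    exact hD' ⟨∅, by simp, by simp, by simpa [not_nonempty_iff_eq_empty] using h⟩
  have hirr : ¬ Irr D := fun h => hD' ⟨{D}, by simp, by simp [h], by simp⟩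
  simp only [Irr, hne, true_and, not_forall, not_or] at hirr
  obtain ⟨F, G, hF, hG, hFG, ⟨x, hx, hFx⟩, ⟨y, hy, hGy⟩⟩ := hirr
  have key : ∀ F : X → k, IsReg F → ∀ x ∈ D, F x ≠ 0 → ∃ s : Set (Set X), s.Finite ∧
      (∀ S ∈ s, Irr S ∧ S ⊆ D ∩ {x | F x = 0}) ∧ D ∩ {x | F x = 0} ⊆ ⋃₀ s := by
    intro F hF x hx hFx
    by_contra h
    exact hFx (hmin _ ⟨hD.inter (zclosed_zero hF), h⟩ inter_subset_left hx).2
  obtain ⟨s, hs, h1, h2⟩ := key F hF x hx hFx
  obtain ⟨t, ht, h3, h4⟩ := key G hG y hy hGy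
  refine hD' ⟨s ∪ t, hs.union ht, ?_, fun z hz => ?_⟩
  · rintro S (hS | hS)
    · exact ⟨(h1 S hS).1, (h1 S hS).2.trans inter_subset_left⟩
    · exact ⟨(h3 S hS).1, (h3 S hS).2.trans inter_subset_left⟩
  · rw [sUnion_union]
    rcases mul_eq_zero.1 (hFG z hz) with h | h
    · exact Or.inl (h2 ⟨hz, h⟩)
    · exact Or.inr (h4 ⟨hz, h⟩)

lemma idc_finite [Aff Γ] {H : Subgroup Γ} (hH : ZClosed (H : Set Γ)) :
    ∃ s : Set Γ, s.Finite ∧ s ⊆ H ∧ ∀ h ∈ H, ∃ x ∈ s, x⁻¹ * h ∈ idc H := by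
  obtain ⟨s, hs, h1, h2⟩ := exists_irr_cover hH
  choose! x hx using fun S (hS : S ∈ s) => (h1 S hS).1.1
  refine ⟨x '' s, hs.image _, ?_, fun h hh => ?_⟩
  · rintro _ ⟨S, hS, rfl⟩; exact (h1 S hS).2 (hx S hS)
  · obtain ⟨S, hS, hhS⟩ := h2 hh
    refine ⟨x S, ⟨S, hS, rfl⟩, ?_⟩
    refine ((h1 S hS).1.image (f := fun y => (x S)⁻¹ * y) (by fun_prop)).subset_idc ?_
      ⟨x S, hx S hS, by simp⟩ ⟨h, hhS, rfl⟩
    rintro _ ⟨y, hy, rfl⟩
    exact H.mul_mem (H.inv_mem ((h1 S hS).2 (hx S hS))) ((h1 S hS).2 hy)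

omit [RegInv Γ] in
lemma Irr.le_of_finite_cover {H K : Subgroup Γ} (hH : Irr (H : Set Γ)) (hK : ZClosed (K : Set Γ))
    {s : Set Γ} (hs : s.Finite) (h : ∀ y ∈ H, ∃ x ∈ s, x⁻¹ * y ∈ K) : H ≤ K := by
  obtain ⟨x, -, hx⟩ := hH.subset_of_biUnion hs (C := fun x => {y | x⁻¹ * y ∈ K})
    (fun x _ => hK.preimage (f := fun y => x⁻¹ * y) (by fun_prop)) (fun y hy => by
      simpa using h y hy)
  intro y hy
  have h1 : x⁻¹ * 1 ∈ K := hx H.one_mem
  simpa using K.mul_mem (K.inv_mem h1) (hx hy)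

lemma Irr.commutator {H K : Subgroup Γ} (hH : Irr (H : Set Γ)) (hK : Irr (K : Set Γ)) :
    Irr ((⁅H, K⁆ : Subgroup Γ) : Set Γ) := by
  refine irr_of_le_idc (Subgroup.commutator_le.2 fun a ha b hb => ?_)
  refine ((hH.prod hK).image (f := fun p => p.1 * p.2 * p.1⁻¹ * p.2⁻¹) (by fun_prop)).subset_idc
    ?_ ⟨(1, 1), ⟨H.one_mem, K.one_mem⟩, by simp⟩ ⟨(a, b), ⟨ha, hb⟩, rfl⟩
  rintro _ ⟨p, hp, rfl⟩
  exact Subgroup.commutator_mem_commutator hp.1 hp.2

lemma Irr.sup {H K : Subgroup Γ} (hH : Irr (H : Set Γ)) (hK : Irr (K : Set Γ)) :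
    Irr ((H ⊔ K : Subgroup Γ) : Set Γ) :=
  irr_of_le_idc (sup_le (hH.le_idc le_sup_left) (hK.le_idc le_sup_right))

lemma irr_derivedSeries (h : Irr (univ : Set Γ)) (n : ℕ) : Irr (derivedSeries Γ n : Set Γ) := by
  induction n with
  | zero => simpa using h
  | succ n ih => exact ih.commutator ih

omit [RegInv Γ] in
lemma mul_dense_eq {G : Subgroup Γ} (hG : Irr (G : Set Γ)) [RegInv Γ] {δ : Γ → k} (hδ : IsReg δ)
    (h1 : δ 1 ≠ 0) {K : Subgroup Γ} (h : ∀ g ∈ G, δ g ≠ 0 → g ∈ K) : G ≤ K := by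
  intro g hg
  obtain ⟨z, hz, h2, h3⟩ := hG.exists_ne (F := δ) (G := fun x => δ (g * x⁻¹)) hδ (by fun_prop)
    G.one_mem h1 hg (by simpa using h1)
  simpa using K.mul_mem (h _ (G.mul_mem hg (G.inv_mem hz)) h3) (h z hz h2)

section LK
variable {W : Type*} [AddCommGroup W] [Module k W]

/-- Rational representations. -/
def RatRep {Γ : Type} [Monoid Γ] [Reg k Γ] (ρ : Γ →* Module.End k W) : Prop :=
  ∀ w, RegV (fun g => ρ g w)

lemma exists_minimal_stable [FiniteDimensional k W] (S : Set (Module.End k W)) (V : Submodule k W)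
    (hV : V ≠ ⊥) (hS : ∀ f ∈ S, ∀ v ∈ V, f v ∈ V) :
    ∃ V' ≤ V, V' ≠ ⊥ ∧ (∀ f ∈ S, ∀ v ∈ V', f v ∈ V') ∧
      ∀ V'' ≤ V', V'' ≠ ⊥ → (∀ f ∈ S, ∀ v ∈ V'', f v ∈ V'') → V'' = V' := by
  obtain ⟨V', ⟨h1, h2, h3⟩, hmin⟩ := (wellFounded_lt (α := Submodule k W)).has_min
    {V' | V' ≤ V ∧ V' ≠ ⊥ ∧ ∀ f ∈ S, ∀ v ∈ V', f v ∈ V'} ⟨V, le_rfl, hV, hS⟩
  exact ⟨V', h1, h2, h3, fun V'' h4 h5 h6 =>
    eq_of_le_of_not_lt h4 (hmin V'' ⟨h4.trans h1, h5, h6⟩)⟩

lemma exists_common_eigenvector [IsAlgClosed k] [FiniteDimensional k W] [Nontrivial W]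
    (S : Set (Module.End k W)) (hS : ∀ f ∈ S, ∀ g ∈ S, f * g = g * f) :
    ∃ v : W, v ≠ 0 ∧ ∀ f ∈ S, ∃ a : k, f v = a • v := by
  obtain ⟨V, -, h1, h2, h3⟩ := exists_minimal_stable S ⊤ top_ne_bot (by simp)
  obtain ⟨v, hv, hv0⟩ := V.ne_bot_iff.1 h1
  refine ⟨v, hv0, fun f hf => ?_⟩
  have : Nontrivial V := Submodule.nontrivial_iff_ne_bot.2 h1
  obtain ⟨a, ha⟩ := Module.End.exists_eigenvalue (f.restrict (h2 f hf))
  obtain ⟨w, hw, hw0⟩ := ha.exists_hasEigenvector
  have hw' : f w = a • w := congrArg Subtype.val (Module.End.mem_eigenspace_iff.1 hw)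
  have := h3 (V ⊓ f.eigenspace a) inf_le_left
    ((Submodule.ne_bot_iff _).2 ⟨w, ⟨w.2, Module.End.mem_eigenspace_iff.2 hw'⟩, by simpa using hw0⟩)
    (fun g hg u hu => ⟨h2 g hg u hu.1, Module.End.mem_eigenspace_iff.2 (by
      rw [← Module.End.mul_apply, hS f hf g hg, Module.End.mul_apply,
        Module.End.mem_eigenspace_iff.1 hu.2, map_smul])⟩)
  rw [← this] at hv
  exact ⟨a, Module.End.mem_eigenspace_iff.1 hv.2⟩

lemma exists_dual_one {v : W} (hv : v ≠ 0) : ∃ η : W →ₗ[k] k, η v = 1 := by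
  obtain ⟨η, hη⟩ := Module.Projective.exists_dual_ne_zero k hv
  exact ⟨(η v)⁻¹ • η, by simp [hη]⟩

lemma lie_kolchin_simple [IsAlgClosed k] [FiniteDimensional k W] [Nontrivial W]
    (hΓ : Irr (univ : Set Γ)) [hs : Group.IsSolvable Γ] {ρ : Γ →* Module.End k W} (hρ : RatRep ρ)
    (hsimple : ∀ V : Submodule k W, V ≠ ⊥ → (∀ g, ∀ v ∈ V, ρ g v ∈ V) → V = ⊤) (g : Γ) :
    ∃ a : k, ∀ w, ρ g w = a • w := by
  obtain ⟨N, hN⟩ := hs
  have key : ∀ n, (∀ x ∈ derivedSeries Γ (n + 1), ∃ a : k, ∀ w, ρ x w = a • w) →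
      ∀ x ∈ derivedSeries Γ n, ∃ a : k, ∀ w, ρ x w = a • w := by
    intro n ih
    obtain ⟨w0, hw0⟩ := exists_ne (0 : W)
    obtain ⟨η0, hη0⟩ := exists_dual_one (k := k) hw0
    have h1 : ∀ x ∈ derivedSeries Γ (n + 1), ρ x = 1 := by
      intro x hx
      have h2 := (irr_derivedSeries hΓ (n + 1)).eq_one_of_pow ((hρ w0).lin η0)
        (m := Module.finrank k W) Module.finrank_pos.ne' (fun y hy => by
          obtain ⟨a, ha⟩ := ih y hy
          have h3 : ρ y = a • LinearMap.id := LinearMap.ext ha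
          have h4 : y ∈ ((LinearMap.det.comp ρ).toHomUnits).ker :=
            Abelianization.commutator_subset_ker _
              (derivedSeries_antitone Γ (Nat.le_add_left 1 n) hy)
          have h5 : LinearMap.det (ρ y) = 1 := congrArg Units.val h4
          rw [h3, LinearMap.det_smul, LinearMap.det_id, mul_one] at h5
          simpa [ha, hη0] using h5) hx (Subgroup.one_mem _)
      obtain ⟨a, ha⟩ := ih x hx
      simp only [ha, map_smul, hη0, smul_eq_mul, mul_one, map_one, Module.End.one_apply] at h2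
      ext w; simp [ha, h2]
    obtain ⟨v, hv0, hv⟩ := exists_common_eigenvector (ρ '' derivedSeries Γ n) (by
      rintro _ ⟨x, hx, rfl⟩ _ ⟨y, hy, rfl⟩
      have := h1 _ (Subgroup.commutator_mem_commutator hx hy)
      rw [← map_mul, ← map_mul, show x * y = ⁅x, y⁆ * (y * x) by group, map_mul, this, one_mul])
    obtain ⟨η, hη⟩ := exists_dual_one (k := k) hv0
    have hv' : ∀ x ∈ derivedSeries Γ n, ρ x v = η (ρ x v) • v := by
      intro x hx
      obtain ⟨a, ha⟩ := hv _ ⟨x, hx, rfl⟩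
      simp [ha, hη]
    let V : Submodule k W := ⨅ x : derivedSeries Γ n, (ρ x).eigenspace (η (ρ x v))
    have hV : ∀ w, w ∈ V ↔ ∀ x ∈ derivedSeries Γ n, ρ x w = η (ρ x v) • w := by
      intro w; simp [V, Submodule.mem_iInf]
    have := hsimple V ((Submodule.ne_bot_iff _).2 ⟨v, (hV v).2 hv', hv0⟩) (fun g w hw => by
      rw [hV] at hw ⊢
      intro x hx
      have hc : ∀ g, g⁻¹ * x * g ∈ derivedSeries Γ n := fun g =>
        (derivedSeries_normal Γ n).conj_mem' x hx g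
      have he : ∀ g w, ρ x (ρ g w) = ρ g (ρ (g⁻¹ * x * g) w) := fun g w => by
        rw [← Module.End.mul_apply, ← Module.End.mul_apply, ← map_mul, ← map_mul]
        congr 2; group
      have h2 := hΓ.const_of_finite (F := fun g => η (ρ (g⁻¹ * x * g) v))
        (((hρ v).comp (by fun_prop)).lin η) ((ρ x).finite_hasEigenvalue.subset (by
          rintro _ ⟨g, -, rfl⟩
          refine Module.End.hasEigenvalue_of_hasEigenvector (x := ρ g v) ⟨?_, fun h => hv0 ?_⟩
          · rw [Module.End.mem_eigenspace_iff, he]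
            conv_lhs => rw [hv' _ (hc g), map_smul]
          · have := congrArg (ρ g⁻¹) h
            rwa [← Module.End.mul_apply, ← map_mul, inv_mul_cancel, map_one, map_zero] at this))
        (mem_univ g) (mem_univ 1)
      simp only [inv_one, one_mul, mul_one] at h2
      rw [he, hw _ (hc g), map_smul, h2])
    intro x hx
    exact ⟨_, fun w => (hV w).1 (this ▸ Submodule.mem_top) x hx⟩
  have : ∀ m n, n + m = N → ∀ x ∈ derivedSeries Γ n, ∃ a : k, ∀ w, ρ x w = a • w := by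
    intro m
    induction m with
    | zero =>
      rintro n rfl x hx
      obtain rfl : x = 1 := by simpa [show derivedSeries Γ n = ⊥ from hN] using hx
      exact ⟨1, by simp⟩
    | succ m ih => intro n hn; exact key n (ih _ (by omega))
  exact this N 0 (by simp) g (by simp)

omit [RegMul Γ] [RegInv Γ] in
lemma RatRep.sub {ρ : Γ →* Module.End k W} (hρ : RatRep ρ) (V : Submodule k W)
    (hV : ∀ g, V ≤ V.comap (ρ g)) : RatRep (Representation.subrepresentation ρ V hV) :=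
  fun w => (hρ w).codRestrict V fun g => hV g w.2

omit [RegMul Γ] [RegInv Γ] in
lemma RatRep.comp {Γ' : Type} [Group Γ'] [Reg k Γ'] {ρ : Γ →* Module.End k W} (hρ : RatRep ρ)
    (f : Γ' →* Γ) (hf : IsReg f) : RatRep (ρ.comp f) := fun w => (hρ w).comp hf

omit [RegMul Γ] in
lemma RatRep.dual [FiniteDimensional k W] {ρ : Γ →* Module.End k W} (hρ : RatRep ρ) :
    RatRep (Representation.dual ρ) := fun η => by
  refine regV_of_fd ⊤ (fun _ => trivial) fun ξ => ?_
  obtain ⟨w, rfl⟩ := (Module.evalEquiv k W).surjective ξ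
  exact ((hρ w).comp (f := fun g => g⁻¹) (by fun_prop)).lin η

theorem lie_kolchin [IsAlgClosed k] [FiniteDimensional k W] [Nontrivial W]
    (hΓ : Irr (univ : Set Γ)) [hs : Group.IsSolvable Γ] {ρ : Γ →* Module.End k W}
    (hρ : RatRep ρ) : ∃ v : W, v ≠ 0 ∧ ∀ g, ∃ a : k, ρ g v = a • v := by
  obtain ⟨V, -, h1, h2, h3⟩ := exists_minimal_stable (range ρ) ⊤ top_ne_bot (by simp)
  have : Nontrivial V := Submodule.nontrivial_iff_ne_bot.2 h1
  have hV : ∀ g, V ≤ V.comap (ρ g) := fun g v hv => h2 _ ⟨g, rfl⟩ v hv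
  obtain ⟨v, hv0⟩ := exists_ne (0 : V)
  refine ⟨v, by simpa using hv0, fun g => ?_⟩
  obtain ⟨a, ha⟩ := lie_kolchin_simple hΓ (hρ.sub V hV) (fun V' h4 h5 => by
    apply Submodule.map_injective_of_injective V.injective_subtype
    rw [Submodule.map_subtype_top]
    refine h3 _ (Submodule.map_subtype_le _ _) (fun h => h4 (Submodule.map_injective_of_injective
      V.injective_subtype (h.trans (Submodule.map_bot _).symm))) ?_
    rintro _ ⟨g, rfl⟩ _ ⟨w, hw, rfl⟩
    exact ⟨_, h5 g w hw, rfl⟩) g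
  exact ⟨a, congrArg Subtype.val (ha v)⟩

/-- Lie-Kolchin: an invariant hyperplane in an invariant subspace. -/
theorem lie_kolchin_dual [IsAlgClosed k] [FiniteDimensional k W] {H : Subgroup Γ}
    (hH : Irr (H : Set Γ)) [hs : Group.IsSolvable H] {ρ : Γ →* Module.End k W} (hρ : RatRep ρ)
    {V V0 : Submodule k W} (hV : ∀ h ∈ H, ∀ v ∈ V, ρ h v ∈ V) (hV0 : ∀ h ∈ H, ∀ v ∈ V0, ρ h v ∈ V0)
    (hne : ¬ V ≤ V0) : ∃ η : W →ₗ[k] k, (∃ v ∈ V, η v ≠ 0) ∧ (∀ v ∈ V ⊓ V0, η v = 0) ∧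
      ∀ h ∈ H, ∃ a : k, ∀ v ∈ V, η (ρ h v) = a * η v := by
  let ρ1 := Representation.subrepresentation (ρ.comp H.subtype) V fun h v hv => hV h h.2 v hv
  have hρ1 : RatRep ρ1 := (hρ.comp H.subtype isReg_val).sub _ _
  let A : Submodule k (Module.Dual k V) := (V0.comap V.subtype).dualAnnihilator
  have hA : ∀ g, A ≤ A.comap (ρ1.dual g) := fun g η hη => by
    rw [Submodule.mem_comap, Submodule.mem_dualAnnihilator]
    intro w hw
    exact (Submodule.mem_dualAnnihilator _).1 hη _ (hV0 _ (g⁻¹).2 _ hw)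
  have : Nontrivial A := Submodule.nontrivial_iff_ne_bot.2 fun h => hne (by
    rw [Submodule.dualAnnihilator_eq_bot_iff, Submodule.comap_subtype_eq_top] at h
    exact h)
  obtain ⟨η, hη0, hη⟩ := lie_kolchin (Γ := H) hH.subgroup (hρ1.dual.sub A hA)
  obtain ⟨η', hη'⟩ := LinearMap.exists_extend η.1
  have e : ∀ v : V, η' v = η.1 v := fun v => LinearMap.congr_fun hη' v
  refine ⟨η', ?_, fun v hv => ?_, fun h hh => ?_⟩
  · by_contra h
    push Not at h
    exact hη0 (Subtype.ext (LinearMap.ext fun v => by rw [← e, h v v.2]; rfl))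
  · rw [e ⟨v, hv.1⟩]
    exact (Submodule.mem_dualAnnihilator _).1 η.2 _ hv.2
  · obtain ⟨a, ha⟩ := hη (⟨h, hh⟩⁻¹)
    refine ⟨a, fun v hv => ?_⟩
    have := LinearMap.congr_fun (congrArg Subtype.val ha) ⟨v, hv⟩
    rw [e ⟨_, hV h hh v hv⟩, e ⟨v, hv⟩]
    simpa [ρ1, Representation.dual_apply, Module.Dual.transpose_apply, LinearMap.restrict_apply]
      using this

end LK

section orbit
variable {X : Type} [Reg k X]

lemma orbit_open [IsAlgClosed k] [Aff Γ] [Aff X] (hΓ : Irr (univ : Set Γ)) {a : Γ → X → X}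
    (ha : IsReg (fun p : Γ × X => a p.1 p.2)) (h1 : ∀ x, a 1 x = x)
    (hmul : ∀ g h x, a (g * h) x = a g (a h x)) (x : X) (g : Γ) :
    ∃ F : X → k, IsReg F ∧ F (a g x) ≠ 0 ∧
      ∀ z ∈ zcl (range fun g => a g x), F z ≠ 0 → z ∈ range fun g => a g x := by
  have ha1 : ∀ g, IsReg (a g) := fun g => ha.comp (g := fun x => (g, x)) (by fun_prop)
  obtain ⟨F, hF, ⟨g0, hg0⟩, h⟩ := chevalley hΓ (f := fun g => a g x)
    (ha.comp (g := fun g => (g, x)) (by fun_prop))
  refine ⟨fun z => F (a (g0 * g⁻¹) z), hF.comp (ha1 _), by simpa [← hmul] using hg0,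
    fun z hz hFz => ?_⟩
  obtain ⟨g1, hg1⟩ := h _ (zcl_map (ha1 (g0 * g⁻¹)) (by
    rintro _ ⟨g', rfl⟩; exact ⟨g0 * g⁻¹ * g', hmul _ _ _⟩) hz) hFz
  refine ⟨(g0 * g⁻¹)⁻¹ * g1, ?_⟩
  simp only at hg1 ⊢
  rw [hmul, hg1, ← hmul, inv_mul_cancel, h1]

end orbit

end ZipFG
end

-- merged part: Pool.Agent.Work.MP_5c492e_ag.Tors
section
/-! Locally finite fields: torsion in the general linear group, conjugacy of complements. -/

namespace ZipFG

open Function Set

/-- Locally finite fields. -/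
class LF (k : Type) [Field k] : Prop where
  fin : ∀ s : Set k, s.Finite → (Subring.closure s : Set k).Finite

lemma lf_of_algebraic (p : ℕ) [Fact p.Prime] (k : Type) [Field k] [Algebra (ZMod p) k]
    [Algebra.IsAlgebraic (ZMod p) k] : LF k := ⟨fun s hs => by
  have h1 : (Algebra.adjoin (ZMod p) s).toSubmodule.FG :=
    fg_adjoin_of_finite hs fun x _ => (Algebra.IsAlgebraic.isAlgebraic x).isIntegral
  have : Module.Finite (ZMod p) (Algebra.adjoin (ZMod p) s).toSubmodule := Module.Finite.iff_fg.2 h1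
  have : Finite (Algebra.adjoin (ZMod p) s).toSubmodule := Module.finite_of_finite (ZMod p)
  refine (Set.toFinite ((Algebra.adjoin (ZMod p) s).toSubmodule : Set k)).subset ?_
  exact (Subring.closure_le (t := (Algebra.adjoin (ZMod p) s).toSubring)).2 Algebra.subset_adjoin⟩

variable {k : Type} [Field k]

instance [LF k] : Fact (ringChar k).Prime := ⟨by
  have : Finite (Subring.closure (∅ : Set k)) := (LF.fin ∅ finite_empty).to_subtype
  exact CharP.char_prime_of_ne_zero k (CharP.char_ne_zero_of_finite (Subring.closure (∅ : Set k)) _)⟩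

variable (k) in
/-- Elements whose order is a power of the characteristic. -/
def Un {Γ : Type*} [Monoid Γ] (g : Γ) : Prop := ∃ e : ℕ, g ^ (ringChar k ^ e) = 1

variable (k) in
/-- Elements whose order is prime to the characteristic. -/
def Ss {Γ : Type*} [Monoid Γ] (g : Γ) : Prop := ∃ m : ℕ, (m : k) ≠ 0 ∧ g ^ m = 1

section
variable {Γ Γ' : Type*}

lemma Un.map [Monoid Γ] [Monoid Γ'] {g : Γ} (h : Un k g) (f : Γ →* Γ') : Un k (f g) := by
  obtain ⟨e, he⟩ := h
  exact ⟨e, by rw [← map_pow, he, map_one]⟩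

lemma Ss.map [Monoid Γ] [Monoid Γ'] {g : Γ} (h : Ss k g) (f : Γ →* Γ') : Ss k (f g) := by
  obtain ⟨m, hm, he⟩ := h
  exact ⟨m, hm, by rw [← map_pow, he, map_one]⟩

lemma un_one [Monoid Γ] : Un k (1 : Γ) := ⟨0, by simp⟩

lemma ss_one [Monoid Γ] : Ss k (1 : Γ) := ⟨1, by simp, by simp⟩

lemma Un.conj [Group Γ] {g : Γ} (h : Un k g) (x : Γ) : Un k (x * g * x⁻¹) :=
  h.map (MulAut.conj x).toMonoidHom

lemma Ss.conj [Group Γ] {g : Γ} (h : Ss k g) (x : Γ) : Ss k (x * g * x⁻¹) :=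
  h.map (MulAut.conj x).toMonoidHom

lemma Un.of_conj [Group Γ] {g x : Γ} (h : Un k (x * g * x⁻¹)) : Un k g := by
  simpa [mul_assoc] using h.conj x⁻¹

lemma Ss.of_conj [Group Γ] {g x : Γ} (h : Ss k (x * g * x⁻¹)) : Ss k g := by
  simpa [mul_assoc] using h.conj x⁻¹

lemma Ss.inv [Group Γ] {g : Γ} (h : Ss k g) : Ss k g⁻¹ := by
  obtain ⟨m, hm, he⟩ := h
  exact ⟨m, hm, by rw [inv_pow, he, inv_one]⟩

lemma Un.inv [Group Γ] {g : Γ} (h : Un k g) : Un k g⁻¹ := by
  obtain ⟨e, he⟩ := h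
  exact ⟨e, by rw [inv_pow, he, inv_one]⟩

lemma Ss.mul [Monoid Γ] {g h : Γ} (hg : Ss k g) (hh : Ss k h) (hc : Commute g h) :
    Ss k (g * h) := by
  obtain ⟨m, hm, he⟩ := hg
  obtain ⟨n, hn, he'⟩ := hh
  refine ⟨m * n, by simp [hm, hn], ?_⟩
  rw [hc.mul_pow, pow_mul, he, one_pow, mul_comm m, pow_mul, he', one_pow, one_mul]

lemma un_subgroup [Group Γ] {H : Subgroup Γ} {g : H} (h : Un k (g : Γ)) : Un k g := by
  obtain ⟨e, he⟩ := h
  exact ⟨e, Subtype.ext (by simpa using he)⟩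

lemma ss_subgroup [Group Γ] {H : Subgroup Γ} {g : H} (h : Ss k (g : Γ)) : Ss k g := by
  obtain ⟨e, h1, he⟩ := h
  exact ⟨e, h1, Subtype.ext (by simpa using he)⟩

variable [LF k]

lemma coprime_of_cast_ne {m : ℕ} (hm : (m : k) ≠ 0) (e : ℕ) : (ringChar k ^ e).Coprime m :=
  Nat.Coprime.pow_left e ((Nat.Prime.coprime_iff_not_dvd Fact.out).2 fun h =>
    hm ((ringChar.spec k m).2 h))

lemma Un.eq_one [Monoid Γ] {g : Γ} (h : Un k g) (h' : Ss k g) : g = 1 := by
  obtain ⟨e, he⟩ := h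
  obtain ⟨m, hm, he'⟩ := h'
  have := pow_gcd_eq_one.2 ⟨he, he'⟩
  rwa [coprime_of_cast_ne hm e, pow_one] at this

lemma Un.field {c : k} (h : Un k c) : c = 1 := by
  obtain ⟨e, he⟩ := h
  have := sub_pow_char_pow (R := k) (p := ringChar k) c 1 (n := e)
  rw [he, one_pow, sub_self] at this
  exact sub_eq_zero.1 (pow_eq_zero_iff (pow_pos (Nat.Prime.pos Fact.out) e).ne' |>.1 this)

lemma Un.eigen [Monoid Γ] {W : Type*} [AddCommGroup W] [Module k W] {g : Γ} (h : Un k g)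
    (ρ : Γ →* Module.End k W) {v : W} {a : k} (hv : ρ g v = a • v) : ρ g v = v := by
  by_cases hv0 : v = 0
  · simp [hv0]
  obtain ⟨e, he⟩ := h
  have h1 : ∀ n : ℕ, ρ (g ^ n) v = a ^ n • v := fun n => by
    induction n with
    | zero => simp
    | succ n ih => rw [pow_succ, map_mul, Module.End.mul_apply, hv, map_smul, ih, smul_smul,
        pow_succ']
  have h2 := h1 (ringChar k ^ e)
  rw [he, map_one, Module.End.one_apply] at h2
  have h3 : a ^ ringChar k ^ e = 1 := by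
    by_contra h4
    have : (a ^ ringChar k ^ e - 1) • v = 0 := by rw [sub_smul, ← h2, one_smul, sub_self]
    exact hv0 ((smul_eq_zero.1 this).resolve_left (sub_ne_zero.2 h4))
  rw [hv, Un.field ⟨e, h3⟩, one_smul]

lemma exists_jordan [Group Γ] {g : Γ} (hg : IsOfFinOrder g) :
    ∃ s u : Γ, Ss k s ∧ Un k u ∧ s ∈ Subgroup.zpowers g ∧ u ∈ Subgroup.zpowers g ∧ g = s * u := by
  obtain ⟨e, m, hm, h⟩ := Nat.exists_eq_pow_mul_and_not_dvd hg.orderOf_pos.ne' (ringChar k)
    (Nat.Prime.ne_one Fact.out)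
  have hm' : (m : k) ≠ 0 := fun h => hm ((ringChar.spec k m).1 h)
  obtain ⟨a, b, hab⟩ := Nat.isCoprime_iff_coprime.2 (coprime_of_cast_ne hm' e)
  have h0 : g ^ (((ringChar k ^ e : ℕ) : ℤ) * m) = 1 := by
    rw [← Nat.cast_mul, ← h, zpow_natCast, pow_orderOf_eq_one]
  refine ⟨g ^ (a * (ringChar k ^ e : ℕ)), g ^ (b * m), ⟨m, hm', ?_⟩, ⟨e, ?_⟩,
    Subgroup.zpow_mem_zpowers _ _, Subgroup.zpow_mem_zpowers _ _, by rw [← zpow_add, hab, zpow_one]⟩
  · rw [← zpow_natCast, ← zpow_mul, mul_assoc, mul_comm a, zpow_mul, h0, one_zpow]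
  · rw [← zpow_natCast, ← zpow_mul, mul_assoc, mul_comm b, mul_comm (m : ℤ), zpow_mul, h0, one_zpow]

lemma ss_field {c : k} (hc : c ≠ 0) : Ss k c := by
  have : Finite (Subring.closure ({c} : Set k)) := (LF.fin _ (finite_singleton c)).to_subtype
  have h1 : IsOfFinOrder (Units.mk0 c hc) := by
    have h2 : ¬ Injective (fun n : ℕ => (⟨c, Subring.subset_closure rfl⟩ :
      Subring.closure ({c} : Set k)) ^ n) := not_injective_infinite_finite _
    rw [← not_not (a := IsOfFinOrder _), ← injective_pow_iff_not_isOfFinOrder]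
    refine fun h => h2 fun a b hab => h (Units.ext ?_)
    simpa using congrArg Subtype.val hab
  obtain ⟨s, u, hs, hu, -, -, e⟩ := exists_jordan (k := k) h1
  have : u = 1 := Units.ext (hu.map (Units.coeHom k)).field
  rw [this, mul_one] at e
  exact (e ▸ hs).map (Units.coeHom k)

lemma ss_units (c : kˣ) : Ss k c := by
  obtain ⟨m, hm, h⟩ := ss_field c.ne_zero
  exact ⟨m, hm, Units.ext (by simpa using h)⟩

end

section gl
variable {n : Type} [Fintype n] [DecidableEq n] [LF k]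

lemma finite_closure_gl {s : Set (GL n k)} (hs : s.Finite) :
    (Subgroup.closure s : Set (GL n k)).Finite := by
  let R := Subring.closure (⋃ g ∈ s, ⋃ i, ⋃ j, ({g.val i j, (g⁻¹).val i j} : Set k))
  have hR : (R : Set k).Finite := LF.fin _ (hs.biUnion fun g _ =>
    finite_iUnion fun i => finite_iUnion fun j => toFinite _)
  let H : Subgroup (GL n k) :=
    { carrier := {g | ∀ i j, g.val i j ∈ R ∧ (g⁻¹).val i j ∈ R}
      mul_mem' := fun {a b} ha hb i j => by
        simp only [mul_inv_rev, Units.val_mul, Matrix.mul_apply]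
        exact ⟨sum_mem fun l _ => mul_mem (ha _ _).1 (hb _ _).1,
          sum_mem fun l _ => mul_mem (hb _ _).2 (ha _ _).2⟩
      one_mem' := fun i j => by
        simp only [inv_one, Units.val_one, Matrix.one_apply, and_self]
        split_ifs
        exacts [one_mem _, zero_mem _]
      inv_mem' := fun {a} ha i j => by simpa only [inv_inv] using (ha i j).symm }
  have h1 : Subgroup.closure s ≤ H := (Subgroup.closure_le _).2 fun g hg i j =>
    ⟨Subring.subset_closure (mem_biUnion hg (mem_iUnion₂.2 ⟨i, j, Or.inl rfl⟩)),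
      Subring.subset_closure (mem_biUnion hg (mem_iUnion₂.2 ⟨i, j, Or.inr rfl⟩))⟩
  refine Set.Finite.subset ?_ h1
  refine Set.Finite.of_finite_image (f := fun g : GL n k => fun i j => g.val i j) ?_
    fun a _ b _ h => Units.ext h
  refine (Set.Finite.pi' fun _ => Set.Finite.pi' fun _ => hR).subset ?_
  rintro _ ⟨g, hg, rfl⟩ i j
  exact (hg i j).1

lemma isOfFinOrder_gl (g : GL n k) : IsOfFinOrder g := by
  have : Finite (Subgroup.closure {g}) := (finite_closure_gl (finite_singleton g)).to_subtype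
  have := isOfFinOrder_of_finite (⟨g, Subgroup.subset_closure rfl⟩ : Subgroup.closure {g})
  exact (Subgroup.subtype _).isOfFinOrder this

lemma exists_pow_eq_one_gl (g : GL n k) : ∃ m : ℕ, g ^ (m + 1) = 1 := by
  obtain ⟨m, hm, h⟩ := (isOfFinOrder_gl g).exists_pow_eq_one
  exact ⟨m - 1, by rwa [Nat.sub_add_cancel hm]⟩

lemma inv_mem_of_submonoid (S : Submonoid (GL n k)) {g : GL n k} (hg : g ∈ S) : g⁻¹ ∈ S := by
  obtain ⟨m, hm⟩ := exists_pow_eq_one_gl g
  rw [pow_succ] at hm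
  rw [← eq_inv_of_mul_eq_one_left hm]
  exact pow_mem hg m

lemma conj_mem_of_conj_le {H : Subgroup (GL n k)} {x : GL n k}
    (h : ∀ g ∈ H, x * g * x⁻¹ ∈ H) : ∀ g ∈ H, x⁻¹ * g * x ∈ H := by
  let S : Submonoid (GL n k) :=
    { carrier := {x | ∀ g ∈ H, x * g * x⁻¹ ∈ H}
      mul_mem' := fun {a b} ha hb g hg => by simpa [mul_assoc] using ha _ (hb g hg)
      one_mem' := by simp }
  have : ∀ g ∈ H, x⁻¹ * g * x⁻¹⁻¹ ∈ H := inv_mem_of_submonoid S (g := x) h
  simpa using this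

lemma un_iff_nilpotent {g : GL n k} : Un k g ↔ IsNilpotent ((g : Matrix n n k) - 1) := by
  rcases isEmpty_or_nonempty n with hn | hn
  · exact iff_of_true ⟨0, Subsingleton.elim _ _⟩ ⟨0, Subsingleton.elim _ _⟩
  have key : ∀ e, ((g : Matrix n n k) - 1) ^ ringChar k ^ e =
      ((g ^ ringChar k ^ e : GL n k) : Matrix n n k) - 1 := fun e => by
    rw [sub_pow_char_pow_of_commute _ _ (Commute.one_right _), one_pow, Units.val_pow_eq_pow_val]
  constructor
  · rintro ⟨e, he⟩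
    exact ⟨_, by rw [key, he, Units.val_one, sub_self]⟩
  · rintro ⟨e, he⟩
    refine ⟨e, Units.ext (sub_eq_zero.1 ?_)⟩
    rw [Units.val_one, ← key]
    exact pow_eq_zero_of_le (Nat.lt_pow_self (Nat.Prime.one_lt Fact.out)).le he

/-- Two lifts of an abelian group of order prime to the characteristic are conjugate. -/
theorem exists_conj_lifts {A : Type*} [CommGroup A] (hA : ∀ a : A, Ss k a) (σ σ' : A →* GL n k)
    (N : Subgroup (GL n k)) (hN : ∀ u ∈ N, Un k u) (hσ : ∀ a, ∀ u ∈ N, σ' a * u * (σ' a)⁻¹ ∈ N)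
    (h : ∀ a, σ' a * (σ a)⁻¹ ∈ N) : ∃ u ∈ N, ∀ a, σ' a = u * σ a * u⁻¹ := by
  classical
  let V : GL n k → Submodule k (Matrix n n k × Matrix n n k) := fun u =>
    Submodule.span k {z | ∃ a, σ' a * u = u * σ a ∧ z = ((σ' a).val, (σ a).val)}
  have hV : ∀ u a, ((σ' a).val, (σ a).val) ∈ V u → σ' a * u = u * σ a := by
    intro u a ha
    have : V u ≤ LinearMap.eqLocus ((LinearMap.mulRight k u.val).comp (LinearMap.fst _ _ _))
        ((LinearMap.mulLeft k u.val).comp (LinearMap.snd _ _ _)) := Submodule.span_le.2 (by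
      rintro _ ⟨a, ha, rfl⟩
      exact congrArg Units.val ha)
    exact Units.ext (this ha)
  obtain ⟨_, ⟨u, hu, rfl⟩, hmax⟩ := (wellFounded_gt (α := Submodule k _)).has_min (V '' N)
    ⟨_, 1, N.one_mem, rfl⟩
  refine ⟨u, hu, fun a => ?_⟩
  by_contra ha
  let A0 : Subgroup A := σ'.eqLocus ((MulAut.conj u).toMonoidHom.comp σ)
  have hA0 : ∀ a, a ∈ A0 ↔ σ' a = u * σ a * u⁻¹ := fun a => Iff.rfl
  obtain ⟨l, b, hl, hlk, hb, hbl⟩ : ∃ (l : ℕ) (b : A), l.Prime ∧ (l : k) ≠ 0 ∧ b ∉ A0 ∧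
      b ^ l ∈ A0 := by
    obtain ⟨m, hm, ham⟩ := hA a
    have h1 : orderOf (QuotientGroup.mk a : A ⧸ A0) ∣ m :=
      orderOf_dvd_of_pow_eq_one (by rw [← QuotientGroup.mk_pow, ham]; rfl)
    have h2 : orderOf (QuotientGroup.mk a : A ⧸ A0) ≠ 1 := by
      rw [Ne, orderOf_eq_one_iff, QuotientGroup.eq_one_iff]; exact ha
    obtain ⟨l, hl, c, hc⟩ := Nat.exists_prime_and_dvd h2
    have hm0 : m ≠ 0 := by rintro rfl; simp at hm
    have h3 : orderOf (QuotientGroup.mk a : A ⧸ A0) ≠ 0 := ne_zero_of_dvd_ne_zero hm0 h1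
    refine ⟨l, a ^ c, hl, fun h0 => hm ?_, ?_, ?_⟩
    · obtain ⟨d, rfl⟩ := (Dvd.intro _ hc.symm).trans h1
      simp [h0]
    · rw [← QuotientGroup.eq_one_iff, QuotientGroup.mk_pow, ← orderOf_dvd_iff_pow_eq_one]
      intro hd
      have hc0 : c ≠ 0 := by rintro rfl; simp [hc] at h3
      have := Nat.le_of_dvd (Nat.pos_of_ne_zero hc0) hd
      have := hl.two_le
      have := Nat.pos_of_ne_zero hc0
      nlinarith
    · rw [← QuotientGroup.eq_one_iff, ← pow_mul, QuotientGroup.mk_pow, mul_comm, ← hc,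
        pow_orderOf_eq_one]
  set x := σ' b with hx
  set y := u * σ b * u⁻¹ with hy
  let P : Subgroup (GL n k) :=
    Subgroup.closure {x, y} ⊓ N ⊓ Subgroup.centralizer (σ' '' A0)
  have : Finite P := ((finite_closure_gl (toFinite {x, y})).subset fun z hz => hz.1.1).to_subtype
  have hxc : x ∈ Subgroup.centralizer (σ' '' A0) := by
    rintro _ ⟨a, -, rfl⟩
    rw [hx, ← map_mul, ← map_mul, mul_comm]
  have hyc : y ∈ Subgroup.centralizer (σ' '' A0) := by
    rintro _ ⟨a, ha, rfl⟩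
    rw [(hA0 a).1 ha, hy]
    simp only [mul_assoc, inv_mul_cancel_left, ← mul_assoc (σ _), ← map_mul, mul_comm a]
  have hxy : x * y⁻¹ ∈ N := by
    have := N.mul_mem (N.mul_mem (hσ b u hu) (h b)) (N.inv_mem hu)
    convert this using 1
    rw [hx, hy]; group
  have hxF : x ∈ Subgroup.closure {x, y} := Subgroup.subset_closure (by simp)
  have hyF : y ∈ Subgroup.closure {x, y} := Subgroup.subset_closure (by simp)
  let f : P → P := fun z => ⟨x * z * y⁻¹, ⟨Subgroup.mul_mem _ (Subgroup.mul_mem _ hxF z.2.1.1)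
    (Subgroup.inv_mem _ hyF), by
    simpa [mul_assoc, ← hx] using N.mul_mem (hσ b z z.2.1.2) hxy⟩,
    Subgroup.mul_mem _ (Subgroup.mul_mem _ hxc z.2.2) (Subgroup.inv_mem _ hyc)⟩
  have hf : Injective f := fun z w h => Subtype.ext (by simpa [f] using h)
  let φ : Equiv.Perm P := Equiv.ofBijective f (Finite.injective_iff_bijective.1 hf)
  have hφ : ∀ j : ℕ, ∀ z, ((φ ^ j) z : GL n k) = x ^ j * z * (y ^ j)⁻¹ := fun j => by
    induction j with
    | zero => simp
    | succ j ih =>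
      intro z
      rw [pow_succ', Equiv.Perm.mul_apply]
      change x * _ * y⁻¹ = _
      rw [ih]; group
  have := Fintype.ofFinite P
  have := Fact.mk hl
  obtain ⟨z, hz⟩ := Equiv.Perm.exists_fixed_point_of_prime (p := l) (n := 1) (σ := φ) (by
    obtain ⟨e, he⟩ := (IsPGroup.iff_card (p := ringChar k) (G := P)).1
      fun z => un_subgroup (hN z z.2.1.2)
    rw [← Nat.card_eq_fintype_card, he]
    intro hd
    exact hl.ne_one (Nat.eq_one_of_dvd_coprimes (coprime_of_cast_ne hlk e) hd dvd_rfl)) (by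
    ext z
    have h1 : y ^ l = x ^ l := by
      rw [hx, ← map_pow, (hA0 _).1 hbl, hy, conj_pow, map_pow]
    have h2 : x ^ l * z = z * x ^ l := by
      rw [hx, ← map_pow]; exact z.2.2 _ ⟨_, hbl, rfl⟩
    rw [pow_one, hφ, h1, h2]; simp)
  have hz' : x * z * y⁻¹ = z := congrArg Subtype.val hz
  refine hmax _ ⟨z * u, N.mul_mem z.2.1.2 hu, rfl⟩ (lt_of_le_of_ne (Submodule.span_mono ?_) ?_)
  · rintro _ ⟨a, ha, rfl⟩
    refine ⟨a, ?_, rfl⟩
    have h1 : a ∈ A0 := (hA0 a).2 (by rw [← ha]; simp)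
    rw [← mul_assoc, z.2.2 _ ⟨_, h1, rfl⟩, mul_assoc, ha, mul_assoc]
  · intro e
    refine hb ((hA0 b).2 ?_)
    rw [← hV u b (e ▸ Submodule.subset_span ⟨b, ?_, rfl⟩)]
    · simp
    · rw [← hx]
      conv_rhs => rw [← hz', hy]
      group

end gl

end ZipFG
end

-- merged part: Pool.Agent.Work.MP_5c492e_ag.GLn
section
/-! Block patterns in the general linear group attached to a weight vector. -/

namespace ZipFG

open Function Set Matrix
open scoped commutatorElement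

variable {k : Type} [Field k] {n : Type} [Fintype n] [DecidableEq n]

/-- Matrices raising the degree by at least `r`. -/
def NN (y : n → ℤ) (r : ℤ) : Submodule k (Matrix n n k) where
  carrier := {A | ∀ a b, y a - y b < r → A a b = 0}
  add_mem' hA hB a b h := by simp [hA a b h, hB a b h]
  zero_mem' _ _ _ := rfl
  smul_mem' c A hA a b h := by simp [hA a b h]

omit [Fintype n] [DecidableEq n] in
lemma mem_NN {y : n → ℤ} {r : ℤ} {A : Matrix n n k} :
    A ∈ NN y r ↔ ∀ a b, y a - y b < r → A a b = 0 := Iff.rfl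

omit [DecidableEq n] in
lemma NN_mul {y : n → ℤ} {r s : ℤ} {A B : Matrix n n k} (hA : A ∈ NN y r) (hB : B ∈ NN y s) :
    A * B ∈ NN y (r + s) := fun a b h => by
  rw [Matrix.mul_apply]
  refine Finset.sum_eq_zero fun c _ => ?_
  by_cases h1 : y a - y c < r
  · rw [hA a c h1, zero_mul]
  · rw [hB c b (by omega), mul_zero]

omit [Fintype n] [DecidableEq n] in
lemma NN_mono {y : n → ℤ} {r s : ℤ} (h : r ≤ s) {A : Matrix n n k} (hA : A ∈ NN y s) :
    A ∈ NN y r := fun a b h' => hA a b (by omega)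

omit [Fintype n] in
lemma diagonal_mem_NN (y : n → ℤ) (d : n → k) : diagonal d ∈ NN y 0 := fun a b h =>
  diagonal_apply_ne _ (by rintro rfl; simp at h)

omit [Fintype n] in
lemma one_mem_NN (y : n → ℤ) : (1 : Matrix n n k) ∈ NN y 0 := diagonal_mem_NN y _

/-- A bound for the entries of a weight vector. -/
def bd (y : n → ℤ) : ℕ := ∑ i, (y i).natAbs

omit [DecidableEq n] in
lemma abs_le_bd (y : n → ℤ) (i : n) : -(bd y : ℤ) ≤ y i ∧ y i ≤ bd y := by
  have : (y i).natAbs ≤ bd y :=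
    Finset.single_le_sum (f := fun i => (y i).natAbs) (fun _ _ => Nat.zero_le _) (Finset.mem_univ i)
  omega

omit [DecidableEq n] in
lemma NN_eq_zero {y : n → ℤ} {A : Matrix n n k} (hA : A ∈ NN y (2 * bd y + 1 : ℕ)) : A = 0 := by
  ext a b
  have := abs_le_bd y a
  have := abs_le_bd y b
  exact hA a b (by omega)

lemma NN_pow {y : n → ℤ} {A : Matrix n n k} (hA : A ∈ NN y 1) (m : ℕ) : A ^ m ∈ NN y m := by
  induction m with
  | zero => simpa using one_mem_NN y
  | succ m ih => simpa [pow_succ] using NN_mul ih hA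

lemma NN_nilpotent {y : n → ℤ} {A : Matrix n n k} (hA : A ∈ NN y 1) : IsNilpotent A :=
  ⟨_, NN_eq_zero (NN_pow hA _)⟩

lemma zclosed_NN {X : Type} [Reg k X] {f : X → Matrix n n k} (hf : IsReg f) (y : n → ℤ) (r : ℤ) :
    ZClosed {x | f x ∈ NN y r} :=
  zclosed_forall fun a => zclosed_forall fun b => zclosed_forall fun _ =>
    zclosed_zero (hf.entry a b)

variable [LF k]

/-- A subgroup from a submonoid. -/
def subOf (S : Submonoid (GL n k)) : Subgroup (GL n k) :=
  { S with inv_mem' := inv_mem_of_submonoid S }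

/-- The parabolic subgroup of a weight vector. -/
def Pn (y : n → ℤ) : Subgroup (GL n k) := subOf
  { carrier := {g | g.val ∈ NN y 0}
    mul_mem' := fun ha hb => by simpa using NN_mul ha hb
    one_mem' := one_mem_NN y }

lemma mem_Pn {y : n → ℤ} {g : GL n k} : g ∈ Pn y ↔ g.val ∈ NN y 0 := Iff.rfl

/-- The filtration of the unipotent radical. -/
def Fil (y : n → ℤ) (r : ℕ) : Subgroup (GL n k) := subOf
  { carrier := {g | g.val - 1 ∈ NN y (r + 1)}
    mul_mem' := fun {a b} ha hb => by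
      have : (a * b).val - 1 = (a.val - 1) * (b.val - 1) + (a.val - 1) + (b.val - 1) := by
        rw [Units.val_mul]; noncomm_ring
      change _ ∈ NN y _
      rw [this]
      exact add_mem (add_mem (NN_mono (by omega) (NN_mul ha hb)) ha) hb
    one_mem' := by simp }

/-- The unipotent radical of the parabolic subgroup. -/
def Uu (y : n → ℤ) : Subgroup (GL n k) := Fil y 0

lemma mem_Uu {y : n → ℤ} {g : GL n k} : g ∈ Uu y ↔ g.val - 1 ∈ NN y 1 := Iff.rfl

/-- The centraliser of a weight vector. -/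
def Zn (y : n → ℤ) : Subgroup (GL n k) := Pn y ⊓ Pn (-y)

lemma mem_Zn {y : n → ℤ} {g : GL n k} : g ∈ Zn y ↔ ∀ a b, y a ≠ y b → g.val a b = 0 := by
  refine ⟨fun h a b hab => ?_, fun h => ⟨fun a b hab => h a b (by omega),
    fun a b hab => h a b (by simp at hab; omega)⟩⟩
  rcases lt_or_gt_of_ne hab with h' | h'
  · exact h.1 a b (by omega)
  · exact h.2 a b (by simp; omega)

lemma Zn_neg (y : n → ℤ) : (Zn (-y) : Subgroup (GL n k)) = Zn y := by
  simp [Zn, inf_comm]

/-- Diagonal matrices. -/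
def Dn : Subgroup (GL n k) := subOf
  { carrier := {g | ∀ a b, a ≠ b → g.val a b = 0}
    mul_mem' := fun {g h} ha hb a b hab => by
      rw [Units.val_mul, Matrix.mul_apply]
      refine Finset.sum_eq_zero fun c _ => ?_
      by_cases h1 : a = c
      · rw [hb c b (h1 ▸ hab), mul_zero]
      · rw [ha a c h1, zero_mul]
    one_mem' := fun a b hab => one_apply_ne hab }

lemma mem_Dn {g : GL n k} : g ∈ Dn ↔ ∀ a b, a ≠ b → g.val a b = 0 := Iff.rfl

lemma Dn_eq_diagonal {g : GL n k} (hg : g ∈ Dn) : g.val = diagonal fun i => g.val i i := by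
  ext a b
  by_cases h : a = b
  · subst h; simp
  · rw [hg a b h, diagonal_apply_ne _ h]

lemma Dn_le_Zn (y : n → ℤ) : (Dn : Subgroup (GL n k)) ≤ Zn y := fun _ hg =>
  mem_Zn.2 fun a b h => hg a b (by rintro rfl; exact h rfl)

lemma Dn_le_Pn (y : n → ℤ) : (Dn : Subgroup (GL n k)) ≤ Pn y := fun _ hg => (Dn_le_Zn y hg).1

lemma Zn_le_Dn {y : n → ℤ} (hy : Injective y) : (Zn y : Subgroup (GL n k)) ≤ Dn := fun _ hg a b h =>
  mem_Zn.1 hg a b (hy.ne h)

lemma Dn_mul_apply {g : GL n k} (hg : g ∈ Dn) (A : Matrix n n k) (a b : n) :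
    (g.val * A) a b = g.val a a * A a b := by
  conv_lhs => rw [Dn_eq_diagonal hg, diagonal_mul]

lemma mul_Dn_apply {g : GL n k} (hg : g ∈ Dn) (A : Matrix n n k) (a b : n) :
    (A * g.val) a b = A a b * g.val b b := by
  conv_lhs => rw [Dn_eq_diagonal hg, mul_diagonal]

lemma Dn_comm {g h : GL n k} (hg : g ∈ Dn) (hh : h ∈ Dn) : g * h = h * g := by
  refine Units.ext (Matrix.ext fun a b => ?_)
  rw [Units.val_mul, Units.val_mul, Dn_mul_apply hg, mul_Dn_apply hg]
  by_cases e : a = b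
  · rw [e, mul_comm]
  · simp [hh a b e]

lemma Dn_inv_apply {g : GL n k} (hg : g ∈ Dn) (i : n) : (g⁻¹).val i i = (g.val i i)⁻¹ := by
  have := Dn_mul_apply hg (g⁻¹).val i i
  rw [← Units.val_mul, mul_inv_cancel, Units.val_one, one_apply_eq] at this
  exact eq_inv_of_mul_eq_one_right this.symm

lemma Dn_ne_zero {g : GL n k} (hg : g ∈ Dn) (i : n) : g.val i i ≠ 0 := by
  have := Dn_mul_apply hg (g⁻¹).val i i
  rw [← Units.val_mul, mul_inv_cancel, Units.val_one, one_apply_eq] at this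
  exact left_ne_zero_of_mul_eq_one this.symm

lemma Dn_ext {g h : GL n k} (hg : g ∈ Dn) (hh : h ∈ Dn) (e : ∀ i, g.val i i = h.val i i) :
    g = h := Units.ext (by rw [Dn_eq_diagonal hg, Dn_eq_diagonal hh]; simp [e])

lemma Dn_ss {g : GL n k} (hg : g ∈ Dn) : Ss k g := by
  choose m hm h using fun i => ss_field (Dn_ne_zero hg i)
  refine ⟨∏ i, m i, by simp [Finset.prod_ne_zero_iff, hm], Units.ext ?_⟩
  rw [Units.val_pow_eq_pow_val, Dn_eq_diagonal hg, diagonal_pow, Units.val_one, ← diagonal_one]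
  congr 1
  ext i
  obtain ⟨c, hc⟩ := Finset.dvd_prod_of_mem m (Finset.mem_univ i)
  rw [Pi.pow_apply, hc, pow_mul, h, one_pow]

lemma Uu_le_Pn (y : n → ℤ) : (Uu y : Subgroup (GL n k)) ≤ Pn y := fun g hg => by
  simpa [mem_Pn] using add_mem (NN_mono zero_le_one hg) (one_mem_NN y)

lemma Uu_un {y : n → ℤ} {g : GL n k} (hg : g ∈ Uu y) : Un k g :=
  un_iff_nilpotent.2 (NN_nilpotent hg)

lemma Uu_apply {y : n → ℤ} {g : GL n k} (hg : g ∈ Uu y) {a b : n} (h : y a ≤ y b) :
    g.val a b = (1 : Matrix n n k) a b := sub_eq_zero.1 (hg a b (by omega))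

lemma Uu_inf_Pn {y : n → ℤ} {g : GL n k} (hg : g ∈ Uu y) (hg' : g ∈ Pn (-y)) : g = 1 := by
  refine Units.ext (Matrix.ext fun a b => ?_)
  by_cases h : y a ≤ y b
  · exact Uu_apply hg h
  · rw [hg' a b (by simp; omega), Units.val_one, one_apply_ne (by rintro rfl; simp at h)]

lemma exists_Uu {y : n → ℤ} {A : Matrix n n k} (hA : A - 1 ∈ NN y 1) :
    ∃ g : GL n k, g ∈ Uu y ∧ g.val = A := by
  obtain ⟨g, hg⟩ := (NN_nilpotent hA).isUnit_add_one
  rw [sub_add_cancel] at hg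
  exact ⟨g, by rwa [mem_Uu, hg], hg⟩

lemma conj_mem_Uu {y : n → ℤ} {g u : GL n k} (hg : g ∈ Pn y) (hu : u ∈ Uu y) :
    g * u * g⁻¹ ∈ Uu y := by
  have : (g * u * g⁻¹).val - 1 = g.val * (u.val - 1) * (g⁻¹).val := by
    simp [mul_sub, sub_mul]
  rw [mem_Uu, this]
  simpa using NN_mul (NN_mul hg hu) ((Pn y).inv_mem hg)

lemma zclosed_Pn (y : n → ℤ) : ZClosed (Pn (k := k) y : Set (GL n k)) := zclosed_NN (by fun_prop) y 0

lemma zclosed_Uu (y : n → ℤ) : ZClosed (Uu (k := k) y : Set (GL n k)) :=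
  zclosed_NN (f := fun g : GL n k => g.val - 1) (by fun_prop) y 1

lemma zclosed_Zn (y : n → ℤ) : ZClosed (Zn (k := k) y : Set (GL n k)) := (zclosed_Pn y).inter (zclosed_Pn _)

lemma zclosed_Dn : ZClosed ((Dn : Subgroup (GL n k)) : Set (GL n k)) :=
  zclosed_forall fun a => zclosed_forall fun b => zclosed_forall fun _ => zclosed_zero (by fun_prop)

lemma ZClosed.inf {Γ : Type} [Group Γ] [Reg k Γ] {H K : Subgroup Γ} (hH : ZClosed (H : Set Γ))
    (hK : ZClosed (K : Set Γ)) : ZClosed ((H ⊓ K : Subgroup Γ) : Set Γ) := hH.inter hK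

/-- Diagonal units. -/
def dunit (d : n → kˣ) : GL n k :=
  ⟨diagonal fun i => d i, diagonal fun i => ((d i)⁻¹ : kˣ), by simp, by simp⟩

omit [LF k] in
/-- The cocharacter of a weight vector. -/
def nu (y : n → ℤ) : kˣ →* GL n k where
  toFun t := dunit fun i => t ^ y i
  map_one' := Units.ext (by simp [dunit])
  map_mul' s t := Units.ext (by simp [dunit, mul_zpow])

omit [LF k] in
lemma nu_val (y : n → ℤ) (t : kˣ) : (nu y t).val = diagonal fun i => (t : k) ^ y i := by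
  simp [nu, dunit]

omit [LF k] in
lemma nu_apply (y : n → ℤ) (t : kˣ) (i : n) : (nu y t).val i i = (t : k) ^ y i := by
  simp [nu_val]

lemma nu_mem_Dn (y : n → ℤ) (t : kˣ) : nu y t ∈ Dn := fun a b h => by
  rw [nu_val, diagonal_apply_ne _ h]

omit [LF k] in
lemma nu_neg (y : n → ℤ) (t : kˣ) : nu (-y) t = (nu y t)⁻¹ := by
  rw [← map_inv]
  refine Units.ext ?_
  rw [nu_val, nu_val]; simp

omit [LF k] in
lemma nu_add (y z : n → ℤ) (t : kˣ) : nu (y + z) t = nu y t * nu z t :=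
  Units.ext (by simp [nu_val, zpow_add₀])

omit [LF k] in
lemma isReg_nu (y : n → ℤ) : IsReg (nu (k := k) y) := by
  have : ∀ y : n → ℤ, IsReg (fun t : kˣ => (nu y t).val) := fun y => isReg_matrix fun a b => by
    simp only [nu_val, diagonal_apply, ← Units.val_zpow_eq_zpow_val]
    split_ifs <;> fun_prop
  exact isReg_units (this y) (by simpa only [← nu_neg] using this (-y))

omit [LF k] in
@[fun_prop] lemma IsReg.nu {X : Type} [Reg k X] (y : n → ℤ) {t : X → kˣ} (ht : IsReg t) :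
    IsReg (fun x => nu y (t x)) := (isReg_nu y).comp ht

lemma nu_conj_apply (y : n → ℤ) (t : kˣ) (g : GL n k) (a b : n) :
    (nu y t * g * (nu y t)⁻¹).val a b = (t : k) ^ (y a - y b) * g.val a b := by
  rw [← nu_neg, Units.val_mul, Units.val_mul, mul_Dn_apply (nu_mem_Dn _ _),
    Dn_mul_apply (nu_mem_Dn _ _), nu_apply, nu_apply, sub_eq_add_neg, zpow_add₀ t.ne_zero]
  simp only [Pi.neg_apply]; ring

omit [LF k] in
lemma zpow_inj_units [Infinite k] {a b : ℤ} (h : ∀ t : kˣ, (t : k) ^ a = (t : k) ^ b) : a = b := by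
  wlog hab : a ≤ b generalizing a b
  · exact (this (fun t => (h t).symm) (by omega)).symm
  obtain ⟨m, rfl⟩ := Int.le.dest hab
  by_contra hm
  have hm0 : m ≠ 0 := by rintro rfl; simp at hm
  have := IsReg.eq_of_units (F := fun t : k => t ^ m) (G := fun _ => 1) (by fun_prop) (by fun_prop)
    (fun t => by simpa [zpow_add₀, zpow_ne_zero] using h t) 0
  simp [hm0] at this

lemma mem_Zn_iff_comm [Infinite k] {y : n → ℤ} {g : GL n k} :
    g ∈ Zn y ↔ ∀ t : kˣ, nu y t * g = g * nu y t := by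
  rw [mem_Zn]
  constructor
  · intro h t
    rw [← mul_inv_eq_iff_eq_mul]
    refine Units.ext (Matrix.ext fun a b => ?_)
    rw [nu_conj_apply]
    by_cases e : y a = y b
    · simp [e]
    · simp [h a b e]
  · intro h a b hab
    by_contra h0
    refine hab (sub_eq_zero.1 (zpow_inj_units (k := k) fun t => ?_))
    have := nu_conj_apply y t g a b
    rw [h t, mul_inv_cancel_right] at this
    simpa [h0] using this.symm

/-- The contraction of a matrix. -/
def ccM (y : n → ℤ) (t : k) (A : Matrix n n k) : Matrix n n k :=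
  Matrix.of fun a b => t ^ (y a - y b).toNat * A a b

omit [LF k] [DecidableEq n] in
lemma ccM_mul {y : n → ℤ} (t : k) {A B : Matrix n n k} (hA : A ∈ NN y 0) (hB : B ∈ NN y 0) :
    ccM y t (A * B) = ccM y t A * ccM y t B := by
  ext a b
  simp only [ccM, of_apply, Matrix.mul_apply, Finset.mul_sum]
  refine Finset.sum_congr rfl fun c _ => ?_
  by_cases h1 : y a - y c < 0
  · simp [hA a c h1]
  by_cases h2 : y c - y b < 0
  · simp [hB c b h2]
  rw [show (y a - y b).toNat = (y a - y c).toNat + (y c - y b).toNat by omega, pow_add]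
  ring

omit [LF k] [Fintype n] in
lemma ccM_one (y : n → ℤ) (t : k) : ccM y t (1 : Matrix n n k) = 1 := by
  ext a b
  by_cases h : a = b
  · subst h; simp [ccM]
  · simp [ccM, one_apply_ne h]

open Classical in
/-- The contraction of an element of the parabolic subgroup. -/
noncomputable def cc (y : n → ℤ) (t : k) (g : GL n k) : GL n k :=
  if h : g ∈ Pn y then ⟨ccM y t g.val, ccM y t (g⁻¹).val,
    by rw [← ccM_mul t h ((Pn y).inv_mem h), ← Units.val_mul, mul_inv_cancel, Units.val_one, ccM_one],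
    by rw [← ccM_mul t ((Pn y).inv_mem h) h, ← Units.val_mul, inv_mul_cancel, Units.val_one, ccM_one]⟩
  else 1

lemma cc_val {y : n → ℤ} (t : k) {g : GL n k} (h : g ∈ Pn y) : (cc y t g).val = ccM y t g.val := by
  simp [cc, h]

lemma cc_apply {y : n → ℤ} (t : k) {g : GL n k} (h : g ∈ Pn y) (a b : n) :
    (cc y t g).val a b = t ^ (y a - y b).toNat * g.val a b := by
  rw [cc_val t h]; rfl

lemma cc_mul {y : n → ℤ} (t : k) {g h : GL n k} (hg : g ∈ Pn y) (hh : h ∈ Pn y) :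
    cc y t (g * h) = cc y t g * cc y t h := Units.ext (by
  rw [Units.val_mul, cc_val t (mul_mem hg hh), cc_val t hg, cc_val t hh, Units.val_mul,
    ccM_mul t hg hh])

lemma cc_one (y : n → ℤ) (t : k) : cc y t (1 : GL n k) = 1 :=
  Units.ext (by rw [cc_val t (one_mem _), Units.val_one, ccM_one])

lemma cc_inv {y : n → ℤ} (t : k) {g : GL n k} (hg : g ∈ Pn y) : cc y t g⁻¹ = (cc y t g)⁻¹ :=
  eq_inv_of_mul_eq_one_left (by rw [← cc_mul t (inv_mem hg) hg, inv_mul_cancel, cc_one])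

lemma cc_unit {y : n → ℤ} (t : kˣ) {g : GL n k} (hg : g ∈ Pn y) :
    cc y (t : k) g = nu y t * g * (nu y t)⁻¹ := by
  refine Units.ext (Matrix.ext fun a b => ?_)
  rw [cc_apply _ hg, nu_conj_apply]
  by_cases h : y a - y b < 0
  · simp [hg a b h]
  · rw [← zpow_natCast, Int.toNat_of_nonneg (by omega)]

lemma cc_one_left {y : n → ℤ} {g : GL n k} (hg : g ∈ Pn y) : cc y 1 g = g := by
  simpa using cc_unit 1 hg

lemma IsReg.cc {X : Type} [Reg k X] {y : n → ℤ} {t : X → k} {g : X → GL n k} (ht : IsReg t)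
    (hg : IsReg g) (h : ∀ x, g x ∈ Pn y) : IsReg (fun x => cc y (t x) (g x)) := by
  refine isReg_units (isReg_matrix fun a b => ?_) (isReg_matrix fun a b => ?_)
  · simp only [cc_apply _ (h _)]; fun_prop
  · simp only [← cc_inv _ (h _), cc_apply _ (inv_mem (h _))]; fun_prop

/-- The Levi projection. -/
noncomputable def lev (y : n → ℤ) (g : GL n k) : GL n k := cc y 0 g

lemma lev_apply {y : n → ℤ} {g : GL n k} (h : g ∈ Pn y) (a b : n) :
    (lev y g).val a b = if y a = y b then g.val a b else 0 := by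
  rw [lev, cc_apply _ h]
  split_ifs with e
  · simp [e]
  · by_cases h' : y a - y b < 0
    · simp [h a b h']
    · rw [zero_pow (by omega), zero_mul]

lemma lev_mul {y : n → ℤ} {g h : GL n k} (hg : g ∈ Pn y) (hh : h ∈ Pn y) :
    lev y (g * h) = lev y g * lev y h := cc_mul 0 hg hh

lemma lev_inv {y : n → ℤ} {g : GL n k} (hg : g ∈ Pn y) : lev y g⁻¹ = (lev y g)⁻¹ := cc_inv 0 hg

lemma lev_mem_Zn {y : n → ℤ} {g : GL n k} (h : g ∈ Pn y) : lev y g ∈ Zn y :=
  mem_Zn.2 fun a b e => by rw [lev_apply h, if_neg e]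

lemma lev_of_Zn {y : n → ℤ} {g : GL n k} (h : g ∈ Zn y) : lev y g = g := by
  refine Units.ext (Matrix.ext fun a b => ?_)
  rw [lev_apply h.1]
  split_ifs with e
  · rfl
  · exact (mem_Zn.1 h a b e).symm

lemma lev_eq_one_iff {y : n → ℤ} {g : GL n k} (h : g ∈ Pn y) : lev y g = 1 ↔ g ∈ Uu y := by
  constructor
  · intro e a b hab
    have := lev_apply h a b
    rw [e] at this
    split_ifs at this with h1
    · rw [Matrix.sub_apply, ← this, Units.val_one, sub_self]
    · rw [Matrix.sub_apply, h a b (by omega), ← this, Units.val_one, ← Units.val_one, this, sub_self]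
  · intro hu
    refine Units.ext (Matrix.ext fun a b => ?_)
    rw [lev_apply h]
    split_ifs with e
    · exact Uu_apply hu e.le
    · exact (one_apply_ne (by rintro rfl; exact e rfl)).symm

lemma lev_Uu {y : n → ℤ} {g : GL n k} (h : g ∈ Uu y) : lev y g = 1 :=
  (lev_eq_one_iff (Uu_le_Pn y h)).2 h

lemma mul_lev_inv_mem {y : n → ℤ} {g : GL n k} (h : g ∈ Pn y) : g * (lev y g)⁻¹ ∈ Uu y := by
  have h1 := lev_mem_Zn h
  rw [← lev_eq_one_iff (mul_mem h (inv_mem h1.1)), lev_mul h (inv_mem h1.1),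
    lev_of_Zn (inv_mem h1), mul_inv_cancel]

lemma lev_inv_mul_mem {y : n → ℤ} {g : GL n k} (h : g ∈ Pn y) : (lev y g)⁻¹ * g ∈ Uu y := by
  have h1 := lev_mem_Zn h
  rw [← lev_eq_one_iff (mul_mem (inv_mem h1.1) h), lev_mul (inv_mem h1.1) h,
    lev_of_Zn (inv_mem h1), inv_mul_cancel]

lemma IsReg.lev {X : Type} [Reg k X] {y : n → ℤ} {g : X → GL n k}
    (hg : IsReg g) (h : ∀ x, g x ∈ Pn y) : IsReg (fun x => lev y (g x)) :=
  IsReg.cc (isReg_const 0) hg h

/-- The Levi projection as a homomorphism. -/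
noncomputable def levHom (y : n → ℤ) {H : Subgroup (GL n k)} (h : H ≤ Pn y) : H →* GL n k where
  toFun g := lev y g
  map_one' := cc_one y 0
  map_mul' a b := lev_mul (h a.2) (h b.2)

lemma Un.lev {y : n → ℤ} {g : GL n k} (hg : g ∈ Pn y) (h : Un k g) : Un k (lev y g) :=
  (un_subgroup (g := ⟨g, hg⟩) h).map (levHom y le_rfl)

lemma Un.mem_Uu {y : n → ℤ} {g : GL n k} (hg : g ∈ Pn y) (h : Un k g) (hd : ZipFG.lev y g ∈ Dn) :
    g ∈ Uu y := (lev_eq_one_iff hg).1 ((h.lev hg).eq_one (Dn_ss hd))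

lemma cc_mem [Infinite k] {y : n → ℤ} {H : Set (GL n k)} (hH : ZClosed H) {g : GL n k}
    (hg : g ∈ Pn y) (h : ∀ t, nu y t * g * (nu y t)⁻¹ ∈ H) (t : k) : cc y t g ∈ H :=
  hH.curve (γ := fun t => cc y t g) (IsReg.cc isReg_id (isReg_const g) fun _ => hg)
    (fun t => by rw [cc_unit t hg]; exact h t) t

lemma Fil_commutator (y : n → ℤ) (r : ℕ) :
    ⁅Fil (k := k) y r, Fil (k := k) y r⁆ ≤ Fil (k := k) y (r + 1) := by
  refine Subgroup.commutator_le.2 fun g hg h hh => ?_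
  have e : (⁅g, h⁆ : GL n k).val - 1 = ((g.val - 1) * (h.val - 1) - (h.val - 1) * (g.val - 1)) *
      ((h * g)⁻¹).val := by
    have : (g.val - 1) * (h.val - 1) - (h.val - 1) * (g.val - 1) = (g * h).val - (h * g).val := by
      simp only [Units.val_mul]; noncomm_ring
    rw [this, sub_mul, ← Units.val_mul, ← Units.val_mul, mul_inv_cancel, commutatorElement_def]
    simp [mul_assoc]
  have h0 : ∀ g ∈ (Fil y r : Subgroup (GL n k)), g ∈ Pn y := fun g hg =>
    Uu_le_Pn y (NN_mono (by simp) hg)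
  change _ ∈ NN y _
  rw [e]
  exact NN_mono (by push_cast; omega) (NN_mul (sub_mem (NN_mul hg hh) (NN_mul hh hg))
    (inv_mem (mul_mem (h0 h hh) (h0 g hg)) : (h * g)⁻¹ ∈ Pn y))

lemma commutator_mem_Uu {y : n → ℤ} {g h : GL n k} (hg : g ∈ Pn y) (hh : h ∈ Pn y)
    (hg' : lev y g ∈ Dn) (hh' : lev y h ∈ Dn) : g * h * g⁻¹ * h⁻¹ ∈ Uu y := by
  rw [← lev_eq_one_iff (mul_mem (mul_mem (mul_mem hg hh) (inv_mem hg)) (inv_mem hh)),
    lev_mul (mul_mem (mul_mem hg hh) (inv_mem hg)) (inv_mem hh), lev_mul (mul_mem hg hh) (inv_mem hg),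
    lev_mul hg hh, lev_inv hg, lev_inv hh, Dn_comm hg' hh']
  group

lemma solvable_of_tri {y : n → ℤ} {H : Subgroup (GL n k)} (h1 : H ≤ Pn y)
    (h2 : ∀ g ∈ H, lev y g ∈ Dn) : Group.IsSolvable H := by
  have key : ∀ r, (derivedSeries H (r + 1)).map H.subtype ≤ Fil y r := by
    intro r
    induction r with
    | zero =>
      rw [derivedSeries_succ, Subgroup.map_commutator]
      refine Subgroup.commutator_le.2 ?_
      rintro _ ⟨g, -, rfl⟩ _ ⟨h, -, rfl⟩
      exact commutator_mem_Uu (h1 g.2) (h1 h.2) (h2 _ g.2) (h2 _ h.2)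
    | succ r ih =>
      rw [derivedSeries_succ, Subgroup.map_commutator]
      exact (Subgroup.commutator_mono ih ih).trans (Fil_commutator y r)
  refine ⟨2 * bd y + 1, eq_bot_iff.2 fun g hg => ?_⟩
  have := key _ ⟨g, hg, rfl⟩
  exact Subtype.ext (Units.ext (sub_eq_zero.1 (NN_eq_zero (y := y) (by exact_mod_cast this))))

lemma solvable_conj {H K : Subgroup (GL n k)} [Group.IsSolvable K] {x : GL n k}
    (h : ∀ g ∈ H, x * g * x⁻¹ ∈ K) : Group.IsSolvable H :=
  Group.isSolvable_of_isSolvable_injective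
    (f := ((MulAut.conj x).toMonoidHom.comp H.subtype).codRestrict K fun g => h g g.2)
    fun a b e => Subtype.ext (by simpa using e)

lemma solvable_of_le {Γ : Type*} [Group Γ] {H K : Subgroup Γ} [Group.IsSolvable K] (h : H ≤ K) :
    Group.IsSolvable H :=
  Group.isSolvable_of_isSolvable_injective (Subgroup.inclusion_injective h)

end ZipFG
end

-- merged part: Pool.Agent.Work.MP_5c492e_ag.Gross
section
/-! Grosshans: integrality over the translates of the `U`-invariants, and its consequence. -/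

namespace ZipFG

open MvPolynomial

namespace GrossAux

lemma hc_mul {k ι : Type} [Field k] (c : MvPolynomial ι k) {F : MvPolynomial ι k} {e : ℕ}
    (hF : F.IsHomogeneous e) (d : ℕ) :
    homogeneousComponent d (c * F) = 0 ∨
      ∃ n, n + e = d ∧ homogeneousComponent d (c * F) = homogeneousComponent n c * F := by
  classical
  have key : homogeneousComponent d (c * F) = ∑ n ∈ Finset.range (c.totalDegree + 1),
      if d = n + e then homogeneousComponent n c * F else 0 := by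
    conv_lhs => rw [← sum_homogeneousComponent c, Finset.sum_mul, map_sum]
    refine Finset.sum_congr rfl fun n _ => ?_
    exact homogeneousComponent_of_mem ((homogeneousComponent_isHomogeneous n c).mul hF)
  by_cases h : ∃ n ∈ Finset.range (c.totalDegree + 1), d = n + e
  · obtain ⟨n, hn, rfl⟩ := h
    refine Or.inr ⟨n, rfl, ?_⟩
    rw [key, Finset.sum_eq_single_of_mem n hn (fun b _ hb => if_neg (by omega)), if_pos rfl]
  · push Not at h
    refine Or.inl ?_
    rw [key]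
    exact Finset.sum_eq_zero fun n hn => if_neg (h n hn)

/-- The span of the values of the homogeneous polynomials of degree less than `d`. -/
def low {k ι A : Type} [Field k] [CommRing A] [Algebra k A] (B : Subalgebra k A)
    (φ : MvPolynomial ι k →ₐ[k] A) (d : ℕ) : Submodule B A :=
  Submodule.span B {a | ∃ (e : ℕ) (G : MvPolynomial ι k), e < d ∧ G.IsHomogeneous e ∧ a = φ G}

lemma mul_mem_low {k ι A : Type} [Field k] [CommRing A] [Algebra k A] {B : Subalgebra k A}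
    {φ : MvPolynomial ι k →ₐ[k] A} {n e : ℕ} {c : MvPolynomial ι k} (hc : c.IsHomogeneous n)
    {a : A} (ha : a ∈ low B φ e) : φ c * a ∈ low B φ (n + e) := by
  induction ha using Submodule.span_induction with
  | mem x hx =>
    obtain ⟨e', G, he, hG, rfl⟩ := hx
    exact Submodule.subset_span ⟨n + e', c * G, by omega, hc.mul hG, (map_mul _ _ _).symm⟩
  | zero => simp
  | add x y _ _ hx hy => rw [mul_add]; exact add_mem hx hy
  | smul b x _ hx => rw [mul_smul_comm]; exact Submodule.smul_mem _ _ hx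

lemma low_fg {k ι A : Type} [Field k] [Finite ι] [CommRing A] [Algebra k A] (B : Subalgebra k A)
    (φ : MvPolynomial ι k →ₐ[k] A) (d : ℕ) : (low B φ d).FG := by
  have h1 : (⨆ e ∈ Finset.range d, (homogeneousSubmodule ι k e).map φ.toLinearMap).FG :=
    Submodule.fg_biSup _ _ fun e _ => (homogeneousSubmodule_fg _ _ e).map _
  obtain ⟨s, hs⟩ := h1
  refine ⟨s, le_antisymm (Submodule.span_le.2 fun x hx => ?_) (Submodule.span_le.2 ?_)⟩
  · have h2 : (⨆ e ∈ Finset.range d, (homogeneousSubmodule ι k e).map φ.toLinearMap) ≤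
        (low B φ d).restrictScalars k := by
      refine iSup₂_le fun e he => ?_
      rintro _ ⟨G, hG, rfl⟩
      exact Submodule.subset_span ⟨e, G, Finset.mem_range.1 he, hG, rfl⟩
    exact h2 (hs ▸ Submodule.subset_span hx)
  · rintro _ ⟨e, G, he, hG, rfl⟩
    have h2 : φ G ∈ Submodule.span k (s : Set A) := by
      rw [hs]
      exact le_iSup₂_of_le (f := fun e (_ : e ∈ Finset.range d) =>
        (homogeneousSubmodule ι k e).map φ.toLinearMap) e (Finset.mem_range.2 he) le_rfl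
        ⟨G, hG, rfl⟩
    exact Submodule.span_le_restrictScalars k B _ h2

end GrossAux

open GrossAux in
/-- Homogeneous Nullstellensatz plus graded Nakayama. -/
theorem integral_of_homogeneous {k : Type} [Field k] [IsAlgClosed k] {ι : Type} [Finite ι]
    {A : Type} [CommRing A] [Algebra k A] (B : Subalgebra k A) (φ : MvPolynomial ι k →ₐ[k] A)
    (h : ∀ w : ι → k, w ≠ 0 → ∃ (d : ℕ) (F : MvPolynomial ι k), F.IsHomogeneous d ∧
      eval w F ≠ 0 ∧ φ F ∈ Submodule.span B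
        {a | ∃ (e : ℕ) (G : MvPolynomial ι k), e < d ∧ G.IsHomogeneous e ∧ a = φ G})
    (F : MvPolynomial ι k) : IsIntegral B (φ F) := by
  let J : Ideal (MvPolynomial ι k) :=
    { carrier := {H | ∀ c d, φ (homogeneousComponent d (c * H)) ∈ low B φ d}
      add_mem' := fun {x y} hx hy c d => by
        rw [mul_add, map_add, map_add]; exact add_mem (hx c d) (hy c d)
      zero_mem' := fun c d => by simp
      smul_mem' := fun a x hx c d => by
        rw [smul_eq_mul, ← mul_assoc]; exact hx _ d }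
  have hJ : idealOfVars ι k ≤ J.radical := by
    rw [← vanishingIdeal_zeroLocus_eq_radical (K := k)]
    refine Ideal.span_le.2 ?_
    rintro _ ⟨i, rfl⟩ w hw
    by_cases h0 : w = 0
    · simp [h0]
    · obtain ⟨e, G, hG, h1, h2⟩ := h w h0
      refine absurd (hw G fun c d => ?_) (by simpa [aeval_eq_eval] using h1)
      rcases hc_mul c hG d with h3 | ⟨n, rfl, h3⟩
      · rw [h3, map_zero]; exact zero_mem _
      · rw [h3, map_mul]
        exact mul_mem_low (homogeneousComponent_isHomogeneous n c) h2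
  obtain ⟨N, hN⟩ := Ideal.exists_pow_le_of_le_radical_of_fg hJ (idealOfVars_fg ι k)
  have key : ∀ (e : ℕ) (G : MvPolynomial ι k), G.IsHomogeneous e → φ G ∈ low B φ N := by
    intro e
    induction e using Nat.strong_induction_on with
    | _ e ih =>
      intro G hG
      by_cases he : e < N
      · exact Submodule.subset_span ⟨e, G, he, hG, rfl⟩
      · have h1 : G ∈ J := hN ((mem_pow_idealOfVars_iff' N G).2 fun x hx =>
          hG.coeff_eq_zero (by omega))
        have h2 := h1 1 e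
        rw [one_mul, homogeneousComponent_eq_self hG] at h2
        refine (Submodule.span_le.2 ?_ : low B φ e ≤ low B φ N) h2
        rintro _ ⟨e', G', he', hG', rfl⟩
        exact ih e' he' G' hG'
  have key' : ∀ G : MvPolynomial ι k, φ G ∈ low B φ N := fun G => by
    rw [← sum_homogeneousComponent G, map_sum]
    exact Submodule.sum_mem _ fun e _ => key e _ (homogeneousComponent_isHomogeneous e G)
  refine IsIntegral.of_mem_of_fg (Algebra.adjoin B (Set.range φ)) ?_ _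
    (Algebra.subset_adjoin ⟨F, rfl⟩)
  suffices e : (Algebra.adjoin B (Set.range φ)).toSubmodule = low B φ N from e ▸ low_fg B φ N
  rw [Algebra.adjoin_eq_span]
  refine le_antisymm (Submodule.span_le.2 fun x hx => ?_) (Submodule.span_le.2 ?_)
  · obtain ⟨G, rfl⟩ : x ∈ φ.range :=
      (Submonoid.closure_le (S := φ.range.toSubsemiring.toSubmonoid)).2 (fun _ h => h) hx
    exact key' G
  · rintro _ ⟨e, G, -, -, rfl⟩
    exact Submodule.subset_span (Submonoid.subset_closure ⟨G, rfl⟩)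

variable {k : Type} [Field k] [IsAlgClosed k] {Γ : Type} [Group Γ] [Reg k Γ]

namespace GrossAux

omit [IsAlgClosed k] in
/-- Lifting a rational action on the span of an orbit to a polynomial ring. -/
lemma exists_lift {A : Type} [CommRing A] [Algebra k A] (ρ : Γ →* (A →ₐ[k] A))
    (hρ : RatAct ρ) (a : A) :
    ∃ (m : ℕ) (φ : MvPolynomial (Fin m) k →ₐ[k] A)
      (σ : Γ →* (MvPolynomial (Fin m) k →ₐ[k] MvPolynomial (Fin m) k)), RatAct σ ∧
      (∀ g d F, F.IsHomogeneous d → (σ g F).IsHomogeneous d) ∧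
      (∀ g F, φ (σ g F) = ρ g (φ F)) ∧ ∃ F, φ F = a := by
  classical
  let V : Submodule k A := Submodule.span k (Set.range fun g => ρ g a)
  have : FiniteDimensional k V := (hρ a).fd
  have hV : ∀ g, ∀ v ∈ V, ρ g v ∈ V := fun g v hv => by
    have : V ≤ V.comap (ρ g).toLinearMap := by
      refine Submodule.span_le.2 ?_
      rintro _ ⟨h, rfl⟩
      exact Submodule.subset_span ⟨g * h, by simp⟩
    exact this hv
  obtain ⟨m, w, η, hw, hη, hexp⟩ := exists_basis_expansion V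
  let lin : A →ₗ[k] MvPolynomial (Fin m) k := ∑ i, (η i).smulRight (X i)
  have lin_apply : ∀ v, lin v = ∑ i, η i v • X i := fun v => by simp [lin]
  have lin_w : ∀ i, lin (w i) = X i := fun i => by simp [lin_apply, hη]
  have lin_hom : ∀ v, (lin v).IsHomogeneous 1 := fun v => by
    rw [lin_apply]
    exact Submodule.sum_mem (homogeneousSubmodule (Fin m) k 1) fun i _ =>
      Submodule.smul_mem _ _ (isHomogeneous_X k i)
  have s_lin : ∀ g, ∀ v ∈ V, aeval (fun i => lin (ρ g (w i))) (lin v) = lin (ρ g v) := by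
    intro g v hv
    conv_rhs => rw [hexp v hv]
    rw [lin_apply v]
    simp only [map_sum, map_smul, aeval_X]
  have phi_lin : ∀ v ∈ V, aeval w (lin v) = v := by
    intro v hv
    conv_rhs => rw [hexp v hv]
    rw [lin_apply v]
    simp only [map_sum, map_smul, aeval_X]
  let σ : Γ →* (MvPolynomial (Fin m) k →ₐ[k] MvPolynomial (Fin m) k) :=
    { toFun := fun g => aeval (fun i => lin (ρ g (w i)))
      map_one' := algHom_ext fun i => by simp [lin_w]
      map_mul' := fun g h => algHom_ext fun i => by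
        rw [AlgHom.mul_apply, aeval_X, aeval_X, s_lin g _ (hV h _ (hw i)), map_mul,
          AlgHom.mul_apply] }
  have σX : ∀ g i, σ g (X i) = lin (ρ g (w i)) := fun g i => aeval_X _ _
  refine ⟨m, aeval w, σ, fun F => ?_, fun g d F hF => ?_, fun g F => ?_, lin a, phi_lin a ?_⟩
  · induction F using MvPolynomial.induction_on with
    | C c => exact (regV_const (C c)).congr fun g => ((σ g).commutes c).symm
    | add p q hp hq => exact (hp.add hq).congr fun g => (map_add _ _ _).symm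
    | mul_X p i hp =>
      exact (hp.mul ((hρ (w i)).map lin)).congr fun g => by rw [map_mul, σX]
  · have := hF.aeval (fun i => lin (ρ g (w i))) (fun i => lin_hom _)
    rwa [one_mul] at this
  · have : (aeval w).comp (σ g) = (ρ g).comp (aeval w) := algHom_ext fun i => by
      rw [AlgHom.comp_apply, σX, phi_lin _ (hV g _ (hw i)), AlgHom.comp_apply, aeval_X]
    exact AlgHom.congr_fun this F
  · exact Submodule.subset_span ⟨1, by simp⟩

lemma hc_comm {k ι : Type} [Field k] (s : MvPolynomial ι k →ₐ[k] MvPolynomial ι k)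
    (hs : ∀ d F, F.IsHomogeneous d → (s F).IsHomogeneous d) (d : ℕ) (F : MvPolynomial ι k) :
    s (homogeneousComponent d F) = homogeneousComponent d (s F) := by
  classical
  conv_lhs => rw [← sum_homogeneousComponent F, map_sum, map_sum]
  conv_rhs => rw [← sum_homogeneousComponent F, map_sum, map_sum]
  refine Finset.sum_congr rfl fun n _ => ?_
  rw [homogeneousComponent_of_mem (homogeneousComponent_mem n F),
    homogeneousComponent_of_mem (hs n _ (homogeneousComponent_isHomogeneous n F))]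
  split_ifs <;> simp

/-- Right translation of functions. -/
def rightRep (k Γ : Type) [Field k] [Group Γ] : Representation k Γ (Γ → k) where
  toFun h := LinearMap.funLeft k k (fun g => g * h)
  map_one' := by ext; simp
  map_mul' g h := LinearMap.ext fun f => funext fun x => by
    change f (x * (g * h)) = f (x * g * h)
    rw [mul_assoc]

attribute [local instance] MvPolynomial.gradedAlgebra in
omit [IsAlgClosed k] in
lemma exists_translate [RegMul Γ] [RegInv Γ] (hP : PowRed Γ) (U : Subgroup Γ)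
    (hU : FixProp U) {m : ℕ}
    (σ : Γ →* (MvPolynomial (Fin m) k →ₐ[k] MvPolynomial (Fin m) k)) (hσ : RatAct σ)
    (hh : ∀ g d F, F.IsHomogeneous d → (σ g F).IsHomogeneous d) (x : Fin m → k) (hx : x ≠ 0) :
    ∃ (D : ℕ) (b : MvPolynomial (Fin m) k) (g : Γ), 0 < D ∧ b.IsHomogeneous D ∧
      b ∈ invs σ U ∧ eval x (σ g b) ≠ 0 := by
  let T : MvPolynomial (Fin m) k →ₐ[k] (Γ → k) := AlgHom.pi fun g => (aeval x).comp (σ g)
  have T_apply : ∀ F g, T F g = eval x (σ g F) := fun F g => by simp [T, aeval_eq_eval]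
  have Tσ : ∀ h F, T (σ h F) = rightRep k Γ h (T F) := fun h F => funext fun g => by
    change _ = T F (g * h)
    rw [T_apply, T_apply, map_mul, AlgHom.mul_apply]
  let W : Submodule k (Γ → k) := (homogeneousSubmodule (Fin m) k 1).map T.toLinearMap
  have : FiniteDimensional k W :=
    Module.Finite.iff_fg.2 ((homogeneousSubmodule_fg _ _ 1).map _)
  have : Nontrivial W := by
    obtain ⟨i, hi⟩ := Function.ne_iff.1 hx
    refine ⟨⟨T (X i), X i, isHomogeneous_X k i, rfl⟩, 0, fun e => hi ?_⟩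
    simpa [T_apply] using congrArg (fun f : W => f.1 1) e
  have hW : ∀ h, W ≤ W.comap (rightRep k Γ h) := by
    rintro h _ ⟨F, hF, rfl⟩
    exact ⟨σ h F, hh h 1 F hF, Tσ h F⟩
  obtain ⟨⟨_, v, hv, rfl⟩, hv0, hvU⟩ := hU W ((rightRep k Γ).subrepresentation W hW) (by
    rintro ⟨_, F, hF, rfl⟩
    exact (((hσ F).map T.toLinearMap).codRestrict W fun h => ⟨σ h F, hh h 1 F hF, rfl⟩).congr
      fun h => Subtype.ext (Tσ h F))
  let I : Ideal (MvPolynomial (Fin m) k) :=
    Ideal.span {F | (∃ d, F.IsHomogeneous d) ∧ T F = 0}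
  have hI : I.IsHomogeneous (homogeneousSubmodule (Fin m) k) :=
    Ideal.homogeneous_span _ _ fun F hF => hF.1
  have hIT : I ≤ RingHom.ker T := Ideal.span_le.2 fun F hF => hF.2
  have hIσ : ∀ g, ∀ F ∈ I, σ g F ∈ I := fun g F hF => by
    have : I ≤ I.comap (σ g) := by
      refine Ideal.span_le.2 ?_
      rintro G ⟨⟨d, hG⟩, h0⟩
      exact Ideal.subset_span ⟨⟨d, hh g d G hG⟩, by rw [Tσ, h0, map_zero]⟩
    exact this hF
  obtain ⟨D, hD, b, hb, hvb⟩ := transfer_pow hP U σ hσ I hIσ v fun u hu =>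
    Ideal.subset_span ⟨⟨1, (hh u 1 v hv).sub hv⟩, by
      rw [map_sub, Tσ, sub_eq_zero]
      exact congrArg Subtype.val (hvU u hu)⟩
  obtain ⟨g, hg⟩ : ∃ g, T v g ≠ 0 := by
    by_contra h0
    push Not at h0
    exact hv0 (Subtype.ext (funext h0))
  refine ⟨D, homogeneousComponent D b, g, hD, homogeneousComponent_isHomogeneous D b,
    fun u hu => by rw [hc_comm _ (hh u), hb u hu], ?_⟩
  have h1 : T (homogeneousComponent D (v ^ D - b)) = 0 :=
    hIT (homogeneousComponent_mem_of_mem hI hvb D)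
  have h2 : (v ^ D).IsHomogeneous D := by
    simpa using IsHomogeneous.pow hv D
  rw [map_sub, homogeneousComponent_eq_self h2, map_sub, sub_eq_zero, map_pow] at h1
  rw [← T_apply, ← h1]
  exact pow_ne_zero D hg

end GrossAux

open GrossAux in
/-- A rational algebra is integral over the algebra generated by the translates of its
`U`-invariants. -/
theorem integral_translates [RegMul Γ] [RegInv Γ] (hP : PowRed Γ) (U : Subgroup Γ)
    (hU : FixProp U) {A : Type} [CommRing A] [Algebra k A] (ρ : Γ →* (A →ₐ[k] A))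
    (hρ : RatAct ρ) (a : A) :
    IsIntegral (Algebra.adjoin k {b | ∃ g, ∃ c ∈ invs ρ U, b = ρ g c}) a := by
  obtain ⟨m, φ, σ, hσ, hh, hφ, F, rfl⟩ := GrossAux.exists_lift ρ hρ a
  refine integral_of_homogeneous _ φ (fun x hx => ?_) F
  obtain ⟨D, b, g, hD, hb, hbU, h0⟩ := exists_translate hP U hU σ hσ hh x hx
  refine ⟨D, σ g b, hh g D b hb, h0, ?_⟩
  have h1 : φ (σ g b) ∈ Algebra.adjoin k {b | ∃ g, ∃ c ∈ invs ρ U, b = ρ g c} :=
    Algebra.subset_adjoin ⟨g, φ b, fun u hu => by rw [← hφ, hbU u hu], hφ g b⟩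
  have h2 := Submodule.smul_mem (Submodule.span
    (Algebra.adjoin k {b | ∃ g, ∃ c ∈ invs ρ U, b = ρ g c})
    {a | ∃ (e : ℕ) (G : MvPolynomial (Fin m) k), e < D ∧ G.IsHomogeneous e ∧ a = φ G})
    ⟨_, h1⟩ (Submodule.subset_span ⟨0, 1, hD, isHomogeneous_one _ _, rfl⟩)
  simpa [Subalgebra.smul_def] using h2

/-- The converse of the Hadziev-Grosshans theorem for subalgebras of affine domains. -/
theorem grosshans_converse (p : ℕ) [Fact p.Prime] [CharP k p] [RegMul Γ] [RegInv Γ]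
    (hP : PowRed Γ) (U : Subgroup Γ) (hU : FixProp U) {A : Type} [CommRing A] [Algebra k A]
    (ρ : Γ →* (A →ₐ[k] A)) (hρ : RatAct ρ) {R : Type} [CommRing R] [IsDomain R] [Algebra k R]
    [Algebra.FiniteType k R] (j : A →ₐ[k] R) (hj : Function.Injective j)
    (h : (invs ρ U).FG) : Algebra.FiniteType k A := by
  obtain ⟨t, ht⟩ := h
  let B := Algebra.adjoin k {b | ∃ g, ∃ c ∈ invs ρ U, b = ρ g c}
  have hB : B.FG := by
    have h1 : (⨆ c ∈ t, Submodule.span k (Set.range fun g => ρ g c)).FG :=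
      Submodule.fg_biSup _ _ fun c _ => Module.Finite.iff_fg.1 (hρ c).fd
    obtain ⟨s, hs⟩ := h1
    refine ⟨s, le_antisymm (Algebra.adjoin_le fun x hx => ?_) (Algebra.adjoin_le ?_)⟩
    · have h2 : (⨆ c ∈ t, Submodule.span k (Set.range fun g => ρ g c)) ≤ B.toSubmodule := by
        refine iSup₂_le fun c hc => Submodule.span_le.2 ?_
        rintro _ ⟨g, rfl⟩
        exact Algebra.subset_adjoin ⟨g, c, ht ▸ Algebra.subset_adjoin hc, rfl⟩
      exact h2 (hs ▸ Submodule.subset_span hx)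
    · rintro _ ⟨g, c, hc, rfl⟩
      have h2 : Algebra.adjoin k (t : Set A) ≤ (Algebra.adjoin k (s : Set A)).comap (ρ g) := by
        refine Algebra.adjoin_le fun c hc => ?_
        refine Algebra.span_le_adjoin k (s : Set A) (?_ : ρ g c ∈ _)
        rw [hs]
        exact le_iSup₂_of_le (f := fun c (_ : c ∈ t) =>
          Submodule.span k (Set.range fun g => ρ g c)) c hc le_rfl
          (Submodule.subset_span ⟨g, rfl⟩)
      exact h2 (ht ▸ hc)
  have hC := fg_of_integral p (B.map j) ((⊤ : Subalgebra k A).map j) (hB.map j)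
    (Subalgebra.map_mono le_top) (by
      rintro _ ⟨a, -, rfl⟩
      exact IsIntegral.map_of_comp_eq (j.subalgebraMap B).toRingHom j.toRingHom rfl
        (integral_translates hP U hU ρ hρ a))
  exact ⟨Subalgebra.fg_of_fg_map _ j hj hC⟩

end ZipFG
end

-- merged part: Pool.Agent.Work.MP_5c492e_ag.Cone
section
/-! Closed cones, Borel's fixed point theorem, closed orbits. -/

namespace ZipFG

open Function Set MvPolynomial

variable {k : Type} [Field k] {ι : Type} [Finite ι]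

omit [Finite ι] in
lemma aeval_fun_apply {Z : Type*} (f : ι → Z → k) (P : MvPolynomial ι k) (z : Z) :
    aeval f P z = eval (fun i => f i z) P := by
  induction P using MvPolynomial.induction_on with
  | C a => simp
  | add p q hp hq => simp [hp, hq]
  | mul_X p i hp => simp [hp]

omit [Finite ι] in
lemma isReg_eval (P : MvPolynomial ι k) : IsReg (fun x : ι → k => eval x P) := by
  induction P using MvPolynomial.induction_on with
  | C a => simpa using isReg_const a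
  | add p q hp hq => simpa using hp.add hq
  | mul_X p i hp => simpa using hp.mul (isReg_apply i)

omit [Finite ι] in
lemma IsReg.exists_mvPoly {F : (ι → k) → k} (hF : IsReg F) :
    ∃ P : MvPolynomial ι k, ∀ x, F x = eval x P := by
  have : Oo (ι → k) ≤ (aeval (R := k) fun i => fun x : ι → k => x i).range := by
    refine iSup_le fun i => ?_
    rw [Subalgebra.map_le]
    refine Algebra.adjoin_le ?_
    rw [Set.singleton_subset_iff]
    exact ⟨X i, by ext; simp⟩
  obtain ⟨P, rfl⟩ := this hF.mem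
  exact ⟨P, fun x => aeval_fun_apply _ P x⟩

/-- Homogeneous polynomial functions. -/
def HomF (d : ℕ) (F : (ι → k) → k) : Prop := IsReg F ∧ ∀ (c : k) x, F (c • x) = c ^ d * F x

omit [Finite ι] in
lemma homF_eval {P : MvPolynomial ι k} {d : ℕ} (h : P.IsHomogeneous d) :
    HomF d (fun x => eval x P) := by
  refine ⟨isReg_eval P, fun c x => ?_⟩
  simp only [eval_eq, Finset.mul_sum]
  refine Finset.sum_congr rfl fun m hm => ?_
  have := h (mem_support_iff.1 hm)
  simp only [Pi.smul_apply, smul_eq_mul, mul_pow, Finset.prod_mul_distrib,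
    Finset.prod_pow_eq_pow_sum]
  rw [← this, Finsupp.weight_apply]
  simp [Finsupp.sum]; ring

lemma coeff_eq_zero_of_sum [Infinite k] {N : ℕ} {a : ℕ → k}
    (h : ∀ c : kˣ, ∑ j ∈ Finset.range N, (c : k) ^ j * a j = 0) {j : ℕ} (hj : j < N) : a j = 0 := by
  have : (∑ j ∈ Finset.range N, Polynomial.monomial j (a j)) = 0 :=
    Polynomial.eq_zero_of_infinite_isRoot _ (infinite_ne_zero.mono fun c hc => by
      simpa [Polynomial.eval_finset_sum, mul_comm] using h (Units.mk0 c hc))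
  simpa [Polynomial.coeff_monomial, hj] using congrArg (fun p => p.coeff j) this

omit [Finite ι] in
lemma IsReg.exists_hom {F : (ι → k) → k} (hF : IsReg F) : ∃ (N : ℕ) (P : ℕ → (ι → k) → k),
    (∀ j, HomF j (P j)) ∧ ∀ x, F x = ∑ j ∈ Finset.range N, P j x := by
  obtain ⟨P, hP⟩ := hF.exists_mvPoly
  refine ⟨P.totalDegree + 1, fun j x => eval x (homogeneousComponent j P),
    fun j => homF_eval (homogeneousComponent_isHomogeneous j P), fun x => ?_⟩
  rw [hP, ← map_sum, sum_homogeneousComponent]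

omit [Finite ι] in
lemma HomF.exists_poly [Infinite k] {d : ℕ} {F : (ι → k) → k} (h : HomF d F) :
    ∃ P : MvPolynomial ι k, P.IsHomogeneous d ∧ ∀ x, F x = eval x P := by
  classical
  obtain ⟨P, hP⟩ := h.1.exists_mvPoly
  refine ⟨homogeneousComponent d P, homogeneousComponent_isHomogeneous d P, fun x => ?_⟩
  have key : ∀ y, ∑ j ∈ Finset.range (P.totalDegree + d + 1), eval y (homogeneousComponent j P)
      = F y := fun y => by
    rw [hP, ← map_sum]
    conv_rhs => rw [← sum_homogeneousComponent P]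
    congr 1
    refine (Finset.sum_subset (Finset.range_subset_range.2 (by omega)) fun j _ hj => ?_).symm
    exact homogeneousComponent_eq_zero _ _ (by simpa [Nat.succ_le_iff] using hj)
  have := coeff_eq_zero_of_sum (N := P.totalDegree + d + 1)
    (a := fun j => eval x (homogeneousComponent j P) - if j = d then F x else 0) (fun c => by
      have h1 := key ((c : k) • x)
      simp only [(homF_eval (homogeneousComponent_isHomogeneous _ P)).2, h.2] at h1
      simp [mul_sub, Finset.sum_sub_distrib, h1, Nat.lt_succ_iff]) (j := d) (by omega)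
  simp only [if_true] at this
  exact (sub_eq_zero.1 this).symm

omit [Finite ι] in
lemma hom_comp_eq_zero [Infinite k] {N : ℕ} {P : ℕ → (ι → k) → k} (hP : ∀ j, HomF j (P j))
    {x : ι → k} (h : ∀ c : kˣ, ∑ j ∈ Finset.range N, P j ((c : k) • x) = 0) {j : ℕ} (hj : j < N) :
    P j x = 0 :=
  coeff_eq_zero_of_sum (a := fun j => P j x) (fun c => by simpa [(hP _).2] using h c) hj

lemma finite_of_top_forms [IsAlgClosed k] {Y : Set (ι → k)}
    (h : ∀ w : ι → k, w ≠ 0 → ∃ (d : ℕ) (P : ℕ → (ι → k) → k), (∀ j, HomF j (P j)) ∧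
      (∀ y ∈ Y, ∑ j ∈ Finset.range (d + 1), P j y = 0) ∧ P d w ≠ 0) : Y.Finite := by
  let φ : MvPolynomial ι k →ₐ[k] (Y → k) := aeval fun i y => y.1 i
  have hφ : ∀ P (y : Y), φ P y = eval y.1 P := fun P y => aeval_fun_apply _ P y
  have key := integral_of_homogeneous ⊥ φ (fun w hw => by
    obtain ⟨d, P, hP, h1, h2⟩ := h w hw
    choose Q hQ hQ' using fun j => (hP j).exists_poly
    refine ⟨d, Q d, hQ d, by rwa [← hQ'], ?_⟩
    have : φ (Q d) = - ∑ j ∈ Finset.range d, φ (Q j) := by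
      ext y
      have := h1 y.1 y.2
      rw [Finset.sum_range_succ] at this
      simp only [hφ, Pi.neg_apply, Finset.sum_apply, ← hQ']
      linear_combination this
    rw [this]
    exact neg_mem (sum_mem fun j hj => Submodule.subset_span ⟨j, Q j, by simpa using hj, hQ j, rfl⟩))
  have hfin : ∀ i, ∃ s : Set k, s.Finite ∧ ∀ y ∈ Y, y i ∈ s := by
    intro i
    have : Algebra.IsIntegral k (⊥ : Subalgebra k (Y → k)) := Algebra.IsIntegral.of_finite _ _
    obtain ⟨p, hp, hp'⟩ : IsIntegral k (φ (X i)) := isIntegral_trans _ (key (X i))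
    refine ⟨_, p.finite_setOf_isRoot hp.ne_zero, fun y hy => ?_⟩
    have h1 := Polynomial.aeval_algHom_apply (Pi.evalAlgHom k (fun _ : Y => k) ⟨y, hy⟩) (φ (X i)) p
    rw [Polynomial.aeval_def (φ (X i)), hp'] at h1
    simpa [hφ] using h1
  choose s hs hs' using hfin
  exact (Set.Finite.pi' hs).subset fun y hy i => hs' i y hy

lemma finite_of_top_forms_cone [IsAlgClosed k] {Y C : Set (ι → k)} (hC : ZClosed C)
    (hc : ∀ (c : k), ∀ w ∈ C, c • w ∈ C) (hY : Y ⊆ C)
    (h : ∀ w ∈ C, w ≠ 0 → ∃ (d : ℕ) (P : ℕ → (ι → k) → k), (∀ j, HomF j (P j)) ∧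
      (∀ y ∈ Y, ∑ j ∈ Finset.range (d + 1), P j y = 0) ∧ P d w ≠ 0) : Y.Finite := by
  classical
  refine finite_of_top_forms fun w hw => ?_
  by_cases hwC : w ∈ C
  · exact h w hwC hw
  obtain ⟨F, hF, h1, h2⟩ := hC.exists_fun hwC
  obtain ⟨N, P, hP, e⟩ := hF.exists_hom
  rw [e] at h2
  obtain ⟨d, hd, h3⟩ := Finset.exists_ne_zero_of_sum_ne_zero h2
  refine ⟨d, fun j => if j = d then P d else fun _ => 0, fun j => ?_, fun y hy => ?_, by simpa⟩
  · beta_reduce
    split_ifs with hj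
    · exact hj ▸ hP j
    · exact ⟨isReg_const _, by simp⟩
  · refine Finset.sum_eq_zero fun j _ => ?_
    beta_reduce
    split_ifs
    · exact hom_comp_eq_zero hP (fun c => by rw [← e, h1 _ (hc _ _ (hY hy))]) (by simpa using hd)
    · rfl

lemma finite_of_hyperplane [IsAlgClosed k] {C : Set (ι → k)} (hC : ZClosed C)
    (hc : ∀ (c : k), ∀ w ∈ C, c • w ∈ C) (η : (ι → k) →ₗ[k] k) (h : ∀ w ∈ C, η w = 0 → w = 0) :
    {w ∈ C | η w = 1}.Finite := by
  have := Fintype.ofFinite ι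
  refine finite_of_top_forms_cone hC hc (fun _ h => h.1) fun w hw hw0 => ?_
  refine ⟨1, fun j => if j = 0 then fun _ => -1 else if j = 1 then η else fun _ => 0, fun j => ?_,
    fun y hy => by simp [Finset.sum_range_succ, hy.2], by simpa using fun h' => hw0 (h w hw h')⟩
  beta_reduce
  split_ifs with h0 h1
  · exact ⟨isReg_const _, by simp [h0]⟩
  · exact ⟨isReg_linear η, by simp [h1]⟩
  · exact ⟨isReg_const _, by simp⟩

variable {Γ : Type} [Group Γ] [Reg k Γ] [RegMul Γ] [RegInv Γ] {ρ : Γ →* Module.End k (ι → k)}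

lemma rep_ne_zero {W : Type*} [AddCommGroup W] [Module k W] {Γ : Type*} [Group Γ]
    (ρ : Γ →* Module.End k W) (g : Γ) {v : W} (hv : v ≠ 0) : ρ g v ≠ 0 := fun h => hv (by
  have := congrArg (ρ g⁻¹) h
  rwa [← Module.End.mul_apply, ← map_mul, inv_mul_cancel, map_one, map_zero] at this)

lemma rep_mul {W : Type*} [AddCommGroup W] [Module k W] {Γ : Type*} [Monoid Γ]
    (ρ : Γ →* Module.End k W) (g h : Γ) (v : W) : ρ (g * h) v = ρ g (ρ h v) := by
  rw [map_mul]; rfl

lemma rep_one {W : Type*} [AddCommGroup W] [Module k W] {Γ : Type*} [Monoid Γ]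
    (ρ : Γ →* Module.End k W) (v : W) : ρ 1 v = v := by
  rw [map_one]; rfl

theorem borel_fixed [IsAlgClosed k] (hρ : RatRep ρ) {H : Subgroup Γ} (hH : Irr (H : Set Γ))
    [Group.IsSolvable H] {C : Set (ι → k)} (hC : ZClosed C) (hc : ∀ (c : k), ∀ w ∈ C, c • w ∈ C)
    (hHC : ∀ h ∈ H, ∀ w ∈ C, ρ h w ∈ C) (hne : ∃ w ∈ C, w ≠ 0) :
    ∃ v ∈ C, v ≠ 0 ∧ ∀ h ∈ H, ∃ a : k, ρ h v = a • v := by
  obtain ⟨V, ⟨h1, w, hwC, hwV, hw0⟩, hmin⟩ :=
    (wellFounded_lt (α := Submodule k (ι → k))).has_min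
    {V | (∀ h ∈ H, ∀ v ∈ V, ρ h v ∈ V) ∧ ∃ w ∈ C, w ∈ V ∧ w ≠ 0}
    ⟨⊤, by simp, by simpa using hne⟩
  obtain ⟨η, ⟨v1, hv1, hη1⟩, -, hη⟩ := lie_kolchin_dual hH hρ (V0 := ⊥) h1 (by simp)
    (fun h => hw0 (by simpa using h hwV))
  have key : ∀ w ∈ C ∩ V, η w = 0 → w = 0 := by
    intro w hw h0
    by_contra hw0
    refine hmin (V ⊓ LinearMap.ker η) ⟨fun h hh v hv => ⟨h1 h hh v hv.1, ?_⟩, w, hw.1,
      ⟨hw.2, h0⟩, hw0⟩ (lt_of_le_of_ne inf_le_left fun e => hη1 (e.ge hv1).2)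
    obtain ⟨a, ha⟩ := hη h hh
    have : η v = 0 := hv.2
    simp [ha v hv.1, this]
  have hfin := finite_of_hyperplane (hC.inter (zclosed_submodule V))
    (fun c w hw => ⟨hc c w hw.1, V.smul_mem c hw.2⟩) η key
  have hw1 : η w ≠ 0 := fun h => hw0 (key w ⟨hwC, hwV⟩ h)
  obtain ⟨y, -, hy⟩ := hH.subset_of_biUnion hfin (C := fun y => {h | ρ h w = η (ρ h w) • y})
    (fun y _ => (hρ w).zclosed_eq (regV_smul_const ((hρ w).lin η) y)) (fun h hh => by
      have h2 : ρ h w ∈ C ∩ V := ⟨hHC h hh w hwC, h1 h hh w hwV⟩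
      have h3 : η (ρ h w) ≠ 0 := fun e => rep_ne_zero ρ h hw0 (key _ h2 e)
      simp only [mem_iUnion]
      refine ⟨(η (ρ h w))⁻¹ • ρ h w, ⟨⟨hc _ _ h2.1, V.smul_mem _ h2.2⟩, by simp [h3]⟩, ?_⟩
      simp [smul_smul, h3])
  refine ⟨w, hwC, hw0, fun h hh => ⟨η (ρ h w) * (η w)⁻¹, ?_⟩⟩
  have h2 : ρ h w = η (ρ h w) • y := hy hh
  have h3 : ρ 1 w = η (ρ 1 w) • y := hy H.one_mem
  rw [rep_one] at h3
  conv_rhs => rw [← smul_smul]; arg 2; arg 2; rw [h3]
  rw [smul_smul _ (η w), inv_mul_cancel₀ hw1, one_smul, ← h2]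

/-- The cone over an orbit. -/
def cone (ρ : Γ →* Module.End k (ι → k)) (H : Subgroup Γ) (v : ι → k) : Set (ι → k) :=
  {w | ∃ c : k, ∃ h ∈ H, w = c • ρ h v}

omit [Finite ι] [Reg k Γ] [RegMul Γ] [RegInv Γ] in
lemma cone_smul {H : Subgroup Γ} {v : ι → k} (c : k) : ∀ w ∈ cone ρ H v, c • w ∈ cone ρ H v := by
  rintro _ ⟨a, h, hh, rfl⟩
  exact ⟨c * a, h, hh, by rw [smul_smul]⟩

omit [Finite ι] [Reg k Γ] [RegMul Γ] [RegInv Γ] in
lemma cone_rep {H : Subgroup Γ} {v : ι → k} : ∀ h ∈ H, ∀ w ∈ cone ρ H v, ρ h w ∈ cone ρ H v := by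
  rintro g hg _ ⟨a, h, hh, rfl⟩
  exact ⟨a, g * h, H.mul_mem hg hh, by rw [map_smul, rep_mul]⟩

omit [Finite ι] [Reg k Γ] [RegMul Γ] [RegInv Γ] in
lemma mem_cone {H : Subgroup Γ} {v : ι → k} {h : Γ} (hh : h ∈ H) : ρ h v ∈ cone ρ H v :=
  ⟨1, h, hh, by simp⟩

omit [Finite ι] [Reg k Γ] [RegMul Γ] [RegInv Γ] in
lemma self_mem_cone {H : Subgroup Γ} {v : ι → k} : v ∈ cone ρ H v :=
  ⟨1, 1, H.one_mem, by simp⟩

omit [RegMul Γ] [RegInv Γ] in
lemma RatRep.joint (hρ : RatRep ρ) : IsReg (fun p : Γ × (ι → k) => ρ p.1 p.2) := by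
  classical
  have := Fintype.ofFinite ι
  refine RegV.isReg_pi (RegV.congr (RegV.sum (s := Finset.univ) fun i _ =>
    RegV.smul (a := fun p : Γ × (ι → k) => p.2 i) (by fun_prop)
      ((hρ (Pi.single i 1)).comp isReg_fst)) fun p => ?_)
  conv_rhs => rw [pi_eq_sum_univ' p.2]
  simp

omit [RegMul Γ] [RegInv Γ] in
lemma RatRep.isReg (hρ : RatRep ρ) {X : Type} [Reg k X] {g : X → Γ} {w : X → ι → k}
    (hg : IsReg g) (hw : IsReg w) : IsReg (fun x => ρ (g x) (w x)) :=
  hρ.joint.comp (hg.prodMk hw)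

lemma cone_open [IsAlgClosed k] [Aff Γ] (hρ : RatRep ρ) {H : Subgroup Γ} (hH : Irr (H : Set Γ))
    (hHc : ZClosed (H : Set Γ)) (v : ι → k) {g : Γ} (hg : g ∈ H) (c : kˣ) :
    ∃ F : (ι → k) → k, IsReg F ∧ F ((c : k) • ρ g v) ≠ 0 ∧
      ∀ z ∈ zcl (cone ρ H v), F z ≠ 0 → z ∈ cone ρ H v := by
  have := hHc.affSub
  obtain ⟨F, hF, h1, h2⟩ := orbit_open (Γ := H × kˣ) (hH.subgroup.prod_univ irr_units)
    (a := fun p w => (p.2 : k) • ρ p.1 w)
    (IsReg.pi_smul (by fun_prop) (hρ.isReg (by fun_prop) (by fun_prop))) (by simp)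
    (fun g h x => by simp [smul_smul]) v (⟨g, hg⟩, c)
  refine ⟨F, hF, h1, fun z hz hFz => ?_⟩
  obtain ⟨p, hp⟩ := h2 z ((zclosed_zcl _).zcl_subset (by
    rintro _ ⟨a, h, hh, rfl⟩
    exact mem_zcl_curve (γ := fun a : k => a • ρ h v) (by fun_prop)
      (fun t => mem_range.2 ⟨((⟨h, hh⟩ : H), t), rfl⟩) a) hz) hFz
  exact ⟨_, _, p.1.2, hp.symm⟩

theorem exists_closed_cone [IsAlgClosed k] [Aff Γ] (hρ : RatRep ρ) {H : Subgroup Γ}
    (hH : Irr (H : Set Γ)) (hHc : ZClosed (H : Set Γ)) {C : Set (ι → k)} (hC : ZClosed C)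
    (hc : ∀ (c : k), ∀ w ∈ C, c • w ∈ C) (hHC : ∀ h ∈ H, ∀ w ∈ C, ρ h w ∈ C)
    (hne : ∃ w ∈ C, w ≠ 0) : ∃ v ∈ C, v ≠ 0 ∧ ZClosed (cone ρ H v) := by
  obtain ⟨D, ⟨h1, h2, h3, h4, v, hv, hv0⟩, hmin⟩ := exists_minimal_closed
    (fun D : Set (ι → k) => ZClosed D ∧ D ⊆ C ∧ (∀ (c : kˣ), ∀ w ∈ D, (c : k) • w ∈ D) ∧
      (∀ h ∈ H, ∀ w ∈ D, ρ h w ∈ D) ∧ ∃ w ∈ D, w ≠ 0) id (fun _ h => h.1)
      ⟨C, hC, subset_rfl, fun c => hc c, hHC, hne⟩
  refine ⟨v, h2 hv, hv0, fun z hz => ?_⟩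
  by_contra hzv
  have hD : zcl (cone ρ H v) ⊆ D := h1.zcl_subset (by
    rintro _ ⟨a, h, hh, rfl⟩
    exact h1.curve (γ := fun a : k => a • ρ h v) (by fun_prop)
      (fun t => h3 t _ (h4 h hh v hv)) a)
  let E : Set (ι → k) := {0} ∪ (zcl (cone ρ H v) \ cone ρ H v)
  have hE : ZClosed E := by
    intro y hy
    have hy1 : y ∈ zcl (cone ρ H v) := (zclosed_zcl _).zcl_subset (by
      rintro _ (rfl | h)
      · exact subset_zcl _ ⟨0, 1, H.one_mem, by simp⟩
      · exact h.1) hy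
    by_cases hy0 : y = 0
    · exact Or.inl hy0
    refine Or.inr ⟨hy1, ?_⟩
    rintro ⟨a, h, hh, rfl⟩
    have ha : a ≠ 0 := fun e => hy0 (by simp [e])
    obtain ⟨F, hF, h5, h6⟩ := cone_open hρ hH hHc v hh (Units.mk0 a ha)
    obtain ⟨i, hi⟩ := Function.ne_iff.1 hy0
    refine mul_ne_zero h5 hi (hy (fun w => F w * w i) (by fun_prop) ?_)
    rintro u (rfl | h)
    · simp
    · by_cases h7 : F u = 0
      · rw [h7, zero_mul]
      · exact absurd (h6 _ h.1 h7) h.2
  have hz0 : z ≠ 0 := fun e => hzv ⟨0, 1, H.one_mem, by simp [e]⟩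
  have := hmin E ⟨hE, ?_, ?_, ?_, z, Or.inr ⟨hz, hzv⟩, hz0⟩ ?_ hv
  · rcases this with h | h
    · exact hv0 h
    · exact h.2 self_mem_cone
  · rintro _ (rfl | h)
    · simpa using hc 0 v (h2 hv)
    · exact h2 (hD h.1)
  · rintro c _ (rfl | h)
    · exact Or.inl (by simp)
    · refine Or.inr ⟨zcl_map (f := fun w => (c : k) • w) (by fun_prop) (cone_smul _) h.1,
        fun h' => h.2 ?_⟩
      simpa [smul_smul] using cone_smul ((c⁻¹ : kˣ) : k) _ h'
  · rintro g hg _ (rfl | h)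
    · exact Or.inl (by simp)
    · refine Or.inr ⟨zcl_map (f := fun w => ρ g w) (hρ.isReg (by fun_prop) (by fun_prop))
        (cone_rep g hg) h.1, fun h' => h.2 ?_⟩
      simpa [← rep_mul] using cone_rep _ (H.inv_mem hg) _ h'
  · rintro _ (rfl | h)
    · exact hD (subset_zcl _ ⟨0, 1, H.one_mem, by simp⟩)
    · exact hD h.1

end ZipFG
end

-- merged part: Pool.Agent.Work.MP_5c492e_ag.Cell
section
/-! Block minors and the big cell of the general linear group; characters of diagonal groups. -/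

namespace ZipFG

open Function Set Matrix

variable {k : Type} [Field k] {n : Type} [Fintype n] [DecidableEq n]

/-- The value of a character of the diagonal torus. -/
def eps (a : n → ℤ) (g : GL n k) : k := ∏ i, g.val i i ^ a i

lemma eps_one (a : n → ℤ) : eps a (1 : GL n k) = 1 := by simp [eps]

lemma eps_zero (g : GL n k) : eps 0 g = 1 := by simp [eps]

lemma eps_nu (a y : n → ℤ) (t : kˣ) : eps a (nu y t) = (t : k) ^ (a ⬝ᵥ y) := by
  simp only [eps, nu_apply, ← _root_.zpow_mul, dotProduct]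
  generalize (Finset.univ : Finset n) = s
  induction s using Finset.induction_on with
  | empty => simp
  | insert i s hi ih =>
    rw [Finset.sum_insert hi, Finset.prod_insert hi, zpow_add₀ t.ne_zero, ih, mul_comm (a i)]

lemma eps_single (i : n) (g : GL n k) : eps (Pi.single i 1) g = g.val i i := by
  rw [eps, Finset.prod_eq_single i (fun j _ h => by simp [h]) (by simp)]; simp

section
variable [LF k]

lemma eps_ne_zero (a : n → ℤ) {g : GL n k} (hg : g ∈ Dn) : eps a g ≠ 0 :=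
  Finset.prod_ne_zero_iff.2 fun i _ => zpow_ne_zero _ (Dn_ne_zero hg i)

lemma eps_mul (a : n → ℤ) {g : GL n k} (hg : g ∈ Dn) (h : GL n k) :
    eps a (g * h) = eps a g * eps a h := by
  simp only [eps, Units.val_mul, Dn_mul_apply hg, mul_zpow, Finset.prod_mul_distrib]

lemma eps_inv (a : n → ℤ) {g : GL n k} (hg : g ∈ Dn) : eps a g⁻¹ = (eps a g)⁻¹ := by
  simp only [eps, Dn_inv_apply hg, _root_.inv_zpow, Finset.prod_inv_distrib]

lemma eps_add (a b : n → ℤ) {g : GL n k} (hg : g ∈ Dn) : eps (a + b) g = eps a g * eps b g := by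
  simp only [eps, Pi.add_apply, zpow_add₀ (Dn_ne_zero hg _), Finset.prod_mul_distrib]

omit [LF k] in
lemma eps_neg (a : n → ℤ) (g : GL n k) : eps (-a) g = (eps a g)⁻¹ := by
  simp only [eps, Pi.neg_apply, _root_.zpow_neg, Finset.prod_inv_distrib]

lemma eps_sub (a b : n → ℤ) {g : GL n k} (hg : g ∈ Dn) :
    eps (a - b) g = eps a g * (eps b g)⁻¹ := by
  rw [sub_eq_add_neg, eps_add _ _ hg, eps_neg]

omit [LF k] in
lemma eps_zsmul (m : ℤ) (a : n → ℤ) (g : GL n k) : eps (m • a) g = eps a g ^ m := by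
  simp only [eps, Pi.smul_apply, smul_eq_mul, mul_comm m, _root_.zpow_mul, Finset.prod_zpow]

omit [LF k] in
lemma eps_nsmul (m : ℕ) (a : n → ℤ) (g : GL n k) : eps (m • a) g = eps a g ^ m := by
  rw [← natCast_zsmul, eps_zsmul, zpow_natCast]

lemma eps_sum {ι : Type*} (s : Finset ι) (a : ι → n → ℤ) {g : GL n k} (hg : g ∈ Dn) :
    eps (∑ i ∈ s, a i) g = ∏ i ∈ s, eps (a i) g := by
  classical
  induction s using Finset.induction_on with
  | empty => simp [eps_zero]
  | insert i s hi ih => rw [Finset.sum_insert hi, Finset.prod_insert hi, eps_add _ _ hg, ih]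

lemma IsReg.eps {X : Type} [Reg k X] (a : n → ℤ) {g : X → GL n k} (hg : IsReg g)
    (h : ∀ x, g x ∈ Dn) : IsReg (fun x => eps a (g x)) := by
  refine IsReg.fprod fun i _ => ?_
  cases a i with
  | ofNat m => simp only [Int.ofNat_eq_natCast, zpow_natCast]; fun_prop
  | negSucc m => simp only [zpow_negSucc, ← inv_pow, ← Dn_inv_apply (h _)]; fun_prop

/-- A character of a diagonal group as a monoid homomorphism. -/
def epsHom {T : Subgroup (GL n k)} (hT : T ≤ Dn) (a : n → ℤ) : T →* k where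
  toFun t := eps a t
  map_one' := eps_one a
  map_mul' s t := eps_mul a (hT s.2) t

lemma span_eps {T : Subgroup (GL n k)} (hT : T ≤ Dn) (F : T → k) (hF : IsReg F) :
    F ∈ Submodule.span k ((fun χ : T →* k => (χ : T → k)) '' range (epsHom hT)) := by
  let M : Submonoid (T → k) :=
    { carrier := (fun χ : T →* k => (χ : T → k)) '' range (epsHom hT)
      one_mem' := ⟨_, ⟨0, rfl⟩, funext fun t => eps_zero _⟩
      mul_mem' := by
        rintro _ _ ⟨_, ⟨a, rfl⟩, rfl⟩ ⟨_, ⟨b, rfl⟩, rfl⟩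
        exact ⟨_, ⟨a + b, rfl⟩, funext fun t => eps_add a b (hT t.2)⟩ }
  have key : ∀ (f : T → GL n k), (∀ t, f t ∈ Dn) →
      (∀ i, (fun t => (f t).val i i) ∈ Algebra.adjoin k (M : Set (T → k))) →
      Oo (Matrix n n k) ≤ (Algebra.adjoin k (M : Set (T → k))).comap
        (pullFun k fun t => (f t).val) := by
    intro f hf h
    refine iSup_le fun i => Subalgebra.map_le.2 (iSup_le fun j => Subalgebra.map_le.2 ?_)
    refine Algebra.adjoin_le (Set.singleton_subset_iff.2 ?_)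
    change (fun t => (f t).val i j) ∈ Algebra.adjoin k (M : Set (T → k))
    by_cases e : i = j
    · exact e ▸ h i
    · simp only [hf _ i j e]; exact zero_mem _
  have h1 : Oo T ≤ Algebra.adjoin k (M : Set (T → k)) := by
    refine Subalgebra.map_le.2 (Subalgebra.map_le.2 (sup_le (Subalgebra.map_le.2 ?_)
      (Subalgebra.map_le.2 ?_)))
    · exact key (fun t => t) (fun t => hT t.2) fun i => Algebra.subset_adjoin
        ⟨_, ⟨Pi.single i 1, rfl⟩, funext fun t => eps_single i _⟩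
    · exact key (fun t => t⁻¹) (fun t => inv_mem (hT t.2)) fun i => Algebra.subset_adjoin
        ⟨_, ⟨-Pi.single i 1, rfl⟩, funext fun t => by
          change eps _ _ = _
          rw [eps_neg, eps_single, Dn_inv_apply (hT t.2)]⟩
  have h2 := h1 hF.mem
  rw [← Subalgebra.mem_toSubmodule, Algebra.adjoin_eq_span, Submonoid.closure_eq] at h2
  exact h2

/-- Weight space decomposition for a diagonal group. -/
lemma mem_iSup_eps {T : Subgroup (GL n k)} (hT : T ≤ Dn) {W : Type*} [AddCommGroup W] [Module k W]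
    {c : T →* Module.End k W} {w : W} (h : RegV (fun t => c t w)) :
    w ∈ ⨆ a : n → ℤ, Wt (fun t => c t) (fun t : T => eps a t) := by
  refine SetLike.le_def.1 (iSup₂_le ?_) (mem_iSup_wt (span_eps hT) h)
  rintro _ ⟨_, ⟨a, rfl⟩, rfl⟩
  exact le_iSup (fun a : n → ℤ => Wt (fun t => c t) (fun t : T => eps a t)) a

end

/-- The projector onto degrees at most `c`. -/
def Ec (y : n → ℤ) (c : ℤ) : Matrix n n k := diagonal fun i => if y i ≤ c then 1 else 0

/-- The padded principal block. -/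
def Mc (y : n → ℤ) (c : ℤ) (A : Matrix n n k) : Matrix n n k := Ec y c * A * Ec y c + (1 - Ec y c)

lemma Ec_mul_Ec (y : n → ℤ) (c : ℤ) : (Ec y c : Matrix n n k) * Ec y c = Ec y c := by
  simp only [Ec, diagonal_mul_diagonal]; congr 1; ext i; split_ifs <;> simp

lemma Ec_mul_of_NN {y : n → ℤ} (c : ℤ) {A : Matrix n n k} (hA : A ∈ NN y 0) :
    Ec y c * A * Ec y c = Ec y c * A := by
  ext a b
  simp only [Ec, diagonal_mul, mul_diagonal]
  split_ifs with h1 h2 <;> simp
  exact (hA a b (by omega)).symm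

lemma mul_Ec_of_NN {y : n → ℤ} (c : ℤ) {A : Matrix n n k} (hA : A ∈ NN (-y) 0) :
    Ec y c * A * Ec y c = A * Ec y c := by
  ext a b
  simp only [Ec, diagonal_mul, mul_diagonal]
  split_ifs with h1 h2 <;> simp
  exact (hA a b (by simp; omega)).symm

lemma Mc_mul_aux (y : n → ℤ) (c : ℤ) (A B : Matrix n n k) :
    Mc y c A * Mc y c B = Ec y c * A * Ec y c * B * Ec y c + (1 - Ec y c) := by
  have h := Ec_mul_Ec (k := k) y c
  have h' : ∀ X : Matrix n n k, Ec y c * (Ec y c * X) = Ec y c * X := fun X => by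
    rw [← mul_assoc, h]
  simp only [Mc, mul_add, add_mul, mul_sub, sub_mul, mul_one, one_mul, mul_assoc, h, h']
  abel

lemma Mc_mul_left {y : n → ℤ} (c : ℤ) {A : Matrix n n k} (hA : A ∈ NN y 0) (B : Matrix n n k) :
    Mc y c (A * B) = Mc y c A * Mc y c B := by
  rw [Mc_mul_aux, Ec_mul_of_NN c hA, Mc, mul_assoc _ A]

lemma Mc_mul_right {y : n → ℤ} (c : ℤ) (A : Matrix n n k) {B : Matrix n n k} (hB : B ∈ NN (-y) 0) :
    Mc y c (A * B) = Mc y c A * Mc y c B := by
  rw [Mc_mul_aux, Mc, mul_assoc (Ec y c * A), mul_assoc (Ec y c * A), mul_Ec_of_NN c hB]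
  simp only [mul_assoc]

lemma Mc_one (y : n → ℤ) (c : ℤ) : Mc y c (1 : Matrix n n k) = 1 := by
  simp [Mc, Ec_mul_Ec]

lemma IsReg.Mc {X : Type} [Reg k X] (y : n → ℤ) (c : ℤ) {f : X → Matrix n n k} (hf : IsReg f) :
    IsReg (fun x => Mc y c (f x)) := by
  unfold ZipFG.Mc; fun_prop

/-- The product of the block minors, normalised by a power of the determinant. -/
noncomputable def Dl (y : n → ℤ) (g : GL n k) : k :=
  (∏ c ∈ Finset.Icc (-(bd y : ℤ)) (bd y), (Mc y c g.val).det) * (g⁻¹).val.det ^ (bd y + 1)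

@[fun_prop] lemma IsReg.Dl {X : Type} [Reg k X] (y : n → ℤ) {f : X → GL n k} (hf : IsReg f) :
    IsReg (fun x => Dl y (f x)) :=
  (IsReg.fprod fun c _ => (hf.units_val.Mc y c).det).mul (by fun_prop)

lemma Dl_one (y : n → ℤ) : Dl y (1 : GL n k) = 1 := by simp [Dl, Mc_one]

variable [LF k]

lemma Dl_mul_left {y : n → ℤ} {p : GL n k} (hp : p ∈ Pn y) (g : GL n k) :
    Dl y (p * g) = Dl y p * Dl y g := by
  simp only [Dl, Units.val_mul, Mc_mul_left _ hp, det_mul, Finset.prod_mul_distrib,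
    _root_.mul_inv_rev]
  ring

lemma Dl_mul_right {y : n → ℤ} (g : GL n k) {p : GL n k} (hp : p ∈ Pn (-y)) :
    Dl y (g * p) = Dl y g * Dl y p := by
  simp only [Dl, Units.val_mul, Mc_mul_right _ _ hp, det_mul, Finset.prod_mul_distrib,
    _root_.mul_inv_rev]
  ring

/-- The minor product as a character of a parabolic subgroup. -/
noncomputable def DlHom (y : n → ℤ) : Pn (k := k) y →* k where
  toFun g := Dl y g
  map_one' := Dl_one y
  map_mul' a b := Dl_mul_left a.2 _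

/-- The minor product as a character of the opposite parabolic subgroup. -/
noncomputable def DlHom' (y : n → ℤ) : Pn (k := k) (-y) →* k where
  toFun g := Dl y g
  map_one' := Dl_one y
  map_mul' a b := Dl_mul_right _ b.2

lemma Dl_un {y : n → ℤ} {p : GL n k} (hp : p ∈ Pn y) (h : Un k p) : Dl y p = 1 :=
  ((un_subgroup (g := ⟨p, hp⟩) h).map (DlHom y)).field

lemma Dl_un' {y : n → ℤ} {p : GL n k} (hp : p ∈ Pn (-y)) (h : Un k p) : Dl y p = 1 :=
  ((un_subgroup (g := ⟨p, hp⟩) h).map (DlHom' y)).field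

lemma Dl_ne_zero {y : n → ℤ} {p : GL n k} (hp : p ∈ Pn y) : Dl y p ≠ 0 :=
  ((Group.isUnit (⟨p, hp⟩ : Pn y)).map (DlHom y)).ne_zero

lemma Dl_ne_zero' {y : n → ℤ} {p : GL n k} (hp : p ∈ Pn (-y)) : Dl y p ≠ 0 :=
  ((Group.isUnit (⟨p, hp⟩ : Pn (-y))).map (DlHom' y)).ne_zero

lemma Dl_Dn (y : n → ℤ) {t : GL n k} (ht : t ∈ Dn) : Dl y t = eps (-y) t := by
  have h1 : ∀ c, (Mc y c t.val).det = ∏ i, if y i ≤ c then t.val i i else 1 := fun c => by
    rw [Mc, Dn_eq_diagonal ht, Ec, diagonal_mul_diagonal, diagonal_mul_diagonal, ← diagonal_one,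
      diagonal_sub, diagonal_add, det_diagonal]
    refine Finset.prod_congr rfl fun i _ => ?_
    split_ifs <;> simp
  rw [Dl, Dn_eq_diagonal (inv_mem ht), det_diagonal, Finset.prod_congr rfl fun c _ => h1 c,
    Finset.prod_comm, ← Finset.prod_pow, ← Finset.prod_mul_distrib]
  refine Finset.prod_congr rfl fun i _ => ?_
  have := abs_le_bd y i
  rw [← Finset.prod_filter, Finset.prod_const, Dn_inv_apply ht,
    show Finset.filter (fun c => y i ≤ c) (Finset.Icc (-(bd y : ℤ)) (bd y)) =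
      Finset.Icc (y i) (bd y) by ext; simp; omega, Int.card_Icc, ← zpow_natCast, ← zpow_natCast,
    _root_.inv_zpow', ← zpow_add₀ (Dn_ne_zero ht i), Int.toNat_of_nonneg (by omega)]
  congr 1; simp; ring

lemma Dl_conj (y : n → ℤ) {t : GL n k} (ht : t ∈ Dn) (g : GL n k) :
    Dl y (t * g * t⁻¹) = Dl y g := by
  rw [Dl_mul_right _ (Dn_le_Pn _ (inv_mem ht)), Dl_mul_left (Dn_le_Pn _ ht), mul_right_comm,
    ← Dl_mul_left (Dn_le_Pn _ ht), mul_inv_cancel, Dl_one, one_mul]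

omit [LF k] in
lemma det_Mc_ne_zero {y : n → ℤ} {g : GL n k} (h : Dl y g ≠ 0) (b : n) :
    (Mc y (y b) g.val).det ≠ 0 :=
  Finset.prod_ne_zero_iff.1 (left_ne_zero_of_mul h) _ (Finset.mem_Icc.2 (abs_le_bd y b))

/-- The unipotent factor in the big cell, as a matrix. -/
noncomputable def uM (y : n → ℤ) (g : GL n k) : Matrix n n k :=
  Matrix.of fun a b => (g.val * (Ec y (y b) * (Mc y (y b) g.val)⁻¹) : Matrix n n k) a b

omit [LF k] in
lemma uM_sub_one {y : n → ℤ} {g : GL n k} (h : Dl y g ≠ 0) : uM y g - 1 ∈ NN y 1 := by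
  intro a b hab
  have h1 : Ec y (y b) * (g.val * (Ec y (y b) * (Mc y (y b) g.val)⁻¹)) = Ec y (y b) := by
    have : Ec y (y b) * g.val * Ec y (y b) = Ec y (y b) * Mc y (y b) g.val := by
      simp only [Mc, mul_add, mul_sub, ← mul_assoc, Ec_mul_Ec]; simp
    rw [← mul_assoc, ← mul_assoc, this, mul_assoc,
      mul_nonsing_inv _ (det_Mc_ne_zero h b).isUnit, mul_one]
  have h2 := congrFun (congrFun h1 a) b
  rw [Ec, diagonal_mul, if_pos (by omega), one_mul] at h2
  rw [Matrix.sub_apply, uM, of_apply, Ec, h2, diagonal_apply, one_apply]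
  split_ifs with h3 h4
  · simp
  · omega
  · simp

open Classical in
/-- The unipotent factor in the big cell. -/
noncomputable def uu (y : n → ℤ) (g : GL n k) : GL n k :=
  if h : Dl y g ≠ 0 then (exists_Uu (uM_sub_one h)).choose else 1

lemma uu_mem (y : n → ℤ) (g : GL n k) : uu y g ∈ Uu y := by
  unfold uu; split_ifs with h
  exacts [(exists_Uu (uM_sub_one h)).choose_spec.1, one_mem _]

lemma uu_val {y : n → ℤ} {g : GL n k} (h : Dl y g ≠ 0) : (uu y g).val = uM y g := by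
  rw [uu, dif_pos h]; exact (exists_Uu (uM_sub_one h)).choose_spec.2

lemma uu_inv_mul_mem {y : n → ℤ} {g : GL n k} (h : Dl y g ≠ 0) : (uu y g)⁻¹ * g ∈ Pn (-y) := by
  have : g⁻¹ * uu y g ∈ Pn (-y) := by
    intro a b hab
    have : (g⁻¹ * uu y g).val a b =
        ((g⁻¹).val * (g.val * (Ec y (y b) * (Mc y (y b) g.val)⁻¹)) : Matrix n n k) a b := by
      rw [Units.val_mul, uu_val h]; rfl
    rw [this, ← mul_assoc, ← Units.val_mul, inv_mul_cancel, Units.val_one, one_mul, Ec,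
      diagonal_mul, if_neg (by simp at hab; omega), zero_mul]
  simpa using inv_mem this

lemma Dl_Uu_mul {y : n → ℤ} {u q : GL n k} (hu : u ∈ Uu y) : Dl y (u * q) = Dl y q := by
  rw [Dl_mul_left (Uu_le_Pn y hu), Dl_un (Uu_le_Pn y hu) (Uu_un hu), one_mul]

lemma Dl_mul_Uu {y : n → ℤ} {u q : GL n k} (hu : u ∈ Uu (-y)) : Dl y (q * u) = Dl y q := by
  rw [Dl_mul_right _ (Uu_le_Pn _ hu), Dl_un' (Uu_le_Pn _ hu) (Uu_un hu), mul_one]

lemma uu_eq {y : n → ℤ} {u q : GL n k} (hu : u ∈ Uu y) (hq : q ∈ Pn (-y)) : uu y (u * q) = u := by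
  have h : Dl y (u * q) ≠ 0 := by rw [Dl_Uu_mul hu]; exact Dl_ne_zero' hq
  have h1 := uu_inv_mul_mem h
  have := Uu_inf_Pn (mul_mem (inv_mem (uu_mem y (u * q))) hu)
    (by simpa [mul_assoc] using mul_mem h1 (inv_mem hq))
  exact (inv_mul_eq_one.1 this)

lemma det_un {g : GL n k} (h : Un k g) : g.val.det = 1 :=
  (h.map ((detMonoidHom (n := n) (R := k)).comp (Units.coeHom _))).field

omit [LF k] in
lemma isReg_gl {X : Type} [Reg k X] {f : X → GL n k} (hf : IsReg (fun x => (f x).val)) {e : X → k}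
    (he : IsReg e) (h : ∀ x, (f x).val.det * e x = 1) : IsReg f := by
  refine isReg_units hf (IsReg.congr (f := fun x => e x • (f x).val.adjugate) (by fun_prop)
    fun x => ?_)
  rw [Matrix.coe_units_inv, Matrix.inv_def, Ring.inverse_eq_inv', eq_inv_of_mul_eq_one_right (h x)]

lemma IsReg.uu {X : Type} [Reg k X] {y : n → ℤ} {f : X → GL n k} (hf : IsReg f) {e : X → k}
    (he : IsReg e) (h : ∀ x, ZipFG.Dl y (f x) * e x = 1) : IsReg (fun x => uu y (f x)) := by
  classical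
  refine isReg_gl (e := fun _ => 1) ?_ (by fun_prop) fun x => by simp [det_un (Uu_un (uu_mem _ _))]
  simp only [uu_val (left_ne_zero_of_mul_eq_one (h _))]
  refine isReg_matrix fun a b => IsReg.entry (f := fun x => (f x).val *
    (Ec y (y b) * (ZipFG.Mc y (y b) (f x).val)⁻¹)) ?_ a b
  have h1 := hf.units_val.Mc y (y b)
  have h2 : IsReg fun x => ((ZipFG.Mc y (y b) (f x).val).det)⁻¹ := by
    refine IsReg.congr (f := fun x => (∏ c ∈ (Finset.Icc (-(bd y : ℤ)) (bd y)).erase (y b),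
      (ZipFG.Mc y c (f x).val).det) * ((f x)⁻¹).val.det ^ (bd y + 1) * e x)
      (((IsReg.fprod fun c _ => (hf.units_val.Mc y c).det).mul (by fun_prop)).mul he) fun x => ?_
    refine eq_inv_of_mul_eq_one_right ?_
    rw [← h x, ZipFG.Dl, ← Finset.mul_prod_erase _ _ (Finset.mem_Icc.2 (abs_le_bd y b))]
    ring
  refine hf.units_val.matrix_mul ((isReg_const _).matrix_mul ?_)
  simp only [Matrix.inv_def, Ring.inverse_eq_inv']
  exact h2.matrix_smul h1.adjugate

lemma Dl_eq_one_of_Uu {y z : n → ℤ} [Infinite k] {u : GL n k} (hu : u ∈ Uu z) : Dl y u = 1 := by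
  have := IsReg.eq_of_units (F := fun t => Dl y (cc z t u)) (G := fun _ => Dl y u)
    (IsReg.Dl y (IsReg.cc isReg_id (isReg_const u) fun _ => Uu_le_Pn z hu)) (isReg_const _)
    (fun t => by rw [cc_unit t (Uu_le_Pn z hu), Dl_conj y (nu_mem_Dn z t)]) 0
  rw [← this]
  change Dl y (lev z u) = 1
  rw [lev_Uu hu, Dl_one]

lemma mem_Pn_of_stab {y : n → ℤ} (hy : Injective y) {h : GL n k}
    (hh : ∀ x ∈ Uu y, Dl y (h * x) ≠ 0) : h ∈ Pn y := by
  by_contra h0
  obtain ⟨a, b, hab, h1⟩ : ∃ a b, y a - y b < 0 ∧ (h⁻¹).val a b ≠ 0 := by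
    by_contra h1
    push Not at h1
    exact h0 (by simpa using inv_mem (mem_Pn.2 (mem_NN.2 h1)))
  obtain ⟨a0, h2, h3⟩ := Set.exists_min_image {a | (h⁻¹).val a b ≠ 0} y (toFinite _) ⟨a, h1⟩
  have h2' : (h⁻¹).val a0 b ≠ 0 := h2
  obtain ⟨x, hx, hxv⟩ := exists_Uu (y := y) (A := (1 : Matrix n n k).updateCol a0
    fun i => (h⁻¹).val i b * ((h⁻¹).val a0 b)⁻¹) (fun i j hij => by
      rw [Matrix.sub_apply, updateCol_apply]
      split_ifs with e
      · subst e
        by_cases h4 : (h⁻¹).val i b = 0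
        · rw [h4, one_apply_ne (by rintro rfl; exact h2' h4)]; simp
        · obtain rfl : i = j := hy (by have := h3 i h4; omega)
          rw [mul_inv_cancel₀ h2']; simp
      · simp)
  refine det_Mc_ne_zero (hh x hx) a0 (exists_mulVec_eq_zero_iff.1 ⟨Pi.single a0 1, by simp, ?_⟩)
  have e1 : (Ec y (y a0) : Matrix n n k) *ᵥ Pi.single a0 1 = Pi.single a0 1 := by
    simp [Ec, diagonal_mulVec_single]
  have e2 : x.val *ᵥ Pi.single a0 1 = ((h⁻¹).val a0 b)⁻¹ • (h⁻¹).val *ᵥ Pi.single b 1 := by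
    ext i; simp only [hxv, mulVec_single_one, Pi.smul_apply, col_apply, updateCol_self,
      smul_eq_mul, mul_comm]
  rw [Mc, add_mulVec, sub_mulVec, one_mulVec, e1, sub_self, add_zero, ← mulVec_mulVec, e1,
    ← mulVec_mulVec, Units.val_mul, ← mulVec_mulVec, e2, mulVec_smul, mulVec_mulVec,
    ← Units.val_mul, mul_inv_cancel, Units.val_one, one_mulVec, mulVec_smul, Ec,
    diagonal_mulVec_single, if_neg (by have := h3 a h1; omega)]
  simp

section irr
omit [LF k]

omit [Fintype n] [DecidableEq n] in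
lemma irr_pi [Infinite k] : Irr (univ : Set (n → k)) := by
  refine ⟨univ_nonempty, fun F G hF hG h => ?_⟩
  obtain ⟨P, hP⟩ := hF.exists_mvPoly
  obtain ⟨Q, hQ⟩ := hG.exists_mvPoly
  have : P * Q = 0 := MvPolynomial.funext fun x => by simpa [hP, hQ] using h x trivial
  rcases mul_eq_zero.1 this with h' | h'
  · exact Or.inl fun x _ => by simp [hP, h']
  · exact Or.inr fun x _ => by simp [hQ, h']

lemma Loc.irr {X : Type} [Reg k X] (hX : Irr (univ : Set X)) {δ : X → k} (hδ : IsReg δ) {x : X}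
    (hx : δ x ≠ 0) : Irr (univ : Set (Loc δ)) := by
  refine ⟨⟨Loc.mk' x hx, trivial⟩, fun F G hF hG h => ?_⟩
  obtain ⟨N, F', hF', e⟩ := hδ.exists_loc hF
  obtain ⟨N', G', hG', e'⟩ := hδ.exists_loc hG
  rcases hX.2 (fun x => δ x * F' x) G' (by fun_prop) hG' (fun z _ => by
    by_cases h0 : δ z = 0
    · simp [h0]
    · have h1 := e (Loc.mk' z h0)
      have h2 := e' (Loc.mk' z h0)
      have h3 := h (Loc.mk' z h0) trivial
      simp only [Loc.mk'] at h1 h2 h3
      rw [← h1, ← h2]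
      linear_combination δ z * δ z ^ N * δ z ^ N' * h3) with h' | h'
  · exact Or.inl fun z _ => by simpa [← e, z.ne] using h' z.1.1 trivial
  · exact Or.inr fun z _ => by simpa [← e', z.ne] using h' z.1.1 trivial

lemma irr_gl [Infinite k] : Irr (univ : Set (GL n k)) := by
  have h1 : Irr (univ : Set (Matrix n n k)) := by
    have := (irr_pi (k := k) (n := n × n)).range (f := fun x => Matrix.of fun a b => x (a, b))
      (isReg_matrix fun a b => isReg_apply _)
    rwa [Surjective.range_eq fun A => ⟨fun p => A p.1 p.2, rfl⟩] at this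
  have h2 := Loc.irr h1 (δ := fun A => A.det) (by fun_prop) (x := 1) (by simp)
  have h3 := h2.range (f := fun z => Matrix.GeneralLinearGroup.mkOfDetNeZero z.1.1 z.ne)
    (isReg_gl (e := fun z => z.1.2) (by
      change IsReg (fun z : Loc (fun A : Matrix n n k => A.det) => z.1.1); fun_prop)
      (by fun_prop) fun z => z.2)
  rwa [Surjective.range_eq fun g => ⟨Loc.mk' g.val (Matrix.GeneralLinearGroup.det_ne_zero g), Units.ext rfl⟩] at h3

end irr

end ZipFG
end

-- merged part: Pool.Agent.Work.MP_5c492e_ag.Bridge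
section
/-! Translation between the definitions of the statement and the working framework. -/

namespace ZipFG

open Function Set Matrix ZipDefs Polynomial

variable {k : Type} [Field k] {n : Type} [Fintype n] [DecidableEq n]

lemma isReg_det_inv : IsReg (fun g : GL n k => (g.val.det)⁻¹) := by
  refine IsReg.congr (f := fun g : GL n k => (g⁻¹).val.det) (by fun_prop) fun g => ?_
  exact eq_inv_of_mul_eq_one_right (by rw [← det_mul, ← Units.val_mul, mul_inv_cancel]; simp)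

lemma mem_coordRing {F : GL n k → k} : F ∈ coordRing k n ↔ IsReg F := by
  constructor
  · intro h
    refine isReg_iff_mem.2 (Algebra.adjoin_le ?_ h)
    rintro f (⟨i, j, rfl⟩ | rfl)
    · exact IsReg.mem (by fun_prop)
    · exact isReg_det_inv.mem
  · intro h
    have h0 := h.mem
    let R : Reg k (GL n k) := ⟨coordRing k n⟩
    have h1 : @IsReg k _ (GL n k) (Matrix n n k) R _ (fun g => g.val) :=
      @isReg_matrix k _ (GL n k) R n n _ fun i j => (@isReg_iff_mem k _ (GL n k) R _).2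
        (Algebra.subset_adjoin (Or.inl ⟨i, j, rfl⟩))
    have h2 : @IsReg k _ (GL n k) k R _ (fun g => (g.val.det)⁻¹) :=
      (@isReg_iff_mem k _ (GL n k) R _).2 (Algebra.subset_adjoin (Or.inr rfl))
    exact @isReg_gl k _ n _ _ (GL n k) R (fun g => g) h1 _ h2
      (fun g => mul_inv_cancel₀ (GeneralLinearGroup.det_ne_zero g)) F h0

lemma mem_regFun {H : Subgroup (GL n k)} {f : H → k} : f ∈ regFun H ↔ IsReg f := by
  constructor
  · rintro ⟨F, hF, rfl⟩
    exact (mem_coordRing.1 hF).comp isReg_val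
  · intro h
    obtain ⟨F, hF, e⟩ := h.exists_ext
    exact ⟨F, mem_coordRing.2 hF, funext e⟩

lemma isZClosed_iff {S : Set (GL n k)} : IsZClosed S ↔ ZClosed S := by
  simp only [IsZClosed, mem_coordRing]
  rfl

lemma isUnip_iff [LF k] {g : GL n k} : IsUnip g ↔ Un k g := un_iff_nilpotent.symm

lemma isConnGroup_iff {H : Subgroup (GL n k)} :
    IsConnGroup H ↔ ZClosed (H : Set (GL n k)) ∧ Irr (H : Set (GL n k)) := by
  rw [IsConnGroup, isZClosed_iff]
  refine and_congr_right fun hc => ⟨fun h => irr_of_le_idc ?_, fun h C D hC hD h1 _ =>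
    h.subset_or (isZClosed_iff.1 hC) (isZClosed_iff.1 hD) h1⟩
  obtain ⟨s, hs, hsH, h1⟩ := idc_finite hc
  rcases h (idc H) (⋃ x ∈ {x ∈ s | x ∉ idc H}, {g | x⁻¹ * g ∈ idc H})
    (isZClosed_iff.2 (zclosed_idc hc))
    (isZClosed_iff.2 (zclosed_biUnion (hs.subset fun x hx => hx.1) fun x _ =>
      (zclosed_idc hc).preimage (f := fun g => x⁻¹ * g) (by fun_prop)))
    (fun g hg => by
      obtain ⟨x, hx, h2⟩ := h1 g hg
      by_cases h3 : x ∈ idc H
      · exact Or.inl (by simpa using mul_mem h3 h2)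
      · exact Or.inr (mem_biUnion (x := x) ⟨hx, h3⟩ h2))
    (eq_empty_of_forall_notMem fun g hg => by
      obtain ⟨x, hx, h2⟩ := mem_iUnion₂.1 hg.2
      exact hx.2 (by simpa using mul_mem hg.1.2 (inv_mem h2))) with h2 | h2
  · exact h2
  · obtain ⟨x, hx, h3⟩ := mem_iUnion₂.1 (h2 (one_mem H))
    exact absurd (by simpa using (idc H).inv_mem h3) hx.2

lemma isReg_cochar {G : Subgroup (GL n k)} {μ : kˣ →* GL n k} (h : IsCochar G μ) : IsReg μ := by
  have h1 : IsReg (fun t : kˣ => (μ t).val) := isReg_matrix fun i j => by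
    obtain ⟨N, q, e⟩ := h.2 i j
    refine IsReg.congr (f := fun t : kˣ => q.eval (t : k) * ((t⁻¹ : kˣ) : k) ^ N)
      (((isReg_poly q).comp (by fun_prop)).mul (by fun_prop)) fun t => ?_
    rw [← e, mul_assoc, ← mul_pow, Units.mul_inv, one_pow, mul_one]
  exact isReg_units h1 (by
    simpa only [← map_inv] using h1.comp (g := fun t : kˣ => t⁻¹) (by fun_prop))

section lim

variable {μ : kˣ → GL n k} {g g' l l' : GL n k}

lemma lim_mul (h : Lim μ g l) (h' : Lim μ g' l') : Lim μ (g * g') (l * l') := by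
  obtain ⟨A, hA, rfl⟩ := h
  obtain ⟨B, hB, rfl⟩ := h'
  exact ⟨A * B, fun t => by simp [hA, hB, mul_assoc], map_mul _ _ _⟩

lemma lim_inv (h : Lim μ g l) : Lim μ g⁻¹ l⁻¹ := by
  obtain ⟨A, hA, rfl⟩ := h
  exact ⟨A⁻¹, fun t => by simp [hA, mul_assoc], map_inv _ _⟩

lemma map_eval_C (t : k) (g : GL n k) :
    GeneralLinearGroup.map (evalRingHom t) (GeneralLinearGroup.map (C : k →+* k[X]) g) = g := by
  ext i j
  simp

lemma lim_of_comm (h : ∀ t, μ t * g = g * μ t) : Lim μ g g :=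
  ⟨GeneralLinearGroup.map C g, fun t => by rw [map_eval_C, h, mul_inv_cancel_right],
    map_eval_C 0 g⟩

lemma lim_one : Lim μ 1 1 := lim_of_comm fun t => by simp

lemma lim_conj (x : GL n k) (h : Lim μ g l) :
    Lim (fun t => x * μ t * x⁻¹) (x * g * x⁻¹) (x * l * x⁻¹) := by
  obtain ⟨A, hA, rfl⟩ := h
  refine ⟨GeneralLinearGroup.map C x * A * (GeneralLinearGroup.map C x)⁻¹, fun t => ?_, ?_⟩
  · simp only [map_mul, map_inv, map_eval_C, hA]; group
  · simp only [map_mul, map_inv, map_eval_C]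

lemma lim_conj_iff (x : GL n k) :
    Lim (fun t => x * μ t * x⁻¹) (x * g * x⁻¹) (x * l * x⁻¹) ↔ Lim μ g l := by
  refine ⟨fun h => ?_, lim_conj x⟩
  have := lim_conj x⁻¹ h
  simpa [mul_assoc] using this

lemma isReg_map_eval (A : GL n k[X]) :
    IsReg (fun t : k => GeneralLinearGroup.map (evalRingHom t) A) :=
  isReg_units (isReg_matrix fun i j => isReg_poly (A.val i j))
    (isReg_matrix fun i j => by
      simp only [← map_inv]
      exact isReg_poly ((A⁻¹).val i j))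

end lim

lemma lim_nu_iff [LF k] [Infinite k] {y : n → ℤ} {g l : GL n k} :
    Lim (nu y) g l ↔ g ∈ Pn y ∧ l = lev y g := by
  constructor
  · rintro ⟨A, hA, rfl⟩
    have hg : g ∈ Pn y := fun a b hab => by
      have := IsReg.eq_of_units (F := fun s => (A.val a b).eval s * s ^ (y b - y a).toNat)
        (G := fun _ => g.val a b) ((isReg_poly _).mul (by fun_prop)) (isReg_const _) (fun s => by
          have h1 : (A.val a b).eval (s : k) = (s : k) ^ (y a - y b) * g.val a b := by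
            rw [← nu_conj_apply, ← hA]; rfl
          rw [h1, ← zpow_natCast, Int.toNat_of_nonneg (by omega), mul_right_comm,
            ← zpow_add₀ s.ne_zero]
          simp) 0
      rw [← this, zero_pow (by omega), mul_zero]
    refine ⟨hg, ?_⟩
    exact (zclosed_eq (isReg_map_eval A) (IsReg.cc isReg_id (isReg_const g) fun _ => hg)).curve
      isReg_id (fun t => by simp only [mem_setOf_eq]; rw [hA, cc_unit t hg]) 0
  · rintro ⟨hg, rfl⟩
    have key : ∀ {x : GL n k}, x ∈ Pn y → ∀ t : k, (Matrix.of fun a b =>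
        monomial (y a - y b).toNat (x.val a b)).map (evalRingHom t) = (cc y t x).val := by
      intro x hx t
      ext a b
      simp [cc_apply t hx, mul_comm]
    have hmul : ∀ {x : GL n k}, x ∈ Pn y → (Matrix.of fun a b =>
        monomial (y a - y b).toNat (x.val a b)) * (Matrix.of fun a b =>
        monomial (y a - y b).toNat ((x⁻¹).val a b)) = 1 := by
      intro x hx
      refine Matrix.ext fun a b => Polynomial.funext fun t => ?_
      have := congrFun (congrFun (Matrix.map_mul (L := Matrix.of fun a b =>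
        monomial (y a - y b).toNat (x.val a b)) (M := Matrix.of fun a b =>
        monomial (y a - y b).toNat ((x⁻¹).val a b)) (f := evalRingHom t)) a) b
      rw [key hx, key (inv_mem hx), ← Units.val_mul, ← cc_mul t hx (inv_mem hx), mul_inv_cancel,
        cc_one] at this
      rw [map_apply, coe_evalRingHom] at this
      rw [this, Units.val_one, one_apply, one_apply]
      split_ifs <;> simp
    refine ⟨⟨_, _, hmul hg, by simpa using hmul (inv_mem hg)⟩, fun t => ?_, ?_⟩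
    · rw [← cc_unit t hg]; exact Units.ext (key hg t)
    · exact Units.ext (key hg 0)

end ZipFG
end

-- merged part: Pool.Agent.Work.MP_5c492e_ag.LatDefs
section
/-! Definitions: cocharacter lattice, generic cocharacters, normaliser action, walls, charts,
good pairs. -/

namespace ZipFG

open Function Set Matrix

variable {k : Type} [Field k] {n : Type} [Fintype n] [DecidableEq n]

/-- The cocharacter lattice of a diagonal group. -/
def Yl (T : Subgroup (GL n k)) : AddSubgroup (n → ℤ) where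
  carrier := {y | ∀ t, nu y t ∈ T}
  add_mem' ha hb t := by rw [nu_add]; exact mul_mem (ha t) (hb t)
  zero_mem' t := by
    rw [show nu (0 : n → ℤ) t = 1 from Units.ext (by simp [nu_val])]; exact one_mem _
  neg_mem' ha t := by rw [nu_neg]; exact inv_mem (ha t)

lemma mem_Yl {T : Subgroup (GL n k)} {y : n → ℤ} : y ∈ Yl T ↔ ∀ t, nu y t ∈ T := Iff.rfl

/-- Generic cocharacters. -/
def Gen (T : Subgroup (GL n k)) (y : n → ℤ) : Prop :=
  y ∈ Yl T ∧ ∀ i j, y i = y j → ∀ z ∈ Yl T, z i = z j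

lemma Gen.neg {T : Subgroup (GL n k)} {y : n → ℤ} (h : Gen T y) : Gen T (-y) :=
  ⟨neg_mem h.1, fun i j e => h.2 i j (by simpa using e)⟩

lemma exists_pm (g : GL n k) : ∃ σ : Equiv.Perm n, ∀ i, g.val i (σ i) ≠ 0 := by
  by_contra h
  push Not at h
  refine Matrix.GeneralLinearGroup.det_ne_zero g ?_
  rw [← det_transpose, det_apply]
  refine Finset.sum_eq_zero fun σ _ => ?_
  obtain ⟨i, hi⟩ := h σ
  rw [Finset.prod_eq_zero (Finset.mem_univ i) (by simpa using hi), smul_zero]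

/-- A permutation in the support of an invertible matrix. -/
noncomputable def pm (g : GL n k) : Equiv.Perm n := (exists_pm g).choose

lemma pm_ne (g : GL n k) (i : n) : g.val i (pm g i) ≠ 0 := (exists_pm g).choose_spec i

/-- The action on weight vectors. -/
noncomputable def act (g : GL n k) (y : n → ℤ) : n → ℤ := fun i => y (pm g i)

/-- `y0` is a general point of the wall `z a = z b` of the chamber of `y1`. -/
structure Wall (T : Subgroup (GL n k)) (y1 y0 : n → ℤ) (a b : n) : Prop where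
  gen : Gen T y1
  mem : y0 ∈ Yl T
  pos : y1 b < y1 a
  zero : y0 a = y0 b
  clos : ∀ i j, y0 j < y0 i → y1 j < y1 i
  rank : ∀ i j, y0 i = y0 j → ∀ z ∈ Yl T, z a = z b → z i = z j

/-- An equivariant isomorphism of `U` with an affine space. -/
structure Chart (T U : Subgroup (GL n k)) (ι : Type) where
  x : GL n k → ι → k
  pt : (ι → k) → GL n k
  wt : ι → n → ℤ
  x_reg : IsReg x
  pt_reg : IsReg pt
  pt_mem : ∀ c, pt c ∈ U
  x_pt : ∀ c, x (pt c) = c
  pt_x : ∀ u ∈ U, pt (x u) = u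
  x_one : x 1 = 0
  norm : ∀ t ∈ T, ∀ u ∈ U, t * u * t⁻¹ ∈ U
  conj : ∀ t ∈ T, ∀ u ∈ U, ∀ i, x (t * u * t⁻¹) i = eps (wt i) t * x u i

variable [LF k]

/-- Diagonal tori. -/
structure Tor (T : Subgroup (GL n k)) : Prop where
  le : T ≤ Dn
  cl : ZClosed (T : Set (GL n k))
  irr : Irr (T : Set (GL n k))

/-- The normaliser. -/
def Nm (T : Subgroup (GL n k)) : Subgroup (GL n k) := subOf
  { carrier := {g | ∀ t ∈ T, g * t * g⁻¹ ∈ T}
    mul_mem' := fun {a b} ha hb g hg => by simpa [mul_assoc] using ha _ (hb g hg)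
    one_mem' := by simp }

lemma mem_Nm {T : Subgroup (GL n k)} {g : GL n k} : g ∈ Nm T ↔ ∀ t ∈ T, g * t * g⁻¹ ∈ T := Iff.rfl

/-- A connected group with a self-centralising diagonal torus and Bruhat decompositions. -/
structure Good (G T : Subgroup (GL n k)) : Prop where
  cl : ZClosed (G : Set (GL n k))
  irr : Irr (G : Set (GL n k))
  tor : Tor T
  le : T ≤ G
  cent : ∀ g ∈ G, (∀ t ∈ T, t * g = g * t) → g ∈ T
  bruhat : ∀ y y', Gen T y → Gen T y' → ∀ g ∈ G,
    ∃ u ∈ G ⊓ Uu y, ∃ w ∈ G ⊓ Nm T, ∃ u' ∈ G ⊓ Uu y', g = u * w * u'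

/-- Two cocharacters in the same Weyl chamber. -/
def Same (G : Subgroup (GL n k)) (y y' : n → ℤ) : Prop :=
  G ⊓ Uu y = G ⊓ Uu y' ∧ G ⊓ Uu (-y) = G ⊓ Uu (-y')

/-- A simple wall of the Weyl chamber of `y`. -/
def Simple (G T : Subgroup (GL n k)) (y y0 : n → ℤ) (a b : n) : Prop :=
  (∃ y1, Same G y y1 ∧ Wall T y1 y0 a b) ∧ G ⊓ Uu y ⊓ Zn y0 ≠ ⊥

/-- Rank one data at a simple wall. -/
structure Rk1 (G T : Subgroup (GL n k)) (y y0 : n → ℤ) (a b : n) where
  w : GL n k
  α : n → ℤ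
  x : k → GL n k
  co : GL n k → k
  w_mem : w ∈ G ⊓ Nm T ⊓ Zn y0
  w_refl : ∀ z ∈ Yl T, act w z a - act w z b = -(z a - z b)
  w_uniq : ∀ w' ∈ G ⊓ Nm T ⊓ Zn y0, w' ∈ T ∨ w⁻¹ * w' ∈ T
  x_reg : IsReg x
  co_reg : IsReg co
  x_mem : ∀ c, x c ∈ G ⊓ Uu y ⊓ Zn y0
  co_x : ∀ c, co (x c) = c
  x_co : ∀ u ∈ G ⊓ Uu y ⊓ Zn y0, x (co u) = u
  x_zero : x 0 = 1
  conj : ∀ t ∈ T, ∀ c, t * x c * t⁻¹ = x (eps α t * c)
  prop : ∃ r s : ℤ, 0 < r ∧ 0 < s ∧ ∀ z ∈ Yl T, r * (α ⬝ᵥ z) = s * (z a - z b)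
  pos : 0 < α ⬝ᵥ y
  eps_w : ∀ t ∈ T, eps α (w * t * w⁻¹) = (eps α t)⁻¹
  w_x : ∀ c, w * x c * w⁻¹ ∈ Uu (-y)
  w_x' : ∀ u ∈ G ⊓ Uu (-y) ⊓ Zn y0, w⁻¹ * u * w ∈ Uu y
  rel : ∃ a0 : k, ∃ t1 ∈ T, ∀ t ∈ T, ∃ v ∈ G ⊓ Uu (-y),
    w * x (eps α t) = x (a0 * (eps α t)⁻¹) * (w * t * w⁻¹ * t1 * t⁻¹) * v
  le_Uu : G ⊓ Uu y0 ≤ Uu y
  le_Pn : G ⊓ Uu y ≤ Pn y0
  le_Uu' : G ⊓ Uu (-y0) ≤ Uu (-y)
  le_Pn' : G ⊓ Uu (-y) ≤ Pn (-y0)

/-- Functions on `G` invariant under a set of pairs acting by `g ↦ a * g * b⁻¹`. -/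
def relInv (G : Subgroup (GL n k)) (H : Set (GL n k × GL n k)) : Subalgebra k (Oo G) where
  carrier := {F | ∀ p ∈ H, ∀ x x' : G, (x' : GL n k) = p.1 * x * p.2⁻¹ → F.1 x' = F.1 x}
  mul_mem' ha hb p hp x x' e := congrArg₂ (· * ·) (ha p hp x x' e) (hb p hp x x' e)
  add_mem' ha hb p hp x x' e := congrArg₂ (· + ·) (ha p hp x x' e) (hb p hp x x' e)
  algebraMap_mem' _ _ _ _ _ _ := rfl

end ZipFG
end

-- merged part: Pool.Agent.Work.MP_5c492e_ag.Final
section
/-! The ring of automorphic forms as an algebra of invariant functions on the group. -/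

namespace ZipFG

open Function Set Matrix ZipDefs DirectSum

variable {k : Type} [Field k] [IsAlgClosed k] [LF k] {p : ℕ} [Fact p.Prime] [CharP k p]
  {n : Type} [Fintype n] [DecidableEq n]

lemma frob_apply (g : GL n k) (i j : n) : (frob p g).val i j = g.val i j ^ p := rfl

lemma frob_injective : Injective (frob p : GL n k → GL n k) := fun a b h =>
  Units.ext (Matrix.ext fun i j => frobenius_inj k p (by
    rw [frobenius_def, frobenius_def, ← frob_apply, ← frob_apply, h]))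

lemma isReg_frob : IsReg (frob p : GL n k → GL n k) :=
  isReg_units (isReg_matrix fun i j => by simp only [frob_apply]; fun_prop)
    (isReg_matrix fun i j => by simp only [← map_inv, frob_apply]; fun_prop)

lemma lim_unique {μ : kˣ → GL n k} {g l l' : GL n k}
    (h : Lim μ g l) (h' : Lim μ g l') : l = l' := by
  obtain ⟨A, hA, rfl⟩ := h
  obtain ⟨B, hB, rfl⟩ := h'
  exact (zclosed_eq (isReg_map_eval A) (isReg_map_eval B)).curve
    isReg_id (fun t => by simp only [mem_setOf_eq]; rw [hA, hB]) 0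

variable {G B T : Subgroup (GL n k)} {μ : kˣ → GL n k}

lemma mem_zip {x y' l : GL n k} (hx : x ∈ Pminus G μ) (hy : y' ∈ G) (hl : l ∈ G)
    (h1 : Lim (fun t => (μ t)⁻¹) x l) (h2 : Lim μ y' l) : (x, frob p y') ∈ zipGroup p G μ :=
  ⟨hx, y', ⟨hy, l, hl, h2⟩, rfl, l, l, h1, h2, rfl⟩

lemma sec_ind {χ : T →* kˣ} {f : G → Pminus G μ → k} (hf : f ∈ sec p G μ B T χ) (g : G) :
    f g ∈ ind (Pminus G μ) B T χ := by
  have h := hf.1
  clear hf
  induction h using Submodule.span_induction with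
  | mem f h => obtain ⟨a, -, h, hh, rfl⟩ := h; exact Submodule.smul_mem _ _ hh
  | zero => exact zero_mem _
  | add f f' _ _ h h' => exact add_mem h h'
  | smul c f _ h => exact Submodule.smul_mem _ c h

lemma sec_reg {χ : T →* kˣ} {f : G → Pminus G μ → k} (hf : f ∈ sec p G μ B T χ)
    (z : Pminus G μ) : IsReg (fun g => f g z) := by
  have h := hf.1
  clear hf
  induction h using Submodule.span_induction with
  | mem f h => obtain ⟨a, ha, h, -, rfl⟩ := h; exact (mem_regFun.1 ha).mul (isReg_const _)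
  | zero => exact isReg_const (0 : k)
  | add f f' _ _ h h' => exact h.add h'
  | smul c f _ h => exact (isReg_const c).mul h

lemma mem_span_of_regV {k X W : Type} [Field k] [Reg k X] [AddCommGroup W] [Module k W]
    {V : Submodule k W} {φ : X → V} (h : RegV φ) :
    (fun x => (φ x : W)) ∈ Submodule.span k
      {f : X → W | ∃ a : X → k, IsReg a ∧ ∃ w ∈ V, f = fun x => a x • w} := by
  induction h with
  | smul_const ha w => exact Submodule.subset_span ⟨_, ha, w, w.2, rfl⟩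
  | add _ _ h h' => exact add_mem h h'

lemma indep_secFam (hTP : T ≤ Pminus G μ) : iSupIndep (secFam p G μ B T) := by
  let c : T → (G → Pminus G μ → k) →ₗ[k] (G → Pminus G μ → k) := fun t =>
    { toFun := fun f g z => f g (z * ⟨t, hTP t.2⟩)
      map_add' := fun _ _ => rfl
      map_smul' := fun _ _ => rfl }
  let w : Additive (charGroup T) → T → k := fun l t =>
    (((Additive.toMul (α := charGroup T) l).1 t)⁻¹ : kˣ)
  have hw : Injective w := fun a b h => Additive.toMul.injective (Subtype.ext (MonoidHom.ext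
    fun t => inv_injective (Units.ext (congrFun h t))))
  have h1 : ∀ l, secFam p G μ B T l ≤ Wt c (w l) := fun l f hf t => funext fun g => funext fun z =>
    (sec_ind hf g).2 z _ t 1 (one_mem _) (by simp [IsUnip]) (by simp)
  intro l
  rw [Submodule.disjoint_def]
  intro x hx hx'
  refine wt_comp (c := c) (V := ⊥) (fun t v hv => by simp [(Submodule.mem_bot _).1 hv])
    (S := w '' {j | j ≠ l}) (fun ⟨j, hj, e⟩ => hj (hw e)) (h1 l hx) (z := -x) (neg_mem ?_) (by simp)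
  have h2 : ⨆ j, ⨆ (_ : j ≠ l), secFam p G μ B T j ≤ ⨆ χ ∈ w '' {j | j ≠ l}, Wt c χ :=
    iSup₂_le fun j hj => (h1 j).trans (le_biSup (fun χ => Wt c χ) ⟨j, hj, rfl⟩)
  exact h2 hx'

/-- The Levi projection of `P`, with the properties that are used. -/
structure LD (p : ℕ) [Fact p.Prime] [CharP k p] (G : Subgroup (GL n k)) (μ : kˣ → GL n k) where
  θ : Pminus G μ →* GL n k
  reg : IsReg θ
  mem : ∀ x, θ x ∈ G
  h1 : ∀ x : Pminus G μ, Lim (fun t => (μ t)⁻¹) x (θ x)
  h2 : ∀ x, Lim μ (θ x) (θ x)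
  fr : ∀ g ∈ G, frob p g ∈ G

/-- The unipotent part of the zip group. -/
def HU (p : ℕ) [Fact p.Prime] [CharP k p] (G : Subgroup (GL n k)) (μ : kˣ → GL n k)
    (B : Subgroup (GL n k)) : Set (GL n k × GL n k) :=
  {e | e ∈ zipGroup p G μ ∧ e.1 ∈ B ∧ IsUnip e.1}

namespace LD

variable (D : LD p G μ)

lemma zip (x : Pminus G μ) : ((x : GL n k), frob p (D.θ x)) ∈ zipGroup p G μ :=
  mem_zip x.2 (D.mem x) (D.mem x) (D.h1 x) (D.h2 x)

lemma θ_eq (x : Pminus G μ) (h : (x : GL n k) ∈ Levi G μ) : D.θ x = x :=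
  lim_unique (D.h1 _) (lim_of_comm fun s => by
    have := h.2 (μ s) ⟨s, rfl⟩
    rw [inv_mul_eq_iff_eq_mul, ← mul_assoc, this, mul_inv_cancel_right])

/-- The right action of `P` on `G`. -/
noncomputable def m (g : G) (z : Pminus G μ) : G :=
  ⟨(z : GL n k)⁻¹ * g * frob p (D.θ z),
    mul_mem (mul_mem (inv_mem z.2.1) g.2) (D.fr _ (D.mem _))⟩

lemma m_val (g : G) (z : Pminus G μ) :
    (D.m g z : GL n k) = (z : GL n k)⁻¹ * g * frob p (D.θ z) := rfl

lemma m_one (g : G) : D.m g 1 = g := Subtype.ext (by simp [m_val])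

lemma m_mul (g : G) (z z' : Pminus G μ) : D.m g (z * z') = D.m (D.m g z) z' :=
  Subtype.ext (by simp [m_val, mul_assoc])

lemma isReg_m {X : Type} [Reg k X] {g : X → G} {z : X → Pminus G μ} (hg : IsReg g)
    (hz : IsReg z) : IsReg (fun x => D.m (g x) (z x)) :=
  isReg_of_val (IsReg.mul (f := fun x => (z x : GL n k)⁻¹ * g x) (by fun_prop)
    (isReg_frob.comp (D.reg.comp hz)))

/-- From functions on `G` to sections. -/
noncomputable def Φ : Oo G →ₐ[k] (G → Pminus G μ → k) where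
  toFun a g z := a.1 (D.m g z)
  map_one' := rfl
  map_mul' _ _ := rfl
  map_zero' := rfl
  map_add' _ _ := rfl
  commutes' _ := rfl

lemma Φ_apply (a : Oo G) (g : G) (z : Pminus G μ) : D.Φ a g z = a.1 (D.m g z) := rfl

/-- The action of `P` on functions. -/
noncomputable def c : Pminus G μ →* Module.End k (Oo G) where
  toFun z := (pull (fun g => D.m g z) (D.isReg_m isReg_id (isReg_const z))).toLinearMap
  map_one' := LinearMap.ext fun F => O_ext fun g => congrArg F.1 (D.m_one g)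
  map_mul' s t := LinearMap.ext fun F => O_ext fun g => congrArg F.1 (D.m_mul g s t)

lemma c_apply (z : Pminus G μ) (F : Oo G) (g : G) : (D.c z F).1 g = F.1 (D.m g z) := rfl

lemma sec_le (hBP : B ≤ Pminus G μ) {χ : T →* kˣ} {f : G → Pminus G μ → k}
    (hf : f ∈ sec p G μ B T χ) : f ∈ (relInv G (HU p G μ B)).map D.Φ := by
  refine ⟨(sec_reg hf 1).toO, ?_, ?_⟩
  · rintro e ⟨he, hb, hu⟩ x x' hx
    rw [IsReg.toO_apply, IsReg.toO_apply, hf.2 ⟨e.1, hBP hb⟩ e.2 he x x' hx]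
    simpa using (sec_ind hf x).2 1 (⟨e.1, hBP hb⟩⁻¹ * 1) 1 e.1⁻¹ (inv_mem hb)
      (isUnip_iff.2 (isUnip_iff.1 hu).inv) (by simp)
  · ext g z
    change f (D.m g z) 1 = f g z
    rw [hf.2 z⁻¹ _ (D.zip z⁻¹) g (D.m g z) (by simp [m_val])]
    simp

lemma c_mem {t : Pminus G μ} (htB : (t : GL n k) ∈ B) (htL : (t : GL n k) ∈ Levi G μ)
    {v : Oo G} (hv : v ∈ relInv G (HU p G μ B)) : D.c t v ∈ relInv G (HU p G μ B) := by
  rintro e ⟨⟨he, y', ⟨hy', -⟩, he2, l, l', hl, hl', hll⟩, hb, hu⟩ x x' hx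
  obtain rfl := frob_injective hll
  have ht := D.h1 t
  have ht' := D.h2 t
  rw [D.θ_eq t htL] at ht ht'
  have hlG : l ∈ G := by rw [lim_unique hl (D.h1 ⟨e.1, he⟩)]; exact D.mem _
  rw [c_apply, c_apply]
  refine hv (((t : GL n k)⁻¹ * e.1 * t), frob p ((t : GL n k)⁻¹ * y' * t))
    ⟨mem_zip (l := (t : GL n k)⁻¹ * l * t)
      (mul_mem (mul_mem (inv_mem t.2) he) t.2)
      (mul_mem (mul_mem (inv_mem htL.1) hy') htL.1)
      (mul_mem (mul_mem (inv_mem htL.1) hlG) htL.1)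
      (lim_mul (lim_mul (lim_inv ht) hl) ht) (lim_mul (lim_mul (lim_inv ht') hl') ht'),
    mul_mem (mul_mem (inv_mem htB) hb) htB, isUnip_iff.2 (by
      simpa using (isUnip_iff.1 hu).conj (t : GL n k)⁻¹)⟩ _ _ ?_
  simp only [m_val, D.θ_eq t htL, hx, he2, map_mul, map_inv]
  group

lemma Φ_mem (hTB : T ≤ B) (hBP : B ≤ Pminus G μ) {χ : T →* kˣ} {b : Oo G}
    (hb1 : ∀ t : T, D.c ⟨t, hBP (hTB t.2)⟩ b = (((χ t)⁻¹ : kˣ) : k) • b)
    (hb2 : b ∈ relInv G (HU p G μ B)) : D.Φ b ∈ sec p G μ B T χ := by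
  constructor
  · have hind : ∀ g, D.Φ b g ∈ ind (Pminus G μ) B T χ := fun g => by
      refine ⟨mem_regFun.2 ((isReg_coe b).comp (D.isReg_m (isReg_const g) isReg_id)),
        fun x x' t u hu hu' e => ?_⟩
      have e1 := congrFun (congrArg Subtype.val (hb1 t)) (D.m g x)
      rw [c_apply] at e1
      have e2 : x' = x * (⟨t, hBP (hTB t.2)⟩ * ⟨u, hBP hu⟩) := Subtype.ext e
      rw [Φ_apply, Φ_apply, e2, m_mul, m_mul, hb2 (_, _) ⟨D.zip ⟨u, hBP hu⟩⁻¹, inv_mem hu,
        isUnip_iff.2 (isUnip_iff.1 hu').inv⟩ (D.m (D.m g x) ⟨t, hBP (hTB t.2)⟩) _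
        (by rw [m_val]; simp), e1]
      rfl
    have hr : RegV (fun g => D.Φ b g) :=
      IsReg.curry ((isReg_coe b).comp (D.isReg_m isReg_fst isReg_snd))
    change _ ∈ regMaps k _ _
    simp only [regMaps, mem_regFun]
    exact mem_span_of_regV (hr.codRestrict _ hind)
  · rintro x y ⟨hx, y', ⟨hy', -⟩, hy, l, l', hl, hl', hll⟩ g g' e z
    obtain rfl := frob_injective hll
    obtain rfl := lim_unique hl (D.h1 x)
    refine hb2 (1, frob p ((D.θ z)⁻¹ * y' * (D.θ x)⁻¹ * D.θ z)) ⟨mem_zip (one_mem _)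
      (mul_mem (mul_mem (mul_mem (inv_mem (D.mem _)) hy') (inv_mem (D.mem _))) (D.mem _))
      (one_mem _) lim_one ?_, one_mem _, by simp [IsUnip]⟩ (D.m g (x⁻¹ * z)) (D.m g' z) ?_
    · simpa using lim_mul (lim_mul (lim_mul (lim_inv (D.h2 z)) hl') (lim_inv (D.h2 x))) (D.h2 z)
    · simp only at hy
      simp only [m_val, e, hy, map_mul, map_inv]
      simp [mul_assoc]

lemma range_eq (hTB : T ≤ B) (hBP : B ≤ Pminus G μ) (hTL : T ≤ Levi G μ)
    (hT : ∀ F : T → k, IsReg F → F ∈ Submodule.span k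
      ((fun χ : T →* k => (χ : T → k)) '' {χ | IsReg χ})) :
    ⨆ l, secFam p G μ B T l = Subalgebra.toSubmodule ((relInv G (HU p G μ B)).map D.Φ) := by
  refine le_antisymm (iSup_le fun l f hf => D.sec_le hBP hf) ?_
  rintro _ ⟨a, ha, rfl⟩
  have hi : IsReg (Subgroup.inclusion (hTB.trans hBP)) := isReg_of_val isReg_val
  have h3 := le_iSup_wt_inf (V := Subalgebra.toSubmodule (relInv G (HU p G μ B)))
    (c := fun t : T => D.c.comp (Subgroup.inclusion (hTB.trans hBP)) t)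
    (fun t v hv => D.c_mem (hTB t.2) (hTL t.2) hv) ha
    (mem_iSup_wt (c := D.c.comp (Subgroup.inclusion (hTB.trans hBP))) hT
      (IsReg.curryO (F := fun q : T × G => a.1 (D.m q.2 (Subgroup.inclusion (hTB.trans hBP) q.1)))
        ((isReg_coe a).comp (D.isReg_m isReg_snd (hi.comp isReg_fst))) fun _ _ => rfl))
  refine iSup₂_le (a := Submodule.comap D.Φ.toLinearMap (⨆ l, secFam p G μ B T l)) ?_ h3
  rintro _ ⟨ψ, hψ, rfl⟩ b ⟨hb1, hb2⟩
  let χ : charGroup T := ⟨(ψ.toHomUnits)⁻¹, mem_regFun.2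
    ((IsReg.comp hψ (g := fun t : T => t⁻¹) (by fun_prop)).congr fun t => by
      simp [← map_inv]), mem_regFun.2 (IsReg.congr hψ fun t => by simp)⟩
  exact Submodule.mem_iSup_of_mem (Additive.ofMul χ : Additive (charGroup T))
    (D.Φ_mem (χ := χ.1) hTB hBP (fun t => (hb1 t).trans (by simp [χ])) hb2)

include D in
theorem finiteType (hTB : T ≤ B) (hBP : B ≤ Pminus G μ) (hTL : T ≤ Levi G μ)
    (hT : ∀ F : T → k, IsReg F → F ∈ Submodule.span k
      ((fun χ : T →* k => (χ : T → k)) '' {χ | IsReg χ}))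
    (hfg : (relInv G (HU p G μ B)).FG) : RzipFG p G μ B T := by
  have key : (coeAlgHom (secFam p G μ B T)).range = (relInv G (HU p G μ B)).map D.Φ := by
    apply Subalgebra.toSubmodule_injective
    rw [← Submodule.iSup_eq_toSubmodule_range, D.range_eq hTB hBP hTL hT]
  have hinj : Injective (coeAlgHom (secFam p G μ B T)) :=
    (indep_secFam (hTB.trans hBP)).dfinsupp_lsum_injective
  have : Algebra.FiniteType k (coeAlgHom (secFam p G μ B T)).range := by
    rw [key]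
    exact (Subalgebra.fg_iff_finiteType _).1 (hfg.map D.Φ)
  exact this.equiv (AlgEquiv.ofInjective _ hinj).symm

end LD

end ZipFG
end

-- merged part: Pool.Agent.Work.MP_5c492e_ag.Smooth
section
/-! Smoothness of a connected algebraic group at the identity. -/

namespace ZipFG

open Function Set MvPolynomial

namespace SmoothAux

variable {k : Type} [Field k] {ι : Type}

/-- A substitution tangent to the identity raises the order of `D q - q`. -/
lemma sub_mem_pow (D : MvPolynomial ι k →ₐ[k] MvPolynomial ι k)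
    (hD : ∀ i, D (X i) - X i ∈ idealOfVars ι k ^ 2) (d : ℕ) :
    ∀ q ∈ idealOfVars ι k ^ d, D q - q ∈ idealOfVars ι k ^ (d + 1) := by
  set I := idealOfVars ι k with hI
  have h21 : I ^ 2 ≤ I := Ideal.pow_le_self (by norm_num)
  have h0 : ∀ q, D q - q ∈ I := by
    intro q
    induction q using MvPolynomial.induction_on with
    | C a => rw [← algebraMap_eq, AlgHom.commutes, sub_self]; exact zero_mem _
    | add p q hp hq =>
      have : D (p + q) - (p + q) = (D p - p) + (D q - q) := by rw [map_add]; ring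
      rw [this]; exact add_mem hp hq
    | mul_X p i hp =>
      have : D (p * X i) - p * X i = (D p - p) * D (X i) + p * (D (X i) - X i) := by
        rw [map_mul]; ring
      rw [this]
      exact add_mem (Ideal.mul_mem_right _ _ hp) (Ideal.mul_mem_left _ _ (h21 (hD i)))
  have h1 : ∀ b ∈ I, D b - b ∈ I ^ 2 := by
    intro b hb
    induction hb using Submodule.span_induction with
    | mem b hb => obtain ⟨i, rfl⟩ := hb; exact hD i
    | zero => simp
    | add p q _ _ hp hq =>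
      have : D (p + q) - (p + q) = (D p - p) + (D q - q) := by rw [map_add]; ring
      rw [this]; exact add_mem hp hq
    | smul c b hb h =>
      have : D (c • b) - c • b = (D c - c) * b + D c * (D b - b) := by
        rw [smul_eq_mul, map_mul]; ring
      rw [this]
      refine add_mem ?_ (Ideal.mul_mem_left _ _ h)
      rw [pow_two]
      exact Ideal.mul_mem_mul (h0 c) hb
  induction d with
  | zero => intro q _; simpa using h0 q
  | succ d ih =>
    intro q hq
    rw [pow_succ] at hq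
    induction hq using Submodule.mul_induction_on' with
    | mem_mul_mem a ha b hb =>
      have : D (a * b) - a * b = (D a - a) * D b + a * (D b - b) := by rw [map_mul]; ring
      rw [this]
      have hDb : D b ∈ I := by
        have := add_mem (h0 b) hb
        rwa [sub_add_cancel] at this
      refine add_mem ?_ ?_
      · rw [pow_succ]; exact Ideal.mul_mem_mul (ih a ha) hDb
      · rw [add_assoc, pow_add]; exact Ideal.mul_mem_mul ha (h1 b hb)
    | add p _ q _ hp hq =>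
      have : D (p + q) - (p + q) = (D p - p) + (D q - q) := by rw [map_add]; ring
      rw [this]; exact add_mem hp hq

lemma mem_pow_of_subst (D : MvPolynomial ι k →ₐ[k] MvPolynomial ι k)
    (hD : ∀ i, D (X i) - X i ∈ idealOfVars ι k ^ 2) (j : ℕ) (q : MvPolynomial ι k)
    (hq : D q ∈ idealOfVars ι k ^ j) : q ∈ idealOfVars ι k ^ j := by
  have : ∀ d ≤ j, q ∈ idealOfVars ι k ^ d := by
    intro d
    induction d with
    | zero => intro _; simp
    | succ d ih =>
      intro hd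
      have := sub_mem (Ideal.pow_le_pow_right hd hq) (sub_mem_pow D hD d q (ih (by omega)))
      rwa [sub_sub_cancel] at this
  exact this j le_rfl

variable {A : Type} [CommRing A] [Algebra k A]

lemma sub_ev_mem (ε : A →ₐ[k] k) (a : A) : a - algebraMap k A (ε a) ∈ RingHom.ker ε := by
  simp [RingHom.mem_ker]

/-- Derivations dual to a family which is independent in the cotangent space. -/
lemma exists_dual [Fintype ι] [DecidableEq ι] (ε : A →ₐ[k] k) (x : ι → A)
    (hx : ∀ i, x i ∈ RingHom.ker ε)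
    (hind : ∀ c : ι → k, ∑ i, c i • x i ∈ RingHom.ker ε ^ 2 → c = 0) :
    ∃ η : A →ₗ[k] (ι → k), η 1 = 0 ∧ (∀ a b, η (a * b) = ε a • η b + ε b • η a) ∧
      ∀ i, η (x i) = Pi.single i 1 := by
  set V : Submodule k A := (RingHom.ker ε ^ 2).restrictScalars k with hV
  let L : (ι → k) →ₗ[k] A ⧸ V := V.mkQ.comp (Fintype.linearCombination k x)
  have hL : LinearMap.ker L = ⊥ := by
    rw [eq_bot_iff]
    intro c hc
    rw [LinearMap.mem_ker] at hc
    simp only [L, LinearMap.comp_apply, Submodule.mkQ_apply, Submodule.Quotient.mk_eq_zero,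
      Fintype.linearCombination_apply] at hc
    exact hind c hc
  obtain ⟨R, hR⟩ := L.exists_leftInverse_of_injective hL
  let π : A →ₗ[k] A := LinearMap.id - (Algebra.linearMap k A).comp ε.toLinearMap
  have hπ : ∀ a, π a = a - algebraMap k A (ε a) := fun a => rfl
  refine ⟨R.comp (V.mkQ.comp π), ?_, fun a b => ?_, fun i => ?_⟩
  · simp [hπ]
  · have hm : π a * π b ∈ V := by
      change _ ∈ RingHom.ker ε ^ 2
      rw [pow_two]
      exact Ideal.mul_mem_mul (sub_ev_mem ε a) (sub_ev_mem ε b)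
    have e : π (a * b) = ε a • π b + ε b • π a + π a * π b := by
      simp only [hπ, Algebra.smul_def, map_mul]; ring
    have h0 : V.mkQ (π a * π b) = 0 := (Submodule.Quotient.mk_eq_zero _).2 hm
    simp only [LinearMap.comp_apply, e, map_add, map_smul, h0, map_zero, add_zero]
  · have h1 : π (x i) = x i := by
      rw [hπ, (RingHom.mem_ker).1 (hx i), map_zero, sub_zero]
    have h2 : L (Pi.single i 1) = V.mkQ (x i) := by
      simp [L, Fintype.linearCombination_apply_single]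
    simp only [LinearMap.comp_apply, h1, ← h2]
    exact LinearMap.congr_fun hR _

/-- The linear form with given coefficients. -/
noncomputable def lin [Fintype ι] (c : ι → k) : MvPolynomial ι k := ∑ i, c i • X i

lemma lin_mem [Fintype ι] (c : ι → k) : lin c ∈ idealOfVars ι k :=
  Ideal.sum_mem _ fun i _ => by
    rw [smul_eq_C_mul]
    exact Ideal.mul_mem_left _ _ (Ideal.subset_span ⟨i, rfl⟩)

lemma lin_add [Fintype ι] (c d : ι → k) : lin (c + d) = lin c + lin d := by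
  simp [lin, add_smul, Finset.sum_add_distrib]

lemma lin_smul [Fintype ι] (a : k) (c : ι → k) : lin (a • c) = C a * lin c := by
  simp [lin, Finset.mul_sum, mul_smul, smul_eq_C_mul, mul_assoc]

lemma lin_single [Fintype ι] [DecidableEq ι] (i : ι) :
    lin (Pi.single i (1 : k)) = X i := by
  simp [lin, Pi.single_apply, ite_smul]

/-- The first order expansion. -/
lemma exists_first_order [Fintype ι] (ε : A →ₐ[k] k) (x : ι → A)
    (hx : ∀ i, x i ∈ RingHom.ker ε)
    (hind : ∀ c : ι → k, ∑ i, c i • x i ∈ RingHom.ker ε ^ 2 → c = 0) :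
    ∃ φ : A →ₐ[k] MvPolynomial ι k ⧸ idealOfVars ι k ^ 2,
      (∀ a, ∃ p ∈ idealOfVars ι k, φ a = Ideal.Quotient.mk _ (C (ε a) + p)) ∧
      ∀ i, φ (x i) = Ideal.Quotient.mk _ (X i) := by
  classical
  obtain ⟨η, h1, hmul, hi⟩ := exists_dual ε x hx hind
  have h0 : lin (0 : ι → k) = 0 := by simp [lin]
  let φ0 : A →ₗ[k] MvPolynomial ι k ⧸ idealOfVars ι k ^ 2 :=
    { toFun := fun a => Ideal.Quotient.mk _ (C (ε a) + lin (η a))
      map_add' := fun a b => by
        rw [← map_add, map_add ε, map_add η, lin_add, map_add C]; congr 1; ring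
      map_smul' := fun c a => by
        rw [map_smul ε, map_smul η, lin_smul, RingHom.id_apply, smul_eq_mul, map_mul C, ← mul_add,
          ← smul_eq_C_mul]
        rfl }
  have hφ : ∀ a, φ0 a = Ideal.Quotient.mk _ (C (ε a) + lin (η a)) := fun a => rfl
  refine ⟨AlgHom.ofLinearMap φ0 ?_ ?_, fun a => ⟨_, lin_mem (η a), rfl⟩, fun i => ?_⟩
  · rw [hφ, h1, h0, map_one, map_one, add_zero, map_one]
  · intro a b
    rw [hφ, hφ, hφ, ← map_mul, eq_comm, Ideal.Quotient.eq, hmul, lin_add, lin_smul, lin_smul,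
      map_mul ε, map_mul C]
    have : (C (ε a) + lin (η a)) * (C (ε b) + lin (η b)) -
        (C (ε a) * C (ε b) + (C (ε a) * lin (η b) + C (ε b) * lin (η a))) =
        lin (η a) * lin (η b) := by ring
    rw [this, pow_two]
    exact Ideal.mul_mem_mul (lin_mem _) (lin_mem _)
  · change φ0 (x i) = _
    rw [hφ, hi, lin_single, (RingHom.mem_ker).1 (hx i), map_zero, zero_add]

/-- Quasi-regularity at a point which is moved into the smooth locus by an automorphism. -/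
lemma quasi_regular_of_smooth [Fintype ι] (ε : A →ₐ[k] k) (f : A)
    [Algebra.FormallySmooth k (Localization.Away f)] (σ τ : A →ₐ[k] A)
    (hστ : ∀ a, σ (τ a) = a) (hf : ε (σ f) ≠ 0) (x : ι → A) (hx : ∀ i, x i ∈ RingHom.ker ε)
    (hind : ∀ c : ι → k, ∑ i, c i • x i ∈ RingHom.ker ε ^ 2 → c = 0) (j : ℕ)
    (q : MvPolynomial ι k) (hq : aeval x q ∈ RingHom.ker ε ^ j) : q ∈ idealOfVars ι k ^ j := by
  obtain ⟨φ, hφ, hφx⟩ := exists_first_order ε x hx hind
  let I := idealOfVars ι k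
  have hle : I ^ (j + 2) ≤ I ^ 2 := Ideal.pow_le_pow_right (by omega)
  have h21 : I ^ 2 ≤ I := Ideal.pow_le_self (by norm_num)
  have hu : IsUnit (φ (σ f)) := by
    obtain ⟨p, hp, e⟩ := hφ (σ f)
    rw [e, map_add]
    refine IsNilpotent.isUnit_add_left_of_commute ⟨2, ?_⟩ ?_ (Commute.all _ _)
    · rw [← map_pow, Ideal.Quotient.eq_zero_iff_mem]
      exact Ideal.pow_mem_pow hp 2
    · exact ((IsUnit.mk0 _ hf).map C).map _
  let φ1 : Localization.Away f →ₐ[k] MvPolynomial ι k ⧸ I ^ 2 :=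
    IsLocalization.liftAlgHom (M := Submonoid.powers f) (f := φ.comp σ) (by
      rintro ⟨_, n, rfl⟩
      simpa using hu.pow n)
  have hφ1 : ∀ a, φ1 (algebraMap A _ a) = φ (σ a) := fun a => by
    simp [φ1]
  let g := Ideal.Quotient.factorₐ k hle
  have hg : Surjective g := Ideal.Quotient.factor_surjective hle
  have hnil : IsNilpotent (RingHom.ker g) := by
    refine ⟨j + 2, ?_⟩
    have : RingHom.ker g ≤ I.map (Ideal.Quotient.mk _) := by
      intro z hz
      obtain ⟨z, rfl⟩ := Ideal.Quotient.mk_surjective z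
      exact Ideal.mem_map_of_mem _ (h21 (Ideal.Quotient.eq_zero_iff_mem.1 hz))
    rw [Ideal.zero_eq_bot, eq_bot_iff]
    refine (Ideal.pow_right_mono this _).trans ?_
    rw [← Ideal.map_pow, Ideal.map_quotient_self]
  let ψ : A →ₐ[k] MvPolynomial ι k ⧸ I ^ (j + 2) :=
    (Algebra.FormallySmooth.liftOfSurjective φ1 g hg hnil).comp
      ((IsScalarTower.toAlgHom k A (Localization.Away f)).comp τ)
  have hψ : ∀ a, g (ψ a) = φ a := fun a => by
    simp only [ψ, AlgHom.comp_apply, IsScalarTower.coe_toAlgHom']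
    rw [Algebra.FormallySmooth.liftOfSurjective_apply φ1 g hg hnil, hφ1, hστ]
  have hm : (RingHom.ker ε).map ψ ≤ I.map (Ideal.Quotient.mk _) := by
    rw [Ideal.map_le_iff_le_comap]
    intro a ha
    obtain ⟨p, hp, e⟩ := hφ a
    obtain ⟨z, hz⟩ := Ideal.Quotient.mk_surjective (ψ a)
    rw [Ideal.mem_comap, ← hz]
    refine Ideal.mem_map_of_mem _ ?_
    rw [← hψ, ← hz, (RingHom.mem_ker).1 ha, map_zero, zero_add] at e
    have := add_mem (h21 (Ideal.Quotient.eq.1 e)) hp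
    rwa [sub_add_cancel] at this
  choose r hr using fun i => Ideal.Quotient.mk_surjective (ψ (x i))
  refine mem_pow_of_subst (aeval r) (fun i => ?_) j q ?_
  · rw [aeval_X, ← Ideal.Quotient.eq, ← hφx, ← hψ, ← hr]; rfl
  · have e : (Ideal.Quotient.mkₐ k (I ^ (j + 2))).comp (aeval r) = ψ.comp (aeval x) := by
      ext i; simp [hr]
    have e' : Ideal.Quotient.mk (I ^ (j + 2)) (aeval r q) = ψ (aeval x q) :=
      AlgHom.congr_fun e q
    have h1 : ψ (aeval x q) ∈ (I ^ j).map (Ideal.Quotient.mk (I ^ (j + 2))) := by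
      rw [Ideal.map_pow]
      refine Ideal.pow_right_mono hm j ?_
      rw [← Ideal.map_pow]
      exact Ideal.mem_map_of_mem _ hq
    rw [← e', Ideal.mem_quotient_iff_mem (Ideal.pow_le_pow_right (by omega))] at h1
    exact h1

/-- Generic smoothness. -/
lemma exists_smooth [PerfectField k] [IsDomain A] [Algebra.FiniteType k A] :
    ∃ f : A, f ≠ 0 ∧ Algebra.FormallySmooth k (Localization.Away f) := by
  have : Algebra.FinitePresentation k A := Algebra.FinitePresentation.of_finiteType.1 inferInstance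
  have : Algebra.IsSmoothAt k (⊥ : Ideal A) := by
    have : IsFractionRing A (Localization.AtPrime (⊥ : Ideal A)) := by
      simpa [Ideal.primeCompl_bot] using Localization.isLocalization (M := (⊥ : Ideal A).primeCompl)
    have : Algebra.FormallySmooth k (FractionRing A) := inferInstance
    exact Algebra.FormallySmooth.of_equiv
      ((FractionRing.algEquiv A (Localization.AtPrime (⊥ : Ideal A))).restrictScalars k)
  obtain ⟨f, hf, h⟩ := Algebra.IsSmoothAt.exists_notMem_smooth k (⊥ : Ideal A)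
  exact ⟨f, by simpa using hf, h.1⟩

lemma aeval_mem_pow (m : Ideal A) (x : ι → A) (hx : ∀ i, x i ∈ m) (j : ℕ) {q : MvPolynomial ι k}
    (hq : q ∈ idealOfVars ι k ^ j) : aeval x q ∈ m ^ j := by
  have : (idealOfVars ι k).map (aeval x : MvPolynomial ι k →ₐ[k] A) ≤ m := by
    rw [Ideal.map_span, Ideal.span_le]
    rintro _ ⟨_, ⟨i, rfl⟩, rfl⟩
    simpa using hx i
  refine Ideal.pow_right_mono this j ?_
  rw [← Ideal.map_pow]
  exact Ideal.mem_map_of_mem _ hq

lemma expansion_step [Fintype ι] (ε : A →ₐ[k] k) (x : ι → A) (hx : ∀ i, x i ∈ RingHom.ker ε)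
    (hspan : ∀ F ∈ RingHom.ker ε, ∃ a : ι → k, F - ∑ i, a i • x i ∈ RingHom.ker ε ^ 2) (j : ℕ) :
    ∀ F ∈ RingHom.ker ε ^ j, ∃ q ∈ idealOfVars ι k ^ j, F - aeval x q ∈ RingHom.ker ε ^ (j + 1) := by
  induction j with
  | zero =>
    intro F _
    exact ⟨C (ε F), by simp, by simpa using sub_ev_mem ε F⟩
  | succ j ih =>
    intro F hF
    rw [pow_succ] at hF
    induction hF using Submodule.mul_induction_on' with
    | mem_mul_mem a ha b hb =>
      obtain ⟨q, hq, h1⟩ := ih a ha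
      obtain ⟨c, h2⟩ := hspan b hb
      refine ⟨q * lin c, by rw [pow_succ]; exact Ideal.mul_mem_mul hq (lin_mem c), ?_⟩
      have e : aeval x (lin c) = ∑ i, c i • x i := by simp [lin]
      have : a * b - aeval x (q * lin c) =
          (a - aeval x q) * b + aeval x q * (b - ∑ i, c i • x i) := by
        rw [map_mul, e]; ring
      rw [this]
      refine add_mem ?_ ?_
      · rw [pow_succ]; exact Ideal.mul_mem_mul h1 hb
      · rw [add_assoc, pow_add]; exact Ideal.mul_mem_mul (aeval_mem_pow _ x hx j hq) h2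
    | add a _ b _ ha hb =>
      obtain ⟨p, hp, h1⟩ := ha
      obtain ⟨q, hq, h2⟩ := hb
      refine ⟨p + q, add_mem hp hq, ?_⟩
      have : a + b - aeval x (p + q) = (a - aeval x p) + (b - aeval x q) := by
        rw [map_add]; ring
      rw [this]; exact add_mem h1 h2

/-- A basis of the cotangent space chosen from a spanning set of the maximal ideal. -/
lemma exists_basis_from [IsNoetherianRing A] (ε : A →ₐ[k] k) (S : Set A)
    (hS : ∀ F ∈ S, F ∈ RingHom.ker ε) (hspan : ∀ F ∈ RingHom.ker ε, F ∈ Submodule.span k S) :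
    ∃ (d : ℕ) (x : Fin d → A), (∀ i, x i ∈ S) ∧
      (∀ a : Fin d → k, ∑ i, a i • x i ∈ RingHom.ker ε ^ 2 → a = 0) ∧
      ∀ F ∈ RingHom.ker ε, ∃ a : Fin d → k, F - ∑ i, a i • x i ∈ RingHom.ker ε ^ 2 := by
  set V : Submodule k A := (RingHom.ker ε ^ 2).restrictScalars k with hV
  obtain ⟨b, hb, hsp, hli⟩ := exists_linearIndependent k (V.mkQ '' S)
  obtain ⟨s, hs⟩ := IsNoetherian.noetherian (RingHom.ker ε)
  have hfin : ∀ F ∈ RingHom.ker ε, V.mkQ F ∈ Submodule.span k (V.mkQ '' (s : Set A)) := by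
    intro F hF
    have hF' := hF
    rw [← hs] at hF'
    induction hF' using Submodule.span_induction with
    | mem F h => exact Submodule.subset_span ⟨F, h, rfl⟩
    | zero => simp
    | add F G h1 h2 h3 h4 =>
      rw [map_add]; exact add_mem (h3 (hs ▸ h1)) (h4 (hs ▸ h2))
    | smul c F h1 h2 =>
      have h3 : F ∈ RingHom.ker ε := hs ▸ h1
      have e : c • F = ε c • F + (c - algebraMap k A (ε c)) * F := by
        rw [Algebra.smul_def (ε c), smul_eq_mul]; ring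
      have h0 : V.mkQ ((c - algebraMap k A (ε c)) * F) = 0 := by
        refine (Submodule.Quotient.mk_eq_zero _).2 ?_
        change _ ∈ RingHom.ker ε ^ 2
        rw [pow_two]
        exact Ideal.mul_mem_mul (sub_ev_mem ε c) h3
      rw [e, map_add, h0, add_zero, map_smul]
      exact Submodule.smul_mem _ _ (h2 h3)
  have : Finite (V.mkQ '' (s : Set A)) := (s.finite_toSet.image _).to_subtype
  have : Finite b := hli.finite_of_le_span_finite _ (V.mkQ '' (s : Set A)) (by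
    rintro _ ⟨z, rfl⟩
    obtain ⟨F, hF, e⟩ := hb z.2
    rw [← e]
    exact hfin F (hS F hF))
  obtain ⟨d, ⟨e⟩⟩ := Finite.exists_equiv_fin b
  choose x hx hxe using fun i : Fin d => hb (e.symm i).2
  have hli' : LinearIndependent k fun i => V.mkQ (x i) := by
    simp only [hxe]
    exact hli.comp _ e.symm.injective
  have hr : range (fun i => V.mkQ (x i)) = b := by
    simp only [hxe]
    exact (e.symm.surjective.range_comp Subtype.val).trans Subtype.range_coe
  refine ⟨d, x, hx, fun a ha => ?_, fun F hF => ?_⟩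
  · refine funext (Fintype.linearIndependent_iff.1 hli' a ?_)
    have := (Submodule.Quotient.mk_eq_zero V).2 ha
    rw [← Submodule.mkQ_apply, map_sum] at this
    simpa only [map_smul] using this
  · have : V.mkQ F ∈ Submodule.span k (range fun i => V.mkQ (x i)) := by
      rw [hr, hsp, ← Submodule.map_span]
      exact Submodule.mem_map_of_mem (hspan F hF)
    obtain ⟨a, ha⟩ := (Submodule.mem_span_range_iff_exists_fun k).1 this
    refine ⟨a, (Submodule.Quotient.mk_eq_zero V).1 ?_⟩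
    rw [← Submodule.mkQ_apply, map_sub, map_sum, ← ha]
    simp only [map_smul, sub_self]

end SmoothAux

variable {k : Type} [Field k] [IsAlgClosed k] {Γ : Type} [Group Γ] [Reg k Γ] [RegMul Γ] [RegInv Γ]
  [Aff Γ]

/-- Functions whose differentials at the identity are independent are quasi-regular. -/
theorem quasi_regular (hΓ : Irr (univ : Set Γ)) {ι : Type} [Fintype ι] (x : ι → Oo Γ)
    (hx : ∀ i, x i ∈ mx (1 : Γ))
    (hind : ∀ c : ι → k, ∑ i, c i • x i ∈ mx (1 : Γ) ^ 2 → c = 0) (j : ℕ) (q : MvPolynomial ι k)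
    (hq : aeval x q ∈ mx (1 : Γ) ^ j) : q ∈ idealOfVars ι k ^ j := by
  have := hΓ.isDomain
  obtain ⟨f, hf, hsm⟩ := SmoothAux.exists_smooth (k := k) (A := Oo Γ)
  obtain ⟨g, hg⟩ : ∃ g, f.1 g ≠ 0 := by
    by_contra h
    push Not at h
    exact hf (O_ext h)
  exact SmoothAux.quasi_regular_of_smooth (ev (1 : Γ)) f (pull (fun y => y * g) (by fun_prop))
    (pull (fun y => y * g⁻¹) (by fun_prop)) (fun a => O_ext fun y => by simp)
    (by simpa using hg) x hx hind j q hq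

omit [IsAlgClosed k] [RegMul Γ] [RegInv Γ] in
/-- A homogeneous basis of the cotangent space at the identity. -/
theorem exists_cotangent_basis {M J : Type} (c : M → Oo Γ →ₐ[k] Oo Γ)
    (hc : ∀ t, ∀ F ∈ mx (1 : Γ), c t F ∈ mx (1 : Γ)) (χ : J → M → k)
    (h : ∀ F : Oo Γ, F ∈ ⨆ j, Wt (fun t => (c t).toLinearMap) (χ j)) :
    ∃ (d : ℕ) (x : Fin d → Oo Γ) (w : Fin d → J), (∀ i, x i ∈ mx (1 : Γ)) ∧
      (∀ i t, c t (x i) = χ (w i) t • x i) ∧
      (∀ a : Fin d → k, ∑ i, a i • x i ∈ mx (1 : Γ) ^ 2 → a = 0) ∧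
      ∀ F ∈ mx (1 : Γ), ∃ a : Fin d → k, F - ∑ i, a i • x i ∈ mx (1 : Γ) ^ 2 := by
  obtain ⟨d, x, hx, h1, h2⟩ := SmoothAux.exists_basis_from (ev (1 : Γ))
    {F | F ∈ mx (1 : Γ) ∧ ∃ j, ∀ t, c t F = χ j t • F} (fun F hF => hF.1) (fun F hF => by
      have := le_iSup_wt_inf (c := fun t => (c t).toLinearMap)
        (V := (mx (1 : Γ)).restrictScalars k) hc (S := range χ) hF (by
          rw [iSup_range]; exact h F)
      refine (iSup₂_le ?_ : _ ≤ Submodule.span k _) this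
      rintro _ ⟨j, rfl⟩ G hG
      exact Submodule.subset_span ⟨hG.2, j, hG.1⟩)
  choose w hw using fun i => (hx i).2
  exact ⟨d, x, w, fun i => (hx i).1, hw, h1, h2⟩

omit [IsAlgClosed k] [RegMul Γ] [RegInv Γ] [Aff Γ] in
/-- Expansion in a spanning family of the cotangent space. -/
theorem exists_expansion {ι : Type} [Fintype ι] (x : ι → Oo Γ) (hx : ∀ i, x i ∈ mx (1 : Γ))
    (hspan : ∀ F ∈ mx (1 : Γ), ∃ a : ι → k, F - ∑ i, a i • x i ∈ mx (1 : Γ) ^ 2) (j N : ℕ)
    (F : Oo Γ) (hF : F ∈ mx (1 : Γ) ^ j) :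
    ∃ q ∈ idealOfVars ι k ^ j, F - aeval x q ∈ mx (1 : Γ) ^ N := by
  have : ∃ q ∈ idealOfVars ι k ^ j, F - aeval x q ∈ mx (1 : Γ) ^ (j + N) := by
    induction N with
    | zero => exact ⟨0, zero_mem _, by simpa using hF⟩
    | succ N ih =>
      obtain ⟨q, hq, h1⟩ := ih
      obtain ⟨q', hq', h2⟩ := SmoothAux.expansion_step (ev (1 : Γ)) x hx hspan _ _ h1
      refine ⟨q + q', add_mem hq (Ideal.pow_le_pow_right (by omega) hq'), ?_⟩
      rwa [map_add, ← sub_sub]
  obtain ⟨q, hq, h1⟩ := this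
  exact ⟨q, hq, Ideal.pow_le_pow_right (by omega) h1⟩

end ZipFG
end
end

-- merged part: Pool.Agent.Work.MP_5c492e_ag.Chart
section
-- merged part: Pool.Agent.Work.MP_5c492e_ag.BigCell
section
/-! The big cell of a connected group normalised by a cocharacter. -/

namespace ZipFG

open Function Set Matrix

namespace BigCellAux

open MvPolynomial

section general

variable {k : Type} [Field k]

lemma pull_mem_pow {X Y : Type} [Reg k X] [Reg k Y] (f : X → Y) (hf : IsReg f) {x : X} {z : Y}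
    (e : f x = z) (N : ℕ) {F : Oo Y} (hF : F ∈ mx z ^ N) : pull f hf F ∈ mx x ^ N := by
  have h1 : (mx z).map (pull f hf) ≤ mx x := by
    rw [Ideal.map_le_iff_le_comap]
    intro G hG
    rw [Ideal.mem_comap, mem_mx, pull_apply, e]
    exact mem_mx.1 hG
  have h2 := Ideal.mem_map_of_mem (pull f hf) hF
  rw [Ideal.map_pow] at h2
  exact Ideal.pow_right_mono h1 N h2

lemma exists_van {X Y : Type} [Reg k X] [Reg k Y] (f : X → Y) (hf : IsReg f)
    (hs : Surjective (pull f hf)) {x : X} {z : Y} (e : f x = z) {l : Oo Y}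
    (hl : pull f hf l ∈ mx x ^ 2) : ∃ F : Oo Y, (∀ u, F.1 (f u) = 0) ∧ F - l ∈ mx z ^ 2 := by
  have h1 : mx x ≤ (mx z).map (pull f hf) := by
    intro G hG
    obtain ⟨G', rfl⟩ := hs G
    refine Ideal.mem_map_of_mem _ ?_
    rw [mem_mx, ← e]
    exact mem_mx.1 hG
  have h2 := Ideal.pow_right_mono h1 2 hl
  rw [← Ideal.map_pow] at h2
  obtain ⟨r, hr, er⟩ := (Ideal.mem_map_iff_of_surjective _ hs).1 h2
  refine ⟨l - r, fun u => ?_, by simpa using hr⟩
  have := congrArg (fun G : Oo X => G.1 u) er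
  simp only [pull_apply] at this
  simp [this]

lemma pow_sub_pow_mem {A : Type*} [CommRing A] (m : Ideal A) {F G : A} (hF : F ∈ m) (hG : G ∈ m)
    (h : F - G ∈ m ^ 2) (N : ℕ) : F ^ N - G ^ N ∈ m ^ (N + 1) := by
  induction N with
  | zero => simp
  | succ N ih =>
    have : F ^ (N + 1) - G ^ (N + 1) = (F ^ N - G ^ N) * F + G ^ N * (F - G) := by ring
    rw [this]
    refine add_mem ?_ ?_
    · rw [pow_succ m (N + 1)]; exact Ideal.mul_mem_mul ih hF
    · rw [add_assoc, pow_add m N]; exact Ideal.mul_mem_mul (Ideal.pow_mem_pow hG N) h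

lemma aeval_mem_pow {A ι : Type*} [CommRing A] [Algebra k A] (m : Ideal A) (x : ι → A)
    (hx : ∀ i, x i ∈ m) (N : ℕ) {q : MvPolynomial ι k} (hq : q ∈ idealOfVars ι k ^ N) :
    aeval x q ∈ m ^ N := by
  have h1 : (idealOfVars ι k).map (aeval x : MvPolynomial ι k →ₐ[k] A) ≤ m := by
    rw [Ideal.map_le_iff_le_comap, Ideal.span_le]
    rintro _ ⟨i, rfl⟩
    simpa using hx i
  have h2 := Ideal.mem_map_of_mem (aeval x : MvPolynomial ι k →ₐ[k] A) hq
  rw [Ideal.map_pow] at h2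
  exact Ideal.pow_right_mono h1 N h2

lemma coeff_eq_zero {ι : Type} [Fintype ι] [DecidableEq ι] (a : ι → k) (S : Set ι) {i0 : ι}
    (hi : i0 ∉ S) (N : ℕ) {q : MvPolynomial ι k} (hq : q ∈ Ideal.span (X '' S))
    (h : (∑ i, a i • X i) ^ N - q ∈ idealOfVars ι k ^ (N + 1)) : a i0 = 0 := by
  let v : ι → Polynomial k := fun i => if i = i0 then Polynomial.X else 0
  have h1 := aeval_mem_pow (Ideal.span {(Polynomial.X : Polynomial k)}) v (fun i => by
    by_cases e : i = i0 <;> simp [v, e, Ideal.mem_span_singleton_self]) (N + 1) h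
  have h2 : aeval v q = 0 := by
    have : Ideal.span (X '' S) ≤ RingHom.ker (aeval v : MvPolynomial ι k →ₐ[k] Polynomial k) := by
      rw [Ideal.span_le]
      rintro _ ⟨i, hi', rfl⟩
      have : i ≠ i0 := fun e => hi (e ▸ hi')
      simp [v, this]
    exact this hq
  have h3 : aeval v (∑ i, a i • X i : MvPolynomial ι k) = Polynomial.monomial 1 (a i0) := by
    rw [map_sum, Finset.sum_eq_single i0]
    · simp [v, ← Polynomial.smul_X_eq_monomial]
    · intro i _ e; simp [v, e]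
    · simp
  rw [map_sub, map_pow, h2, h3, sub_zero, Ideal.span_singleton_pow, Ideal.mem_span_singleton,
    Polynomial.X_pow_dvd_iff] at h1
  have h4 := h1 N (Nat.lt_succ_self N)
  rw [Polynomial.monomial_pow, one_mul, Polynomial.coeff_monomial_same] at h4
  exact (pow_eq_zero_iff'.1 h4).1

/-- The character `t ↦ t ^ d`. -/
def ch (k : Type) [Field k] (d : ℤ) : kˣ → k := fun t => ((t ^ d : kˣ) : k)

lemma ch_add (a b : ℤ) (t : kˣ) : ch k (a + b) t = ch k a t * ch k b t := by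
  simp only [ch, _root_.zpow_add, Units.val_mul]

lemma ch_inj [Infinite k] {a b : ℤ} (h : ch k a = ch k b) : a = b :=
  zpow_inj_units (k := k) fun t => by simpa [ch] using congrFun h t

end general

section group

variable {k : Type} [Field k] [IsAlgClosed k] {Γ : Type} [Group Γ] [Reg k Γ] [RegMul Γ] [RegInv Γ]
  [Aff Γ] {ι : Type} [Fintype ι] [DecidableEq ι]

omit [RegMul Γ] [RegInv Γ] [Aff Γ] [DecidableEq ι] in
lemma wt_mem (c : kˣ → Oo Γ →ₐ[k] Oo Γ) (hc : ∀ t, ∀ F ∈ mx (1 : Γ), c t F ∈ mx (1 : Γ))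
    (x : ι → Oo Γ) (w : ι → ℤ) (hx : ∀ i, x i ∈ mx (1 : Γ))
    (hw : ∀ i t, c t (x i) = ch k (w i) t • x i)
    (hspan : ∀ F ∈ mx (1 : Γ), ∃ a : ι → k, F - ∑ i, a i • x i ∈ mx (1 : Γ) ^ 2)
    (P : ℤ → Prop) (hP : ∀ a b, P a → P b → P (a + b)) (M : ℕ) {G : Oo Γ} (hG : G ∈ mx (1 : Γ))
    {e : ℤ} (he : ¬ P e) (hGe : ∀ t, c t G = ch k e t • G) :
    G ∈ Ideal.span (x '' {i | ¬ P (w i)}) ⊔ mx (1 : Γ) ^ M := by
  set J : Ideal (Oo Γ) := Ideal.span (x '' {i | ¬ P (w i)}) ⊔ mx (1 : Γ) ^ M with hJ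
  let c' : kˣ → Oo Γ →ₗ[k] Oo Γ := fun t => (c t).toLinearMap
  let Z : Submodule k (Oo Γ) := ⨆ χ ∈ ch k '' {d | P d}, Wt c' χ
  let W : Submodule k (Oo Γ) := J.restrictScalars k ⊔ Z
  have hZ : ∀ d, P d → Wt c' (ch k d) ≤ Z := fun d hd =>
    le_iSup₂_of_le (f := fun χ (_ : χ ∈ ch k '' {d | P d}) => Wt c' χ) (ch k d) ⟨d, hd, rfl⟩ le_rfl
  have hxJ : ∀ i, ¬ P (w i) → x i ∈ J := fun i hi =>
    Ideal.mem_sup_left (Ideal.subset_span ⟨i, hi, rfl⟩)
  have hxW : ∀ i, x i ∈ W := by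
    intro i
    by_cases hi : P (w i)
    · exact Submodule.mem_sup_right (hZ _ hi (hw i))
    · exact Submodule.mem_sup_left (hxJ i hi)
  have hmul : ∀ i, ∀ F ∈ W, x i * F ∈ W := by
    intro i
    by_cases hi : P (w i)
    · have : W ≤ W.comap (LinearMap.mulLeft k (x i)) := by
        refine sup_le (fun F hF => Submodule.mem_sup_left (J.mul_mem_left _ hF)) ?_
        refine iSup₂_le ?_
        rintro _ ⟨d, hd, rfl⟩ F hF
        refine Submodule.mem_sup_right (hZ _ (hP _ _ hi hd) fun t => ?_)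
        have h1 : c t F = ch k d t • F := hF t
        change c t (x i * F) = _
        rw [map_mul, hw, h1, ch_add, smul_mul_smul_comm]
        rfl
      exact fun F hF => this hF
    · exact fun F _ => Submodule.mem_sup_left (J.mul_mem_right F (hxJ i hi))
  have hq : ∀ q : MvPolynomial ι k, ∀ F ∈ W, aeval x q * F ∈ W := by
    intro q
    induction q using MvPolynomial.induction_on with
    | C a => intro F hF; simpa [Algebra.algebraMap_eq_smul_one] using W.smul_mem a hF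
    | add p q hp hq => intro F hF; rw [map_add, add_mul]; exact add_mem (hp F hF) (hq F hF)
    | mul_X p i hp => intro F hF; rw [map_mul, aeval_X, mul_assoc]; exact hp _ (hmul i F hF)
  obtain ⟨q, hq1, hq2⟩ := exists_expansion x hx hspan 1 M G (by simpa using hG)
  rw [pow_one, Ideal.mem_span_range_iff_exists_fun] at hq1
  obtain ⟨b, rfl⟩ := hq1
  have h1 : aeval x (∑ i, b i * X i) ∈ W := by
    rw [map_sum]
    exact sum_mem fun i _ => by rw [map_mul, aeval_X]; exact hq _ _ (hxW i)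
  obtain ⟨j, hj, z, hz, e1⟩ := Submodule.mem_sup.1 h1
  have hstab : ∀ t, ∀ v ∈ J.restrictScalars k, c' t v ∈ J.restrictScalars k := by
    intro t
    have : J ≤ J.comap (c t) := by
      refine sup_le ?_ ?_
      · rw [Ideal.span_le]
        rintro _ ⟨i, hi, rfl⟩
        change c t (x i) ∈ J
        rw [hw]
        exact (J.restrictScalars k).smul_mem _ (hxJ i hi)
      · intro F hF
        have h2 := Ideal.mem_map_of_mem (c t) hF
        rw [Ideal.map_pow] at h2
        have h3 : (mx (1 : Γ)).map (c t) ≤ mx 1 :=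
          Ideal.map_le_iff_le_comap.2 fun F hF => hc t F hF
        exact Ideal.mem_sup_right (Ideal.pow_right_mono h3 M h2)
    exact fun v hv => this hv
  refine wt_comp hstab (χ := ch k e) (S := ch k '' {d | P d}) ?_ hGe (neg_mem hz) ?_
  · rintro ⟨d, hd, e2⟩
    exact he (ch_inj e2 ▸ hd)
  · have : G + -z = (G - aeval x (∑ i, b i * X i)) + j := by rw [← e1]; abel
    rw [this]
    exact add_mem (Ideal.mem_sup_right hq2) hj

omit [IsAlgClosed k] [RegMul Γ] [RegInv Γ] [Aff Γ] [DecidableEq ι] in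
lemma exists_poly_of_mem (x : ι → Oo Γ) (hx : ∀ i, x i ∈ mx (1 : Γ))
    (hspan : ∀ F ∈ mx (1 : Γ), ∃ a : ι → k, F - ∑ i, a i • x i ∈ mx (1 : Γ) ^ 2)
    (S : Set ι) (M : ℕ) {G : Oo Γ} (hG : G ∈ Ideal.span (x '' S) ⊔ mx (1 : Γ) ^ M) :
    ∃ q ∈ Ideal.span (X '' S : Set (MvPolynomial ι k)), G - aeval x q ∈ mx (1 : Γ) ^ M := by
  obtain ⟨j, hj, r, hr, rfl⟩ := Submodule.mem_sup.1 hG
  suffices h : ∃ q ∈ Ideal.span (X '' S : Set (MvPolynomial ι k)),
      j - aeval x q ∈ mx (1 : Γ) ^ M by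
    obtain ⟨q, h1, h2⟩ := h
    refine ⟨q, h1, ?_⟩
    rw [add_sub_right_comm]
    exact add_mem h2 hr
  clear hG
  induction hj using Submodule.span_induction with
  | mem _ h =>
    obtain ⟨i, hi, rfl⟩ := h
    exact ⟨X i, Ideal.subset_span ⟨i, hi, rfl⟩, by simp⟩
  | zero => exact ⟨0, zero_mem _, by simp⟩
  | add a b _ _ ha hb =>
    obtain ⟨p, hp, hp'⟩ := ha
    obtain ⟨q, hq, hq'⟩ := hb
    refine ⟨p + q, add_mem hp hq, ?_⟩
    rw [map_add, add_sub_add_comm]
    exact add_mem hp' hq'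
  | smul a b _ hb =>
    obtain ⟨q, hq, hq'⟩ := hb
    obtain ⟨p, -, hp⟩ := exists_expansion x hx hspan 0 M a (by simp)
    refine ⟨p * q, Ideal.mul_mem_left _ _ hq, ?_⟩
    have : a • b - aeval x (p * q) = a * (b - aeval x q) + (a - aeval x p) * aeval x q := by
      rw [map_mul, smul_eq_mul]; ring
    rw [this]
    exact add_mem (Ideal.mul_mem_left _ _ hq') (Ideal.mul_mem_right _ _ hp)

/-- The linear part of a function vanishing on the zero locus of the weight vectors of weight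
outside an additively closed set only involves these weights. -/
lemma linear_part (hΓ : Irr (univ : Set Γ)) (c : kˣ → Oo Γ →ₐ[k] Oo Γ)
    (hc : ∀ t, ∀ F ∈ mx (1 : Γ), c t F ∈ mx (1 : Γ))
    (x : ι → Oo Γ) (w : ι → ℤ) (hx : ∀ i, x i ∈ mx (1 : Γ))
    (hw : ∀ i t, c t (x i) = ch k (w i) t • x i)
    (hind : ∀ a : ι → k, ∑ i, a i • x i ∈ mx (1 : Γ) ^ 2 → a = 0)
    (hspan : ∀ F ∈ mx (1 : Γ), ∃ a : ι → k, F - ∑ i, a i • x i ∈ mx (1 : Γ) ^ 2)
    (P : ℤ → Prop) (hP : ∀ a b, P a → P b → P (a + b)) {F : Oo Γ}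
    (hF : ∀ g : Γ, (∀ G ∈ mx (1 : Γ), ∀ e, ¬ P e → (∀ t, c t G = ch k e t • G) → G.1 g = 0) →
      F.1 g = 0) {a : ι → k} (ha : F - ∑ i, a i • x i ∈ mx (1 : Γ) ^ 2) {i0 : ι}
    (hi : P (w i0)) : a i0 = 0 := by
  let I : Ideal (Oo Γ) :=
    Ideal.span {G | G ∈ mx (1 : Γ) ∧ ∃ e, ¬ P e ∧ ∀ t, c t G = ch k e t • G}
  obtain ⟨N, hN⟩ := nullst I F fun g hg =>
    hF g fun G hG e he h => hg G (Ideal.subset_span ⟨hG, e, he, h⟩)
  have hI : I ≤ Ideal.span (x '' {i | ¬ P (w i)}) ⊔ mx (1 : Γ) ^ (N + 1) := by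
    rw [Ideal.span_le]
    rintro G ⟨hG, e, he, h⟩
    exact wt_mem c hc x w hx hw hspan P hP _ hG he h
  obtain ⟨q, hq, hq'⟩ := exists_poly_of_mem x hx hspan _ _ (hI hN)
  have hl : ∑ i, a i • x i ∈ mx (1 : Γ) :=
    sum_mem fun i _ => ((mx (1 : Γ)).restrictScalars k).smul_mem _ (hx i)
  have hFm : F ∈ mx (1 : Γ) := by
    have := add_mem (Ideal.pow_le_self two_ne_zero ha) hl
    rwa [sub_add_cancel] at this
  have h1 := pow_sub_pow_mem _ hFm hl ha N
  refine coeff_eq_zero a {i | ¬ P (w i)} (fun h => h hi) N hq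
    (quasi_regular hΓ x hx hind _ _ ?_)
  have h2 : aeval x ((∑ i, a i • X i : MvPolynomial ι k) ^ N - q) =
      (F ^ N - aeval x q) - (F ^ N - (∑ i, a i • x i) ^ N) := by
    simp [map_sum]
  rw [h2]
  exact sub_mem hq' h1

omit [DecidableEq ι] in
/-- A morphism of groups of points that is injective on cotangent spaces is dominant. -/
lemma eq_zero_of_indep (hΓ : Irr (univ : Set Γ)) {Δ : Type} [Group Δ] [Reg k Δ] [RegMul Δ]
    [RegInv Δ] [Aff Δ] (hΔ : Irr (univ : Set Δ)) (μ : Δ → Γ) (hμ : IsReg μ) (h1 : μ 1 = 1)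
    (x : ι → Oo Γ) (hx : ∀ i, x i ∈ mx (1 : Γ))
    (hspan : ∀ F ∈ mx (1 : Γ), ∃ a : ι → k, F - ∑ i, a i • x i ∈ mx (1 : Γ) ^ 2)
    (hind : ∀ a : ι → k, pull μ hμ (∑ i, a i • x i) ∈ mx (1 : Δ) ^ 2 → a = 0) {F : Oo Γ}
    (hF : pull μ hμ F = 0) : F = 0 := by
  have := hΓ.isDomain
  rw [← Ideal.mem_bot, ← Ideal.iInf_pow_eq_bot_of_isDomain (mx (1 : Γ))
    (Ideal.IsMaximal.ne_top inferInstance), Ideal.mem_iInf]
  intro N
  obtain ⟨q, -, hq⟩ := exists_expansion x hx hspan 0 N F (by simp)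
  have h2 := pull_mem_pow μ hμ h1 N hq
  rw [map_sub, hF, zero_sub, neg_mem_iff, comp_aeval_apply] at h2
  have h3 := quasi_regular hΔ (fun i => pull μ hμ (x i))
    (fun i => by simpa using pull_mem_pow μ hμ h1 1 (by simpa using hx i))
    (fun a ha => hind a (by simpa [map_sum] using ha)) N q h2
  have h4 := add_mem hq (aeval_mem_pow _ x hx N h3)
  rwa [sub_add_cancel] at h4

end group

section gl

variable {k : Type} [Field k] {n : Type} [Fintype n] [DecidableEq n]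
  {H : Subgroup (GL n k)} {y : n → ℤ}

/-- Conjugation by the cocharacter, on functions. -/
def cj (hy : ∀ t, ∀ g ∈ H, nu y t * g * (nu y t)⁻¹ ∈ H) (t : kˣ) : Oo H →ₐ[k] Oo H :=
  pull (fun g : H => (⟨nu y t * g * (nu y t)⁻¹, hy t g g.2⟩ : H)) (by fun_prop)

lemma cj_apply (hy : ∀ t, ∀ g ∈ H, nu y t * g * (nu y t)⁻¹ ∈ H) (t : kˣ) (F : Oo H) (g : H) :
    (cj hy t F).1 g = F.1 ⟨nu y t * g * (nu y t)⁻¹, hy t g g.2⟩ := rfl

lemma cj_mx (hy : ∀ t, ∀ g ∈ H, nu y t * g * (nu y t)⁻¹ ∈ H) (t : kˣ) (F : Oo H)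
    (hF : F ∈ mx (1 : H)) : cj hy t F ∈ mx (1 : H) := by
  rw [mem_mx] at hF ⊢
  rw [cj_apply, ← hF]
  exact congrArg F.1 (Subtype.ext (by simp))

lemma cj_wt (hy : ∀ t, ∀ g ∈ H, nu y t * g * (nu y t)⁻¹ ∈ H) (F : Oo H) :
    F ∈ ⨆ d : ℤ, Wt (fun t => (cj hy t).toLinearMap) (ch k d) := by
  let c : kˣ →* Module.End k (Oo H) :=
    { toFun := fun t => (cj hy t).toLinearMap
      map_one' := LinearMap.ext fun F => O_ext fun g => congrArg F.1 (Subtype.ext (by simp))
      map_mul' := fun s t => LinearMap.ext fun F => O_ext fun g =>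
        congrArg F.1 (Subtype.ext (by simp [mul_comm s t, mul_assoc])) }
  let χ : ℤ → kˣ →* k := fun d => (Units.coeHom k).comp (zpowGroupHom d)
  have h := mem_iSup_wt (c := c) (S := range χ) (w := F) (fun G hG => by
    rw [← range_comp]; exact hG.exists_laurent)
    (IsReg.curryO (F := fun p : kˣ × H => F.1 ⟨nu y p.1 * p.2 * (nu y p.1)⁻¹, hy _ _ p.2.2⟩)
      ((isReg_coe F).comp (by fun_prop)) fun _ _ => rfl)
  refine (?_ : _ ≤ (⨆ d : ℤ, Wt (fun t => (cj hy t).toLinearMap) (ch k d))) h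
  refine iSup₂_le ?_
  rintro _ ⟨_, ⟨d, rfl⟩, rfl⟩
  exact le_iSup (fun d : ℤ => Wt (fun t => (cj hy t).toLinearMap) (ch k d)) d

/-- The entries of `g - 1`. -/
def ent (H : Subgroup (GL n k)) (a b : n) : Oo H :=
  IsReg.toO (F := fun g : H => g.1.val a b - (1 : Matrix n n k) a b) (by fun_prop)

lemma ent_apply (a b : n) (g : H) : (ent H a b).1 g = (g.1.val - 1) a b := rfl

lemma ent_mx (a b : n) : ent H a b ∈ mx (1 : H) := by
  rw [mem_mx, ent_apply]; simp

lemma cj_ent [LF k] (hy : ∀ t, ∀ g ∈ H, nu y t * g * (nu y t)⁻¹ ∈ H) (a b : n) (t : kˣ) :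
    cj hy t (ent H a b) = ch k (y a - y b) t • ent H a b := by
  refine O_ext fun g => ?_
  change (nu y t * g * (nu y t)⁻¹).val a b - (1 : Matrix n n k) a b =
    ch k (y a - y b) t * (g.1.val a b - (1 : Matrix n n k) a b)
  rw [nu_conj_apply]
  by_cases e : a = b
  · simp [e, ch]
  · simp [e, ch]

lemma surj_incl {K : Subgroup (GL n k)} (h : K ≤ H) :
    Surjective (pull (fun g : K => (⟨g.1, h g.2⟩ : H)) (by fun_prop)) := by
  intro G
  obtain ⟨F, hF, e⟩ := (isReg_coe G).exists_ext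
  exact ⟨IsReg.toO (F := fun g : H => F g.1) (by fun_prop), O_ext fun g => e g⟩

lemma exists_cut {Q : Subgroup (GL n k)} (hQ : ZClosed (Q : Set (GL n k))) :
    ∃ h : GL n k → k, IsReg h ∧ h 1 = 1 ∧ ∀ g ∈ Q, g ∉ idc Q → h g = 0 := by
  obtain ⟨s, hs, -, hcov⟩ := idc_finite hQ
  have hcl : ZClosed (⋃ x ∈ {x ∈ s | x ∉ idc Q}, (fun g => x⁻¹ * g) ⁻¹' (idc Q : Set (GL n k))) :=
    zclosed_biUnion (hs.subset fun x hx => hx.1) fun x _ =>
      (zclosed_idc hQ).preimage (by fun_prop)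
  obtain ⟨h, h1, h2, h3⟩ := hcl.exists_fun (x := 1) (by
    simp only [mem_iUnion, not_exists]
    intro x hx h
    exact hx.2 (by simpa using h))
  refine ⟨fun g => (h 1)⁻¹ * h g, by fun_prop, inv_mul_cancel₀ h3, fun g hg hg' => ?_⟩
  obtain ⟨x, hx, e⟩ := hcov g hg
  have hx' : x ∉ idc Q := fun h => hg' (by simpa using mul_mem h e)
  simp only [h2 g (mem_biUnion (show x ∈ {x ∈ s | x ∉ idc Q} from ⟨hx, hx'⟩) e), mul_zero]

end gl

end BigCellAux

open BigCellAux

variable {k : Type} [Field k] [IsAlgClosed k] [LF k] {n : Type} [Fintype n] [DecidableEq n]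
  {H : Subgroup (GL n k)} {y : n → ℤ}

theorem irr_inf_Uu (hc : ZClosed (H : Set (GL n k)))
    (hy : ∀ t, ∀ g ∈ H, nu y t * g * (nu y t)⁻¹ ∈ H) :
    Irr ((H ⊓ Uu y : Subgroup (GL n k)) : Set (GL n k)) := by
  refine irr_of_le_idc fun u hu => ?_
  have hp : u ∈ Pn y := Uu_le_Pn y hu.2
  have hreg : IsReg (fun t : k => cc y t u) := IsReg.cc isReg_id (isReg_const u) fun _ => hp
  refine ⟨_, Irr.range hreg irr_field, ?_, ⟨0, lev_Uu hu.2⟩, ⟨1, cc_one_left hp⟩⟩
  rintro _ ⟨t, rfl⟩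
  exact cc_mem (hc.inf (zclosed_Uu y)) hp (fun s => ⟨hy s u hu.1,
    conj_mem_Uu (Dn_le_Pn y (nu_mem_Dn y s)) hu.2⟩) t

theorem lev_mem (hc : ZClosed (H : Set (GL n k)))
    (hy : ∀ t, ∀ g ∈ H, nu y t * g * (nu y t)⁻¹ ∈ H) {g : GL n k} (hg : g ∈ H ⊓ Pn y) :
    lev y g ∈ H ⊓ Zn y :=
  ⟨cc_mem hc hg.2 (fun s => hy s g hg.1) 0, lev_mem_Zn hg.2⟩

theorem bigcell_dense (hc : ZClosed (H : Set (GL n k))) (hi : Irr (H : Set (GL n k)))
    (hy : ∀ t, ∀ g ∈ H, nu y t * g * (nu y t)⁻¹ ∈ H) :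
    (H : Set (GL n k)) ⊆ zcl {g | ∃ u ∈ H ⊓ Uu y, ∃ q ∈ H ⊓ Pn (-y), g = u * q} := by
  intro g0 hg0 F0 hF0 hvan
  let U : Subgroup (GL n k) := H ⊓ Uu y
  let Q' : Subgroup (GL n k) := H ⊓ Pn (-y)
  let Q : Subgroup (GL n k) := idc Q'
  have hQ' : ZClosed (Q' : Set (GL n k)) := hc.inf (zclosed_Pn _)
  have hUH : U ≤ H := inf_le_left
  have hQH : Q ≤ H := (idc_le _).trans inf_le_left
  have := hc.affSub
  have : Aff U := (hc.inf (zclosed_Uu y)).affSub
  have : Aff Q := (zclosed_idc hQ').affSub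
  obtain ⟨d, x, w, hx, hw, hind, hspan⟩ :=
    exists_cotangent_basis (Γ := H) (cj hy) (cj_mx hy) (ch k) (cj_wt hy)
  let μ : U × Q → H := fun p => ⟨p.1.1 * p.2.1, mul_mem (hUH p.1.2) (hQH p.2.2)⟩
  have hμ : IsReg μ := by fun_prop
  have h1 : μ 1 = 1 := Subtype.ext (by simp [μ])
  let F : Oo H := IsReg.toO (F := fun g : H => F0 g.1) (by fun_prop)
  have key : F = 0 := by
    refine eq_zero_of_indep hi.subgroup
      (Irr.prod_univ (irr_inf_Uu hc hy).subgroup (irr_idc Q').subgroup) μ hμ h1 x hx hspan ?_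
      (O_ext fun p => hvan _ ⟨p.1.1, p.1.2, p.2.1, idc_le _ p.2.2, rfl⟩)
    intro a ha
    funext i
    by_cases hpos : 0 < w i
    · have h2 := pull_mem_pow (fun u : U => ((u, 1) : U × Q)) (by fun_prop) (x := 1) rfl 2 ha
      obtain ⟨G, hG, hG'⟩ := exists_van _ _ (surj_incl hUH) (x := 1) (z := 1) rfl
        (l := ∑ i, a i • x i) (by
          convert h2 using 1
          exact O_ext fun u => congrArg (∑ i, a i • x i).1 (Subtype.ext (by simp [μ])))
      refine linear_part hi.subgroup (cj hy) (cj_mx hy) x w hx hw hind hspan (fun e => 0 < e)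
        (fun _ _ => add_pos) (fun g hg => ?_) hG' hpos
      refine hG ⟨g.1, g.2, mem_Uu.2 fun a b hab => ?_⟩
      exact hg _ (ent_mx a b) (y a - y b) (by omega) (cj_ent hy a b)
    · have h2 := pull_mem_pow (fun q : Q => ((1, q) : U × Q)) (by fun_prop) (x := 1) rfl 2 ha
      obtain ⟨G, hG, hG'⟩ := exists_van _ _ (surj_incl hQH) (x := 1) (z := 1) rfl
        (l := ∑ i, a i • x i) (by
          convert h2 using 1
          exact O_ext fun u => congrArg (∑ i, a i • x i).1 (Subtype.ext (by simp [μ])))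
      obtain ⟨h, hh, hh1, hh0⟩ := exists_cut hQ'
      let h' : Oo H := IsReg.toO (F := fun g : H => h g.1) (by fun_prop)
      have hG1 : G ∈ mx (1 : H) := mem_mx.2 (hG 1)
      have hh' : h' - 1 ∈ mx (1 : H) := mem_mx.2 (sub_eq_zero.2 hh1)
      have h3 : G * h' - ∑ i, a i • x i ∈ mx (1 : H) ^ 2 := by
        have : G * h' - ∑ i, a i • x i = G * (h' - 1) + (G - ∑ i, a i • x i) := by ring
        rw [this]
        exact add_mem (by rw [sq]; exact Ideal.mul_mem_mul hG1 hh') hG'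
      refine linear_part hi.subgroup (cj hy) (cj_mx hy) x w hx hw hind hspan (fun e => e ≤ 0)
        (fun _ _ => add_nonpos) (fun g hg => ?_) h3 (not_lt.1 hpos)
      have hg' : g.1 ∈ Q' := ⟨g.2, mem_Pn.2 fun a b hab => by
        simp only [Pi.neg_apply] at hab
        have h4 := hg _ (ent_mx a b) (y a - y b) (by omega) (cj_ent hy a b)
        have h5 : a ≠ b := fun e => by rw [e] at hab; omega
        simpa [ent_apply, h5] using h4⟩
      change G.1 g * h g.1 = 0
      by_cases e : g.1 ∈ Q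
      · rw [show G.1 g = 0 from hG ⟨g.1, e⟩, zero_mul]
      · rw [hh0 _ hg' e, mul_zero]
  exact congrArg (fun G : Oo H => G.1 ⟨g0, hg0⟩) key

theorem uu_mem_of (hc : ZClosed (H : Set (GL n k))) (hi : Irr (H : Set (GL n k)))
    (hy : ∀ t, ∀ g ∈ H, nu y t * g * (nu y t)⁻¹ ∈ H) {g : GL n k} (hg : g ∈ H)
    (h : Dl y g ≠ 0) : uu y g ∈ H := by
  refine Loc.mem_closed (δ := fun g : GL n k => Dl y g) (by fun_prop)
    (φ := fun z => uu y z.1.1) (IsReg.uu (e := fun z => z.1.2) (by fun_prop) (by fun_prop)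
      fun z => z.2) hc ?_ (Loc.mk' g h) (bigcell_dense hc hi hy hg)
  rintro z ⟨u, hu, q, hq, e⟩
  rw [e, uu_eq hu.2 hq.2]
  exact hu.1

omit [IsAlgClosed k] [LF k] in
theorem BigCellAux.neg_norm (hy : ∀ t, ∀ g ∈ H, nu y t * g * (nu y t)⁻¹ ∈ H) :
    ∀ t, ∀ g ∈ H, nu (-y) t * g * (nu (-y) t)⁻¹ ∈ H := fun t g hg => by
  rw [nu_neg, ← map_inv]; exact hy _ g hg

theorem exists_cell_decomp (hc : ZClosed (H : Set (GL n k))) (hi : Irr (H : Set (GL n k)))
    (hy : ∀ t, ∀ g ∈ H, nu y t * g * (nu y t)⁻¹ ∈ H) {g : GL n k} (hg : g ∈ H)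
    (h : Dl y g ≠ 0) : ∃ u ∈ H ⊓ Uu y, ∃ z ∈ H ⊓ Zn y, ∃ v ∈ H ⊓ Uu (-y), g = u * z * v := by
  have hu := uu_mem_of hc hi hy hg h
  have hq : (uu y g)⁻¹ * g ∈ H ⊓ Pn (-y) :=
    ⟨H.mul_mem (H.inv_mem hu) hg, uu_inv_mul_mem h⟩
  have hz := lev_mem hc (neg_norm hy) hq
  rw [Zn_neg] at hz
  exact ⟨_, ⟨hu, uu_mem y g⟩, _, hz, _,
    ⟨H.mul_mem (H.inv_mem hz.1) hq.1, lev_inv_mul_mem hq.2⟩, by simp [mul_assoc]⟩

theorem irr_inf_Zn (hc : ZClosed (H : Set (GL n k))) (hi : Irr (H : Set (GL n k)))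
    (hy : ∀ t, ∀ g ∈ H, nu y t * g * (nu y t)⁻¹ ∈ H) :
    Irr ((H ⊓ Zn y : Subgroup (GL n k)) : Set (GL n k)) := by
  have h1 : Irr (univ : Set (Loc (fun g : H => Dl y g.1))) :=
    Loc.irr hi.subgroup (by fun_prop) (x := 1) (by simp [Dl_one])
  have hu : IsReg (fun z : Loc (fun g : H => Dl y g.1) => uu y z.1.1.1) :=
    IsReg.uu (e := fun z => z.1.2) (by fun_prop) (by fun_prop) fun z => z.2
  have h2 := Irr.range (f := fun z : Loc (fun g : H => Dl y g.1) =>
    lev (-y) ((uu y z.1.1.1)⁻¹ * z.1.1.1))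
    (IsReg.lev (hu.inv.mul (by fun_prop)) fun z => uu_inv_mul_mem z.ne) h1
  convert h2 using 1
  ext g
  constructor
  · intro hg
    have hg' : g ∈ Pn (-y) := hg.2.2
    refine ⟨Loc.mk' ⟨g, hg.1⟩ (Dl_ne_zero' hg'), ?_⟩
    change lev (-y) ((uu y g)⁻¹ * g) = g
    have : uu y g = 1 := by simpa using uu_eq (one_mem (Uu y)) hg'
    rw [this, inv_one, one_mul, lev_of_Zn (by rw [Zn_neg]; exact hg.2)]
  · rintro ⟨z, rfl⟩
    have hz := lev_mem hc (neg_norm hy) (g := (uu y z.1.1.1)⁻¹ * z.1.1.1)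
      ⟨H.mul_mem (H.inv_mem (uu_mem_of hc hi hy z.1.1.2 z.ne)) z.1.1.2, uu_inv_mul_mem z.ne⟩
    rwa [Zn_neg] at hz

theorem irr_inf_Pn (hc : ZClosed (H : Set (GL n k))) (hi : Irr (H : Set (GL n k)))
    (hy : ∀ t, ∀ g ∈ H, nu y t * g * (nu y t)⁻¹ ∈ H) :
    Irr ((H ⊓ Pn y : Subgroup (GL n k)) : Set (GL n k)) := by
  have h := ((irr_inf_Uu hc hy).prod (irr_inf_Zn hc hi hy)).image
    (f := fun p : GL n k × GL n k => p.1 * p.2) (by fun_prop)
  convert h using 1
  ext g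
  constructor
  · intro hg
    have hz := lev_mem hc hy hg
    exact ⟨(g * (lev y g)⁻¹, lev y g),
      ⟨⟨H.mul_mem hg.1 (H.inv_mem hz.1), mul_lev_inv_mem hg.2⟩, hz⟩, by simp⟩
  · rintro ⟨p, ⟨h1, h2⟩, rfl⟩
    exact ⟨mul_mem h1.1 h2.1, mul_mem (Uu_le_Pn y h1.2) h2.2.1⟩

theorem le_of_cell (hc : ZClosed (H : Set (GL n k))) (hi : Irr (H : Set (GL n k)))
    (hy : ∀ t, ∀ g ∈ H, nu y t * g * (nu y t)⁻¹ ∈ H) {K : Subgroup (GL n k)}
    (h1 : H ⊓ Uu y ≤ K) (h2 : H ⊓ Zn y ≤ K) (h3 : H ⊓ Uu (-y) ≤ K) : H ≤ K := by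
  refine mul_dense_eq hi (δ := fun g => Dl y g) (by fun_prop) (by simp [Dl_one]) fun g hg h => ?_
  obtain ⟨u, hu, z, hz, v, hv, rfl⟩ := exists_cell_decomp hc hi hy hg h
  exact mul_mem (mul_mem (h1 hu) (h2 hz)) (h3 hv)

end ZipFG
end

-- merged part: Pool.Agent.Work.MP_5c492e_ag.Lat0
section
/-! Lattice lemmas: projections, generic points, Gordan's lemma. -/

namespace ZipFG

open Function Set Matrix

namespace Lat0Aux

variable {n : Type} [Fintype n] [DecidableEq n]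

theorem exists_mat (A : AddSubgroup (n → ℤ)) : ∃ (r : ℕ) (E : Matrix (Fin r) n ℤ),
    (∀ y, y ᵥ* E ∈ A) ∧ (∀ z ∈ A, ∃ y, z = y ᵥ* E) ∧ ∀ y, y ᵥ* E = 0 → y = 0 := by
  let N : Submodule ℤ (n → ℤ) := A.toIntSubmodule
  let b := Module.finBasis ℤ N
  have h : ∀ y : Fin (Module.finrank ℤ N) → ℤ,
      y ᵥ* (Matrix.of fun i j => (b i : n → ℤ) j) = ((∑ i, y i • b i : N) : n → ℤ) := by
    intro y
    ext j
    simp [Matrix.vecMul, dotProduct, Finset.sum_apply]
  refine ⟨_, Matrix.of fun i j => (b i : n → ℤ) j, fun y => ?_, fun z hz => ?_, fun y hy => ?_⟩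
  · rw [h]; exact (∑ i, y i • b i : N).2
  · refine ⟨b.repr ⟨z, hz⟩, ?_⟩
    rw [h, b.sum_repr]
  · rw [h] at hy
    have h2 : (∑ i, y i • b i : N) = 0 := Subtype.ext hy
    funext i
    exact Fintype.linearIndependent_iff.1 b.linearIndependent y h2 i

theorem avoid_eta (A : AddSubgroup (n → ℤ)) (F : Finset (n → ℤ)) :
    ∃ η ∈ A, ∀ a ∈ F, (∃ z ∈ A, a ⬝ᵥ z ≠ 0) → a ⬝ᵥ η ≠ 0 := by
  classical
  induction F using Finset.induction_on with
  | empty => exact ⟨0, A.zero_mem, by simp⟩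
  | insert a F _ ih =>
    obtain ⟨η, hη, h⟩ := ih
    by_cases ha : ∃ z ∈ A, a ⬝ᵥ z ≠ 0
    · obtain ⟨z, hz, haz⟩ := ha
      by_cases h0 : a ⬝ᵥ η = 0
      · set M : ℤ := (∑ b ∈ F, |b ⬝ᵥ z|) + 1 with hM
        refine ⟨M • η + z, A.add_mem (A.zsmul_mem hη M) hz, fun b hb hb2 => ?_⟩
        rw [dotProduct_add, dotProduct_smul, smul_eq_mul]
        rcases Finset.mem_insert.1 hb with rfl | hb
        · rw [h0]; simpa using haz
        · have h1 := h b hb hb2
          have h2 : |b ⬝ᵥ z| ≤ ∑ b ∈ F, |b ⬝ᵥ z| :=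
            Finset.single_le_sum (f := fun b => |b ⬝ᵥ z|) (fun _ _ => abs_nonneg _) hb
          have h3 := abs_lt.1 (show |b ⬝ᵥ z| < M by omega)
          intro h4
          rcases lt_or_gt_of_ne h1 with h5 | h5 <;> nlinarith [abs_nonneg (b ⬝ᵥ z)]
      · refine ⟨η, hη, fun b hb hb2 => ?_⟩
        rcases Finset.mem_insert.1 hb with rfl | hb
        · exact h0
        · exact h b hb hb2
    · refine ⟨η, hη, fun b hb hb2 => ?_⟩
      rcases Finset.mem_insert.1 hb with rfl | hb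
      · exact absurd hb2 ha
      · exact h b hb hb2

theorem sep_fin (M : ℕ) : ∀ (N : ℕ) (z : Fin N → ℤ), (∀ i, |z i| ≤ M) →
    ∑ i : Fin N, ((M : ℤ) + 2) ^ (i : ℕ) * z i = 0 → z = 0 := by
  intro N
  induction N with
  | zero => intro z _ _; funext i; exact i.elim0
  | succ N ih =>
    intro z hz h
    rw [Fin.sum_univ_succ] at h
    have h1 : ∑ i : Fin N, ((M : ℤ) + 2) ^ ((i.succ : Fin (N + 1)) : ℕ) * z i.succ =
        ((M : ℤ) + 2) * ∑ i : Fin N, ((M : ℤ) + 2) ^ (i : ℕ) * z i.succ := by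
      rw [Finset.mul_sum]
      refine Finset.sum_congr rfl fun i _ => ?_
      rw [Fin.val_succ, pow_succ]; ring
    rw [h1] at h
    simp only [Fin.val_zero, pow_zero, one_mul] at h
    set S := ∑ i : Fin N, ((M : ℤ) + 2) ^ (i : ℕ) * z i.succ with hS
    have h2 := abs_le.1 (hz 0)
    have hS0 : S = 0 := by
      by_contra hne
      rcases lt_or_gt_of_ne hne with h5 | h5 <;> nlinarith
    have h3 := ih (fun i => z i.succ) (fun i => hz _) hS0
    funext i
    refine Fin.cases ?_ (fun i => congrFun h3 i) i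
    rw [hS0] at h
    simpa using h

end Lat0Aux

section lattice
variable {n : Type} [Fintype n] [DecidableEq n]

theorem exists_proj_hom (A : AddSubgroup (n → ℤ)) :
    ∃ M : ℕ, 0 < M ∧ ∃ π : (n → ℤ) →+ (n → ℤ), ∀ a, π a ∈ A ∧ ∀ z ∈ A, π a ⬝ᵥ z = M * (a ⬝ᵥ z) := by
  obtain ⟨r, E, h1, h2, h3⟩ := Lat0Aux.exists_mat A
  set G : Matrix (Fin r) (Fin r) ℤ := E * Eᵀ with hG
  have hD : G.det ≠ 0 := by
    intro h
    obtain ⟨v, hv, hv0⟩ := Matrix.exists_vecMul_eq_zero_iff.2 h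
    apply hv
    apply h3
    rw [← dotProduct_self_eq_zero]
    have : (v ᵥ* G) ⬝ᵥ v = 0 := by rw [hv0]; simp
    rw [hG, ← Matrix.vecMul_vecMul, ← Matrix.dotProduct_mulVec, Matrix.mulVec_transpose] at this
    exact this
  refine ⟨G.det.natAbs, Int.natAbs_pos.2 hD,
    AddMonoidHom.mk' (fun a => (G.det.sign • ((E *ᵥ a) ᵥ* G.adjugate)) ᵥ* E) ?_, fun a => ?_⟩
  · intro a b
    simp only [Matrix.mulVec_add, Matrix.add_vecMul, smul_add]
  · refine ⟨h1 _, fun z hz => ?_⟩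
    obtain ⟨y, rfl⟩ := h2 z hz
    simp only [AddMonoidHom.mk'_apply]
    rw [← Matrix.mulVec_transpose E y, Matrix.dotProduct_mulVec, Matrix.vecMul_vecMul, ← hG,
      Matrix.smul_vecMul, Matrix.vecMul_vecMul, Matrix.adjugate_mul, Matrix.vecMul_smul,
      Matrix.vecMul_one, Matrix.dotProduct_mulVec, Matrix.vecMul_transpose, smul_smul,
      smul_dotProduct, smul_eq_mul, Int.sign_mul_self_eq_natAbs]

theorem exists_proj (A : AddSubgroup (n → ℤ)) (a : n → ℤ) :
    ∃ M : ℕ, 0 < M ∧ ∃ b ∈ A, ∀ z ∈ A, b ⬝ᵥ z = M * (a ⬝ᵥ z) := by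
  obtain ⟨M, hM, π, h⟩ := exists_proj_hom A
  exact ⟨M, hM, π a, (h a).1, (h a).2⟩

theorem exists_big (y0 η : n → ℤ) :
    ∃ M : ℕ, 0 < M ∧ ∀ i j, y0 j < y0 i → (M • y0 + η) j < (M • y0 + η) i := by
  refine ⟨2 * (∑ i, (η i).natAbs) + 1, by omega, fun i j h => ?_⟩
  have hb : ∀ i, |η i| ≤ ((∑ i, (η i).natAbs : ℕ) : ℤ) := by
    intro i
    have : (η i).natAbs ≤ ∑ i, (η i).natAbs :=
      Finset.single_le_sum (f := fun i => (η i).natAbs) (fun _ _ => Nat.zero_le _)
        (Finset.mem_univ i)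
    rw [← Int.natCast_natAbs]
    exact_mod_cast this
  have h1 := abs_le.1 (hb i)
  have h2 := abs_le.1 (hb j)
  rw [Pi.add_apply, Pi.add_apply, Pi.smul_apply, Pi.smul_apply, nsmul_eq_mul, nsmul_eq_mul]
  generalize (∑ i, (η i).natAbs) = S at *
  push_cast
  have h3 : (0 : ℤ) ≤ S := Int.natCast_nonneg S
  nlinarith

theorem exists_avoid (A : AddSubgroup (n → ℤ)) {F : Set (n → ℤ)} (hF : F.Finite) {y0 : n → ℤ}
    (hy0 : y0 ∈ A) : ∃ y ∈ A, ∀ a ∈ F, (0 < a ⬝ᵥ y0 → 0 < a ⬝ᵥ y) ∧ (a ⬝ᵥ y0 < 0 → a ⬝ᵥ y < 0) ∧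
      ((∃ z ∈ A, a ⬝ᵥ z ≠ 0) → a ⬝ᵥ y ≠ 0) := by
  obtain ⟨η, hη, h⟩ := Lat0Aux.avoid_eta A hF.toFinset
  set M : ℤ := (∑ b ∈ hF.toFinset, |b ⬝ᵥ η|) + 1 with hM
  refine ⟨M • y0 + η, A.add_mem (A.zsmul_mem hy0 M) hη, fun a ha => ?_⟩
  have ha' : a ∈ hF.toFinset := hF.mem_toFinset.2 ha
  have h2 : |a ⬝ᵥ η| ≤ ∑ b ∈ hF.toFinset, |b ⬝ᵥ η| :=
    Finset.single_le_sum (f := fun b => |b ⬝ᵥ η|) (fun _ _ => abs_nonneg _) ha'
  have h3 := abs_lt.1 (show |a ⬝ᵥ η| < M by omega)
  have h4 : 0 < M := by have := abs_nonneg (a ⬝ᵥ η); omega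
  rw [dotProduct_add, dotProduct_smul, smul_eq_mul]
  have p1 : 0 < a ⬝ᵥ y0 → 0 < M * (a ⬝ᵥ y0) + a ⬝ᵥ η := fun h5 => by nlinarith
  have p2 : a ⬝ᵥ y0 < 0 → M * (a ⬝ᵥ y0) + a ⬝ᵥ η < 0 := fun h5 => by nlinarith
  refine ⟨p1, p2, fun hz => ?_⟩
  rcases lt_trichotomy (a ⬝ᵥ y0) 0 with h5 | h5 | h5
  · exact (p2 h5).ne
  · rw [h5]; simpa using h a ha' hz
  · exact (p1 h5).ne'

/-- An injective vector separating all integer vectors of bounded size. -/
theorem exists_sep (M : ℕ) : ∃ l : n → ℤ, Injective l ∧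
    ∀ z : n → ℤ, (∀ i, |z i| ≤ M) → l ⬝ᵥ z = 0 → z = 0 := by
  let e := Fintype.equivFin n
  refine ⟨fun i => ((M : ℤ) + 2) ^ (e i : ℕ), fun i j h => ?_, fun z hz h => ?_⟩
  · have h1 : (1 : ℤ) < (M : ℤ) + 2 := by omega
    have h2 := pow_right_injective₀ (by omega) h1.ne' h
    exact e.injective (Fin.ext h2)
  · have h1 := Lat0Aux.sep_fin M _ (fun k => z (e.symm k)) (fun k => hz _) (by
      rw [← h, dotProduct, ← e.sum_comp]
      simp)
    funext i
    simpa using congrFun h1 (e i)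

/-- Gordan's lemma. -/
theorem gordan {F : Set ((n → ℤ) →+ ℤ)} (hF : F.Finite) :
    ∃ s : Set (n → ℤ), s.Finite ∧
      ∀ a : n → ℤ, (∀ φ ∈ F, 0 ≤ φ a) ↔ a ∈ AddSubmonoid.closure s := by
  classical
  haveI : Finite F := hF
  let p : (((n ⊕ n) ⊕ F) → ℕ) →+ (n → ℤ) :=
    { toFun := fun x i => (x (Sum.inl (Sum.inl i)) : ℤ) - x (Sum.inl (Sum.inr i))
      map_zero' := by funext i; simp
      map_add' := by intro x y; funext i; simp; ring }
  let P : AddSubmonoid (((n ⊕ n) ⊕ F) → ℕ) :=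
    { carrier := {x | ∀ φ : F, φ.1 (p x) = x (Sum.inr φ)}
      zero_mem' := by intro φ; simp
      add_mem' := by
        intro x y hx hy φ
        rw [map_add, map_add, hx φ, hy φ]; simp }
  have hP : P.FG := AddSubmonoid.fg_of_subtractive (by
    intro x hx y hxy φ
    have h1 := hxy φ
    rw [map_add, map_add, hx φ] at h1
    simpa using h1)
  obtain ⟨s, hs, hfin⟩ := (AddSubmonoid.fg_iff _).1 (hP.map p)
  refine ⟨s, hfin, fun a => ?_⟩
  rw [hs, AddSubmonoid.mem_map]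
  constructor
  · intro h
    have hp : p (Sum.elim (Sum.elim (fun i => (a i).toNat) (fun i => (-a i).toNat))
        (fun φ => (φ.1 a).toNat)) = a := by
      funext i
      simp [p]
    refine ⟨_, fun φ => ?_, hp⟩
    rw [hp]
    simp [h φ.1 φ.2]
  · rintro ⟨x, hx, rfl⟩ φ hφ
    rw [hx ⟨φ, hφ⟩]
    exact Int.natCast_nonneg _

end lattice

end ZipFG
end

-- merged part: Pool.Agent.Work.MP_5c492e_ag.Lat
section
/-! The cocharacter lattice of a diagonal torus, the action of the normaliser, walls. -/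

namespace ZipFG

open Function Set Matrix

variable {k : Type} [Field k] {n : Type} [Fintype n] [DecidableEq n]

lemma act_add (g : GL n k) (y z : n → ℤ) : act g (y + z) = act g y + act g z := rfl
lemma act_sub (g : GL n k) (y z : n → ℤ) : act g (y - z) = act g y - act g z := rfl
lemma act_neg (g : GL n k) (y : n → ℤ) : act g (-y) = -act g y := rfl
lemma act_nsmul (g : GL n k) (m : ℕ) (y : n → ℤ) : act g (m • y) = m • act g y := rfl
lemma act_zsmul (g : GL n k) (m : ℤ) (y : n → ℤ) : act g (m • y) = m • act g y := rfl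

lemma act_sum {ι : Type*} (g : GL n k) (s : Finset ι) (y : ι → n → ℤ) :
    act g (∑ i ∈ s, y i) = ∑ i ∈ s, act g (y i) := by
  ext j; simp [act]

theorem act_dot (g : GL n k) (a b : n → ℤ) : act g a ⬝ᵥ act g b = a ⬝ᵥ b := by
  unfold act dotProduct
  exact Equiv.sum_comp (pm g) (fun i => a i * b i)

variable [IsAlgClosed k] [LF k] {T : Subgroup (GL n k)}

namespace LatAux

/-- The difference of two coordinate forms. -/
def ee (i j : n) : n → ℤ := Pi.single i 1 - Pi.single j 1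

lemma ee_dot (i j : n) (y : n → ℤ) : ee i j ⬝ᵥ y = y i - y j := by
  simp [ee, sub_dotProduct]

lemma exists_lin {ι V : Type*} [AddCommGroup V] [Module k V] {v : ι → V}
    (hv : LinearIndependent k v) (φ : ι → k) : ∃ L : V →ₗ[k] k, ∀ i, L (v i) = φ i := by
  obtain ⟨L, hL⟩ := LinearMap.exists_extend ((Module.Basis.span hv).constr k φ)
  refine ⟨L, fun i => ?_⟩
  have := LinearMap.congr_fun hL (Module.Basis.span hv i)
  rw [Module.Basis.constr_basis, LinearMap.comp_apply, Submodule.subtype_apply,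
    Module.Basis.span_apply] at this
  exact this

/-- The characters trivial on `T`. -/
def X0 (hT : T ≤ Dn) : AddSubgroup (n → ℤ) where
  carrier := {c | ∀ t ∈ T, eps c t = 1}
  add_mem' ha hb t ht := by rw [eps_add _ _ (hT ht), ha t ht, hb t ht, one_mul]
  zero_mem' t _ := eps_zero t
  neg_mem' ha t ht := by rw [eps_neg, ha t ht, inv_one]

lemma mem_Yl_of_perp (hT : Tor T) {z : n → ℤ} (hz : ∀ c ∈ X0 hT.le, c ⬝ᵥ z = 0) : z ∈ Yl T := by
  classical
  intro t0
  refine hT.cl fun F hF h0 => ?_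
  obtain ⟨L, hL⟩ := exists_lin (linearIndependent_monoidHom T k)
    (fun χ => if h : ∃ a, epsHom hT.le a = χ then (t0 : k) ^ (h.choose ⬝ᵥ z) else 0)
  have key : ∀ G ∈ Submodule.span k ((fun χ : (Dn : Subgroup (GL n k)) →* k =>
      (χ : ↥(Dn : Subgroup (GL n k)) → k)) '' range (epsHom le_rfl)),
      G ⟨nu z t0, nu_mem_Dn z t0⟩ = L (fun t : T => G ⟨t.1, hT.le t.2⟩) := by
    intro G hG
    induction hG using Submodule.span_induction with
    | mem G hG =>
      obtain ⟨_, ⟨a, rfl⟩, rfl⟩ := hG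
      have hex : ∃ a', epsHom hT.le a' = epsHom hT.le a := ⟨a, rfl⟩
      have h1 := hL (epsHom hT.le a)
      rw [dif_pos hex] at h1
      have h2 : hex.choose - a ∈ X0 hT.le := by
        intro t ht
        have h3 : eps hex.choose t = eps a t := DFunLike.congr_fun hex.choose_spec ⟨t, ht⟩
        rw [eps_sub _ _ (hT.le ht), h3, mul_inv_cancel₀ (eps_ne_zero a (hT.le ht))]
      have h4 := hz _ h2
      rw [sub_dotProduct, sub_eq_zero] at h4
      rw [h4, ← eps_nu] at h1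
      exact h1.symm
    | zero => exact (map_zero L).symm
    | add G G' _ _ h h' => exact (congrArg₂ (· + ·) h h').trans (map_add L _ _).symm
    | smul c G _ h => exact (congrArg (c • ·) h).trans (map_smul L c _).symm
  have h5 := key (fun d : (Dn : Subgroup (GL n k)) => F d) (span_eps le_rfl _ (hF.comp isReg_val))
  rw [h5, ← map_zero L]
  exact congrArg L (funext fun t => h0 _ t.2)

lemma nu_inj {y y' : n → ℤ} (h : ∀ t : kˣ, nu y t = nu y' t) : y = y' := by
  funext i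
  refine zpow_inj_units (k := k) fun t => ?_
  rw [← nu_apply, h t, nu_apply]

lemma conj_inv {g : GL n k} {y y' : n → ℤ} (h : ∀ t, g * nu y t * g⁻¹ = nu y' t) :
    ∀ t, g⁻¹ * nu y' t * g⁻¹⁻¹ = nu y t := by
  intro t
  rw [← h t]; group

lemma conj_wt {g : GL n k} {y y' : n → ℤ} (h : ∀ t, g * nu y t * g⁻¹ = nu y' t) {a c : n}
    (hac : g.val a c ≠ 0) : y' a = y c := by
  refine zpow_inj_units (k := k) fun t => ?_
  have e : nu y' t * g = g * nu y t := by rw [← h t]; group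
  have e2 : (nu y' t * g).val a c = (g * nu y t).val a c := by rw [e]
  rw [Units.val_mul, Units.val_mul, Dn_mul_apply (nu_mem_Dn _ _), mul_Dn_apply (nu_mem_Dn _ _),
    nu_apply, nu_apply, mul_comm] at e2
  exact mul_left_cancel₀ hac e2

lemma conj_NN {g : GL n k} {y y' : n → ℤ} (h : ∀ t, g * nu y t * g⁻¹ = nu y' t) {r : ℤ}
    {A : Matrix n n k} (hA : A ∈ NN y r) : g.val * A * (g⁻¹).val ∈ NN y' r := by
  refine mem_NN.2 fun a b hab => ?_
  rw [Matrix.mul_apply]
  refine Finset.sum_eq_zero fun d _ => ?_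
  by_cases hd : (g⁻¹).val d b = 0
  · rw [hd, mul_zero]
  rw [Matrix.mul_apply, Finset.sum_eq_zero, zero_mul]
  intro c _
  by_cases hc : g.val a c = 0
  · rw [hc, zero_mul]
  rw [mem_NN.1 hA c d (by rw [← conj_wt h hc, conj_wt (conj_inv h) hd]; exact hab), mul_zero]

lemma act_ker {y0 : n → ℤ} {a b : n}
    (hr : ∀ i j, y0 i = y0 j → ∀ z ∈ Yl T, z a = z b → z i = z j) {w : GL n k}
    (hw0 : w ∈ Zn y0) : ∀ z ∈ Yl T, z a = z b → act w z = z := by
  intro z hz hab
  funext i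
  refine (hr i (pm w i) ?_ z hz hab).symm
  by_contra hne
  exact pm_ne w i (mem_Zn.1 hw0 _ _ hne)

end LatAux

theorem dot_eq_of_eps {a b : n → ℤ} (h : ∀ t ∈ T, eps a t = eps b t) :
    ∀ z ∈ Yl T, a ⬝ᵥ z = b ⬝ᵥ z := by
  intro z hz
  refine zpow_inj_units (k := k) fun t => ?_
  rw [← eps_nu, ← eps_nu]
  exact h _ (hz t)

theorem Tor.eps_eq (hT : Tor T) {a b : n → ℤ} (h : ∀ z ∈ Yl T, a ⬝ᵥ z = b ⬝ᵥ z) :
    ∀ t ∈ T, eps a t = eps b t := by
  obtain ⟨M, hM, b', hb', hb⟩ := exists_proj (LatAux.X0 hT.le) (a - b)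
  have hperp : ∀ c ∈ LatAux.X0 hT.le, c ⬝ᵥ (M • (a - b) - b') = 0 := by
    intro c hc
    rw [dotProduct_comm, sub_dotProduct, hb c hc, smul_dotProduct]
    simp
  have hw := LatAux.mem_Yl_of_perp hT hperp
  have hww : (M • (a - b) - b') ⬝ᵥ (M • (a - b) - b') = 0 := by
    rw [sub_dotProduct (M • (a - b)) b', hperp b' hb', smul_dotProduct, sub_dotProduct a b,
      h _ hw]
    simp
  have h0 : M • (a - b) = b' := sub_eq_zero.1 (dotProduct_self_eq_zero.1 hww)
  intro t ht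
  have hreg : IsReg (fun s : T => eps (a - b) (s : GL n k)) :=
    IsReg.eps _ isReg_val (fun x => hT.le x.2)
  have h1 := (Irr.subgroup hT.irr).eq_one_of_pow hreg hM.ne' (fun x _ => by
    rw [← eps_nsmul, h0]; exact hb' _ x.2) (mem_univ ⟨t, ht⟩) (mem_univ 1)
  simp only [OneMemClass.coe_one, eps_one] at h1
  rw [eps_sub a b (hT.le ht)] at h1
  exact (mul_inv_eq_one₀ (eps_ne_zero b (hT.le ht))).1 h1

theorem exists_gen {F : Set (n → ℤ)} (hF : F.Finite) {y0 : n → ℤ} (hy0 : y0 ∈ Yl T) :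
    ∃ y, Gen T y ∧ (∀ i j, y0 j < y0 i → y j < y i) ∧
      ∀ a ∈ F, (∃ z ∈ Yl T, a ⬝ᵥ z ≠ 0) → a ⬝ᵥ y ≠ 0 := by
  obtain ⟨y, hy, h⟩ := exists_avoid (Yl T)
    (hF.union (finite_range fun p : n × n => LatAux.ee p.1 p.2)) hy0
  refine ⟨y, ⟨hy, fun i j e z hz => ?_⟩, fun i j e => ?_, fun a ha => (h a (Or.inl ha)).2.2⟩
  · by_contra hne
    refine (h _ (Or.inr ⟨(i, j), rfl⟩)).2.2 ⟨z, hz, ?_⟩ ?_
    · rw [LatAux.ee_dot]; exact sub_ne_zero.2 hne
    · rw [LatAux.ee_dot]; exact sub_eq_zero.2 e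
  · have := (h _ (Or.inr ⟨(i, j), rfl⟩)).1 (by rw [LatAux.ee_dot]; exact sub_pos.2 e)
    rw [LatAux.ee_dot] at this
    exact sub_pos.1 this

theorem exists_wall_point (T : Subgroup (GL n k)) (a b : n) : ∃ y0 ∈ Yl T, y0 a = y0 b ∧
    ∀ i j, y0 i = y0 j → ∀ z ∈ Yl T, z a = z b → z i = z j := by
  let A : AddSubgroup (n → ℤ) :=
    { carrier := {z | z ∈ Yl T ∧ z a = z b}
      add_mem' := fun hx hy => ⟨add_mem hx.1 hy.1, by simp [hx.2, hy.2]⟩
      zero_mem' := ⟨zero_mem _, rfl⟩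
      neg_mem' := fun hx => ⟨neg_mem hx.1, by simp [hx.2]⟩ }
  obtain ⟨y, hy, h⟩ := exists_avoid A (finite_range fun p : n × n => LatAux.ee p.1 p.2)
    (zero_mem A)
  refine ⟨y, hy.1, hy.2, fun i j e z hz hab => ?_⟩
  by_contra hne
  refine (h _ ⟨(i, j), rfl⟩).2.2 ⟨z, ⟨hz, hab⟩, ?_⟩ ?_
  · rw [LatAux.ee_dot]; exact sub_ne_zero.2 hne
  · rw [LatAux.ee_dot]; exact sub_eq_zero.2 e

theorem Gen.mem_Zn_iff (hT : Tor T) {y : n → ℤ} (hy : Gen T y) {g : GL n k} :
    g ∈ Zn y ↔ ∀ t ∈ T, t * g = g * t := by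
  constructor
  · intro hg t ht
    refine Units.ext (Matrix.ext fun a b => ?_)
    rw [Units.val_mul, Units.val_mul, Dn_mul_apply (hT.le ht), mul_Dn_apply (hT.le ht)]
    by_cases hab : y a = y b
    · have := hT.eps_eq (a := Pi.single a 1) (b := Pi.single b 1)
        (fun z hz => by simpa using hy.2 a b hab z hz) t ht
      rw [eps_single, eps_single] at this
      rw [this, mul_comm]
    · rw [mem_Zn.1 hg a b hab, mul_zero, zero_mul]
  · intro h
    exact mem_Zn_iff_comm.2 fun t => h _ (hy.1 t)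

theorem exists_nu (μ : kˣ →* GL n k) (hμ : IsReg μ) (h : ∀ t, μ t ∈ Dn) :
    ∃ y : n → ℤ, ∀ t, μ t = nu y t := by
  have key : ∀ i, ∃ d : ℤ, ∀ t : kˣ, (μ t).val i i = (t : k) ^ d := by
    intro i
    let χ : kˣ →* k :=
      { toFun := fun t => (μ t).val i i
        map_one' := by simp
        map_mul' := fun s t => by rw [map_mul, Units.val_mul, Dn_mul_apply (h s)] }
    let ψ : ℤ → (kˣ →* k) := fun d => (Units.coeHom k).comp (zpowGroupHom d)
    have hreg : IsReg (fun t : kˣ => (μ t).val i i) := IsReg.gl_entry hμ i i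
    have h1 := hreg.exists_laurent
    by_contra hne
    refine (linearIndependent_monoidHom kˣ k).notMem_span_image (s := range ψ) (x := χ) ?_ ?_
    · rintro ⟨d, hd⟩
      refine hne ⟨d, fun t => ?_⟩
      have := DFunLike.congr_fun hd t
      simpa [ψ, χ] using this.symm
    · rw [← range_comp]
      exact h1
  choose y hy using key
  exact ⟨y, fun t => Dn_ext (h t) (nu_mem_Dn y t) fun i => by rw [hy, nu_apply]⟩

theorem exists_eps (hT : T ≤ Dn) (χ : T →* k) (hχ : IsReg χ) :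
    ∃ a : n → ℤ, ∀ t : T, χ t = eps a t := by
  by_contra hne
  refine (linearIndependent_monoidHom T k).notMem_span_image (s := range (epsHom hT)) (x := χ) ?_
    (span_eps hT χ hχ)
  rintro ⟨a, ha⟩
  exact hne ⟨a, fun t => (DFunLike.congr_fun ha t).symm⟩

theorem conj_apply {g t : GL n k} (ht : t ∈ Dn) (h : g * t * g⁻¹ ∈ Dn) (i : n) :
    (g * t * g⁻¹).val i i = t.val (pm g i) (pm g i) := by
  have e : (g * t * g⁻¹) * g = g * t := by group
  have e2 : ((g * t * g⁻¹) * g).val i (pm g i) = (g * t).val i (pm g i) := by rw [e]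
  rw [Units.val_mul (g * t * g⁻¹) g, Units.val_mul g t, Dn_mul_apply h, mul_Dn_apply ht,
    mul_comm] at e2
  exact mul_left_cancel₀ (pm_ne g i) e2

theorem conj_nu {g : GL n k} {y : n → ℤ} (h : ∀ t, g * nu y t * g⁻¹ ∈ Dn) (t : kˣ) :
    g * nu y t * g⁻¹ = nu (act g y) t := by
  refine Dn_ext (h t) (nu_mem_Dn _ t) fun i => ?_
  rw [conj_apply (nu_mem_Dn y t) (h t), nu_apply, nu_apply]
  rfl

theorem eps_conj (a : n → ℤ) {g t : GL n k} (ht : t ∈ Dn) (h : g⁻¹ * t * g ∈ Dn) :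
    eps a (g⁻¹ * t * g) = eps (act g a) t := by
  have e : g * (g⁻¹ * t * g) * g⁻¹ = t := by group
  have h2 := fun i => conj_apply h (by rw [e]; exact ht) i (g := g)
  rw [e] at h2
  unfold eps act
  simp only [h2]
  exact (Equiv.prod_comp (pm g) (fun i => (g⁻¹ * t * g).val i i ^ a i)).symm

theorem conj_Pn {g : GL n k} {y y' : n → ℤ} (h : ∀ t, g * nu y t * g⁻¹ = nu y' t) {x : GL n k} :
    g * x * g⁻¹ ∈ Pn y' ↔ x ∈ Pn y := by
  constructor
  · intro hx
    have := LatAux.conj_NN (LatAux.conj_inv h) (mem_Pn.1 hx)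
    rw [← Units.val_mul, ← Units.val_mul, show g⁻¹ * (g * x * g⁻¹) * g⁻¹⁻¹ = x by group] at this
    exact mem_Pn.2 this
  · intro hx
    exact mem_Pn.2 (LatAux.conj_NN h (mem_Pn.1 hx))

theorem conj_Uu {g : GL n k} {y y' : n → ℤ} (h : ∀ t, g * nu y t * g⁻¹ = nu y' t) {x : GL n k} :
    g * x * g⁻¹ ∈ Uu y' ↔ x ∈ Uu y := by
  have key : ∀ {g : GL n k} {y y' : n → ℤ}, (∀ t, g * nu y t * g⁻¹ = nu y' t) → ∀ {x : GL n k},
      x ∈ Uu y → g * x * g⁻¹ ∈ Uu y' := by
    intro g y y' h x hx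
    have := LatAux.conj_NN h (mem_Uu.1 hx)
    rw [mul_sub, sub_mul, mul_one, ← Units.val_mul g g⁻¹, mul_inv_cancel, Units.val_one] at this
    exact mem_Uu.2 this
  constructor
  · intro hx
    have := key (LatAux.conj_inv h) hx
    rwa [show g⁻¹ * (g * x * g⁻¹) * g⁻¹⁻¹ = x by group] at this
  · exact key h

theorem conj_Zn {g : GL n k} {y y' : n → ℤ} (h : ∀ t, g * nu y t * g⁻¹ = nu y' t) {x : GL n k} :
    g * x * g⁻¹ ∈ Zn y' ↔ x ∈ Zn y := by
  have h' : ∀ t, g * nu (-y) t * g⁻¹ = nu (-y') t := by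
    intro t
    rw [nu_neg, nu_neg, ← h t]; group
  unfold Zn
  rw [Subgroup.mem_inf, Subgroup.mem_inf, conj_Pn h, conj_Pn h']

theorem Nm_conj_nu (hT : T ≤ Dn) {g : GL n k} (hg : g ∈ Nm T) {y : n → ℤ} (hy : y ∈ Yl T)
    (t : kˣ) : g * nu y t * g⁻¹ = nu (act g y) t := by
  exact conj_nu (fun t => hT (mem_Nm.1 hg _ (hy t))) t

theorem act_mem (hT : T ≤ Dn) {g : GL n k} (hg : g ∈ Nm T) {y : n → ℤ} (hy : y ∈ Yl T) :
    act g y ∈ Yl T := by
  intro t
  rw [← Nm_conj_nu hT hg hy]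
  exact mem_Nm.1 hg _ (hy t)

theorem act_mul (hT : T ≤ Dn) {g h : GL n k} (hg : g ∈ Nm T) (hh : h ∈ Nm T) {y : n → ℤ}
    (hy : y ∈ Yl T) : act (g * h) y = act g (act h y) := by
  refine LatAux.nu_inj (k := k) fun t => ?_
  rw [← Nm_conj_nu hT (mul_mem hg hh) hy, ← Nm_conj_nu hT hg (act_mem hT hh hy),
    ← Nm_conj_nu hT hh hy]
  group

theorem act_eq_iff (hT : T ≤ Dn) {g : GL n k} (hg : g ∈ Nm T) {y : n → ℤ} (hy : y ∈ Yl T) :
    act g y = y ↔ g ∈ Zn y := by
  rw [mem_Zn_iff_comm]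
  constructor
  · intro h t
    have := Nm_conj_nu hT hg hy t
    rw [h] at this
    rw [← this]
    nth_rewrite 2 [this]
    group
  · intro h
    refine LatAux.nu_inj (k := k) fun t => ?_
    rw [← Nm_conj_nu hT hg hy, ← h t]
    group

theorem act_inv_act (hT : T ≤ Dn) {g : GL n k} (hg : g ∈ Nm T) {y : n → ℤ} (hy : y ∈ Yl T) :
    act g⁻¹ (act g y) = y := by
  rw [← act_mul hT (inv_mem hg) hg hy, inv_mul_cancel]
  exact (act_eq_iff hT (one_mem _) hy).2 (one_mem _)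

theorem act_act_inv (hT : T ≤ Dn) {g : GL n k} (hg : g ∈ Nm T) {y : n → ℤ} (hy : y ∈ Yl T) :
    act g (act g⁻¹ y) = y := by
  rw [← act_mul hT hg (inv_mem hg) hy, mul_inv_cancel]
  exact (act_eq_iff hT (one_mem _) hy).2 (one_mem _)

theorem Gen.act (hT : T ≤ Dn) {g : GL n k} (hg : g ∈ Nm T) {y : n → ℤ} (hy : Gen T y) :
    Gen T (act g y) := by
  refine ⟨act_mem hT hg hy.1, fun i j e z hz => ?_⟩
  have h1 := hy.2 _ _ e _ (act_mem hT (inv_mem hg) hz)
  have h2 := act_act_inv hT hg hz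
  rw [← h2]
  exact h1

theorem le_Nm (hT : T ≤ Dn) : T ≤ Nm T := by
  intro t ht
  exact mem_Nm.2 fun s hs => mul_mem (mul_mem ht hs) (inv_mem ht)

/-- A connected group normalising a diagonal group centralises it. -/
theorem Irr.comm_of_le_Nm (hT : T ≤ Dn) {H : Subgroup (GL n k)} (hH : Irr (H : Set (GL n k)))
    (h : H ≤ Nm T) : ∀ g ∈ H, ∀ t ∈ T, t * g = g * t := by
  intro g hg t ht
  have e : g * t * g⁻¹ = t := by
    refine Dn_ext (hT (mem_Nm.1 (h hg) t ht)) (hT ht) fun i => ?_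
    have hreg : IsReg (fun x : GL n k => (x * t * x⁻¹).val i i) :=
      IsReg.gl_entry (by fun_prop) i i
    have hfin : ((fun x : GL n k => (x * t * x⁻¹).val i i) '' (H : Set (GL n k))).Finite := by
      refine (finite_range fun j => t.val j j).subset ?_
      rintro _ ⟨x, hx, rfl⟩
      exact ⟨pm x i, (conj_apply (hT ht) (hT (mem_Nm.1 (h hx) t ht)) i).symm⟩
    have := hH.const_of_finite hreg hfin hg H.one_mem
    simpa using this
  nth_rewrite 1 [← e]
  group

/-- Proportionality of the forms vanishing at a general point of a wall. -/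
theorem wall_prop {y0 : n → ℤ} {a b : n}
    (hr : ∀ i j, y0 i = y0 j → ∀ z ∈ Yl T, z a = z b → z i = z j) {i j : n} (hij : y0 i = y0 j)
    {z z' : n → ℤ} (hz : z ∈ Yl T) (hz' : z' ∈ Yl T) :
    (z a - z b) * (z' i - z' j) = (z' a - z' b) * (z i - z j) := by
  have hw : (z' a - z' b) • z - (z a - z b) • z' ∈ Yl T :=
    sub_mem (zsmul_mem hz _) (zsmul_mem hz' _)
  have := hr i j hij _ hw (by simp only [Pi.sub_apply, Pi.smul_apply, smul_eq_mul]; ring)
  simp only [Pi.sub_apply, Pi.smul_apply, smul_eq_mul] at this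
  linear_combination (-1 : ℤ) * this

theorem rk1_dichotomy (hT : T ≤ Dn) {y0 : n → ℤ} {a b : n}
    (hr : ∀ i j, y0 i = y0 j → ∀ z ∈ Yl T, z a = z b → z i = z j) {w : GL n k}
    (hw : w ∈ Nm T) (hw0 : w ∈ Zn y0) :
    (∀ z ∈ Yl T, act w z = z) ∨ (∀ z ∈ Yl T, act w z a - act w z b = -(z a - z b)) := by
  have hker := LatAux.act_ker hr hw0
  by_cases h0 : ∀ z ∈ Yl T, z a = z b
  · exact Or.inl fun z hz => hker z hz (h0 z hz)
  push Not at h0
  obtain ⟨z0, hz0, hne⟩ := h0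
  have hne' : z0 a - z0 b ≠ 0 := sub_ne_zero.2 hne
  have key : ∀ z ∈ Yl T, ∀ i,
      (z0 a - z0 b) * (act w z i - z i) = (z a - z b) * (act w z0 i - z0 i) := by
    intro z hz i
    have hu : (z0 a - z0 b) • z - (z a - z b) • z0 ∈ Yl T :=
      sub_mem (zsmul_mem hz _) (zsmul_mem hz0 _)
    have h1 := congrFun (hker _ hu
      (by simp only [Pi.sub_apply, Pi.smul_apply, smul_eq_mul]; ring)) i
    rw [act_sub, act_zsmul, act_zsmul] at h1
    simp only [Pi.sub_apply, Pi.smul_apply, smul_eq_mul] at h1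
    linear_combination h1
  obtain ⟨v, hv⟩ : ∃ v, v = act w z0 - z0 := ⟨_, rfl⟩
  have hvi : ∀ i, act w z0 i - z0 i = v i := fun i => by rw [hv]; rfl
  have hvm : v ∈ Yl T := hv ▸ sub_mem (act_mem hT hw hz0) hz0
  simp only [hvi] at key
  by_cases hv0 : v = 0
  · refine Or.inl fun z hz => funext fun i => ?_
    have := key z hz i
    rw [hv0, Pi.zero_apply, mul_zero] at this
    exact sub_eq_zero.1 ((mul_eq_zero.1 this).resolve_left hne')
  have hvv : v ⬝ᵥ v ≠ 0 := fun e => hv0 (dotProduct_self_eq_zero.1 e)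
  have hfv : v a - v b ≠ 0 := by
    intro e
    apply hvv
    have h1 := act_dot w z0 v
    rw [hker v hvm (sub_eq_zero.1 e)] at h1
    nth_rewrite 1 [hv]
    rw [sub_dotProduct, h1, sub_self]
  have h2 : (z0 a - z0 b) • act w v = (z0 a - z0 b + (v a - v b)) • v := by
    funext i
    simp only [Pi.smul_apply, smul_eq_mul]
    linear_combination key v hvm i
  have h3 : (z0 a - z0 b) ^ 2 * (v ⬝ᵥ v) = (z0 a - z0 b + (v a - v b)) ^ 2 * (v ⬝ᵥ v) := by
    have := congrArg (fun x => x ⬝ᵥ x) h2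
    simp only [smul_dotProduct, dotProduct_smul, smul_eq_mul, act_dot] at this
    linear_combination this
  have h4 := mul_right_cancel₀ hvv h3
  have h5 : (v a - v b) * ((v a - v b) + 2 * (z0 a - z0 b)) = 0 := by linear_combination -h4
  have h6 := (mul_eq_zero.1 h5).resolve_left hfv
  refine Or.inr fun z hz => mul_left_cancel₀ hne' ?_
  linear_combination key z hz a - key z hz b + (z a - z b) * h6

theorem rk1_two (hT : T ≤ Dn) {y0 : n → ℤ} {a b : n}
    (hr : ∀ i j, y0 i = y0 j → ∀ z ∈ Yl T, z a = z b → z i = z j) {w w' : GL n k}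
    (hw : w ∈ Nm T) (hw0 : w ∈ Zn y0) (hw' : w' ∈ Nm T) (hw0' : w' ∈ Zn y0)
    (h : ∀ z ∈ Yl T, act w z a - act w z b = -(z a - z b))
    (h' : ∀ z ∈ Yl T, act w' z a - act w' z b = -(z a - z b)) :
    ∀ z ∈ Yl T, act (w⁻¹ * w') z = z := by
  have hm : w⁻¹ * w' ∈ Nm T := mul_mem (inv_mem hw) hw'
  have hm0 : w⁻¹ * w' ∈ Zn y0 := mul_mem (inv_mem hw0) hw0'
  rcases rk1_dichotomy hT hr hm hm0 with h1 | h1
  · exact h1
  · intro z hz
    refine LatAux.act_ker hr hm0 z hz ?_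
    have h2 := h _ (act_mem hT hm hz)
    rw [← act_mul hT hw hm hz, mul_inv_cancel_left, h' z hz, h1 z hz] at h2
    omega

/-- Transport of walls. -/
theorem Wall.act (hT : T ≤ Dn) {g : GL n k} (hg : g ∈ Nm T) {y1 y0 : n → ℤ} {a b : n}
    (h : Wall T y1 y0 a b) :
    Wall T (act g y1) (act g y0) ((pm g).symm a) ((pm g).symm b) := by
  refine ⟨h.gen.act hT hg, act_mem hT hg h.mem, ?_, ?_, fun i j e => h.clos _ _ e,
    fun i j e z hz hab => ?_⟩
  · simpa [ZipFG.act] using h.pos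
  · simpa [ZipFG.act] using h.zero
  · have h2 := act_act_inv hT hg hz
    rw [← h2] at hab ⊢
    exact h.rank _ _ e _ (act_mem hT (inv_mem hg) hz) (by simpa [ZipFG.act] using hab)

/-- Walking from one chamber to another through general points of walls. -/
theorem walk (P : (n → ℤ) → Prop) {y y' : n → ℤ} (hy : Gen T y) (hy' : Gen T y') (h0 : P y)
    (hsame : ∀ y1 y2, Gen T y1 → Gen T y2 → (∀ i j, y1 j < y1 i ↔ y2 j < y2 i) → P y1 → P y2)
    (hstep : ∀ y1 y0 y2 a b, Wall T y1 y0 a b → Wall T y2 y0 b a → y' a < y' b → P y1 → P y2) :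
    P y' := by
  classical
  suffices H : ∀ N : ℕ, ∀ y, Gen T y → P y →
      (Finset.univ.filter fun p : n × n => y p.2 < y p.1 ∧ y' p.1 < y' p.2).card = N → P y' from
    H _ y hy h0 rfl
  intro N
  induction N using Nat.strong_induction_on with
  | _ N ih =>
  intro y hy h0 hN
  obtain ⟨y1, hy1, hlt, hav⟩ := exists_gen (T := T) (finite_range fun q : (n × n) × (n × n) =>
    (y' q.2.1 - y' q.2.2) • LatAux.ee q.1.1 q.1.2 - (y' q.1.1 - y' q.1.2) • LatAux.ee q.2.1 q.2.2)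
    hy.1
  have hiff : ∀ i j, y j < y i ↔ y1 j < y1 i := by
    refine fun i j => ⟨hlt i j, fun e => ?_⟩
    rcases lt_trichotomy (y j) (y i) with h | h | h
    · exact h
    · exact absurd (hy.2 _ _ h _ hy1.1) e.ne
    · exact absurd (hlt _ _ h) (not_lt.2 e.le)
  have h1 : P y1 := hsame y y1 hy hy1 hiff h0
  simp only [hiff] at hN
  rcases (Finset.univ.filter fun p : n × n => y1 p.2 < y1 p.1 ∧ y' p.1 < y' p.2).eq_empty_or_nonempty
    with he | hne
  · have he' : ∀ i j, y1 j < y1 i → ¬ y' i < y' j := by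
      intro i j e e'
      exact Finset.eq_empty_iff_forall_notMem.1 he (i, j) (by simp [e, e'])
    refine hsame y1 y' hy1 hy' (fun i j => ⟨fun e => ?_, fun e => ?_⟩) h1
    · rcases lt_trichotomy (y' j) (y' i) with h | h | h
      · exact h
      · exact absurd (hy'.2 _ _ h _ hy1.1) e.ne
      · exact absurd h (he' _ _ e)
    · rcases lt_trichotomy (y1 j) (y1 i) with h | h | h
      · exact h
      · exact absurd (hy1.2 _ _ h _ hy'.1) e.ne
      · exact absurd e (he' _ _ h)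
  obtain ⟨⟨a, b⟩, hab, hmin⟩ := Finset.exists_min_image _
    (fun p : n × n => ((y1 p.1 - y1 p.2 : ℤ) : ℚ) / ((y' p.2 - y' p.1 : ℤ) : ℚ)) hne
  simp only [Finset.mem_filter, Finset.mem_univ, true_and] at hab hmin
  obtain ⟨hab1, hab2⟩ := hab
  have hmin' : ∀ i j, y1 j < y1 i → y' i < y' j →
      (y1 a - y1 b) * (y' j - y' i) ≤ (y1 i - y1 j) * (y' b - y' a) := by
    intro i j e e'
    have := hmin (i, j) ⟨e, e'⟩
    rw [div_le_div_iff₀ (by exact_mod_cast sub_pos.2 hab2) (by exact_mod_cast sub_pos.2 e')] at this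
    exact_mod_cast this
  obtain ⟨y0, hy0⟩ : ∃ y0, y0 = (y' b - y' a) • y1 + (y1 a - y1 b) • y' := ⟨_, rfl⟩
  have hy0i : ∀ i, y0 i = (y' b - y' a) * y1 i + (y1 a - y1 b) * y' i := fun i => by rw [hy0]; rfl
  have hy0m : y0 ∈ Yl T := hy0 ▸ add_mem (zsmul_mem hy1.1 _) (zsmul_mem hy'.1 _)
  have hzero : y0 a = y0 b := by rw [hy0i, hy0i]; ring
  have hclos : ∀ i j, y0 j < y0 i → y1 j < y1 i := by
    intro i j e
    rcases lt_trichotomy (y1 j) (y1 i) with h | h | h
    · exact h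
    · exact absurd (hy1.2 _ _ h _ hy0m) e.ne
    · exfalso
      rw [hy0i, hy0i] at e
      have hp : 0 < y1 a - y1 b := sub_pos.2 hab1
      have hq : 0 < y' b - y' a := sub_pos.2 hab2
      have h2 : y' j < y' i := by
        by_contra hc
        have hc' := mul_le_mul_of_nonneg_left (not_lt.1 hc) hp.le
        have hc'' := mul_lt_mul_of_pos_left h hq
        linarith
      have := hmin' j i h h2
      linarith
  have hrank : ∀ i j, y0 i = y0 j → ∀ z ∈ Yl T, z a = z b → z i = z j := by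
    intro i j e z hz hz'
    by_contra hc
    refine hav _ ⟨((a, b), (i, j)), rfl⟩ ⟨z, hz, ?_⟩ ?_
    · simp only [sub_dotProduct, smul_dotProduct, LatAux.ee_dot, smul_eq_mul, hz', sub_self,
        mul_zero, zero_sub, neg_ne_zero]
      exact mul_ne_zero (sub_ne_zero.2 hab2.ne) (sub_ne_zero.2 hc)
    · simp only [sub_dotProduct, smul_dotProduct, LatAux.ee_dot, smul_eq_mul]
      rw [hy0i, hy0i] at e
      linear_combination e
  obtain ⟨M, hM, hbig⟩ := exists_big y0 y'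
  obtain ⟨y2, hy2⟩ : ∃ y2, y2 = M • y0 + y' := ⟨_, rfl⟩
  rw [← hy2] at hbig
  have hy2i : ∀ i, y2 i = M * y0 i + y' i := fun i => by rw [hy2]; simp
  have hy2m : y2 ∈ Yl T := hy2 ▸ add_mem (nsmul_mem hy0m _) hy'.1
  have hg2 : Gen T y2 := by
    refine ⟨hy2m, fun i j e => hy'.2 i j ?_⟩
    have e0 : y0 i = y0 j := by
      rcases lt_trichotomy (y0 j) (y0 i) with h | h | h
      · exact absurd e (hbig _ _ h).ne'
      · exact h.symm
      · exact absurd e (hbig _ _ h).ne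
    rw [hy2i, hy2i, e0] at e
    exact add_left_cancel e
  have hpos2 : y2 a < y2 b := by rw [hy2i, hy2i, hzero]; linarith
  have h2 : P y2 := hstep y1 y0 y2 a b ⟨hy1, hy0m, hab1, hzero, hclos, hrank⟩
    ⟨hg2, hy0m, hpos2, hzero.symm, hbig, fun i j e z hz hz' => hrank i j e z hz hz'.symm⟩ hab2 h1
  refine ih _ ?_ y2 hg2 h2 rfl
  rw [← hN]
  refine Finset.card_lt_card ⟨fun p hp => ?_, fun hsub => ?_⟩
  · simp only [Finset.mem_filter, Finset.mem_univ, true_and] at hp ⊢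
    refine ⟨hclos _ _ ?_, hp.2⟩
    rcases lt_trichotomy (y0 p.2) (y0 p.1) with h | h | h
    · exact h
    · have := hp.1
      rw [hy2i, hy2i, h] at this
      linarith [hp.2]
    · exact absurd (hbig _ _ h) (not_lt.2 hp.1.le)
  · have := hsub (show (a, b) ∈ _ by simp [hab1, hab2])
    simp only [Finset.mem_filter, Finset.mem_univ, true_and] at this
    exact absurd this.1 (not_lt.2 hpos2.le)

end ZipFG
end

-- merged part: Pool.Agent.Work.MP_5c492e_ag.Chart
section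
/-! Equivariant charts of contracted unipotent groups. -/

namespace ZipFG

open Function Set Matrix

namespace ChartAux

section lin
variable {k : Type} [Field k] {ι ι' : Type}

lemma isReg_single [DecidableEq ι] {X : Type} [Reg k X] (i : ι) {f : X → k} (hf : IsReg f) :
    IsReg (fun x => (Pi.single i (f x) : ι → k)) := by
  refine isReg_pi fun j => ?_
  by_cases h : j = i
  · subst h; simpa using hf
  · simpa [h] using isReg_const (0 : k)

/-- First order expansion of a regular function along the rays through the origin. -/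
lemma exists_lin [Finite ι] {F : (ι → k) → k} (hF : IsReg F) :
    ∃ (G : k × (ι → k) → k) (L : (ι → k) →ₗ[k] k), IsReg G ∧
      (∀ s w, F (s • w) = F 0 + s * G (s, w)) ∧ ∀ w, G (0, w) = L w := by
  obtain ⟨P, hP⟩ := hF.exists_mvPoly
  obtain rfl : F = fun x => MvPolynomial.eval x P := funext hP
  clear hP hF
  induction P using MvPolynomial.induction_on with
  | C a => exact ⟨fun _ => 0, 0, isReg_const _, by simp, by simp⟩
  | add p q hp hq =>
    obtain ⟨G, L, hG, h1, h2⟩ := hp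
    obtain ⟨G', L', hG', h1', h2'⟩ := hq
    refine ⟨fun z => G z + G' z, L + L', hG.add hG', fun s w => ?_, fun w => by simp [h2, h2']⟩
    simp only [map_add] at h1 h1' ⊢
    rw [h1, h1']; ring
  | mul_X p i _ =>
    refine ⟨fun z => MvPolynomial.eval (z.1 • z.2) p * z.2 i,
      MvPolynomial.eval 0 p • LinearMap.proj i, ?_, fun s w => ?_, fun w => by simp⟩
    · exact ((isReg_eval p).comp (isReg_fst.pi_smul isReg_snd)).fmul (isReg_snd.app i)
    · simp only [map_mul, MvPolynomial.eval_X, Pi.smul_apply, smul_eq_mul, Pi.zero_apply]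
      ring

/-- The linear part of a regular map fixing the origin. -/
def Tan (φ : (ι → k) → ι' → k) (L : (ι → k) →ₗ[k] ι' → k) : Prop :=
  ∃ G : k × (ι → k) → ι' → k, IsReg G ∧ (∀ s w, φ (s • w) = s • G (s, w)) ∧ ∀ w, G (0, w) = L w

lemma exists_tan [Finite ι] {φ : (ι → k) → ι' → k} (hφ : IsReg φ) (h0 : φ 0 = 0) :
    ∃ L, Tan φ L := by
  choose G L hG h1 h2 using fun j => exists_lin (hφ.app j)
  refine ⟨LinearMap.pi L, fun z j => G j z, isReg_pi hG, fun s w => funext fun j => ?_,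
    fun w => funext fun j => h2 j w⟩
  simpa [h0] using h1 j s w

lemma Tan.comp {ι'' : Type} {φ : (ι → k) → ι' → k} {ψ : (ι' → k) → ι'' → k} {L L'}
    (h' : Tan ψ L') (h : Tan φ L) : Tan (fun c => ψ (φ c)) (L' ∘ₗ L) := by
  obtain ⟨G, hG, h1, h2⟩ := h
  obtain ⟨G', hG', h1', h2'⟩ := h'
  exact ⟨fun z => G' (z.1, G z), hG'.comp (isReg_fst.prodMk hG), fun s w => by simp only [h1, h1'],
    fun w => by simp [h2, h2']⟩

lemma tan_lin [Fintype ι] (L : (ι → k) →ₗ[k] ι' → k) : Tan L L :=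
  ⟨fun z => L z.2, (isReg_linear' L).comp isReg_snd, fun s w => by simp, fun _ => rfl⟩

lemma Tan.unique [Infinite k] {φ : (ι → k) → ι' → k} {L L'} (h : Tan φ L) (h' : Tan φ L') :
    L = L' := by
  obtain ⟨G, hG, h1, h2⟩ := h
  obtain ⟨G', hG', h1', h2'⟩ := h'
  refine LinearMap.ext fun w => funext fun j => ?_
  rw [← h2, ← h2']
  refine IsReg.eq_of_units (F := fun s => G (s, w) j) (G := fun s => G' (s, w) j)
    ((hG.comp (isReg_id.prodMk (isReg_const w))).app j)
    ((hG'.comp (isReg_id.prodMk (isReg_const w))).app j) (fun t => ?_) 0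
  have := congrFun ((h1 t w).symm.trans (h1' t w)) j
  simpa using this

/-- An equivariant polynomial isomorphism preserves the product of the eigenvalues. -/
lemma prod_eq [Infinite k] [Fintype ι] [Fintype ι'] {φ : (ι → k) → ι' → k}
    {ψ : (ι' → k) → ι → k} (hφ : IsReg φ) (hψ : IsReg ψ) (h0 : φ 0 = 0)
    (h1 : ∀ c, ψ (φ c) = c) (h2 : ∀ c, φ (ψ c) = c) {d : ι → k} {d' : ι' → k}
    (h : ∀ c, φ (fun i => d i * c i) = fun j => d' j * φ c j) : ∏ i, d i = ∏ j, d' j := by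
  classical
  obtain ⟨L, hL⟩ := exists_tan hφ h0
  obtain ⟨L', hL'⟩ := exists_tan hψ (by simpa only [h0] using h1 0)
  have e1 : L' ∘ₗ L = LinearMap.id :=
    (hL'.comp hL).unique (by simp only [h1]; exact tan_lin LinearMap.id)
  have e2 : L ∘ₗ L' = LinearMap.id :=
    (hL.comp hL').unique (by simp only [h2]; exact tan_lin LinearMap.id)
  have e3 : L ∘ₗ toLin' (diagonal d) = toLin' (diagonal d') ∘ₗ L := by
    refine (hL.comp (tan_lin _)).unique ?_
    have := (tan_lin (toLin' (diagonal d'))).comp hL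
    convert this using 2 with c
    have e : toLin' (diagonal d) c = fun i => d i * c i := by
      ext i; simp [mulVec_diagonal]
    rw [e, h]
    ext j; simp [mulVec_diagonal]
  have e4 : LinearMap.det (L ∘ₗ toLin' (diagonal d) ∘ₗ L') = LinearMap.det (toLin' (diagonal d)) :=
    LinearMap.det_conj (toLin' (diagonal d)) (LinearEquiv.ofLinear L L' e2 e1)
  rw [← LinearMap.comp_assoc, e3, LinearMap.comp_assoc, e2, LinearMap.comp_id,
    LinearMap.det_toLin', LinearMap.det_toLin', det_diagonal, det_diagonal] at e4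
  exact e4.symm

/-- Powers of a maximal ideal vanish to high order along a curve. -/
lemma exists_pow_mul {X : Type} [Reg k X] {γ : k → X} (hγ : IsReg γ) {N : ℕ} {F : Oo X}
    (hF : F ∈ mx (γ 0) ^ N) : ∃ H : k → k, IsReg H ∧ ∀ s, F.1 (γ s) = s ^ N * H s := by
  have h1 : (mx (γ 0)).map (pull γ hγ) ≤ Ideal.span {(isReg_id (k := k) (X := k)).toO} := by
    refine Ideal.map_le_iff_le_comap.2 fun G hG => ?_
    obtain ⟨p, hp⟩ := ((isReg_coe G).comp hγ).exists_poly
    have h0 : p.coeff 0 = 0 := by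
      rw [Polynomial.coeff_zero_eq_eval_zero, ← hp]; exact mem_mx.1 hG
    obtain ⟨q, rfl⟩ := Polynomial.X_dvd_iff.2 h0
    refine Ideal.mem_comap.2 (Ideal.mem_span_singleton.2 ⟨(isReg_poly q).toO, O_ext fun s => ?_⟩)
    simpa using hp s
  have h2 := Ideal.pow_right_mono h1 N (by
    rw [← Ideal.map_pow]; exact Ideal.mem_map_of_mem (pull γ hγ) hF)
  rw [Ideal.span_singleton_pow, Ideal.mem_span_singleton] at h2
  obtain ⟨H, hH⟩ := h2
  exact ⟨H.1, isReg_coe H, fun s => by simpa using congrArg (fun G : Oo k => G.1 s) hH⟩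

lemma aeval_val {X : Type} [Reg k X] (x : ι → Oo X) (q : MvPolynomial ι k) (u : X) :
    (MvPolynomial.aeval x q).1 u = MvPolynomial.eval (fun i => (x i).1 u) q := by
  have := MvPolynomial.comp_aeval_apply x (ev u) q
  rw [MvPolynomial.aeval_eq_eval] at this
  exact this

end lin

variable {k : Type} [Field k] [IsAlgClosed k] [LF k] {n : Type} [Fintype n] [DecidableEq n]
  {T U : Subgroup (GL n k)}

/-- Conjugation on a normalised subgroup. -/
def cj (hn : ∀ t ∈ T, ∀ u ∈ U, t * u * t⁻¹ ∈ U) (t : T) (u : U) : U :=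
  ⟨t * u * t⁻¹, hn _ t.2 _ u.2⟩

omit [IsAlgClosed k] [LF k] in
lemma isReg_cj (hn : ∀ t ∈ T, ∀ u ∈ U, t * u * t⁻¹ ∈ U) :
    IsReg (fun p : T × U => cj hn p.1 p.2) := by
  refine isReg_of_val ?_
  change IsReg (fun p : T × U => (p.1 : GL n k) * p.2 * (p.1 : GL n k)⁻¹)
  fun_prop

/-- The action on functions. -/
def ca (hn : ∀ t ∈ T, ∀ u ∈ U, t * u * t⁻¹ ∈ U) (t : T) : Oo U →ₐ[k] Oo U :=
  pull (cj hn t) ((isReg_cj hn).comp (g := fun u => (t, u)) (by fun_prop))

omit [IsAlgClosed k] in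
lemma mem_iSup (hT : T ≤ Dn) (hn : ∀ t ∈ T, ∀ u ∈ U, t * u * t⁻¹ ∈ U) (F : Oo U) :
    F ∈ ⨆ a : n → ℤ, Wt (fun t => (ca hn t).toLinearMap) (fun t : T => eps a t) := by
  let c : T →* Module.End k (Oo U) :=
    { toFun := fun t => (ca hn t).toLinearMap
      map_one' := LinearMap.ext fun F => O_ext fun u => congrArg F.1 (Subtype.ext (by simp [cj]))
      map_mul' := fun s t => LinearMap.ext fun F => O_ext fun u => congrArg F.1 (Subtype.ext (by
        change ((s * t : T) : GL n k) * u * ((s * t : T) : GL n k)⁻¹ =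
          t * (s * u * (s : GL n k)⁻¹) * (t : GL n k)⁻¹
        rw [Subgroup.coe_mul, Dn_comm (hT s.2) (hT t.2)]
        group)) }
  exact mem_iSup_eps hT (c := c) (((isReg_coe F).comp (isReg_cj hn)).curryO fun _ _ => rfl)

omit [IsAlgClosed k] [LF k] in
lemma ca_mx (hn : ∀ t ∈ T, ∀ u ∈ U, t * u * t⁻¹ ∈ U) (t : T) :
    ∀ F ∈ mx (1 : U), ca hn t F ∈ mx (1 : U) := fun F hF =>
  mem_mx.2 ((congrArg F.1 (Subtype.ext (by simp [cj]))).trans (mem_mx.1 hF))

/-- A weight vector vanishing to high order at the identity is zero. -/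
lemma wt_eq_zero (hU : ZClosed (U : Set (GL n k)))
    (hn : ∀ t ∈ T, ∀ u ∈ U, t * u * t⁻¹ ∈ U) {y : n → ℤ} (hy : y ∈ Yl T) (h : U ≤ Uu y)
    {a : n → ℤ} {N : ℕ} (hN : a ⬝ᵥ y < N) {F : Oo U} (hF : F ∈ mx (1 : U) ^ N)
    (hw : F ∈ Wt (fun t => (ca hn t).toLinearMap) (fun t : T => eps a t)) : F = 0 := by
  refine O_ext fun u => ?_
  have hP := Uu_le_Pn y (h u.2)
  let γ : k → U := fun s => ⟨cc y s u, cc_mem hU hP (fun t => hn _ (hy t) _ u.2) s⟩
  have hγ : IsReg γ := isReg_of_val (IsReg.cc isReg_id (isReg_const _) fun _ => hP)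
  have h0 : γ 0 = 1 := Subtype.ext (lev_Uu (h u.2))
  obtain ⟨H, hH, e⟩ := exists_pow_mul hγ (h0 ▸ hF)
  obtain ⟨m, hm⟩ := Int.le.dest hN
  have := IsReg.eq_of_units (F := fun s => s ^ (m + 1) * H s) (G := fun _ => F.1 u)
    (by fun_prop) (isReg_const _) (fun t => ?_) 0
  · simpa using this.symm
  have h1 : F.1 (γ t) = (t : k) ^ (a ⬝ᵥ y) * F.1 u := by
    have h2 := congrArg (fun G : Oo U => G.1 u) (hw ⟨nu y t, hy t⟩)
    rw [← eps_nu]
    exact (congrArg F.1 (Subtype.ext (cc_unit t hP))).trans h2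
  rw [e, ← zpow_natCast, ← hm, add_assoc, zpow_add₀ t.ne_zero, mul_assoc] at h1
  rw [← mul_left_cancel₀ (zpow_ne_zero _ t.ne_zero) h1, ← zpow_natCast]
  congr 2
  push_cast; ring

/-- Homogeneous polynomial generators of the coordinate ring. -/
lemma exists_gens (hT : T ≤ Dn) (hU : ZClosed (U : Set (GL n k)))
    (hn : ∀ t ∈ T, ∀ u ∈ U, t * u * t⁻¹ ∈ U) {y : n → ℤ} (hy : y ∈ Yl T) (h : U ≤ Uu y) :
    ∃ (d : ℕ) (x : Fin d → Oo U) (w : Fin d → n → ℤ), (∀ i, x i ∈ mx (1 : U)) ∧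
      (∀ i t, ca hn t (x i) = eps (w i) (t : GL n k) • x i) ∧
      Bijective (MvPolynomial.aeval (R := k) x) := by
  haveI : Aff U := hU.affSub
  have hirr : Irr (univ : Set U) := Irr.subgroup (by
    simpa only [inf_eq_left.2 h] using irr_inf_Uu hU fun t g hg => hn _ (hy t) g hg)
  obtain ⟨d, x, w, hx, hw, hind, hspan⟩ := exists_cotangent_basis (ca hn) (ca_mx hn)
    (fun (a : n → ℤ) (t : T) => eps a t) (mem_iSup hT hn)
  refine ⟨d, x, w, hx, hw, (injective_iff_map_eq_zero _).2 fun q hq => ?_, fun F => ?_⟩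
  · refine MvPolynomial.ext _ _ fun m => ?_
    exact (MvPolynomial.mem_pow_idealOfVars_iff' _ _).1
      (quasi_regular hirr x hx hind (m.degree + 1) q (hq ▸ zero_mem _)) m (Nat.lt_succ_self _)
  let V := LinearMap.range (MvPolynomial.aeval (R := k) x).toLinearMap
  have hV : ∀ t, ∀ v ∈ V, (ca hn t).toLinearMap v ∈ V := by
    rintro t _ ⟨q, rfl⟩
    refine ⟨MvPolynomial.aeval (fun i => eps (w i) (t : GL n k) • MvPolynomial.X i) q, ?_⟩
    simp only [AlgHom.toLinearMap_apply, MvPolynomial.comp_aeval_apply, hw, map_smul,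
      MvPolynomial.aeval_X]
  refine (iSup_le fun a => ?_ : _ ≤ V) (mem_iSup hT hn F)
  intro F hF
  obtain ⟨N, hN⟩ : ∃ N : ℕ, a ⬝ᵥ y < N := ⟨(a ⬝ᵥ y).toNat + 1, by omega⟩
  obtain ⟨q, -, hq⟩ := exists_expansion x hx hspan 0 N F (by simp)
  have h1 := le_iSup_wt_inf (c := fun t => (ca hn t).toLinearMap)
    (V := (mx (1 : U) ^ N).restrictScalars k)
    (fun t v hv => Ideal.pow_right_mono (Ideal.map_le_iff_le_comap.2 (ca_mx hn t)) N (by
      rw [← Ideal.map_pow]; exact Ideal.mem_map_of_mem (ca hn t) hv))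
    (S := range fun (a : n → ℤ) (t : T) => eps a t) hq
    (by rw [iSup_range]; exact mem_iSup hT hn _)
  have h2 : F - MvPolynomial.aeval x q ∈ ⨆ χ ∈ ({fun t : T => eps a t}ᶜ : Set (T → k)),
      Wt (fun t => (ca hn t).toLinearMap) χ := by
    refine SetLike.le_def.1 (iSup₂_le fun χ _ => ?_) h1
    by_cases e : χ = fun t : T => eps a t
    · intro G hG
      rw [wt_eq_zero hU hn hy h hN hG.2 (e ▸ hG.1)]
      exact zero_mem _
    · exact inf_le_left.trans (le_iSup₂_of_le χ e le_rfl)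
  exact wt_comp hV (by simp) hF (neg_mem h2) ⟨q, by simp⟩

end ChartAux

open ChartAux

variable {k : Type} [Field k] [IsAlgClosed k] [LF k] {n : Type} [Fintype n] [DecidableEq n]
  {T U : Subgroup (GL n k)}

theorem exists_chart (hT : T ≤ Dn) (hU : ZClosed (U : Set (GL n k)))
    (hn : ∀ t ∈ T, ∀ u ∈ U, t * u * t⁻¹ ∈ U) {y : n → ℤ} (hy : y ∈ Yl T) (h : U ≤ Uu y) :
    ∃ d : ℕ, Nonempty (Chart T U (Fin d)) := by
  haveI : Aff U := hU.affSub
  obtain ⟨d, x, w, hx, hw, hb⟩ := exists_gens hT hU hn hy h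
  let e := AlgEquiv.ofBijective _ hb
  choose p hp using fun c : Fin d → k =>
    aff_pts ((MvPolynomial.aeval c).comp (e.symm : Oo U →ₐ[k] MvPolynomial (Fin d) k))
  have hp' : ∀ c (F : Oo U), F.1 (p c) = MvPolynomial.eval c (e.symm F) := fun c F => by
    rw [← hp, ← MvPolynomial.aeval_eq_eval]; rfl
  have hpr : IsReg p := fun F hF => ((isReg_eval (e.symm ⟨F, hF⟩)).congr fun c =>
    (hp' c ⟨F, hF⟩).symm).mem
  choose X hX hXe using fun i => (isReg_coe (x i)).exists_ext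
  refine ⟨d, ⟨⟨fun g i => X i g, fun c => p c, w, isReg_pi hX, hpr.val, fun c => (p c).2,
    fun c => funext fun i => ?_, fun u hu => ?_, funext fun i => ?_, hn, fun t ht u hu i => ?_⟩⟩⟩
  · rw [hXe, hp', show e.symm (x i) = MvPolynomial.X i from
      e.symm_apply_eq.2 (MvPolynomial.aeval_X x i).symm, MvPolynomial.eval_X]
  · refine congrArg Subtype.val (aff_sep (y := (⟨u, hu⟩ : U)) fun F hF => ?_)
    have h1 := aeval_val x (e.symm hF.toO) ⟨u, hu⟩
    rw [show MvPolynomial.aeval x (e.symm hF.toO) = hF.toO from e.apply_symm_apply _] at h1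
    refine (hp' _ hF.toO).trans (Eq.trans ?_ h1.symm)
    simp only [← hXe]
  · exact (hXe i 1).trans (mem_mx.1 (hx i))
  · have h1 := congrArg (fun G : Oo U => G.1 ⟨u, hu⟩) (hw i ⟨t, ht⟩)
    exact (hXe i (cj hn ⟨t, ht⟩ ⟨u, hu⟩)).trans (h1.trans (by rw [hXe i ⟨u, hu⟩]; rfl))

theorem Chart.pt_zero {ι : Type} (C : Chart T U ι) : C.pt 0 = 1 := by
  rw [← C.x_one, C.pt_x 1 (one_mem _)]

/-- The weights of a chart are positive on a contracting cocharacter. -/
theorem Chart.pos {ι : Type} (C : Chart T U ι) (hU : ZClosed (U : Set (GL n k))) {y : n → ℤ}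
    (hy : y ∈ Yl T) (h : U ≤ Uu y) (i : ι) : 0 < C.wt i ⬝ᵥ y := by
  classical
  by_contra h0
  obtain ⟨m, hm⟩ := Int.le.dest (not_lt.1 h0)
  have hu := C.pt_mem (Pi.single i 1)
  have hP := Uu_le_Pn y (h hu)
  have := IsReg.eq_of_units (F := fun s => C.x (cc y s (C.pt (Pi.single i 1))) i * s ^ m)
    (G := fun _ => 1) (((C.x_reg.comp (IsReg.cc isReg_id (isReg_const _) fun _ => hP)).app i).fmul
      (by fun_prop)) (isReg_const _) (fun t => by
      rw [cc_unit t hP, C.conj _ (hy t) _ hu, C.x_pt, eps_nu, Pi.single_eq_same, mul_one,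
        ← zpow_natCast, ← zpow_add₀ t.ne_zero, hm, zpow_zero]) 0
  change C.x (lev y _) i * _ = 1 at this
  simp [lev_Uu (h hu), C.x_one] at this

/-- The weights of a chart vanish on a centralising cocharacter. -/
theorem Chart.dot_eq_zero {ι : Type} (C : Chart T U ι) {y : n → ℤ}
    (hy : y ∈ Yl T) (h : U ≤ Zn y) (i : ι) : C.wt i ⬝ᵥ y = 0 := by
  classical
  have hu := C.pt_mem (Pi.single i 1)
  refine zpow_inj_units (k := k) fun t => ?_
  have := C.conj _ (hy t) _ hu i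
  rw [mem_Zn_iff_comm.1 (h hu) t, mul_inv_cancel_right, C.x_pt, eps_nu] at this
  simpa using this.symm

theorem Chart.conj_pt {ι : Type} (C : Chart T U ι) {t : GL n k} (ht : t ∈ T) (c : ι → k) :
    t * C.pt c * t⁻¹ = C.pt (fun i => eps (C.wt i) t * c i) := by
  rw [← C.pt_x _ (C.norm t ht _ (C.pt_mem c))]
  congr 1
  ext i
  rw [C.conj t ht _ (C.pt_mem c), C.x_pt]

/-- The sum of the weights does not depend on the chart. -/
theorem Chart.sum_eq (hT : T ≤ Dn) {ι ι' : Type} [Fintype ι] [Fintype ι'] (C : Chart T U ι)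
    (C' : Chart T U ι') : ∀ t ∈ T, eps (∑ i, C.wt i) t = eps (∑ i, C'.wt i) t := by
  intro t ht
  rw [eps_sum _ _ (hT ht), eps_sum _ _ (hT ht)]
  refine prod_eq (φ := fun c => C'.x (C.pt c)) (ψ := fun c => C.x (C'.pt c))
    (C'.x_reg.comp C.pt_reg) (C.x_reg.comp C'.pt_reg) (by rw [C.pt_zero, C'.x_one])
    (fun c => by rw [C'.pt_x _ (C.pt_mem c), C.x_pt])
    (fun c => by rw [C.pt_x _ (C'.pt_mem c), C'.x_pt]) fun c => funext fun j => ?_
  rw [← C.conj_pt ht, C'.conj t ht _ (C.pt_mem c)]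

/-- Transport of a chart by an element of the normaliser. -/
theorem Chart.exists_conj (hT : T ≤ Dn) {ι : Type} (C : Chart T U ι) {U' : Subgroup (GL n k)}
    {w : GL n k} (hw : w ∈ Nm T) (h : ∀ u, u ∈ U ↔ w * u * w⁻¹ ∈ U') :
    ∃ C' : Chart T U' ι, (∀ i, C'.wt i = act w (C.wt i)) ∧ ∀ c, C'.pt c = w * C.pt c * w⁻¹ := by
  have h1 : ∀ u ∈ U', w⁻¹ * u * w ∈ U := fun u hu => (h _).2 (by simpa [mul_assoc] using hu)
  have h2 : ∀ t ∈ T, w⁻¹ * t * w ∈ T := fun t ht => by simpa using mem_Nm.1 (inv_mem hw) t ht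
  have h3 : ∀ t u : GL n k, w⁻¹ * (t * u * t⁻¹) * w =
    w⁻¹ * t * w * (w⁻¹ * u * w) * (w⁻¹ * t * w)⁻¹ := fun t u => by group
  refine ⟨⟨fun g => C.x (w⁻¹ * g * w), fun c => w * C.pt c * w⁻¹, fun i => act w (C.wt i),
    C.x_reg.comp (by fun_prop), ((isReg_const w).mul C.pt_reg).mul (isReg_const _),
    fun c => (h _).1 (C.pt_mem c), fun c => by simp [mul_assoc, C.x_pt], fun u hu => ?_,
    by simp [C.x_one], fun t ht u hu => ?_, fun t ht u hu i => ?_⟩, fun _ => rfl, fun _ => rfl⟩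
  · rw [C.pt_x _ (h1 u hu)]; group
  · have := (h _).1 (C.norm _ (h2 t ht) _ (h1 u hu))
    rw [← h3] at this
    simpa [mul_assoc] using this
  · rw [h3, C.conj _ (h2 t ht) _ (h1 u hu), eps_conj _ (hT ht) (hT (h2 t ht))]

/-- The product chart of a semidirect product. -/
theorem Chart.exists_prod (hT : T ≤ Dn) {y0 : n → ℤ} (hU : U ≤ Pn y0)
    (hl : ∀ u ∈ U, lev y0 u ∈ U) {ι ι' : Type} (C : Chart T (U ⊓ Uu y0) ι)
    (C' : Chart T (U ⊓ Zn y0) ι') : ∃ C'' : Chart T U (ι ⊕ ι'), C''.wt = Sum.elim C.wt C'.wt ∧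
      ∀ c, C''.pt c = C.pt (fun i => c (Sum.inl i)) * C'.pt (fun i => c (Sum.inr i)) := by
  have h1 : ∀ u ∈ U, u * (lev y0 u)⁻¹ ∈ U ⊓ Uu y0 := fun u hu =>
    ⟨U.mul_mem hu (U.inv_mem (hl u hu)), mul_lev_inv_mem (hU hu)⟩
  have h2 : ∀ u ∈ U, lev y0 u ∈ U ⊓ Zn y0 := fun u hu => ⟨hl u hu, lev_mem_Zn (hU hu)⟩
  have hlev : IsReg fun u : U => lev y0 (u : GL n k) := isReg_val.lev fun u => hU u.2
  have hreg : ∀ i, IsReg fun u : U =>
      Sum.elim (C.x (u * (lev y0 (u : GL n k))⁻¹)) (C'.x (lev y0 u)) i := by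
    rintro (i | i)
    · exact (C.x_reg.comp (isReg_val.mul hlev.inv)).app i
    · exact (C'.x_reg.comp hlev).app i
  choose X hX hXe using fun i => (hreg i).exists_ext
  have hX' : ∀ u ∈ U, (fun i => X i u) =
      Sum.elim (C.x (u * (lev y0 u)⁻¹)) (C'.x (lev y0 u)) := fun u hu =>
    funext fun i => hXe i ⟨u, hu⟩
  have hN : ∀ t ∈ T, ∀ u ∈ U, t * u * t⁻¹ ∈ U := fun t ht u hu => by
    have := mul_mem (C.norm t ht _ (h1 u hu)).1 (C'.norm t ht _ (h2 u hu)).1
    simpa [mul_assoc] using this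
  have hm : ∀ c : ι ⊕ ι' → k,
      C.pt (fun i => c (Sum.inl i)) * C'.pt (fun i => c (Sum.inr i)) ∈ U := fun c =>
    mul_mem (C.pt_mem _).1 (C'.pt_mem _).1
  refine ⟨⟨fun g i => X i g,
    fun c => C.pt (fun i => c (Sum.inl i)) * C'.pt (fun i => c (Sum.inr i)),
    Sum.elim C.wt C'.wt, isReg_pi hX, (C.pt_reg.comp (by fun_prop)).mul
      (C'.pt_reg.comp (by fun_prop)), hm, fun c => ?_, fun u hu => ?_, ?_, hN,
    fun t ht u hu i => ?_⟩, rfl, fun _ => rfl⟩
  · rw [hX' _ (hm c), lev_mul (hU (C.pt_mem _).1) (hU (C'.pt_mem _).1), lev_Uu (C.pt_mem _).2,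
      lev_of_Zn (C'.pt_mem _).2, one_mul, mul_inv_cancel_right, C.x_pt, C'.x_pt]
    ext (i | i) <;> rfl
  · rw [hX' u hu]
    change C.pt (C.x _) * C'.pt (C'.x _) = u
    rw [C.pt_x _ (h1 u hu), C'.pt_x _ (h2 u hu), inv_mul_cancel_right]
  · rw [hX' 1 (one_mem _), lev_of_Zn (one_mem _), inv_one, mul_one, C.x_one, C'.x_one]
    ext (i | i) <;> rfl
  · have e : lev y0 (t * u * t⁻¹) = t * lev y0 u * t⁻¹ := by
      have hz := Dn_le_Zn y0 (hT ht)
      rw [lev_mul (mul_mem hz.1 (hU hu)) (inv_mem hz.1), lev_mul hz.1 (hU hu), lev_of_Zn hz,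
        lev_of_Zn (inv_mem hz)]
    rw [congrFun (hX' _ (hN t ht u hu)) i, congrFun (hX' u hu) i, e,
      show t * u * t⁻¹ * (t * lev y0 u * t⁻¹)⁻¹ = t * (u * (lev y0 u)⁻¹) * t⁻¹ by group]
    rcases i with i | i
    · exact C.conj t ht _ (h1 u hu) i
    · exact C'.conj t ht _ (h2 u hu) i

/-- A polynomial function whose only zero is the origin lives on a line. -/
theorem subsingleton_of_unique_zero {ι : Type} [Finite ι] {Q : (ι → k) → k} (hQ : IsReg Q)
    (h0 : Q 0 = 0) (h : ∀ c, c ≠ 0 → Q c ≠ 0) : Subsingleton ι := by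
  classical
  refine ⟨fun i j => by_contra fun hij => ?_⟩
  have hreg : IsReg fun p : k × k => Q (fun l => (Pi.single i p.1 : ι → k) l +
      (Pi.single j p.2 : ι → k) l) :=
    hQ.comp (isReg_pi fun l => ((isReg_single i isReg_fst).app l).add
      ((isReg_single j isReg_snd).app l))
  have := IsReg.eq_of_units (hreg.comp ((isReg_const (1 : k)).prodMk isReg_id))
    (hreg.comp ((isReg_const (0 : k)).prodMk isReg_id)) (fun t =>
      (hreg.comp (isReg_id.prodMk (isReg_const (t : k)))).const_of_ne_zero (fun s => h _ fun e => by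
        simpa [Ne.symm hij] using congrFun e j) 1 0) 0
  simp only [Pi.single_zero, Pi.zero_apply, add_zero] at this
  exact h (Pi.single i 1) (by simp) (this.trans h0)

end ZipFG
end
end
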