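import Mathlib

-- merged part: Pool.Agent.Work.MP_5c492e_ag.Base
section
/-! Regular functions on sets of points: a light framework for affine varieties. -/

namespace ZipFG

open Function

/-- A type with a chosen algebra of regular functions. -/
class Reg (k : outParam Type) [Field k] (X : Type) where
  O : Subalgebra k (X → k)

variable {k : Type} [Field k]

/-- The algebra of regular functions. -/
abbrev Oo (X : Type) [Reg k X] : Subalgebra k (X → k) := Reg.O

/-- Pull back along a map of types. -/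
def pullFun (k : Type) [Field k] {X Y : Type} (f : X → Y) : (Y → k) →ₐ[k] (X → k) where
  toFun F := fun x => F (f x)
  map_one' := rfl
  map_mul' _ _ := rfl
  map_zero' := rfl
  map_add' _ _ := rfl
  commutes' _ := rfl

@[simp] lemma pullFun_apply {X Y : Type} (f : X → Y) (F : Y → k) (x : X) :
    pullFun k f F x = F (f x) := rfl

/-- The induced structure. -/
@[reducible] def Reg.induced {X Y : Type} [Reg k Y] (f : X → Y) : Reg k X :=
  ⟨(Oo Y).map (pullFun k f)⟩

instance regField : Reg k k := ⟨Algebra.adjoin k {id}⟩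

instance regProd {X Y : Type} [Reg k X] [Reg k Y] : Reg k (X × Y) :=
  ⟨(Oo X).map (pullFun k Prod.fst) ⊔ (Oo Y).map (pullFun k Prod.snd)⟩

instance regPi {ι : Type} {X : ι → Type} [∀ i, Reg k (X i)] : Reg k (∀ i, X i) :=
  ⟨⨆ i, (Oo (X i)).map (pullFun k (fun x => x i))⟩

instance regMatrix {m n : Type} : Reg k (Matrix m n k) := inferInstanceAs (Reg k (m → n → k))

instance regSubtype {X : Type} [Reg k X] (P : X → Prop) : Reg k (Subtype P) :=
  Reg.induced Subtype.val

instance regUnits {M : Type} [Monoid M] [Reg k M] : Reg k Mˣ :=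
  Reg.induced (fun u : Mˣ => ((u : M), ((u⁻¹ : Mˣ) : M)))

/-- Regular maps. -/
@[fun_prop] def IsReg {X Y : Type} [Reg k X] [Reg k Y] (f : X → Y) : Prop :=
  ∀ F ∈ Oo Y, (fun x => F (f x)) ∈ Oo X

section basic
variable {X Y Z : Type} [Reg k X] [Reg k Y] [Reg k Z]

lemma IsReg.comap_le {f : X → Y} : IsReg f ↔ Oo Y ≤ (Oo X).comap (pullFun k f) := Iff.rfl

lemma isReg_iff_mem {F : X → k} : IsReg F ↔ F ∈ Oo X := by
  rw [IsReg.comap_le]
  change Algebra.adjoin k {id} ≤ _ ↔ _
  rw [Algebra.adjoin_le_iff, Set.singleton_subset_iff]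
  rfl

lemma IsReg.mem {F : X → k} (h : IsReg F) : F ∈ Oo X := isReg_iff_mem.1 h

lemma isReg_coe (F : Oo X) : IsReg (F : X → k) := isReg_iff_mem.2 F.2

@[fun_prop] lemma isReg_id : IsReg (fun x : X => x) := fun _ h => h

@[fun_prop] lemma isReg_const (y : Y) : IsReg (fun _ : X => y) :=
  fun F _ => (Oo X).algebraMap_mem (F y)

@[fun_prop] lemma IsReg.comp {f : Y → Z} {g : X → Y} (hf : IsReg f) (hg : IsReg g) :
    IsReg (fun x => f (g x)) := fun F hF => hg _ (hf F hF)

lemma isReg_fst : IsReg (Prod.fst : X × Y → X) := fun F hF =>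
  (le_sup_left : (Oo X).map (pullFun k Prod.fst) ≤ _) ⟨F, hF, rfl⟩

lemma isReg_snd : IsReg (Prod.snd : X × Y → Y) := fun F hF =>
  (le_sup_right : (Oo Y).map (pullFun k Prod.snd) ≤ _) ⟨F, hF, rfl⟩

@[fun_prop] lemma IsReg.fst {f : X → Y × Z} (hf : IsReg f) : IsReg (fun x => (f x).1) :=
  isReg_fst.comp hf

@[fun_prop] lemma IsReg.snd {f : X → Y × Z} (hf : IsReg f) : IsReg (fun x => (f x).2) :=
  isReg_snd.comp hf

@[fun_prop] lemma IsReg.prodMk {f : X → Y} {g : X → Z} (hf : IsReg f) (hg : IsReg g) :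
    IsReg (fun x => (f x, g x)) := by
  rw [IsReg.comap_le]
  refine sup_le ?_ ?_
  · rintro _ ⟨F, hF, rfl⟩; exact hf F hF
  · rintro _ ⟨F, hF, rfl⟩; exact hg F hF

@[fun_prop] lemma isReg_apply {ι : Type} {W : ι → Type} [∀ i, Reg k (W i)] (i : ι) :
    IsReg (fun x : (∀ i, W i) => x i) := fun F hF =>
  (le_iSup (fun i => (Oo (W i)).map (pullFun k (fun x : (∀ i, W i) => x i))) i) ⟨F, hF, rfl⟩

@[fun_prop] lemma isReg_pi {ι : Type} {W : ι → Type} [∀ i, Reg k (W i)] {f : X → ∀ i, W i}
    (h : ∀ i, IsReg (fun x => f x i)) : IsReg (fun x i => f x i) := by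
  rw [IsReg.comap_le]
  refine iSup_le fun i => ?_
  rintro _ ⟨F, hF, rfl⟩; exact h i F hF

lemma IsReg.app {ι : Type} {W : ι → Type} [∀ i, Reg k (W i)] {f : X → ∀ i, W i}
    (h : IsReg f) (i : ι) : IsReg (fun x => f x i) := (isReg_apply i).comp h

lemma isReg_induced_iff {X' : Type} {f : X' → Y} {g : X → X'} :
    @IsReg k _ X X' _ (Reg.induced f) g ↔ IsReg (fun x => f (g x)) := by
  constructor
  · intro h F hF; exact h _ ⟨F, hF, rfl⟩
  · rintro h _ ⟨F, hF, rfl⟩; exact h F hF

lemma isReg_val {P : X → Prop} : IsReg (Subtype.val : Subtype P → X) :=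
  isReg_induced_iff.1 isReg_id

@[fun_prop] lemma IsReg.val {P : Y → Prop} {f : X → Subtype P} (hf : IsReg f) :
    IsReg (fun x => (f x).1) := isReg_val.comp hf

@[fun_prop] lemma IsReg.subtypeMk {P : Y → Prop} {f : X → Y} (hf : IsReg f) (h : ∀ x, P (f x)) :
    IsReg (fun x => (⟨f x, h x⟩ : Subtype P)) := isReg_induced_iff.2 hf

lemma isReg_of_val {P : Y → Prop} {f : X → Subtype P} (hf : IsReg (fun x => (f x).1)) :
    IsReg f := isReg_induced_iff.2 hf

lemma IsReg.exists_ext {P : X → Prop} {F : Subtype P → k} (hF : IsReg F) :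
    ∃ F' : X → k, IsReg F' ∧ ∀ x : Subtype P, F' x.1 = F x := by
  obtain ⟨F', h, rfl⟩ := hF.mem
  exact ⟨F', isReg_iff_mem.2 h, fun _ => rfl⟩

lemma IsReg.congr {f g : X → Y} (hf : IsReg f) (h : ∀ x, f x = g x) : IsReg g := by
  rwa [← funext h]

section units
variable {M : Type} [Monoid M] [Reg k M]

@[fun_prop] lemma IsReg.units_val {f : X → Mˣ} (hf : IsReg f) : IsReg (fun x => ((f x : Mˣ) : M)) :=
  (isReg_induced_iff.1 hf).fst

lemma IsReg.units_inv_val {f : X → Mˣ} (hf : IsReg f) :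
    IsReg (fun x => (((f x)⁻¹ : Mˣ) : M)) :=
  (isReg_induced_iff.1 hf).snd

@[fun_prop] lemma IsReg.units_inv_proj {f : X → Mˣ} (hf : IsReg f) :
    IsReg (fun x => (f x).inv) := hf.units_inv_val

lemma isReg_units {f : X → Mˣ} (h1 : IsReg (fun x => ((f x : Mˣ) : M)))
    (h2 : IsReg (fun x => (((f x)⁻¹ : Mˣ) : M))) : IsReg f :=
  isReg_induced_iff.2 (h1.prodMk h2)

end units

section field

@[fun_prop] lemma IsReg.add {f g : X → k} (hf : IsReg f) (hg : IsReg g) :
    IsReg (fun x => f x + g x) := isReg_iff_mem.2 (add_mem hf.mem hg.mem)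

@[fun_prop] lemma IsReg.sub {f g : X → k} (hf : IsReg f) (hg : IsReg g) :
    IsReg (fun x => f x - g x) := isReg_iff_mem.2 (sub_mem hf.mem hg.mem)

@[fun_prop] lemma IsReg.neg {f : X → k} (hf : IsReg f) :
    IsReg (fun x => - f x) := isReg_iff_mem.2 (neg_mem hf.mem)

lemma IsReg.fmul {f g : X → k} (hf : IsReg f) (hg : IsReg g) :
    IsReg (fun x => f x * g x) := isReg_iff_mem.2 (mul_mem hf.mem hg.mem)

@[fun_prop] lemma IsReg.fsum {ι : Type*} {s : Finset ι} {f : ι → X → k}
    (h : ∀ i ∈ s, IsReg (f i)) : IsReg (fun x => ∑ i ∈ s, f i x) := by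
  have := Subalgebra.sum_mem (Oo X) (fun i hi => (h i hi).mem)
  refine (isReg_iff_mem.2 this).congr fun x => by simp

@[fun_prop] lemma IsReg.fprod {ι : Type*} {s : Finset ι} {f : ι → X → k}
    (h : ∀ i ∈ s, IsReg (f i)) : IsReg (fun x => ∏ i ∈ s, f i x) := by
  have := Subalgebra.prod_mem (Oo X) (fun i hi => (h i hi).mem)
  refine (isReg_iff_mem.2 this).congr fun x => by simp

end field

end basic

/-- Multiplication is regular. -/
class RegMul (M : Type) [Mul M] [Reg k M] : Prop where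
  reg_mul : IsReg (fun p : M × M => p.1 * p.2)

/-- Inversion is regular. -/
class RegInv (M : Type) [Inv M] [Reg k M] : Prop where
  reg_inv : IsReg (fun g : M => g⁻¹)

section mul
variable {X M : Type} [Reg k X] [Reg k M]

@[fun_prop] lemma IsReg.mul [Mul M] [RegMul M] {f g : X → M} (hf : IsReg f) (hg : IsReg g) :
    IsReg (fun x => f x * g x) := (RegMul.reg_mul (M := M)).comp (hf.prodMk hg)

@[fun_prop] lemma IsReg.inv [Inv M] [RegInv M] {f : X → M} (hf : IsReg f) :
    IsReg (fun x => (f x)⁻¹) := (RegInv.reg_inv (M := M)).comp hf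

@[fun_prop] lemma IsReg.pow [Monoid M] [RegMul M] {f : X → M} (hf : IsReg f) (n : ℕ) :
    IsReg (fun x => f x ^ n) := by
  induction n with
  | zero => simpa using isReg_const 1
  | succ n ih => simpa [pow_succ] using ih.mul hf

@[fun_prop] lemma IsReg.zpow [Group M] [RegMul M] [RegInv M] {f : X → M} (hf : IsReg f) (n : ℤ) :
    IsReg (fun x => f x ^ n) := by
  cases n with
  | ofNat n => simpa using hf.pow n
  | negSucc n => simpa using (hf.pow (n + 1)).inv

instance : RegMul k := ⟨isReg_fst.fmul isReg_snd⟩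

instance [Monoid M] [RegMul M] : RegMul Mˣ :=
  ⟨isReg_units (by simp only [Units.val_mul]; fun_prop) (by
    simp only [mul_inv_rev, Units.val_mul]
    exact isReg_snd.units_inv_val.mul isReg_fst.units_inv_val)⟩

instance [Monoid M] : RegInv Mˣ :=
  ⟨isReg_units isReg_id.units_inv_val (by simp only [inv_inv]; fun_prop)⟩

instance [Group M] [RegMul M] (H : Subgroup M) : RegMul H :=
  ⟨isReg_of_val (by simp only [Subgroup.coe_mul]; fun_prop)⟩

instance [Group M] [RegInv M] (H : Subgroup M) : RegInv H :=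
  ⟨isReg_of_val (by simp only [Subgroup.coe_inv]; fun_prop)⟩

instance {N : Type} [Reg k N] [Mul M] [Mul N] [RegMul M] [RegMul N] : RegMul (M × N) :=
  ⟨by
    change IsReg (fun p : (M × N) × (M × N) => (p.1.1 * p.2.1, p.1.2 * p.2.2))
    fun_prop⟩

instance {N : Type} [Reg k N] [Inv M] [Inv N] [RegInv M] [RegInv N] : RegInv (M × N) :=
  ⟨by
    change IsReg (fun p : (M × N) => (p.1⁻¹, p.2⁻¹))
    fun_prop⟩

end mul

section matrix
variable {X : Type} [Reg k X] {l m n : Type}

lemma IsReg.entry {f : X → Matrix m n k} (hf : IsReg f) (i : m) (j : n) :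
    IsReg (fun x => f x i j) :=
  IsReg.app (W := fun _ => k) (IsReg.app (W := fun _ => n → k) (f := f) hf i) j

@[fun_prop] lemma IsReg.gl_entry [Fintype n] [DecidableEq n] {f : X → (Matrix n n k)ˣ}
    (hf : IsReg f) (i j : n) : IsReg (fun x => (f x).val i j) := hf.units_val.entry i j

@[fun_prop] lemma IsReg.units_val_inv {f : X → kˣ} (hf : IsReg f) :
    IsReg (fun x => ((f x : kˣ) : k)⁻¹) := by
  simpa only [Units.val_inv_eq_inv_val] using hf.units_inv_val

lemma isReg_matrix {f : X → Matrix m n k} (h : ∀ i j, IsReg (fun x => f x i j)) : IsReg f :=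
  isReg_pi (W := fun _ => n → k) (f := f) fun i => isReg_pi (W := fun _ => k) fun j => h i j

@[fun_prop] lemma IsReg.matrix_mul [Fintype m] {f : X → Matrix l m k} {g : X → Matrix m n k}
    (hf : IsReg f) (hg : IsReg g) : IsReg (fun x => f x * g x) :=
  isReg_matrix fun i j => by simp only [Matrix.mul_apply]; fun_prop

@[fun_prop] lemma IsReg.matrix_add {f g : X → Matrix m n k}
    (hf : IsReg f) (hg : IsReg g) : IsReg (fun x => f x + g x) :=
  isReg_matrix fun i j => by simp only [Matrix.add_apply]; fun_prop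

@[fun_prop] lemma IsReg.matrix_sub {f g : X → Matrix m n k}
    (hf : IsReg f) (hg : IsReg g) : IsReg (fun x => f x - g x) :=
  isReg_matrix fun i j => by simp only [Matrix.sub_apply]; fun_prop

@[fun_prop] lemma IsReg.matrix_smul {c : X → k} {f : X → Matrix m n k}
    (hc : IsReg c) (hf : IsReg f) : IsReg (fun x => c x • f x) :=
  isReg_matrix fun i j => by simp only [Matrix.smul_apply, smul_eq_mul]; fun_prop

@[fun_prop] lemma IsReg.matrix_sum {ι : Type*} {s : Finset ι} {f : ι → X → Matrix m n k}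
    (h : ∀ i ∈ s, IsReg (f i)) : IsReg (fun x => ∑ i ∈ s, f i x) :=
  isReg_matrix fun a b => by
    simp only [Matrix.sum_apply]
    exact IsReg.fsum fun i hi => (h i hi).entry a b

instance [Fintype n] : RegMul (Matrix n n k) := ⟨isReg_fst.matrix_mul isReg_snd⟩

@[fun_prop] lemma IsReg.det [Fintype n] [DecidableEq n] {f : X → Matrix n n k} (hf : IsReg f) :
    IsReg (fun x => (f x).det) := by
  simp only [Matrix.det_apply', ]
  fun_prop

@[fun_prop] lemma IsReg.adjugate [Fintype n] [DecidableEq n] {f : X → Matrix n n k}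
    (hf : IsReg f) : IsReg (fun x => (f x).adjugate) :=
  isReg_matrix fun i j => by
    simp only [Matrix.adjugate_apply]
    refine IsReg.det (isReg_matrix fun a b => ?_)
    simp only [Matrix.updateRow_apply]
    split_ifs <;> fun_prop

@[fun_prop] lemma IsReg.mulVec [Fintype n] {f : X → Matrix m n k} {v : X → n → k}
    (hf : IsReg f) (hv : IsReg v) : IsReg (fun x => (f x).mulVec (v x)) :=
  isReg_pi (W := fun _ => k) fun i => by
    simp only [Matrix.mulVec, dotProduct]
    exact IsReg.fsum fun j _ => (hf.entry i j).mul (hv.app j)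

@[fun_prop] lemma IsReg.pi_smul {c : X → k} {v : X → n → k}
    (hc : IsReg c) (hv : IsReg v) : IsReg (fun x => c x • v x) :=
  isReg_pi (W := fun _ => k) fun i => by
    simp only [Pi.smul_apply, smul_eq_mul]
    exact hc.mul (hv.app i)

lemma isReg_linear [Fintype n] (φ : (n → k) →ₗ[k] k) : IsReg φ := by
  classical
  refine IsReg.congr (f := fun x => ∑ i, x i * φ (Pi.single i 1)) (by fun_prop) fun x => ?_
  rw [LinearMap.pi_apply_eq_sum_univ]
  refine Finset.sum_congr rfl fun i _ => ?_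
  simp only [smul_eq_mul]
  congr 2
  ext j; simp [Pi.single_apply, eq_comm]

lemma isReg_linear' [Fintype n] (φ : (n → k) →ₗ[k] (m → k)) : IsReg φ :=
  isReg_pi (W := fun _ => k) fun i => isReg_linear ((LinearMap.proj i).comp φ)

end matrix

section pull
variable {X Y Z : Type} [Reg k X] [Reg k Y] [Reg k Z]

/-- Evaluation at a point. -/
def ev (x : X) : Oo X →ₐ[k] k := (Pi.evalAlgHom k (fun _ => k) x).comp (Oo X).val

@[simp] lemma ev_apply (x : X) (F : Oo X) : ev x F = F.1 x := rfl

/-- Pull back of regular functions. -/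
def pull (f : X → Y) (hf : IsReg f) : Oo Y →ₐ[k] Oo X :=
  ((pullFun k f).comp (Oo Y).val).codRestrict _ (fun F => hf F.1 F.2)

@[simp] lemma pull_apply (f : X → Y) (hf : IsReg f) (F : Oo Y) (x : X) :
    (pull f hf F).1 x = F.1 (f x) := rfl

/-- A regular function as an element of the algebra. -/
def IsReg.toO {F : X → k} (hF : IsReg F) : Oo X := ⟨F, hF.mem⟩

@[simp] lemma IsReg.toO_apply {F : X → k} (hF : IsReg F) (x : X) : hF.toO.1 x = F x := rfl

lemma O_ext {F G : Oo X} (h : ∀ x, F.1 x = G.1 x) : F = G := Subtype.ext (funext h)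

end pull

end ZipFG
end

-- merged part: Pool.Agent.Work.MP_5c492e_ag.Top
section
/-! Closed sets, irreducible sets. -/

namespace ZipFG

open Function Set

variable {k : Type} [Field k]

section defs
variable {X Y Z : Type} [Reg k X] [Reg k Y] [Reg k Z]

/-- Zariski closure. -/
def zcl (S : Set X) : Set X := {x | ∀ F : X → k, IsReg F → (∀ y ∈ S, F y = 0) → F x = 0}

/-- Zariski closed. -/
def ZClosed (S : Set X) : Prop := zcl S ⊆ S

/-- Irreducible. -/
def Irr (S : Set X) : Prop := S.Nonempty ∧ ∀ F G : X → k, IsReg F → IsReg G →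
  (∀ x ∈ S, F x * G x = 0) → (∀ x ∈ S, F x = 0) ∨ (∀ x ∈ S, G x = 0)

lemma subset_zcl (S : Set X) : S ⊆ zcl S := fun x hx _ _ h => h x hx

lemma zcl_mono {S T : Set X} (h : S ⊆ T) : zcl S ⊆ zcl T :=
  fun _ hx F hF hT => hx F hF fun y hy => hT y (h hy)

lemma zclosed_zcl (S : Set X) : ZClosed (zcl S) :=
  fun _ hx F hF h => hx F hF fun _ hy => hy F hF h

lemma ZClosed.zcl_subset {S C : Set X} (hC : ZClosed C) (h : S ⊆ C) : zcl S ⊆ C :=
  (zcl_mono h).trans hC

lemma ZClosed.eq {C : Set X} (hC : ZClosed C) : zcl C = C := hC.antisymm (subset_zcl C)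

lemma ZClosed.exists_fun {C : Set X} (hC : ZClosed C) {x : X} (hx : x ∉ C) :
    ∃ F : X → k, IsReg F ∧ (∀ y ∈ C, F y = 0) ∧ F x ≠ 0 := by
  by_contra h
  push Not at h
  exact hx (hC h)

lemma zcl_map {f : X → Y} (hf : IsReg f) {S : Set X} {T : Set Y} (h : ∀ y ∈ S, f y ∈ T) {x : X}
    (hx : x ∈ zcl S) : f x ∈ zcl T :=
  fun F hF hT => hx (fun x => F (f x)) (hF.comp hf) fun y hy => hT _ (h y hy)

lemma ZClosed.mem_of_zcl {f : X → Y} (hf : IsReg f) {S : Set X} {C : Set Y} (hC : ZClosed C)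
    (h : ∀ y ∈ S, f y ∈ C) {x : X} (hx : x ∈ zcl S) : f x ∈ C := hC (zcl_map hf h hx)

lemma ZClosed.preimage {f : X → Y} (hf : IsReg f) {C : Set Y} (hC : ZClosed C) :
    ZClosed (f ⁻¹' C) := fun _ hx => hC.mem_of_zcl hf (fun _ hy => hy) hx

lemma zclosed_zero {F : X → k} (hF : IsReg F) : ZClosed {x | F x = 0} :=
  fun _ hx => hx F hF fun _ hy => hy

lemma zclosed_feq {F G : X → k} (hF : IsReg F) (hG : IsReg G) : ZClosed {x | F x = G x} := by
  simpa [sub_eq_zero] using zclosed_zero (hF.sub hG)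

lemma eq_of_zcl {F G : X → k} (hF : IsReg F) (hG : IsReg G) {S : Set X}
    (h : ∀ y ∈ S, F y = G y) {x : X} (hx : x ∈ zcl S) : F x = G x :=
  (zclosed_feq hF hG).zcl_subset h hx

lemma zclosed_univ : ZClosed (univ : Set X) := subset_univ _

lemma zclosed_empty : ZClosed (∅ : Set X) := fun x hx => by
  simpa using hx (fun _ => 1) (isReg_const _) (by simp)

lemma zclosed_iInter {ι : Sort*} {C : ι → Set X} (h : ∀ i, ZClosed (C i)) : ZClosed (⋂ i, C i) :=
  subset_iInter fun i => (h i).zcl_subset (iInter_subset _ i)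

lemma zclosed_forall {ι : Sort*} {P : ι → X → Prop} (h : ∀ i, ZClosed {x | P i x}) :
    ZClosed {x | ∀ i, P i x} := by
  convert zclosed_iInter h using 1
  ext; simp

lemma ZClosed.inter {C D : Set X} (hC : ZClosed C) (hD : ZClosed D) : ZClosed (C ∩ D) :=
  subset_inter (hC.zcl_subset inter_subset_left) (hD.zcl_subset inter_subset_right)

lemma ZClosed.union {C D : Set X} (hC : ZClosed C) (hD : ZClosed D) : ZClosed (C ∪ D) := by
  intro x hx
  by_contra h
  rw [mem_union, not_or] at h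
  obtain ⟨F, hF, hFC, hFx⟩ := hC.exists_fun h.1
  obtain ⟨G, hG, hGD, hGx⟩ := hD.exists_fun h.2
  refine mul_ne_zero hFx hGx (hx _ (hF.mul hG) ?_)
  rintro y (hy | hy)
  · simp [hFC y hy]
  · simp [hGD y hy]

lemma zclosed_biUnion {ι : Type*} {s : Set ι} (hs : s.Finite) {C : ι → Set X}
    (h : ∀ i ∈ s, ZClosed (C i)) : ZClosed (⋃ i ∈ s, C i) := by
  induction s, hs using Set.Finite.induction_on with
  | empty => simpa using zclosed_empty
  | insert _ _ ih =>
    rw [biUnion_insert]
    exact (h _ (mem_insert _ _)).union (ih fun i hi => h i (mem_insert_of_mem _ hi))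

lemma ZClosed.prod {C : Set X} {D : Set Y} (hC : ZClosed C) (hD : ZClosed D) :
    ZClosed (C ×ˢ D) := (hC.preimage isReg_fst).inter (hD.preimage isReg_snd)

lemma ZClosed.image_val {P : X → Prop} (hP : ZClosed {x | P x}) {C : Set (Subtype P)}
    (hC : ZClosed C) : ZClosed (Subtype.val '' C) := by
  intro x hx
  have hxP : P x := hP.zcl_subset (by rintro _ ⟨y, -, rfl⟩; exact y.2) hx
  refine ⟨⟨x, hxP⟩, hC fun F hF h => ?_, rfl⟩
  obtain ⟨F', hF', e⟩ := hF.exists_ext
  rw [← e]
  refine hx F' hF' ?_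
  rintro _ ⟨y, hy, rfl⟩
  rw [e, h y hy]

lemma mem_zcl_subtype {P : X → Prop} {S : Set (Subtype P)} {x : Subtype P}
    (hx : x.1 ∈ zcl (Subtype.val '' S)) : x ∈ zcl S := by
  intro F hF h
  obtain ⟨F', hF', e⟩ := hF.exists_ext
  rw [← e]
  refine hx F' hF' ?_
  rintro _ ⟨y, hy, rfl⟩
  rw [e, h y hy]

lemma Irr.image {f : X → Y} (hf : IsReg f) {S : Set X} (hS : Irr S) : Irr (f '' S) := by
  refine ⟨hS.1.image f, fun F G hF hG h => ?_⟩
  simp only [forall_mem_image] at h ⊢
  exact hS.2 _ _ (hF.comp hf) (hG.comp hf) h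

lemma Irr.range {f : X → Y} (hf : IsReg f) (hS : Irr (univ : Set X)) : Irr (range f) := by
  simpa using hS.image hf

lemma Irr.of_dense {S T : Set X} (hS : Irr S) (h1 : S ⊆ T) (h2 : T ⊆ zcl S) : Irr T := by
  refine ⟨hS.1.mono h1, fun F G hF hG h => ?_⟩
  rcases hS.2 F G hF hG (fun x hx => h x (h1 hx)) with h' | h'
  · exact Or.inl fun x hx => h2 hx F hF h'
  · exact Or.inr fun x hx => h2 hx G hG h'

lemma Irr.zcl {S : Set X} (hS : Irr S) : Irr (zcl S) := hS.of_dense (subset_zcl S) subset_rfl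

lemma Irr.subset_or {S C D : Set X} (hS : Irr S) (hC : ZClosed C) (hD : ZClosed D)
    (h : S ⊆ C ∪ D) : S ⊆ C ∨ S ⊆ D := by
  by_contra h'
  rw [not_or, not_subset, not_subset] at h'
  obtain ⟨⟨x, hx, hxC⟩, ⟨y, hy, hyD⟩⟩ := h'
  obtain ⟨F, hF, hFC, hFx⟩ := hC.exists_fun hxC
  obtain ⟨G, hG, hGD, hGy⟩ := hD.exists_fun hyD
  rcases hS.2 F G hF hG (fun z hz => by
    rcases h hz with h | h
    · simp [hFC z h]
    · simp [hGD z h]) with h' | h'
  · exact hFx (h' x hx)
  · exact hGy (h' y hy)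

lemma Irr.subset_of_biUnion {ι : Type*} {s : Set ι} (hs : s.Finite) {C : ι → Set X}
    (h : ∀ i ∈ s, ZClosed (C i)) {S : Set X} (hS : Irr S) (hc : S ⊆ ⋃ i ∈ s, C i) :
    ∃ i ∈ s, S ⊆ C i := by
  induction s, hs using Set.Finite.induction_on with
  | empty => simp at hc; simpa [hc] using hS.1
  | insert _ hs ih =>
    rw [biUnion_insert] at hc
    rcases hS.subset_or (h _ (mem_insert _ _))
      (zclosed_biUnion hs fun i hi => h i (mem_insert_of_mem _ hi)) hc with h' | h'
    · exact ⟨_, mem_insert _ _, h'⟩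
    · obtain ⟨i, hi, h''⟩ := ih (fun i hi => h i (mem_insert_of_mem _ hi)) h'
      exact ⟨i, mem_insert_of_mem _ hi, h''⟩

lemma Irr.dense {S : Set X} (hS : Irr S) {F : X → k} (hF : IsReg F) {x : X} (hx : x ∈ S)
    (hFx : F x ≠ 0) : S ⊆ ZipFG.zcl {y ∈ S | F y ≠ 0} := by
  intro y hy G hG h
  rcases hS.2 F G hF hG (fun z hz => by
    by_cases h0 : F z = 0
    · simp [h0]
    · simp [h z ⟨hz, h0⟩]) with h' | h'
  · exact absurd (h' x hx) hFx
  · exact h' y hy

lemma Irr.exists_ne {S : Set X} (hS : Irr S) {F G : X → k} (hF : IsReg F) (hG : IsReg G)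
    {x y : X} (hx : x ∈ S) (hFx : F x ≠ 0) (hy : y ∈ S) (hGy : G y ≠ 0) :
    ∃ z ∈ S, F z ≠ 0 ∧ G z ≠ 0 := by
  by_contra h
  push Not at h
  rcases hS.2 F G hF hG (fun z hz => by
    by_cases h0 : F z = 0
    · simp [h0]
    · simp [h z hz h0]) with h' | h'
  · exact hFx (h' x hx)
  · exact hGy (h' y hy)

lemma Irr.const_of_finite {S : Set X} (hS : Irr S) {F : X → k} (hF : IsReg F)
    (hfin : (F '' S).Finite) {x y : X} (hx : x ∈ S) (hy : y ∈ S) : F x = F y := by
  obtain ⟨c, -, hc⟩ := hS.subset_of_biUnion hfin (C := fun c => {x | F x = c})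
    (fun c _ => zclosed_feq hF (isReg_const c)) (fun z hz => by
      simp only [mem_iUnion]; exact ⟨F z, ⟨z, hz, rfl⟩, rfl⟩)
  exact (hc hx).trans (hc hy).symm

lemma Irr.eq_one_of_pow {S : Set X} (hS : Irr S) {F : X → k} (hF : IsReg F) {m : ℕ} (hm : m ≠ 0)
    (h : ∀ x ∈ S, F x ^ m = 1) {x y : X} (hx : x ∈ S) (hy : y ∈ S) : F x = F y := by
  classical
  refine hS.const_of_finite hF ?_ hx hy
  refine ((Polynomial.nthRoots m (1 : k)).toFinset.finite_toSet).subset ?_
  rintro _ ⟨z, hz, rfl⟩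
  simp [Polynomial.mem_nthRoots (Nat.pos_of_ne_zero hm), h z hz]

lemma Irr.prod {S : Set X} {T : Set Y} (hS : Irr S) (hT : Irr T) : Irr (S ×ˢ T) := by
  refine ⟨hS.1.prod hT.1, fun F G hF hG h => ?_⟩
  have h1 : ZClosed {x | ∀ y : T, F (x, y) = 0} := zclosed_forall fun y => zclosed_zero (by fun_prop)
  have h2 : ZClosed {x | ∀ y : T, G (x, y) = 0} := zclosed_forall fun y => zclosed_zero (by fun_prop)
  rcases hS.subset_or h1 h2 (fun x hx => by
    rcases hT.2 (fun y => F (x, y)) (fun y => G (x, y)) (by fun_prop) (by fun_prop)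
      (fun y hy => h (x, y) ⟨hx, hy⟩) with h' | h'
    · exact Or.inl fun y => h' y y.2
    · exact Or.inr fun y => h' y y.2) with h' | h'
  · exact Or.inl fun z hz => h' hz.1 ⟨z.2, hz.2⟩
  · exact Or.inr fun z hz => h' hz.1 ⟨z.2, hz.2⟩

lemma Irr.prod_univ (hS : Irr (univ : Set X)) (hT : Irr (univ : Set Y)) :
    Irr (univ : Set (X × Y)) := by simpa using hS.prod hT

lemma irr_singleton (x : X) : Irr ({x} : Set X) :=
  ⟨singleton_nonempty x, fun F G _ _ h => by simpa using h⟩

lemma irr_of_val {P : X → Prop} {S : Set (Subtype P)} (h : Irr (Subtype.val '' S)) : Irr S := by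
  refine ⟨h.1.of_image, fun F G hF hG hFG => ?_⟩
  obtain ⟨F', hF', e⟩ := hF.exists_ext
  obtain ⟨G', hG', e'⟩ := hG.exists_ext
  have := h.2 F' G' hF' hG' (by rintro _ ⟨y, hy, rfl⟩; rw [e, e', hFG y hy])
  simpa only [forall_mem_image, e, e'] using this

lemma Irr.univ_subtype {P : X → Prop} (h : Irr {x | P x}) : Irr (univ : Set (Subtype P)) :=
  irr_of_val (by convert h; ext; simp)

lemma irr_of_univ_subtype {P : X → Prop} (h : Irr (univ : Set (Subtype P))) : Irr {x | P x} := by
  convert h.image isReg_val; ext; simp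

lemma irr_of_pair {S : Set X} (hne : S.Nonempty)
    (h : ∀ x ∈ S, ∀ y ∈ S, ∃ T, Irr T ∧ T ⊆ S ∧ x ∈ T ∧ y ∈ T) : Irr S := by
  refine ⟨hne, fun F G hF hG hFG => ?_⟩
  by_contra h'
  push Not at h'
  obtain ⟨⟨x, hx, hFx⟩, ⟨y, hy, hGy⟩⟩ := h'
  obtain ⟨T, hT, hTS, hxT, hyT⟩ := h x hx y hy
  obtain ⟨z, hz, h1, h2⟩ := hT.exists_ne hF hG hxT hFx hyT hGy
  exact mul_ne_zero h1 h2 (hFG z (hTS hz))

lemma Irr.isDomain (h : Irr (univ : Set X)) : IsDomain (Oo X) := by
  obtain ⟨x, -⟩ := h.1
  haveI : Nontrivial (Oo X) := ⟨0, 1, fun e => by simpa using congrArg (fun F => F.1 x) e⟩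
  haveI : NoZeroDivisors (Oo X) := ⟨fun {F G} e => by
    rcases h.2 F.1 G.1 (isReg_coe F) (isReg_coe G)
      (fun x _ => by simpa using congrArg (fun F => F.1 x) e) with h' | h'
    · exact Or.inl (O_ext fun x => h' x trivial)
    · exact Or.inr (O_ext fun x => h' x trivial)⟩
  exact NoZeroDivisors.to_isDomain _

end defs

section line
open Polynomial
variable {X : Type} [Reg k X]

lemma isReg_poly (p : k[X]) : IsReg (fun x : k => p.eval x) := by
  simp only [Polynomial.eval_eq_sum_range]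
  fun_prop

lemma IsReg.exists_poly {F : k → k} (hF : IsReg F) : ∃ p : k[X], ∀ x, F x = p.eval x := by
  have : F ∈ Algebra.adjoin k {(id : k → k)} := hF.mem
  rw [Algebra.adjoin_singleton_eq_range_aeval] at this
  obtain ⟨p, rfl⟩ := this
  refine ⟨p, fun x => ?_⟩
  have := aeval_algHom_apply (Pi.evalAlgHom k (fun _ : k => k) x) id p
  simpa [aeval_def, eval₂_eq_eval_map] using this.symm

lemma IsReg.eq_zero_of_infinite {F : k → k} (hF : IsReg F) {S : Set k} (hS : S.Infinite)
    (h : ∀ x ∈ S, F x = 0) (x : k) : F x = 0 := by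
  obtain ⟨p, hp⟩ := hF.exists_poly
  have : p = 0 := p.eq_zero_of_infinite_isRoot (hS.mono fun x hx => by
    simpa [hp] using h x hx)
  simp [hp, this]

lemma infinite_ne_zero [Infinite k] : ({x | x ≠ 0} : Set k).Infinite :=
  Set.infinite_of_finite_compl (by simp)

lemma mem_zcl_curve [Infinite k] {γ : k → X} (hγ : IsReg γ) {S : Set X}
    (h : ∀ t : kˣ, γ t ∈ S) (t : k) : γ t ∈ zcl S := fun F hF hS =>
  (hF.comp hγ).eq_zero_of_infinite infinite_ne_zero
    (fun x hx => hS _ (h (Units.mk0 x hx))) t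

lemma ZClosed.curve [Infinite k] {γ : k → X} (hγ : IsReg γ) {C : Set X} (hC : ZClosed C)
    (h : ∀ t : kˣ, γ t ∈ C) (t : k) : γ t ∈ C := hC (mem_zcl_curve hγ h t)

lemma IsReg.eq_of_units [Infinite k] {F G : k → k} (hF : IsReg F) (hG : IsReg G)
    (h : ∀ t : kˣ, F t = G t) (t : k) : F t = G t :=
  (zclosed_feq hF hG).curve isReg_id h t

lemma irr_field [Infinite k] : Irr (univ : Set k) := by
  refine ⟨univ_nonempty, fun F G hF hG h => ?_⟩
  have : ({x | F x = 0} ∪ {x | G x = 0} : Set k).Infinite := by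
    convert Set.infinite_univ (α := k)
    ext x; simpa using h x trivial
  rcases Set.infinite_union.1 this with h' | h'
  · exact Or.inl fun x _ => hF.eq_zero_of_infinite h' (fun _ h => h) x
  · exact Or.inr fun x _ => hG.eq_zero_of_infinite h' (fun _ h => h) x

lemma IsReg.const_of_ne_zero [IsAlgClosed k] {F : k → k} (hF : IsReg F) (h : ∀ x, F x ≠ 0)
    (x y : k) : F x = F y := by
  obtain ⟨p, hp⟩ := hF.exists_poly
  have : p.degree = 0 := by
    by_contra hd
    obtain ⟨z, hz⟩ := IsAlgClosed.exists_root p hd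
    exact h z (by rw [hp]; exact hz)
  rw [hp, hp, eq_C_of_degree_eq_zero this]; simp

end line

end ZipFG
end

-- merged part: Pool.Agent.Work.MP_5c492e_ag.Aff
section
/-! Affine varieties: Nullstellensatz, noetherian induction, Chevalley. -/

namespace ZipFG

open Function Set

variable {k : Type} [Field k]

/-- Affine varieties. -/
class Aff (X : Type) [Reg k X] : Prop where
  fg : (Oo X).FG
  pts : ∀ φ : Oo X →ₐ[k] k, ∃ x, ∀ F : Oo X, φ F = F.1 x
  sep : ∀ x y : X, (∀ F : X → k, IsReg F → F x = F y) → x = y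

section inst
variable {X Y : Type} [Reg k X] [Reg k Y]

lemma aff_sep [Aff X] {x y : X} (h : ∀ F : X → k, IsReg F → F x = F y) : x = y := Aff.sep _ _ h

lemma aff_pts [Aff X] (φ : Oo X →ₐ[k] k) : ∃ x, ∀ F : Oo X, φ F = F.1 x := Aff.pts φ

lemma algHom_eq_ev (φ : Oo X →ₐ[k] k) (x : X)
    (h : Oo X ≤ (AlgHom.equalizer φ (ev x)).map (Oo X).val) (F : Oo X) : φ F = F.1 x := by
  obtain ⟨F', h1, h2⟩ := h F.2
  obtain rfl : F' = F := Subtype.ext h2
  exact h1

instance : Aff k where
  fg := ⟨{id}, by simp; rfl⟩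
  pts φ := ⟨φ (isReg_id.toO), algHom_eq_ev _ _ (by
    change Algebra.adjoin k {id} ≤ _
    rw [Algebra.adjoin_le_iff, Set.singleton_subset_iff]
    exact ⟨isReg_id.toO, rfl, rfl⟩)⟩
  sep x y h := h _ isReg_id

instance [Aff X] [Aff Y] : Aff (X × Y) where
  fg := ((Aff.fg (X := X)).map _).sup ((Aff.fg (X := Y)).map _)
  pts φ := by
    obtain ⟨x, hx⟩ := Aff.pts (φ.comp (pull _ isReg_fst))
    obtain ⟨y, hy⟩ := Aff.pts (φ.comp (pull _ isReg_snd))
    refine ⟨(x, y), algHom_eq_ev _ _ (sup_le ?_ ?_)⟩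
    · rintro _ ⟨F, hF, rfl⟩
      exact ⟨pull _ isReg_fst ⟨F, hF⟩, hx ⟨F, hF⟩, rfl⟩
    · rintro _ ⟨F, hF, rfl⟩
      exact ⟨pull _ isReg_snd ⟨F, hF⟩, hy ⟨F, hF⟩, rfl⟩
  sep x y h := Prod.ext (Aff.sep _ _ fun F hF => h _ (hF.comp isReg_fst))
    (Aff.sep _ _ fun F hF => h _ (hF.comp isReg_snd))

lemma fg_iSup {A ι : Type} [CommRing A] [Algebra k A] [Finite ι] {S : ι → Subalgebra k A}
    (h : ∀ i, (S i).FG) : (⨆ i, S i).FG := by
  choose t ht ht' using fun i => Subalgebra.fg_def.1 (h i)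
  refine Subalgebra.fg_def.2 ⟨⋃ i, t i, finite_iUnion ht, ?_⟩
  rw [Algebra.adjoin_iUnion]; simp [ht']

instance {ι : Type} [Finite ι] {W : ι → Type} [∀ i, Reg k (W i)] [∀ i, Aff (W i)] :
    Aff (∀ i, W i) where
  fg := fg_iSup fun i => (Aff.fg (X := W i)).map _
  pts φ := by
    choose x hx using fun i => Aff.pts (φ.comp (pull _ (isReg_apply (W := W) i)))
    refine ⟨x, algHom_eq_ev _ _ (iSup_le fun i => ?_)⟩
    rintro _ ⟨F, hF, rfl⟩
    exact ⟨pull _ (isReg_apply i) ⟨F, hF⟩, hx i ⟨F, hF⟩, rfl⟩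
  sep x y h := funext fun i => Aff.sep _ _ fun F hF => h _ (hF.comp (isReg_apply i))

instance {m n : Type} [Finite m] [Finite n] : Aff (Matrix m n k) :=
  inferInstanceAs (Aff (m → n → k))

lemma Aff.induced {X' : Type} [Aff Y] {f : X' → Y} (hf : Injective f) (hc : ZClosed (range f)) :
    @Aff k _ X' (Reg.induced f) := by
  letI : Reg k X' := Reg.induced f
  have hfr : IsReg f := isReg_induced_iff.1 isReg_id
  refine ⟨(Aff.fg (X := Y)).map _, fun φ => ?_, fun x y h => hf (Aff.sep _ _ fun F hF =>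
    h _ (hF.comp hfr))⟩
  obtain ⟨y, hy⟩ := Aff.pts (φ.comp (pull f hfr))
  obtain ⟨x, rfl⟩ : y ∈ range f := hc fun F hF h => by
    have h0 : pull f hfr hF.toO = 0 := O_ext fun x => h _ ⟨x, rfl⟩
    have := hy hF.toO
    rw [AlgHom.comp_apply, h0, map_zero] at this
    exact this.symm
  refine ⟨x, ?_⟩
  rintro ⟨_, F, hF, rfl⟩
  exact hy ⟨F, hF⟩

lemma ZClosed.aff [Aff X] {P : X → Prop} (h : ZClosed {x | P x}) : Aff (Subtype P) :=
  Aff.induced Subtype.val_injective (by convert h; ext; simp)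

lemma zclosed_eq [Aff Y] {f g : X → Y} (hf : IsReg f) (hg : IsReg g) :
    ZClosed {x | f x = g x} := fun _ hx =>
  Aff.sep _ _ fun _ hF => eq_of_zcl (hF.comp hf) (hF.comp hg) (fun _ hy => congrArg _ hy) hx

lemma zclosed_singleton [Aff X] (x : X) : ZClosed ({x} : Set X) :=
  zclosed_eq isReg_id (isReg_const x)

lemma zclosed_finite [Aff X] {S : Set X} (h : S.Finite) : ZClosed S := by
  simpa using zclosed_biUnion h (C := fun x => {x}) fun x _ => zclosed_singleton x

lemma Irr.eq_of_finite [Aff Y] {S : Set X} (hS : Irr S) {f : X → Y} (hf : IsReg f)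
    (hfin : (f '' S).Finite) {x y : X} (hx : x ∈ S) (hy : y ∈ S) : f x = f y :=
  Aff.sep _ _ fun F hF => hS.const_of_finite (hF.comp hf)
    (by simpa [image_image] using hfin.image F) hx hy

instance {M : Type} [Monoid M] [Reg k M] [RegMul M] [Aff M] : Aff Mˣ :=
  Aff.induced (fun a b h => Units.ext (congrArg Prod.fst h)) (by
    have : ZClosed ({p : M × M | p.1 * p.2 = 1} ∩ {p : M × M | p.2 * p.1 = 1}) :=
      (zclosed_eq (by fun_prop) (by fun_prop)).inter (zclosed_eq (by fun_prop) (by fun_prop))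
    convert this
    ext ⟨a, b⟩
    constructor
    · rintro ⟨u, h⟩
      obtain ⟨rfl, rfl⟩ := Prod.ext_iff.1 h
      simp
    · rintro ⟨h1, h2⟩
      exact ⟨⟨a, b, h1, h2⟩, rfl⟩)

end inst

section noeth
variable {X Y : Type} [Reg k X] [Reg k Y]

instance [Aff X] : Algebra.FiniteType k (Oo X) := ⟨(Oo X).fg_top.2 Aff.fg⟩

instance [Aff X] : IsNoetherianRing (Oo X) := isNoetherianRing_of_fg Aff.fg

/-- The ideal of functions vanishing on a set. -/
def vanI (S : Set X) : Ideal (Oo X) where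
  carrier := {F | ∀ x ∈ S, F.1 x = 0}
  add_mem' {F G} hF hG x hx := by simp [hF x hx, hG x hx]
  zero_mem' _ _ := rfl
  smul_mem' c F hF x hx := by simp [hF x hx]

lemma mem_vanI {S : Set X} {F : Oo X} : F ∈ vanI S ↔ ∀ x ∈ S, F.1 x = 0 := Iff.rfl

/-- The maximal ideal of a point. -/
def mx (x : X) : Ideal (Oo X) := RingHom.ker (ev x)

lemma mem_mx {x : X} {F : Oo X} : F ∈ mx x ↔ F.1 x = 0 := Iff.rfl

instance (x : X) : (mx x).IsMaximal :=
  RingHom.ker_isMaximal_of_surjective _ fun c => ⟨algebraMap k _ c, rfl⟩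

lemma exists_minimal_closed [Aff X] {ι : Type*} (P : ι → Prop) (f : ι → Set X)
    (hcl : ∀ i, P i → ZClosed (f i)) (hne : ∃ i, P i) :
    ∃ i, P i ∧ ∀ j, P j → f j ⊆ f i → f i ⊆ f j := by
  obtain ⟨i0, hi0⟩ := hne
  obtain ⟨_, ⟨i, hi, rfl⟩, hmax⟩ := set_has_maximal_iff_noetherian.2
    (inferInstance : IsNoetherian (Oo X) (Oo X)) {I | ∃ i, P i ∧ vanI (f i) = I}
    ⟨_, i0, hi0, rfl⟩
  refine ⟨i, hi, fun j hj hji x hx => hcl j hj fun F hF h => ?_⟩
  have hle : vanI (f i) ≤ vanI (f j) := fun F hF y hy => hF y (hji hy)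
  have := eq_of_le_of_not_lt hle (hmax _ ⟨j, hj, rfl⟩)
  have h2 : hF.toO ∈ vanI (f j) := h
  rw [← this] at h2
  exact h2 x hx

variable [IsAlgClosed k]

lemma exists_algHom_of_max {A : Type*} [CommRing A] [Algebra k A] [Algebra.FiniteType k A]
    (m : Ideal A) [hm : m.IsMaximal] : ∃ φ : A →ₐ[k] k, ∀ a, φ a = 0 ↔ a ∈ m := by
  letI := Ideal.Quotient.field m
  have : Module.Finite k (A ⧸ m) := finite_of_finite_type_of_isJacobsonRing k (A ⧸ m)
  let e : k ≃ₐ[k] A ⧸ m := AlgEquiv.ofBijective (Algebra.ofId k _)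
    IsAlgClosed.algebraMap_bijective_of_isIntegral
  refine ⟨e.symm.toAlgHom.comp (Ideal.Quotient.mkₐ k m), fun a => ?_⟩
  simp [Ideal.Quotient.eq_zero_iff_mem]

lemma exists_point_of_max [Aff X] (m : Ideal (Oo X)) [hm : m.IsMaximal] : ∃ x, m = mx x := by
  obtain ⟨φ, hφ⟩ := exists_algHom_of_max (k := k) m
  obtain ⟨x, hx⟩ := Aff.pts φ
  exact ⟨x, Ideal.ext fun F => by rw [← hφ, hx, mem_mx]⟩

lemma nullst [Aff X] (I : Ideal (Oo X)) (F : Oo X)
    (h : ∀ x, (∀ G ∈ I, G.1 x = 0) → F.1 x = 0) : ∃ N, F ^ N ∈ I := by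
  have : IsJacobsonRing (Oo X) := isJacobsonRing_of_finiteType (A := k)
  change F ∈ I.radical
  rw [I.radical_eq_jacobson, Ideal.jacobson, Ideal.mem_sInf]
  rintro m ⟨hIm, hm⟩
  obtain ⟨x, rfl⟩ := exists_point_of_max m
  exact h x fun G hG => hIm hG

lemma eq_top_of_no_zero [Aff X] (I : Ideal (Oo X)) (h : ∀ x, ∃ G ∈ I, G.1 x ≠ 0) : I = ⊤ := by
  obtain ⟨N, hN⟩ := nullst I 1 fun x hx => by
    obtain ⟨G, hG, h'⟩ := h x
    exact absurd (hx G hG) h'
  rwa [one_pow, ← Ideal.eq_top_iff_one] at hN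

lemma exists_pow_eq_mul [Aff X] {F G : X → k} (hF : IsReg F) (hG : IsReg G)
    (h : ∀ x, G x = 0 → F x = 0) : ∃ (N : ℕ) (H : X → k), IsReg H ∧ ∀ x, F x ^ N = H x * G x := by
  obtain ⟨N, hN⟩ := nullst (Ideal.span {hG.toO}) hF.toO fun x hx =>
    h x (hx _ (Ideal.mem_span_singleton_self _))
  obtain ⟨H, hH⟩ := Ideal.mem_span_singleton'.1 hN
  exact ⟨N, H.1, isReg_coe H, fun x => by simpa using congrArg (fun F => F.1 x) hH.symm⟩

omit [IsAlgClosed k] in
open PrimeSpectrum Topology in
lemma constructible_dichotomy {R : Type*} [CommRing R] (p : PrimeSpectrum R)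
    {s : Set (PrimeSpectrum R)} (hs : IsConstructible s) :
    ∃ f ∉ p.asIdeal, (p ∈ s → ∀ q, p ≤ q → f ∉ q.asIdeal → q ∈ s) ∧
      (p ∉ s → ∀ q, p ≤ q → f ∉ q.asIdeal → q ∉ s) := by
  induction hs using IsConstructible.empty_union_induction with
  | open_retrocompact U hU _ =>
    by_cases hp : p ∈ U
    · obtain ⟨_, ⟨_, ⟨f, rfl⟩, rfl⟩, hxf, hf⟩ :=
        isBasis_basic_opens.exists_subset_of_mem_open hp hU
      exact ⟨f, by simpa using hxf, fun _ q _ hq => hf (by simpa using hq), fun h => absurd hp h⟩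
    · refine ⟨1, (Ideal.ne_top_iff_one _).1 p.isPrime.ne_top, fun h => absurd h hp,
        fun _ q hq _ hqU => hp ?_⟩
      exact hU.stableUnderGeneralization ((le_iff_specializes p q).1 hq) hqU
  | union s _ t _ hs ht =>
    obtain ⟨f, hf, h1, h2⟩ := hs
    obtain ⟨g, hg, h3, h4⟩ := ht
    refine ⟨f * g, fun h => (p.isPrime.mem_or_mem h).elim hf hg, fun hp q hq hfg => ?_,
      fun hp q hq hfg => ?_⟩
    · rcases hp with hp | hp
      · exact Or.inl (h1 hp q hq fun h => hfg (Ideal.mul_mem_right _ _ h))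
      · exact Or.inr (h3 hp q hq fun h => hfg (Ideal.mul_mem_left _ _ h))
    · rw [mem_union, not_or] at hp ⊢
      exact ⟨h2 hp.1 q hq fun h => hfg (Ideal.mul_mem_right _ _ h),
        h4 hp.2 q hq fun h => hfg (Ideal.mul_mem_left _ _ h)⟩
  | compl s _ hs =>
    obtain ⟨f, hf, h1, h2⟩ := hs
    exact ⟨f, hf, fun hp q hq hf => h2 hp q hq hf,
      fun hp q hq hf => not_not.2 (h1 (not_not.1 hp) q hq hf)⟩

/-- Chevalley: the image of an irreducible affine variety contains a dense open subset of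
its closure. -/
lemma chevalley [Aff X] [Aff Y] (hX : Irr (univ : Set X)) {f : X → Y} (hf : IsReg f) :
    ∃ F : Y → k, IsReg F ∧ (∃ x, F (f x) ≠ 0) ∧ ∀ y ∈ zcl (range f), F y ≠ 0 → y ∈ range f := by
  have := hX.isDomain
  let φ : Oo Y →+* Oo X := (pull f hf).toRingHom
  have hφ : φ.FinitePresentation := by
    rw [← RingHom.FinitePresentation.of_finiteType]
    refine RingHom.FiniteType.of_comp_finiteType (f := algebraMap k (Oo Y)) ?_
    rw [show φ.comp (algebraMap k (Oo Y)) = algebraMap k (Oo X) from (pull f hf).comp_algebraMap]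
    exact RingHom.finiteType_algebraMap.2 inferInstance
  let p : PrimeSpectrum (Oo Y) := PrimeSpectrum.comap φ ⟨⊥, inferInstance⟩
  obtain ⟨F, hF, h1, -⟩ := constructible_dichotomy p (PrimeSpectrum.isConstructible_range_comap hφ)
  refine ⟨F.1, isReg_coe F, ?_, fun y hy hFy => ?_⟩
  · by_contra h
    push Not at h
    exact hF (show φ F ∈ (⊥ : Ideal (Oo X)) from O_ext h)
  · obtain ⟨q, hq⟩ := h1 ⟨_, rfl⟩ ⟨mx y, inferInstance⟩ (fun G hG => by
      have hG' : φ G = 0 := hG
      refine hy G.1 (isReg_coe G) ?_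
      rintro _ ⟨x, rfl⟩
      exact congrArg (fun F => F.1 x) hG') hFy
    obtain ⟨m, hm, hqm⟩ := Ideal.exists_le_maximal q.asIdeal q.isPrime.ne_top
    obtain ⟨x, rfl⟩ := exists_point_of_max m
    refine ⟨x, aff_sep fun G hG => ?_⟩
    have h2 : (hG.sub (isReg_const (G y))).toO ∈ mx y := by simp [mem_mx]
    have h3 : (hG.sub (isReg_const (G y))).toO ∈ (PrimeSpectrum.comap φ q).asIdeal := by
      rw [hq]; exact h2
    have h4 := hqm h3
    simpa [mem_mx, φ, sub_eq_zero] using h4

end noeth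

section units
open Polynomial

lemma IsReg.exists_laurent {F : kˣ → k} (hF : IsReg F) :
    F ∈ Submodule.span k (range fun d : ℤ => fun t : kˣ => ((t ^ d : kˣ) : k)) := by
  let M : Submonoid (kˣ → k) :=
    { carrier := range fun d : ℤ => fun t : kˣ => ((t ^ d : kˣ) : k)
      one_mem' := ⟨0, by ext; simp⟩
      mul_mem' := by
        rintro _ _ ⟨a, rfl⟩ ⟨b, rfl⟩
        exact ⟨a + b, by ext; simp [zpow_add]⟩ }
  have h1 : Oo kˣ ≤ Algebra.adjoin k (M : Set (kˣ → k)) := by
    change Subalgebra.map _ (_ ⊔ _) ≤ _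
    rw [Subalgebra.map_le]
    refine sup_le ?_ ?_ <;> rw [Subalgebra.map_le] <;> refine Algebra.adjoin_le ?_ <;>
      rw [Set.singleton_subset_iff] <;> refine Algebra.subset_adjoin ?_
    · exact ⟨1, by ext; simp⟩
    · exact ⟨-1, by ext; simp⟩
  have h2 := h1 hF.mem
  rw [← Subalgebra.mem_toSubmodule, Algebra.adjoin_eq_span, Submonoid.closure_eq] at h2
  exact h2

lemma IsReg.exists_poly_units {F : kˣ → k} (hF : IsReg F) :
    ∃ (N : ℕ) (G : k → k), IsReg G ∧ ∀ t : kˣ, F t * (t : k) ^ N = G t := by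
  have := hF.exists_laurent
  induction this using Submodule.span_induction with
  | mem x hx =>
    obtain ⟨d, rfl⟩ := hx
    refine ⟨d.natAbs, fun t => t ^ (d + d.natAbs).toNat, by fun_prop, fun t => ?_⟩
    beta_reduce
    rw [← zpow_natCast, ← zpow_natCast, Int.toNat_of_nonneg (by omega), zpow_add₀ t.ne_zero]
    simp
  | zero => exact ⟨0, fun _ => 0, by fun_prop, by simp⟩
  | add x y hx hy ihx ihy =>
    have hreg : ∀ z ∈ Submodule.span k (range fun d : ℤ => fun t : kˣ => ((t ^ d : kˣ) : k)),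
        IsReg z := fun z hz => isReg_iff_mem.2 ((Submodule.span_le (p := (Oo kˣ).toSubmodule)).2
          (by rintro _ ⟨d, rfl⟩; exact IsReg.mem (by fun_prop)) hz)
    obtain ⟨N, G, hG, e⟩ := ihx (hreg _ hx)
    obtain ⟨N', G', hG', e'⟩ := ihy (hreg _ hy)
    refine ⟨N + N', fun t => G t * t ^ N' + G' t * t ^ N, by fun_prop, fun t => ?_⟩
    simp only [← e, ← e', Pi.add_apply]; ring
  | smul c x hx ih =>
    have hreg : IsReg x := isReg_iff_mem.2 ((Submodule.span_le (p := (Oo kˣ).toSubmodule)).2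
          (by rintro _ ⟨d, rfl⟩; exact IsReg.mem (by fun_prop)) hx)
    obtain ⟨N, G, hG, e⟩ := ih hreg
    refine ⟨N, fun t => c * G t, by fun_prop, fun t => ?_⟩
    simp only [← e, Pi.smul_apply, smul_eq_mul]; ring

lemma irr_units [Infinite k] : Irr (univ : Set kˣ) := by
  refine ⟨univ_nonempty, fun F G hF hG h => ?_⟩
  obtain ⟨N, F', hF', e⟩ := hF.exists_poly_units
  obtain ⟨N', G', hG', e'⟩ := hG.exists_poly_units
  have := irr_field.2 F' G' hF' hG' fun x _ =>
    IsReg.eq_of_units (F := fun x => F' x * G' x) (G := fun _ => 0) (by fun_prop) (by fun_prop)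
      (fun t => by
        rw [← e, ← e']
        linear_combination (t : k) ^ N * (t : k) ^ N' * h t trivial) x
  rcases this with h' | h'
  · exact Or.inl fun t _ => by simpa [h' t trivial] using e t
  · exact Or.inr fun t _ => by simpa [h' t trivial] using e' t

end units

section loc
variable {X : Type} [Reg k X]

/-- The basic open set where `δ` does not vanish, as a closed subset of `X × k`. -/
abbrev Loc (δ : X → k) : Type := {z : X × k // δ z.1 * z.2 = 1}

/-- A point of the basic open set. -/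
def Loc.mk' {δ : X → k} (x : X) (h : δ x ≠ 0) : Loc δ := ⟨(x, (δ x)⁻¹), mul_inv_cancel₀ h⟩

lemma Loc.ne {δ : X → k} (z : Loc δ) : δ z.1.1 ≠ 0 := left_ne_zero_of_mul_eq_one z.2

lemma Loc.snd_eq {δ : X → k} (z : Loc δ) : z.1.2 = (δ z.1.1)⁻¹ := eq_inv_of_mul_eq_one_right z.2

lemma Loc.aff [Aff X] {δ : X → k} (hδ : IsReg δ) : Aff (Loc δ) :=
  ZClosed.aff (zclosed_feq (by fun_prop) (by fun_prop))

lemma IsReg.exists_loc {δ : X → k} (hδ : IsReg δ) {φ : Loc δ → k} (hφ : IsReg φ) :
    ∃ (N : ℕ) (F : X → k), IsReg F ∧ ∀ z : Loc δ, φ z * δ z.1.1 ^ N = F z.1.1 := by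
  let A : Subalgebra k (Loc δ → k) :=
    { carrier := {φ | ∃ (N : ℕ) (F : X → k), IsReg F ∧ ∀ z : Loc δ, φ z * δ z.1.1 ^ N = F z.1.1}
      mul_mem' := by
        rintro a b ⟨N, F, hF, e⟩ ⟨N', F', hF', e'⟩
        refine ⟨N + N', fun x => F x * F' x, by fun_prop, fun z => ?_⟩
        simp only [← e, ← e', Pi.mul_apply]; ring
      add_mem' := by
        rintro a b ⟨N, F, hF, e⟩ ⟨N', F', hF', e'⟩
        refine ⟨N + N', fun x => F x * δ x ^ N' + F' x * δ x ^ N, by fun_prop, fun z => ?_⟩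
        simp only [← e, ← e', Pi.add_apply]; ring
      algebraMap_mem' := fun c => ⟨0, fun _ => c, by fun_prop, by simp⟩ }
  have : Oo (Loc δ) ≤ A := by
    change Subalgebra.map _ (_ ⊔ _) ≤ _
    rw [Subalgebra.map_le]
    refine sup_le ?_ ?_
    · rintro _ ⟨F, hF, rfl⟩
      exact ⟨0, F, isReg_iff_mem.2 hF, by simp⟩
    · rw [Subalgebra.map_le]
      refine Algebra.adjoin_le ?_
      rw [Set.singleton_subset_iff]
      exact ⟨1, fun _ => 1, by fun_prop, fun z => by simpa [mul_comm] using z.2⟩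
  exact this hφ.mem

/-- A regular map on a basic open set which maps a dense subset into a closed set. -/
lemma Loc.mem_closed {Y : Type} [Reg k Y] {δ : X → k} (hδ : IsReg δ) {φ : Loc δ → Y}
    (hφ : IsReg φ) {C : Set Y} (hC : ZClosed C) {S : Set X}
    (h : ∀ z : Loc δ, z.1.1 ∈ S → φ z ∈ C) (z : Loc δ) (hz : z.1.1 ∈ zcl S) : φ z ∈ C := by
  refine hC fun F hF hFC => ?_
  obtain ⟨N, F', hF', e⟩ := hδ.exists_loc (hF.comp hφ)
  have := hz (fun x => F' x * δ x) (by fun_prop) fun y hy => by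
    by_cases h0 : δ y = 0
    · simp [h0]
    · have := e (Loc.mk' y h0)
      rw [hFC _ (h _ hy)] at this
      simp only [Loc.mk', zero_mul] at this
      simp [← this]
  simp only [← e] at this
  simpa [z.ne] using this

end loc

end ZipFG
end

-- merged part: Pool.Agent.Work.MP_5c492e_ag.RegV
section
/-! Regular maps to vector spaces, weight spaces. -/

namespace ZipFG

open Function Set Submodule

variable {k : Type} [Field k]

section regv
variable {X Y : Type} [Reg k X] [Reg k Y]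
variable {W W' W'' : Type*} [AddCommGroup W] [Module k W] [AddCommGroup W'] [Module k W']
  [AddCommGroup W''] [Module k W'']

/-- Regular maps to a vector space. -/
inductive RegV {k : Type} [Field k] {X : Type} [Reg k X] {W : Type*} [AddCommGroup W]
    [Module k W] : (X → W) → Prop
  | smul_const {a : X → k} (ha : IsReg a) (w : W) : RegV (fun x => a x • w)
  | add {φ ψ : X → W} (h : RegV φ) (h' : RegV ψ) : RegV (fun x => φ x + ψ x)

lemma regV_smul_const {a : X → k} (ha : IsReg a) (w : W) : RegV (fun x => a x • w) :=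
  .smul_const ha w

lemma regV_const (w : W) : RegV (fun _ : X => w) := by
  simpa using regV_smul_const (a := fun _ : X => (1 : k)) (isReg_const _) w

lemma RegV.congr {φ ψ : X → W} (h : RegV φ) (e : ∀ x, φ x = ψ x) : RegV ψ := by
  rwa [← funext e]

lemma RegV.sum {ι : Type*} {s : Finset ι} {φ : ι → X → W} (h : ∀ i ∈ s, RegV (φ i)) :
    RegV (fun x => ∑ i ∈ s, φ i x) := by
  classical
  induction s using Finset.induction_on with
  | empty => simpa using regV_const 0
  | insert a s ha ih =>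
    simp only [Finset.sum_insert ha]
    exact (h a (by simp)).add (ih fun i hi => h i (by simp [hi]))

lemma RegV.map {φ : X → W} (h : RegV φ) (L : W →ₗ[k] W') : RegV (fun x => L (φ x)) := by
  induction h with
  | smul_const ha w => simpa using regV_smul_const ha (L w)
  | add _ _ h1 h2 => simpa using h1.add h2

lemma RegV.sub {φ ψ : X → W} (h : RegV φ) (h' : RegV ψ) : RegV (fun x => φ x - ψ x) := by
  simpa [sub_eq_add_neg] using h.add (h'.map (-LinearMap.id))

lemma RegV.comp {φ : X → W} (h : RegV φ) {f : Y → X} (hf : IsReg f) : RegV (fun y => φ (f y)) := by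
  induction h with
  | smul_const ha w => exact regV_smul_const (ha.comp hf) w
  | add _ _ h1 h2 => exact h1.add h2

lemma RegV.lin {φ : X → W} (h : RegV φ) (η : W →ₗ[k] k) : IsReg (fun x => η (φ x)) := by
  induction h with
  | smul_const ha w => simp only [map_smul, smul_eq_mul]; fun_prop
  | add _ _ h1 h2 => simpa using h1.add h2

lemma RegV.bilin {φ : X → W} {ψ : X → W'} (h : RegV φ) (h' : RegV ψ)
    (B : W →ₗ[k] W' →ₗ[k] W'') : RegV (fun x => B (φ x) (ψ x)) := by
  induction h with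
  | smul_const ha w =>
    induction h' with
    | smul_const ha' w' =>
      simpa [smul_smul, mul_comm] using regV_smul_const (ha.mul ha') (B w w')
    | add _ _ h1 h2 => simpa using h1.add h2
  | add _ _ h1 h2 => simpa using h1.add h2

lemma IsReg.regV {a : X → k} (ha : IsReg a) : RegV a := by
  simpa using regV_smul_const ha (1 : k)

lemma RegV.smul {a : X → k} {φ : X → W} (ha : IsReg a) (h : RegV φ) :
    RegV (fun x => a x • φ x) := ha.regV.bilin h (LinearMap.lsmul k W)

lemma RegV.mul {A : Type*} [Ring A] [Algebra k A] {φ ψ : X → A} (h : RegV φ) (h' : RegV ψ) :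
    RegV (fun x => φ x * ψ x) := h.bilin h' (LinearMap.mul k A)

lemma RegV.apply {φ : X → W →ₗ[k] W'} {ψ : X → W} (h : RegV φ) (h' : RegV ψ) :
    RegV (fun x => φ x (ψ x)) := h.bilin h' LinearMap.id

lemma RegV.fd {φ : X → W} (h : RegV φ) : FiniteDimensional k (span k (range φ)) := by
  have : ∃ V : Submodule k W, V.FG ∧ ∀ x, φ x ∈ V := by
    induction h with
    | smul_const ha w =>
      exact ⟨span k {w}, fg_span_singleton w, fun x => smul_mem _ _ (mem_span_singleton_self w)⟩
    | add _ _ h1 h2 =>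
      obtain ⟨V, hV, h1⟩ := h1
      obtain ⟨V', hV', h2⟩ := h2
      exact ⟨V ⊔ V', hV.sup hV', fun x => add_mem_sup (h1 x) (h2 x)⟩
  obtain ⟨V, hV, h⟩ := this
  have : FiniteDimensional k V := Module.Finite.iff_fg.2 hV
  exact Submodule.finiteDimensional_of_le (span_le.2 (range_subset_iff.2 h))

lemma exists_basis_expansion (V : Submodule k W) [FiniteDimensional k V] :
    ∃ (m : ℕ) (w : Fin m → W) (η : Fin m → W →ₗ[k] k), (∀ i, w i ∈ V) ∧
      (∀ i j, η i (w j) = if i = j then 1 else 0) ∧ ∀ v ∈ V, v = ∑ i, η i v • w i := by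
  let b := Module.finBasis k V
  choose η hη using fun i => LinearMap.exists_extend (b.coord i)
  have hη' : ∀ i (v : V), η i v = b.repr v i := fun i v => LinearMap.congr_fun (hη i) v
  refine ⟨_, fun i => b i, η, fun i => (b i).2, fun i j => ?_, fun v hv => ?_⟩
  · rw [hη']; simp [Finsupp.single_apply, eq_comm]
  · have := congrArg V.subtype (b.sum_repr ⟨v, hv⟩)
    simp only [map_sum, map_smul, subtype_apply] at this
    rw [← this]
    refine Finset.sum_congr rfl fun i _ => ?_
    rw [this, ← hη' i ⟨v, hv⟩]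

lemma regV_of_fd {φ : X → W} (V : Submodule k W) [FiniteDimensional k V] (hV : ∀ x, φ x ∈ V)
    (h : ∀ η : W →ₗ[k] k, IsReg (fun x => η (φ x))) : RegV φ := by
  obtain ⟨m, w, η, -, -, e⟩ := exists_basis_expansion V
  exact (RegV.sum fun i _ => regV_smul_const (h (η i)) (w i)).congr fun x => (e _ (hV x)).symm

lemma RegV.codRestrict {φ : X → W} (h : RegV φ) (V : Submodule k W) (hV : ∀ x, φ x ∈ V) :
    RegV (fun x => (⟨φ x, hV x⟩ : V)) := by
  obtain ⟨π, hπ⟩ := V.subtype.exists_leftInverse_of_injective V.ker_subtype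
  exact (h.map π).congr fun x => LinearMap.congr_fun hπ ⟨φ x, hV x⟩

lemma RegV.of_injective {φ : X → W} (L : W →ₗ[k] W') (hL : Injective L)
    (h : RegV (fun x => L (φ x))) : RegV φ := by
  obtain ⟨π, hπ⟩ := L.exists_leftInverse_of_injective (LinearMap.ker_eq_bot.2 hL)
  exact (h.map π).congr fun x => LinearMap.congr_fun hπ (φ x)

lemma mem_of_forall_dual {V : Submodule k W} {w : W}
    (h : ∀ η : W →ₗ[k] k, (∀ v ∈ V, η v = 0) → η w = 0) : w ∈ V := by
  by_contra hw
  obtain ⟨η, h1, h2⟩ := V.exists_dual_map_eq_bot_of_notMem hw inferInstance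
  refine h1 (h η fun v hv => ?_)
  have : η v ∈ V.map η := mem_map_of_mem hv
  rwa [h2] at this

lemma RegV.zclosed_mem {φ : X → W} (h : RegV φ) (V : Submodule k W) : ZClosed {x | φ x ∈ V} :=
  fun _ hx => mem_of_forall_dual fun η hη => hx _ (h.lin η) fun _ hy => hη _ hy

lemma RegV.zclosed_eq {φ ψ : X → W} (h : RegV φ) (h' : RegV ψ) : ZClosed {x | φ x = ψ x} := by
  simpa [sub_eq_zero] using (h.sub h').zclosed_mem ⊥

lemma IsReg.regV_pi {ι : Type} [Finite ι] {φ : X → ι → k} (h : IsReg φ) : RegV φ := by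
  have := Fintype.ofFinite ι
  exact regV_of_fd ⊤ (fun _ => trivial) fun η => (isReg_linear η).comp h

lemma RegV.isReg_pi {ι : Type} {φ : X → ι → k} (h : RegV φ) : IsReg φ :=
  ZipFG.isReg_pi (W := fun _ => k) fun i => h.lin (LinearMap.proj i)

lemma zclosed_submodule {ι : Type} [Finite ι] (V : Submodule k (ι → k)) :
    ZClosed (V : Set (ι → k)) := (isReg_id.regV_pi).zclosed_mem V

lemma IsReg.curry {F : X × Y → k} (hF : IsReg F) : RegV (fun x => fun y => F (x, y)) := by
  let A : Subalgebra k (X × Y → k) :=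
    { carrier := {F | RegV (fun x => fun y => F (x, y))}
      mul_mem' := fun ha hb => RegV.mul ha hb
      add_mem' := fun ha hb => RegV.add ha hb
      algebraMap_mem' := fun c => regV_const (fun _ => c) }
  have : Oo (X × Y) ≤ A := by
    refine sup_le ?_ ?_
    · rintro _ ⟨F, hF, rfl⟩
      exact (regV_smul_const (isReg_iff_mem.2 hF) (fun _ : Y => (1 : k))).congr fun x => by
        ext; simp
    · rintro _ ⟨F, hF, rfl⟩
      exact regV_const F
  exact this hF.mem

lemma IsReg.curryO {F : X × Y → k} (hF : IsReg F) {φ : X → Oo Y}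
    (h : ∀ x y, (φ x).1 y = F (x, y)) : RegV φ :=
  RegV.of_injective (Oo Y).val.toLinearMap Subtype.val_injective
    (hF.curry.congr fun x => funext fun y => (h x y).symm)

lemma RegV.uncurry {φ : X → Oo Y} (h : RegV φ) : IsReg (fun p : X × Y => (φ p.1).1 p.2) := by
  induction h with
  | smul_const ha w => exact (ha.comp isReg_fst).mul ((isReg_coe w).comp isReg_snd)
  | add _ _ h1 h2 => exact h1.add h2

lemma RegV.uncurry' {φ : X → Y → k} (h : RegV φ) (h' : ∀ x, IsReg (φ x)) :
    IsReg (fun p : X × Y => φ p.1 p.2) :=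
  RegV.uncurry (φ := fun x => (h' x).toO) (h.codRestrict (Oo Y).toSubmodule fun x => (h' x).mem)

end regv

section wt
variable {M : Type*} {W : Type*} [AddCommGroup W] [Module k W]

/-- Weight space. -/
def Wt (c : M → W →ₗ[k] W) (χ : M → k) : Submodule k W where
  carrier := {w | ∀ t, c t w = χ t • w}
  add_mem' ha hb t := by rw [map_add, ha t, hb t, smul_add]
  zero_mem' t := by simp
  smul_mem' a w hw t := by rw [map_smul, hw t, smul_comm]

lemma mem_Wt {c : M → W →ₗ[k] W} {χ : M → k} {w : W} : w ∈ Wt c χ ↔ ∀ t, c t w = χ t • w :=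
  Iff.rfl

lemma wt_stable (c : M → W →ₗ[k] W) (S : Set (M → k)) (t : M) {z : W}
    (hz : z ∈ ⨆ χ ∈ S, Wt c χ) : c t z ∈ ⨆ χ ∈ S, Wt c χ := by
  have : (⨆ χ ∈ S, Wt c χ) ≤ (⨆ χ ∈ S, Wt c χ).comap (c t) := by
    refine iSup₂_le fun χ hχ w hw => ?_
    rw [mem_comap, hw t]
    exact smul_mem _ _ (le_iSup₂_of_le (f := fun χ (_ : χ ∈ S) => Wt c χ) χ hχ le_rfl hw)
  exact this hz

lemma wt_comp_aux {c : M → W →ₗ[k] W} {V : Submodule k W} (hV : ∀ t, ∀ v ∈ V, c t v ∈ V)
    {χ : M → k} (s : Finset (M → k)) (hs : χ ∉ s) :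
    ∀ w ∈ Wt c χ, ∀ z ∈ ⨆ χ' ∈ (s : Set (M → k)), Wt c χ', w + z ∈ V → w ∈ V := by
  classical
  induction s using Finset.induction_on with
  | empty => intro w _ z hz h; simp at hz; simpa [hz] using h
  | insert a s ha ih =>
    intro w hw z hz h
    rw [Finset.mem_insert, not_or] at hs
    rw [Finset.coe_insert, iSup_insert] at hz
    obtain ⟨z1, hz1, z2, hz2, rfl⟩ := mem_sup.1 hz
    obtain ⟨t, ht⟩ := Function.ne_iff.1 hs.1
    have h1 : c t (w + (z1 + z2)) - a t • (w + (z1 + z2)) ∈ V := sub_mem (hV t _ h) (smul_mem _ _ h)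
    have h2 : c t (w + (z1 + z2)) - a t • (w + (z1 + z2)) =
        (χ t - a t) • w + (c t z2 - a t • z2) := by
      rw [map_add, map_add, hw t, hz1 t]; module
    rw [h2] at h1
    have := ih hs.2 _ (smul_mem _ _ hw) _ (sub_mem (wt_stable c _ t hz2) (smul_mem _ _ hz2)) h1
    exact (smul_mem_iff _ (sub_ne_zero.2 ht)).1 this

lemma exists_finset_biSup {ι : Type*} {p : ι → Submodule k W} {S : Set ι} {z : W}
    (hz : z ∈ ⨆ i ∈ S, p i) : ∃ s : Finset ι, ↑s ⊆ S ∧ z ∈ ⨆ i ∈ (s : Set ι), p i := by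
  classical
  rw [← iSup_subtype''] at hz
  obtain ⟨s, hs⟩ := Submodule.mem_iSup_iff_exists_finset.1 hz
  refine ⟨s.image Subtype.val, by intro x hx; simp at hx; exact hx.1, ?_⟩
  refine (iSup₂_le fun i hi => ?_ : (⨆ i ∈ s, p i.1) ≤ _) hs
  exact le_iSup₂_of_le (f := fun i (_ : i ∈ ((s.image Subtype.val : Finset ι) : Set ι)) => p i)
    i.1 (by simpa using hi) le_rfl

/-- Extraction of a weight component. -/
lemma wt_comp {c : M → W →ₗ[k] W} {V : Submodule k W} (hV : ∀ t, ∀ v ∈ V, c t v ∈ V)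
    {χ : M → k} {S : Set (M → k)} (hS : χ ∉ S) {w z : W} (hw : w ∈ Wt c χ)
    (hz : z ∈ ⨆ χ' ∈ S, Wt c χ') (h : w + z ∈ V) : w ∈ V := by
  obtain ⟨s, hs, hz⟩ := exists_finset_biSup hz
  exact wt_comp_aux hV s (fun h => hS (hs h)) w hw z hz h

lemma le_iSup_wt_inf {c : M → W →ₗ[k] W} {V : Submodule k W} (hV : ∀ t, ∀ v ∈ V, c t v ∈ V)
    {S : Set (M → k)} {v : W} (hv : v ∈ V) (hz : v ∈ ⨆ χ ∈ S, Wt c χ) :
    v ∈ ⨆ χ ∈ S, (Wt c χ ⊓ V) := by
  classical
  replace hz := exists_finset_biSup hz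
  obtain ⟨s, hs, hz⟩ := hz
  refine (biSup_mono hs : (⨆ χ ∈ (s : Set (M → k)), (Wt c χ ⊓ V)) ≤ _) ?_
  clear hs
  induction s using Finset.induction_on generalizing v with
  | empty => simpa using hz
  | insert a s ha ih =>
    rw [Finset.coe_insert, iSup_insert] at hz ⊢
    obtain ⟨z1, hz1, z2, hz2, rfl⟩ := mem_sup.1 hz
    have h1 : z1 ∈ V := wt_comp hV (S := s) ha hz1 hz2 hv
    exact add_mem_sup ⟨hz1, h1⟩ (ih (by simpa using sub_mem hv h1) hz2)

lemma char_indep [Monoid M] {f : (M →* k) →₀ W} (h : ∀ t, f.sum (fun χ w => χ t • w) = 0) :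
    f = 0 := by
  ext χ
  rw [Finsupp.coe_zero, Pi.zero_apply, ← mem_bot k]
  refine mem_of_forall_dual fun η _ => ?_
  have := linearIndependent_iff.1 (linearIndependent_monoidHom M k) (f.mapRange η (map_zero η)) (by
    ext t
    have := congrArg η (h t)
    rw [Finsupp.linearCombination_apply, Finsupp.sum_mapRange_index (by simp)]
    simpa [Finsupp.sum, mul_comm] using this)
  simpa using DFunLike.congr_fun this χ

lemma mem_iSup_wt {M : Type} [Monoid M] [Reg k M] {c : M →* Module.End k W} {S : Set (M →* k)}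
    (hS : ∀ F : M → k, IsReg F → F ∈ span k ((fun χ : M →* k => (χ : M → k)) '' S)) {w : W}
    (h : RegV (fun t => c t w)) :
    w ∈ ⨆ χ ∈ ((fun χ : M →* k => (χ : M → k)) '' S), Wt (fun t => c t) χ := by
  classical
  have key : ∀ φ : M → W, RegV φ → ∃ f : (M →* k) →₀ W, ↑f.support ⊆ S ∧
      ∀ t, φ t = f.sum (fun χ w => χ t • w) := by
    intro φ hφ
    induction hφ with
    | smul_const ha w =>
      obtain ⟨l, hl, rfl⟩ := (Finsupp.mem_span_image_iff_linearCombination _).1 (hS _ ha)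
      refine ⟨l.mapRange (fun c => c • w) (by simp), ?_, fun t => ?_⟩
      · exact (Finset.coe_subset.2 Finsupp.support_mapRange).trans hl
      · rw [Finsupp.sum_mapRange_index (by simp), Finsupp.linearCombination_apply]
        simp [Finsupp.sum, Finset.sum_smul, smul_smul, mul_comm]
    | add _ _ h1 h2 =>
      obtain ⟨f, hf, e⟩ := h1
      obtain ⟨g, hg, e'⟩ := h2
      refine ⟨f + g, (Finset.coe_subset.2 Finsupp.support_add).trans (by simp [hf, hg]),
        fun t => ?_⟩
      rw [Finsupp.sum_add_index' (by simp) (by simp), ← e, ← e']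
  obtain ⟨f, hf, e⟩ := key _ h
  have hw : ∀ χ : M →* k, f χ ∈ Wt (fun t => c t) χ := by
    intro χ t'
    let g : (M →* k) →₀ W := Finsupp.onFinset f.support (fun χ => c t' (f χ) - χ t' • f χ)
      (fun χ h => by contrapose h; simp [Finsupp.notMem_support_iff.1 h])
    have : g = 0 := char_indep fun t => by
      rw [Finsupp.sum_of_support_subset _ Finsupp.support_onFinset_subset _ (by simp)]
      have h1 := e (t' * t)
      have h2 := congrArg (c t') (e t)
      rw [map_mul, Module.End.mul_apply, h2] at h1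
      simp only [Finsupp.sum, map_sum, map_smul, map_mul] at h1
      simp only [g, Finsupp.onFinset_apply, smul_sub, Finset.sum_sub_distrib, h1, smul_smul,
        mul_comm, sub_self]
    simpa [g, sub_eq_zero] using DFunLike.congr_fun this χ
  have := e 1
  simp only [map_one, Module.End.one_apply, one_smul] at this
  rw [this]
  refine sum_mem fun χ hχ => ?_
  exact le_iSup₂_of_le (f := fun χ (_ : χ ∈ ((fun χ : M →* k => (χ : M → k)) '' S)) =>
    Wt (fun t => c t) χ) (χ : M → k) ⟨χ, hf hχ, rfl⟩ le_rfl (hw χ)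

end wt

end ZipFG
end

-- merged part: Pool.Agent.Work.MP_5c492e_ag.InvDefs
section
/-! Rational actions on algebras, invariants, power reductivity. -/

namespace ZipFG

variable {k : Type} [Field k] {Γ : Type} [Group Γ] [Reg k Γ]

/-- A rational action on a commutative algebra. -/
def RatAct {A : Type} [CommRing A] [Algebra k A] (ρ : Γ →* (A →ₐ[k] A)) : Prop :=
  ∀ a, RegV (fun g => ρ g a)

/-- The invariants of a subgroup. -/
def invs {k : Type} [Field k] {Γ : Type} [Group Γ] {A : Type} [CommRing A] [Algebra k A]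
    (ρ : Γ →* (A →ₐ[k] A)) (U : Subgroup Γ) : Subalgebra k A where
  carrier := {a | ∀ g ∈ U, ρ g a = a}
  mul_mem' ha hb g hg := by rw [map_mul, ha g hg, hb g hg]
  add_mem' ha hb g hg := by rw [map_add, ha g hg, hb g hg]
  algebraMap_mem' c g _ := (ρ g).commutes c

lemma mem_invs {k : Type} [Field k] {Γ : Type} [Group Γ] {A : Type} [CommRing A] [Algebra k A]
    {ρ : Γ →* (A →ₐ[k] A)} {U : Subgroup Γ} {a : A} : a ∈ invs ρ U ↔ ∀ g ∈ U, ρ g a = a := Iff.rfl

/-- Power reductivity (geometric reductivity). -/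
def PowRed (Γ : Type) [Group Γ] [Reg k Γ] : Prop :=
  ∀ (A : Type) [CommRing A] [Algebra k A] (ρ : Γ →* (A →ₐ[k] A)), RatAct ρ →
    ∀ I : Ideal A, (∀ g, ∀ a ∈ I, ρ g a ∈ I) → ∀ a, (∀ g, ρ g a - a ∈ I) →
      ∃ D : ℕ, 0 < D ∧ ∃ b, (∀ g, ρ g b = b) ∧ a ^ D - b ∈ I

/-- Every nonzero rational representation has a nonzero vector fixed by `U`. -/
def FixProp (U : Subgroup Γ) : Prop :=
  ∀ (W : Type) [AddCommGroup W] [Module k W] [FiniteDimensional k W] [Nontrivial W]
    (ρ : Γ →* Module.End k W), (∀ w, RegV (fun g => ρ g w)) → ∃ w, w ≠ 0 ∧ ∀ u ∈ U, ρ u w = w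

/-- Right translation of regular functions. -/
def rightAct (Γ : Type) [Group Γ] [Reg k Γ] [RegMul Γ] : Γ →* (Oo Γ →ₐ[k] Oo Γ) where
  toFun g := pull (fun x => x * g) (by fun_prop)
  map_one' := AlgHom.ext fun F => O_ext fun x => by simp
  map_mul' g h := AlgHom.ext fun F => O_ext fun x => by
    change F.1 (x * (g * h)) = F.1 (x * g * h)
    rw [mul_assoc]

@[simp] lemma rightAct_apply [RegMul Γ] (g : Γ) (F : Oo Γ) (x : Γ) :
    (rightAct Γ g F).1 x = F.1 (x * g) := rfl

end ZipFG
end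

-- merged part: Pool.Agent.Work.MP_5c492e_ag.Nagata
section
/-! Nagata's theorem and the transfer principle. -/

namespace ZipFG

open MvPolynomial

namespace NagataAux

section hc
variable {k ι : Type} [Field k]

lemma hc_of_hom {F : MvPolynomial ι k} {d : ℕ} (hF : F.IsHomogeneous d) (n : ℕ) :
    homogeneousComponent n F = if n = d then F else 0 :=
  homogeneousComponent_of_mem hF

lemma hc_mul_add {f : MvPolynomial ι k} {d : ℕ} (hf : f.IsHomogeneous d) (c : MvPolynomial ι k)
    (e : ℕ) : homogeneousComponent (d + e) (f * c) = f * homogeneousComponent e c := by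
  conv_lhs => rw [← sum_homogeneousComponent c]
  conv_rhs => rw [← sum_homogeneousComponent c]
  rw [Finset.mul_sum, map_sum, map_sum, Finset.mul_sum]
  refine Finset.sum_congr rfl fun i _ => ?_
  rw [hc_of_hom (hf.mul (homogeneousComponent_isHomogeneous i c)),
    hc_of_hom (homogeneousComponent_isHomogeneous i c)]
  by_cases h : e = i <;> simp [h]

lemma hc_mul_lt {f : MvPolynomial ι k} {d : ℕ} (hf : f.IsHomogeneous d) (c : MvPolynomial ι k)
    {n : ℕ} (hn : n < d) : homogeneousComponent n (f * c) = 0 := by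
  rw [← sum_homogeneousComponent c, Finset.mul_sum, map_sum]
  refine Finset.sum_eq_zero fun i _ => ?_
  rw [hc_of_hom (hf.mul (homogeneousComponent_isHomogeneous i c)), if_neg (by omega)]

lemma hc_comm {σ : MvPolynomial ι k →ₐ[k] MvPolynomial ι k}
    (hσ : ∀ F d, F.IsHomogeneous d → (σ F).IsHomogeneous d) (F : MvPolynomial ι k) (n : ℕ) :
    homogeneousComponent n (σ F) = σ (homogeneousComponent n F) := by
  conv_lhs => rw [← sum_homogeneousComponent F]
  conv_rhs => rw [← sum_homogeneousComponent F]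
  simp only [map_sum]
  refine Finset.sum_congr rfl fun i _ => ?_
  rw [hc_of_hom (hσ _ _ (homogeneousComponent_isHomogeneous i F)),
    hc_of_hom (homogeneousComponent_isHomogeneous i F)]
  split_ifs <;> simp

lemma hc_mem_adjoin {s : Set (MvPolynomial ι k)} (hs : ∀ x ∈ s, ∃ d, x.IsHomogeneous d)
    {a : MvPolynomial ι k} (ha : a ∈ Algebra.adjoin k s) (n : ℕ) :
    homogeneousComponent n a ∈ Algebra.adjoin k s := by
  have h1 : ∀ x ∈ Submonoid.closure s, ∃ d, x.IsHomogeneous d := by
    intro x hx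
    induction hx using Submonoid.closure_induction with
    | mem x hx => exact hs x hx
    | one => exact ⟨0, isHomogeneous_one _ _⟩
    | mul x y _ _ hx hy =>
      obtain ⟨d, hd⟩ := hx
      obtain ⟨e, he⟩ := hy
      exact ⟨_, hd.mul he⟩
  have ha' : a ∈ Submodule.span k (Submonoid.closure s : Set (MvPolynomial ι k)) := by
    rw [← Algebra.adjoin_eq_span]; exact ha
  clear ha
  induction ha' using Submodule.span_induction with
  | mem x hx =>
    obtain ⟨d, hd⟩ := h1 x hx
    rw [hc_of_hom hd]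
    split_ifs
    · exact (Submonoid.closure_le (S := (Algebra.adjoin k s).toSubmonoid)).2
        Algebra.subset_adjoin hx
    · exact zero_mem _
  | zero => simp
  | add x y _ _ hx hy => rw [map_add]; exact add_mem hx hy
  | smul c x _ hx => rw [map_smul]; exact Subalgebra.smul_mem _ hx c

/-- All homogeneous components of the elements of a set. -/
def comps (s : Set (MvPolynomial ι k)) : Set (MvPolynomial ι k) :=
  ⋃ x ∈ s, (fun n => homogeneousComponent n x) '' {n | n < x.totalDegree + 1}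

lemma comps_finite {s : Set (MvPolynomial ι k)} (hs : s.Finite) : (comps s).Finite :=
  hs.biUnion fun _ _ => (Set.finite_lt_nat _).image _

lemma mem_comps {s : Set (MvPolynomial ι k)} {y : MvPolynomial ι k} (hy : y ∈ comps s) :
    ∃ x ∈ s, ∃ n, y = homogeneousComponent n x := by
  simp only [comps, Set.mem_iUnion] at hy
  obtain ⟨x, hx, n, -, rfl⟩ := hy
  exact ⟨x, hx, n, rfl⟩

lemma mem_of_comps {s : Set (MvPolynomial ι k)} {T : Subalgebra k (MvPolynomial ι k)}
    (h : comps s ⊆ T) {x : MvPolynomial ι k} (hx : x ∈ s) : x ∈ T := by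
  rw [← sum_homogeneousComponent x]
  refine sum_mem fun n hn => h ?_
  simp only [comps, Set.mem_iUnion]
  exact ⟨x, hx, n, Finset.mem_range.1 hn, rfl⟩

end hc

section inv
variable {k : Type} [Field k] {Γ : Type} [Group Γ] {S : Type} [CommRing S] [Algebra k S]

/-- Invariants modulo a stable ideal. -/
def Inv (σ : Γ →* (S →ₐ[k] S)) (I : Ideal S) : Subalgebra k S where
  carrier := {a | ∀ g, σ g a - a ∈ I}
  mul_mem' {a b} ha hb g := by
    have : σ g (a * b) - a * b = σ g b * (σ g a - a) + a * (σ g b - b) := by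
      rw [map_mul]; ring
    rw [this]
    exact add_mem (I.mul_mem_left _ (ha g)) (I.mul_mem_left _ (hb g))
  add_mem' {a b} ha hb g := by
    have : σ g (a + b) - (a + b) = (σ g a - a) + (σ g b - b) := by
      rw [map_add]; ring
    rw [this]
    exact add_mem (ha g) (hb g)
  algebraMap_mem' c g := by simp

lemma mem_Inv {σ : Γ →* (S →ₐ[k] S)} {I : Ideal S} {a : S} :
    a ∈ Inv σ I ↔ ∀ g, σ g a - a ∈ I := Iff.rfl

lemma invs_le_Inv (σ : Γ →* (S →ₐ[k] S)) (I : Ideal S) : invs σ ⊤ ≤ Inv σ I :=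
  fun a ha g => by rw [ha g trivial, sub_self]; exact zero_mem _

/-- `Inv σ I` is finitely generated modulo `I`. -/
def FGmod (σ : Γ →* (S →ₐ[k] S)) (I : Ideal S) : Prop :=
  ∃ F : Set S, F.Finite ∧ F ⊆ Inv σ I ∧ ∀ a ∈ Inv σ I, ∃ t ∈ Algebra.adjoin k F, a - t ∈ I

/-- Every subalgebra between the invariants and `Inv σ J` is, modulo `J`, a finite module over a
finitely generated algebra of invariants. -/
lemma finite_mod [Reg k Γ] (hP : PowRed Γ) {σ : Γ →* (S →ₐ[k] S)} (hσ : RatAct σ) {J : Ideal S}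
    (hJ : ∀ g, ∀ a ∈ J, σ g a ∈ J) (h : FGmod σ J) (N : Subalgebra k S) (hN : invs σ ⊤ ≤ N)
    (hN' : N ≤ Inv σ J) :
    ∃ E M : Set S, E.Finite ∧ M.Finite ∧ E ⊆ invs σ ⊤ ∧ M ⊆ N ∧
      ∀ a ∈ N, ∃ t ∈ Submodule.span (Algebra.adjoin k E) M, a - t ∈ J := by
  classical
  obtain ⟨F, hF, hFI, hgen⟩ := h
  choose! D hD b hb hDb using fun x (hx : x ∈ F) => hP S σ hσ J hJ x (hFI hx)
  let B := Algebra.adjoin k (b '' F)
  have hBi : B ≤ invs σ ⊤ := Algebra.adjoin_le (by
    rintro _ ⟨x, hx, rfl⟩ g -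
    exact hb x hx g)
  have : IsNoetherianRing B := isNoetherianRing_of_fg (Subalgebra.fg_def.2 ⟨_, hF.image b, rfl⟩)
  let π : S →ₐ[B] S ⧸ J := Ideal.Quotient.mkₐ B J
  have hfg : (Algebra.adjoin B (π '' F)).toSubmodule.FG := by
    refine fg_adjoin_of_finite (hF.image _) ?_
    rintro _ ⟨x, hx, rfl⟩
    refine IsIntegral.of_pow (hD x hx) ?_
    have : π x ^ D x = algebraMap B (S ⧸ J) ⟨b x, Algebra.subset_adjoin ⟨x, hx, rfl⟩⟩ := by
      rw [← map_pow]
      exact Ideal.Quotient.eq.2 (hDb x hx)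
    rw [this]
    exact isIntegral_algebraMap
  let N' : Submodule B S :=
    { carrier := N
      add_mem' := fun ha hb => add_mem ha hb
      zero_mem' := zero_mem N
      smul_mem' := fun c x hx => mul_mem (hN (hBi c.2)) hx }
  have hle : N'.map π.toLinearMap ≤ (Algebra.adjoin B (π '' F)).toSubmodule := by
    rintro _ ⟨a, ha, rfl⟩
    obtain ⟨t, ht, hat⟩ := hgen a (hN' ha)
    have e : π.toLinearMap a = π t := Ideal.Quotient.eq.2 hat
    rw [e]
    clear e hat
    change π t ∈ Algebra.adjoin B (π '' F)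
    induction ht using Algebra.adjoin_induction with
    | mem x hx => exact Algebra.subset_adjoin ⟨x, hx, rfl⟩
    | algebraMap c =>
      have : π (algebraMap k S c) = algebraMap B (S ⧸ J) (algebraMap k B c) := rfl
      rw [this]
      exact Subalgebra.algebraMap_mem _ _
    | add x y _ _ hx hy => rw [map_add]; exact add_mem hx hy
    | mul x y _ _ hx hy => rw [map_mul]; exact mul_mem hx hy
  have hfg' : (N'.map π.toLinearMap).FG := by
    have : IsNoetherian B (Algebra.adjoin B (π '' F)).toSubmodule :=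
      isNoetherian_of_fg_of_noetherian _ hfg
    exact isNoetherian_submodule.1 this _ hle
  obtain ⟨M', hM'⟩ := hfg'
  have hM : ∀ y ∈ M', ∃ x ∈ N, π x = y := fun y hy => by
    have : y ∈ N'.map π.toLinearMap := hM' ▸ Submodule.subset_span hy
    obtain ⟨x, hx, rfl⟩ := this
    exact ⟨x, hx, rfl⟩
  choose! l hl hl' using hM
  refine ⟨b '' F, l '' M', hF.image _, M'.finite_toSet.image _,
    Algebra.subset_adjoin.trans hBi, by rintro _ ⟨y, hy, rfl⟩; exact hl y hy, fun a ha => ?_⟩
  have h1 : π.toLinearMap a ∈ (Submodule.span B (l '' M')).map π.toLinearMap := by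
    rw [Submodule.map_span, Set.image_image,
      Set.image_congr (f := fun x => π.toLinearMap (l x)) (g := id) (fun y hy => hl' y hy),
      Set.image_id, hM']
    exact ⟨a, ha, rfl⟩
  obtain ⟨t, ht, e⟩ := h1
  exact ⟨t, ht, Ideal.Quotient.eq.1 e.symm⟩

lemma span_le_subalg {E M : Set S} {T : Subalgebra k S} (hE : Algebra.adjoin k E ≤ T) (c : S)
    (hM : ∀ x ∈ M, c * x ∈ T) {t : S} (ht : t ∈ Submodule.span (Algebra.adjoin k E) M) :
    c * t ∈ T := by
  induction ht using Submodule.span_induction with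
  | mem x hx => exact hM x hx
  | zero => simp
  | add x y _ _ hx hy => rw [mul_add]; exact add_mem hx hy
  | smul a x _ hx =>
    have : c * (a • x) = a.1 * (c * x) := by
      change c * (a.1 * x) = _
      ring
    rw [this]
    exact mul_mem (hE a.2) hx

end inv

variable {k : Type} [Field k] {Γ : Type} [Group Γ] [Reg k Γ]

/-- The graded case of Nagata's theorem. -/
lemma graded {ι : Type} [Finite ι] (hP : PowRed Γ)
    {σ : Γ →* (MvPolynomial ι k →ₐ[k] MvPolynomial ι k)} (hσ : RatAct σ)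
    (hh : ∀ g F d, F.IsHomogeneous d → (σ g F).IsHomogeneous d) (I : Ideal (MvPolynomial ι k)) :
    (∀ g, ∀ a ∈ I, σ g a ∈ I) → (∀ n, ∀ a ∈ I, homogeneousComponent n a ∈ I) → FGmod σ I := by
  induction I using IsNoetherian.induction with
  | hgt I ih =>
  intro hI hIh
  have hInv : ∀ n, ∀ a ∈ Inv σ I, homogeneousComponent n a ∈ Inv σ I := fun n a ha g => by
    rw [← hc_comm (hh g), ← map_sub]
    exact hIh n _ (ha g)
  have hII : ∀ a ∈ I, a ∈ Inv σ I := fun a ha g => sub_mem (hI g a ha) ha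
  -- reduction to homogeneous elements
  have red : ∀ T : Subalgebra k (MvPolynomial ι k),
      (∀ n, ∀ a ∈ Inv σ I, a.IsHomogeneous n → ∃ t ∈ T, a - t ∈ I) →
      ∀ a ∈ Inv σ I, ∃ t ∈ T, a - t ∈ I := by
    intro T h a ha
    choose t ht ht' using fun n => h n _ (hInv n a ha) (homogeneousComponent_isHomogeneous n a)
    refine ⟨∑ n ∈ Finset.range (a.totalDegree + 1), t n, sum_mem fun n _ => ht n, ?_⟩
    have := sum_mem (S := I) (t := Finset.range (a.totalDegree + 1)) fun n _ => ht' n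
    rwa [Finset.sum_sub_distrib, sum_homogeneousComponent] at this
  by_cases hf : ∃ f ∈ Inv σ I, f ∉ I ∧ ∃ d, 0 < d ∧ f.IsHomogeneous d
  swap
  · refine ⟨∅, Set.finite_empty, Set.empty_subset _, red _ fun n a ha hn => ?_⟩
    rcases Nat.eq_zero_or_pos n with rfl | h0
    · refine ⟨a, ?_, by simp⟩
      rw [← homogeneousComponent_eq_self hn, homogeneousComponent_zero]
      exact Subalgebra.algebraMap_mem _ _
    · refine ⟨0, zero_mem _, ?_⟩
      by_contra h
      exact hf ⟨a, ha, by simpa using h, n, h0, hn⟩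
  obtain ⟨f, hfI, hfn, d, hd, hfd⟩ := hf
  -- the first larger ideal
  let J1 : Ideal (MvPolynomial ι k) := I ⊔ Ideal.span {f}
  have mem1 : ∀ a, a ∈ J1 ↔ ∃ c, a - f * c ∈ I := fun a => by
    constructor
    · intro ha
      obtain ⟨i, hi, j, hj, rfl⟩ := Submodule.mem_sup.1 ha
      obtain ⟨c, rfl⟩ := Ideal.mem_span_singleton'.1 hj
      exact ⟨c, by simpa [mul_comm] using hi⟩
    · rintro ⟨c, hc⟩
      have : a = (a - f * c) + f * c := by ring
      rw [this]
      exact Submodule.add_mem_sup hc (Ideal.mul_mem_right _ _ (Ideal.subset_span rfl))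
  have hJ1 : ∀ g, ∀ a ∈ J1, σ g a ∈ J1 := fun g a ha => by
    obtain ⟨c, hc⟩ := (mem1 a).1 ha
    refine (mem1 _).2 ⟨σ g c, ?_⟩
    have : σ g a - f * σ g c = σ g (a - f * c) + σ g c * (σ g f - f) := by
      rw [map_sub, map_mul]; ring
    rw [this]
    exact add_mem (hI g _ hc) (Ideal.mul_mem_left I _ (hfI g))
  have hJ1h : ∀ n, ∀ a ∈ J1, homogeneousComponent n a ∈ J1 := fun n a ha => by
    obtain ⟨c, hc⟩ := (mem1 a).1 ha
    have h := hIh n _ hc
    rw [map_sub] at h
    rcases lt_or_ge n d with hn | hn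
    · rw [hc_mul_lt hfd c hn] at h
      exact (mem1 _).2 ⟨0, by simpa using h⟩
    · obtain ⟨e, rfl⟩ := Nat.exists_eq_add_of_le hn
      rw [hc_mul_add hfd] at h
      exact (mem1 _).2 ⟨_, h⟩
  have hlt1 : I < J1 := lt_of_le_of_ne le_sup_left fun e =>
    hfn (e ▸ (mem1 f).2 ⟨1, by simp⟩)
  obtain ⟨E1, M1, hE1, hM1, hE1i, hM1i, h1⟩ := finite_mod hP hσ hJ1 (ih J1 hlt1 hJ1 hJ1h)
    (Inv σ I) (invs_le_Inv σ I) (fun a ha g => hlt1.le (ha g))
  -- the second ideal
  let J2 : Ideal (MvPolynomial ι k) := I.comap (LinearMap.mulLeft (MvPolynomial ι k) f)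
  have mem2 : ∀ a, a ∈ J2 ↔ f * a ∈ I := fun a => Iff.rfl
  have hfc : ∀ c, f * c ∈ Inv σ I ↔ c ∈ Inv σ J2 := fun c => by
    refine forall_congr' fun g => ?_
    rw [mem2]
    have : σ g (f * c) - f * c = f * (σ g c - c) + σ g c * (σ g f - f) := by
      rw [map_mul]; ring
    rw [this]
    exact Submodule.add_mem_iff_left I (Ideal.mul_mem_left I _ (hfI g))
  have hJ2 : ∀ g, ∀ a ∈ J2, σ g a ∈ J2 := fun g a ha => by
    have := ((hfc a).1 (hII _ ha)) g
    simpa using add_mem this ha
  have hJ2h : ∀ n, ∀ a ∈ J2, homogeneousComponent n a ∈ J2 := fun n a ha => by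
    rw [mem2, ← hc_mul_add hfd]
    exact hIh _ _ ha
  have hle2 : I ≤ J2 := fun a ha => Ideal.mul_mem_left I _ ha
  have dec : ∀ a ∈ Inv σ I, ∃ t ∈ Submodule.span (Algebra.adjoin k E1) M1, ∃ c ∈ Inv σ J2,
      a - t - f * c ∈ I := fun a ha => by
    obtain ⟨t, ht, hat⟩ := h1 a ha
    obtain ⟨c, hc⟩ := (mem1 _).1 hat
    refine ⟨t, ht, c, (hfc c).1 ?_, hc⟩
    have ht' : 1 * t ∈ Inv σ I := span_le_subalg
      (Algebra.adjoin_le (hE1i.trans (invs_le_Inv σ I))) 1
      (fun x hx => by rw [one_mul]; exact hM1i hx) ht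
    have : f * c = a - 1 * t - (a - t - f * c) := by ring
    rw [this]
    exact sub_mem (sub_mem ha ht') (hII _ hc)
  rcases hle2.lt_or_eq with hlt2 | heq
  · obtain ⟨E2, M2, hE2, hM2, hE2i, hM2i, h2⟩ := finite_mod hP hσ hJ2 (ih J2 hlt2 hJ2 hJ2h)
      (Inv σ J2) (invs_le_Inv σ J2) le_rfl
    refine ⟨E1 ∪ M1 ∪ E2 ∪ (fun x => f * x) '' M2,
      ((hE1.union hM1).union hE2).union (hM2.image _), ?_, fun a ha => ?_⟩
    · refine Set.union_subset (Set.union_subset (Set.union_subset
        (hE1i.trans (invs_le_Inv σ I)) hM1i) (hE2i.trans (invs_le_Inv σ I))) ?_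
      rintro _ ⟨x, hx, rfl⟩
      exact (hfc x).2 (hM2i hx)
    · obtain ⟨t, ht, c, hc, h⟩ := dec a ha
      obtain ⟨t2, ht2, h'⟩ := h2 c hc
      refine ⟨1 * t + f * t2, add_mem ?_ ?_, ?_⟩
      · refine span_le_subalg (Algebra.adjoin_mono fun x hx => by simp [hx]) 1
          (fun x hx => ?_) ht
        rw [one_mul]
        exact Algebra.subset_adjoin (by simp [hx])
      · refine span_le_subalg (Algebra.adjoin_mono fun x hx => by simp [hx]) f
          (fun x hx => ?_) ht2
        exact Algebra.subset_adjoin (Or.inr ⟨x, hx, rfl⟩)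
      · have : a - (1 * t + f * t2) = (a - t - f * c) + f * (c - t2) := by ring
        rw [this]
        exact add_mem h h'
  · let F : Set (MvPolynomial ι k) := insert f (comps (E1 ∪ M1))
    have hFh : ∀ x ∈ F, ∃ d, x.IsHomogeneous d := by
      rintro x (rfl | hx)
      · exact ⟨d, hfd⟩
      · obtain ⟨y, -, n, rfl⟩ := mem_comps hx
        exact ⟨n, homogeneousComponent_isHomogeneous n y⟩
    have hEM : ∀ x ∈ E1 ∪ M1, x ∈ Algebra.adjoin k F := fun x hx =>
      mem_of_comps ((Set.subset_insert _ _).trans Algebra.subset_adjoin) hx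
    refine ⟨F, (comps_finite (hE1.union hM1)).insert f, ?_, red _ fun n => ?_⟩
    · rintro x (rfl | hx)
      · exact hfI
      · obtain ⟨y, hy, n, rfl⟩ := mem_comps hx
        exact hInv n y (Set.union_subset (hE1i.trans (invs_le_Inv σ I)) hM1i hy)
    induction n using Nat.strong_induction_on with
    | _ n ihn =>
    intro a ha han
    obtain ⟨t, ht, c, hc, h⟩ := dec a ha
    rw [← heq] at hc
    have ht' : t ∈ Algebra.adjoin k F := by
      have := span_le_subalg (T := Algebra.adjoin k F)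
        (Algebra.adjoin_le fun x hx => hEM x (Or.inl hx)) 1
        (fun x hx => by rw [one_mul]; exact hEM x (Or.inr hx)) ht
      rwa [one_mul] at this
    have h' := hIh n _ h
    rw [map_sub, map_sub, homogeneousComponent_eq_self han] at h'
    rcases lt_or_ge n d with hn | hn
    · rw [hc_mul_lt hfd c hn, sub_zero] at h'
      exact ⟨_, hc_mem_adjoin hFh ht' n, h'⟩
    · obtain ⟨e, rfl⟩ := Nat.exists_eq_add_of_le hn
      rw [hc_mul_add hfd] at h'
      obtain ⟨t2, ht2, h2⟩ := ihn e (by omega) _ (hInv e c hc)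
        (homogeneousComponent_isHomogeneous e c)
      refine ⟨homogeneousComponent (d + e) t + f * t2, add_mem (hc_mem_adjoin hFh ht' _)
        (mul_mem (Algebra.subset_adjoin (Set.mem_insert _ _)) ht2), ?_⟩
      have : a - (homogeneousComponent (d + e) t + f * t2) =
          (a - homogeneousComponent (d + e) t - f * homogeneousComponent e c) +
            f * (homogeneousComponent e c - t2) := by ring
      rw [this]
      exact add_mem h' (Ideal.mul_mem_left I _ h2)

end NagataAux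

open NagataAux

variable {k : Type} [Field k] {Γ : Type} [Group Γ] [Reg k Γ]

/-- Lifting a rational action on a finite dimensional stable subspace to a graded action on a
polynomial ring. -/
theorem exists_lift {A : Type} [CommRing A] [Algebra k A] (ρ : Γ →* (A →ₐ[k] A)) (hρ : RatAct ρ)
    (V : Submodule k A) [FiniteDimensional k V] (hV : ∀ g, ∀ v ∈ V, ρ g v ∈ V) :
    ∃ (r : ℕ) (b : Fin r → A) (η : Fin r → A →ₗ[k] k) (P : A →ₗ[k] MvPolynomial (Fin r) k)
      (σ : Γ →* (MvPolynomial (Fin r) k →ₐ[k] MvPolynomial (Fin r) k)),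
      (∀ i, b i ∈ V) ∧ (∀ i j, η i (b j) = if i = j then 1 else 0) ∧
      (∀ v ∈ V, v = ∑ i, η i v • b i) ∧ (∀ v, P v = ∑ i, η i v • X i) ∧
      (∀ v, (P v).IsHomogeneous 1) ∧ (∀ i, P (b i) = X i) ∧ (∀ v ∈ V, aeval b (P v) = v) ∧
      RatAct σ ∧ (∀ g F d, F.IsHomogeneous d → (σ g F).IsHomogeneous d) ∧
      (∀ g, ∀ v ∈ V, σ g (P v) = P (ρ g v)) ∧
      (∀ g F, aeval b (σ g F) = ρ g (aeval b F)) := by
  obtain ⟨r, b, η, hb, hη, he⟩ := exists_basis_expansion V
  let P : A →ₗ[k] MvPolynomial (Fin r) k := ∑ i, (η i).smulRight (X i)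
  have hP : ∀ v, P v = ∑ i, η i v • X i := fun v => by simp [P]
  have hPb : ∀ i, P (b i) = X i := fun i => by simp [hP, hη]
  have hPh : ∀ v, (P v).IsHomogeneous 1 := fun v => by
    rw [hP]
    refine IsHomogeneous.sum _ _ _ fun i _ => ?_
    rw [smul_eq_C_mul]
    exact isHomogeneous_C_mul_X _ _
  have hPa : ∀ v ∈ V, aeval b (P v) = v := fun v hv => by
    rw [hP]; simpa using (he v hv).symm
  have key : ∀ g, ∀ v ∈ V, aeval (fun i => P (ρ g (b i))) (P v) = P (ρ g v) := fun g v hv => by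
    conv_rhs => rw [he v hv]
    rw [hP v]
    simp
  let σ : Γ →* (MvPolynomial (Fin r) k →ₐ[k] MvPolynomial (Fin r) k) :=
    { toFun := fun g => aeval fun i => P (ρ g (b i))
      map_one' := algHom_ext fun i => by simp [hPb]
      map_mul' := fun g h => algHom_ext fun i => by
        rw [AlgHom.mul_apply, aeval_X, aeval_X, key g _ (hV h _ (hb i)), map_mul,
          AlgHom.mul_apply] }
  have hσ : ∀ g, σ g = aeval fun i => P (ρ g (b i)) := fun g => rfl
  refine ⟨r, b, η, P, σ, hb, hη, he, hP, hPh, hPb, hPa, fun F => ?_, fun g F d hF => ?_, key,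
    fun g F => ?_⟩
  · induction F using MvPolynomial.induction_on with
    | C c => exact (regV_const (C c)).congr fun g => by simp [hσ]
    | add p q hp hq => exact (hp.add hq).congr fun g => by simp
    | mul_X p i hp => exact (hp.mul ((hρ (b i)).map P)).congr fun g => by simp [hσ]
  · have := hF.aeval (fun i => P (ρ g (b i))) fun i => hPh _
    rwa [one_mul] at this
  · have : (aeval b).comp (σ g) = (ρ g).comp (aeval b) := algHom_ext fun i => by
      simp [hσ, hPa _ (hV g _ (hb i))]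
    exact AlgHom.congr_fun this F

/-- A finite set lies in a finite dimensional stable subspace. -/
theorem exists_fd_stable {A : Type} [CommRing A] [Algebra k A] (ρ : Γ →* (A →ₐ[k] A))
    (hρ : RatAct ρ) (s : Finset A) : ∃ V : Submodule k A, FiniteDimensional k V ∧
      (∀ g, ∀ v ∈ V, ρ g v ∈ V) ∧ ∀ a ∈ s, a ∈ V := by
  refine ⟨s.sup fun a => Submodule.span k (Set.range fun g => ρ g a), ?_, fun g => ?_,
    fun a ha => ?_⟩
  · have := fun a => (hρ a).fd
    infer_instance
  · suffices h : (s.sup fun a => Submodule.span k (Set.range fun g => ρ g a)) ≤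
        (s.sup fun a => Submodule.span k (Set.range fun g => ρ g a)).comap (ρ g).toLinearMap from
      fun v hv => h hv
    refine Finset.sup_le fun a ha => Submodule.span_le.2 ?_
    rintro _ ⟨h, rfl⟩
    refine Finset.le_sup (f := fun a => Submodule.span k (Set.range fun g => ρ g a)) ha
      (Submodule.subset_span ⟨g * h, ?_⟩)
    simp
  · exact Finset.le_sup (f := fun a => Submodule.span k (Set.range fun g => ρ g a)) ha
      (Submodule.subset_span ⟨1, by simp⟩)

/-- Nagata: invariants of a power reductive group are finitely generated. -/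
theorem nagata (hP : PowRed Γ) {A : Type} [CommRing A] [Algebra k A]
    [Algebra.FiniteType k A] (ρ : Γ →* (A →ₐ[k] A)) (hρ : RatAct ρ) : (invs ρ ⊤).FG := by
  classical
  obtain ⟨s, hs⟩ := (Algebra.FiniteType.out : (⊤ : Subalgebra k A).FG)
  obtain ⟨V, hfd, hV, hsV⟩ := exists_fd_stable ρ hρ (insert 1 s)
  obtain ⟨r, b, η, P, σ, -, -, -, -, hPh, -, hPa, hσ, hh, -, hφ⟩ := exists_lift ρ hρ V hV
  let φ : MvPolynomial (Fin r) k →ₐ[k] A := aeval b
  have hsurj : ∀ a, ∃ G, φ G = a := fun a => by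
    have : (⊤ : Subalgebra k A) ≤ φ.range := by
      rw [← hs]
      exact Algebra.adjoin_le fun x hx => ⟨P x, hPa x (hsV x (by simp [Finset.mem_coe.1 hx]))⟩
    exact this Algebra.mem_top
  let I : Ideal (MvPolynomial (Fin r) k) :=
    { carrier := {F | ∀ n, φ (homogeneousComponent n F) = 0}
      add_mem' := fun ha hb n => by rw [map_add, map_add, ha n, hb n, add_zero]
      zero_mem' := fun n => by simp
      smul_mem' := fun c a ha n => by
        rw [smul_eq_mul, ← sum_homogeneousComponent c, Finset.sum_mul, map_sum, map_sum]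
        refine Finset.sum_eq_zero fun i _ => ?_
        rcases lt_or_ge n i with hn | hn
        · rw [hc_mul_lt (homogeneousComponent_isHomogeneous i c) a hn, map_zero]
        · obtain ⟨e, rfl⟩ := Nat.exists_eq_add_of_le hn
          rw [hc_mul_add (homogeneousComponent_isHomogeneous i c), map_mul, ha e, mul_zero] }
  have hI0 : ∀ F ∈ I, φ F = 0 := fun F hF => by
    rw [← sum_homogeneousComponent F, map_sum]
    exact Finset.sum_eq_zero fun n _ => hF n
  have hIm : ∀ F d, F.IsHomogeneous d → φ F = 0 → F ∈ I := fun F d hF h0 n => by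
    rw [hc_of_hom hF]
    split_ifs
    · exact h0
    · exact map_zero _
  obtain ⟨F, hF, hFI, hgen⟩ := graded hP hσ hh I
    (fun g a ha n => by rw [hc_comm (hh g), hφ]; exact (congrArg _ (ha n)).trans (map_zero _))
    (fun n a ha => hIm _ n (homogeneousComponent_isHomogeneous n a) (ha n))
  refine Subalgebra.fg_def.2 ⟨φ '' F, hF.image _, le_antisymm (Algebra.adjoin_le ?_) ?_⟩
  · rintro _ ⟨x, hx, rfl⟩ g -
    have := hI0 _ (hFI hx g)
    rwa [map_sub, hφ, sub_eq_zero] at this
  · intro a ha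
    obtain ⟨G, rfl⟩ := hsurj a
    let N := G.totalDegree
    let H := ∑ n ∈ Finset.range (N + 1), homogeneousComponent n G * P 1 ^ (N - n)
    have hH : H.IsHomogeneous N := IsHomogeneous.sum _ _ _ fun n hn => by
      have := (homogeneousComponent_isHomogeneous n G).mul ((hPh 1).pow (N - n))
      rwa [one_mul, Nat.add_sub_cancel' (Nat.lt_succ_iff.1 (Finset.mem_range.1 hn))] at this
    have h1 : φ (P 1) = 1 := hPa 1 (hsV 1 (by simp))
    have hHG : φ H = φ G := by
      conv_rhs => rw [← sum_homogeneousComponent G]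
      simp only [H, map_sum, map_mul, map_pow, h1, one_pow, mul_one, N]
    have hHI : H ∈ Inv σ I := fun g => hIm _ N ((hh g _ _ hH).sub hH) (by
      rw [map_sub, hφ]
      change ρ g (φ H) - φ H = 0
      rw [hHG, ha g trivial, sub_self])
    obtain ⟨t, ht, h⟩ := hgen H hHI
    have := hI0 _ h
    rw [map_sub, sub_eq_zero, hHG] at this
    rw [this, ← AlgHom.map_adjoin]
    exact ⟨t, ht, rfl⟩

namespace NagataAux

section transfer
set_option linter.unusedSectionVars false
variable [RegMul Γ] [RegInv Γ] {A : Type} [CommRing A] [Algebra k A]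

/-- Scalar valued functions as `A`-valued functions. -/
def iC (Γ : Type) [Reg k Γ] (A : Type) [CommRing A] [Algebra k A] : Oo Γ →ₐ[k] (Γ → A) where
  toFun f := fun l => algebraMap k A (f.1 l)
  map_one' := by ext; simp
  map_mul' _ _ := by ext; simp
  map_zero' := by ext; simp
  map_add' _ _ := by ext; simp
  commutes' _ := by ext; simp

/-- The algebra `C ⊗ A` realised as functions. -/
def TT (U : Subgroup Γ) (A : Type) [CommRing A] [Algebra k A] : Subalgebra k (Γ → A) :=
  (invs (rightAct Γ) U).map (iC Γ A) ⊔ (Pi.constAlgHom k Γ A).range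

/-- The diagonal action on functions. -/
def tau (ρ : Γ →* (A →ₐ[k] A)) (g : Γ) : (Γ → A) →ₐ[k] (Γ → A) where
  toFun F := fun l => ρ g (F (g⁻¹ * l))
  map_one' := by ext; simp
  map_mul' _ _ := by ext; simp
  map_zero' := by ext; simp
  map_add' _ _ := by ext; simp
  commutes' _ := by ext; simp

/-- Left translation. -/
def lt (g : Γ) : Oo Γ →ₐ[k] Oo Γ := pull (fun l => g⁻¹ * l) (by fun_prop)

lemma tau_iC (ρ : Γ →* (A →ₐ[k] A)) (g : Γ) (f : Oo Γ) : tau ρ g (iC Γ A f) = iC Γ A (lt g f) := by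
  ext l
  exact (ρ g).commutes _

lemma tau_mem (ρ : Γ →* (A →ₐ[k] A)) (U : Subgroup Γ) (g : Γ) :
    TT U A ≤ (TT U A).comap (tau ρ g) := by
  refine sup_le ?_ ?_
  · rintro _ ⟨f, hf, rfl⟩
    rw [Subalgebra.mem_comap]
    change tau ρ g (iC Γ A f) ∈ _
    rw [tau_iC]
    refine (le_sup_left : _ ≤ TT U A) ⟨lt g f, fun u hu => O_ext fun x => ?_, rfl⟩
    have := congrArg (fun F : Oo Γ => F.1 (g⁻¹ * x)) (hf u hu)
    simpa [lt, mul_assoc] using this
  · rintro _ ⟨a, rfl⟩
    exact (le_sup_right : _ ≤ TT U A) ⟨ρ g a, rfl⟩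

/-- The action on `TT U A`. -/
def tauT (ρ : Γ →* (A →ₐ[k] A)) (U : Subgroup Γ) : Γ →* (TT U A →ₐ[k] TT U A) where
  toFun g := ((tau ρ g).comp (TT U A).val).codRestrict _ fun F => tau_mem ρ U g F.2
  map_one' := AlgHom.ext fun F => Subtype.ext (funext fun l => by
    change ρ 1 (F.1 (1⁻¹ * l)) = F.1 l
    simp)
  map_mul' g h := AlgHom.ext fun F => Subtype.ext (funext fun l => by
    change ρ (g * h) (F.1 ((g * h)⁻¹ * l)) = ρ g (ρ h (F.1 (h⁻¹ * (g⁻¹ * l))))
    simp [mul_assoc])

lemma tauT_apply (ρ : Γ →* (A →ₐ[k] A)) (U : Subgroup Γ) (g : Γ) (F : TT U A) (l : Γ) :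
    (tauT ρ U g F).1 l = ρ g (F.1 (g⁻¹ * l)) := rfl

lemma ratAct_tauT {ρ : Γ →* (A →ₐ[k] A)} (hρ : RatAct ρ) (U : Subgroup Γ) :
    RatAct (tauT ρ U) := by
  let R : Subalgebra k (Γ → A) :=
    { carrier := {F | RegV (fun g => tau ρ g F)}
      mul_mem' := fun ha hb => (RegV.mul ha hb).congr fun g => (map_mul _ _ _).symm
      add_mem' := fun ha hb => (RegV.add ha hb).congr fun g => (map_add _ _ _).symm
      algebraMap_mem' := fun c => (regV_const _).congr fun g => ((tau ρ g).commutes c).symm }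
  have : TT U A ≤ R := by
    refine sup_le ?_ ?_
    · rintro _ ⟨f, -, rfl⟩
      have h : RegV (fun g : Γ => lt g f) :=
        IsReg.curryO (F := fun p : Γ × Γ => f.1 (p.1⁻¹ * p.2))
          ((isReg_coe f).comp (by fun_prop)) fun _ _ => rfl
      exact (h.map (iC Γ A).toLinearMap).congr fun g => (tau_iC ρ g f).symm
    · rintro _ ⟨a, rfl⟩
      exact (hρ a).map (Pi.constAlgHom k Γ A).toLinearMap
  intro F
  exact RegV.of_injective (TT U A).val.toLinearMap Subtype.val_injective (this F.2)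

lemma TT_right {U : Subgroup Γ} {F : Γ → A} (hF : F ∈ TT U A) {u : Γ} (hu : u ∈ U) (l : Γ) :
    F (l * u) = F l := by
  have : TT U A ≤ AlgHom.equalizer (Pi.evalAlgHom k (fun _ => A) (l * u))
      (Pi.evalAlgHom k (fun _ => A) l) := by
    refine sup_le ?_ ?_
    · rintro _ ⟨f, hf, rfl⟩
      exact congrArg (fun F : Oo Γ => algebraMap k A (F.1 l)) (hf u hu)
    · rintro _ ⟨a, rfl⟩
      rfl
  exact this hF

lemma mem_TT {U : Subgroup Γ} {F : Γ → A} (hF : RegV F) (h : ∀ u ∈ U, ∀ l, F (l * u) = F l) :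
    F ∈ TT U A := by
  have := hF.fd
  obtain ⟨m, w, η, -, -, e⟩ := exists_basis_expansion (Submodule.span k (Set.range F))
  have : F = ∑ i, iC Γ A (hF.lin (η i)).toO * Pi.constAlgHom k Γ A (w i) := by
    ext l
    rw [e _ (Submodule.subset_span ⟨l, rfl⟩), Finset.sum_apply]
    exact Finset.sum_congr rfl fun i _ => Algebra.smul_def _ _
  rw [this]
  refine sum_mem fun i _ => mul_mem ((le_sup_left : _ ≤ TT U A) ⟨_, fun u hu => O_ext fun x => ?_,
    rfl⟩) ((le_sup_right : _ ≤ TT U A) ⟨_, rfl⟩)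
  simp [h u hu]

lemma ev_mem {ρ : Γ →* (A →ₐ[k] A)} {U : Subgroup Γ} {F : TT U A} (hF : ∀ g, tauT ρ U g F = F) :
    F.1 1 ∈ invs ρ U := fun u hu => by
  have h1 := congrArg (fun G : TT U A => G.1 u) (hF u)
  have h2 := TT_right F.2 hu 1
  simp only [tauT_apply, inv_mul_cancel, one_mul] at h1 h2
  rw [h1, h2]

end transfer

end NagataAux

/-- Transfer principle for finite generation. -/
theorem transfer_fg [RegMul Γ] [RegInv Γ] (hP : PowRed Γ) (U : Subgroup Γ)
    (hC : (invs (rightAct Γ) U).FG) {A : Type} [CommRing A] [Algebra k A]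
    [Algebra.FiniteType k A] (ρ : Γ →* (A →ₐ[k] A)) (hρ : RatAct ρ) : (invs ρ U).FG := by
  have hT : (TT U A).FG := by
    refine (hC.map _).sup ?_
    rw [← Algebra.map_top]
    exact Subalgebra.FG.map _ Algebra.FiniteType.out
  have : Algebra.FiniteType k (TT U A) := ⟨(TT U A).fg_top.2 hT⟩
  have h := (nagata hP (tauT ρ U) (ratAct_tauT hρ U)).map
    ((Pi.evalAlgHom k (fun _ => A) 1).comp (TT U A).val)
  convert h using 1
  refine le_antisymm (fun a ha => ?_) ?_
  · refine ⟨⟨fun l => ρ l a, mem_TT (hρ a) fun u hu l => ?_⟩, fun g _ => Subtype.ext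
      (funext fun l => ?_), ?_⟩
    · rw [map_mul, AlgHom.mul_apply, ha u hu]
    · rw [tauT_apply, ← AlgHom.mul_apply, ← map_mul, mul_inv_cancel_left]
    · change ρ 1 a = a
      simp
  · rintro _ ⟨F, hF, rfl⟩
    exact ev_mem fun g => hF g trivial

/-- Transfer principle for power lifting. -/
theorem transfer_pow [RegMul Γ] [RegInv Γ] (hP : PowRed Γ) (U : Subgroup Γ)
    {A : Type} [CommRing A] [Algebra k A] (ρ : Γ →* (A →ₐ[k] A)) (hρ : RatAct ρ)
    (I : Ideal A) (hI : ∀ g, ∀ a ∈ I, ρ g a ∈ I) (a : A) (ha : ∀ u ∈ U, ρ u a - a ∈ I) :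
    ∃ D : ℕ, 0 < D ∧ ∃ b ∈ invs ρ U, a ^ D - b ∈ I := by
  let π : A →ₗ[k] A ⧸ I := (Ideal.Quotient.mkₐ k I).toLinearMap
  obtain ⟨s, hs⟩ := π.exists_rightInverse_of_surjective
    (LinearMap.range_eq_top.2 Ideal.Quotient.mk_surjective)
  have hsI : ∀ x, s (π x) - x ∈ I := fun x =>
    Ideal.Quotient.eq.1 (LinearMap.congr_fun hs (π x))
  have hF : (fun l => s (π (ρ l a))) ∈ TT U A := by
    refine mem_TT (((hρ a).map π).map s) fun u hu l => congrArg s (Ideal.Quotient.eq.2 ?_)
    rw [map_mul, AlgHom.mul_apply, ← map_sub]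
    exact hI l _ (ha u hu)
  let J : Ideal (TT U A) :=
    { carrier := {G | ∀ l, G.1 l ∈ I}
      add_mem' := fun ha hb l => add_mem (ha l) (hb l)
      zero_mem' := fun l => zero_mem I
      smul_mem' := fun c G hG l => I.mul_mem_left _ (hG l) }
  obtain ⟨D, hD, G, hG, h⟩ := hP (TT U A) (tauT ρ U) (ratAct_tauT hρ U) J
    (fun g G hG l => hI g _ (hG _)) ⟨_, hF⟩ (fun g l => by
      change ρ g (s (π (ρ (g⁻¹ * l) a))) - s (π (ρ l a)) ∈ I
      have h1 := hI g _ (hsI (ρ (g⁻¹ * l) a))
      rw [map_sub, ← AlgHom.mul_apply (ρ g) (ρ _), ← map_mul, mul_inv_cancel_left] at h1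
      simpa using sub_mem h1 (hsI (ρ l a)))
  refine ⟨D, hD, G.1 1, ev_mem hG, ?_⟩
  have h1 : s (π (ρ 1 a)) ^ D - G.1 1 ∈ I := h 1
  have h2 : s (π (ρ 1 a)) ^ D - a ^ D ∈ I := by
    refine Ideal.mem_of_dvd _ (sub_dvd_pow_sub_pow _ _ D) ?_
    simpa using hsI a
  simpa using sub_mem h1 h2

end ZipFG
end

-- merged part: Pool.Agent.Work.MP_5c492e_ag.NF
section
/-! Finiteness of normalisation over a perfect field of positive characteristic. -/

open scoped nonZeroDivisors TensorProduct

namespace ZipFG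

namespace NFAux

/-- Noetherianity transfers along injective semilinear maps over a surjective ring map. -/
theorem noeth_of_semilinear {R S M N : Type*} [Ring R] [Ring S] [AddCommGroup M] [AddCommGroup N]
    [Module R M] [Module S N] {σ : R →+* S} [RingHomSurjective σ] (f : M →ₛₗ[σ] N)
    (hf : Function.Injective f) [IsNoetherian S N] : IsNoetherian R M := by
  rw [isNoetherian_iff']
  exact (Submodule.map_strictMono_of_injective hf).wellFoundedGT

/-- A finitely generated algebra over a perfect field is finite over the image of an iterated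
Frobenius. -/
theorem finite_frob (k R : Type*) [Field k] (p : ℕ) [Fact p.Prime] [CharP k p] [PerfectField k]
    [CommRing R] [Algebra k R] [Algebra.FiniteType k R] [ExpChar R p] (n : ℕ) :
    Module.Finite (iterateFrobenius R p n).range R := by
  have hk : ∀ c : k, algebraMap k R c ∈ (iterateFrobenius R p n).range := by
    intro c
    obtain ⟨d, hd⟩ := (iterateFrobeniusEquiv k p n).surjective c
    refine ⟨algebraMap k R d, ?_⟩
    rw [iterateFrobenius_def, ← map_pow, ← hd]
    rfl
  let _ : Algebra k (iterateFrobenius R p n).range :=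
    ((algebraMap k R).codRestrict _ hk).toAlgebra
  have : IsScalarTower k (iterateFrobenius R p n).range R :=
    IsScalarTower.of_algebraMap_eq fun _ => rfl
  have : Algebra.FiniteType (iterateFrobenius R p n).range R :=
    Algebra.FiniteType.of_restrictScalars_finiteType k _ R
  have : Algebra.IsIntegral (iterateFrobenius R p n).range R := by
    refine ⟨fun x => ?_⟩
    have hpos : 0 < p ^ n := pow_pos (Fact.out : p.Prime).pos n
    refine IsIntegral.of_pow hpos ?_
    have : x ^ p ^ n = algebraMap (iterateFrobenius R p n).range R ⟨x ^ p ^ n, x, rfl⟩ := rfl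
    rw [this]
    exact isIntegral_algebraMap
  exact Algebra.IsIntegral.finite

/-- Key lemma: the integral closure of a normal affine domain over a perfect field in a finite
extension of its fraction field is a finite module. -/
theorem finite_closure (k R F L : Type*) [Field k] (p : ℕ) [Fact p.Prime] [CharP k p]
    [PerfectField k] [CommRing R] [IsDomain R] [IsIntegrallyClosed R] [Algebra k R]
    [Algebra.FiniteType k R] [Field F] [Algebra R F] [IsFractionRing R F] [Field L] [Algebra F L]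
    [Algebra R L] [IsScalarTower R F L] [FiniteDimensional F L] :
    Module.Finite R (integralClosure R L) := by
  have : IsNoetherianRing R := Algebra.FiniteType.isNoetherianRing k R
  have : CharP R p := charP_of_injective_algebraMap (algebraMap k R).injective p
  have : CharP F p := charP_of_injective_algebraMap (IsFractionRing.injective R F) p
  set E := separableClosure F L with hE
  have : CharP E p := charP_of_injective_algebraMap (algebraMap F E).injective p
  have : IsScalarTower R E L := IsScalarTower.of_algebraMap_eq fun _ => rfl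
  have hBs : IsNoetherian R (integralClosure R E) :=
    IsIntegralClosure.isNoetherian R F E (integralClosure R E)
  set n := IsPurelyInseparable.exponent E L with hn
  set φ : L →+* E := IsPurelyInseparable.iterateFrobenius E L p (le_refl n) with hφ
  have hφ' : ∀ a : L, algebraMap E L (φ a) = a ^ p ^ n := fun a =>
    IsPurelyInseparable.algebraMap_iterateFrobenius E p (le_refl n) a
  set S := (iterateFrobenius R p n).range with hS
  have hfin : Module.Finite S R := finite_frob k R p n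
  have hSn : IsNoetherianRing S :=
    isNoetherianRing_of_surjective R S (iterateFrobenius R p n).rangeRestrict
      (iterateFrobenius R p n).rangeRestrict_surjective
  have : Module.Finite S (integralClosure R E) := Module.Finite.trans R _
  have : RingHomSurjective (iterateFrobenius R p n).rangeRestrict :=
    ⟨(iterateFrobenius R p n).rangeRestrict_surjective⟩
  have hint : ∀ x : integralClosure R L, φ x ∈ integralClosure R E := by
    intro x
    rw [mem_integralClosure_iff, ← isIntegral_algebraMap_iff (algebraMap E L).injective, hφ']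
    exact x.2.pow _
  let f : integralClosure R L →ₛₗ[(iterateFrobenius R p n).rangeRestrict] integralClosure R E :=
    { toFun := fun x => ⟨φ x, hint x⟩
      map_add' := fun x y => Subtype.ext (by simp)
      map_smul' := fun r x => by
        apply Subtype.ext
        apply (algebraMap E L).injective
        change algebraMap E L (φ (r • (x : L))) = algebraMap E L ((r ^ p ^ n) • φ x)
        rw [hφ', Algebra.smul_def, Algebra.smul_def, map_mul, hφ', mul_pow,
          ← IsScalarTower.algebraMap_apply, map_pow] }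
  have hf : Function.Injective f := by
    intro x y hxy
    have : φ x = φ y := congrArg Subtype.val hxy
    exact Subtype.ext (φ.injective this)
  have := noeth_of_semilinear f hf
  infer_instance

/-- The integral closure of a normal affine domain in an affine domain containing it is finite. -/
theorem finite_closure_of_finiteType (k R A : Type*) [Field k] (p : ℕ) [Fact p.Prime] [CharP k p]
    [PerfectField k] [CommRing R] [IsDomain R] [IsIntegrallyClosed R] [Algebra k R]
    [Algebra.FiniteType k R] [CommRing A] [IsDomain A] [Algebra R A] [Algebra.FiniteType R A]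
    (hinj : Function.Injective (algebraMap R A)) :
    Module.Finite R (integralClosure R A) := by
  have : IsNoetherianRing R := Algebra.FiniteType.isNoetherianRing k R
  let F := FractionRing R
  have : Nontrivial (F ⊗[R] A) :=
    Algebra.TensorProduct.nontrivial_of_algebraMap_injective_of_isDomain R F A
      (IsFractionRing.injective R F) hinj
  obtain ⟨m, hm⟩ := Ideal.exists_maximal (F ⊗[R] A)
  let _ := Ideal.Quotient.field m
  have : Module.Finite F ((F ⊗[R] A) ⧸ m) := finite_of_finite_type_of_isJacobsonRing F _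
  have hfin := finite_closure k R F ((F ⊗[R] A) ⧸ m) p
  let ψ : A →ₐ[R] ((F ⊗[R] A) ⧸ m) :=
    (Ideal.Quotient.mkₐ R m).comp Algebra.TensorProduct.includeRight
  have hR : Function.Injective (algebraMap R ((F ⊗[R] A) ⧸ m)) := by
    rw [IsScalarTower.algebraMap_eq R F ((F ⊗[R] A) ⧸ m)]
    exact (algebraMap F _).injective.comp (IsFractionRing.injective R F)
  let f : integralClosure R A →ₗ[R] integralClosure R ((F ⊗[R] A) ⧸ m) :=
    { toFun := fun x => ⟨ψ x, x.2.map ψ⟩
      map_add' := fun x y => Subtype.ext (by simp)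
      map_smul' := fun r x => Subtype.ext (by simp) }
  have hf : Function.Injective f := by
    rw [injective_iff_map_eq_zero]
    intro x hx
    have hx' : ψ x = 0 := congrArg Subtype.val hx
    by_contra hne
    have hne' : (x : A) ≠ 0 := fun h => hne (Subtype.ext h)
    have h1 := Ideal.comap_ne_bot_of_integral_mem (I := RingHom.ker ψ.toRingHom) hne' hx' x.2
    apply h1
    rw [eq_bot_iff]
    intro r hr
    have : ψ (algebraMap R A r) = 0 := hr
    rw [AlgHom.commutes] at this
    exact hR (this.trans (map_zero _).symm)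
  exact Module.Finite.of_injective f hf

end NFAux

/-- A subalgebra of an affine domain that is integral over a finitely generated subalgebra is
finitely generated. -/
theorem fg_of_integral {k A : Type} [Field k] (p : ℕ) [Fact p.Prime] [CharP k p] [PerfectField k]
    [CommRing A] [IsDomain A] [Algebra k A] [Algebra.FiniteType k A] (B C : Subalgebra k A)
    (hB : B.FG) (hBC : B ≤ C) (hint : ∀ c ∈ C, IsIntegral B c) : C.FG := by
  have : Algebra.FiniteType k B := (Subalgebra.fg_iff_finiteType B).1 hB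
  obtain ⟨s, g, hginj, hgfin⟩ := exists_finite_inj_algHom_of_fg k B
  set R := MvPolynomial (Fin s) k with hR
  let _ : Algebra R B := g.toRingHom.toAlgebra
  let _ : Algebra R A := (B.val.comp g).toRingHom.toAlgebra
  let _ : Algebra R C := ((Subalgebra.inclusion hBC).comp g).toRingHom.toAlgebra
  have : IsScalarTower R B A := IsScalarTower.of_algebraMap_eq fun _ => rfl
  have : IsScalarTower R C A := IsScalarTower.of_algebraMap_eq fun _ => rfl
  have : IsScalarTower k R A := IsScalarTower.of_algebraMap_eq fun c =>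
    ((B.val.comp g).commutes c).symm
  have : IsScalarTower k R C := IsScalarTower.of_algebraMap_eq fun c =>
    (((Subalgebra.inclusion hBC).comp g).commutes c).symm
  have : Module.Finite R B := hgfin
  have : Algebra.FiniteType R A := Algebra.FiniteType.of_restrictScalars_finiteType k R A
  have hinj : Function.Injective (algebraMap R A) := Subtype.val_injective.comp hginj
  have hfin := NFAux.finite_closure_of_finiteType k R A p hinj
  let f : C →ₗ[R] integralClosure R A :=
    { toFun := fun x => ⟨x, isIntegral_trans (A := B) _ (hint x x.2)⟩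
      map_add' := fun x y => rfl
      map_smul' := fun r x => rfl }
  have hf : Function.Injective f := by
    intro x y hxy
    have h2 : (x : A) = y := congrArg (fun z : integralClosure R A => (z : A)) hxy
    exact Subtype.ext h2
  have : Module.Finite R C := Module.Finite.of_injective f hf
  have : Algebra.FiniteType k C := Algebra.FiniteType.trans (S := R) inferInstance inferInstance
  exact (Subalgebra.fg_iff_finiteType C).2 this

/-- A homogeneous affine domain is normal. -/
theorem isIntegrallyClosed_of_homogeneous {k A : Type} [Field k] (p : ℕ) [Fact p.Prime]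
    [CharP k p] [PerfectField k] [CommRing A] [IsDomain A] [Algebra k A] [Algebra.FiniteType k A]
    (h : ∀ I : Ideal A, I ≠ ⊥ → (∀ σ : A ≃ₐ[k] A, ∀ a ∈ I, σ a ∈ I) → I = ⊤) :
    IsIntegrallyClosed A := by
  obtain ⟨s, g, hginj, hgfin⟩ := exists_finite_inj_algHom_of_fg k A
  set R := MvPolynomial (Fin s) k with hR
  let _ : Algebra R A := g.toRingHom.toAlgebra
  have : Module.Finite R A := hgfin
  have : FaithfulSMul R A := (faithfulSMul_iff_algebraMap_injective R A).2 hginj
  let K := FractionRing A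
  let F := FractionRing R
  let _ : Algebra F K := FractionRing.liftAlgebra R K
  have : FiniteDimensional F K := Module.Finite.of_isLocalization R A R⁰
  have hfin := NFAux.finite_closure k R F K p
  have hfg : (integralClosure A K).toSubmodule.FG := by
    have h1 : (integralClosure R K).toSubmodule.FG := Module.Finite.iff_fg.1 hfin
    obtain ⟨t, ht⟩ := h1
    refine ⟨t, le_antisymm ?_ ?_⟩
    · rw [Submodule.span_le]
      intro x hx
      have : x ∈ (integralClosure R K).toSubmodule := ht ▸ Submodule.subset_span hx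
      exact IsIntegral.tower_top (R := R) this
    · intro x hx
      have hx' : x ∈ (integralClosure R K).toSubmodule := isIntegral_trans (A := A) x hx
      rw [← ht] at hx'
      exact Submodule.span_le_restrictScalars R A _ hx'
  obtain ⟨a, ha0, ha⟩ := FractionalIdeal.isFractional_of_fg (S := A⁰) hfg
  let I : Ideal A :=
    { carrier := {a | ∀ x : K, IsIntegral A x → ∃ y : A, algebraMap A K y = a • x}
      add_mem' := by
        intro a b ha hb x hx
        obtain ⟨y, hy⟩ := ha x hx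
        obtain ⟨z, hz⟩ := hb x hx
        exact ⟨y + z, by rw [map_add, hy, hz, add_smul]⟩
      zero_mem' := fun x _ => ⟨0, by simp⟩
      smul_mem' := by
        intro c a ha x hx
        obtain ⟨y, hy⟩ := ha x hx
        exact ⟨c * y, by rw [map_mul, hy, smul_eq_mul, mul_smul, Algebra.smul_def c]⟩ }
  have hI : I = ⊤ := by
    apply h I
    · intro hbot
      have : a ∈ I := fun x hx => ha x hx
      rw [hbot] at this
      exact nonZeroDivisors.ne_zero ha0 this
    · intro σ b hb x hx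
      let τ : K ≃+* K := IsFractionRing.ringEquivOfRingEquiv σ.toRingEquiv
      have hτ : ∀ y : A, τ (algebraMap A K y) = algebraMap A K (σ y) := fun y =>
        IsFractionRing.ringEquivOfRingEquiv_algebraMap σ.toRingEquiv y
      have hτ' : ∀ y : A, τ.symm (algebraMap A K y) = algebraMap A K (σ.symm y) := by
        intro y
        apply τ.injective
        rw [RingEquiv.apply_symm_apply, hτ, AlgEquiv.apply_symm_apply]
      have hx' : IsIntegral A (τ.symm x) :=
        IsIntegral.map_of_comp_eq σ.symm.toRingEquiv.toRingHom τ.symm.toRingHom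
          (RingHom.ext fun y => (hτ' y).symm) hx
      obtain ⟨y, hy⟩ := hb _ hx'
      refine ⟨σ y, ?_⟩
      rw [← hτ, hy, Algebra.smul_def, map_mul, hτ, RingEquiv.apply_symm_apply, Algebra.smul_def]
  rw [isIntegrallyClosed_iff K]
  intro x hx
  have h1 : (1 : A) ∈ I := hI ▸ Submodule.mem_top
  obtain ⟨y, hy⟩ := h1 x hx
  exact ⟨y, by rw [hy, one_smul]⟩

end ZipFG
end
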