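import Pool.Agent.Work.MP_5c492e_ag.Chart
import Pool.Agent.Work.MP_5c492e_ag.NF

-- merged part: Pool.Agent.Work.MP_5c492e_ag.Good1
section
/-! Good pairs: Levi subgroups, the stabiliser of a chamber, rank one. -/

namespace ZipFG

open Function Set Matrix

variable {k : Type} [Field k] [IsAlgClosed k] [LF k] {n : Type} [Fintype n] [DecidableEq n]
  {G T : Subgroup (GL n k)}

namespace Good1Aux

omit [IsAlgClosed k] in
lemma Uu_le_Pn {Y z : n → ℤ} (h : ∀ i j, z j < z i → Y j < Y i) {u : GL n k} (hu : u ∈ Uu Y) :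
    u ∈ Pn z := by
  rw [mem_Pn, mem_NN]
  intro a b hab
  have h1 : Y a < Y b := h b a (by omega)
  have h2 : a ≠ b := fun e => by rw [e] at h1; omega
  rw [Uu_apply hu h1.le, one_apply_ne h2]

omit [IsAlgClosed k] in
lemma lev_mem_Uu {y z : n → ℤ} {M : ℕ} {u : GL n k} (hu : u ∈ Uu (M • z + y)) (hp : u ∈ Pn z) :
    lev z u ∈ Uu y := by
  rw [mem_Uu, mem_NN]
  intro a b hab
  rw [Matrix.sub_apply, lev_apply hp]
  split_ifs with h
  · rw [Uu_apply hu (by simp only [Pi.add_apply, Pi.smul_apply, h]; omega), sub_self]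
  · rw [one_apply_ne (fun e => h (by rw [e])), sub_self]

omit [IsAlgClosed k] [LF k] in
lemma gen_big {y z : n → ℤ} (hy : Gen T y) (hz : z ∈ Yl T) {M : ℕ}
    (h : ∀ i j, z j < z i → (M • z + y) j < (M • z + y) i) : Gen T (M • z + y) := by
  refine ⟨add_mem (nsmul_mem hz M) hy.1, fun i j e => hy.2 i j ?_⟩
  have h1 : z i = z j := by
    rcases lt_trichotomy (z i) (z j) with h1 | h1 | h1
    · exact absurd e (h j i h1).ne
    · exact h1
    · exact absurd e (h i j h1).ne'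
  simpa [h1] using e

end Good1Aux

theorem Good.nu_conj (hG : Good G T) {y : n → ℤ} (hy : y ∈ Yl T) :
    ∀ t, ∀ g ∈ G, nu y t * g * (nu y t)⁻¹ ∈ G := fun t _ hg =>
  mul_mem (mul_mem (hG.le (hy t)) hg) (inv_mem (hG.le (hy t)))

theorem Good.inf_Zn (hG : Good G T) {y : n → ℤ} (hy : Gen T y) : G ⊓ Zn y = T :=
  le_antisymm (fun g hg => hG.cent g hg.1 ((Gen.mem_Zn_iff hG.tor hy).1 hg.2))
    (le_inf hG.le (hG.tor.le.trans (Dn_le_Zn y)))

theorem Good.lev_mem (hG : Good G T) {y : n → ℤ} (hy : Gen T y) {g : GL n k}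
    (hg : g ∈ G ⊓ Pn y) : lev y g ∈ T := by
  rw [← hG.inf_Zn hy]
  exact ZipFG.lev_mem hG.cl (hG.nu_conj hy.1) hg

theorem Good.mem_of_act (hG : Good G T) {w : GL n k} (hw : w ∈ G ⊓ Nm T)
    (h : ∀ z ∈ Yl T, act w z = z) : w ∈ T := by
  obtain ⟨y, hy, -⟩ := exists_gen (T := T) finite_empty (zero_mem _)
  rw [← hG.inf_Zn hy]
  exact ⟨hw.1, (act_eq_iff hG.tor.le hw.2 hy.1).1 (h y hy.1)⟩

theorem Good.cell (hG : Good G T) {y : n → ℤ} (hy : Gen T y) {g : GL n k} (hg : g ∈ G)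
    (h : Dl y g ≠ 0) : ∃ u ∈ G ⊓ Uu y, ∃ t ∈ T, ∃ v ∈ G ⊓ Uu (-y), g = u * t * v := by
  have := exists_cell_decomp hG.cl hG.irr (hG.nu_conj hy.1) hg h
  rwa [hG.inf_Zn hy] at this

/-- Density of the big cell, in the form used for regular functions. -/
theorem Good.dense (hG : Good G T) {y : n → ℤ} (hy : Gen T y) :
    (G : Set (GL n k)) ⊆ zcl {g | ∃ u ∈ G ⊓ Uu y, ∃ t ∈ T, ∃ v ∈ G ⊓ Uu (-y), g = u * t * v} :=
  (hG.irr.dense (F := fun g => Dl y g) (by fun_prop) G.one_mem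
    (by rw [Dl_one]; exact one_ne_zero)).trans (zcl_mono fun _ hg => hG.cell hy hg.1 hg.2)

/-- An element of the normaliser in a parabolic subgroup lies in its Levi subgroup. -/
theorem mem_Zn_of_Nm (hT : T ≤ Dn) {w : GL n k} (hw : w ∈ Nm T) {z : n → ℤ} (hz : z ∈ Yl T)
    (h : w ∈ Pn z) : w ∈ Zn z := by
  refine (act_eq_iff hT hw hz).1 (funext fun i => ?_)
  have h1 : ∀ i ∈ Finset.univ, z (pm w i) ≤ z i := fun i _ => by
    by_contra hi
    exact pm_ne w i (mem_NN.1 (mem_Pn.1 h) i _ (by omega))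
  exact (Finset.sum_eq_sum_iff_of_le h1).1 (Equiv.sum_comp (pm w) z) i (Finset.mem_univ i)

/-- A good pair with trivial unipotent part is a torus. -/
theorem Good.le_of_bot (hG : Good G T) {y : n → ℤ} (hy : Gen T y) (h : G ⊓ Uu y = ⊥) : G ≤ T := by
  have h1 : G ≤ Nm T := fun g hg => by
    obtain ⟨u, hu, w, hw, u', hu', rfl⟩ := hG.bruhat y y hy hy g hg
    rw [h, Subgroup.mem_bot] at hu hu'
    rw [hu, hu', one_mul, mul_one]
    exact hw.2
  exact fun g hg => hG.cent g hg (Irr.comm_of_le_Nm hG.tor.le hG.irr h1 g hg)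

theorem Good.levi (hG : Good G T) {z : n → ℤ} (hz : z ∈ Yl T) : Good (G ⊓ Zn z) T where
  cl := hG.cl.inf (zclosed_Zn z)
  irr := irr_inf_Zn hG.cl hG.irr (hG.nu_conj hz)
  tor := hG.tor
  le := le_inf hG.le (hG.tor.le.trans (Dn_le_Zn z))
  cent g hg := hG.cent g hg.1
  bruhat y y' hy hy' g hg := by
    obtain ⟨M, -, hM⟩ := exists_big z y
    obtain ⟨M', -, hM'⟩ := exists_big z y'
    obtain ⟨u, hu, w, hw, u', hu', e⟩ := hG.bruhat _ _ (Good1Aux.gen_big hy hz hM)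
      (Good1Aux.gen_big hy' hz hM') g hg.1
    have hp : u ∈ Pn z := Good1Aux.Uu_le_Pn hM hu.2
    have hp' : u' ∈ Pn z := Good1Aux.Uu_le_Pn hM' hu'.2
    have hwp : w ∈ Pn z := by
      have : w = u⁻¹ * g * u'⁻¹ := by rw [e]; group
      rw [this]
      exact mul_mem (mul_mem (inv_mem hp) hg.2.1) (inv_mem hp')
    have hwz : w ∈ Zn z := mem_Zn_of_Nm hG.tor.le hw.2 hz hwp
    refine ⟨lev z u, ⟨ZipFG.lev_mem hG.cl (hG.nu_conj hz) ⟨hu.1, hp⟩,
      Good1Aux.lev_mem_Uu hu.2 hp⟩, w, ⟨⟨hw.1, hwz⟩, hw.2⟩, lev z u',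
      ⟨ZipFG.lev_mem hG.cl (hG.nu_conj hz) ⟨hu'.1, hp'⟩, Good1Aux.lev_mem_Uu hu'.2 hp'⟩, ?_⟩
    rw [← lev_of_Zn hg.2, e, lev_mul (mul_mem hp hwp) hp', lev_mul hp hwp, lev_of_Zn hwz]

theorem Good.conj_inf_Uu (hG : Good G T) {w : GL n k} (hw : w ∈ G ⊓ Nm T) {y : n → ℤ}
    (hy : y ∈ Yl T) {x : GL n k} : w * x * w⁻¹ ∈ G ⊓ Uu (act w y) ↔ x ∈ G ⊓ Uu y := by
  rw [Subgroup.mem_inf, Subgroup.mem_inf, conj_Uu (Nm_conj_nu hG.tor.le hw.2 hy),
    G.mul_mem_cancel_right (inv_mem hw.1), G.mul_mem_cancel_left hw.1]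

theorem Good.same_act (hG : Good G T) {w : GL n k} (hw : w ∈ G ⊓ Nm T) {y y' : n → ℤ}
    (hy : y ∈ Yl T) (hy' : y' ∈ Yl T) (h : Same G y y') : Same G (act w y) (act w y') := by
  have key : ∀ y y' : n → ℤ, y ∈ Yl T → y' ∈ Yl T → G ⊓ Uu y = G ⊓ Uu y' →
      G ⊓ Uu (act w y) = G ⊓ Uu (act w y') := fun y y' hy hy' h => by
    ext x
    have e : x = w * (w⁻¹ * x * w) * w⁻¹ := by group
    rw [e, hG.conj_inf_Uu hw hy, hG.conj_inf_Uu hw hy', h]
  exact ⟨key y y' hy hy' h.1, key (-y) (-y') (neg_mem hy) (neg_mem hy') h.2⟩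

/-- The stabiliser of a chamber is the torus. -/
theorem Good.mem_of_stab (hG : Good G T) {w : GL n k} (hw : w ∈ G ⊓ Nm T) {y : n → ℤ}
    (hy : Gen T y) (h : G ⊓ Uu (act w y) = G ⊓ Uu y) : w ∈ T := by
  obtain ⟨m, hm⟩ := exists_pow_eq_one_gl w
  have hT := hG.tor.le
  let f : ℕ → n → ℤ := fun i => act (w ^ i) y
  have hf : ∀ i, f i ∈ Yl T := fun i => act_mem hT (pow_mem hw.2 i) hy.1
  have hs : ∀ i, f (i + 1) = act w (f i) := fun i => by
    simp only [f]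
    rw [pow_succ', act_mul hT hw.2 (pow_mem hw.2 i) hy.1]
  have h1 : act (1 : GL n k) y = y := (act_eq_iff hT (one_mem _) hy.1).2 (one_mem _)
  have h0 : f 0 = y := by simp only [f]; rw [pow_zero, h1]
  have hN : f (m + 1) = y := by simp only [f]; rw [hm, h1]
  have hU : ∀ i, G ⊓ Uu (f i) = G ⊓ Uu y := fun i => by
    induction i with
    | zero => rw [h0]
    | succ i ih =>
      ext x
      have e : x = w * (w⁻¹ * x * w) * w⁻¹ := by group
      rw [hs, ← h, e, hG.conj_inf_Uu hw (hf i), hG.conj_inf_Uu hw hy.1, ih]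
  let z : n → ℤ := ∑ i ∈ Finset.range (m + 1), f i
  have hz : z ∈ Yl T := sum_mem fun i _ => hf i
  have hwz : act w z = z := by
    simp only [z]
    rw [act_sum]
    simp_rw [← hs]
    have e1 := Finset.sum_range_succ f (m + 1)
    have e2 := Finset.sum_range_succ' f (m + 1)
    rw [hN] at e1
    rw [h0, e1] at e2
    exact (add_right_cancel e2).symm
  have hle : ∀ u ∈ G ⊓ Uu y, u ∈ Uu z := fun u hu => by
    rw [mem_Uu, mem_NN]
    intro a b hab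
    by_contra hne
    have h2 : ∀ i ∈ Finset.range (m + 1), (1 : ℤ) ≤ f i a - f i b := fun i _ => by
      by_contra hi
      rw [← hU i] at hu
      exact hne (mem_NN.1 (mem_Uu.1 hu.2) a b (by omega))
    have h3 := Finset.sum_le_sum h2
    rw [Finset.sum_sub_distrib] at h3
    simp only [z, Finset.sum_apply] at hab
    simp only [Finset.sum_const, Finset.card_range, nsmul_eq_mul, mul_one] at h3
    push_cast at h3
    omega
  refine (hG.levi hz).le_of_bot hy ?_ ⟨hw.1, (act_eq_iff hT hw.2 hz).1 hwz⟩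
  rw [eq_bot_iff]
  intro u hu
  exact Uu_inf_Pn (hle u ⟨hu.1.1, hu.2⟩) hu.1.2.2

end ZipFG
end

-- merged part: Pool.Agent.Work.MP_5c492e_ag.Rk1
section
/-! Good pairs: rank one data at a simple wall. -/

namespace ZipFG

open Function Set Matrix

variable {k : Type} [Field k] [IsAlgClosed k] [LF k] {n : Type} [Fintype n] [DecidableEq n]
  {G T : Subgroup (GL n k)}

/-- On the centraliser of a general point of a wall only the side of the wall matters. -/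
theorem Uu_of_side {y0 : n → ℤ} {a b : n}
    (hr : ∀ i j, y0 i = y0 j → ∀ z ∈ Yl T, z a = z b → z i = z j) {z z' : n → ℤ} (hz : z ∈ Yl T)
    (hz' : z' ∈ Yl T) (h : 0 < (z a - z b) * (z' a - z' b)) {g : GL n k} (hg : g ∈ Zn y0)
    (hu : g ∈ Uu z) : g ∈ Uu z' := by
  refine mem_Uu.2 (mem_NN.2 fun i j hij => ?_)
  by_cases h0 : y0 i = y0 j
  · refine mem_NN.1 (mem_Uu.1 hu) i j ?_
    have hp := wall_prop hr h0 hz hz'
    by_contra hc
    have h1 : 0 < (z a - z b) * (z' a - z' b) * (z i - z j) := mul_pos h (by omega)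
    have h2 : (z a - z b) ^ 2 * (z' i - z' j) ≤ 0 :=
      mul_nonpos_of_nonneg_of_nonpos (sq_nonneg _) (by omega)
    have h3 : (z a - z b) ^ 2 * (z' i - z' j) = (z a - z b) * (z' a - z' b) * (z i - z j) := by
      linear_combination (z a - z b) * hp
    omega
  · have hne : i ≠ j := fun e => h0 (congrArg y0 e)
    rw [Matrix.sub_apply, mem_Zn.1 hg i j h0, one_apply_ne hne, sub_zero]

namespace Rk1Aux

omit [IsAlgClosed k] in
lemma Uu_mono {y0 y1 : n → ℤ} (h : ∀ i j, y0 j < y0 i → y1 j < y1 i) :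
    (Uu y0 : Subgroup (GL n k)) ≤ Uu y1 := by
  intro g hg
  refine mem_Uu.2 (mem_NN.2 fun i j hij => mem_NN.1 (mem_Uu.1 hg) i j ?_)
  by_contra hc
  have := h i j (by omega)
  omega

omit [IsAlgClosed k] in
lemma Uu_le_Pn_of {y0 y1 : n → ℤ} (h : ∀ i j, y0 j < y0 i → y1 j < y1 i) :
    (Uu y1 : Subgroup (GL n k)) ≤ Pn y0 := by
  intro g hg
  refine mem_Pn.2 (mem_NN.2 fun i j hij => ?_)
  have h1 := h j i (by omega)
  have hne : i ≠ j := fun e => by rw [e] at h1; omega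
  rw [Uu_apply hg h1.le, one_apply_ne hne]

lemma clos_neg {y0 y1 : n → ℤ} (h : ∀ i j, y0 j < y0 i → y1 j < y1 i) :
    ∀ i j, (-y0) j < (-y0) i → (-y1) j < (-y1) i := by
  intro i j e
  simp only [Pi.neg_apply, neg_lt_neg_iff] at e ⊢
  exact h j i e

lemma refl_inv (hT : T ≤ Dn) {a b : n} {w : GL n k} (hw : w ∈ Nm T)
    (h : ∀ z ∈ Yl T, act w z a - act w z b = -(z a - z b)) :
    ∀ z ∈ Yl T, act w⁻¹ z a - act w⁻¹ z b = -(z a - z b) := by
  intro z hz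
  have := h _ (act_mem hT (inv_mem hw) hz)
  rw [act_act_inv hT hw hz] at this
  omega

lemma flip {y0 : n → ℤ} (hL : Good (G ⊓ Zn y0) T) {a b : n}
    (hr : ∀ i j, y0 i = y0 j → ∀ z ∈ Yl T, z a = z b → z i = z j) {w : GL n k}
    (hw : w ∈ G ⊓ Zn y0 ⊓ Nm T) (h : ∀ z ∈ Yl T, act w z a - act w z b = -(z a - z b))
    {z z' : n → ℤ} (hz : z ∈ Yl T) (hz' : z' ∈ Yl T) (hne : (z a - z b) * (z' a - z' b) < 0)
    {x : GL n k} (hx : x ∈ G ⊓ Zn y0 ⊓ Uu z) : w * x * w⁻¹ ∈ G ⊓ Zn y0 ⊓ Uu z' := by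
  have h1 := (hL.conj_inf_Uu hw hz).2 hx
  refine ⟨h1.1, Uu_of_side hr (act_mem hL.tor.le hw.2 hz) hz' ?_ h1.1.2 h1.2⟩
  rw [h z hz]
  linarith

lemma exists_refl (hG : Good G T) {y1 y0 : n → ℤ} {a b : n} (W : Wall T y1 y0 a b)
    (hne : G ⊓ Zn y0 ⊓ Uu y1 ≠ ⊥) :
    ∃ w ∈ G ⊓ Zn y0 ⊓ Nm T, ∀ z ∈ Yl T, act w z a - act w z b = -(z a - z b) := by
  have hL := hG.levi W.mem
  by_contra hc
  have h1 : ∀ w ∈ G ⊓ Zn y0 ⊓ Nm T, w ∈ T := by
    intro w hw
    rcases rk1_dichotomy hG.tor.le W.rank hw.2 hw.1.2 with h | h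
    · exact hL.mem_of_act hw h
    · exact absurd ⟨w, hw, h⟩ hc
  have h2 : G ⊓ Zn y0 ≤ Pn y1 := by
    intro g hg
    obtain ⟨u, hu, w, hw, u', hu', rfl⟩ := hL.bruhat y1 y1 W.gen W.gen g hg
    exact mul_mem (mul_mem (Uu_le_Pn _ hu.2) (Dn_le_Pn _ (hG.tor.le (h1 w hw)))) (Uu_le_Pn _ hu'.2)
  have h3 : G ⊓ Zn y0 ⊓ Uu (-y1) = ⊥ := by
    refine eq_bot_iff.2 fun g hg => Subgroup.mem_bot.2 (Uu_inf_Pn hg.2 ?_)
    rw [neg_neg]
    exact h2 hg.1
  have h4 := hL.le_of_bot W.gen.neg h3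
  exact hne (eq_bot_iff.2 fun g hg =>
    Subgroup.mem_bot.2 (Uu_inf_Pn hg.2 (Dn_le_Pn _ (hG.tor.le (h4 hg.1)))))

lemma uniq (hG : Good G T) {y0 : n → ℤ} {a b : n}
    (hr : ∀ i j, y0 i = y0 j → ∀ z ∈ Yl T, z a = z b → z i = z j) {w : GL n k}
    (hw : w ∈ G ⊓ Zn y0 ⊓ Nm T) (h : ∀ z ∈ Yl T, act w z a - act w z b = -(z a - z b))
    {w' : GL n k} (hw' : w' ∈ G ⊓ Zn y0 ⊓ Nm T) : w' ∈ T ∨ w⁻¹ * w' ∈ T := by
  rcases rk1_dichotomy hG.tor.le hr hw'.2 hw'.1.2 with h1 | h1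
  · exact Or.inl (hG.mem_of_act ⟨hw'.1.1, hw'.2⟩ h1)
  · exact Or.inr (hG.mem_of_act ⟨G.mul_mem (G.inv_mem hw.1.1) hw'.1.1,
      (Nm T).mul_mem ((Nm T).inv_mem hw.2) hw'.2⟩
      (rk1_two hG.tor.le hr hw.2 hw.1.2 hw'.2 hw'.1.2 h h1))

lemma sq_neg {y1 : n → ℤ} {a b : n} (h : y1 b < y1 a) :
    (y1 a - y1 b) * ((-y1) a - (-y1) b) < 0 := by
  simp only [Pi.neg_apply]
  exact mul_neg_of_pos_of_neg (by omega) (by omega)

lemma Dl_w (hG : Good G T) {y1 y0 : n → ℤ} {a b : n} (W : Wall T y1 y0 a b) {w : GL n k}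
    (hw : w ∈ G ⊓ Zn y0 ⊓ Nm T) (h : ∀ z ∈ Yl T, act w z a - act w z b = -(z a - z b)) :
    Dl y1 w = 0 := by
  have hL := hG.levi W.mem
  by_contra hc
  obtain ⟨u, hu, t, ht, v, hv, e⟩ := hL.cell W.gen hw.1 hc
  have h1 := flip hL W.rank hw h (neg_mem W.gen.1) W.gen.1
    (by rw [mul_comm]; exact sq_neg W.pos) (inv_mem hv)
  have h2 : w = (w * v⁻¹ * w⁻¹)⁻¹ * (u * t) := by
    have : u * t = w * v⁻¹ := by rw [e]; group
    rw [this]; group
  have h3 : w ∈ Pn y1 := by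
    rw [h2]
    exact mul_mem (inv_mem (Uu_le_Pn _ h1.2)) (mul_mem (Uu_le_Pn _ hu.2) (Dn_le_Pn _ (hG.tor.le ht)))
  have h4 := (act_eq_iff hG.tor.le hw.2 W.gen.1).2 (mem_Zn_of_Nm hG.tor.le hw.2 W.gen.1 h3)
  have h5 := h _ W.gen.1
  rw [h4] at h5
  have := W.pos
  omega

lemma Dl_wu (hG : Good G T) {y1 y0 : n → ℤ} {a b : n} (W : Wall T y1 y0 a b) {w : GL n k}
    (hw : w ∈ G ⊓ Zn y0 ⊓ Nm T) (h : ∀ z ∈ Yl T, act w z a - act w z b = -(z a - z b))
    {u : GL n k} (hu : u ∈ G ⊓ Zn y0 ⊓ Uu y1) (hne : u ≠ 1) : Dl y1 (w * u) ≠ 0 := by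
  have hL := hG.levi W.mem
  obtain ⟨u1, hu1, w', hw', v, hv, e⟩ := hL.bruhat y1 (-y1) W.gen W.gen.neg _ (mul_mem hw.1 hu.1)
  rcases uniq hG W.rank hw h hw' with h1 | h1
  · rw [e, Dl_mul_Uu hv.2, Dl_Uu_mul hu1.2]
    exact Dl_ne_zero (Dn_le_Pn _ (hG.tor.le h1))
  · exfalso
    have h2 := flip hL W.rank (inv_mem hw) (refl_inv hG.tor.le hw.2 h) W.gen.1 (neg_mem W.gen.1)
      (sq_neg W.pos) hu1
    have h3 : u = (w⁻¹ * u1 * w⁻¹⁻¹) * (w⁻¹ * w') * v := by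
      have : u = w⁻¹ * (w * u) := by group
      rw [this, e]; group
    refine hne (Uu_inf_Pn hu.2 ?_)
    rw [h3]
    exact mul_mem (mul_mem (Uu_le_Pn _ h2.2) (Dn_le_Pn _ (hG.tor.le h1))) (Uu_le_Pn _ hv.2)

end Rk1Aux

open Rk1Aux in
theorem Good.exists_rk1 (hG : Good G T) {y y0 : n → ℤ} (hy : y ∈ Yl T) {a b : n}
    (h : Simple G T y y0 a b) : Nonempty (Rk1 G T y y0 a b) := by
  obtain ⟨⟨y1, ⟨hs, hs'⟩, W⟩, hne⟩ := h
  have hT := hG.tor.le
  have hL := hG.levi W.mem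
  have hU : ∀ {g : GL n k}, g ∈ G ⊓ Uu y ⊓ Zn y0 ↔ g ∈ G ⊓ Zn y0 ⊓ Uu y1 := by
    intro g
    rw [hs]
    exact ⟨fun h => ⟨⟨h.1.1, h.2⟩, h.1.2⟩, fun h => ⟨⟨h.1.1, h.2⟩, h.1.2⟩⟩
  have hU' : ∀ {g : GL n k}, g ∈ G ⊓ Uu (-y) ⊓ Zn y0 ↔ g ∈ G ⊓ Zn y0 ⊓ Uu (-y1) := by
    intro g
    rw [hs']
    exact ⟨fun h => ⟨⟨h.1.1, h.2⟩, h.1.2⟩, fun h => ⟨⟨h.1.1, h.2⟩, h.1.2⟩⟩
  have hne' : G ⊓ Zn y0 ⊓ Uu y1 ≠ ⊥ := fun e => hne (eq_bot_iff.2 fun g hg => e ▸ hU.1 hg)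
  obtain ⟨w, hw, hrefl⟩ := exists_refl hG W hne'
  have hcl : ZClosed ((G ⊓ Zn y0 ⊓ Uu y1 : Subgroup (GL n k)) : Set (GL n k)) :=
    hL.cl.inf (zclosed_Uu y1)
  have hnorm : ∀ (z : n → ℤ), ∀ t ∈ T, ∀ u ∈ G ⊓ Zn y0 ⊓ Uu z, t * u * t⁻¹ ∈ G ⊓ Zn y0 ⊓ Uu z :=
    fun z t ht u hu => ⟨(G ⊓ Zn y0).mul_mem ((G ⊓ Zn y0).mul_mem (hL.le ht) hu.1)
      ((G ⊓ Zn y0).inv_mem (hL.le ht)),
      conj_mem_Uu (Dn_le_Pn _ (hT ht)) hu.2⟩
  obtain ⟨d, ⟨C⟩⟩ := exists_chart hT hcl (hnorm y1) W.gen.1 inf_le_right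
  have hQ : ∀ c, c ≠ 0 → Dl y1 (w * C.pt c) ≠ 0 := by
    intro c hc
    refine Dl_wu hG W hw hrefl (C.pt_mem c) fun e => hc ?_
    rw [← C.x_pt c, e, C.x_one]
  have hsub : Subsingleton (Fin d) := by
    refine subsingleton_of_unique_zero (Q := fun c => Dl y1 (w * C.pt c))
      (IsReg.Dl y1 ((isReg_const w).mul C.pt_reg)) ?_ hQ
    simp only [C.pt_zero, mul_one]
    exact Dl_w hG W hw hrefl
  obtain ⟨i0⟩ : Nonempty (Fin d) := by
    by_contra hc
    refine hne' (eq_bot_iff.2 fun g hg => Subgroup.mem_bot.2 ?_)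
    rw [← C.pt_x g hg, ← C.pt_zero]
    exact congrArg C.pt (funext fun i => absurd ⟨i⟩ hc)
  have hxco : ∀ u ∈ G ⊓ Zn y0 ⊓ Uu y1, C.pt (fun _ => C.x u i0) = u := by
    intro u hu
    rw [← congrArg C.pt (funext fun i => congrArg (C.x u) (Subsingleton.elim i i0) :
      C.x u = fun _ => C.x u i0), C.pt_x u hu]
  have hconj : ∀ t ∈ T, ∀ c : k,
      t * C.pt (fun _ => c) * t⁻¹ = C.pt (fun _ => eps (C.wt i0) t * c) := by
    intro t ht c
    rw [C.conj_pt ht]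
    exact congrArg C.pt (funext fun i => by rw [Subsingleton.elim i i0])
  have hprop : ∀ z ∈ Yl T, (y1 a - y1 b) * (C.wt i0 ⬝ᵥ z) = (C.wt i0 ⬝ᵥ y1) * (z a - z b) := by
    intro z hz
    have hz' : (y1 a - y1 b) • z - (z a - z b) • y1 ∈ Yl T :=
      sub_mem (zsmul_mem hz _) (zsmul_mem W.gen.1 _)
    have h1 := C.dot_eq_zero hz' (fun g hg => mem_Zn.2 fun i j hij => mem_Zn.1 hg.1.2 i j fun e =>
      hij (W.rank i j e _ hz' (by simp only [Pi.sub_apply, Pi.smul_apply, smul_eq_mul]; ring))) i0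
    rw [dotProduct_sub, dotProduct_smul, dotProduct_smul, smul_eq_mul, smul_eq_mul] at h1
    linear_combination h1
  have hpos : 0 < y1 a - y1 b := sub_pos.2 W.pos
  have heps : ∀ t ∈ T, eps (C.wt i0) (w * t * w⁻¹) = (eps (C.wt i0) t)⁻¹ := by
    intro t ht
    have h1 := eps_conj (C.wt i0) (g := w⁻¹) (hT ht)
      (by rw [inv_inv]; exact hT (mem_Nm.1 hw.2 t ht))
    rw [inv_inv] at h1
    rw [h1, ← eps_neg]
    refine hG.tor.eps_eq (fun z hz => ?_) t ht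
    have h2 := act_dot w⁻¹ (C.wt i0) (act w z)
    rw [act_inv_act hT hw.2 hz] at h2
    rw [h2, neg_dotProduct]
    refine mul_left_cancel₀ hpos.ne' ?_
    rw [hprop _ (act_mem hT hw.2 hz), hrefl z hz, mul_neg, mul_neg, hprop z hz]
  refine ⟨{
    w := w
    α := C.wt i0
    x := fun c => C.pt fun _ => c
    co := fun g => C.x g i0
    w_mem := ⟨⟨hw.1.1, hw.2⟩, hw.1.2⟩
    w_refl := hrefl
    w_uniq := fun w' hw' => uniq hG W.rank hw hrefl ⟨⟨hw'.1.1, hw'.2⟩, hw'.1.2⟩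
    x_reg := C.pt_reg.comp (isReg_pi fun _ => isReg_id)
    co_reg := C.x_reg.app i0
    x_mem := fun c => hU.2 (C.pt_mem _)
    co_x := fun c => by rw [C.x_pt]
    x_co := fun u hu => hxco u (hU.1 hu)
    x_zero := C.pt_zero
    conj := hconj
    prop := ⟨_, _, hpos, C.pos hcl W.gen.1 inf_le_right i0, hprop⟩
    pos := C.pos hcl hy (fun g hg => (hU.2 hg).1.2) i0
    eps_w := heps
    w_x := fun c => (hU'.2 (flip hL W.rank hw hrefl W.gen.1 (neg_mem W.gen.1) (sq_neg W.pos)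
      (C.pt_mem _))).1.2
    w_x' := fun u hu => ?_
    rel := ?_
    le_Uu := fun g hg => (hs.ge ⟨hg.1, Uu_mono W.clos hg.2⟩).2
    le_Pn := fun g hg => Uu_le_Pn_of W.clos (hs.le hg).2
    le_Uu' := fun g hg => (hs'.ge ⟨hg.1, Uu_mono (clos_neg W.clos) hg.2⟩).2
    le_Pn' := fun g hg => Uu_le_Pn_of (clos_neg W.clos) (hs'.le hg).2 }⟩
  · have h1 := flip hL W.rank (inv_mem hw) (refl_inv hT hw.2 hrefl) (neg_mem W.gen.1) W.gen.1
      (by rw [mul_comm]; exact sq_neg W.pos) (hU'.1 hu)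
    rw [inv_inv] at h1
    exact (hU.2 h1).1.2
  · obtain ⟨u, hu, t1, ht1, v, hv, e⟩ := hL.cell W.gen (mul_mem hw.1 (C.pt_mem fun _ => 1).1)
      (hQ _ fun e => one_ne_zero (congrFun e i0))
    refine ⟨C.x u i0, t1, ht1, fun t ht => ⟨t * v * t⁻¹, (hU'.2 (hnorm _ t ht v hv)).1, ?_⟩⟩
    have h1 := hconj t ht 1
    rw [mul_one] at h1
    have h2 := hconj _ (mem_Nm.1 hw.2 t ht) (C.x u i0)
    rw [hxco u hu, heps t ht, mul_comm _ (C.x u i0)] at h2
    rw [← h1, ← h2]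
    calc w * (t * C.pt (fun _ => 1) * t⁻¹) = w * t * w⁻¹ * (w * C.pt fun _ => 1) * t⁻¹ := by group
      _ = _ := by rw [e]; group

end ZipFG
end

-- merged part: Pool.Agent.Work.MP_5c492e_ag.Good2
section
/-! Good pairs: chambers, generation. -/

namespace ZipFG

open Function Set Matrix

variable {k : Type} [Field k] [IsAlgClosed k] [LF k] {n : Type} [Fintype n] [DecidableEq n]
  {G T : Subgroup (GL n k)}

namespace Good2Aux

/-- `y1` refines the order given by `y0`. -/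
def Ref (y0 y1 : n → ℤ) : Prop := ∀ i j, y0 j < y0 i → y1 j < y1 i

omit [Fintype n] [DecidableEq n] in
lemma Ref.neg {y0 y1 : n → ℤ} (h : Ref y0 y1) : Ref (-y0) (-y1) := fun i j e => by
  have := h j i (by simpa using e)
  simpa using this

omit [IsAlgClosed k] in
lemma Ref.Uu_le {y0 y1 : n → ℤ} (h : Ref y0 y1) : (Uu y0 : Subgroup (GL n k)) ≤ Uu y1 := by
  intro g hg
  rw [mem_Uu, mem_NN] at *
  intro a b e
  refine hg a b ?_
  by_contra h'
  have := h a b (by omega)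
  omega

omit [IsAlgClosed k] in
lemma Ref.Uu_le_Pn {y0 y1 : n → ℤ} (h : Ref y0 y1) : (Uu y1 : Subgroup (GL n k)) ≤ Pn y0 := by
  intro g hg
  rw [mem_Pn, mem_NN]
  intro a b e
  have h1 := h b a (by omega)
  rw [Uu_apply hg h1.le, one_apply_ne]
  rintro rfl
  omega

omit [IsAlgClosed k] in
lemma lev_mem_Uu {y0 y1 : n → ℤ} {g : GL n k} (h0 : g ∈ Pn y0) (h1 : g ∈ Uu y1) :
    lev y0 g ∈ Uu y1 := by
  rw [mem_Uu, mem_NN]
  intro a b e
  rw [Matrix.sub_apply, lev_apply h0]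
  split_ifs with h
  · rw [Uu_apply h1 (by omega), sub_self]
  · rw [one_apply_ne (by rintro rfl; exact h rfl), sub_self]

omit [IsAlgClosed k] in
lemma same_refl (y : n → ℤ) : Same G y y := ⟨rfl, rfl⟩

omit [IsAlgClosed k] in
lemma same_symm {y y' : n → ℤ} (h : Same G y y') : Same G y' y := ⟨h.1.symm, h.2.symm⟩

omit [IsAlgClosed k] in
lemma same_trans {y y' y'' : n → ℤ} (h : Same G y y') (h' : Same G y' y'') : Same G y y'' :=
  ⟨h.1.trans h'.1, h.2.trans h'.2⟩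

omit [IsAlgClosed k] in
lemma same_of_ref {y y' : n → ℤ} (h : Ref y y') (h' : Ref y' y) : Same G y y' :=
  ⟨by rw [le_antisymm (h.Uu_le (k := k)) h'.Uu_le],
    by rw [le_antisymm (h.neg.Uu_le (k := k)) h'.neg.Uu_le]⟩

lemma inf_eq_of_le (hG : Good G T) {y0 y1 : n → ℤ} (hy0 : y0 ∈ Yl T) (hL : G ⊓ Zn y0 ≤ T)
    (h : Ref y0 y1) : G ⊓ Uu y1 = G ⊓ Uu y0 := by
  refine le_antisymm (fun u hu => ⟨hu.1, ?_⟩) (inf_le_inf_left _ h.Uu_le)
  have hP : u ∈ Pn y0 := h.Uu_le_Pn hu.2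
  have h1 : lev y0 u ∈ T := hL (lev_mem hG.cl (hG.nu_conj hy0) ⟨hu.1, hP⟩)
  exact (lev_eq_one_iff hP).1 ((Uu_un (lev_mem_Uu hP hu.2)).eq_one (Dn_ss (hG.tor.le h1)))

lemma same_of_le (hG : Good G T) {y0 y1 : n → ℤ} (hy0 : y0 ∈ Yl T) (hL : G ⊓ Zn y0 ≤ T)
    (h : Ref y0 y1) : Same G y1 y0 :=
  ⟨inf_eq_of_le hG hy0 hL h, inf_eq_of_le hG (neg_mem hy0) (by rwa [Zn_neg]) h.neg⟩

/-- Crossing a trivial wall does not change the chamber. -/
lemma cross (hG : Good G T) {y1 y0 y2 : n → ℤ} {a b : n} (h1 : Wall T y1 y0 a b)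
    (h2 : Wall T y2 y0 b a) (h : G ⊓ Uu y1 ⊓ Zn y0 = ⊥) : Same G y1 y2 := by
  have hL : G ⊓ Zn y0 ≤ T := (hG.levi h1.mem).le_of_bot h1.gen (by rw [inf_right_comm]; exact h)
  exact same_trans (same_of_le hG h1.mem hL h1.clos) (same_symm (same_of_le hG h1.mem hL h2.clos))

lemma ref_of_side {y0 : n → ℤ} {a b : n}
    (hr : ∀ i j, y0 i = y0 j → ∀ z ∈ Yl T, z a = z b → z i = z j) {z z' : n → ℤ} (hz : z ∈ Yl T)
    (hz' : z' ∈ Yl T) (h1 : Ref y0 z) (h2 : Ref y0 z') (h : 0 < (z a - z b) * (z' a - z' b)) :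
    Ref z z' := by
  intro i j e
  rcases lt_trichotomy (y0 j) (y0 i) with h0 | h0 | h0
  · exact h2 i j h0
  · have := wall_prop hr h0.symm hz hz'
    by_contra hc
    have h3 : 0 ≤ z' j - z' i := by omega
    have h4 : 0 < z i - z j := by omega
    have h5 := mul_pos h h4
    have h6 := mul_nonneg (mul_self_nonneg (z a - z b)) h3
    have h7 : (z a - z b) * (z' a - z' b) * (z i - z j) =
        - ((z a - z b) * (z a - z b) * (z' j - z' i)) := by
      linear_combination (-(z a - z b)) * this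
    omega
  · have := h1 j i h0
    omega

lemma act_one (hT : T ≤ Dn) {y : n → ℤ} (hy : y ∈ Yl T) : act (1 : GL n k) y = y :=
  (act_eq_iff hT (one_mem _) hy).2 (one_mem _)

lemma gen_big {z η : n → ℤ} (hz : z ∈ Yl T) (hη : Gen T η) {M : ℕ} (h : Ref z (M • z + η)) :
    Gen T (M • z + η) := by
  refine ⟨add_mem (nsmul_mem hz M) hη.1, fun i j e => hη.2 i j ?_⟩
  have : z i = z j := by
    rcases lt_trichotomy (z j) (z i) with h0 | h0 | h0
    · have := h i j h0; omega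
    · exact h0.symm
    · have := h j i h0; omega
  simpa [this] using e

end Good2Aux

open Good2Aux

/-- A subgroup containing the torus and the simple reflections acts transitively on chambers. -/
theorem Good.trans_of (hG : Good G T) {y y' : n → ℤ} (hy : Gen T y) (hy' : Gen T y')
    {K : Subgroup (GL n k)}
    (h : ∀ y0 a b, Simple G T y y0 a b → G ⊓ Nm T ⊓ Zn y0 ≤ K) :
    ∃ w ∈ G ⊓ Nm T ⊓ K, Same G (act w y) y' := by
  have hT := hG.tor.le
  refine walk (fun z => ∃ w ∈ G ⊓ Nm T ⊓ K, Same G (act w y) z) hy hy'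
    ⟨1, one_mem _, by rw [act_one hT hy.1]; exact same_refl _⟩ ?_ ?_
  · rintro y1 y2 - - e ⟨w, hw, hs⟩
    exact ⟨w, hw, same_trans hs (same_of_ref (fun i j => (e i j).1) (fun i j => (e i j).2))⟩
  · rintro y1 y0 y2 a b h1 h2 - ⟨w, hw, hs⟩
    by_cases hb : G ⊓ Uu y1 ⊓ Zn y0 = ⊥
    · exact ⟨w, hw, same_trans hs (cross hG h1 h2 hb)⟩
    obtain ⟨R⟩ := hG.exists_rk1 h1.gen.1 ⟨⟨y1, same_refl _, h1⟩, hb⟩
    have hwi : w⁻¹ ∈ G ⊓ Nm T := inv_mem hw.1
    have hs' : Same G y (act w⁻¹ y1) := by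
      have := hG.same_act hwi (act_mem hT hw.1.2 hy.1) h1.gen.1 hs
      rwa [act_inv_act hT hw.1.2 hy.1] at this
    have hZ : ∀ x ∈ Zn y0, w⁻¹ * x * w⁻¹⁻¹ ∈ Zn (act w⁻¹ y0) := fun x hx =>
      (conj_Zn (Nm_conj_nu hT hwi.2 h1.mem)).2 hx
    have hsim : Simple G T y (act w⁻¹ y0) ((pm w⁻¹).symm a) ((pm w⁻¹).symm b) := by
      refine ⟨⟨_, hs', h1.act hT hwi.2⟩, fun hc => hb ?_⟩
      rw [eq_bot_iff]
      intro x hx
      have h3 : w⁻¹ * x * w⁻¹⁻¹ ∈ G ⊓ Uu y ⊓ Zn (act w⁻¹ y0) :=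
        ⟨by rw [hs'.1]; exact (hG.conj_inf_Uu hwi h1.gen.1).2 hx.1, hZ x hx.2⟩
      rw [hc, Subgroup.mem_bot] at h3
      rw [Subgroup.mem_bot]
      exact conj_eq_one_iff.1 h3
    have hK : w⁻¹ * R.w * w⁻¹⁻¹ ∈ K :=
      h _ _ _ hsim ⟨(G ⊓ Nm T).mul_mem ((G ⊓ Nm T).mul_mem hwi R.w_mem.1) ((G ⊓ Nm T).inv_mem hwi),
        hZ _ R.w_mem.2⟩
    refine ⟨R.w * w, ⟨mul_mem R.w_mem.1 hw.1, ?_⟩, ?_⟩
    · have := mul_mem hw.2 hK
      simpa [mul_assoc] using this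
    · rw [act_mul hT R.w_mem.1.2 hw.1.2 hy.1]
      refine same_trans (hG.same_act R.w_mem.1 (act_mem hT hw.1.2 hy.1) h1.gen.1 hs) ?_
      have h3 := h1.act hT R.w_mem.1.2
      rw [(act_eq_iff hT R.w_mem.1.2 h1.mem).2 R.w_mem.2] at h3
      have h4 : 0 < (act R.w y1 a - act R.w y1 b) * (y2 a - y2 b) := by
        rw [R.w_refl y1 h1.gen.1]
        exact mul_pos_of_neg_of_neg (by have := h1.pos; omega) (by have := h2.pos; omega)
      exact same_of_ref (ref_of_side h1.rank h3.gen.1 h2.gen.1 h3.clos h2.clos h4)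
        (ref_of_side h1.rank h2.gen.1 h3.gen.1 h2.clos h3.clos (by rwa [mul_comm]))

theorem Good.trans (hG : Good G T) {y y' : n → ℤ} (hy : Gen T y) (hy' : Gen T y') :
    ∃ w ∈ G ⊓ Nm T, Same G (act w y) y' := by
  obtain ⟨w, hw, h⟩ := hG.trans_of hy hy' (K := ⊤) fun _ _ _ _ => le_top
  exact ⟨w, hw.1, h⟩

lemma Good2Aux.Nm_le (hG : Good G T) {y : n → ℤ} (hy : Gen T y) {K : Subgroup (GL n k)}
    (h2 : T ≤ K) (h : ∀ y0 a b, Simple G T y y0 a b → ∀ R : Rk1 G T y y0 a b, R.w ∈ K) :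
    G ⊓ Nm T ≤ K := by
  have hT := hG.tor.le
  intro w' hw'
  obtain ⟨w, hw, hs⟩ := hG.trans_of hy (hy.act hT hw'.2) (K := K) fun y0 a b hs x hx => by
    obtain ⟨R⟩ := hG.exists_rk1 hy.1 hs
    rcases R.w_uniq x hx with h3 | h3
    · exact h2 h3
    · simpa using mul_mem (h _ _ _ hs R) (h2 h3)
  have hwi : w⁻¹ ∈ G ⊓ Nm T := inv_mem hw.1
  have h3 := hG.same_act hwi (act_mem hT hw.1.2 hy.1) (act_mem hT hw'.2 hy.1) hs
  rw [act_inv_act hT hw.1.2 hy.1, ← act_mul hT hwi.2 hw'.2 hy.1] at h3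
  simpa using mul_mem hw.2 (h2 (hG.mem_of_stab (mul_mem hwi hw') hy h3.1.symm))

theorem Good.gen_plus (hG : Good G T) {y : n → ℤ} (hy : Gen T y) {K : Subgroup (GL n k)}
    (h1 : G ⊓ Uu y ≤ K) (h2 : T ≤ K)
    (h : ∀ y0 a b, Simple G T y y0 a b → ∀ R : Rk1 G T y y0 a b, R.w ∈ K) : G ≤ K := by
  intro g hg
  obtain ⟨u, hu, w, hw, u', hu', rfl⟩ := hG.bruhat y y hy hy g hg
  exact mul_mem (mul_mem (h1 hu) (Nm_le hG hy h2 h hw)) (h1 hu')

theorem Good.gen_minus (hG : Good G T) {y : n → ℤ} (hy : Gen T y) {K : Subgroup (GL n k)}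
    (h1 : G ⊓ Uu (-y) ≤ K) (h2 : T ≤ K)
    (h : ∀ y0 a b, Simple G T y y0 a b → G ⊓ Uu y ⊓ Zn y0 ≤ K) : G ≤ K := by
  have hN : G ⊓ Nm T ≤ K := Nm_le hG hy h2 fun y0 a b hs R => by
    obtain ⟨a0, t1, ht1, hr⟩ := R.rel
    obtain ⟨v, hv, e⟩ := hr 1 (one_mem _)
    rw [← eq_mul_inv_iff_mul_eq] at e
    rw [e]
    refine mul_mem (mul_mem (mul_mem (h _ _ _ hs (R.x_mem _)) (h2 ?_)) (h1 hv))
      (inv_mem (h _ _ _ hs (R.x_mem _)))
    simpa using ht1
  intro g hg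
  obtain ⟨u, hu, w, hw, u', hu', rfl⟩ := hG.bruhat (-y) (-y) hy.neg hy.neg g hg
  exact mul_mem (mul_mem (h1 hu) (hN hw)) (h1 hu')

theorem Good.eq_of_le (hG : Good G T) {y y' : n → ℤ} (hy : Gen T y) (hy' : Gen T y')
    (h : G ⊓ Uu y ≤ Uu y') : G ⊓ Uu y = G ⊓ Uu y' := by
  obtain ⟨w, hw, hs⟩ := hG.trans hy hy'
  have h1 : ∀ g ∈ G ⊓ Uu y', w⁻¹ * g * w ∈ G ⊓ Uu y := fun g hg => by
    rw [← hG.conj_inf_Uu hw hy.1, hs.1]
    simpa [mul_assoc] using hg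
  refine le_antisymm (le_inf inf_le_left h) fun g hg => ?_
  have := conj_mem_of_conj_le (H := G ⊓ Uu y) (x := w⁻¹)
    (fun g hg => by rw [inv_inv]; exact h1 g ⟨hg.1, h hg⟩) _ (h1 g hg)
  simpa [mul_assoc] using this

theorem Good.simple_lt (hG : Good G T) {y y0 : n → ℤ} (hy : y ∈ Yl T) {a b : n}
    (h : Simple G T y y0 a b) : y b < y a := by
  obtain ⟨R⟩ := hG.exists_rk1 hy h
  obtain ⟨r, s, hr, hs, e⟩ := R.prop
  have h1 := mul_pos hr R.pos
  rw [e y hy] at h1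
  have := (mul_pos_iff_of_pos_left hs).1 h1
  omega

lemma Good2Aux.chamber_gen (hG : Good G T) {y y' : n → ℤ} (hy : Gen T y) (hy' : Gen T y')
    (h : ∀ y0 a b, Simple G T y y0 a b → y' b < y' a) : Same G y y' := by
  refine walk (fun z => Same G y z) hy hy' (same_refl _) ?_ ?_
  · rintro y1 y2 - - e hs
    exact same_trans hs (same_of_ref (fun i j => (e i j).1) (fun i j => (e i j).2))
  · intro y1 y0 y2 a b h1 h2 hlt hs
    by_cases hb : G ⊓ Uu y1 ⊓ Zn y0 = ⊥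
    · exact same_trans hs (cross hG h1 h2 hb)
    · have := h y0 a b ⟨⟨y1, hs, h1⟩, by rwa [hs.1]⟩
      omega

/-- The open Weyl chamber is cut out by the simple walls. -/
theorem Good.chamber (hG : Good G T) {y z : n → ℤ} (hy : Gen T y) (hz : z ∈ Yl T)
    (h : ∀ y0 a b, Simple G T y y0 a b → z b < z a) : Same G y z ∧ G ⊓ Zn z = T := by
  obtain ⟨M, -, hM⟩ := exists_big z y
  obtain ⟨M', -, hM'⟩ := exists_big z (-y)
  have g1 := gen_big hz hy hM
  have g2 := gen_big hz hy.neg hM'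
  have s1 := chamber_gen hG hy g1 fun y0 a b hs => hM _ _ (h y0 a b hs)
  have s2 := chamber_gen hG hy g2 fun y0 a b hs => hM' _ _ (h y0 a b hs)
  have hL : G ⊓ Zn z ≤ T := by
    refine (hG.levi hz).le_of_bot g1 ?_
    rw [eq_bot_iff]
    intro x hx
    have h1 : x ∈ G ⊓ Uu (M' • z + -y) := by
      rw [← s2.1, s1.1]; exact ⟨hx.1.1, hx.2⟩
    refine Uu_inf_Pn hx.2 ?_
    rw [mem_Pn, mem_NN]
    intro a b e
    by_cases hab : z a = z b
    · have e' : y b < y a := by simpa [hab] using e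
      have e'' : (M' • z + -y) a ≤ (M' • z + -y) b := by
        rw [Pi.add_apply, Pi.add_apply, Pi.smul_apply, Pi.smul_apply, hab, Pi.neg_apply,
          Pi.neg_apply]
        omega
      rw [Uu_apply h1.2 e'', one_apply_ne]
      rintro rfl
      omega
    · exact mem_Zn.1 hx.1.2 a b hab
  exact ⟨same_trans s1 (same_of_le hG hz hL hM),
    le_antisymm hL (le_inf hG.le (hG.tor.le.trans (Dn_le_Zn z)))⟩

/-- The closed Weyl chamber is cut out by the simple walls. -/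
theorem Good.chamber_closed (hG : Good G T) {y z : n → ℤ} (hy : Gen T y) (hz : z ∈ Yl T)
    (h : ∀ y0 a b, Simple G T y y0 a b → z b ≤ z a) :
    G ⊓ Uu y ≤ Pn z ∧ G ⊓ Uu (-y) ≤ Pn (-z) := by
  obtain ⟨M, -, hM⟩ := exists_big z y
  have s := chamber_gen hG hy (gen_big hz hy hM) fun y0 a b hs => by
    have h1 := hG.simple_lt hy.1 hs
    have h2 := mul_le_mul_of_nonneg_left (h y0 a b hs) (Int.natCast_nonneg M)
    rw [Pi.add_apply, Pi.add_apply, Pi.smul_apply, Pi.smul_apply, nsmul_eq_mul, nsmul_eq_mul]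
    omega
  rw [s.1, s.2]
  exact ⟨inf_le_right.trans (Ref.Uu_le_Pn hM), inf_le_right.trans (Ref.Uu_le_Pn (Ref.neg hM))⟩

end ZipFG
end

-- merged part: Pool.Agent.Work.MP_5c492e_ag.Rho
section
/-! Good pairs: the sum of the positive roots. -/

namespace ZipFG

open Function Set Matrix

variable {k : Type} [Field k] [IsAlgClosed k] [LF k] {n : Type} [Fintype n] [DecidableEq n]
  {G T : Subgroup (GL n k)}

namespace RhoAux

omit [IsAlgClosed k] in
lemma conj_inv {w t : GL n k} (hw : w ∈ Nm T) (ht : t ∈ T) : w⁻¹ * t * w ∈ T := by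
  simpa using (Nm T).inv_mem hw t ht

lemma split (hT : T ≤ Dn) {U : Subgroup (GL n k)} (hU : ZClosed (U : Set (GL n k))) {y0 : n → ℤ}
    (hy0 : y0 ∈ Yl T) (h : U ≤ Pn y0) {ι ι0 : Type} [Fintype ι] [Fintype ι0] (C : Chart T U ι)
    (C0 : Chart T (U ⊓ Zn y0) ι0) {w : GL n k} (hw : w ∈ Nm T)
    (hn : ∀ u, u ∈ U ⊓ Uu y0 ↔ w * u * w⁻¹ ∈ U ⊓ Uu y0) : ∃ ρ : n → ℤ,
    (∀ t ∈ T, eps (∑ i, C.wt i) t = eps ρ t * eps (∑ i, C0.wt i) t) ∧
      ∀ t ∈ T, eps ρ (w * t * w⁻¹) = eps ρ t := by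
  obtain ⟨d, ⟨C1⟩⟩ := exists_chart hT (U := U ⊓ Uu y0) (hU.inf (zclosed_Uu y0))
    (fun t ht u hu => ⟨C.norm t ht u hu.1, conj_mem_Uu (Dn_le_Pn y0 (hT ht)) hu.2⟩) hy0 inf_le_right
  obtain ⟨C2, h2, -⟩ := Chart.exists_prod hT h
    (fun u hu => (lev_mem hU (fun t g hg => C.norm _ (hy0 t) g hg) ⟨hu, h hu⟩).1) C1 C0
  obtain ⟨C3, h3, -⟩ := C1.exists_conj hT hw hn
  refine ⟨∑ i, C1.wt i, fun t ht => ?_, fun t ht => ?_⟩
  · rw [C.sum_eq hT C2 t ht, ← eps_add _ _ (hT ht), Fintype.sum_sum_type, h2]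
    rfl
  · have := eps_conj (∑ i, C1.wt i) (g := w) (hT (hw t ht)) (hT (conj_inv hw (hw t ht)))
    rw [C1.sum_eq hT C3 _ (hw t ht)]
    simp only [h3, ← act_sum, ← this]
    simp [mul_assoc]

/-- The chart of the root group. -/
def chart {y y0 : n → ℤ} {a b : n} (R : Rk1 G T y y0 a b) : Chart T (G ⊓ Uu y ⊓ Zn y0) Unit where
  x g _ := R.co g
  pt c := R.x (c ())
  wt _ := R.α
  x_reg := isReg_pi fun _ => R.co_reg
  pt_reg := R.x_reg.comp (isReg_apply ())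
  pt_mem _ := R.x_mem _
  x_pt _ := funext fun _ => R.co_x _
  pt_x := R.x_co
  x_one := funext fun _ => by rw [← R.x_zero, R.co_x]; rfl
  norm t ht u hu := by rw [← R.x_co u hu, R.conj t ht]; exact R.x_mem _
  conj t ht u hu _ := by
    conv_lhs => rw [← R.x_co u hu, R.conj t ht, R.co_x]

omit [IsAlgClosed k] in
lemma norm_iff {y y0 : n → ℤ} {w : GL n k} (hw : w ∈ G) (hw0 : w ∈ Zn y0) (h : G ⊓ Uu y0 ≤ Uu y)
    (u : GL n k) : u ∈ G ⊓ Uu y ⊓ Uu y0 ↔ w * u * w⁻¹ ∈ G ⊓ Uu y ⊓ Uu y0 := by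
  have key : ∀ w ∈ G, w ∈ Zn y0 → ∀ u ∈ G ⊓ Uu y ⊓ Uu y0, w * u * w⁻¹ ∈ G ⊓ Uu y ⊓ Uu y0 :=
    fun w hw hw0 u hu => by
      have a1 := G.mul_mem (G.mul_mem hw hu.1.1) (G.inv_mem hw)
      have a2 := conj_mem_Uu hw0.1 hu.2
      exact ⟨⟨a1, h ⟨a1, a2⟩⟩, a2⟩
  refine ⟨key w hw hw0 u, fun hu => ?_⟩
  simpa [mul_assoc] using key _ (G.inv_mem hw) ((Zn y0).inv_mem hw0) _ hu

lemma refl_neg (hG : Good G T) {y y0 : n → ℤ} {a b : n} (h : Simple G T y y0 a b)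
    (R : Rk1 G T y y0 a b) {ι : Type} [Fintype ι] (C : Chart T (G ⊓ Uu (-y)) ι) :
    ∀ t ∈ T, eps (∑ i, C.wt i) (R.w * t * R.w⁻¹) = eps (∑ i, C.wt i) t * eps R.α t ^ 2 := by
  obtain ⟨⟨y1, -, hW⟩, -⟩ := h
  obtain ⟨⟨w1, w2⟩, w3⟩ := R.w_mem
  obtain ⟨C0, h0, -⟩ := (chart R).exists_conj hG.tor.le (U' := G ⊓ Uu (-y) ⊓ Zn (-y0)) w2 fun u => by
    rw [Zn_neg]
    refine ⟨fun hu => ⟨⟨G.mul_mem (G.mul_mem w1 hu.1.1) (G.inv_mem w1), ?_⟩,
      (Zn y0).mul_mem ((Zn y0).mul_mem w3 hu.2) ((Zn y0).inv_mem w3)⟩, fun hu => ⟨⟨?_, ?_⟩, ?_⟩⟩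
    · rw [← R.x_co u hu]; exact R.w_x _
    · simpa [mul_assoc] using G.mul_mem (G.mul_mem (G.inv_mem w1) hu.1.1) w1
    · simpa [mul_assoc] using R.w_x' _ hu
    · simpa [mul_assoc] using (Zn y0).mul_mem ((Zn y0).mul_mem ((Zn y0).inv_mem w3) hu.2) w3
  obtain ⟨ρ, h1, h2⟩ := split hG.tor.le (hG.cl.inf (zclosed_Uu (-y))) (neg_mem hW.mem) R.le_Pn' C
    C0 w2 (norm_iff w1 (by rw [Zn_neg]; exact w3) R.le_Uu')
  have e : ∀ t ∈ T, eps (∑ i, C0.wt i) t = (eps R.α t)⁻¹ := fun t ht => by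
    have a1 := R.eps_w _ (conj_inv w2 ht)
    rw [eps_conj _ (hG.tor.le ht) (hG.tor.le (conj_inv w2 ht))] at a1
    simp only [h0, chart, Finset.univ_unique, Finset.sum_singleton]
    rw [← inv_inv (eps (act R.w R.α) t), ← a1]
    simp [mul_assoc]
  intro t ht
  have := eps_ne_zero R.α (hG.tor.le ht)
  rw [h1 _ (w2 t ht), h1 t ht, h2 t ht, e t ht, e _ (w2 t ht), R.eps_w t ht]
  field_simp

end RhoAux

theorem Good.rho_refl (hG : Good G T) {y y0 : n → ℤ} {a b : n} (h : Simple G T y y0 a b)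
    (R : Rk1 G T y y0 a b) {ι : Type} [Fintype ι] (C : Chart T (G ⊓ Uu y) ι) :
    ∀ t ∈ T, eps (∑ i, C.wt i) (R.w * t * R.w⁻¹) = eps (∑ i, C.wt i) t * (eps R.α t)⁻¹ ^ 2 := by
  obtain ⟨⟨y1, -, hW⟩, -⟩ := h
  obtain ⟨ρ, h1, h2⟩ := RhoAux.split hG.tor.le (hG.cl.inf (zclosed_Uu y)) hW.mem R.le_Pn C
    (RhoAux.chart R) R.w_mem.1.2 (RhoAux.norm_iff R.w_mem.1.1 R.w_mem.2 R.le_Uu)
  intro t ht
  have e : ∑ i, (RhoAux.chart R).wt i = R.α := by simp [RhoAux.chart]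
  have := eps_ne_zero R.α (hG.tor.le ht)
  rw [h1 _ (R.w_mem.1.2 t ht), h1 t ht, h2 t ht, e, R.eps_w t ht]
  field_simp

theorem Good.rho_neg (hG : Good G T) {y : n → ℤ} (hy : Gen T y) {ι ι' : Type} [Fintype ι]
    [Fintype ι'] (C : Chart T (G ⊓ Uu y) ι) (C' : Chart T (G ⊓ Uu (-y)) ι') :
    ∀ t ∈ T, eps (∑ i, C'.wt i) t = (eps (∑ i, C.wt i) t)⁻¹ := by
  obtain ⟨M, hM, h, hh, hd⟩ := exists_proj (Yl T) (∑ i, C.wt i + ∑ i, C'.wt i)
  have key : ∀ y0 a b, Simple G T y y0 a b → h a = h b := fun y0 a b hs => by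
    obtain ⟨R⟩ := hG.exists_rk1 hy.1 hs
    have hw := act_mem hG.tor.le R.w_mem.1.2 hh
    have e1 : (∑ i, C.wt i + ∑ i, C'.wt i) ⬝ᵥ act R.w h = (∑ i, C.wt i + ∑ i, C'.wt i) ⬝ᵥ h :=
      zpow_inj_units (k := k) fun s => by
        have a0 := eps_ne_zero R.α (nu_mem_Dn (k := k) h s)
        rw [← eps_nu, ← eps_nu, eps_add _ _ (nu_mem_Dn _ s), eps_add _ _ (nu_mem_Dn _ s),
          ← Nm_conj_nu hG.tor.le R.w_mem.1.2 hh, hG.rho_refl hs R C _ (hh s),
          RhoAux.refl_neg hG hs R C' _ (hh s)]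
        field_simp
    have e2 : h ⬝ᵥ act R.w h = h ⬝ᵥ h := by rw [hd _ hw, hd _ hh, e1]
    have e3 : act R.w h - h = 0 := dotProduct_self_eq_zero.1 (by
      rw [sub_dotProduct, dotProduct_sub, dotProduct_sub, act_dot, dotProduct_comm (act R.w h) h, e2]
      ring)
    have e4 := R.w_refl h hh
    rw [sub_eq_zero.1 e3] at e4
    omega
  obtain ⟨a1, a2⟩ := hG.chamber_closed hy hh fun y0 a b hs => (key y0 a b hs).ge
  obtain ⟨a3, a4⟩ := hG.chamber_closed hy (neg_mem hh) fun y0 a b hs => by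
    simp [key y0 a b hs]
  rw [neg_neg] at a4
  have e5 : h = 0 := dotProduct_self_eq_zero.1 (by
    rw [hd h hh, add_dotProduct, sum_dotProduct, sum_dotProduct,
      Finset.sum_eq_zero fun i _ => C.dot_eq_zero hh (le_inf a1 a3) i,
      Finset.sum_eq_zero fun i _ => C'.dot_eq_zero hh (le_inf a4 a2) i, add_zero, mul_zero])
  intro t ht
  rw [← eps_neg]
  refine hG.tor.eps_eq (fun z hz => ?_) t ht
  have := hd z hz
  rw [e5, zero_dotProduct, add_dotProduct] at this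
  have := (mul_eq_zero.1 this.symm).resolve_left (by exact_mod_cast hM.ne')
  rw [neg_dotProduct]
  omega

theorem Good.rho_w0 (hG : Good G T) {y : n → ℤ} (hy : Gen T y) {ι : Type} [Fintype ι]
    (C : Chart T (G ⊓ Uu y) ι) {w : GL n k} (hw : w ∈ G ⊓ Nm T) (h : Same G (act w y) (-y)) :
    ∀ t ∈ T, eps (∑ i, C.wt i) (w⁻¹ * t * w) = (eps (∑ i, C.wt i) t)⁻¹ := by
  obtain ⟨C', h1, -⟩ := C.exists_conj hG.tor.le (U' := G ⊓ Uu (-y)) hw.2 fun u => by
    rw [← h.1, hG.conj_inf_Uu hw hy.1]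
  intro t ht
  rw [← hG.rho_neg hy C C' t ht, eps_conj _ (hG.tor.le ht) (hG.tor.le (RhoAux.conj_inv hw.2 ht)),
    act_sum]
  simp only [h1]

/-- A cocharacter dual to a character that decreases under a simple reflection is on the
positive side of the wall. -/
theorem Good.dual_le (hG : Good G T) {y y0 : n → ℤ} (hy : y ∈ Yl T) {a b : n}
    (h : Simple G T y y0 a b)
    (R : Rk1 G T y y0 a b) {l z : n → ℤ} {M : ℕ} (hM : 0 < M) (hz : z ∈ Yl T)
    (hd : ∀ z' ∈ Yl T, z ⬝ᵥ z' = M * (l ⬝ᵥ z')) :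
    (l ⬝ᵥ act R.w y ≤ l ⬝ᵥ y → z b ≤ z a) ∧ (l ⬝ᵥ act R.w y < l ⬝ᵥ y → z b < z a) := by
  have fy := hG.simple_lt hy h
  obtain ⟨⟨y1, -, hW⟩, -⟩ := h
  have e1 : (y a - y b) • (act R.w z - z) = (z a - z b) • (act R.w y - y) := funext fun i =>
    wall_prop hW.rank (i := pm R.w i) (j := i) (by
      by_contra hn
      exact pm_ne R.w i (mem_Zn.1 R.w_mem.2 _ _ (Ne.symm hn))) hy hz
  have e2 : z ⬝ᵥ (act R.w y - y) = M * (l ⬝ᵥ act R.w y - l ⬝ᵥ y) := by
    rw [dotProduct_sub, hd _ (act_mem hG.tor.le R.w_mem.1.2 hy), hd y hy, mul_sub]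
  have e3 : (act R.w z - z) ⬝ᵥ (act R.w z - z) = -2 * (z ⬝ᵥ (act R.w z - z)) := by
    rw [sub_dotProduct, dotProduct_sub, dotProduct_sub, act_dot, dotProduct_comm (act R.w z) z]
    ring
  have e4 := congrArg (fun v => z ⬝ᵥ v) e1
  simp only [dotProduct_smul, smul_eq_mul, e2] at e4
  have e5 : 0 ≤ (act R.w z - z) ⬝ᵥ (act R.w z - z) :=
    Finset.sum_nonneg fun _ _ => mul_self_nonneg _
  have M0 : (0 : ℤ) < M := by exact_mod_cast hM
  have e6 : 0 ≤ z ⬝ᵥ (act R.w z - z) → act R.w z = z := fun h =>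
    sub_eq_zero.1 (dotProduct_self_eq_zero.1 (by omega))
  refine ⟨fun h => ?_, fun h => ?_⟩
  · by_contra hn
    have a1 : 0 ≤ (z a - z b) * (M * (l ⬝ᵥ act R.w y - l ⬝ᵥ y)) :=
      mul_nonneg_of_nonpos_of_nonpos (by omega) (mul_nonpos_of_nonneg_of_nonpos M0.le (by omega))
    have a2 := R.w_refl z hz
    rw [e6 (nonneg_of_mul_nonneg_right (e4 ▸ a1) (by omega))] at a2
    omega
  · by_contra hn
    have a0 : M * (l ⬝ᵥ act R.w y - l ⬝ᵥ y) < 0 := mul_neg_of_pos_of_neg M0 (by omega)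
    have a1 : 0 ≤ (z a - z b) * (M * (l ⬝ᵥ act R.w y - l ⬝ᵥ y)) :=
      mul_nonneg_of_nonpos_of_nonpos (by omega) a0.le
    have a2 := act_dot R.w z y
    rw [e6 (nonneg_of_mul_nonneg_right (e4 ▸ a1) (by omega))] at a2
    rw [← e2, dotProduct_sub, a2] at a0
    omega

end ZipFG
end

-- merged part: Pool.Agent.Work.MP_5c492e_ag.Sigma
section
/-! Semi-invariant functions on a good pair; the algebra of bi-invariant functions. -/

namespace ZipFG

open Function Set Matrix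

variable {k : Type} [Field k] [IsAlgClosed k] [LF k] {n : Type} [Fintype n] [DecidableEq n]
  {G T : Subgroup (GL n k)}

theorem normal_group {Γ : Type} [Group Γ] [Reg k Γ] [RegMul Γ] [RegInv Γ] [Aff Γ]
    (hΓ : Irr (univ : Set Γ)) : IsIntegrallyClosed (Oo Γ) := by
  haveI := hΓ.isDomain
  refine isIntegrallyClosed_of_homogeneous (k := k) (ringChar k) fun I hI h => ?_
  obtain ⟨F, hF, h0⟩ := Submodule.exists_mem_ne_zero_of_ne_bot hI
  obtain ⟨x0, hx0⟩ : ∃ x0, F.1 x0 ≠ 0 := by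
    by_contra hn
    push Not at hn
    exact h0 (O_ext hn)
  refine eq_top_of_no_zero I fun x => ⟨_, h (AlgEquiv.ofAlgHom (rightAct Γ (x⁻¹ * x0))
    (rightAct Γ (x⁻¹ * x0)⁻¹) (AlgHom.ext fun F => O_ext fun _ => by simp [mul_assoc])
    (AlgHom.ext fun F => O_ext fun _ => by simp [mul_assoc])) F hF, ?_⟩
  simpa using hx0

/-- The semi-invariant function of weight `l`. -/
def IsS (G T : Subgroup (GL n k)) (y l : n → ℤ) (F : GL n k → k) : Prop :=
  IsReg F ∧ ∀ u ∈ G ⊓ Uu y, ∀ t ∈ T, ∀ v ∈ G ⊓ Uu (-y), F (u * t * v) = (eps l t)⁻¹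

theorem IsS.left (hG : Good G T) {y l : n → ℤ} (hy : Gen T y) {F : GL n k → k}
    (hF : IsS G T y l F) {b g : GL n k} (hb : b ∈ G ⊓ Pn y) (hg : g ∈ G) :
    F (b * g) = (eps l (lev y b))⁻¹ * F g := by
  have ht := hG.lev_mem hy hb
  refine eq_of_zcl (F := fun g => F (b * g)) (G := fun g => (eps l (lev y b))⁻¹ * F g)
    (hF.1.comp (by fun_prop)) ((isReg_const _).fmul hF.1) ?_ (hG.dense hy hg)
  rintro _ ⟨u, hu, t, ht', v, hv, rfl⟩
  have h1 : b * u * b⁻¹ * (b * (lev y b)⁻¹) ∈ G ⊓ Uu y := mul_mem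
    ⟨G.mul_mem (G.mul_mem hb.1 hu.1) (G.inv_mem hb.1), conj_mem_Uu hb.2 hu.2⟩
    ⟨G.mul_mem hb.1 (G.inv_mem (hG.le ht)), mul_lev_inv_mem hb.2⟩
  have := hF.2 _ h1 _ (T.mul_mem ht ht') v hv
  rw [eps_mul l (hG.tor.le ht), mul_inv, ← hF.2 u hu t ht' v hv] at this
  simpa [mul_assoc] using this

theorem IsS.right (hG : Good G T) {y l : n → ℤ} (hy : Gen T y) {F : GL n k → k}
    (hF : IsS G T y l F) {b g : GL n k} (hb : b ∈ G ⊓ Pn (-y)) (hg : g ∈ G) :
    F (g * b) = (eps l (lev (-y) b))⁻¹ * F g := by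
  have ht := hG.lev_mem hy.neg hb
  refine eq_of_zcl (F := fun g => F (g * b)) (G := fun g => (eps l (lev (-y) b))⁻¹ * F g)
    (hF.1.comp (by fun_prop)) ((isReg_const _).fmul hF.1) ?_ (hG.dense hy hg)
  rintro _ ⟨u, hu, t, ht', v, hv, rfl⟩
  have h1 : (lev (-y) b)⁻¹ * b * (b⁻¹ * v * b⁻¹⁻¹) ∈ G ⊓ Uu (-y) := mul_mem
    ⟨G.mul_mem (G.inv_mem (hG.le ht)) hb.1, lev_inv_mul_mem hb.2⟩
    ⟨G.mul_mem (G.mul_mem (G.inv_mem hb.1) hv.1) (G.inv_mem (G.inv_mem hb.1)),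
      conj_mem_Uu ((Pn (-y)).inv_mem hb.2) hv.2⟩
  have := hF.2 u hu _ (T.mul_mem ht' ht) _ h1
  rw [eps_mul l (hG.tor.le ht'), mul_inv, ← hF.2 u hu t ht' v hv, mul_comm (F _)] at this
  simpa [mul_assoc] using this

lemma SigmaAux.Dl_cell {y : n → ℤ} {u t v : GL n k} (hu : u ∈ Uu y) (ht : t ∈ Dn)
    (hv : v ∈ Uu (-y)) : Dl y (u * t * v) ≠ 0 := by
  rw [Dl_mul_Uu hv, Dl_Uu_mul hu]
  exact Dl_ne_zero (Dn_le_Pn y ht)

theorem Good.exists_s (hG : Good G T) {y l z : n → ℤ} (hy : Gen T y) {M : ℕ} (hM : 0 < M)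
    (hz : z ∈ Yl T) (hd : ∀ z' ∈ Yl T, z ⬝ᵥ z' = M * (l ⬝ᵥ z')) (h1 : G ⊓ Uu y ≤ Pn z)
    (h2 : G ⊓ Uu (-y) ≤ Pn (-z)) : ∃ F, IsS G T y l F ∧ ∀ g ∈ G, F g ^ M = Dl z g := by
  haveI := hG.cl.affSub
  haveI := hG.irr.subgroup.isDomain
  haveI := normal_group hG.irr.subgroup
  have hδ : IsReg fun g : G => Dl y g.1 := by fun_prop
  have hD : IsReg fun g : G => Dl z g.1 := by fun_prop
  have key : ∀ u ∈ G ⊓ Uu y, ∀ t ∈ T, ∀ v ∈ G ⊓ Uu (-y),
      lev (-y) ((uu y (u * t * v))⁻¹ * (u * t * v)) = t := fun u hu t ht v hv => by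
    have a1 := Dn_le_Pn (-y) (hG.tor.le ht)
    have a2 := Uu_le_Pn (-y) hv.2
    rw [mul_assoc u, uu_eq hu.2 (mul_mem a1 a2), inv_mul_cancel_left, lev_mul a1 a2, lev_Uu hv.2,
      mul_one, lev_of_Zn (Dn_le_Zn _ (hG.tor.le ht))]
  have hf : IsReg fun p : Loc (fun g : G => Dl y g.1) =>
      eps (-l) (lev (-y) ((uu y p.1.1.1)⁻¹ * p.1.1.1)) := by
    have r1 : IsReg fun p : Loc (fun g : G => Dl y g.1) => p.1.1.1 := by fun_prop
    refine IsReg.eps _ (IsReg.lev ((r1.uu (e := fun p => p.1.2) (by fun_prop) fun p => p.2).inv.mul r1)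
      fun p => uu_inv_mul_mem p.ne) fun p => ?_
    obtain ⟨u, hu, t, ht, v, hv, e⟩ := hG.cell hy p.1.1.2 p.ne
    rw [e, key u hu t ht v hv]
    exact hG.tor.le ht
  obtain ⟨N, F0, r0, e0⟩ := hδ.exists_loc hf
  have e1 : ∀ g : G, ∀ u ∈ G ⊓ Uu y, ∀ t ∈ T, ∀ v ∈ G ⊓ Uu (-y), g.1 = u * t * v →
      F0 g = Dl y g.1 ^ N * (eps l t)⁻¹ := fun g u hu t ht v hv e => by
    have := e0 (Loc.mk' g (by rw [e]; exact SigmaAux.Dl_cell hu.2 (hG.tor.le ht) hv.2))
    change eps (-l) (lev (-y) ((uu y g.1)⁻¹ * g.1)) * Dl y g.1 ^ N = F0 g at this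
    rw [← this, mul_comm, eps_neg]
    congr 3
    rw [e, key u hu t ht v hv]
  have δ0 : hδ.toO ≠ 0 := fun h => by
    have := congrArg (fun F : Oo G => F.1 1) h
    simp [Dl_one] at this
  have e2 : r0.toO ^ M = (hδ.toO ^ N) ^ M * hD.toO := by
    refine mul_left_cancel₀ δ0 (O_ext fun g => ?_)
    change Dl y g.1 * F0 g ^ M = Dl y g.1 * ((Dl y g.1 ^ N) ^ M * Dl z g.1)
    by_cases h : Dl y g.1 = 0
    · rw [h, zero_mul, zero_mul]
    obtain ⟨u, hu, t, ht, v, hv, e⟩ := hG.cell hy g.2 h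
    have a1 : Dl z g.1 = (eps l t)⁻¹ ^ M := by
      rw [e, Dl_mul_right _ (h2 hv), Dl_mul_left (h1 hu), Dl_un (h1 hu) (Uu_un hu.2),
        Dl_un' (h2 hv) (Uu_un hv.2), Dl_Dn z (hG.tor.le ht), eps_neg, one_mul, mul_one, inv_pow,
        ← eps_nsmul, hG.tor.eps_eq (b := M • l) (fun z' hz' => by
          rw [hd z' hz', smul_dotProduct, nsmul_eq_mul]) t ht]
    rw [e1 g u hu t ht v hv e, a1, mul_pow]
  obtain ⟨F1, e3⟩ := (IsIntegrallyClosed.pow_dvd_pow_iff hM.ne').1 ⟨_, e2⟩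
  rw [e3, mul_pow] at e2
  have e4 := mul_left_cancel₀ (pow_ne_zero _ (pow_ne_zero _ δ0)) e2
  obtain ⟨F, rF, eF⟩ := (isReg_coe F1).exists_ext
  refine ⟨F, ⟨rF, fun u hu t ht v hv => ?_⟩, fun g hg => ?_⟩
  · have hg : u * t * v ∈ G := G.mul_mem (G.mul_mem hu.1 (hG.le ht)) hv.1
    have a1 := congrArg (fun F : Oo G => F.1 ⟨_, hg⟩) e3
    change F0 _ = Dl y (u * t * v) ^ N * F1.1 _ at a1
    rw [e1 ⟨_, hg⟩ u hu t ht v hv rfl] at a1
    exact (eF ⟨_, hg⟩).trans (mul_left_cancel₀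
      (pow_ne_zero _ (SigmaAux.Dl_cell hu.2 (hG.tor.le ht) hv.2)) a1).symm
  · rw [eF ⟨g, hg⟩]
    exact congrArg (fun F : Oo G => F.1 ⟨g, hg⟩) e4

theorem Good.exists_sigma (hG : Good G T) {y : n → ℤ} (hy : Gen T y) {ι : Type} [Fintype ι]
    (C : Chart T (G ⊓ Uu y) ι) :
    ∃ σ, IsS G T y (∑ i, C.wt i) σ ∧ ∀ g ∈ G, (σ g ≠ 0 ↔ Dl y g ≠ 0) := by
  obtain ⟨M, hM, z, hz, hd⟩ := exists_proj (Yl T) (∑ i, C.wt i)
  obtain ⟨⟨s1, s2⟩, s3⟩ := hG.chamber hy hz fun y0 a b h => by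
    obtain ⟨R⟩ := hG.exists_rk1 hy.1 h
    refine (hG.dual_le hy.1 h R hM hz hd).2 ?_
    have e : (∑ i, C.wt i) ⬝ᵥ act R.w y = (∑ i, C.wt i) ⬝ᵥ y + -(R.α ⬝ᵥ y) * 2 :=
      zpow_inj_units (k := k) fun s => by
        have := hG.rho_refl h R C _ (hy.1 s)
        rw [Nm_conj_nu hG.tor.le R.w_mem.1.2 hy.1, eps_nu, eps_nu, eps_nu] at this
        rw [this, zpow_add₀ s.ne_zero, _root_.zpow_mul, _root_.zpow_neg, zpow_ofNat]
    have := R.pos
    omega
  obtain ⟨σ, hσ, e⟩ := hG.exists_s hy hM hz hd (s1.le.trans (inf_le_right.trans (Uu_le_Pn z)))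
    (s2.le.trans (inf_le_right.trans (Uu_le_Pn (-z))))
  refine ⟨σ, hσ, fun g hg => ⟨fun h => ?_, fun h => ?_⟩⟩
  · obtain ⟨u, hu, t, ht, v, hv, rfl⟩ := exists_cell_decomp hG.cl hG.irr (hG.nu_conj hz) hg
      (by rw [← e g hg]; exact pow_ne_zero _ h)
    rw [← s1] at hu
    rw [← s2] at hv
    rw [s3] at ht
    exact SigmaAux.Dl_cell hu.2 (hG.tor.le ht) hv.2
  · obtain ⟨u, hu, t, ht, v, hv, rfl⟩ := hG.cell hy hg h
    rw [hσ.2 u hu t ht v hv]
    exact inv_ne_zero (eps_ne_zero _ (hG.tor.le ht))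

namespace SigmaAux

/-- The weight of a semi-invariant function is dominant. -/
lemma dominant (hG : Good G T) {y l y0 : n → ℤ} (hy : Gen T y) {F : GL n k → k}
    (hF : IsS G T y l F) {a b : n} (R : Rk1 G T y y0 a b) : l ⬝ᵥ act R.w y ≤ l ⬝ᵥ y := by
  by_contra hlt
  obtain ⟨a0, t1, ht1, rel⟩ := R.rel
  obtain ⟨e, he⟩ := Int.eq_ofNat_of_zero_le R.pos.le
  obtain ⟨d, hd⟩ := Int.eq_ofNat_of_zero_le (show 0 ≤ l ⬝ᵥ act R.w y - l ⬝ᵥ y by omega)
  have xr := R.x_reg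
  have key := IsReg.eq_of_units (F := fun s : k => F (R.w * R.x (s ^ e)) * s ^ d)
    (G := fun _ => (eps l t1)⁻¹) ((hF.1.comp (by fun_prop)).fmul (by fun_prop)) (isReg_const _)
    (fun s => by
      obtain ⟨v, hv, h⟩ := rel _ (hy.1 s)
      have hw := act_mem hG.tor.le R.w_mem.1.2 hy.1
      rw [Nm_conj_nu hG.tor.le R.w_mem.1.2 hy.1, eps_nu, he, zpow_natCast, ← nu_neg] at h
      have h1 := T.mul_mem (hw s) ht1
      have s0 := s.ne_zero
      have t0 := eps_ne_zero l (hG.tor.le ht1)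
      rw [h, hF.2 _ (R.x_mem _).1 _ (T.mul_mem h1 (hy.neg.1 s)) v hv, eps_mul l (hG.tor.le h1),
        eps_mul l (nu_mem_Dn _ s), eps_nu, eps_nu, ← zpow_natCast, ← hd, dotProduct_neg,
        zpow_sub₀ s0, _root_.zpow_neg]
      field_simp) 0
  rw [zero_pow (show d ≠ 0 by omega), mul_zero] at key
  exact inv_ne_zero (eps_ne_zero l (hG.tor.le ht1)) key.symm

lemma exists_of_dominant (hG : Good G T) {y l : n → ℤ} (hy : Gen T y)
    (h : ∀ y0 a b, Simple G T y y0 a b → ∀ R : Rk1 G T y y0 a b, l ⬝ᵥ act R.w y ≤ l ⬝ᵥ y) :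
    ∃ F, IsS G T y l F := by
  obtain ⟨M, hM, z, hz, hd⟩ := exists_proj (Yl T) l
  obtain ⟨h1, h2⟩ := hG.chamber_closed hy hz fun y0 a b hs => by
    obtain ⟨R⟩ := hG.exists_rk1 hy.1 hs
    exact (hG.dual_le hy.1 hs R hM hz hd).1 (h y0 a b hs R)
  exact (hG.exists_s hy hM hz hd h1 h2).imp fun _ h => h.1

/-- Left translation by the torus. -/
def lT (h : T ≤ G) : T →* Module.End k (Oo G) where
  toFun t := (pull (fun x => (Subgroup.inclusion h t)⁻¹ * x) (by fun_prop)).toLinearMap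
  map_one' := LinearMap.ext fun F => O_ext fun x => by simp
  map_mul' s t := LinearMap.ext fun F => O_ext fun x => by
    change F.1 ((Subgroup.inclusion h (s * t))⁻¹ * x) =
      F.1 ((Subgroup.inclusion h t)⁻¹ * ((Subgroup.inclusion h s)⁻¹ * x))
    simp [mul_assoc]

omit [IsAlgClosed k] in
lemma lT_apply (h : T ≤ G) (t : T) (F : Oo G) (x : G) :
    (lT h t F).1 x = F.1 ((Subgroup.inclusion h t)⁻¹ * x) := rfl

/-- The additive form attached to a permutation. -/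
def form (y : n → ℤ) (σ : Equiv.Perm n) : (n → ℤ) →+ ℤ where
  toFun l := l ⬝ᵥ y - l ⬝ᵥ fun i => y (σ i)
  map_zero' := by simp
  map_add' a b := by rw [add_dotProduct, add_dotProduct]; ring

lemma spherical_neg (hG : Good G T) {y : n → ℤ} (hy : Gen T y) :
    (relInv G {p | p.1 ∈ G ⊓ Uu y ∧ p.2 ∈ G ⊓ Uu (-y)}).FG := by
  classical
  obtain ⟨s, hs, hcl⟩ := gordan (F := {φ | ∃ y0 a b, Simple G T y y0 a b ∧
    ∃ R : Rk1 G T y y0 a b, φ = form y (pm R.w)}) ((finite_range (form y)).subset (by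
      rintro _ ⟨y0, a, b, -, R, rfl⟩; exact ⟨_, rfl⟩))
  have hex : ∀ l ∈ s, ∃ F : Oo G, ∃ F', IsS G T y l F' ∧ ∀ x : G, F.1 x = F' x := fun l hl => by
    obtain ⟨F, hF⟩ := exists_of_dominant hG hy (l := l) fun y0 a b h R =>
      sub_nonneg.1 ((hcl l).2 (AddSubmonoid.subset_closure hl) _ ⟨y0, a, b, h, R, rfl⟩)
    exact ⟨(hF.1.comp isReg_val).toO, F, hF, fun _ => rfl⟩
  choose! Φ hΦ using hex
  have hB : ∀ l ∈ AddSubmonoid.closure s, ∃ F ∈ Algebra.adjoin k (Φ '' s),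
      ∃ F', IsS G T y l F' ∧ ∀ x : G, F.1 x = F' x := fun l hl => by
    induction hl using AddSubmonoid.closure_induction with
    | mem l hl => exact ⟨_, Algebra.subset_adjoin ⟨l, hl, rfl⟩, hΦ l hl⟩
    | zero => exact ⟨1, one_mem _, fun _ => 1, ⟨isReg_const _, fun _ _ _ _ _ _ => by
        rw [eps_zero, inv_one]⟩, fun _ => rfl⟩
    | add a b _ _ ha hb =>
      obtain ⟨F1, m1, F1', s1, e1⟩ := ha
      obtain ⟨F2, m2, F2', s2, e2⟩ := hb
      refine ⟨F1 * F2, mul_mem m1 m2, fun g => F1' g * F2' g, ⟨s1.1.fmul s2.1,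
        fun u hu t ht v hv => ?_⟩, fun x => congrArg₂ (· * ·) (e1 x) (e2 x)⟩
      beta_reduce
      rw [s1.2 u hu t ht v hv, s2.2 u hu t ht v hv, eps_add a b (hG.tor.le ht), mul_inv]
  refine Subalgebra.fg_def.2 ⟨Φ '' s, hs.image _, le_antisymm (Algebra.adjoin_le ?_) ?_⟩
  · rintro _ ⟨l, hl, rfl⟩ p hp x x' e
    obtain ⟨F, hF, eF⟩ := hΦ l hl
    have h2 := (G ⊓ Uu (-y)).inv_mem hp.2
    rw [eF, eF, e, hF.right hG hy ⟨h2.1, Uu_le_Pn _ h2.2⟩ (G.mul_mem hp.1.1 x.2),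
      hF.left hG hy ⟨hp.1.1, Uu_le_Pn _ hp.1.2⟩ x.2, lev_Uu h2.2, lev_Uu hp.1.2, eps_one]
    simp
  intro F hF
  have hι : IsReg (Subgroup.inclusion hG.le) := isReg_of_val isReg_val
  have h1 := mem_iSup_eps hG.tor.le (c := lT hG.le) (w := F)
    (IsReg.curryO (F := fun p : T × G => F.1 ((Subgroup.inclusion hG.le p.1)⁻¹ * p.2))
      ((isReg_coe F).comp ((IsReg.inv (hι.comp isReg_fst)).mul isReg_snd)) fun _ _ => rfl)
  rw [← iSup_range (g := fun χ => Wt (fun t => lT hG.le t) χ)] at h1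
  have h2 := le_iSup_wt_inf
    (V := (relInv G {p | p.1 ∈ G ⊓ Uu y ∧ p.2 ∈ G ⊓ Uu (-y)}).toSubmodule) (fun t F hF => by
      intro p hp x x' e
      refine hF (t.1⁻¹ * p.1 * t.1⁻¹⁻¹, p.2) ⟨⟨G.mul_mem (G.mul_mem (G.inv_mem (hG.le t.2)) hp.1.1)
        (G.inv_mem (G.inv_mem (hG.le t.2))),
        conj_mem_Uu (Dn_le_Pn y (hG.tor.le (T.inv_mem t.2))) hp.1.2⟩, hp.2⟩ _ _ ?_
      simp [e, mul_assoc]) hF h1
  refine (show _ ≤ (Algebra.adjoin k (Φ '' s)).toSubmodule from iSup₂_le ?_) h2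
  rintro _ ⟨l, rfl⟩ F ⟨hw, hF⟩
  have cell : ∀ x : G, ∀ u ∈ G ⊓ Uu y, ∀ t ∈ T, ∀ v ∈ G ⊓ Uu (-y), x.1 = u * t * v →
      F.1 x = F.1 1 * (eps l t)⁻¹ := fun x u hu t ht v hv e => by
    have a1 := hF (u, v⁻¹) ⟨hu, inv_mem hv⟩ ⟨t, hG.le ht⟩ x (by simpa using e)
    have a2 := congrArg (fun F : Oo G => F.1 ⟨t, hG.le ht⟩) (hw ⟨t, ht⟩)
    simp only [lT_apply] at a2
    rw [show (Subgroup.inclusion hG.le ⟨t, ht⟩)⁻¹ * ⟨t, hG.le ht⟩ = 1 from inv_mul_cancel _] at a2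
    change F.1 1 = eps l t * F.1 _ at a2
    rw [a1, a2, mul_comm (eps l t), mul_inv_cancel_right₀ (eps_ne_zero l (hG.tor.le ht))]
  obtain ⟨F', rF, eF⟩ := (isReg_coe F).exists_ext
  have uniq : ∀ F1, IsReg F1 → (∀ u ∈ G ⊓ Uu y, ∀ t ∈ T, ∀ v ∈ G ⊓ Uu (-y),
      F1 (u * t * v) = F.1 1 * (eps l t)⁻¹) → ∀ x : G, F.1 x = F1 x := fun F1 r1 e1 x => by
    rw [← eF]
    refine eq_of_zcl rF r1 ?_ (hG.dense hy x.2)
    rintro _ ⟨u, hu, t, ht, v, hv, rfl⟩
    have hg : u * t * v ∈ G := G.mul_mem (G.mul_mem hu.1 (hG.le ht)) hv.1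
    rw [e1 u hu t ht v hv, eF ⟨_, hg⟩, cell ⟨_, hg⟩ u hu t ht v hv rfl]
  by_cases h0 : F.1 1 = 0
  · rw [show F = 0 from O_ext (uniq (fun _ => 0) (isReg_const _) fun _ _ _ _ _ _ => by
      rw [h0, zero_mul])]
    exact zero_mem _
  have hS : IsS G T y l fun g => (F.1 1)⁻¹ * F' g := ⟨(isReg_const _).fmul rF,
    fun u hu t ht v hv => by
      have hg : u * t * v ∈ G := G.mul_mem (G.mul_mem hu.1 (hG.le ht)) hv.1
      beta_reduce
      rw [eF ⟨_, hg⟩, cell ⟨_, hg⟩ u hu t ht v hv rfl, inv_mul_cancel_left₀ h0]⟩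
  obtain ⟨F1, m1, F1', s1, e1⟩ := hB l ((hcl l).1 (by
    rintro _ ⟨y0, a, b, -, R, rfl⟩
    exact sub_nonneg.2 (dominant hG hy hS R)))
  rw [show F = F.1 1 • F1 from O_ext fun x => by
    rw [uniq (fun g => F.1 1 * F1' g) ((isReg_const _).fmul s1.1)
      (fun u hu t ht v hv => by rw [s1.2 u hu t ht v hv]) x, ← e1]
    rfl]
  exact Submodule.smul_mem _ _ m1

omit [IsAlgClosed k] in
lemma rightAct_mem {H K K' : Subgroup (GL n k)} (w : G) (h : ∀ v ∈ K', w.1⁻¹ * v * w.1 ∈ K)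
    {F : Oo G} (hF : F ∈ relInv G {p | p.1 ∈ H ∧ p.2 ∈ K}) :
    rightAct G w F ∈ relInv G {p | p.1 ∈ H ∧ p.2 ∈ K'} := fun p hp x x' e =>
  hF (p.1, w.1⁻¹ * p.2 * w.1) ⟨hp.1, h _ hp.2⟩ (x * w) (x' * w) (by simp [e, mul_assoc])

end SigmaAux

/-- The algebra of functions invariant under two maximal unipotent subgroups is finitely
generated. -/
theorem Good.spherical (hG : Good G T) {y y' : n → ℤ} (hy : Gen T y) (hy' : Gen T y') :
    (relInv G {p | p.1 ∈ G ⊓ Uu y ∧ p.2 ∈ G ⊓ Uu y'}).FG := by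
  obtain ⟨w, hw, h, -⟩ := hG.trans hy.neg hy'
  have e : ∀ x, w * x * w⁻¹ ∈ G ⊓ Uu y' ↔ x ∈ G ⊓ Uu (-y) := fun x => by
    rw [← h]; exact hG.conj_inf_Uu hw hy.neg.1
  have := (SigmaAux.spherical_neg hG hy).map (rightAct G ⟨w, hw.1⟩)
  suffices h : relInv G {p | p.1 ∈ G ⊓ Uu y ∧ p.2 ∈ G ⊓ Uu y'} = _ by rwa [h]
  refine le_antisymm (fun F hF => ⟨rightAct G ⟨w, hw.1⟩⁻¹ F, SigmaAux.rightAct_mem _
    (fun v hv => by simpa using (e v).2 hv) hF, O_ext fun x => by simp⟩) ?_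
  rintro _ ⟨F, hF, rfl⟩
  exact SigmaAux.rightAct_mem _ (fun v hv => (e _).1 (by simpa [mul_assoc] using hv)) hF

end ZipFG
end

-- merged part: Pool.Agent.Work.MP_5c492e_ag.StPoly
section
/-! Polynomial and linear algebra lemmas for the Steinberg module. -/

namespace ZipFG

open Function Set MvPolynomial

/-- The ideal generated by the `q`-th powers of the elements of an ideal. -/
def frobI {R : Type*} [CommRing R] (I : Ideal R) (q : ℕ) : Ideal R :=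
  Ideal.span {x | ∃ f ∈ I, x = f ^ q}

theorem frobI_map {R S : Type*} [CommRing R] [CommRing S] (φ : R →+* S) {I : Ideal R}
    {J : Ideal S} (h : ∀ f ∈ I, φ f ∈ J) (q : ℕ) {f : R} (hf : f ∈ frobI I q) :
    φ f ∈ frobI J q := by
  have : frobI I q ≤ (frobI J q).comap φ := by
    refine Ideal.span_le.2 ?_
    rintro _ ⟨g, hg, rfl⟩
    exact Ideal.subset_span ⟨φ g, h g hg, map_pow φ g q⟩
  exact this hf

theorem frobI_of_mul_mem {R : Type*} [CommRing R] [IsNoetherianRing R] {I : Ideal R} (q : ℕ)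
    {h u f : R} (hu : IsUnit u) (hh : h - u ∈ I) (hf : h * f ∈ frobI I q) : f ∈ frobI I q := by
  have h0 : IsNilpotent (Ideal.Quotient.mk (frobI I q) (h - u)) :=
    ⟨q, by
      rw [← map_pow, Ideal.Quotient.eq_zero_iff_mem]
      exact Ideal.subset_span ⟨_, hh, rfl⟩⟩
  have h1 := h0.isUnit_add_left_of_commute (hu.map (Ideal.Quotient.mk (frobI I q))) (.all _ _)
  rw [← map_add, add_sub_cancel] at h1
  rw [← Ideal.Quotient.eq_zero_iff_mem] at hf ⊢
  rw [map_mul] at hf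
  exact (h1.mul_right_eq_zero).1 hf

namespace StPolyAux

variable {k : Type} [Field k]

lemma zpow_inj [Infinite k] {a b : ℤ} (h : ∀ t : kˣ, (t : k) ^ a = (t : k) ^ b) : a = b := by
  wlog hab : a ≤ b generalizing a b
  · exact (this (fun t => (h t).symm) (by omega)).symm
  obtain ⟨m, rfl⟩ := Int.le.dest hab
  by_contra hm
  have hm0 : 0 < m := Nat.pos_of_ne_zero (by rintro rfl; simp at hm)
  have hfin := ((Polynomial.nthRootsFinset m (1 : k)).finite_toSet.insert 0)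
  refine Set.infinite_univ (hfin.subset fun x _ => ?_)
  by_cases hx : x = 0
  · exact Or.inl hx
  · refine Or.inr ?_
    have := h (Units.mk0 x hx)
    simp only [Units.val_mk0] at this
    rw [zpow_add₀ hx, zpow_natCast] at this
    have h2 : x ^ m = 1 := by
      have h3 : x ^ a ≠ 0 := zpow_ne_zero _ hx
      exact (mul_eq_left₀ h3).1 this.symm
    simpa [Polynomial.mem_nthRootsFinset hm0] using h2

/-- Two elements of a power of an ideal which agree to the next order. -/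
def Rel {R : Type} [CommRing R] (I : Ideal R) (n : ℕ) (a b : R) : Prop :=
  b ∈ I ^ n ∧ a - b ∈ I ^ (n + 1)

lemma Rel.one {R : Type} [CommRing R] (I : Ideal R) : Rel I 0 1 1 := by simp [Rel]

lemma Rel.mul {R : Type} [CommRing R] {I : Ideal R} {n m : ℕ} {a b c d : R}
    (h : Rel I n a b) (h' : Rel I m c d) : Rel I (n + m) (a * c) (b * d) := by
  refine ⟨by rw [pow_add]; exact Ideal.mul_mem_mul h.1 h'.1, ?_⟩
  have hc : c ∈ I ^ m := by
    have := (I ^ m).add_mem (Ideal.pow_le_pow_right (Nat.le_succ m) h'.2) h'.1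
    simpa using this
  have e : a * c - b * d = (a - b) * c + b * (c - d) := by ring
  rw [e]
  refine Ideal.add_mem _ ?_ ?_
  · rw [show n + m + 1 = (n + 1) + m by ring, pow_add]
    exact Ideal.mul_mem_mul h.2 hc
  · rw [add_assoc, pow_add]
    exact Ideal.mul_mem_mul h.1 h'.2

lemma Rel.pow {R : Type} [CommRing R] {I : Ideal R} {a b : R} (h : Rel I 1 a b) (n : ℕ) :
    Rel I n (a ^ n) (b ^ n) := by
  induction n with
  | zero => simpa using Rel.one I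
  | succ n ih => rw [pow_succ, pow_succ]; exact ih.mul h

lemma Rel.prod {R ι : Type} [CommRing R] {I : Ideal R} {a b : ι → R} {n : ℕ} (s : Finset ι)
    (h : ∀ i, Rel I n (a i) (b i)) : Rel I (s.card * n) (∏ i ∈ s, a i) (∏ i ∈ s, b i) := by
  classical
  induction s using Finset.induction_on with
  | empty => simpa using Rel.one I
  | insert i s hi ih =>
    rw [Finset.prod_insert hi, Finset.prod_insert hi, Finset.card_insert_of_notMem hi,
      show (s.card + 1) * n = n + s.card * n by ring]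
    exact (h i).mul ih

lemma X_mem {σ : Type} (s : σ) : (X s : MvPolynomial σ k) ∈ idealOfVars σ k :=
  Ideal.subset_span ⟨s, rfl⟩

lemma sub_aeval_mem {σ : Type} (e : σ → MvPolynomial σ k) (he : ∀ s, e s ∈ idealOfVars σ k)
    (F : MvPolynomial σ k) : F - aeval e F ∈ idealOfVars σ k := by
  induction F using MvPolynomial.induction_on with
  | C a => simp
  | add F G hF hG =>
    have := Ideal.add_mem _ hF hG
    rw [map_add]
    convert this using 1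
    ring
  | mul_X F s _ =>
    rw [map_mul, aeval_X]
    exact Ideal.sub_mem _ (Ideal.mul_mem_left _ _ (X_mem s)) (Ideal.mul_mem_left _ _ (he s))

lemma second_order {ι : Type} (F : MvPolynomial (ι ⊕ ι) k) :
    F - aeval (Sum.elim (fun i => X (Sum.inl i)) 0 : ι ⊕ ι → MvPolynomial (ι ⊕ ι) k) F
      - aeval (Sum.elim 0 (fun i => X (Sum.inr i)) : ι ⊕ ι → MvPolynomial (ι ⊕ ι) k) F
      + C (eval 0 F) ∈ idealOfVars (ι ⊕ ι) k ^ 2 := by
  induction F using MvPolynomial.induction_on with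
  | C a => simp
  | add F G hF hG =>
    have := Ideal.add_mem _ hF hG
    simp only [map_add]
    convert this using 1
    ring
  | mul_X F s _ =>
    simp only [map_mul, aeval_X, eval_X, Pi.zero_apply, mul_zero, map_zero, add_zero]
    rw [pow_two]
    cases s with
    | inl i =>
      simp only [Sum.elim_inl, Pi.zero_apply, mul_zero, sub_zero]
      rw [← sub_mul]
      refine Ideal.mul_mem_mul (sub_aeval_mem _ ?_ F) (X_mem _)
      rintro (j | j)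
      · exact X_mem _
      · simp
    | inr i =>
      simp only [Sum.elim_inr, Pi.zero_apply, mul_zero, sub_zero]
      rw [← sub_mul]
      refine Ideal.mul_mem_mul (sub_aeval_mem _ ?_ F) (X_mem _)
      rintro (j | j)
      · simp
      · exact X_mem _

lemma choose_ne_zero (p : ℕ) [Fact p.Prime] [CharP k p] (r : ℕ) (j : ℕ) (hj : j < p ^ r) :
    (((p ^ r - 1).choose j : ℕ) : k) ≠ 0 := by
  induction j with
  | zero => simp
  | succ j ih =>
    have h1 : (p ^ r - 1).choose j + (p ^ r - 1).choose (j + 1) = (p ^ r).choose (j + 1) := by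
      rw [← Nat.choose_succ_succ']
      congr 1
      omega
    have h2 : (((p ^ r).choose (j + 1) : ℕ) : k) = 0 :=
      (CharP.cast_eq_zero_iff k p _).2
        ((Fact.out : p.Prime).dvd_choose_pow (by omega) (by omega))
    rw [← h1, Nat.cast_add] at h2
    intro h3
    rw [h3, add_zero] at h2
    exact ih (by omega) h2

/-- An exponent vector as a finitely supported function. -/
noncomputable def fs {ι : Type} [Fintype ι] (f : ι → ℕ) : ι →₀ ℕ :=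
  Finsupp.equivFunOnFinite.symm f

@[simp] lemma fs_apply {ι : Type} [Fintype ι] (f : ι → ℕ) (i : ι) : fs f i = f i := rfl

lemma prod_X_fs {ι : Type} [Fintype ι] (f : ι → ℕ) :
    (∏ i, X i ^ f i : MvPolynomial ι k) = monomial (fs f) 1 := by
  rw [monomial_eq, Finsupp.prod_fintype _ _ (by simp)]
  simp

lemma eval_aeval' {σ τ : Type} (c : τ → k) (g : σ → MvPolynomial τ k) (P : MvPolynomial σ k) :
    eval c (aeval g P) = eval (fun i => eval c (g i)) P := by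
  induction P using MvPolynomial.induction_on with
  | C a => simp
  | add F G hF hG => simp only [map_add, hF, hG]
  | mul_X F s hF => simp only [map_mul, hF, aeval_X, eval_X]

lemma lin_zero {σ : Type} (l : MvPolynomial σ k →ₗ[k] k) (F : MvPolynomial σ k)
    (h : ∀ m ∈ F.support, l (monomial m 1) = 0) : l F = 0 := by
  rw [F.as_sum, map_sum]
  refine Finset.sum_eq_zero fun m hm => ?_
  rw [← mul_one (coeff m F), ← smul_eq_mul, ← smul_monomial, map_smul, h m hm, smul_zero]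

lemma coeff_scale {ι : Type} [Fintype ι] (a : ι → k) (P : MvPolynomial ι k) (m : ι →₀ ℕ) :
    coeff m (aeval (fun i => C (a i) * X i : ι → MvPolynomial ι k) P) =
      (∏ i, a i ^ m i) * coeff m P := by
  classical
  induction P using MvPolynomial.induction_on' with
  | monomial u c =>
    have : aeval (fun i => C (a i) * X i : ι → MvPolynomial ι k) (monomial u c) =
        monomial u ((∏ i, a i ^ u i) * c) := by
      rw [aeval_monomial, monomial_eq, Finsupp.prod_fintype _ _ (by simp),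
        Finsupp.prod_fintype _ _ (by simp)]
      simp only [mul_pow, Finset.prod_mul_distrib, map_mul, map_prod, map_pow, algebraMap_eq]
      ring
    rw [this, coeff_monomial, coeff_monomial]
    split_ifs with h
    · rw [h]
    · simp
  | add P Q hP hQ => rw [map_add, coeff_add, coeff_add, hP, hQ, mul_add]

lemma exists_fin {V : Type} [AddCommGroup V] [Module k V] (s : Set V)
    [Module.Finite k (Submodule.span k s)] {n : ℕ}
    (hn : Module.finrank k (Submodule.span k s) = n) :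
    ∃ f : Fin n → V, (∀ i, f i ∈ s) ∧ Submodule.span k (range f) = Submodule.span k s ∧
      LinearIndependent k f := by
  subst hn
  exact Submodule.exists_fun_fin_finrank_span_eq k s

lemma eq_of_dual {A : Type} [AddCommGroup A] [Module k A] {a b : A}
    (h : ∀ η : A →ₗ[k] k, η a = η b) : a = b := by
  have : a - b ∈ (⊥ : Submodule k A) :=
    mem_of_forall_dual fun η _ => by rw [map_sub, h, sub_self]
  exact sub_eq_zero.1 this

end StPolyAux

open StPolyAux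

variable {k : Type} [Field k] (p : ℕ) [Fact p.Prime] [CharP k p] {ι : Type} [Fintype ι]

include p

theorem mem_frobI_vars (r : ℕ) (P : MvPolynomial ι k) :
    P ∈ frobI (idealOfVars ι k) (p ^ r) ↔ ∀ m ∈ P.support, ∃ i, p ^ r ≤ m i := by
  have e : frobI (idealOfVars ι k) (p ^ r) = Ideal.span
      ((fun s => monomial s (1 : k)) '' range fun i : ι => Finsupp.single i (p ^ r)) := by
    refine le_antisymm (Ideal.span_le.2 ?_) (Ideal.span_le.2 ?_)
    · rintro _ ⟨f, hf, rfl⟩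
      induction hf using Submodule.span_induction with
      | mem x hx =>
        obtain ⟨i, rfl⟩ := hx
        exact Ideal.subset_span ⟨_, ⟨i, rfl⟩, (X_pow_eq_monomial).symm⟩
      | zero =>
        rw [zero_pow (pow_pos (Fact.out : p.Prime).pos r).ne']
        exact Ideal.zero_mem _
      | add x y _ _ hx hy =>
        rw [add_pow_char_pow]
        exact Ideal.add_mem _ hx hy
      | smul a x _ hx =>
        rw [smul_eq_mul, mul_pow]
        exact Ideal.mul_mem_left _ _ hx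
    · rintro _ ⟨_, ⟨i, rfl⟩, rfl⟩
      exact Ideal.subset_span ⟨X i, X_mem i, (X_pow_eq_monomial).symm⟩
  rw [e, mem_ideal_span_monomial_image]
  simp

theorem frobI_of_pow_mem (r : ℕ) {P : MvPolynomial ι k}
    (h : P ^ p ∈ frobI (idealOfVars ι k) (p ^ (r + 1))) : P ∈ frobI (idealOfVars ι k) (p ^ r) := by
  rw [mem_frobI_vars] at h ⊢
  intro m hm
  have hp : 0 < p := (Fact.out : p.Prime).pos
  have h1 : p • m ∈ (P ^ p).support := by
    rw [mem_support_iff, ← map_frobenius_expand, coeff_map, coeff_expand_smul _ hp.ne',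
      frobenius_def]
    exact pow_ne_zero _ (mem_support_iff.1 hm)
  obtain ⟨i, hi⟩ := h _ h1
  refine ⟨i, ?_⟩
  rw [pow_succ', Finsupp.smul_apply, smul_eq_mul] at hi
  exact Nat.le_of_mul_le_mul_left hi hp

theorem finite_quot_frobI (r : ℕ) :
    Module.Finite k (MvPolynomial ι k ⧸ frobI (idealOfVars ι k) (p ^ r)) := by
  have : Algebra.IsIntegral k (MvPolynomial ι k ⧸ frobI (idealOfVars ι k) (p ^ r)) := by
    refine ⟨fun x => ?_⟩
    obtain ⟨F, rfl⟩ := Ideal.Quotient.mk_surjective x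
    induction F using MvPolynomial.induction_on with
    | C a => exact isIntegral_algebraMap (x := a)
    | add F G hF hG => rw [map_add]; exact hF.add hG
    | mul_X F i hF =>
      rw [map_mul]
      refine hF.mul (IsIntegral.of_pow (pow_pos (Fact.out : p.Prime).pos r) ?_)
      have h0 : (X i : MvPolynomial ι k) ^ p ^ r ∈ frobI (idealOfVars ι k) (p ^ r) :=
        Ideal.subset_span ⟨_, X_mem i, rfl⟩
      rw [← map_pow, Ideal.Quotient.eq_zero_iff_mem.2 h0]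
      exact isIntegral_zero
  exact Algebra.IsIntegral.finite

/-- A weighted homogeneous polynomial of top weight is a multiple of the top monomial modulo
the Frobenius power. -/
theorem exists_top [Infinite k] (r : ℕ) (d : ι → ℤ) (hd : ∀ i, 0 < d i) {P : MvPolynomial ι k}
    (h : ∀ (t : kˣ) (c : ι → k), eval (fun i => (t : k) ^ d i * c i) P =
      (t : k) ^ (((p ^ r - 1 : ℕ) : ℤ) * ∑ i, d i) * eval c P)
    (hP : P ∉ frobI (idealOfVars ι k) (p ^ r)) :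
    ∃ c : k, c ≠ 0 ∧ P - C c * ∏ i, X i ^ (p ^ r - 1) ∈ frobI (idealOfVars ι k) (p ^ r) := by
  classical
  have hw : ∀ m ∈ P.support, ∑ i, d i * m i = ((p ^ r - 1 : ℕ) : ℤ) * ∑ i, d i := by
    intro m hm
    refine zpow_inj (k := k) fun t => ?_
    have e : aeval (fun i => C ((t : k) ^ d i) * X i : ι → MvPolynomial ι k) P =
        C ((t : k) ^ (((p ^ r - 1 : ℕ) : ℤ) * ∑ i, d i)) * P := by
      refine MvPolynomial.funext fun c => ?_
      rw [map_mul, eval_C, ← h t c, eval_aeval']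
      simp
    have e2 := congrArg (coeff m) e
    rw [coeff_scale, coeff_C_mul] at e2
    rw [← mul_right_cancel₀ (mem_support_iff.1 hm) e2]
    have : ∀ s : Finset ι, (t : k) ^ (∑ i ∈ s, d i * m i) = ∏ i ∈ s, ((t : k) ^ d i) ^ m i := by
      intro s
      induction s using Finset.induction_on with
      | empty => simp
      | insert i s hi ih =>
        rw [Finset.sum_insert hi, Finset.prod_insert hi, zpow_add₀ t.ne_zero, ih, zpow_mul,
          zpow_natCast]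
    exact this _
  have key : ∀ m ∈ P.support, m ≠ fs (fun _ : ι => p ^ r - 1) → ∃ i, p ^ r ≤ m i := by
    intro m hm hne
    by_contra hcon
    push Not at hcon
    refine hne (Finsupp.ext fun i => ?_)
    have h0 : ∑ i, d i * (((p ^ r - 1 : ℕ) : ℤ) - m i) = 0 := by
      simp only [mul_sub, Finset.sum_sub_distrib, hw m hm, ← Finset.sum_mul]
      ring
    rw [Finset.sum_eq_zero_iff_of_nonneg fun j _ =>
      mul_nonneg (hd j).le (by have := hcon j; omega)] at h0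
    have h1 := (mul_eq_zero.1 (h0 i (Finset.mem_univ i))).resolve_left (hd i).ne'
    rw [fs_apply]
    omega
  refine ⟨coeff (fs (fun _ : ι => p ^ r - 1)) P, fun h0 => hP ?_, ?_⟩
  · rw [mem_frobI_vars]
    intro m hm
    refine key m hm ?_
    rintro rfl
    exact mem_support_iff.1 hm h0
  · rw [mem_frobI_vars]
    intro m hm
    rw [mem_support_iff, prod_X_fs, C_mul_monomial, mul_one, coeff_sub, coeff_monomial] at hm
    split_ifs at hm with h1
    · rw [h1, sub_self] at hm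
      exact absurd rfl hm
    · exact key m (mem_support_iff.2 (by simpa using hm)) (Ne.symm h1)

/-- The translates of a polynomial containing the top monomial span the truncated algebra. -/
theorem top_span [Infinite k] (r : ℕ) (μ : ι → MvPolynomial (ι ⊕ ι) k)
    (h1 : ∀ (v : ι → k) i, eval (Sum.elim v 0) (μ i) = v i)
    (h2 : ∀ (v : ι → k) i, eval (Sum.elim 0 v) (μ i) = v i) {P : MvPolynomial ι k} {c : k}
    (hc : c ≠ 0)
    (hP : P - C c * ∏ i, X i ^ (p ^ r - 1) ∈ frobI (idealOfVars ι k) (p ^ r))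
    (S : Submodule k (MvPolynomial ι k))
    (hS : ∀ v : ι → k, ∃ Q ∈ S, ∀ x : ι → k,
      eval x Q = eval (fun i => eval (Sum.elim v x) (μ i)) P) (Q : MvPolynomial ι k) :
    ∃ Q' ∈ S, Q - Q' ∈ frobI (idealOfVars ι k) (p ^ r) := by
  classical
  have hq0 : 0 < p ^ r := pow_pos (Fact.out : p.Prime).pos r
  suffices h : Q ∈ S ⊔ (frobI (idealOfVars ι k) (p ^ r)).restrictScalars k by
    obtain ⟨a, ha, b, hb, rfl⟩ := Submodule.mem_sup.1 h
    exact ⟨a, ha, by simpa using hb⟩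
  refine mem_of_forall_dual fun η hη => ?_
  have hηS : ∀ F ∈ S, η F = 0 := fun F hF => hη F (Submodule.mem_sup_left hF)
  have hηJ : ∀ F ∈ frobI (idealOfVars ι k) (p ^ r), η F = 0 :=
    fun F hF => hη F (Submodule.mem_sup_right hF)
  obtain ⟨e, hedef⟩ : ∃ e : (ι → ℕ) → k, ∀ γ, e γ = η (monomial (fs γ) 1) := ⟨_, fun _ => rfl⟩
  have he : ∀ γ, e γ ≠ 0 → ∀ i, γ i < p ^ r := by
    intro γ hγ i
    by_contra hi
    refine hγ ((hedef γ).trans (hηJ _ ((mem_frobI_vars p r _).2 fun m hm => ⟨i, ?_⟩)))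
    obtain rfl := Finset.mem_singleton.1 (support_monomial_subset hm)
    simpa using hi
  by_contra hne
  obtain ⟨β, hβ, hmax⟩ : ∃ β ∈ {γ | e γ ≠ 0}, ∀ γ ∈ {γ | e γ ≠ 0}, ∑ i, γ i ≤ ∑ i, β i := by
    refine Set.exists_max_image _ (fun γ : ι → ℕ => ∑ i, γ i) ?_ ?_
    · refine (Fintype.piFinset fun _ : ι => Finset.range (p ^ r)).finite_toSet.subset ?_
      intro γ hγ
      simpa using he γ hγ
    · by_contra h0
      refine hne (lin_zero η Q fun m _ => ?_)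
      by_contra h1
      refine h0 ⟨m, ?_⟩
      have : fs (m : ι → ℕ) = m := Finsupp.ext fun _ => rfl
      rwa [Set.mem_setOf_eq, hedef, this]
  have hβq := he β hβ
  obtain ⟨L, hL⟩ : ∃ L : MvPolynomial (ι ⊕ ι) k →ₗ[k] MvPolynomial ι k, ∀ m, L (monomial m 1) =
      monomial (fs fun i => m (Sum.inl i)) (e fun i => m (Sum.inr i)) :=
    ⟨(basisMonomials (ι ⊕ ι) k).constr k fun m =>
      monomial (fs fun i => m (Sum.inl i)) (e fun i => m (Sum.inr i)),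
      fun m => (basisMonomials (ι ⊕ ι) k).constr_basis k _ m⟩
  have hev : ∀ (v : ι → k) (F : MvPolynomial (ι ⊕ ι) k), eval v (L F) =
      η (aeval (Sum.elim (fun i => C (v i)) X : ι ⊕ ι → MvPolynomial ι k) F) := by
    intro v F
    have : (aeval v : MvPolynomial ι k →ₐ[k] k).toLinearMap ∘ₗ L = η ∘ₗ
        (aeval (Sum.elim (fun i => C (v i)) X : ι ⊕ ι → MvPolynomial ι k)).toLinearMap := by
      refine (basisMonomials (ι ⊕ ι) k).ext fun m => ?_
      simp only [coe_basisMonomials, LinearMap.comp_apply, AlgHom.toLinearMap_apply, hL]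
      rw [aeval_monomial, aeval_monomial, Finsupp.prod_fintype _ _ (by simp),
        Finsupp.prod_fintype _ _ (by simp), Fintype.prod_sum_type]
      simp only [Sum.elim_inl, Sum.elim_inr, map_one, one_mul, fs_apply, ← map_pow, ← map_prod]
      rw [prod_X_fs, ← smul_eq_C_mul, map_smul, hedef]
      simp [mul_comm]
    exact LinearMap.congr_fun this F
  have hΦ : L (aeval μ P) = 0 := by
    refine MvPolynomial.funext fun v => ?_
    obtain ⟨Q₀, hQ₀, hQ₁⟩ := hS v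
    rw [hev, map_zero]
    refine hηS _ ?_
    convert hQ₀ using 1
    refine MvPolynomial.funext fun x => ?_
    rw [hQ₁, eval_aeval', eval_aeval']
    congr 2
    funext i
    congr 2
    funext j
    cases j <;> simp
  obtain ⟨l, hl0, hl⟩ : ∃ l : MvPolynomial (ι ⊕ ι) k →ₗ[k] k, l (aeval μ P) = 0 ∧
      ∀ m, l (monomial m 1) = if (fun i => m (Sum.inl i)) = fun i => p ^ r - 1 - β i
        then e fun i => m (Sum.inr i) else 0 := by
    refine ⟨lcoeff k (fs fun i => p ^ r - 1 - β i) ∘ₗ L,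
      by rw [LinearMap.comp_apply, hΦ, map_zero], fun m => ?_⟩
    rw [LinearMap.comp_apply, hL, lcoeff_apply, coeff_monomial]
    exact if_congr Finsupp.equivFunOnFinite.symm.injective.eq_iff rfl rfl
  have hl' : ∀ m : ι ⊕ ι →₀ ℕ, l (monomial m 1) ≠ 0 →
      (∀ i, m (Sum.inl i) = p ^ r - 1 - β i) ∧ e (fun i => m (Sum.inr i)) ≠ 0 := by
    intro m hm
    rw [hl] at hm
    split_ifs at hm with h
    · exact ⟨congrFun h, hm⟩
    · exact absurd rfl hm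
  have hJ : ∀ F ∈ frobI (idealOfVars (ι ⊕ ι) k) (p ^ r), l F = 0 := by
    intro F hF
    refine lin_zero l F fun m hm => ?_
    by_contra h0
    obtain ⟨h3, h4⟩ := hl' m h0
    obtain ⟨i | i, hi⟩ := (mem_frobI_vars p r F).1 hF m hm
    · have := h3 i
      omega
    · have := he _ h4 i
      omega
  have hM : ∀ F ∈ idealOfVars (ι ⊕ ι) k ^ (Finset.univ (α := ι).card * (p ^ r - 1) + 1),
      l F = 0 := by
    intro F hF
    refine lin_zero l F fun m hm => ?_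
    by_contra h0
    obtain ⟨h3, h4⟩ := hl' m h0
    have h5 := (mem_pow_idealOfVars_iff _ F).1 hF m hm
    rw [Finsupp.degree_eq_sum, Fintype.sum_sum_type] at h5
    have h6 := hmax _ h4
    have h7 : ∑ i, m (Sum.inl i) + ∑ i, β i = Finset.univ (α := ι).card * (p ^ r - 1) := by
      rw [← Finset.sum_add_distrib, ← smul_eq_mul, ← Finset.sum_const]
      refine Finset.sum_congr rfl fun i _ => ?_
      have := h3 i
      have := hβq i
      omega
    omega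
  have hrel : ∀ i, Rel (idealOfVars (ι ⊕ ι) k) 1 (μ i) (X (Sum.inl i) + X (Sum.inr i)) := by
    intro i
    refine ⟨by rw [pow_one]; exact Ideal.add_mem _ (X_mem _) (X_mem _), ?_⟩
    have h3 := second_order (μ i)
    have h4 : aeval (Sum.elim (fun i => X (Sum.inl i)) 0 : ι ⊕ ι → MvPolynomial (ι ⊕ ι) k) (μ i)
        = X (Sum.inl i) := by
      refine MvPolynomial.funext fun w => ?_
      rw [eval_aeval', eval_X, ← h1 (fun j => w (Sum.inl j)) i]
      congr 2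
      funext j
      cases j <;> simp
    have h5 : aeval (Sum.elim 0 (fun i => X (Sum.inr i)) : ι ⊕ ι → MvPolynomial (ι ⊕ ι) k) (μ i)
        = X (Sum.inr i) := by
      refine MvPolynomial.funext fun w => ?_
      rw [eval_aeval', eval_X, ← h2 (fun j => w (Sum.inr j)) i]
      congr 2
      funext j
      cases j <;> simp
    have h6 : eval 0 (μ i) = 0 := by simpa using h1 0 i
    rw [h4, h5, h6, map_zero, add_zero, sub_sub] at h3
    exact h3
  have hμ : ∀ f ∈ idealOfVars ι k,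
      (aeval μ : MvPolynomial ι k →ₐ[k] _).toRingHom f ∈ idealOfVars (ι ⊕ ι) k := by
    have : idealOfVars ι k ≤
        (idealOfVars (ι ⊕ ι) k).comap (aeval μ : MvPolynomial ι k →ₐ[k] _).toRingHom := by
      refine Ideal.span_le.2 ?_
      rintro _ ⟨i, rfl⟩
      have h3 := Ideal.add_mem _ (Ideal.pow_le_pow_right (Nat.le_succ 1) (hrel i).2) (hrel i).1
      simpa using h3
    exact this
  have h3 := hJ _ (frobI_map _ hμ _ hP)
  have h4 := hM _ (Rel.prod Finset.univ fun i => (hrel i).pow (p ^ r - 1)).2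
  simp only [AlgHom.toRingHom_eq_coe, RingHom.coe_coe, map_sub, map_mul, map_prod, map_pow,
    aeval_X, aeval_C, algebraMap_eq, hl0, ← smul_eq_C_mul, map_smul, smul_eq_mul, zero_sub,
    neg_eq_zero, mul_eq_zero, hc, false_or] at h3
  rw [map_sub, h3, zero_sub, neg_eq_zero] at h4
  have h5 : ∏ i : ι, (X (Sum.inl i) + X (Sum.inr i) : MvPolynomial (ι ⊕ ι) k) ^ (p ^ r - 1) =
      ∑ f ∈ Fintype.piFinset fun _ : ι => Finset.range (p ^ r - 1 + 1),
        (∏ i, (((p ^ r - 1).choose (f i) : ℕ) : k)) •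
          monomial (fs (Sum.elim f fun i => p ^ r - 1 - f i)) (1 : k) := by
    simp only [add_pow]
    rw [Finset.prod_univ_sum]
    refine Finset.sum_congr rfl fun f _ => ?_
    rw [← prod_X_fs, Fintype.prod_sum_type, smul_eq_C_mul]
    simp only [Finset.prod_mul_distrib, Sum.elim_inl, Sum.elim_inr, map_prod, map_natCast]
    ring
  rw [h5, map_sum, Finset.sum_eq_single (fun i => p ^ r - 1 - β i)] at h4
  · rw [map_smul, hl, if_pos (by rfl), smul_eq_mul] at h4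
    refine mul_ne_zero (Finset.prod_ne_zero_iff.2 fun i _ =>
      choose_ne_zero p r _ (by dsimp only; omega)) (fun h6 => hβ ?_) h4
    rw [← h6]
    congr 1
    funext i
    have := hβq i
    simp only [fs_apply, Sum.elim_inr]
    omega
  · intro f _ hf
    rw [map_smul, hl, if_neg (by exact hf), smul_zero]
  · intro h
    exact (h (by simp only [Fintype.mem_piFinset, Finset.mem_range]; omega)).elim

omit p in
/-- The determinant trick. -/
theorem det_trick {Γ A : Type} [Group Γ] [CommRing A] [Algebra k A] (ρ : Γ →* (A →ₐ[k] A))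
    (s : Γ → k) (hs : ∃ g, s g ≠ 0) (θ : Γ → A)
    [FiniteDimensional k (Submodule.span k (range fun g x => s (g⁻¹ * x)))]
    (h1 : ∀ (η : A →ₗ[k] k) (g : Γ), (fun x => η (ρ g (θ (g⁻¹ * x)))) ∈
      Submodule.span k (range fun g x => s (g⁻¹ * x)))
    (h2 : ∀ (η : A →ₗ[k] k) (x : Γ), (fun g => η (ρ g (θ (g⁻¹ * x)))) ∈
      Submodule.span k (range fun x g => s (g⁻¹ * x)))
    (I : Ideal A) (a : A) (hI : ∀ g x, ρ g (θ x) - s x • a ∈ I) :
    ∃ D : ℕ, 0 < D ∧ ∃ b, (∀ g, ρ g b = b) ∧ a ^ D - b ∈ I := by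
  classical
  obtain ⟨D, hD⟩ : ∃ D, Module.finrank k
    (Submodule.span k (range fun g x : Γ => s (g⁻¹ * x))) = D := ⟨_, rfl⟩
  obtain ⟨f, hf, hfs, hfi⟩ := exists_fin _ hD
  choose g hg using hf
  have hfg : ∀ i x, f i x = s ((g i)⁻¹ * x) := fun i x => by rw [← hg]
  have htop : Submodule.span k (range fun x (i : Fin D) => f i x) = ⊤ := by
    refine top_unique fun w _ => mem_of_forall_dual fun η hη => ?_
    have h0 : ∀ i, η (Pi.single i 1) = 0 := by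
      refine Fintype.linearIndependent_iff.1 hfi _ (_root_.funext fun x => ?_)
      have := hη _ (Submodule.subset_span ⟨x, rfl⟩)
      rw [LinearMap.pi_apply_eq_sum_univ] at this
      simp only [Finset.sum_apply, Pi.smul_apply, smul_eq_mul, Pi.zero_apply] at this ⊢
      rw [← this]
      refine Finset.sum_congr rfl fun i _ => ?_
      rw [mul_comm]
      congr 2
      ext j
      simp [Pi.single_apply, eq_comm]
    rw [LinearMap.pi_apply_eq_sum_univ]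
    refine Finset.sum_eq_zero fun i _ => ?_
    have : (fun j => if i = j then (1 : k) else 0) = Pi.single i 1 := by
      ext j
      simp [Pi.single_apply, eq_comm]
    rw [this, h0, smul_zero]
  obtain ⟨c, hc, hcs, hci⟩ := exists_fin (k := k) (range fun x (i : Fin D) => f i x) (n := D)
    (by rw [htop]; simp)
  choose x hx using hc
  have hα : ∀ y : Γ, ∃ α : Fin D → k, ∀ z, s (y⁻¹ * z) = ∑ i, α i * s ((g i)⁻¹ * z) := by
    intro y
    have : (fun z => s (y⁻¹ * z)) ∈ Submodule.span k (range f) := by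
      rw [hfs]; exact Submodule.subset_span ⟨y, rfl⟩
    obtain ⟨α, hα⟩ := (Submodule.mem_span_range_iff_exists_fun k).1 this
    refine ⟨α, fun z => ?_⟩
    have := congrFun hα z
    simpa [hfg] using this.symm
  choose α hα using hα
  have hβ : ∀ z : Γ, ∃ β : Fin D → k, ∀ i, s ((g i)⁻¹ * z) = ∑ j, s ((g i)⁻¹ * x j) * β j := by
    intro z
    have : (fun i => f i z) ∈ Submodule.span k (range c) := by
      rw [hcs]; exact Submodule.subset_span ⟨z, rfl⟩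
    obtain ⟨β, hβ⟩ := (Submodule.mem_span_range_iff_exists_fun k).1 this
    refine ⟨β, fun i => ?_⟩
    have := congrFun hβ i
    simp only [Finset.sum_apply, Pi.smul_apply, smul_eq_mul, ← hx, hfg] at this
    rw [← this]
    exact Finset.sum_congr rfl fun j _ => mul_comm _ _
  choose β hβ using hβ
  have hβ' : ∀ y z, s (y⁻¹ * z) = ∑ j, s (y⁻¹ * x j) * β z j := by
    intro y z
    rw [hα y z]
    simp only [hα y (x _), hβ z, Finset.mul_sum, Finset.sum_mul]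
    rw [Finset.sum_comm]
    simp only [mul_assoc]
  have hV : ∀ F ∈ Submodule.span k (range fun y z : Γ => s (y⁻¹ * z)),
      ∀ z, F z = ∑ j, F (x j) * β z j := by
    intro F hF z
    induction hF using Submodule.span_induction with
    | mem F hF => obtain ⟨y, rfl⟩ := hF; exact hβ' y z
    | zero => simp
    | add F G _ _ hF hG => simp only [Pi.add_apply, add_mul, Finset.sum_add_distrib, ← hF, ← hG]
    | smul t F _ hF => simp only [Pi.smul_apply, smul_eq_mul, mul_assoc, ← Finset.mul_sum, ← hF]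
  have hW : ∀ F ∈ Submodule.span k (range fun z y : Γ => s (y⁻¹ * z)),
      ∀ y, F y = ∑ i, α y i * F (g i) := by
    intro F hF y
    induction hF using Submodule.span_induction with
    | mem F hF => obtain ⟨z, rfl⟩ := hF; exact hα y z
    | zero => simp
    | add F G _ _ hF hG => simp only [Pi.add_apply, mul_add, Finset.sum_add_distrib, ← hF, ← hG]
    | smul t F _ hF =>
      simp only [Pi.smul_apply, smul_eq_mul, mul_left_comm _ t, ← Finset.mul_sum, ← hF]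
  have hΦ1 : ∀ y z, ρ y (θ (y⁻¹ * z)) = ∑ j, β z j • ρ y (θ (y⁻¹ * x j)) := fun y z =>
    eq_of_dual (k := k) fun η => by
      have := hV _ (h1 η y) z
      simp only [map_sum, map_smul, smul_eq_mul] at this ⊢
      rw [this]
      exact Finset.sum_congr rfl fun j _ => mul_comm _ _
  have hΦ2 : ∀ y z, ρ y (θ (y⁻¹ * z)) = ∑ i, α y i • ρ (g i) (θ ((g i)⁻¹ * z)) := fun y z =>
    eq_of_dual (k := k) fun η => by
      have := hW _ (h2 η z) y
      simpa only [map_sum, map_smul, smul_eq_mul] using this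
  let S : Matrix (Fin D) (Fin D) k := Matrix.of fun i j => s ((g i)⁻¹ * x j)
  let M : Matrix (Fin D) (Fin D) A := Matrix.of fun i j => ρ (g i) (θ ((g i)⁻¹ * x j))
  have hS : S.det ≠ 0 := by
    have : S.col = c := by
      ext j i
      simp [S, ← hx, hfg]
    exact ((Matrix.isUnit_iff_isUnit_det S).1
      (Matrix.linearIndependent_cols_iff_isUnit.1 (this ▸ hci))).ne_zero
  have hD0 : 0 < D := by
    by_contra h0
    obtain rfl : D = 0 := by omega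
    obtain ⟨y, hy⟩ := hs
    simpa [hy] using hα 1 y
  refine ⟨D, hD0, S.det⁻¹ • M.det, fun h => ?_, ?_⟩
  · let P : Matrix (Fin D) (Fin D) k := Matrix.of fun i j => α (h * g i) j
    let Q : Matrix (Fin D) (Fin D) k := Matrix.of fun i j => β (h * x j) i
    have e0 : ∀ i j, (g i)⁻¹ * x j = (h * g i)⁻¹ * (h * x j) := fun i j => by group
    have e1 : S = P * (S * Q) := by
      ext i j
      simp only [S, P, Q, Matrix.mul_apply, Matrix.of_apply]
      rw [e0, hα]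
      simp only [← hβ]
    have e2 : (ρ h).toRingHom.mapMatrix M =
        (algebraMap k A).mapMatrix P * (M * (algebraMap k A).mapMatrix Q) := by
      ext i j
      simp only [M, P, Q, Matrix.mul_apply, Matrix.of_apply, RingHom.mapMatrix_apply,
        Matrix.map_apply, AlgHom.toRingHom_eq_coe, RingHom.coe_coe]
      have : ρ h (ρ (g i) (θ ((g i)⁻¹ * x j))) = ρ (h * g i) (θ ((h * g i)⁻¹ * (h * x j))) := by
        rw [← e0, map_mul]; rfl
      rw [this, hΦ2]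
      refine Finset.sum_congr rfl fun l _ => ?_
      rw [hΦ1, Algebra.smul_def]
      congr 1
      exact Finset.sum_congr rfl fun l' _ => by rw [Algebra.smul_def, mul_comm]
    have e3 : P.det * Q.det = 1 := by
      have := congrArg Matrix.det e1
      rw [Matrix.det_mul, Matrix.det_mul] at this
      refine mul_left_cancel₀ hS ?_
      linear_combination -this
    have e4 : ρ h M.det = M.det := by
      have := congrArg Matrix.det e2
      rw [← RingHom.map_det, Matrix.det_mul, Matrix.det_mul, ← RingHom.map_det,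
        ← RingHom.map_det, mul_left_comm, ← map_mul, e3, map_one, mul_one] at this
      exact this
    rw [map_smul, e4]
  · have e : (Ideal.Quotient.mk I).mapMatrix M =
        (Ideal.Quotient.mk I).mapMatrix (a • (algebraMap k A).mapMatrix S) := by
      ext i j
      simp only [M, S, Matrix.of_apply, RingHom.mapMatrix_apply, Matrix.map_apply,
        Matrix.smul_apply, smul_eq_mul]
      rw [Ideal.Quotient.eq, mul_comm, ← Algebra.smul_def]
      exact hI _ _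
    have e2 := congrArg Matrix.det e
    rw [← RingHom.map_det, ← RingHom.map_det, Matrix.det_smul, ← RingHom.map_det,
      Ideal.Quotient.eq, Fintype.card_fin] at e2
    have e3 := I.mul_mem_left (-algebraMap k A S.det⁻¹) e2
    convert e3 using 1
    have : algebraMap k A S.det⁻¹ * algebraMap k A S.det = 1 := by
      rw [← map_mul, inv_mul_cancel₀ hS, map_one]
    rw [Algebra.smul_def]
    linear_combination (-a ^ D) * this

end ZipFG
end

-- merged part: Pool.Agent.Work.MP_5c492e_ag.Stein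
section
/-! The Steinberg module as a space of functions. -/

namespace ZipFG

open Function Set Matrix

namespace SteinAux

open Polynomial

section gen
variable {k : Type} [Field k] {A B : Type} [Reg k A] [Reg k B]

lemma exists_polyO_aux {φ : A → Oo k} (h : RegV φ) :
    ∃ Ψ : (Oo A)[X], ∀ x d, (φ x).1 d = (Ψ.map (ev x).toRingHom).eval d := by
  induction h with
  | smul_const ha w =>
    obtain ⟨P, hP⟩ := (isReg_coe w).exists_poly
    refine ⟨C ha.toO * P.map (algebraMap k _), fun x d => ?_⟩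
    have : (ev x).toRingHom.comp (algebraMap k (Oo A)) = RingHom.id k :=
      RingHom.ext fun c => (ev x).commutes c
    rw [Polynomial.map_mul, map_C, Polynomial.map_map, this, Polynomial.map_id, eval_mul, eval_C,
      ← hP]
    rfl
  | add _ _ h1 h2 =>
    obtain ⟨P, hP⟩ := h1
    obtain ⟨Q, hQ⟩ := h2
    exact ⟨P + Q, fun x d => by rw [Polynomial.map_add, eval_add, ← hP, ← hQ]; rfl⟩

lemma exists_polyO {F : A × k → k} (hF : IsReg F) :
    ∃ Ψ : (Oo A)[X], ∀ x d, F (x, d) = (Ψ.map (ev x).toRingHom).eval d :=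
  exists_polyO_aux (φ := fun x => IsReg.toO (F := fun d => F (x, d)) (by fun_prop))
    (hF.curryO fun _ _ => rfl)

lemma polyO_ext [Infinite k] {Ψ Ψ' : (Oo A)[X]} (h : ∀ x d,
    (Ψ.map (ev x).toRingHom).eval d = (Ψ'.map (ev x).toRingHom).eval d) : Ψ = Ψ' := by
  refine Polynomial.ext fun j => O_ext fun x => ?_
  have := congrArg (coeff · j) (Polynomial.funext (h x))
  simp only [coeff_map] at this
  exact this

lemma expChar_O (p : ℕ) [ExpChar k p] (a : A) : ExpChar (Oo A) p := by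
  have := (ev a).toRingHom.domain_nontrivial
  exact expChar_of_injective_algebraMap (algebraMap k (Oo A)).injective p

lemma coeff_mem_frobI [Infinite k] (p r : ℕ) [ExpChar k p] {μ : A × k → B} (hμ : IsReg μ)
    (a0 : A) {F : Oo B} (hF : F ∈ frobI (mx (μ (a0, 0))) (p ^ r)) {Ψ : (Oo A)[X]}
    (hΨ : ∀ x d, F.1 (μ (x, d)) = (Ψ.map (ev x).toRingHom).eval d) :
    ∀ j < p ^ r, Ψ.coeff j ∈ frobI (mx a0) (p ^ r) := by
  have := expChar_O p a0
  have ex : ∀ F : Oo B, ∃ Ψ : (Oo A)[X],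
      ∀ x d, F.1 (μ (x, d)) = (Ψ.map (ev x).toRingHom).eval d :=
    fun F => exists_polyO ((isReg_coe F).comp hμ)
  induction hF using Submodule.span_induction generalizing Ψ with
  | mem F hF =>
    obtain ⟨g, hg, rfl⟩ := hF
    obtain ⟨P, hP⟩ := ex g
    have e : Ψ = P ^ p ^ r := polyO_ext fun x d => by
      rw [← hΨ, Polynomial.map_pow, eval_pow, ← hP]; rfl
    intro j hj
    rw [e, ← map_iterateFrobenius_expand, coeff_map, coeff_expand (by omega)]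
    split_ifs with h
    · rw [Nat.eq_zero_of_dvd_of_lt h hj, Nat.zero_div, iterateFrobenius_def]
      refine Ideal.subset_span ⟨_, ?_, rfl⟩
      have h1 := hP a0 0
      rw [mem_mx.1 hg, ← coeff_zero_eq_eval_zero, coeff_map] at h1
      exact mem_mx.2 h1.symm
    · rw [map_zero]; exact zero_mem _
  | zero =>
    have e : Ψ = 0 := polyO_ext fun x d => by rw [← hΨ]; simp
    intro j _
    rw [e]; exact zero_mem _
  | add F F' _ _ h1 h2 =>
    obtain ⟨P, hP⟩ := ex F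
    obtain ⟨Q, hQ⟩ := ex F'
    have e : Ψ = P + Q := polyO_ext fun x d => by
      rw [← hΨ, Polynomial.map_add, eval_add, ← hP, ← hQ]; rfl
    intro j hj
    rw [e, coeff_add]
    exact add_mem (h1 hP j hj) (h2 hQ j hj)
  | smul a F _ h1 =>
    obtain ⟨P, hP⟩ := ex a
    obtain ⟨Q, hQ⟩ := ex F
    have e : Ψ = P * Q := polyO_ext fun x d => by
      rw [← hΨ, Polynomial.map_mul, eval_mul, ← hP, ← hQ]; rfl
    intro j hj
    rw [e, coeff_mul]
    refine sum_mem fun c hc => Ideal.mul_mem_left _ _ (h1 hQ _ ?_)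
    have := Finset.HasAntidiagonal.mem_antidiagonal.1 hc
    omega

lemma frobI_pow {R : Type*} [CommRing R] (p : ℕ) [ExpChar R p] {I : Ideal R} {q : ℕ} {x : R}
    (hx : x ∈ frobI I q) : x ^ p ∈ frobI I (q * p) := by
  induction hx using Submodule.span_induction with
  | mem x hx =>
    obtain ⟨g, hg, rfl⟩ := hx
    exact Ideal.subset_span ⟨g, hg, (pow_mul _ _ _).symm⟩
  | zero => rw [zero_pow (expChar_pos R p).ne']; exact zero_mem _
  | add a b _ _ h1 h2 => rw [add_pow_expChar]; exact add_mem h1 h2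
  | smul a b _ h1 => rw [smul_eq_mul, mul_pow]; exact Ideal.mul_mem_left _ _ h1

lemma frobI_le {R : Type*} [CommRing R] {I : Ideal R} {q : ℕ} (hq : q ≠ 0) : frobI I q ≤ I :=
  Ideal.span_le.2 fun _ ⟨_, hg, e⟩ => e ▸ I.pow_mem_of_mem hg q (Nat.pos_of_ne_zero hq)

lemma loc_descend {δ : A → k} (hδ : IsReg δ) {a0 : A} (h0 : δ a0 ≠ 0) {Q : ℕ}
    {φ : Oo (Loc δ)} (hφ : φ ∈ frobI (mx (Loc.mk' a0 h0)) Q) :
    ∃ N, ∃ F ∈ frobI (mx a0) Q, ∀ z : Loc δ, φ.1 z * δ z.1.1 ^ N = F.1 z.1.1 := by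
  induction hφ using Submodule.span_induction with
  | mem x hx =>
    obtain ⟨g, hg, rfl⟩ := hx
    obtain ⟨N, F, hF, h⟩ := hδ.exists_loc (isReg_coe g)
    refine ⟨N * Q, hF.toO ^ Q, Ideal.subset_span ⟨_, mem_mx.2 ?_, rfl⟩, fun z => ?_⟩
    · have := h (Loc.mk' a0 h0)
      rw [mem_mx.1 hg, zero_mul] at this
      exact this.symm
    · change g.1 z ^ Q * _ = F z.1.1 ^ Q
      rw [pow_mul, ← mul_pow, h]
  | zero => exact ⟨0, 0, zero_mem _, fun z => by simp⟩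
  | add a b _ _ h1 h2 =>
    obtain ⟨N, F, hF, h⟩ := h1
    obtain ⟨N', F', hF', h'⟩ := h2
    refine ⟨N + N', F * hδ.toO ^ N' + F' * hδ.toO ^ N,
      add_mem (Ideal.mul_mem_right _ _ hF) (Ideal.mul_mem_right _ _ hF'), fun z => ?_⟩
    change (a.1 z + b.1 z) * _ = F.1 z.1.1 * δ z.1.1 ^ N' + F'.1 z.1.1 * δ z.1.1 ^ N
    rw [← h, ← h']; ring
  | smul a b _ h1 =>
    obtain ⟨N, F, hF, h⟩ := h1
    obtain ⟨N', F', hF', h'⟩ := hδ.exists_loc (isReg_coe a)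
    refine ⟨N + N', hF'.toO * F, Ideal.mul_mem_left _ _ hF, fun z => ?_⟩
    change (a.1 z * b.1 z) * _ = F' z.1.1 * F.1 z.1.1
    rw [← h, ← h']; ring

lemma loc_mem [IsNoetherianRing (Oo A)] {δ : A → k} (hδ : IsReg δ) {a0 : A} (h0 : δ a0 ≠ 0)
    {Q : ℕ} {φ : Oo (Loc δ)} (hφ : φ ∈ frobI (mx (Loc.mk' a0 h0)) Q) {h : Oo A}
    (hh : ∀ z, φ.1 z = h.1 z.1.1) : h ∈ frobI (mx a0) Q := by
  obtain ⟨N, F, hF, e⟩ := loc_descend hδ h0 hφ
  refine frobI_of_mul_mem Q (h := hδ.toO ^ (N + 1)) (u := algebraMap k _ (δ a0 ^ (N + 1)))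
    ((pow_ne_zero _ h0).isUnit.map _) (mem_mx.2 (sub_self _)) ?_
  have : hδ.toO ^ (N + 1) * h = hδ.toO * F := O_ext fun x => by
    change δ x ^ (N + 1) * h.1 x = δ x * F.1 x
    by_cases hx : δ x = 0
    · simp [hx]
    · have := e (Loc.mk' x hx)
      rw [hh] at this
      change h.1 x * δ x ^ N = F.1 x at this
      rw [← this]; ring
  rw [this]
  exact Ideal.mul_mem_left _ _ hF

lemma mem_vars {ι : Type} {P : MvPolynomial ι k} :
    P ∈ MvPolynomial.idealOfVars ι k ↔ MvPolynomial.eval 0 P = 0 := by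
  rw [← pow_one (MvPolynomial.idealOfVars ι k), MvPolynomial.mem_pow_idealOfVars_iff',
    MvPolynomial.eval_zero, MvPolynomial.constantCoeff_eq]
  simp [Finsupp.degree_eq_zero_iff]

end gen

section chart
variable {k : Type} [Field k] {n : Type} [Fintype n] [DecidableEq n] {T U : Subgroup (GL n k)}
  {ι : Type} [Fintype ι]

/-- Polynomials as functions on a group with a chart. -/
noncomputable def toO (C : Chart T U ι) : MvPolynomial ι k →ₐ[k] Oo U :=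
  MvPolynomial.aeval fun i =>
    IsReg.toO (F := fun u : U => C.x u i) ((C.x_reg.comp isReg_val).app i)

lemma toO_apply (C : Chart T U ι) (P : MvPolynomial ι k) (u : U) :
    (toO C P).1 u = MvPolynomial.eval (C.x u) P := by
  have : ((ev u).comp (toO C)) P = MvPolynomial.aeval (C.x u) P := by
    congr 1
    ext i
    simp [toO]
  exact this

lemma toO_bij [Infinite k] (C : Chart T U ι) : Bijective (toO C) := by
  constructor
  · refine (injective_iff_map_eq_zero _).2 fun P hP => MvPolynomial.funext fun c => ?_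
    have := toO_apply C P ⟨C.pt c, C.pt_mem c⟩
    rw [hP, C.x_pt] at this
    rw [← this, map_zero]; rfl
  · intro F
    obtain ⟨P, hP⟩ := ((isReg_coe F).comp (C.pt_reg.subtypeMk C.pt_mem)).exists_mvPoly
    refine ⟨P, O_ext fun u => ?_⟩
    rw [toO_apply, ← hP]
    exact congrArg F.1 (Subtype.ext (C.pt_x u u.2))

lemma toO_mem [Infinite k] (C : Chart T U ι) (P : MvPolynomial ι k) (q : ℕ) :
    toO C P ∈ frobI (mx (1 : U)) q ↔ P ∈ frobI (MvPolynomial.idealOfVars ι k) q := by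
  have key : ∀ P, toO C P ∈ mx (1 : U) ↔ P ∈ MvPolynomial.idealOfVars ι k := fun P => by
    rw [mem_mx, toO_apply, mem_vars]
    exact iff_of_eq (congrArg (fun c => MvPolynomial.eval c P = 0) C.x_one)
  let E := AlgEquiv.ofBijective _ (toO_bij C)
  refine ⟨fun h => ?_, fun h => frobI_map (toO C).toRingHom (fun f hf => (key f).2 hf) q h⟩
  have := frobI_map (J := MvPolynomial.idealOfVars ι k) E.symm.toRingEquiv.toRingHom
    (fun f hf => (key _).1 (by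
      change E (E.symm f) ∈ _
      rwa [E.apply_symm_apply])) q h
  change E.symm (E P) ∈ _ at this
  rwa [E.symm_apply_apply] at this

lemma frob_root [Infinite k] (p r : ℕ) [Fact p.Prime] [CharP k p] (C : Chart T U ι) {F : Oo U}
    (h : F ^ p ∈ frobI (mx (1 : U)) (p ^ r * p)) : F ∈ frobI (mx (1 : U)) (p ^ r) := by
  obtain ⟨P, rfl⟩ := (toO_bij C).2 F
  rw [← map_pow, toO_mem, ← pow_succ] at h
  exact (toO_mem C P _).2 (frobI_of_pow_mem p r h)

end chart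

end SteinAux

variable {k : Type} [Field k] [LF k] {n : Type} [Fintype n] [DecidableEq n]

/-- Functions on `G` whose `p`-th power is regular and semi-invariant of weight `e • r` under the
opposite Borel subgroup, and whose restriction to the unipotent group is regular. -/
def HH (G : Subgroup (GL n k)) (y r : n → ℤ) (e : ℕ) : Submodule k (G → k) where
  carrier := {f | IsReg (fun g => f g ^ ringChar k) ∧
    (∀ g b : G, (b : GL n k) ∈ Pn (-y) →
      f (g * b) ^ ringChar k = (eps r (lev (-y) b))⁻¹ ^ e * f g ^ ringChar k) ∧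
    IsReg (fun u : (G ⊓ Uu y : Subgroup (GL n k)) => f ⟨u, u.2.1⟩)}
  add_mem' := by
    rintro f f' ⟨h1, h2, h3⟩ ⟨h1', h2', h3'⟩
    refine ⟨?_, fun g b hb => ?_, h3.add h3'⟩
    · simpa only [Pi.add_apply, add_pow_char] using h1.add h1'
    · simp only [Pi.add_apply, add_pow_char, h2 g b hb, h2' g b hb, mul_add]
  zero_mem' := ⟨isReg_const ((0 : k) ^ ringChar k), fun g b _ => by
    simp [(Nat.Prime.pos (Fact.out : (ringChar k).Prime)).ne'], isReg_const (0 : k)⟩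
  smul_mem' := by
    rintro c f ⟨h1, h2, h3⟩
    refine ⟨?_, fun g b hb => ?_, (isReg_const c).mul h3⟩
    · simpa only [Pi.smul_apply, smul_eq_mul, mul_pow] using (isReg_const (c ^ ringChar k)).mul h1
    · simp only [Pi.smul_apply, smul_eq_mul, mul_pow, h2 g b hb]; ring

variable [IsAlgClosed k] {G T : Subgroup (GL n k)}

namespace SteinAux

open Polynomial

/-- Extension by zero. -/
noncomputable def ex (f : G → k) (g : GL n k) : k := by
  classical exact if h : g ∈ G then f ⟨g, h⟩ else 0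

lemma ex_eq {f : G → k} {g : GL n k} (h : g ∈ G) : ex f g = f ⟨g, h⟩ := dif_pos h

lemma pinj {a b : k} (h : a ^ ringChar k = b ^ ringChar k) : a = b := frobenius_inj k _ h

lemma p_pos : 0 < ringChar k := (Fact.out : (ringChar k).Prime).pos

variable {y ρ : n → ℤ} {e : ℕ} {f : G → k}

lemma reg_pow (hf : f ∈ HH G y ρ e) {A : Type} [Reg k A] {m : A → GL n k} (hm : IsReg m)
    (h : ∀ x, m x ∈ G) : IsReg (fun x => ex f (m x) ^ ringChar k) :=
  (hf.1.comp (hm.subtypeMk h)).congr fun x => by rw [ex_eq (h x)]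

lemma reg_U (hf : f ∈ HH G y ρ e) {A : Type} [Reg k A] {m : A → GL n k} (hm : IsReg m)
    (h : ∀ x, m x ∈ G ⊓ Uu y) : IsReg (fun x => ex f (m x)) :=
  (hf.2.2.comp (hm.subtypeMk h)).congr fun x => by rw [ex_eq (h x).1]

lemma semi (hf : f ∈ HH G y ρ e) {g b : GL n k} (hg : g ∈ G) (hb : b ∈ G) (hb' : b ∈ Pn (-y)) :
    ex f (g * b) ^ ringChar k = (eps ρ (lev (-y) b))⁻¹ ^ e * ex f g ^ ringChar k := by
  rw [ex_eq (mul_mem hg hb), ex_eq hg]; exact hf.2.1 ⟨g, hg⟩ ⟨b, hb⟩ hb'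

lemma tr_mem (hf : f ∈ HH G y ρ e) {g : GL n k} (hg : g ∈ G)
    (h : IsReg (fun u : (G ⊓ Uu y : Subgroup (GL n k)) => ex f (g * u))) :
    (fun x => f (⟨g, hg⟩ * x)) ∈ HH G y ρ e :=
  ⟨hf.1.comp (g := fun x : G => (⟨g, hg⟩ : G) * x) (by fun_prop),
    fun x b hb => by simpa only [mul_assoc] using hf.2.1 (⟨g, hg⟩ * x) b hb,
    h.congr fun u => ex_eq (mul_mem hg u.2.1)⟩

/-- The stabiliser of a set of functions under left translation. -/
def stab (S : Set (G → k)) : Subgroup (GL n k) := subOf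
  { carrier := {g | ∃ hg : g ∈ G, ∀ f ∈ S, (fun x => f (⟨g, hg⟩ * x)) ∈ S}
    mul_mem' := by
      rintro a b ⟨ha, h1⟩ ⟨hb, h2⟩
      refine ⟨mul_mem ha hb, fun f hf => ?_⟩
      convert h2 _ (h1 f hf) using 3 with x
      exact Subtype.ext (mul_assoc _ _ _)
    one_mem' := ⟨one_mem _, fun f hf => by
      convert hf using 3 with x
      exact Subtype.ext (one_mul _)⟩ }

variable {y0 : n → ℤ} {a b : n}

lemma a0_ne (hG : Good G T) (hy : Gen T y) (hS : Simple G T y y0 a b) (R : Rk1 G T y y0 a b)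
    (h : ∀ c : kˣ, R.w * R.x c ∈ Pn (-y)) : False := by
  have h1 := (zclosed_Pn (k := k) (-y)).curve (γ := fun c => R.w * R.x c)
    ((isReg_const _).mul R.x_reg) h 0
  rw [R.x_zero, mul_one] at h1
  have h2 := mem_Zn_of_Nm hG.tor.le R.w_mem.1.2 hy.neg.1 h1
  rw [Zn_neg, ← act_eq_iff hG.tor.le R.w_mem.1.2 hy.1] at h2
  have h3 := R.w_refl y hy.1
  have h4 := hG.simple_lt hy.1 hS
  rw [h2] at h3
  omega

lemma exists_t (hy : Gen T y) (R : Rk1 G T y y0 a b) (c : kˣ) : ∃ t ∈ T, eps R.α t = c := by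
  obtain ⟨N, hN⟩ := Int.eq_ofNat_of_zero_le R.pos.le
  have h0 : 0 < N := by have := R.pos; omega
  obtain ⟨s, hs⟩ := IsAlgClosed.exists_pow_nat_eq (c : k) h0
  have s0 : s ≠ 0 := fun h => c.ne_zero (by rw [← hs, h, zero_pow h0.ne'])
  exact ⟨_, hy.1 (Units.mk0 s s0), by rw [eps_nu, hN, zpow_natCast]; exact hs⟩

lemma rev_eval {P : k[X]} {N : ℕ} (h : P.natDegree ≤ N) (a0 : k) (c : kˣ) :
    (c : k) ^ N * P.eval (a0 * (c : k)⁻¹) =
      ∑ j ∈ Finset.range (N + 1), a0 ^ j * P.coeff j * (c : k) ^ (N - j) := by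
  rw [eval_eq_sum_range' (Nat.lt_succ_of_le h), Finset.mul_sum]
  refine Finset.sum_congr rfl fun j hj => ?_
  obtain ⟨i, rfl⟩ := Nat.exists_eq_add_of_le (Nat.lt_succ_iff.1 (Finset.mem_range.1 hj))
  have := c.ne_zero
  rw [Nat.add_sub_cancel_left, pow_add, mul_pow, inv_pow]
  field_simp

lemma key (hG : Good G T) (hy : Gen T y) {ι : Type} [Fintype ι] (C : Chart T (G ⊓ Uu y) ι)
    {m : ℕ} (he : 2 * e = ringChar k * m) (hf : f ∈ HH G y (∑ i, C.wt i) e)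
    (hS : Simple G T y y0 a b) (R : Rk1 G T y y0 a b)
    {Ψ : (Oo (G ⊓ Uu y0 : Subgroup (GL n k)))[X]}
    (hΨ : ∀ u d, ex f (u.1 * R.x d) = (Ψ.map (ev u).toRingHom).eval d) :
    Ψ.natDegree ≤ m ∧ ∃ κ a0 : k, ∀ u ∈ G ⊓ Uu y0, ∀ u' : (G ⊓ Uu y0 : Subgroup (GL n k)),
      u'.1 = R.w * u * R.w⁻¹ → ∀ c, ex f (R.w * u * R.x c) =
        κ * ∑ j ∈ Finset.range (m + 1), a0 ^ j * (Ψ.coeff j).1 u' * c ^ (m - j) := by
  obtain ⟨a0, t1, ht1, hrel⟩ := R.rel
  have hD := hG.tor.le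
  have hw := R.w_mem.1.1
  obtain ⟨κ, hκ⟩ := IsAlgClosed.exists_pow_nat_eq ((eps (∑ i, C.wt i) t1)⁻¹ ^ e) (p_pos (k := k))
  have κ0 : κ ≠ 0 := fun h => pow_ne_zero e (inv_ne_zero (eps_ne_zero (∑ i, C.wt i) (hD ht1)))
    (by rw [← hκ, h, zero_pow p_pos.ne'])
  have rel : ∀ c : kˣ, ∃ s ∈ T, ∃ v ∈ G ⊓ Uu (-y), R.w * R.x c = R.x (a0 * (c : k)⁻¹) * (s * v) ∧
      (eps (∑ i, C.wt i) s)⁻¹ ^ e = (κ * (c : k) ^ m) ^ ringChar k := by
    intro c
    obtain ⟨t, ht, hc⟩ := exists_t hy R c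
    obtain ⟨v, hv, h⟩ := hrel t ht
    have h1 := mem_Nm.1 R.w_mem.1.2 t ht
    refine ⟨_, mul_mem (mul_mem h1 ht1) (inv_mem ht), v, hv, by rw [← hc, h, mul_assoc], ?_⟩
    have h2 := eps_ne_zero (∑ i, C.wt i) (hD ht)
    rw [eps_mul _ (hD (mul_mem h1 ht1)), eps_mul _ (hD h1), hG.rho_refl hS R C t ht,
      eps_inv _ (hD ht), hc, mul_pow, hκ, ← pow_mul, mul_comm m, ← he, pow_mul, ← mul_pow]
    congr 1
    have := c.ne_zero
    field_simp
  have a00 : a0 ≠ 0 := fun h => a0_ne hG hy hS R fun c => by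
    obtain ⟨s, hs, v, hv, h1, -⟩ := rel c
    rw [h1, h, zero_mul, R.x_zero, one_mul]
    exact mul_mem (Dn_le_Pn _ (hD hs)) (Uu_le_Pn _ hv.2)
  have main : ∀ u ∈ G ⊓ Uu y0, ∀ u' : (G ⊓ Uu y0 : Subgroup (GL n k)),
      u'.1 = R.w * u * R.w⁻¹ → ∀ i, (Ψ.map (ev u').toRingHom).natDegree ≤ m + i → ∀ c,
      (c ^ i) ^ ringChar k * ex f (R.w * u * R.x c) ^ ringChar k =
        (κ * ∑ j ∈ Finset.range (m + i + 1), a0 ^ j * (Ψ.coeff j).1 u' * c ^ (m + i - j)) ^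
          ringChar k := by
    intro u hu u' e' i hi
    refine IsReg.eq_of_units (IsReg.mul (by fun_prop) (reg_pow hf
      ((isReg_const _).mul R.x_reg) fun c => mul_mem (mul_mem hw hu.1) (R.x_mem c).1.1))
      (by fun_prop) fun c => ?_
    obtain ⟨s, hs, v, hv, h1, h2⟩ := rel c
    have h3 : R.w * u * R.x c = u'.1 * R.x (a0 * (c : k)⁻¹) * (s * v) := by
      rw [e', mul_assoc (R.w * u * R.w⁻¹), ← h1]; group
    have h4 := rev_eval hi a0 c
    simp only [coeff_map] at h4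
    rw [h3, semi hf (mul_mem u'.2.1 (R.x_mem _).1.1) (mul_mem (hG.le hs) hv.1)
      (mul_mem (Dn_le_Pn _ (hD hs)) (Uu_le_Pn _ hv.2)),
      lev_mul (Dn_le_Pn _ (hD hs)) (Uu_le_Pn _ hv.2), lev_Uu hv.2, mul_one,
      lev_of_Zn (Dn_le_Zn _ (hD hs)), h2, hΨ, ← mul_pow, ← mul_pow]
    congr 1
    refine Eq.trans ?_ (congrArg (κ * ·) h4)
    ring
  have deg : ∀ u' : (G ⊓ Uu y0 : Subgroup (GL n k)),
      (Ψ.map (ev u').toRingHom).natDegree ≤ m := by
    intro u'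
    by_contra hn
    obtain ⟨i, hi⟩ := Nat.exists_eq_add_of_lt (not_le.1 hn)
    have h1 := main (R.w⁻¹ * u' * R.w) ⟨G.mul_mem (G.mul_mem (G.inv_mem hw) u'.2.1) hw, by
      simpa using conj_mem_Uu ((Pn y0).inv_mem R.w_mem.2.1) u'.2.2⟩ u' (by group) (i + 1) hi.le 0
    rw [zero_pow i.succ_ne_zero, zero_pow p_pos.ne', zero_mul, Finset.sum_range_succ,
      Finset.sum_eq_zero fun j hj => by
        rw [zero_pow (by have := Finset.mem_range.1 hj; omega), mul_zero],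
      Nat.sub_self, pow_zero, mul_one, zero_add] at h1
    have h2 := pow_eq_zero_iff p_pos.ne' |>.1 h1.symm
    simp only [mul_eq_zero, κ0, pow_ne_zero _ a00, false_or] at h2
    have h3 : (Ψ.map (ev u').toRingHom).leadingCoeff = 0 := by
      rw [leadingCoeff, hi, coeff_map]; exact h2
    rw [leadingCoeff_eq_zero.1 h3, natDegree_zero] at hi
    omega
  refine ⟨natDegree_le_iff_coeff_eq_zero.2 fun j hj => O_ext fun u' => ?_, κ, a0,
    fun u hu u' e' c => pinj ?_⟩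
  · have := natDegree_le_iff_coeff_eq_zero.1 (deg u') j hj
    rw [coeff_map] at this
    exact this
  · simpa using main u hu u' e' 0 (deg u') c

lemma exists_Ψ (hf : f ∈ HH G y ρ e) (R : Rk1 G T y y0 a b) :
    ∃ Ψ : (Oo (G ⊓ Uu y0 : Subgroup (GL n k)))[X],
      ∀ u d, ex f (u.1 * R.x d) = (Ψ.map (ev u).toRingHom).eval d :=
  exists_polyO (F := fun z : (G ⊓ Uu y0 : Subgroup (GL n k)) × k => ex f (z.1.1 * R.x z.2))
    (reg_U hf (IsReg.mul (by fun_prop) (R.x_reg.comp isReg_snd))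
      fun z => mul_mem ⟨z.1.2.1, R.le_Uu z.1.2⟩ (R.x_mem _).1)

lemma lev_mem' (hG : Good G T) {ι : Type} (C : Chart T (G ⊓ Uu y) ι)
    (hS : Simple G T y y0 a b) (R : Rk1 G T y y0 a b) {u : GL n k} (hu : u ∈ G ⊓ Uu y) :
    lev y0 u ∈ G ⊓ Uu y ⊓ Zn y0 := by
  obtain ⟨⟨y1, -, hW⟩, -⟩ := hS
  exact lev_mem (hG.cl.inf (zclosed_Uu y)) (fun t => C.norm _ (hW.mem t)) ⟨hu, R.le_Pn hu⟩

lemma part_mem (hG : Good G T) {ι : Type} (C : Chart T (G ⊓ Uu y) ι)
    (hS : Simple G T y y0 a b) (R : Rk1 G T y y0 a b) {u : GL n k} (hu : u ∈ G ⊓ Uu y) :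
    u * (lev y0 u)⁻¹ ∈ G ⊓ Uu y0 :=
  ⟨mul_mem hu.1 (G.inv_mem (lev_mem' hG C hS R hu).1.1), mul_lev_inv_mem (R.le_Pn hu)⟩

lemma exists_ν (hG : Good G T) {ι : Type} (C : Chart T (G ⊓ Uu y) ι)
    (hS : Simple G T y y0 a b) (R : Rk1 G T y y0 a b) {g : GL n k} (hg : g ∈ G)
    (hg' : g ∈ Pn y0) :
    ∃ ν : (G ⊓ Uu y : Subgroup (GL n k)) → (G ⊓ Uu y0 : Subgroup (GL n k)), IsReg ν ∧
      ∀ u, (ν u).1 = g * (u.1 * (lev y0 u.1)⁻¹) * g⁻¹ := by
  have hl : IsReg fun u : (G ⊓ Uu y : Subgroup (GL n k)) => lev y0 u.1 :=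
    isReg_val.lev fun u => R.le_Pn u.2
  exact ⟨fun u => ⟨g * (u.1 * (lev y0 u.1)⁻¹) * g⁻¹,
    G.mul_mem (G.mul_mem hg (part_mem hG C hS R u.2).1) (G.inv_mem hg),
      conj_mem_Uu hg' (part_mem hG C hS R u.2).2⟩,
    isReg_of_val (((isReg_const _).mul (isReg_val.mul hl.inv)).mul (isReg_const _)), fun _ => rfl⟩

end SteinAux

open SteinAux

theorem HH_stable (hG : Good G T) {y : n → ℤ} (hy : Gen T y) {ι : Type} [Fintype ι]
    (C : Chart T (G ⊓ Uu y) ι) {e : ℕ} (he : ringChar k ∣ 2 * e) {f : G → k}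
    (hf : f ∈ HH G y (∑ i, C.wt i) e) (g : G) :
    (fun x => f (g * x)) ∈ HH G y (∑ i, C.wt i) e := by
  obtain ⟨m, hm⟩ := he
  refine (hG.gen_plus hy (K := stab (HH G y (∑ i, C.wt i) e)) (fun u hu => ⟨hu.1, fun f hf => ?_⟩)
    (fun t ht => ⟨hG.le ht, fun f hf => ?_⟩)
    (fun y0 a b hS R => ⟨R.w_mem.1.1, fun f hf => ?_⟩) g.2).2 f hf
  · exact tr_mem hf _ (reg_U hf (by fun_prop) fun x => mul_mem hu x.2)
  · obtain ⟨κ, hκ⟩ := IsAlgClosed.exists_pow_nat_eq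
      ((eps (∑ i, C.wt i) (lev (-y) t))⁻¹ ^ e) (p_pos (k := k))
    refine tr_mem hf _ (((isReg_const κ).mul (reg_U hf
      (m := fun u : (G ⊓ Uu y : Subgroup (GL n k)) => t * u * t⁻¹) (by fun_prop)
      fun u => C.norm t ht u u.2)).congr fun u => pinj ?_)
    rw [mul_pow, hκ, ← semi hf (C.norm t ht u u.2).1 (hG.le ht) (Dn_le_Pn _ (hG.tor.le ht)),
      inv_mul_cancel_right]
  · obtain ⟨Ψ, hΨ⟩ := exists_Ψ hf R
    obtain ⟨-, κ, a0, h⟩ := key hG hy C hm hf hS R hΨ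
    obtain ⟨ν, hν, hν'⟩ := exists_ν hG C hS R R.w_mem.1.1 R.w_mem.2.1
    have hc : IsReg fun u : (G ⊓ Uu y : Subgroup (GL n k)) => R.co (lev y0 u.1) :=
      R.co_reg.comp (isReg_val.lev fun u => R.le_Pn u.2)
    refine tr_mem hf _ (((isReg_const κ).mul (IsReg.fsum (s := Finset.range (m + 1)) fun j _ =>
      ((isReg_const (a0 ^ j)).mul ((isReg_coe (Ψ.coeff j)).comp hν)).mul
        (hc.pow (m - j)))).congr fun u => ?_)
    rw [← h _ (part_mem hG C hS R u.2) _ (hν' u), R.x_co _ (lev_mem' hG C hS R u.2), mul_assoc,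
      inv_mul_cancel_right]

theorem HH_inj (hG : Good G T) {y : n → ℤ} (hy : Gen T y) {ι : Type} [Fintype ι]
    (C : Chart T (G ⊓ Uu y) ι) {e r : ℕ} (he : 2 * e = ringChar k * (ringChar k ^ r - 1))
    {f : G → k} (hf : f ∈ HH G y (∑ i, C.wt i) e) {P : MvPolynomial ι k}
    (hP : ∀ c, f ⟨C.pt c, (C.pt_mem c).1⟩ = MvPolynomial.eval c P)
    (h : P ∈ frobI (MvPolynomial.idealOfVars ι k) (ringChar k ^ r)) : f = 0 := by
  have hq : ringChar k ^ r ≠ 0 := pow_ne_zero _ p_pos.ne'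
  have hc := hG.cl.inf (zclosed_Uu y)
  have := hc.affSub
  let S : Set (G → k) := {f | f ∈ HH G y (∑ i, C.wt i) e ∧
    ∀ F : Oo (G ⊓ Uu y : Subgroup (GL n k)), (∀ u, F.1 u = f ⟨u, u.2.1⟩) →
      F ∈ frobI (mx 1) (ringChar k ^ r)}
  have hS : f ∈ S := ⟨hf, fun F hF => by
    have : F = toO C P := O_ext fun u => by
      rw [hF, toO_apply, ← hP]
      exact congrArg f (Subtype.ext (C.pt_x u u.2).symm)
    rw [this, toO_mem]; exact h⟩
  have minus : ∀ b ∈ G, b ∈ Pn (-y) → b ∈ stab S := by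
    refine fun b hb hb' => ⟨hb, fun f hf => ⟨HH_stable hG hy C ⟨_, he⟩ hf.1 _, fun F hF => ?_⟩⟩
    obtain ⟨δ, hδe⟩ : ∃ δ : (G ⊓ Uu y : Subgroup (GL n k)) → k, ∀ u, Dl y (b * u.1) = δ u :=
      ⟨_, fun _ => rfl⟩
    have hδ : IsReg δ := (IsReg.Dl y ((isReg_const b).mul isReg_val)).congr hδe
    have h0 : δ 1 ≠ 0 := by simpa [← hδe] using Dl_ne_zero' hb'
    have m0 : ∀ z : Loc δ, Dl y (b * z.1.1.1) ≠ 0 := fun z => (hδe _).trans_ne z.ne
    have m1 : ∀ z : Loc δ, uu y (b * z.1.1.1) ∈ G ⊓ Uu y := fun z =>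
      ⟨uu_mem_of hG.cl hG.irr (hG.nu_conj hy.1) (G.mul_mem hb z.1.1.2.1) (m0 z), uu_mem _ _⟩
    have m2 : ∀ z : Loc δ, (uu y (b * z.1.1.1))⁻¹ * (b * z.1.1.1) ∈ G ⊓ Pn (-y) := fun z =>
      ⟨G.mul_mem (G.inv_mem (m1 z).1) (G.mul_mem hb z.1.1.2.1), uu_inv_mul_mem (m0 z)⟩
    have r0 : IsReg fun z : Loc δ => b * z.1.1.1 := (isReg_const b).mul isReg_val.fst.val
    have r1 : IsReg fun z : Loc δ => uu y (b * z.1.1.1) :=
      r0.uu isReg_val.snd fun z => by rw [hδe]; exact z.2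
    have r2 := ((r1.inv.mul r0).lev fun z => (m2 z).2).eps
      (-∑ i, C.wt i) fun z => hG.tor.le (hG.lev_mem hy.neg (m2 z))
    have h1 := frobI_map (pull _ (r1.subtypeMk m1)).toRingHom (J := mx (Loc.mk' 1 h0))
      (fun g hg => mem_mx.2 (by
        rw [← mem_mx.1 hg]
        refine congrArg g.1 (Subtype.ext ?_)
        simpa [Loc.mk'] using uu_eq (one_mem _) hb')) _ (hf.2 hf.1.2.2.toO fun _ => rfl)
    have := expChar_O (ringChar k) (Loc.mk' 1 h0)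
    refine frob_root _ r C (loc_mem hδ h0
      (Ideal.mul_mem_left _ (r2.toO ^ e) (frobI_pow (ringChar k) h1)) fun z => ?_)
    have h2 := semi hf.1 (m1 z).1 (m2 z).1 (m2 z).2
    rw [mul_inv_cancel_left, ex_eq (mul_mem hb z.1.1.2.1), ex_eq (m1 z).1, ← eps_neg] at h2
    change _ = F.1 z.1.1 ^ ringChar k
    rw [hF]
    exact h2.symm
  have all := hG.gen_minus hy (K := stab S) (fun b hb => minus b hb.1 (Uu_le_Pn _ hb.2))
    (fun t ht => minus t (hG.le ht) (Dn_le_Pn _ (hG.tor.le ht))) fun y0 a b hs g hg =>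
      ⟨hg.1.1, fun f hf => ⟨HH_stable hG hy C ⟨_, he⟩ hf.1 _, fun F hF => by
        obtain ⟨R⟩ := hG.exists_rk1 hy.1 hs
        obtain ⟨Ψ, hΨ⟩ := exists_Ψ hf.1 R
        obtain ⟨hd, -⟩ := key hG hy C he hf.1 hs R hΨ
        obtain ⟨ν, hν, hν'⟩ := exists_ν hG C hs R hg.1.1 hg.2.1
        have m1 : ∀ z : (G ⊓ Uu y0 : Subgroup (GL n k)) × k, z.1.1 * R.x z.2 ∈ G ⊓ Uu y :=
          fun z => mul_mem ⟨z.1.2.1, R.le_Uu z.1.2⟩ (R.x_mem _).1
        have h1 := coeff_mem_frobI (ringChar k) r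
          ((IsReg.mul (by fun_prop) (R.x_reg.comp isReg_snd)).subtypeMk m1) 1
          (F := hf.1.2.2.toO) (Ψ := Ψ) (by
            convert hf.2 hf.1.2.2.toO fun _ => rfl
            simp [R.x_zero]) fun u d => by rw [← hΨ, ex_eq (m1 (u, d)).1]; rfl
        have hc : IsReg fun u : (G ⊓ Uu y : Subgroup (GL n k)) => R.co (g * lev y0 u.1) :=
          R.co_reg.comp ((isReg_const g).mul (isReg_val.lev fun u => R.le_Pn u.2))
        have e1 : F = ∑ j ∈ Finset.range (ringChar k ^ r), pull ν hν (Ψ.coeff j) * hc.toO ^ j := by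
          refine O_ext fun u => ?_
          have h2 := hΨ (ν u) (R.co (g * lev y0 u.1))
          rw [R.x_co _ (mul_mem hg (lev_mem' hG C hs R u.2)), hν',
            show g * (u.1 * (lev y0 u.1)⁻¹) * g⁻¹ * (g * lev y0 u.1) = g * u.1 by group,
            ex_eq (mul_mem hg.1.1 u.2.1), Polynomial.eval_eq_sum_range' (n := ringChar k ^ r)
              (Polynomial.natDegree_map_le.trans_lt (by omega))] at h2
          rw [hF, ← ev_apply, map_sum]
          refine h2.trans (Finset.sum_congr rfl fun j _ => ?_)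
          rw [Polynomial.coeff_map]; rfl
        rw [e1]
        refine sum_mem fun j hj => Ideal.mul_mem_right _ _ (frobI_map (pull ν hν).toRingHom
          (fun φ hφ => mem_mx.2 ?_) _ (h1 j (Finset.mem_range.1 hj)))
        rw [← mem_mx.1 hφ]
        refine congrArg φ.1 (Subtype.ext ?_)
        rw [hν']
        simp [lev, cc_one]⟩⟩
  funext g
  obtain ⟨hg, h1⟩ := all g.2
  have h2 := h1 f hS
  exact (congrArg f (mul_one g)).symm.trans
    (mem_mx.1 (frobI_le hq (h2.2 h2.1.2.2.toO fun _ => rfl)))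

end ZipFG
end

-- merged part: Pool.Agent.Work.MP_5c492e_ag.Haboush
section
/-! Irreducibility of the Steinberg module and Haboush's theorem. -/

namespace ZipFG

open Function Set Matrix

namespace HaboushAux

section general
variable {k : Type} [Field k] {X : Type} [Reg k X]

lemma regV_exists_loc {W : Type*} [AddCommGroup W] [Module k W] {δ : X → k} (hδ : IsReg δ)
    {φ : Loc δ → W} (hφ : RegV φ) :
    ∃ (N : ℕ) (F : X → W), RegV F ∧ ∀ z : Loc δ, δ z.1.1 ^ N • φ z = F z.1.1 := by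
  induction hφ with
  | smul_const ha w =>
    obtain ⟨N, F, hF, h⟩ := IsReg.exists_loc hδ ha
    exact ⟨N, fun x => F x • w, regV_smul_const hF w, fun z => by
      rw [smul_smul, mul_comm, h]⟩
  | add _ _ ih ih' =>
    obtain ⟨N, F, hF, h⟩ := ih
    obtain ⟨N', F', hF', h'⟩ := ih'
    refine ⟨N + N', fun x => δ x ^ N' • F x + δ x ^ N • F' x,
      (RegV.smul (hδ.pow N') hF).add (RegV.smul (hδ.pow N) hF'), fun z => ?_⟩
    dsimp only
    rw [← h z, ← h' z, smul_add, smul_smul, smul_smul, ← pow_add, ← pow_add, add_comm N' N]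

lemma regV_act {Γ : Type} [Group Γ] [Reg k Γ] {A : Type} [CommRing A] [Algebra k A]
    {ρ : Γ →* (A →ₐ[k] A)} (hρ : RatAct ρ) {γ : X → Γ} (hγ : IsReg γ) {φ : X → A}
    (hφ : RegV φ) : RegV (fun x => ρ (γ x) (φ x)) := by
  induction hφ with
  | smul_const ha w =>
    exact (RegV.smul ha ((hρ w).comp hγ)).congr fun x => by rw [map_smul]
  | add _ _ ih ih' => exact (ih.add ih').congr fun x => by rw [map_add]

lemma root_eq [LF k] {a b : k} (h : a ^ ringChar k = b ^ ringChar k) : a = b :=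
  frobenius_inj k (ringChar k) h

end general

variable {k : Type} [Field k] [IsAlgClosed k] [LF k] {n : Type} [Fintype n] [DecidableEq n]
  {G T : Subgroup (GL n k)}

lemma exists_pol {y r : n → ℤ} {e : ℕ} {ι : Type} [Fintype ι] (C : Chart T (G ⊓ Uu y) ι)
    {f : G → k} (hf : f ∈ HH G y r e) :
    ∃ P : MvPolynomial ι k, ∀ c, f ⟨C.pt c, (C.pt_mem c).1⟩ = MvPolynomial.eval c P :=
  IsReg.exists_mvPoly (F := fun c => f ⟨C.pt c, (C.pt_mem c).1⟩)
    (hf.2.2.comp (C.pt_reg.subtypeMk C.pt_mem))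

lemma isS_left_one {y l : n → ℤ} {F : GL n k → k} (hF : IsS G T y l F) {u : GL n k}
    (hu : u ∈ G ⊓ Uu y) : F u = 1 := by
  simpa [eps_one] using hF.2 u hu 1 (one_mem _) 1 (one_mem _)

lemma isS_right_one {y l : n → ℤ} {F : GL n k → k} (hF : IsS G T y l F) {u : GL n k}
    (hu : u ∈ G ⊓ Uu (-y)) : F u = 1 := by
  simpa [eps_one] using hF.2 1 (one_mem _) 1 (one_mem _) u hu

lemma s_mem (hG : Good G T) {y l : n → ℤ} (hy : Gen T y) {e : ℕ} {σ : GL n k → k}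
    (hσ : IsS G T y l σ) {s : G → k} (hs : ∀ g, s g ^ ringChar k = σ g ^ e) :
    s ∈ HH G y l e := by
  have := hσ.1
  refine ⟨IsReg.congr (f := fun g : G => σ g ^ e) (by fun_prop) fun g => (hs g).symm,
    fun g b hb => ?_, (isReg_const (1 : k)).congr fun u => root_eq ?_⟩
  · rw [hs, hs, Subgroup.coe_mul, hσ.right hG hy ⟨b.2, hb⟩ g.2, mul_pow]
  · rw [hs, isS_left_one hσ u.2, one_pow, one_pow]

/-- A weight one component modulo an ideal. -/
lemma exists_fixed (hT : T ≤ Dn) (hle : T ≤ G) {A : Type} [CommRing A] [Algebra k A]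
    {ρ : G →* (A →ₐ[k] A)} (hρ : RatAct ρ) {I : Ideal A} {a : A} (ha : ∀ g, ρ g a - a ∈ I) :
    ∃ a0, (∀ t : G, (t : GL n k) ∈ T → ρ t a0 = a0) ∧ a - a0 ∈ I := by
  let c : T →* Module.End k A :=
    { toFun := fun t => (ρ (Subgroup.inclusion hle t)).toLinearMap
      map_one' := by rw [map_one, map_one]; rfl
      map_mul' := fun s t => by rw [map_mul, map_mul]; rfl }
  have hc : ∀ t v, c t v = ρ (Subgroup.inclusion hle t) v := fun _ _ => rfl
  have h1 : a ∈ ⨆ b : n → ℤ, Wt (fun t => c t) (fun t : T => eps b t) :=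
    mem_iSup_eps hT ((hρ a).comp (isReg_val.subtypeMk fun t => hle t.2))
  let V : Submodule k A :=
    { carrier := {v | ∀ t, c t v - v ∈ I}
      add_mem' := fun {u v} hu hv t => by
        simpa [map_add, add_sub_add_comm] using add_mem (hu t) (hv t)
      zero_mem' := fun t => by simp
      smul_mem' := fun r v hv t => by
        simpa [map_smul, smul_sub] using (I.restrictScalars k).smul_mem r (hv t) }
  have hV : ∀ t, ∀ v ∈ V, c t v ∈ V := fun t v hv t' => by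
    have := sub_mem (hv (t' * t)) (hv t)
    rwa [map_mul, sub_sub_sub_cancel_right] at this
  have h2 := le_iSup_wt_inf (c := fun t => c t) hV (S := univ) (v := a) (fun t => ha _)
    ((iSup_le fun b => le_iSup₂_of_le _ (mem_univ _) le_rfl :
      _ ≤ ⨆ χ ∈ (univ : Set (T → k)), Wt (fun t => c t) χ) h1)
  have h3 : (⨆ χ ∈ (univ : Set (T → k)), (Wt (fun t => c t) χ ⊓ V)) ≤
      Wt (fun t => c t) (fun _ => 1) ⊔ I.restrictScalars k := by
    refine iSup₂_le fun χ _ v hv => ?_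
    by_cases h : ∀ t, χ t = 1
    · exact Submodule.mem_sup_left fun t => by rw [hv.1 t, h t]
    · push Not at h
      obtain ⟨t, ht⟩ := h
      have h4 : (χ t - 1) • v ∈ I.restrictScalars k := by
        have := hv.2 t
        rwa [hv.1 t, ← one_smul k v, smul_smul, mul_one, ← sub_smul] at this
      exact Submodule.mem_sup_right (((I.restrictScalars k).smul_mem_iff (sub_ne_zero.2 ht)).1 h4)
  obtain ⟨a0, h0, i, hi, rfl⟩ := Submodule.mem_sup.1 (h3 h2)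
  exact ⟨a0, fun t ht => (h0 ⟨t, ht⟩).trans (one_smul k a0), by simpa using hi⟩

end HaboushAux

open HaboushAux

variable {k : Type} [Field k] [IsAlgClosed k] [LF k] {n : Type} [Fintype n] [DecidableEq n]
  {G T : Subgroup (GL n k)}

theorem HH_span (hG : Good G T) {y : n → ℤ} (hy : Gen T y) {ι : Type} [Fintype ι]
    (C : Chart T (G ⊓ Uu y) ι) {e r : ℕ} (he : 2 * e = ringChar k * (ringChar k ^ r - 1))
    {σ : GL n k → k} (hσ : IsS G T y (∑ i, C.wt i) σ) {s : G → k}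
    (hs : ∀ g, s g ^ ringChar k = σ g ^ e) :
    FiniteDimensional k (HH G y (∑ i, C.wt i) e) ∧
      HH G y (∑ i, C.wt i) e = Submodule.span k (range fun g x => s (g⁻¹ * x)) := by
  classical
  have hdvd : ringChar k ∣ 2 * e := he ▸ dvd_mul_right _ _
  have hsH : s ∈ HH G y (∑ i, C.wt i) e := s_mem hG hy hσ hs
  have htr : ∀ g : G, (fun x => s (g * x)) ∈ HH G y (∑ i, C.wt i) e :=
    fun g => HH_stable hG hy C hdvd hsH g
  have hle : Submodule.span k (range fun g x => s (g⁻¹ * x)) ≤ HH G y (∑ i, C.wt i) e := by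
    rw [Submodule.span_le]
    rintro _ ⟨g, rfl⟩
    exact htr g⁻¹
  constructor
  · choose pol hpol using fun f : HH G y (∑ i, C.wt i) e => exists_pol C f.2
    let L : HH G y (∑ i, C.wt i) e →ₗ[k] MvPolynomial ι k :=
      { toFun := pol
        map_add' := fun f g => MvPolynomial.funext fun c => by
          rw [map_add, ← hpol, ← hpol, ← hpol]; rfl
        map_smul' := fun a f => MvPolynomial.funext fun c => by
          rw [RingHom.id_apply, MvPolynomial.smul_eval, ← hpol, ← hpol]; rfl }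
    haveI := finite_quot_frobI (k := k) (ringChar k) (ι := ι) r
    refine Module.Finite.of_injective
      ((Ideal.Quotient.mkₐ k (frobI (MvPolynomial.idealOfVars ι k) (ringChar k ^ r))).toLinearMap
        ∘ₗ L) ?_
    rw [injective_iff_map_eq_zero]
    intro f hf
    exact Subtype.ext (HH_inj hG hy C he f.2 (hpol f) (Ideal.Quotient.eq_zero_iff_mem.1 hf))
  refine le_antisymm (fun f hf => ?_) hle
  obtain ⟨w, hw, hsame⟩ := hG.trans hy hy.neg
  have hwG : w ∈ G := hw.1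
  obtain ⟨P, hP⟩ := exists_pol C (htr ⟨w, hwG⟩⁻¹)
  have hP0 : P ∉ frobI (MvPolynomial.idealOfVars ι k) (ringChar k ^ r) := fun h => by
    have h1 := congrFun (HH_inj hG hy C he (htr ⟨w, hwG⟩⁻¹) hP h) ⟨w, hwG⟩
    have h2 := hs 1
    rw [inv_mul_cancel] at h1
    rw [h1, Subgroup.coe_one, isS_left_one hσ (one_mem _), one_pow, Pi.zero_apply,
      zero_pow (Fact.out : (ringChar k).Prime).ne_zero] at h2
    exact zero_ne_one h2
  have hd : ∀ i, 0 < C.wt i ⬝ᵥ y := C.pos (hG.cl.inf (zclosed_Uu y)) hy.1 inf_le_right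
  obtain ⟨c0, hc0, htop⟩ := exists_top (ringChar k) r (fun i => C.wt i ⬝ᵥ y) hd (P := P)
    (fun t c => by
      have ht : nu y t ∈ T := hy.1 t
      have h1 := C.conj_pt ht c
      simp only [eps_nu] at h1
      have ht' : w⁻¹ * nu y t * w ∈ T := by simpa using (Nm T).inv_mem hw.2 _ ht
      have hD : ∀ z : n → ℤ, ∀ x ∈ T, lev z x = x := fun z x hx =>
        lev_of_Zn (Dn_le_Zn z (hG.tor.le hx))
      have hu : w⁻¹ * C.pt c ∈ G := mul_mem (inv_mem hwG) (C.pt_mem c).1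
      apply root_eq
      rw [← hP, ← hP, mul_pow, hs, hs]
      change σ (w⁻¹ * C.pt _) ^ e = _ * σ (w⁻¹ * C.pt c) ^ e
      rw [← h1, show w⁻¹ * (nu y t * C.pt c * (nu y t)⁻¹) =
        (w⁻¹ * nu y t * w) * (w⁻¹ * C.pt c) * (nu y t)⁻¹ by group,
        hσ.right hG hy ⟨hG.le (inv_mem ht), Dn_le_Pn _ (hG.tor.le (inv_mem ht))⟩
          (mul_mem (hG.le ht') hu),
        hσ.left hG hy ⟨hG.le ht', Dn_le_Pn _ (hG.tor.le ht')⟩ hu, hD _ _ ht', hD _ _ (inv_mem ht),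
        hG.rho_w0 hy C hw hsame _ ht, eps_inv _ (hG.tor.le ht), inv_inv, eps_nu, ← mul_assoc,
        mul_pow, ← sq, ← pow_mul, he, sum_dotProduct, mul_comm (_ : ℤ), _root_.zpow_mul,
        zpow_natCast, ← pow_mul, mul_comm (ringChar k)]) hP0
  have hreg : ∀ i, IsReg (fun z : ι ⊕ ι → k =>
      C.x (C.pt (fun j => z (Sum.inl j)) * C.pt (fun j => z (Sum.inr j))) i) := fun i => by
    have := C.pt_reg
    exact (C.x_reg.comp (by fun_prop)).app i
  choose μ hμ using fun i => (hreg i).exists_mvPoly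
  let S : Submodule k (MvPolynomial ι k) :=
    { carrier := {Q | ∃ f' ∈ Submodule.span k (range fun g x => s (g⁻¹ * x)),
        ∀ c, f' ⟨C.pt c, (C.pt_mem c).1⟩ = MvPolynomial.eval c Q}
      add_mem' := by
        rintro _ _ ⟨f1, h1, h1'⟩ ⟨f2, h2, h2'⟩
        exact ⟨f1 + f2, add_mem h1 h2, fun c => by rw [map_add, ← h1', ← h2']; rfl⟩
      zero_mem' := ⟨0, zero_mem _, fun c => by simp⟩
      smul_mem' := by
        rintro a _ ⟨f1, h1, h1'⟩
        exact ⟨a • f1, Submodule.smul_mem _ a h1, fun c => by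
          rw [MvPolynomial.smul_eval, ← h1']; rfl⟩ }
  obtain ⟨Q, hQ⟩ := exists_pol C hf
  obtain ⟨Q', ⟨f', hf', hQ'⟩, hQQ⟩ := top_span (ringChar k) r μ
    (fun v i => by rw [← hμ]; simp [← Pi.zero_def, C.pt_zero, C.x_pt])
    (fun v i => by rw [← hμ]; simp [← Pi.zero_def, C.pt_zero, C.x_pt]) hc0 htop S
    (fun v => by
      let g : G := (⟨w, hwG⟩ : G)⁻¹ * ⟨C.pt v, (C.pt_mem v).1⟩
      obtain ⟨Q, hQ⟩ := exists_pol C (htr g)
      refine ⟨Q, ⟨fun x => s (g⁻¹⁻¹ * x), Submodule.subset_span ⟨g⁻¹, rfl⟩, by simpa using hQ⟩,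
        fun x => ?_⟩
      rw [← hQ, ← hP]
      simp only [← hμ, Sum.elim_inl, Sum.elim_inr]
      congr 1
      apply Subtype.ext
      change w⁻¹ * C.pt v * C.pt x = w⁻¹ * C.pt (C.x (C.pt v * C.pt x))
      rw [C.pt_x _ (mul_mem (C.pt_mem v) (C.pt_mem x)), mul_assoc]) Q
  have := HH_inj hG hy C he (sub_mem hf (hle hf')) (P := Q - Q')
    (fun c => by rw [map_sub, ← hQ, ← hQ']; rfl) hQQ
  rwa [sub_eq_zero.1 this]

/-- Haboush's theorem. -/
theorem Good.powRed (hG : Good G T) : PowRed G := by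
  intro A _ _ ρ hρ I hI a ha
  haveI : Aff G := hG.cl.affSub
  have hT : T ≤ Dn := hG.tor.le
  have hp : (ringChar k).Prime := Fact.out
  obtain ⟨y, hy, -⟩ := exists_gen (T := T) finite_empty (zero_mem _)
  have hch : ∀ z, z ∈ Yl T → ∃ d : ℕ, Nonempty (Chart T (G ⊓ Uu z) (Fin d)) := fun z hz =>
    exists_chart hT (hG.cl.inf (zclosed_Uu z)) (fun t ht u hu =>
      ⟨G.mul_mem (G.mul_mem (hG.le ht) hu.1) (G.inv_mem (hG.le ht)),
        conj_mem_Uu (Dn_le_Pn z (hT ht)) hu.2⟩) hz inf_le_right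
  obtain ⟨d, ⟨C⟩⟩ := hch y hy.1
  obtain ⟨d', ⟨C'⟩⟩ := hch (-y) hy.neg.1
  obtain ⟨σ, hσ, hσD⟩ := hG.exists_sigma hy C
  obtain ⟨a0, ha0, haa⟩ := exists_fixed hT hG.le hρ ha
  have ha1 : ∀ g, ρ g a0 - a0 ∈ I := fun g => by
    have := sub_mem (ha g) (sub_mem (hI g _ haa) haa)
    rw [map_sub] at this
    convert this using 1
    ring
  suffices h : ∃ D : ℕ, 0 < D ∧ ∃ b, (∀ g, ρ g b = b) ∧ a0 ^ D - b ∈ I by
    obtain ⟨D, hD, b, hb, h⟩ := h
    refine ⟨D, hD, b, hb, ?_⟩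
    have := add_mem (Ideal.mem_of_dvd I (sub_dvd_pow_sub_pow a a0 D) haa) h
    rwa [sub_add_sub_cancel] at this
  have hσr := hσ.1
  have hσG : IsReg (fun g : G => σ g) := hσr.comp isReg_val
  have hDr : IsReg (fun g : G => Dl y (g : GL n k)) := by fun_prop
  have huu : ∀ g : G, Dl y (g : GL n k) ≠ 0 → uu y (g : GL n k) ∈ G := fun g hg =>
    uu_mem_of hG.cl hG.irr (hG.nu_conj hy.1) g.2 hg
  obtain ⟨j, R, hR, hRx⟩ : ∃ (j : ℕ) (R : G → A), RegV R ∧
      ∀ (x : G) (h : Dl y (x : GL n k) ≠ 0), R x = σ x ^ j • ρ ⟨uu y x, huu x h⟩ a0 := by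
    have h1 : IsReg (fun z : Loc (fun g : G => Dl y (g : GL n k)) =>
        (⟨uu y z.1.1, huu _ (Loc.ne z)⟩ : G)) :=
      (IsReg.uu (e := fun z : Loc (fun g : G => Dl y (g : GL n k)) => z.1.2) (by fun_prop)
        (by fun_prop) fun z => z.2).subtypeMk _
    obtain ⟨N, F, hF, h⟩ := regV_exists_loc hDr ((hρ a0).comp h1)
    obtain ⟨N', H, hH, h'⟩ := exists_pow_eq_mul hσG hDr
      fun g hg => by_contra fun h0 => (hσD g g.2).1 h0 hg
    refine ⟨N' * N, fun x => H x ^ N • F x, RegV.smul (hH.pow N) hF, fun x hx => ?_⟩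
    rw [pow_mul, h', mul_pow, mul_smul]
    exact congrArg _ (h (Loc.mk' x hx)).symm
  have hdense : ∀ {S : Set G}, ZClosed S → (∀ x : G, Dl y (x : GL n k) ≠ 0 → x ∈ S) →
      ∀ x, x ∈ S := fun hS h x =>
    hS.zcl_subset (fun z hz => h z hz.2) (hG.irr.subgroup.dense hDr (mem_univ 1)
      (by rw [Subgroup.coe_one, Dl_one]; exact one_ne_zero) (mem_univ x))
  have hR1 : ∀ x b : G, (b : GL n k) ∈ Pn (-y) →
      R (x * b) = (eps (∑ i, C.wt i) (lev (-y) (b : GL n k)))⁻¹ ^ j • R x := fun x b hb => by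
    refine hdense (RegV.zclosed_eq (hR.comp (f := fun x => x * b) (by fun_prop))
      (RegV.smul (isReg_const _) hR)) (fun x hx => ?_) x
    have hx' : Dl y ((x * b : G) : GL n k) ≠ 0 := by
      rw [Subgroup.coe_mul, Dl_mul_right _ hb]; exact mul_ne_zero hx (Dl_ne_zero' hb)
    have e : uu y ((x * b : G) : GL n k) = uu y x := by
      have := uu_eq (uu_mem y (x : GL n k)) (mul_mem (uu_inv_mul_mem hx) hb)
      rwa [← mul_assoc, mul_inv_cancel_left] at this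
    change R (x * b) = (eps (∑ i, C.wt i) (lev (-y) (b : GL n k)))⁻¹ ^ j • R x
    rw [hRx _ hx', hRx _ hx, smul_smul, ← mul_pow, ← hσ.right hG hy ⟨b.2, hb⟩ x.2,
      show (⟨uu y ((x * b : G) : GL n k), huu _ hx'⟩ : G) = ⟨uu y x, huu x hx⟩ from Subtype.ext e,
      Subgroup.coe_mul]
  have hR2 : ∀ b x : G, (b : GL n k) ∈ Pn y →
      R (b * x) = (eps (∑ i, C.wt i) (lev y (b : GL n k)))⁻¹ ^ j • ρ b (R x) := fun b x hb => by
    refine hdense (RegV.zclosed_eq (hR.comp (f := fun x => b * x) (by fun_prop))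
      (RegV.smul (isReg_const _) (hR.map (ρ b).toLinearMap))) (fun x hx => ?_) x
    have hx' : Dl y ((b * x : G) : GL n k) ≠ 0 := by
      rw [Subgroup.coe_mul, Dl_mul_left hb]; exact mul_ne_zero (Dl_ne_zero hb) hx
    have ht : lev y (b : GL n k) ∈ T := hG.lev_mem hy ⟨b.2, hb⟩
    have e : uu y ((b * x : G) : GL n k) =
        (b : GL n k) * uu y (x : GL n k) * (lev y (b : GL n k))⁻¹ := by
      have h1 := mul_mem (mul_lev_inv_mem hb)
        (conj_mem_Uu (Dn_le_Pn y (hT ht)) (uu_mem y (x : GL n k)))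
      have := uu_eq h1 (mul_mem (Dn_le_Pn (-y) (hT ht)) (uu_inv_mul_mem hx))
      convert this using 1
      · congr 1; rw [Subgroup.coe_mul]; group
      · group
    have e' : (⟨uu y ((b * x : G) : GL n k), huu _ hx'⟩ : G) =
        b * ⟨uu y x, huu x hx⟩ * (⟨lev y b, hG.le ht⟩ : G)⁻¹ := Subtype.ext e
    change R (b * x) = (eps (∑ i, C.wt i) (lev y (b : GL n k)))⁻¹ ^ j • ρ b (R x)
    rw [hRx _ hx', hRx _ hx, map_smul, smul_smul, ← mul_pow, ← hσ.left hG hy ⟨b.2, hb⟩ x.2, e',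
      map_mul, map_mul, AlgHom.mul_apply, AlgHom.mul_apply, ha0 _ (inv_mem ht), Subgroup.coe_mul]
  have hR3 : ∀ x : G, R x - σ x ^ j • a0 ∈ I := fun x => by
    refine hdense (RegV.zclosed_mem (hR.sub (regV_smul_const (hσG.pow j) a0))
      (I.restrictScalars k)) (fun x hx => ?_) x
    change R x - σ x ^ j • a0 ∈ I.restrictScalars k
    rw [hRx _ hx, ← smul_sub]
    exact Submodule.smul_mem _ _ (ha1 _)
  obtain ⟨e, he⟩ : ∃ e, ringChar k * (ringChar k ^ (2 * j + 1) - 1) = 2 * e := by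
    rcases hp.eq_two_or_odd' with h | h
    · exact ⟨_, by rw [h]⟩
    · exact ((Nat.Odd.sub_odd h.pow odd_one).two_dvd).mul_left _
  have hje : j * ringChar k ≤ e := by
    have h1 : 2 * j + 1 < ringChar k ^ (2 * j + 1) := Nat.lt_pow_self hp.one_lt
    have h2 : ringChar k * (2 * j) ≤ 2 * e := he ▸ Nat.mul_le_mul_left _ (by omega)
    nlinarith
  have hdvd : ringChar k ∣ 2 * e := he ▸ dvd_mul_right _ _
  obtain ⟨m, rfl⟩ := Nat.exists_eq_add_of_le hje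
  choose s1 hs1 using fun g : G => IsAlgClosed.exists_pow_nat_eq (σ g ^ m) hp.pos
  have hs2 : ∀ g : G, σ g = 1 → s1 g = 1 := fun g h => root_eq (by rw [hs1, h, one_pow, one_pow])
  have hs : ∀ g : G, (σ g ^ j * s1 g) ^ ringChar k = σ g ^ (j * ringChar k + m) := fun g => by
    rw [mul_pow, hs1, ← pow_mul, pow_add]
  have hσ' : IsS G T (-y) (∑ i, C'.wt i) (fun g => σ g⁻¹) :=
    ⟨by fun_prop, fun u hu t ht v hv => by
      rw [neg_neg] at hv
      dsimp only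
      rw [_root_.mul_inv_rev, _root_.mul_inv_rev, ← mul_assoc,
        hσ.2 _ (inv_mem hv) _ (inv_mem ht) _ (inv_mem hu), hG.rho_neg hy C C' t ht,
        eps_inv _ (hT ht)]⟩
  obtain ⟨hfd, hsp⟩ := HH_span hG hy C he.symm hσ hs
  obtain ⟨-, hsp'⟩ := HH_span hG hy.neg C' he.symm hσ' (s := fun g => σ g⁻¹ ^ j * s1 g⁻¹)
    fun g => hs g⁻¹
  rw [hsp] at hfd
  refine det_trick ρ (fun g : G => σ g ^ j * s1 g) ⟨1, fun h => ?_⟩ (fun g => s1 g • R g)
    (fun η g => ?_) (fun η x => ?_) I a0 fun g x => ?_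
  · have := hs 1
    rw [h, zero_pow hp.ne_zero, Subgroup.coe_one, isS_left_one hσ (one_mem _), one_pow] at this
    exact zero_ne_one this
  · rw [← hsp]
    refine HH_stable hG hy C hdvd (f := fun x => η (ρ g (s1 x • R x))) ?_ g⁻¹
    have h1 : IsReg fun x => η (ρ g (R x)) := (hR.map (ρ g).toLinearMap).lin η
    simp only [map_smul, smul_eq_mul]
    refine ⟨((hσG.pow m).mul (h1.pow (ringChar k))).congr
      fun x => by rw [mul_pow, hs1], fun x b hb => ?_,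
      (h1.comp (isReg_val.subtypeMk fun u => u.2.1)).congr fun u => ?_⟩
    · rw [mul_pow, mul_pow, hs1, hs1, hR1 x b hb, map_smul, map_smul, smul_eq_mul,
        Subgroup.coe_mul, hσ.right hG hy ⟨b.2, hb⟩ x.2]
      ring
    · exact ((congrArg (· * _) (hs2 ⟨u, u.2.1⟩ (isS_left_one hσ u.2))).trans (one_mul _)).symm
  · have h0 : (fun g : G => η (ρ x (ρ g (s1 g⁻¹ • R g⁻¹)))) ∈
        HH G (-y) (∑ i, C'.wt i) (j * ringChar k + m) := by
      have h1 : IsReg fun g : G => η (ρ x (ρ g (R g⁻¹))) :=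
        ((regV_act hρ isReg_id (hR.comp (by fun_prop))).map (ρ x).toLinearMap).lin η
      simp only [map_smul, smul_eq_mul]
      refine ⟨(((hσG.comp isReg_id.inv).pow m).mul (h1.pow (ringChar k))).congr
        fun x => by rw [mul_pow, hs1], fun g b hb => ?_,
        (h1.comp (isReg_val.subtypeMk fun u => u.2.1)).congr fun u => ?_⟩
      · rw [neg_neg] at hb ⊢
        have ht : lev y (b : GL n k) ∈ T := hG.lev_mem hy ⟨b.2, hb⟩
        rw [mul_pow, mul_pow, hs1, hs1, _root_.mul_inv_rev, hR2 b⁻¹ g⁻¹ (inv_mem hb), map_smul,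
          map_smul, map_smul, smul_eq_mul, Subgroup.coe_mul,
          hσ.left hG hy ⟨(b⁻¹).2, (Pn y).inv_mem hb⟩ (g⁻¹).2, ← AlgHom.mul_apply (ρ (g * b)),
          ← map_mul, mul_inv_cancel_right, hG.rho_neg hy C C' _ ht, Subgroup.coe_inv, lev_inv hb,
          eps_inv _ (hT ht)]
        ring
      · exact ((congrArg (· * _) (hs2 (⟨u, u.2.1⟩ : G)⁻¹
          (isS_right_one hσ (inv_mem u.2)))).trans (one_mul _)).symm
    have h2 := HH_stable hG hy.neg C' hdvd h0 x⁻¹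
    rw [hsp'] at h2
    convert h2 using 2 with g
    · exact congrArg range (funext fun x => funext fun g => by simp)
    · rw [← AlgHom.mul_apply (ρ x), ← map_mul]
      simp
  · have h1 : ρ g (R x) - σ x ^ j • a0 ∈ I.restrictScalars k := by
      have := add_mem (hI g _ (hR3 x)) ((I.restrictScalars k).smul_mem (σ x ^ j) (ha1 g))
      rwa [map_sub, map_smul, smul_sub, sub_add_sub_cancel] at this
    have := (I.restrictScalars k).smul_mem (s1 x) h1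
    rwa [smul_sub, smul_smul, mul_comm, ← map_smul] at this

theorem fixProp_Uu (hG : ZClosed (G : Set (GL n k))) {y : n → ℤ} (hy : ∀ t, nu y t ∈ G) :
    FixProp ((G ⊓ Uu y).subgroupOf G) := by
  intro W _ _ _ _ ρ hρ
  have hi : Irr (univ : Set (G ⊓ Uu y : Subgroup (GL n k))) :=
    (irr_inf_Uu hG fun t g hg => mul_mem (mul_mem (hy t) hg) (inv_mem (hy t))).subgroup
  haveI : Group.IsSolvable (G ⊓ Uu y : Subgroup (GL n k)) :=
    solvable_of_tri (y := y) (inf_le_right.trans (Uu_le_Pn y)) fun g hg => by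
      rw [lev_Uu hg.2]; exact one_mem _
  obtain ⟨v, hv, h⟩ := lie_kolchin hi (RatRep.comp (ρ := ρ) hρ
    (Subgroup.inclusion (inf_le_left : G ⊓ Uu y ≤ G)) (isReg_val.subtypeMk fun t => t.2.1))
  refine ⟨v, hv, fun u hu => ?_⟩
  obtain ⟨a, ha⟩ := h ⟨u, hu⟩
  exact Un.eigen (g := u) (un_subgroup (Uu_un hu.2)) ρ ha

end ZipFG
end

-- merged part: Pool.Agent.Work.MP_5c492e_ag.Main
section
/-! Finite generation of the invariants of the unipotent zip group. -/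

namespace ZipFG

open Function Set Matrix

namespace MainAux

section general

variable {k : Type} [Field k] {Γ : Type} [Group Γ] [Reg k Γ]

/-- The restriction of an action to a stable subalgebra. -/
def res {R : Type} [CommRing R] [Algebra k R] (ρ : Γ →* (R →ₐ[k] R)) (A : Subalgebra k R)
    (hA : ∀ g, ∀ a ∈ A, ρ g a ∈ A) : Γ →* (A →ₐ[k] A) where
  toFun g := ((ρ g).comp A.val).codRestrict A fun a => hA g a.1 a.2
  map_one' := AlgHom.ext fun a => Subtype.ext (by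
    change ρ 1 a.1 = a.1
    rw [map_one]; rfl)
  map_mul' g h := AlgHom.ext fun a => Subtype.ext (by
    change ρ (g * h) a.1 = ρ g (ρ h a.1)
    rw [map_mul]; rfl)

lemma ratAct_res {R : Type} [CommRing R] [Algebra k R] {ρ : Γ →* (R →ₐ[k] R)} (hρ : RatAct ρ)
    (A : Subalgebra k R) (hA : ∀ g, ∀ a ∈ A, ρ g a ∈ A) : RatAct (res ρ A hA) := fun a =>
  RegV.of_injective A.val.toLinearMap Subtype.val_injective (hρ a.1)

omit [Reg k Γ] in
lemma map_invs_res {R : Type} [CommRing R] [Algebra k R] (ρ : Γ →* (R →ₐ[k] R))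
    (A : Subalgebra k R) (hA : ∀ g, ∀ a ∈ A, ρ g a ∈ A) (U : Subgroup Γ) :
    (invs (res ρ A hA) U).map A.val = A ⊓ invs ρ U := by
  ext a
  constructor
  · rintro ⟨b, hb, rfl⟩
    exact ⟨b.2, fun g hg => congrArg Subtype.val (hb g hg)⟩
  · rintro ⟨h1, h2⟩
    exact ⟨⟨a, h1⟩, fun g hg => Subtype.ext (h2 g hg), rfl⟩

variable [RegMul Γ] [RegInv Γ]

lemma gross_sub [IsAlgClosed k] [LF k] (hP : PowRed Γ) {U : Subgroup Γ} (hU : FixProp U)
    {R : Type} [CommRing R] [IsDomain R] [Algebra k R] [Algebra.FiniteType k R]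
    {ρ : Γ →* (R →ₐ[k] R)} (hρ : RatAct ρ) {A : Subalgebra k R} (hA : ∀ g, ∀ a ∈ A, ρ g a ∈ A)
    (h : (A ⊓ invs ρ U).FG) : A.FG := by
  rw [← map_invs_res ρ A hA] at h
  exact (Subalgebra.fg_iff_finiteType A).2 (grosshans_converse (ringChar k) hP U hU _
    (ratAct_res hρ A hA) A.val Subtype.val_injective
    (Subalgebra.fg_of_fg_map _ A.val Subtype.val_injective h))

lemma transfer_sub (hP : PowRed Γ) {U : Subgroup Γ} (hC : (invs (rightAct Γ) U).FG)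
    {R : Type} [CommRing R] [Algebra k R] {ρ : Γ →* (R →ₐ[k] R)} (hρ : RatAct ρ)
    {A : Subalgebra k R} (hA : ∀ g, ∀ a ∈ A, ρ g a ∈ A) (h : A.FG) : (A ⊓ invs ρ U).FG := by
  rw [← map_invs_res ρ A hA]
  haveI := (Subalgebra.fg_iff_finiteType A).1 h
  exact (transfer_fg hP U hC _ (ratAct_res hρ A hA)).map _

variable {Δ : Type} [Group Δ] [Reg k Δ] [RegMul Δ] [RegInv Δ]

/-- The action by left and right translations along two homomorphisms. -/
def bi {Γ : Type} [Group Γ] (a b : Γ →* Δ) : Γ →* (Oo Δ →ₐ[k] Oo Δ) where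
  toFun l := pull (fun x => (a l)⁻¹ * x * b l) (by fun_prop)
  map_one' := AlgHom.ext fun F => O_ext fun x => by simp
  map_mul' g h := AlgHom.ext fun F => O_ext fun x => by
    change F.1 ((a (g * h))⁻¹ * x * b (g * h)) = F.1 ((a h)⁻¹ * ((a g)⁻¹ * x * b g) * b h)
    simp [mul_assoc]

@[simp] lemma bi_apply {Γ : Type} [Group Γ] (a b : Γ →* Δ) (l : Γ) (F : Oo Δ) (x : Δ) :
    (bi a b l F).1 x = F.1 ((a l)⁻¹ * x * b l) := rfl

lemma fg_of_iff {R : Type} [CommRing R] [Algebra k R] {A B : Subalgebra k R} (h : B.FG)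
    (e : ∀ F, F ∈ A ↔ F ∈ B) : A.FG := by
  rwa [SetLike.ext e]

omit [RegMul Γ] in
lemma ratAct_bi {a b : Γ →* Δ} (ha : IsReg a) (hb : IsReg b) : RatAct (bi a b) := fun F =>
  IsReg.curryO (F := fun p : Γ × Δ => F.1 ((a p.1)⁻¹ * p.2 * b p.1))
    ((isReg_coe F).comp (((ha.comp isReg_fst).inv.mul isReg_snd).mul (hb.comp isReg_fst)))
    fun _ _ => rfl

/-- The stabiliser of a function under two-sided translations. -/
def St (F : Oo Δ) : Subgroup (Δ × Δ) where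
  carrier := {p | ∀ x, F.1 (p.1 * x * p.2⁻¹) = F.1 x}
  one_mem' x := by simp
  mul_mem' {p q} hp hq x := by
    have := (hp (q.1 * x * q.2⁻¹)).trans (hq x)
    simpa [mul_assoc] using this
  inv_mem' {p} hp x := by
    have := hp (p.1⁻¹ * x * p.2)
    simpa [mul_assoc] using this.symm

lemma mem_invs_bi {Γ : Type} [Group Γ] {a b : Γ →* Δ} {U : Subgroup Γ} {F : Oo Δ} :
    F ∈ invs (bi a b) U ↔ ∀ l ∈ U, (a l, b l) ∈ St F := by
  refine forall₂_congr fun l _ => ?_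
  rw [← inv_mem_iff]
  exact ⟨fun h x => by simpa using congrArg (fun F : Oo Δ => F.1 x) h,
    fun h => O_ext fun x => by simpa using h x⟩

lemma mem_St_bi {Γ : Type} [Group Γ] {a b : Γ →* Δ} {F : Oo Δ} {l : Γ} {p : Δ × Δ}
    (h : ((a l)⁻¹ * p.1 * a l, (b l)⁻¹ * p.2 * b l) ∈ St F) : p ∈ St (bi a b l F) := fun x => by
  have := h ((a l)⁻¹ * x * b l)
  change F.1 ((a l)⁻¹ * (p.1 * x * p.2⁻¹) * b l) = F.1 ((a l)⁻¹ * x * b l)
  simpa [mul_assoc] using this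

end general

variable {k : Type} [Field k] [LF k] {n : Type} [Fintype n] [DecidableEq n]
  {G T : Subgroup (GL n k)}

lemma mem_relInv {S : Set (GL n k × GL n k)} (hS : ∀ p ∈ S, p.1 ∈ G ∧ p.2 ∈ G) {F : Oo G} :
    F ∈ relInv G S ↔ ∀ u v : G, (u.1, v.1) ∈ S → (u, v) ∈ St F :=
  ⟨fun h u v hp x => h _ hp x _ rfl, fun h p hp x x' e => by
    have := h ⟨p.1, (hS p hp).1⟩ ⟨p.2, (hS p hp).2⟩ hp x
    rwa [show x' = (⟨p.1, (hS p hp).1⟩ : G) * x * (⟨p.2, (hS p hp).2⟩ : G)⁻¹ from Subtype.ext e]⟩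

/-- Functions invariant under `H` on the left and `K` on the right. -/
def LR (G H K : Subgroup (GL n k)) : Subalgebra k (Oo G) := relInv G {p | p.1 ∈ H ∧ p.2 ∈ K}

lemma mem_LR {H K : Subgroup (GL n k)} (hH : H ≤ G) (hK : K ≤ G) {F : Oo G} :
    F ∈ LR G H K ↔ (∀ u : G, u.1 ∈ H → (u, 1) ∈ St F) ∧ ∀ v : G, v.1 ∈ K → (1, v) ∈ St F := by
  rw [LR, mem_relInv fun p hp => ⟨hH hp.1, hK hp.2⟩]
  refine ⟨fun h => ⟨fun u hu => h u 1 ⟨hu, K.one_mem⟩, fun v hv => h 1 v ⟨H.one_mem, hv⟩⟩,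
    fun h u v hp => ?_⟩
  simpa using mul_mem (h.1 u hp.1) (h.2 v hp.2)

lemma LR_stable {Γ : Type} [Group Γ] {H K : Subgroup (GL n k)} (hH : H ≤ G) (hK : K ≤ G)
    {a b : Γ →* G} (ha : ∀ l, ∀ u ∈ H, (a l).1⁻¹ * u * (a l).1 ∈ H)
    (hb : ∀ l, ∀ v ∈ K, (b l).1⁻¹ * v * (b l).1 ∈ K) (l : Γ) :
    ∀ F ∈ LR G H K, bi a b l F ∈ LR G H K := fun F hF => by
  rw [mem_LR hH hK] at hF ⊢
  exact ⟨fun u hu => mem_St_bi (by simpa using hF.1 ((a l)⁻¹ * u * a l) (ha l u hu)),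
    fun v hv => mem_St_bi (by simpa using hF.2 ((b l)⁻¹ * v * b l) (hb l v hv))⟩

lemma conj_mem {z : n → ℤ} {l u : GL n k} (hl : l ∈ G ⊓ Pn z) (hu : u ∈ G ⊓ Uu z) :
    l⁻¹ * u * l ∈ G ⊓ Uu z :=
  ⟨G.mul_mem (G.mul_mem (G.inv_mem hl.1) hu.1) hl.1, by
    simpa using conj_mem_Uu ((Pn z).inv_mem hl.2) hu.2⟩

variable [IsAlgClosed k]

lemma exists_refine (hG : Good G T) {m y : n → ℤ} (hm : m ∈ Yl T) (hy : Gen T y) :
    ∃ y', Gen T y' ∧ (Uu m : Subgroup (GL n k)) ≤ Uu y' ∧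
      (Pn m ⊓ Uu y : Subgroup (GL n k)) ≤ Uu y' ∧
      ∀ u ∈ G ⊓ Uu y', u * (lev m u)⁻¹ ∈ G ⊓ Uu m ∧ lev m u ∈ G ⊓ Zn m ⊓ Uu y := by
  obtain ⟨M, -, hM⟩ := exists_big m y
  have eqv : ∀ i j, m i = m j → (M • m + y) i - (M • m + y) j = y i - y j := fun i j h => by
    simp [h]
  have hne : ∀ {g : GL n k} {a b : n}, a ≠ b → (g.val - 1) a b = g.val a b := fun h => by
    simp [one_apply_ne h]
  refine ⟨M • m + y, ⟨add_mem (nsmul_mem hm M) hy.1, fun i j h => hy.2 i j ?_⟩, ?_, ?_, ?_⟩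
  · rcases lt_trichotomy (m i) (m j) with h' | h' | h'
    · exact absurd h (hM j i h').ne
    · have := eqv i j h'
      omega
    · exact absurd h (hM i j h').ne'
  · intro u hu
    refine mem_Uu.2 fun a b h => mem_Uu.1 hu a b ?_
    by_contra h'
    have := hM a b (by omega)
    omega
  · rintro u ⟨h1, h2⟩
    refine mem_Uu.2 fun a b h => ?_
    rcases lt_trichotomy (m a) (m b) with h' | h' | h'
    · rw [hne (by rintro rfl; omega)]
      exact mem_Pn.1 h1 a b (by omega)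
    · exact mem_Uu.1 h2 a b (by rw [← eqv a b h']; exact h)
    · have := hM a b h'
      omega
  · intro u hu
    have hP : u ∈ Pn m := mem_Pn.2 fun a b h => by
      rw [← hne (by rintro rfl; omega)]
      have := hM b a (by omega)
      exact mem_Uu.1 hu.2 a b (by omega)
    have hl := lev_mem (H := G ⊓ Uu (M • m + y)) (y := m) (hG.cl.inf (zclosed_Uu _))
      (fun t g hg => ⟨hG.nu_conj hm t g hg.1, conj_mem_Uu (Dn_le_Pn _ (nu_mem_Dn m t)) hg.2⟩)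
      ⟨hu, hP⟩
    refine ⟨⟨G.mul_mem hu.1 (G.inv_mem hl.1.1), mul_lev_inv_mem hP⟩, ⟨hl.1.1, hl.2⟩,
      mem_Uu.2 fun a b h => ?_⟩
    by_cases h' : m a = m b
    · exact mem_Uu.1 hl.1.2 a b (by rw [eqv a b h']; exact h)
    · rw [hne (by rintro rfl; exact h' rfl)]
      exact mem_Zn.1 hl.2 a b h'

lemma right_fg (hG : Good G T) {y : n → ℤ} (hy : Gen T y) :
    (invs (rightAct G) ((G ⊓ Uu y).subgroupOf G)).FG := by
  haveI := hG.cl.affSub
  haveI := hG.irr.subgroup.isDomain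
  have e : invs (rightAct G) ((G ⊓ Uu y).subgroupOf G) = LR G ⊥ (G ⊓ Uu y) := by
    ext F
    rw [mem_LR bot_le inf_le_left]
    refine ⟨fun h => ⟨fun u hu => ?_, fun v hv x => ?_⟩, fun h v hv => O_ext fun x => ?_⟩
    · rw [show u = 1 from Subtype.ext hu]; exact one_mem _
    · simpa using congrArg (fun F : Oo G => F.1 x) (h v⁻¹ (inv_mem hv))
    · simpa using h.2 v⁻¹ (inv_mem hv) x
  rw [e]
  refine gross_sub hG.powRed (fixProp_Uu hG.cl fun t => hG.le (hy.1 t))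
    (ratAct_bi (a := MonoidHom.id G) (b := 1) isReg_id (isReg_const 1))
    (LR_stable bot_le inf_le_left (fun l u hu => by simp [Subgroup.mem_bot.1 hu])
      fun l v hv => by simpa using hv) ?_
  refine fg_of_iff (hG.spherical hy hy) fun F => ?_
  rw [Algebra.mem_inf, mem_LR bot_le inf_le_left, mem_invs_bi]
  refine Iff.trans ?_ (mem_LR inf_le_left inf_le_left).symm
  exact ⟨fun h => ⟨h.2, h.1.2⟩, fun h => ⟨⟨fun u hu => by
    rw [show u = 1 from Subtype.ext hu]; exact one_mem _, h.2⟩, h.1⟩⟩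

end MainAux

variable {k : Type} [Field k] [IsAlgClosed k] [LF k] {n : Type} [Fintype n] [DecidableEq n]
  {G T : Subgroup (GL n k)}

open MainAux in
theorem main_fg (hG : Good G T) {m y : n → ℤ} (hm : m ∈ Yl T) (hy : Gen T y)
    (hB : G ⊓ Uu y ≤ Pn (-m)) (φ : GL n k →* GL n k) (hφ : IsReg φ) (hφG : ∀ g ∈ G, φ g ∈ G)
    (hφU : ∀ z, Gen T z → ∃ z', Gen T z' ∧ (G ⊓ Uu z).map φ = G ⊓ Uu z') :
    (relInv G {p | p.1 ∈ G ⊓ Uu y ∧ ∃ x ∈ G ⊓ Pn m, p.2 = φ x ∧ lev m x = lev (-m) p.1}).FG := by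
  haveI := hG.cl.affSub
  haveI := hG.irr.subgroup.isDomain
  have hL := hG.levi hm
  have hP := hL.powRed
  have hU := fixProp_Uu hL.cl (y := y) fun t => hL.le (hy.1 t)
  obtain ⟨y1, g1, a1, a2, a3⟩ := exists_refine hG (neg_mem hm) hy
  obtain ⟨y2, g2, b1, b2, b3⟩ := exists_refine hG hm hy
  obtain ⟨z, gz, ez⟩ := hφU y2 g2
  have e1 : G ⊓ Uu y = G ⊓ Uu y1 := hG.eq_of_le hy g1 fun u hu => a2 ⟨hB hu, hu.2⟩
  rw [← e1, Zn_neg] at a3
  have a4 : G ⊓ Uu (-m) ≤ G ⊓ Uu y := by rw [e1]; exact inf_le_inf_left _ a1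
  let ι : ↥(G ⊓ Zn m) →* G := Subgroup.inclusion inf_le_left
  let ψ : G →* G := (φ.comp G.subtype).codRestrict G fun g => hφG g g.2
  have hι : IsReg ι := isReg_of_val isReg_val
  have hψ : IsReg (ψ.comp ι) := isReg_of_val (hφ.comp isReg_val)
  have mapG : ∀ w : n → ℤ, (G ⊓ Uu w).map φ ≤ G := fun w => by
    rintro _ ⟨v, hv, rfl⟩; exact hφG v hv.1
  have nι : ∀ l, ∀ u ∈ G ⊓ Uu (-m), (ι l).1⁻¹ * u * (ι l).1 ∈ G ⊓ Uu (-m) := fun l u hu =>
    conj_mem ⟨l.2.1, l.2.2.2⟩ hu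
  have nψ : ∀ l, ∀ v ∈ (G ⊓ Uu m).map φ,
      (ψ.comp ι l).1⁻¹ * v * (ψ.comp ι l).1 ∈ (G ⊓ Uu m).map φ := by
    rintro l _ ⟨v, hv, rfl⟩
    exact ⟨_, conj_mem (l := l.1) ⟨l.2.1, l.2.2.1⟩ hv, by rw [map_mul, map_mul, map_inv]; rfl⟩
  have n1 : ∀ (K : Subgroup (GL n k)) (l : ↥(G ⊓ Zn m)), ∀ v ∈ K,
      ((1 : ↥(G ⊓ Zn m) →* G) l).1⁻¹ * v * ((1 : ↥(G ⊓ Zn m) →* G) l).1 ∈ K := fun K l v hv => by
    simpa using hv
  have f1 : (LR G (G ⊓ Uu (-m)) ((G ⊓ Uu y2).map φ)).FG := by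
    refine gross_sub hP hU (ratAct_bi (a := ι) (b := 1) hι (isReg_const 1))
      (LR_stable inf_le_left (mapG _) nι (n1 _)) ?_
    rw [ez]
    refine fg_of_iff (hG.spherical hy gz) fun F => ?_
    rw [Algebra.mem_inf, mem_LR inf_le_left inf_le_left, mem_invs_bi]
    refine Iff.trans ?_ (mem_LR inf_le_left inf_le_left).symm
    refine ⟨fun h => ⟨fun u hu => ?_, h.1.2⟩,
      fun h => ⟨⟨fun u hu => h.1 u (a4 hu), h.2⟩, fun l hl => h.1 _ ⟨l.2.1, hl.2⟩⟩⟩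
    obtain ⟨c1, c2⟩ := a3 u hu
    have := mul_mem (h.1.1 ⟨_, c1.1⟩ c1) (h.2 ⟨_, c2.1⟩ c2)
    convert this using 1
    exact Prod.ext (Subtype.ext (by simp [ι])) (by simp)
  have f2 : (LR G (G ⊓ Uu (-m)) ((G ⊓ Uu m).map φ)).FG := by
    refine gross_sub hP hU (ratAct_bi (a := 1) (b := ψ.comp ι) (isReg_const 1) hψ)
      (LR_stable inf_le_left (mapG _) (n1 _) nψ) ?_
    refine fg_of_iff f1 fun F => ?_
    rw [Algebra.mem_inf, mem_LR inf_le_left (mapG _), mem_LR inf_le_left (mapG _), mem_invs_bi]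
    refine ⟨fun h => ⟨h.1.1, ?_⟩,
      fun h => ⟨⟨h.1, fun v hv => h.2 v (Subgroup.map_mono (inf_le_inf_left _ b1) hv)⟩,
        fun l hl => h.2 _ ⟨l.1, ⟨l.2.1, b2 ⟨l.2.2.1, hl.2⟩⟩, rfl⟩⟩⟩
    rintro v ⟨u, hu, e⟩
    obtain ⟨c1, c2⟩ := b3 u hu
    have := mul_mem (h.1.2 (ψ ⟨_, c1.1⟩) ⟨_, c1, rfl⟩) (h.2 ⟨_, c2.1⟩ c2)
    convert this using 1
    refine Prod.ext (by simp) (Subtype.ext ?_)
    change v.1 = φ _ * φ _
    rw [← map_mul, ← e]
    simp [ι]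
  refine fg_of_iff (transfer_sub hP (right_fg hL hy) (ratAct_bi hι hψ)
    (LR_stable inf_le_left (mapG _) nι nψ) f2) fun F => ?_
  rw [Algebra.mem_inf, mem_LR inf_le_left (mapG _), mem_invs_bi,
    mem_relInv (by rintro p ⟨h1, x, hx, e, -⟩; exact ⟨h1.1, e ▸ hφG x hx.1⟩)]
  constructor
  · intro h
    refine ⟨⟨fun u hu => h u 1 ⟨a4 hu, 1, one_mem _, (map_one φ).symm, ?_⟩, ?_⟩,
      fun l hl => h _ _ ⟨⟨l.2.1, hl.2⟩, l.1, ⟨l.2.1, l.2.2.1⟩, rfl, ?_⟩⟩
    · rw [lev_Uu (one_mem _), lev_Uu hu.2]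
    · rintro v ⟨u, hu, e⟩
      refine h 1 v ⟨one_mem _, u, ⟨hu.1, Uu_le_Pn _ hu.2⟩, e.symm, ?_⟩
      rw [lev_Uu hu.2]
      exact (lev_Uu (one_mem _)).symm
    · rw [lev_of_Zn l.2.2]
      exact (lev_of_Zn (by rw [Zn_neg]; exact l.2.2)).symm
  · rintro h u v ⟨hu, x, hx, e, e'⟩
    obtain ⟨c1, c2⟩ := a3 u hu
    have c3 : x * (lev (-m) u.1)⁻¹ ∈ G ⊓ Uu m :=
      ⟨G.mul_mem hx.1 (G.inv_mem c2.1.1), e' ▸ mul_lev_inv_mem hx.2⟩
    have := mul_mem (mul_mem (h.1.1 ⟨_, c1.1⟩ c1) (h.1.2 (ψ ⟨_, c3.1⟩) ⟨_, c3, rfl⟩))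
      (h.2 ⟨_, c2.1⟩ c2)
    convert this using 1
    refine Prod.ext (Subtype.ext (by simp [ι])) (Subtype.ext ?_)
    change v.1 = 1 * φ _ * φ _
    rw [one_mul, ← map_mul]
    simpa [ι] using e

end ZipFG
end

-- merged part: Pool.Agent.Work.MP_5c492e_ag.Tri
section
/-! Triangular groups: frames, maximal tori, conjugacy. -/

namespace ZipFG

open Function Set Matrix

variable {k : Type} [Field k] [LF k] {n : Type} [Fintype n] [DecidableEq n]

/-- The triangular group of a frame. -/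
def PF (h : GL n k) (l : n → ℤ) : Subgroup (GL n k) := (Pn l).comap (MulAut.conj h).toMonoidHom

/-- The unitriangular group of a frame. -/
def UF (h : GL n k) (l : n → ℤ) : Subgroup (GL n k) := (Uu l).comap (MulAut.conj h).toMonoidHom

lemma mem_PF {h g : GL n k} {l : n → ℤ} : g ∈ PF h l ↔ h * g * h⁻¹ ∈ Pn l := Iff.rfl

lemma mem_UF {h g : GL n k} {l : n → ℤ} : g ∈ UF h l ↔ h * g * h⁻¹ ∈ Uu l := Iff.rfl

/-- `T` is maximal among the connected commutative subgroups of semisimple elements of `G`. -/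
def MaxT (G T : Subgroup (GL n k)) : Prop :=
  ∀ A : Subgroup (GL n k), Irr (A : Set (GL n k)) → (∀ a ∈ A, Ss k a) →
    (∀ a ∈ A, ∀ b ∈ A, a * b = b * a) → T ≤ A → A ≤ G → A ≤ T

lemma MaxT.mono {G G' T : Subgroup (GL n k)} (h : MaxT G T) (hG : G' ≤ G) : MaxT G' T :=
  fun A h1 h2 h3 h4 h5 => h A h1 h2 h3 h4 (h5.trans hG)

variable {h : GL n k} {l : n → ℤ} {B T : Subgroup (GL n k)}

theorem UF_le_PF : UF h l ≤ PF h l := fun _ hg => Uu_le_Pn l hg

theorem zclosed_PF : ZClosed (PF h l : Set (GL n k)) :=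
  (zclosed_Pn l).preimage (f := fun g => h * g * h⁻¹) (by fun_prop)

theorem zclosed_UF : ZClosed (UF h l : Set (GL n k)) :=
  (zclosed_Uu l).preimage (f := fun g => h * g * h⁻¹) (by fun_prop)

theorem UF_un {g : GL n k} (hg : g ∈ UF h l) : Un k g := (Uu_un (ZipFG.mem_UF.1 hg)).of_conj

theorem Un.mem_UF (hl : Injective l) {g : GL n k} (hg : g ∈ PF h l) (hu : Un k g) :
    g ∈ UF h l :=
  Un.mem_Uu hg (hu.conj h) (Zn_le_Dn hl (lev_mem_Zn hg))

theorem conj_mem_UF {g u : GL n k} (hg : g ∈ PF h l) (hu : u ∈ UF h l) :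
    g * u * g⁻¹ ∈ UF h l := by
  have := conj_mem_Uu (mem_PF.1 hg) (mem_UF.1 hu)
  rw [mem_UF]
  simpa [mul_assoc] using this

theorem comm_mem_UF (hl : Injective l) {g g' : GL n k} (hg : g ∈ PF h l) (hg' : g' ∈ PF h l) :
    g * g' * g⁻¹ * g'⁻¹ ∈ UF h l := by
  have := commutator_mem_Uu (mem_PF.1 hg) (mem_PF.1 hg') (Zn_le_Dn hl (lev_mem_Zn hg))
    (Zn_le_Dn hl (lev_mem_Zn hg'))
  rw [mem_UF]
  simpa [mul_assoc] using this

theorem solvable_of_le_PF (hl : Injective l) (hB : B ≤ PF h l) : Group.IsSolvable B := by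
  haveI := solvable_of_tri (H := Pn (k := k) l) le_rfl fun g hg => Zn_le_Dn hl (lev_mem_Zn hg)
  exact solvable_conj (K := Pn l) (x := h) fun g hg => hB hg

namespace TriAux

/-- The diagonal part in a frame. -/
noncomputable def dg (h : GL n k) (l : n → ℤ) (b : GL n k) : GL n k :=
  h⁻¹ * lev l (h * b * h⁻¹) * h

lemma dg_mul {b c : GL n k} (hb : b ∈ PF h l) (hc : c ∈ PF h l) :
    dg h l (b * c) = dg h l b * dg h l c := by
  rw [dg, show h * (b * c) * h⁻¹ = h * b * h⁻¹ * (h * c * h⁻¹) by group,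
    lev_mul (mem_PF.1 hb) (mem_PF.1 hc), dg, dg]
  group

lemma dg_of_Dn {t : GL n k} (ht : h * t * h⁻¹ ∈ Dn) : dg h l t = t := by
  rw [dg, lev_of_Zn (Dn_le_Zn l ht)]
  group

lemma dg_UF {u : GL n k} (hu : u ∈ UF h l) : dg h l u = 1 := by
  rw [dg, lev_Uu (mem_UF.1 hu)]
  group

lemma dg_Dn (hl : Injective l) {b : GL n k} (hb : b ∈ PF h l) : h * dg h l b * h⁻¹ ∈ Dn := by
  simpa [dg, mul_assoc] using Zn_le_Dn hl (lev_mem_Zn (mem_PF.1 hb))

lemma mul_dg_inv {b : GL n k} (hb : b ∈ PF h l) : b * (dg h l b)⁻¹ ∈ UF h l := by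
  have := mul_lev_inv_mem (mem_PF.1 hb)
  rw [mem_UF]
  simpa [dg, mul_assoc] using this

lemma isReg_dg (hB : B ≤ PF h l) : IsReg fun b : B => dg h l b :=
  ((isReg_const _).mul (IsReg.lev (by fun_prop) fun b : B => mem_PF.1 (hB b.2))).mul (isReg_const _)

/-- The diagonal part as a homomorphism. -/
noncomputable def dgHom (h : GL n k) (l : n → ℤ) : PF h l →* GL n k where
  toFun b := dg h l b
  map_one' := dg_UF (one_mem _)
  map_mul' a b := dg_mul a.2 b.2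

lemma ss_of (hT : ∀ t ∈ T, h * t * h⁻¹ ∈ Dn) : ∀ t ∈ T, Ss k t := fun t ht =>
  (Dn_ss (hT t ht)).of_conj

lemma comm_of (hT : ∀ t ∈ T, h * t * h⁻¹ ∈ Dn) : ∀ a ∈ T, ∀ b ∈ T, a * b = b * a :=
  fun a ha b hb => by
    have := Dn_comm (hT a ha) (hT b hb)
    simp only [conj_mul, mul_left_inj, mul_right_inj] at this
    exact this

lemma lifts {A : Subgroup (GL n k)} (h1 : ∀ a ∈ A, Ss k a) (h2 : ∀ a ∈ A, ∀ b ∈ A, a * b = b * a)
    (σ σ' : A →* GL n k) (N : Subgroup (GL n k)) (hN : ∀ u ∈ N, Un k u)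
    (hσ : ∀ a, ∀ u ∈ N, σ' a * u * (σ' a)⁻¹ ∈ N) (h : ∀ a, σ' a * (σ a)⁻¹ ∈ N) :
    ∃ u ∈ N, ∀ a, σ' a = u * σ a * u⁻¹ := by
  letI : CommGroup A :=
    { (inferInstance : Group A) with mul_comm := fun a b => Subtype.ext (h2 a a.2 b b.2) }
  exact exists_conj_lifts (A := A) (fun a => ss_subgroup (h1 a.1 a.2)) σ σ' N hN hσ h

lemma conj_dg {A : Subgroup (GL n k)} (hA : A ≤ PF h l) (h1 : ∀ a ∈ A, Ss k a)
    (h2 : ∀ a ∈ A, ∀ b ∈ A, a * b = b * a) : ∃ u ∈ UF h l, ∀ a ∈ A, a = u * dg h l a * u⁻¹ := by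
  obtain ⟨u, hu, e⟩ := lifts h1 h2 ((dgHom h l).comp (Subgroup.inclusion hA)) A.subtype (UF h l)
    (fun u => UF_un) (fun a u hu => conj_mem_UF (hA a.2) hu) fun a => mul_dg_inv (hA a.2)
  exact ⟨u, hu, fun a ha => e ⟨a, ha⟩⟩

lemma cent (hl : Injective l) (hBP : B ≤ PF h l) {A : Subgroup (GL n k)} (hA : A ≤ B)
    (h1 : ∀ a ∈ A, Ss k a) (h2 : ∀ a ∈ A, ∀ b ∈ A, a * b = b * a) {s : GL n k} (hs : s ∈ PF h l)
    (hn : ∀ b ∈ B, s * b * s⁻¹ ∈ B) :
    ∃ u ∈ B ⊓ UF h l, ∀ t ∈ A, t * (u⁻¹ * s) = (u⁻¹ * s) * t := by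
  obtain ⟨u, hu, e⟩ := lifts h1 h2 A.subtype ((MulAut.conj s).toMonoidHom.comp A.subtype)
    (B ⊓ UF h l) (fun u hu => UF_un hu.2)
    (fun a u hu => ⟨B.mul_mem (B.mul_mem (hn _ (hA a.2)) hu.1) (B.inv_mem (hn _ (hA a.2))),
      conj_mem_UF (hBP (hn _ (hA a.2))) hu.2⟩)
    fun a => ⟨B.mul_mem (hn _ (hA a.2)) (B.inv_mem (hA a.2)), comm_mem_UF hl hs (hBP (hA a.2))⟩
  refine ⟨u, hu, fun t ht => ?_⟩
  have : s * t * s⁻¹ = u * t * u⁻¹ := e ⟨t, ht⟩
  calc t * (u⁻¹ * s) = u⁻¹ * (u * t * u⁻¹) * s := by group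
    _ = _ := by rw [← this]; group

end TriAux

/-- A commutative triangular group of semisimple elements is diagonal in a suitable frame. -/
theorem exists_frame (hl : Injective l) {A : Subgroup (GL n k)} (hA : A ≤ PF h l)
    (h1 : ∀ a ∈ A, Ss k a) (h2 : ∀ a ∈ A, ∀ b ∈ A, a * b = b * a) :
    ∃ u ∈ Uu (k := k) l, ∀ a ∈ A, (u * h) * a * (u * h)⁻¹ ∈ Dn := by
  obtain ⟨u, hu, e⟩ := TriAux.conj_dg hA h1 h2
  refine ⟨h * u⁻¹ * h⁻¹, (UF h l).inv_mem hu, fun a ha => ?_⟩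
  have := TriAux.dg_Dn hl (hA ha)
  rw [e a ha]
  simpa [mul_assoc] using this

/-- A connected triangular group is the product of a maximal torus and its connected unipotent
part. -/
theorem btu (hl : Injective l) (hB : Irr (B : Set (GL n k))) (hBP : B ≤ PF h l) (hTB : T ≤ B)
    (hT : ∀ t ∈ T, h * t * h⁻¹ ∈ Dn) (hm : MaxT B T) :
    (∀ b ∈ B, ∃ t ∈ T, b * t⁻¹ ∈ UF h l) ∧
      Irr ((B ⊓ UF h l : Subgroup (GL n k)) : Set (GL n k)) := by
  obtain ⟨A, ⟨a1, a2, a3, a4⟩, hmin⟩ := exists_minimal_closed (X := GL n k)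
    (fun A : Subgroup (GL n k) => (∀ a ∈ A, Ss k a) ∧ (∀ a ∈ A, ∀ b ∈ A, a * b = b * a) ∧
      T ≤ A ∧ A ≤ B) (fun A => {g | ∀ a ∈ A, a * g = g * a})
    (fun A _ => zclosed_forall fun a => zclosed_forall fun _ =>
      zclosed_eq (by fun_prop) (by fun_prop))
    ⟨T, TriAux.ss_of hT, TriAux.comm_of hT, le_rfl, hTB⟩
  have cen : ∀ s ∈ B, (∀ a ∈ A, a * s = s * a) → Ss k s →
      ∀ g, (∀ a ∈ A, a * g = g * a) → s * g = g * s := fun s hs hc hss g hg => by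
    have cm : ∀ a ∈ A, ∀ m : ℕ, Commute a (s ^ m) := fun a ha m => Commute.pow_right (hc a ha) m
    let A' : Subgroup (GL n k) := subOf
      { carrier := {g | ∃ a ∈ A, ∃ m : ℕ, g = a * s ^ m}
        mul_mem' := by
          rintro _ _ ⟨a, ha, m, rfl⟩ ⟨b, hb, m', rfl⟩
          exact ⟨a * b, A.mul_mem ha hb, m + m', by
            rw [pow_add, (cm b hb m).symm.mul_mul_mul_comm]⟩
        one_mem' := ⟨1, A.one_mem, 0, by simp⟩ }
    have le : A ≤ A' := fun a ha => ⟨a, ha, 0, by simp⟩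
    refine hmin A' ⟨?_, ?_, a3.trans le, ?_⟩ (fun g hg a ha => hg a (le ha)) hg s
      ⟨1, A.one_mem, 1, by simp⟩
    · rintro _ ⟨a, ha, m, rfl⟩
      obtain ⟨e, e0, e1⟩ := hss
      exact (a1 a ha).mul ⟨e, e0, by rw [← pow_mul, mul_comm, pow_mul, e1, one_pow]⟩ (cm a ha m)
    · rintro _ ⟨a, ha, m, rfl⟩ _ ⟨b, hb, m', rfl⟩
      exact (Commute.mul_right (a2 a ha b hb) (cm a ha m')).mul_left
        ((cm b hb m).symm.mul_right (Commute.pow_pow_self s m m'))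
    · rintro _ ⟨a, ha, m, rfl⟩
      exact B.mul_mem (a4 ha) (B.pow_mem hs m)
  let Z : Subgroup (GL n k) := subOf
    { carrier := {s | s ∈ B ∧ (∀ a ∈ A, a * s = s * a) ∧ Ss k s}
      mul_mem' := fun {s s'} hs hs' => ⟨B.mul_mem hs.1 hs'.1,
        fun a ha => Commute.mul_right (hs.2.1 a ha) (hs'.2.1 a ha),
        hs.2.2.mul hs'.2.2 (cen s hs.1 hs.2.1 hs.2.2 s' hs'.2.1)⟩
      one_mem' := ⟨B.one_mem, by simp, ss_one⟩ }
  have ZB : Z ≤ B := fun s hs => hs.1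
  have Z1 : ∀ s ∈ Z, Ss k s := fun s hs => hs.2.2
  have Z2 : ∀ s ∈ Z, ∀ s' ∈ Z, s * s' = s' * s := fun s hs s' hs' =>
    cen s hs.1 hs.2.1 hs.2.2 s' hs'.2.1
  have key : ∀ b ∈ B, ∃ s ∈ Z, TriAux.dg h l b = TriAux.dg h l s := fun b hb => by
    obtain ⟨u, hu, e⟩ := TriAux.cent hl hBP a4 a1 a2 (hBP hb)
      fun x hx => B.mul_mem (B.mul_mem hb hx) (B.inv_mem hb)
    obtain ⟨s, v, hs, hv, ms, mv, e'⟩ := exists_jordan (k := k) (isOfFinOrder_gl (u⁻¹ * b))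
    have le : Subgroup.zpowers (u⁻¹ * b) ≤ B ⊓ Subgroup.centralizer (A : Set (GL n k)) :=
      Subgroup.zpowers_le.2 ⟨B.mul_mem (B.inv_mem hu.1) hb, e⟩
    have p1 := hBP (le ms).1
    have p2 := hBP (le mv).1
    refine ⟨s, ⟨(le ms).1, (le ms).2, hs⟩, ?_⟩
    rw [inv_mul_eq_iff_eq_mul.1 e', TriAux.dg_mul (hBP hu.1) (mul_mem p1 p2), TriAux.dg_mul p1 p2,
      TriAux.dg_UF hu.2, TriAux.dg_UF (hv.mem_UF hl p2), one_mul, mul_one]
  have reg : IsReg fun b : B => TriAux.dg h l b := TriAux.isReg_dg hBP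
  obtain ⟨u0, -, e0⟩ := TriAux.conj_dg (ZB.trans hBP) Z1 Z2
  have ZT : Z ≤ T := hm Z (by
    convert hB.subgroup.range (f := fun b : B => u0 * TriAux.dg h l b * u0⁻¹) (by fun_prop) using 1
    refine Subset.antisymm (fun s hs => ⟨⟨s, ZB hs⟩, (e0 s hs).symm⟩) ?_
    rintro _ ⟨b, rfl⟩
    obtain ⟨s, hs, e⟩ := key b b.2
    simp only [e, ← e0 s hs]
    exact hs) Z1 Z2 (fun t ht => ⟨hTB ht, fun a ha => a2 a ha t (a3 ht), a1 t (a3 ht)⟩) ZB
  have mem : ∀ b ∈ B, TriAux.dg h l b ∈ T := fun b hb => by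
    obtain ⟨s, hs, e⟩ := key b hb
    rw [e, TriAux.dg_of_Dn (hT s (ZT hs))]
    exact ZT hs
  refine ⟨fun b hb => ⟨_, mem b hb, TriAux.mul_dg_inv (hBP hb)⟩, ?_⟩
  convert hB.subgroup.range (f := fun b : B => b.1 * (TriAux.dg h l b)⁻¹) (by fun_prop) using 1
  refine Subset.antisymm (fun u hu => ⟨⟨u, hu.1⟩, by simp [TriAux.dg_UF hu.2]⟩) ?_
  rintro _ ⟨b, rfl⟩
  exact ⟨B.mul_mem b.2 (B.inv_mem (hTB (mem b b.2))), TriAux.mul_dg_inv (hBP b.2)⟩

/-- Conjugacy of maximal tori in a connected triangular group. -/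
theorem conj_torus (hl : Injective l) (hB : Irr (B : Set (GL n k))) (hBP : B ≤ PF h l)
    (hTB : T ≤ B) (hT : ∀ t ∈ T, h * t * h⁻¹ ∈ Dn) (hm : MaxT B T) {g : GL n k}
    (hg : ∀ t ∈ T, g⁻¹ * t * g ∈ B) : ∃ u ∈ B ⊓ UF h l, g * u ∈ Nm T := by
  have mem : ∀ b ∈ B, TriAux.dg h l b ∈ T := fun b hb => by
    obtain ⟨t, ht, e⟩ := (btu hl hB hBP hTB hT hm).1 b hb
    rw [← inv_mul_cancel_right b t, TriAux.dg_mul (UF_le_PF e) (hBP (hTB ht)), TriAux.dg_UF e,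
      one_mul, TriAux.dg_of_Dn (hT t ht)]
    exact ht
  let σ : T →* GL n k := (MulAut.conj g⁻¹).toMonoidHom.comp T.subtype
  have e : ∀ t : T, σ t = g⁻¹ * t * g := fun t => by simp [σ]
  have hσ : ∀ t : T, σ t ∈ B := fun t => by rw [e]; exact hg t t.2
  obtain ⟨u, hu, e'⟩ := TriAux.lifts (TriAux.ss_of hT) (TriAux.comm_of hT)
    ((TriAux.dgHom h l).comp (σ.codRestrict _ fun t => hBP (hσ t))) σ (B ⊓ UF h l)
    (fun u hu => UF_un hu.2)
    (fun t u hu => ⟨B.mul_mem (B.mul_mem (hσ t) hu.1) (B.inv_mem (hσ t)),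
      conj_mem_UF (hBP (hσ t)) hu.2⟩)
    fun t => ⟨B.mul_mem (hσ t) (B.inv_mem (hTB (mem _ (hσ t)))), TriAux.mul_dg_inv (hBP (hσ t))⟩
  refine ⟨u, hu, (Nm T).inv_mem_iff.1 fun t ht => ?_⟩
  have a1 : σ ⟨t, ht⟩ = u * TriAux.dg h l (σ ⟨t, ht⟩) * u⁻¹ := e' ⟨t, ht⟩
  have a2 := mem _ (hσ ⟨t, ht⟩)
  generalize TriAux.dg h l (σ ⟨t, ht⟩) = d at a1 a2
  rw [e] at a1
  rwa [show (g * u)⁻¹ * t * (g * u)⁻¹⁻¹ = u⁻¹ * (g⁻¹ * t * g) * u by group, a1,
    show u⁻¹ * (u * d * u⁻¹) * u = d by group]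

theorem exists_cent (hl : Injective l) (hBP : B ≤ PF h l) (hTB : T ≤ B)
    (hT : ∀ t ∈ T, h * t * h⁻¹ ∈ Dn) {s : GL n k} (hs : s ∈ PF h l)
    (hn : ∀ b ∈ B, s * b * s⁻¹ ∈ B) :
    ∃ u ∈ B ⊓ UF h l, ∀ t ∈ T, t * (u⁻¹ * s) = (u⁻¹ * s) * t :=
  TriAux.cent hl hBP hTB (TriAux.ss_of hT) (TriAux.comm_of hT) hs hn

end ZipFG
end

-- merged part: Pool.Agent.Work.MP_5c492e_ag.Flag
section
/-! A linear model of the flag variety. -/

namespace ZipFG

open Function Set Matrix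

variable {k : Type} [Field k] [LF k] {n : Type} [Fintype n] [DecidableEq n]

/-- The stabiliser of a line. -/
def St {W : Type*} [AddCommGroup W] [Module k W] (ρ : GL n k →* Module.End k W) (v : W) :
    Subgroup (GL n k) := subOf
  { carrier := {g | ∃ a : k, ρ g v = a • v}
    mul_mem' := by
      rintro g g' ⟨a, ha⟩ ⟨b, hb⟩
      exact ⟨b * a, by rw [rep_mul, hb, map_smul, ha, smul_smul]⟩
    one_mem' := ⟨1, by simp⟩ }

lemma mem_St {W : Type*} [AddCommGroup W] [Module k W] {ρ : GL n k →* Module.End k W} {v : W}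
    {g : GL n k} : g ∈ St ρ v ↔ ∃ a : k, ρ g v = a • v := Iff.rfl

lemma mem_St_rep {W : Type*} [AddCommGroup W] [Module k W] {ρ : GL n k →* Module.End k W} {v : W}
    {g x : GL n k} : g ∈ St ρ (ρ x v) ↔ x⁻¹ * g * x ∈ St ρ v := by
  constructor
  · rintro ⟨a, ha⟩
    exact ⟨a, by rw [rep_mul, rep_mul, ha, map_smul, ← rep_mul, inv_mul_cancel, rep_one]⟩
  · rintro ⟨a, ha⟩
    refine ⟨a, ?_⟩
    rw [← map_smul, ← ha, ← rep_mul, ← rep_mul]
    congr 2
    group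

lemma St_smul {W : Type*} [AddCommGroup W] [Module k W] (ρ : GL n k →* Module.End k W) (v : W)
    {c : k} (hc : c ≠ 0) : St ρ (c • v) = St ρ v := by
  ext g
  simp only [mem_St, map_smul]
  refine exists_congr fun a => ?_
  rw [smul_comm a c, smul_right_inj hc]

/-- A closed orbit of `G` in the flag variety of `GL n`, with a base point fixed by `T`. -/
structure Flag (G T : Subgroup (GL n k)) (M d : ℕ) where
  ρ : GL n k →* Module.End k (Fin d → k)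
  wt : Fin d → n → ℤ
  v : Fin d → k
  l : n → ℤ
  h : GL n k
  μ : n → ℤ
  rat : RatRep ρ
  diag : ∀ t ∈ Dn, ∀ w i, ρ t w i = eps (wt i) t * w i
  v_ne : v ≠ 0
  closed : ZClosed (cone ρ G v)
  l_inj : Injective l
  hT : ∀ t ∈ T, h * t * h⁻¹ ∈ Dn
  stab : St ρ v = PF h l
  v_wt : ∀ t ∈ T, ρ t v = eps μ t • v
  sep : ∀ z : n → ℤ, (∀ i, |z i| ≤ M) → μ ⬝ᵥ z = 0 → z = 0

namespace FlagAux

/-- Left translation of functions. -/
def Lt : GL n k →* Module.End k (GL n k → k) where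
  toFun g := LinearMap.funLeft k k (fun x => g⁻¹ * x)
  map_one' := by ext; simp
  map_mul' g h := LinearMap.ext fun f => funext fun x => by
    change f ((g * h)⁻¹ * x) = f (h⁻¹ * (g⁻¹ * x))
    rw [_root_.mul_inv_rev, mul_assoc]

omit [LF k] in
lemma Lt_apply (g : GL n k) (f : GL n k → k) (x : GL n k) : Lt g f x = f (g⁻¹ * x) := rfl

/-- The span of the translates of `Dl l`. -/
def WW (k : Type) [Field k] {n : Type} [Fintype n] [DecidableEq n] (l : n → ℤ) :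
    Submodule k (GL n k → k) :=
  Submodule.span k (range fun g : GL n k => Lt g (Dl l))

omit [LF k] in
lemma regV_Lt (l : n → ℤ) : RegV (fun g : GL n k => Lt g (Dl l)) :=
  IsReg.curry (F := fun p : GL n k × GL n k => Dl l (p.1⁻¹ * p.2)) (by fun_prop)

instance (l : n → ℤ) : FiniteDimensional k (WW k l) := (regV_Lt l).fd

omit [LF k] in
lemma Dl_mem (l : n → ℤ) : Dl l ∈ WW k l :=
  Submodule.subset_span ⟨1, by simp⟩

omit [LF k] in
lemma WW_stable (l : n → ℤ) (g : GL n k) : WW k l ≤ (WW k l).comap (Lt g) := by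
  refine Submodule.span_le.2 ?_
  rintro w ⟨x, hx⟩
  have h : Lt (g * x) (Dl l) ∈ WW k l := Submodule.subset_span (mem_range_self _)
  rw [rep_mul] at h
  rw [SetLike.mem_coe, Submodule.mem_comap, ← hx]
  exact h

omit [LF k] in
lemma WW_regV {l : n → ℤ} {w : GL n k → k} (hw : w ∈ WW k l) :
    RegV (fun g : GL n k => Lt g w) := by
  induction hw using Submodule.span_induction with
  | mem w hw =>
    obtain ⟨x, rfl⟩ := hw
    exact ((regV_Lt l).comp (f := fun g : GL n k => g * x) (by fun_prop)).congr fun g =>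
      rep_mul _ _ _ _
  | zero => exact (regV_const 0).congr fun g => (map_zero _).symm
  | add a b _ _ ha hb => exact (ha.add hb).congr fun g => (map_add _ _ _).symm
  | smul c a _ ha => exact (RegV.smul (isReg_const c) ha).congr fun g => (map_smul _ _ _).symm

lemma WW_prop {l : n → ℤ} {w : GL n k → k} (hw : w ∈ WW k l) :
    IsReg w ∧ ∀ x, ∀ q ∈ Pn (k := k) (-l), w (x * q) = w x * Dl l q := by
  induction hw using Submodule.span_induction with
  | mem w hw =>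
    obtain ⟨g, rfl⟩ := hw
    refine ⟨(show IsReg fun x : GL n k => Dl l (g⁻¹ * x) by fun_prop), fun x q hq => ?_⟩
    simp only [Lt_apply]
    rw [← mul_assoc, Dl_mul_right _ hq]
  | zero => exact ⟨isReg_const 0, fun x q _ => by simp⟩
  | add a b _ _ ha hb =>
    exact ⟨ha.1.add hb.1, fun x q hq => by simp only [Pi.add_apply, ha.2 x q hq, hb.2 x q hq, add_mul]⟩
  | smul c a _ ha =>
    exact ⟨(isReg_const c).fmul ha.1, fun x q hq => by
      simp only [Pi.smul_apply, ha.2 x q hq, smul_eq_mul, mul_assoc]⟩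

lemma WW_fixed [Infinite k] {l : n → ℤ} {w : GL n k → k} (hw : w ∈ WW k l)
    (h : ∀ u ∈ Uu (k := k) l, Lt u w = w) : w = w 1 • Dl l := by
  obtain ⟨h1, h2⟩ := WW_prop hw
  have hd : IsReg (fun x : GL n k => Dl l x) := by fun_prop
  funext x
  have hx := irr_gl.dense hd (mem_univ 1) (by rw [Dl_one]; exact one_ne_zero) (mem_univ x)
  refine eq_of_zcl h1 (G := fun x => w 1 * Dl l x) (by fun_prop) (fun y hy => ?_) hx
  have e1 := congrFun (h _ (uu_mem l y)) y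
  have e2 := h2 1 _ (uu_inv_mul_mem hy.2)
  rw [Lt_apply] at e1
  rw [one_mul] at e2
  rw [← e1, e2, Dl_Uu_mul (inv_mem (uu_mem l y))]

/-- The representation on the span. -/
def rW (l : n → ℤ) : GL n k →* Module.End k (WW k l) :=
  Representation.subrepresentation Lt (WW k l) (WW_stable l)

omit [LF k] in
lemma rW_val (l : n → ℤ) (g : GL n k) (w : WW k l) : (rW l g w).1 = Lt g w.1 := rfl

omit [LF k] in
lemma rW_rat (l : n → ℤ) : RatRep (rW (k := k) l) := fun w =>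
  (WW_regV w.2).codRestrict (WW k l) fun g => WW_stable l g w.2

lemma exists_wt_basis {W : Type} [AddCommGroup W] [Module k W] [FiniteDimensional k W]
    {ρ : GL n k →* Module.End k W} (hρ : RatRep ρ) :
    ∃ (d : ℕ) (B : Module.Basis (Fin d) k W) (wt : Fin d → n → ℤ),
      ∀ t ∈ Dn, ∀ i, ρ t (B i) = eps (wt i) t • B i := by
  let S : Set W := {w | ∃ a : n → ℤ, ∀ t ∈ Dn, ρ t w = eps a t • w}
  have hS : Submodule.span k S = ⊤ := by
    refine eq_top_iff.2 fun w _ => ?_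
    have h := mem_iSup_eps (T := Dn) le_rfl (c := ρ.comp (Dn (k := k) (n := n)).subtype) (w := w)
      ((hρ w).comp (f := fun t : Dn (k := k) (n := n) => (t : GL n k)) (by fun_prop))
    refine (iSup_le fun a v hv => ?_ : _ ≤ Submodule.span k S) h
    exact Submodule.subset_span ⟨a, fun t ht => hv ⟨t, ht⟩⟩
  obtain ⟨b, hb, hsp, hli⟩ := exists_linearIndependent k S
  let B0 : Module.Basis b k W := Module.Basis.mk hli (by rw [Subtype.range_coe, hsp, hS])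
  letI : Fintype b := FiniteDimensional.fintypeBasisIndex B0
  let e := Fintype.equivFin b
  choose wt hwt using fun i : b => hb i.2
  refine ⟨_, B0.reindex e, fun i => wt (e.symm i), fun t ht i => ?_⟩
  rw [Module.Basis.reindex_apply, Module.Basis.mk_apply]
  exact hwt _ t ht

omit [LF k] in
lemma exists_transport {W W' : Type} [AddCommGroup W] [Module k W] [AddCommGroup W'] [Module k W']
    (e : W ≃ₗ[k] W') {ρ : GL n k →* Module.End k W} (hρ : RatRep ρ) :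
    ∃ ρ' : GL n k →* Module.End k W', RatRep ρ' ∧ ∀ g w, ρ' g w = e (ρ g (e.symm w)) :=
  ⟨e.conjRingEquiv.toRingHom.toMonoidHom.comp ρ,
    fun w => ((hρ (e.symm w)).map e.toLinearMap).congr fun _ => rfl, fun _ _ => rfl⟩

omit [LF k] in
lemma cone_eq {ι : Type} {ρ : GL n k →* Module.End k (ι → k)} {H : Subgroup (GL n k)}
    {v w : ι → k} (hw : w ∈ cone ρ H v) (h0 : w ≠ 0) : cone ρ H w = cone ρ H v := by
  obtain ⟨c, g, hg, rfl⟩ := hw
  have hc : c ≠ 0 := by rintro rfl; simp at h0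
  ext z
  constructor
  · rintro ⟨a, x, hx, rfl⟩
    exact ⟨a * c, x * g, mul_mem hx hg, by rw [map_smul, smul_smul, rep_mul]⟩
  · rintro ⟨a, x, hx, rfl⟩
    refine ⟨a * c⁻¹, x * g⁻¹, mul_mem hx (inv_mem hg), ?_⟩
    rw [map_smul, smul_smul, ← rep_mul, inv_mul_cancel_right₀ hc, inv_mul_cancel_right]

end FlagAux

open FlagAux

variable [IsAlgClosed k]

/-- The span of the left translates of `Dl l`, in coordinates. -/
theorem exists_model {l : n → ℤ} (hl : Injective l) :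
    ∃ (d : ℕ) (ρ : GL n k →* Module.End k (Fin d → k)) (wt : Fin d → n → ℤ) (v : Fin d → k),
      RatRep ρ ∧ (∀ t ∈ Dn, ∀ w i, ρ t w i = eps (wt i) t * w i) ∧ v ≠ 0 ∧
      ZClosed (cone ρ ⊤ v) ∧ St ρ v = Pn l ∧ ∀ t ∈ Dn, ρ t v = eps l t • v := by
  obtain ⟨d, B, wt, hB⟩ := exists_wt_basis (rW_rat (k := k) l)
  let e := B.equivFun
  obtain ⟨ρ, hrat, hρ⟩ := exists_transport e (rW_rat (k := k) l)
  let δ : WW k l := ⟨Dl l, Dl_mem l⟩
  have hδ : δ ≠ 0 := fun h => by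
    have := congrFun (congrArg Subtype.val h) 1
    exact one_ne_zero ((Dl_one l).symm.trans this)
  have hv : e δ ≠ 0 := fun h => hδ (e.map_eq_zero_iff.1 h)
  have heig : ∀ (g : GL n k) (a : k), ρ g (e δ) = a • e δ ↔ Lt g (Dl l) = a • Dl l := by
    intro g a
    rw [hρ, e.symm_apply_apply, ← map_smul, e.injective.eq_iff, Subtype.ext_iff]
    rfl
  have hP : ∀ g ∈ Pn (k := k) l, Lt g (Dl l) = Dl l g⁻¹ • Dl l := fun g hg =>
    funext fun x => Dl_mul_left (inv_mem hg) x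
  refine ⟨d, ρ, wt, e δ, hrat, fun t ht w i => ?_, hv, ?_, ?_, fun t ht => ?_⟩
  · rw [hρ, Module.Basis.equivFun_symm_apply, map_sum]
    simp only [map_smul, hB t ht, smul_smul]
    rw [← Module.Basis.equivFun_symm_apply, LinearEquiv.apply_symm_apply, mul_comm]
  · obtain ⟨v1, -, h1, hc⟩ := exists_closed_cone hrat (H := ⊤) irr_gl zclosed_univ zclosed_univ
      (fun _ _ _ => mem_univ _) (fun _ _ _ _ => mem_univ _) ⟨_, mem_univ _, hv⟩
    have hU : Irr (Uu (k := k) l : Set (GL n k)) := by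
      simpa using irr_inf_Uu (k := k) (H := ⊤) (y := l) zclosed_univ fun _ _ _ => Subgroup.mem_top _
    have : Group.IsSolvable (Uu (k := k) l) :=
      solvable_of_tri (Uu_le_Pn l) fun g hg => by rw [lev_Uu hg]; exact one_mem _
    obtain ⟨v2, h2, h3, h4⟩ := borel_fixed hrat hU hc cone_smul
      (fun h _ => cone_rep h (Subgroup.mem_top h)) ⟨v1, self_mem_cone, h1⟩
    have h5 : (e.symm v2).1 = (e.symm v2).1 1 • Dl l := by
      refine WW_fixed (e.symm v2).2 fun u hu => ?_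
      obtain ⟨a, ha⟩ := h4 u hu
      have := (Uu_un hu).eigen ρ ha
      rw [hρ, ← e.eq_symm_apply] at this
      exact congrArg Subtype.val this
    have h6 : v2 ∈ cone ρ ⊤ (e δ) := by
      refine ⟨(e.symm v2).1 1, 1, Subgroup.mem_top _, ?_⟩
      rw [rep_one, ← map_smul, ← e.symm_apply_eq]
      exact Subtype.ext h5
    rwa [← cone_eq h6 h3, cone_eq h2 h3]
  · ext g
    simp only [mem_St, heig]
    refine ⟨fun ⟨a, ha⟩ => ?_, fun hg => ⟨_, hP g hg⟩⟩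
    have ha0 : a ≠ 0 := by
      rintro rfl
      have := congrFun ha g
      rw [Lt_apply, inv_mul_cancel, Dl_one] at this
      simp at this
    refine inv_mem_iff.1 (mem_Pn_of_stab hl fun x hx => ?_)
    have := congrFun ha x
    rw [Lt_apply] at this
    rw [this, Pi.smul_apply, Dl_un (Uu_le_Pn l hx) (Uu_un hx), smul_eq_mul, mul_one]
    exact ha0
  · rw [heig, hP t (Dn_le_Pn l ht), Dl_Dn l (inv_mem ht), eps_neg, eps_inv l ht, inv_inv]

/-- Triangularisation of connected solvable groups. -/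
theorem exists_tri {H : Subgroup (GL n k)} (hH : Irr (H : Set (GL n k))) [Group.IsSolvable H]
    {l : n → ℤ} (hl : Injective l) : ∃ h : GL n k, H ≤ PF h l := by
  obtain ⟨d, ρ, wt, v, hrat, -, hv, hc, hst, -⟩ := exists_model (k := k) hl
  obtain ⟨v2, ⟨c, x, -, rfl⟩, h3, h4⟩ := borel_fixed hrat hH hc cone_smul
    (fun h _ => cone_rep h (Subgroup.mem_top h)) ⟨v, self_mem_cone, hv⟩
  have hc0 : c ≠ 0 := by rintro rfl; simp at h3
  refine ⟨x⁻¹, fun g hg => ?_⟩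
  have : g ∈ St ρ (c • ρ x v) := h4 g hg
  rw [St_smul _ _ hc0, mem_St_rep, hst] at this
  rwa [mem_PF, inv_inv]

/-- Diagonalisation of connected commutative groups of semisimple elements. -/
theorem exists_diag {A : Subgroup (GL n k)} (hA : Irr (A : Set (GL n k))) (h1 : ∀ a ∈ A, Ss k a)
    (h2 : ∀ a ∈ A, ∀ b ∈ A, a * b = b * a) : ∃ h : GL n k, ∀ a ∈ A, h * a * h⁻¹ ∈ Dn := by
  obtain ⟨l, hl, -⟩ := exists_sep (n := n) 0
  have : Group.IsSolvable A := Group.isSolvable_of_comm fun a b => Subtype.ext (h2 _ a.2 _ b.2)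
  obtain ⟨h, hh⟩ := exists_tri hA hl
  obtain ⟨u, -, hu⟩ := exists_frame hl hh h1 h2
  exact ⟨u * h, hu⟩

theorem exists_flag {G T : Subgroup (GL n k)} (hc : ZClosed (G : Set (GL n k)))
    (hi : Irr (G : Set (GL n k))) (hT : T ≤ Dn) (hTi : Irr (T : Set (GL n k))) (hTG : T ≤ G)
    (M : ℕ) : ∃ d, Nonempty (Flag G T M d) := by
  obtain ⟨l, hl, hsep⟩ := exists_sep (n := n) M
  obtain ⟨d, ρ, wt, v, hrat, hdiag, hv, hcl, hst, hwt⟩ := exists_model (k := k) hl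
  obtain ⟨v1, h1, h10, hc1⟩ := exists_closed_cone hrat hi hc hcl cone_smul
    (fun h _ => cone_rep h (Subgroup.mem_top h)) ⟨v, self_mem_cone, hv⟩
  have hcomm : ∀ a ∈ T, ∀ b ∈ T, a * b = b * a := fun a ha b hb => Dn_comm (hT ha) (hT hb)
  have : Group.IsSolvable T := Group.isSolvable_of_comm fun a b => Subtype.ext (hcomm _ a.2 _ b.2)
  obtain ⟨v2, h2, h3, h4⟩ := borel_fixed hrat hTi hc1 cone_smul
    (fun h hh => cone_rep h (hTG hh)) ⟨v1, self_mem_cone, h10⟩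
  have h5 : v2 ∈ cone ρ ⊤ v := by
    rw [← cone_eq h1 h10]
    obtain ⟨c, g, -, rfl⟩ := h2
    exact ⟨c, g, Subgroup.mem_top _, rfl⟩
  have hcl2 : ZClosed (cone ρ G v2) := by rwa [cone_eq h2 h3]
  obtain ⟨c, x, -, rfl⟩ := h5
  have hc0 : c ≠ 0 := by rintro rfl; simp at h3
  have hst2 : ∀ g, g ∈ St ρ (c • ρ x v) ↔ x⁻¹ * g * x ∈ Pn l := fun g => by
    rw [St_smul _ _ hc0, mem_St_rep, hst]
  obtain ⟨u, hu, hd⟩ := exists_frame (h := x⁻¹) hl (A := T)
    (fun g hg => by rw [mem_PF, inv_inv]; exact (hst2 g).1 (h4 g hg)) (fun a ha => Dn_ss (hT ha))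
    hcomm
  have huP := Uu_le_Pn l hu
  have huv : ρ u v = v := by
    obtain ⟨a, ha⟩ : u ∈ St ρ v := by rwa [hst]
    exact (Uu_un hu).eigen ρ ha
  refine ⟨d, ⟨⟨ρ, wt, c • ρ x v, l, u * x⁻¹, act (u * x⁻¹)⁻¹ l, hrat, hdiag, h3, hcl2, hl, hd, ?_,
    fun t ht => ?_, fun z hz h0 => ?_⟩⟩⟩
  · ext g
    rw [hst2, mem_PF, show u * x⁻¹ * g * (u * x⁻¹)⁻¹ = u * (x⁻¹ * g * x) * u⁻¹ by group,
      mul_mem_cancel_right (inv_mem huP), mul_mem_cancel_left huP]
  · have e1 := eps_conj l (g := (u * x⁻¹)⁻¹) (hT ht) (by rw [inv_inv]; exact hd t ht)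
    rw [inv_inv] at e1
    have e2 : ρ x v = ρ (u * x⁻¹)⁻¹ v := by
      conv_rhs => rw [← huv, ← rep_mul]
      congr 2
      group
    rw [map_smul, smul_comm, ← e1, e2, ← map_smul (ρ (u * x⁻¹)⁻¹), ← hwt _ (hd t ht), ← rep_mul,
      ← rep_mul]
    congr 3
    group
  · set σ := pm (u * x⁻¹)⁻¹
    have h6 := hsep (fun j => z (σ.symm j)) (fun j => hz _) (by
      rw [← h0]
      simp only [dotProduct, act]
      rw [← Equiv.sum_comp σ]
      simp [σ])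
    funext i
    simpa using congrFun h6 (σ i)

end ZipFG
end

-- merged part: Pool.Agent.Work.MP_5c492e_ag.NT
section
/-! Connected groups without tori are solvable; centralisers of maximal tori are solvable. -/

namespace ZipFG

open Function Set Matrix

namespace NTAux

lemma top_form {k : Type} [Field k] {ι : Type} {O C : Set (ι → k)}
    (hC : ∀ w ∈ C, ∃ c : k, ∃ y ∈ O, w = c • y) {P : ℕ → (ι → k) → k} (hP : ∀ j, HomF j (P j))
    (N : ℕ) : (∀ y ∈ O, ∑ j ∈ Finset.range N, P j y = 0) →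
      (∃ w ∈ C, ∑ j ∈ Finset.range N, P j w ≠ 0) →
      ∃ d, (∀ y ∈ O, ∑ j ∈ Finset.range (d + 1), P j y = 0) ∧ ∃ y ∈ O, P d y ≠ 0 := by
  induction N with
  | zero => rintro _ ⟨w, _, hw⟩; simp at hw
  | succ N ih =>
    rintro h1 ⟨w, hw, h2⟩
    by_cases h : ∃ y ∈ O, P N y ≠ 0
    · exact ⟨N, h1, h⟩
    push Not at h
    refine ih (fun y hy => ?_) ⟨w, hw, ?_⟩
    · have := h1 y hy
      rwa [Finset.sum_range_succ, h y hy, add_zero] at this
    · obtain ⟨c, y, hy, rfl⟩ := hC w hw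
      rwa [Finset.sum_range_succ, (hP N).2, h y hy, mul_zero, add_zero] at h2

variable {k : Type} [Field k] [IsAlgClosed k] [LF k] {n : Type} [Fintype n] [DecidableEq n]

/-- An orbit whose cone is closed and which meets the line through the base point in a finite
set is a point. -/
lemma fixed_of_finite {G : Subgroup (GL n k)} (hc : ZClosed (G : Set (GL n k)))
    (hi : Irr (G : Set (GL n k))) {ι : Type} [Finite ι] {ρ : GL n k →* Module.End k (ι → k)}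
    (hρ : RatRep ρ) {v : ι → k} (hcl : ZClosed (cone ρ G v))
    (hfin : {c : k | ∃ g ∈ G, ρ g v = c • v}.Finite) : ∀ g ∈ G, ρ g v = v := by
  have := hc.affSub
  set O : Set (ι → k) := (fun g => ρ g v) '' (G : Set (GL n k)) with hO
  have hOC : O ⊆ cone ρ G v := by
    rintro _ ⟨g, hg, rfl⟩
    exact mem_cone hg
  have hnd : ∃ w ∈ cone ρ G v, w ∉ zcl O := by
    by_contra h
    push Not at h
    obtain ⟨F, hF, h1, h2⟩ := orbit_open (Γ := G) hi.subgroup (a := fun g w => ρ g w)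
      (hρ.isReg (by fun_prop) (by fun_prop)) (by simp) (fun g h x => by simp) v 1
    have hr : (range fun g : G => ρ g v) = O := by
      ext w
      exact ⟨fun ⟨g, hg⟩ => ⟨g, g.2, hg⟩, fun ⟨g, hg, e⟩ => ⟨⟨g, hg⟩, e⟩⟩
    rw [hr] at h2
    have h3 := IsReg.eq_zero_of_infinite (F := fun c : k => F (c • v))
      (hF.comp (by fun_prop)) hfin.infinite_compl (fun c hc => by
        by_contra h4
        obtain ⟨g, hg, e⟩ := h2 _ (h _ (cone_smul c v self_mem_cone)) h4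
        exact hc ⟨g, hg, e⟩) 1
    exact h1 (by simpa using h3)
  obtain ⟨w0, hw0, hw1⟩ := hnd
  obtain ⟨F, hF, h1, h2⟩ := (zclosed_zcl O).exists_fun hw1
  obtain ⟨N, P, hP, hFP⟩ := hF.exists_hom
  obtain ⟨d, h3, _, ⟨g0, hg0, rfl⟩, h4⟩ := top_form (O := O) (C := cone ρ G v)
    (by rintro _ ⟨c, g, hg, rfl⟩; exact ⟨c, _, ⟨g, hg, rfl⟩, rfl⟩) hP N
    (fun y hy => by rw [← hFP]; exact h1 y (subset_zcl _ hy)) ⟨w0, hw0, by rwa [← hFP]⟩
  have hOf : O.Finite := by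
    refine finite_of_top_forms_cone hcl (fun c => cone_smul c) hOC ?_
    rintro _ ⟨c, g, hg, rfl⟩ hw
    have hc0 : c ≠ 0 := fun e => hw (by simp [e])
    refine ⟨d, fun j x => P j (ρ (g0 * g⁻¹) x), fun j =>
      ⟨(hP j).1.comp (hρ.isReg (by fun_prop) (by fun_prop)), fun a x => by
        simp only [map_smul, (hP j).2]⟩, ?_, ?_⟩
    · rintro _ ⟨x, hx, rfl⟩
      refine h3 _ ⟨g0 * g⁻¹ * x, G.mul_mem (G.mul_mem hg0 (G.inv_mem hg)) hx, ?_⟩
      simp only [rep_mul]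
    · simp only [map_smul, (hP d).2]
      rw [← rep_mul, inv_mul_cancel_right]
      exact mul_ne_zero (pow_ne_zero _ hc0) h4
  intro g hg
  have := hi.eq_of_finite (f := fun g => ρ g v) (hρ.isReg (by fun_prop) (by fun_prop)) hOf hg
    G.one_mem
  simpa using this

end NTAux

variable {k : Type} [Field k] [IsAlgClosed k] [LF k] {n : Type} [Fintype n] [DecidableEq n]
  {G T : Subgroup (GL n k)}

theorem solvable_of_no_torus (hc : ZClosed (G : Set (GL n k))) (hi : Irr (G : Set (GL n k)))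
    (hm : MaxT G ⊥) : Group.IsSolvable G := by
  obtain ⟨d, ⟨F⟩⟩ := exists_flag (T := ⊥) hc hi bot_le
    (by simpa using irr_singleton (1 : GL n k)) bot_le 0
  set S : Subgroup (GL n k) := G ⊓ PF F.h F.l with hS
  have hSc : ZClosed (S : Set (GL n k)) := hc.inf zclosed_PF
  have hBP : idc S ≤ PF F.h F.l := (idc_le S).trans inf_le_right
  have hB := (btu F.l_inj (irr_idc S) hBP bot_le F.hT
    (hm.mono ((idc_le S).trans inf_le_left))).1
  have hfix : ∀ b ∈ idc S, F.ρ b F.v = F.v := by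
    intro b hb
    obtain ⟨t, ht, h⟩ := hB b hb
    rw [Subgroup.mem_bot.1 ht, inv_one, mul_one] at h
    have h1 : b ∈ St F.ρ F.v := by rw [F.stab]; exact hBP hb
    obtain ⟨a, ha⟩ := h1
    exact (UF_un h).eigen F.ρ ha
  obtain ⟨s, hs, -, hs2⟩ := idc_finite hSc
  have hfin : {c : k | ∃ g ∈ G, F.ρ g F.v = c • F.v}.Finite := by
    refine Set.Finite.subset ((hs.image fun x => F.ρ x F.v).preimage
      (f := fun c : k => c • F.v) (smul_left_injective k F.v_ne).injOn) ?_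
    rintro c ⟨g, hg, e⟩
    have h1 : g ∈ PF F.h F.l := by rw [← F.stab]; exact ⟨c, e⟩
    obtain ⟨x, hx, h2⟩ := hs2 g ⟨hg, h1⟩
    refine ⟨x, hx, ?_⟩
    have h3 := hfix _ h2
    change F.ρ x F.v = c • F.v
    rw [← e]
    conv_lhs => rw [← h3, ← rep_mul, mul_inv_cancel_left]
  refine solvable_of_le_PF (h := F.h) F.l_inj fun g hg => ?_
  rw [← F.stab]
  exact ⟨1, by rw [one_smul]; exact NTAux.fixed_of_finite hc hi F.rat F.closed hfin g hg⟩

theorem solvable_cent (hc : ZClosed (G : Set (GL n k))) (hi : Irr (G : Set (GL n k)))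
    (hT : Tor T) (hTG : T ≤ G) (hm : MaxT G T) {y : n → ℤ} (hy : Gen T y) :
    Group.IsSolvable (G ⊓ Zn y : Subgroup (GL n k)) := by
  set C : Subgroup (GL n k) := G ⊓ Zn y with hC
  have hCi : Irr (C : Set (GL n k)) := irr_inf_Zn hc hi fun t g hg =>
    G.mul_mem (G.mul_mem (hTG (hy.1 t)) hg) (G.inv_mem (hTG (hy.1 t)))
  have hCc : ZClosed (C : Set (GL n k)) := hc.inf (zclosed_Zn y)
  have hcomm : ∀ g ∈ C, ∀ t ∈ T, t * g = g * t := fun g hg => (hy.mem_Zn_iff hT).1 hg.2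
  set H : Subgroup (GL n k) := zclSub ⁅C, C⁆ with hH
  have hCC : ⁅C, C⁆ ≤ C := Subgroup.commutator_le.2 fun a ha b hb =>
    mul_mem (mul_mem (mul_mem ha hb) (inv_mem ha)) (inv_mem hb)
  have hHC : H ≤ C := hCc.zcl_subset (S := ((⁅C, C⁆ : Subgroup (GL n k)) : Set (GL n k))) hCC
  have hHi : Irr (H : Set (GL n k)) := (hCi.commutator hCi).zcl
  have hDl : ∀ z ∈ Yl T, ∀ g ∈ H, Dl z g = 1 := by
    intro z hz g hg
    have hP : C ≤ Pn z := fun g hg =>
      (mem_Zn_iff_comm.2 fun t => hcomm g hg _ (hz t) : g ∈ Zn z).1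
    let K : Subgroup (GL n k) := subOf
      { carrier := {g | g ∈ Pn z ∧ Dl z g = 1}
        mul_mem' := fun {a b} ha hb =>
          ⟨mul_mem ha.1 hb.1, by rw [Dl_mul_left ha.1, ha.2, hb.2, mul_one]⟩
        one_mem' := ⟨one_mem _, Dl_one z⟩ }
    have hK : ⁅C, C⁆ ≤ K := by
      rw [Subgroup.commutator_le]
      intro a ha b hb
      have ha' := hP ha
      have hb' := hP hb
      refine ⟨mul_mem (mul_mem (mul_mem ha' hb') (inv_mem ha')) (inv_mem hb'), ?_⟩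
      have e1 := Dl_mul_left (y := z) ha' a⁻¹
      have e2 := Dl_mul_left (y := z) hb' b⁻¹
      rw [mul_inv_cancel, Dl_one] at e1 e2
      rw [commutatorElement_def, Dl_mul_left (mul_mem (mul_mem ha' hb') (inv_mem ha')),
        Dl_mul_left (mul_mem ha' hb'), Dl_mul_left ha']
      linear_combination (-(Dl z b * Dl z b⁻¹)) * e1 - e2
    exact eq_of_zcl (F := fun g => Dl z g) (G := fun _ => 1) (by fun_prop) (by fun_prop)
      (fun g hg => (hK hg).2) hg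
  have hmH : MaxT H ⊥ := by
    intro A hA hs hcm _ hAH
    have hAC : A ≤ C := hAH.trans hHC
    let K : Subgroup (GL n k) := subOf
      { carrier := {x | ∃ a ∈ A, ∃ t ∈ T, x = a * t}
        mul_mem' := by
          rintro _ _ ⟨a, ha, t, ht, rfl⟩ ⟨b, hb, u, hu, rfl⟩
          refine ⟨a * b, mul_mem ha hb, t * u, mul_mem ht hu, ?_⟩
          rw [mul_assoc, ← mul_assoc t, hcomm b (hAC hb) t ht]
          simp only [mul_assoc]
        one_mem' := ⟨1, one_mem _, 1, one_mem _, by simp⟩ }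
    have hK : A ⊔ T ≤ K := sup_le (fun a ha => ⟨a, ha, 1, one_mem _, by simp⟩)
      (fun t ht => ⟨1, one_mem _, t, ht, by simp⟩)
    have hAT : A ≤ T := le_sup_left.trans (hm (A ⊔ T) (hA.sup hT.irr)
      (fun x hx => by
        obtain ⟨a, ha, t, ht, rfl⟩ := hK hx
        exact (hs a ha).mul (Dn_ss (hT.le ht)) (hcomm a (hAC ha) t ht).symm)
      (fun x hx x' hx' => by
        obtain ⟨a, ha, t, ht, rfl⟩ := hK hx
        obtain ⟨b, hb, u, hu, rfl⟩ := hK hx'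
        have c1 : Commute a b := hcm a ha b hb
        have c2 : Commute a u := (hcomm a (hAC ha) u hu).symm
        have c3 : Commute t b := hcomm b (hAC hb) t ht
        have c4 : Commute t u := Dn_comm (hT.le ht) (hT.le hu)
        exact (c1.mul_right c2).mul_left (c3.mul_right c4))
      le_sup_right (sup_le (hAC.trans inf_le_left) hTG))
    intro a ha
    rw [Subgroup.mem_bot]
    refine Dn_ext (hT.le (hAT ha)) (one_mem _) fun i => ?_
    obtain ⟨M, hM, b, hb, hbz⟩ := exists_proj (Yl T) (Pi.single i 1)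
    refine hA.eq_one_of_pow (F := fun g => g.val i i) (by fun_prop) hM.ne' (fun t ht => ?_) ha
      A.one_mem
    have e1 := hT.eps_eq (a := b) (b := M • Pi.single i 1)
      (fun z hz => by rw [hbz z hz, smul_dotProduct]; simp) t (hAT ht)
    have e2 := hDl (-b) (neg_mem hb) t (hAH ht)
    rw [Dl_Dn _ (hT.le (hAT ht)), neg_neg] at e2
    rw [eps_nsmul, eps_single, e2] at e1
    exact e1.symm
  have := solvable_of_no_torus (zclosed_zclSub _) hHi hmH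
  refine Group.isSolvable_of_ker_le_range (Subgroup.inclusion hHC) (Abelianization.of (G := C)) ?_
  rw [Abelianization.ker_of, _root_.commutator_def, Subgroup.commutator_le]
  intro a _ b _
  exact ⟨⟨_, le_zclSub _ (Subgroup.commutator_mem_commutator a.2 b.2)⟩, rfl⟩

end ZipFG
end

-- merged part: Pool.Agent.Work.MP_5c492e_ag.Lim
section
/-! Limits of vectors under a cocharacter. -/

namespace ZipFG

open Function Set Matrix

variable {k : Type} [Field k] {n : Type} [Fintype n] [DecidableEq n] {ι : Type} [Finite ι]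

/-- All components of `v` have degree at least `e`. -/
def Ge (wt : ι → n → ℤ) (y : n → ℤ) (e : ℤ) (v : ι → k) : Prop := ∀ i, wt i ⬝ᵥ y < e → v i = 0

/-- The component of degree `e`. -/
def low (wt : ι → n → ℤ) (y : n → ℤ) (e : ℤ) (v : ι → k) : ι → k :=
  fun i => if wt i ⬝ᵥ y = e then v i else 0

/-- The curve joining a vector to its component of lowest degree. -/
def gam (wt : ι → n → ℤ) (y : n → ℤ) (e : ℤ) (v : ι → k) (s : k) : ι → k :=
  fun i => s ^ (wt i ⬝ᵥ y - e).toNat * v i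

variable {wt : ι → n → ℤ} {y : n → ℤ} {e : ℤ} {v : ι → k}

lemma isReg_gam : IsReg (gam wt y e v) :=
  isReg_pi (W := fun _ => k) fun i => by unfold gam; fun_prop

lemma gam_zero (h : Ge wt y e v) : gam wt y e v 0 = low wt y e v := by
  ext i
  unfold gam low
  split_ifs with h1
  · simp [h1]
  · rcases lt_or_gt_of_ne h1 with h2 | h2
    · simp [h i h2]
    · rw [zero_pow (by omega), zero_mul]

lemma low_smul (c : k) : low wt y e (c • v) = c • low wt y e v := by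
  ext i; simp [low]

lemma Ge.smul (h : Ge wt y e v) (c : k) : Ge wt y e (c • v) := fun i hi => by simp [h i hi]

lemma low_low : low wt y e (low wt y e v) = low wt y e v := by
  ext i; unfold low; split_ifs <;> rfl

lemma ge_low : Ge wt y e (low wt y e v) := fun i hi => if_neg hi.ne

lemma low_neg : low wt (-y) (-e) v = low wt y e v := by
  ext i; simp [low]

lemma Ge.of_low (h : low wt y e v = v) : Ge wt y e v := h ▸ ge_low

lemma low_eq_of_ge (h : Ge wt y e v) (h' : Ge wt (-y) (-e) v) : low wt y e v = v := by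
  ext i
  unfold low
  split_ifs with h1
  · rfl
  · rcases lt_or_gt_of_ne h1 with h2 | h2
    · exact (h i h2).symm
    · exact (h' i (by simpa using h2)).symm

lemma exists_low (wt : ι → n → ℤ) (y : n → ℤ) {C : Set (ι → k)} (hC : ∃ v ∈ C, v ≠ 0) :
    ∃ e, (∀ w ∈ C, Ge wt y e w) ∧ ∃ w ∈ C, low wt y e w ≠ 0 := by
  obtain ⟨v, hv, hv0⟩ := hC
  obtain ⟨i0, hi0⟩ := Function.ne_iff.1 hv0
  obtain ⟨i, ⟨w, hw, hi⟩, hmin⟩ := Set.exists_min_image {i | ∃ w ∈ C, w i ≠ 0}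
    (fun i => wt i ⬝ᵥ y) (Set.toFinite _) ⟨i0, v, hv, hi0⟩
  refine ⟨wt i ⬝ᵥ y, fun w' hw' j hj => ?_, w, hw, fun h => hi ?_⟩
  · by_contra h
    exact absurd (hmin j ⟨w', hw', h⟩) (by omega)
  · simpa [low] using congrFun h i

variable [LF k] {ρ : GL n k →* Module.End k (ι → k)}

lemma gam_unit (hd : ∀ t ∈ Dn, ∀ w i, ρ t w i = eps (wt i) t * w i) (h : Ge wt y e v) (s : kˣ) :
    gam wt y e v s = ((s : k) ^ (-e)) • ρ (nu y s) v := by
  ext i
  rw [Pi.smul_apply, hd _ (nu_mem_Dn _ _), eps_nu, smul_eq_mul, gam]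
  by_cases h1 : wt i ⬝ᵥ y < e
  · simp [h i h1]
  · rw [← mul_assoc, ← zpow_add₀ s.ne_zero, ← zpow_natCast, Int.toNat_of_nonneg (by omega)]
    congr 2; ring

lemma nu_low (hd : ∀ t ∈ Dn, ∀ w i, ρ t w i = eps (wt i) t * w i) (s : kˣ) :
    ρ (nu y s) (low wt y e v) = ((s : k) ^ e) • low wt y e v := by
  ext i
  rw [Pi.smul_apply, hd _ (nu_mem_Dn _ _), eps_nu, smul_eq_mul, low]
  split_ifs with h1
  · rw [h1]
  · simp

variable [Infinite k]

lemma low_mem (hd : ∀ t ∈ Dn, ∀ w i, ρ t w i = eps (wt i) t * w i) {C : Set (ι → k)}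
    (hC : ZClosed C) (hc : ∀ (c : k), ∀ w ∈ C, c • w ∈ C) (hy : ∀ s, ∀ w ∈ C, ρ (nu y s) w ∈ C)
    (hv : v ∈ C) (h : Ge wt y e v) : low wt y e v ∈ C := by
  rw [← gam_zero h]
  exact hC.curve isReg_gam (fun s => by rw [gam_unit hd h]; exact hc _ _ (hy s v hv)) 0

lemma eq_zero_of_neg_pow {F : k → k} (hF : IsReg F) {m : ℤ} (hm : m < 0) {a : k}
    (h : ∀ s : kˣ, F s = (s : k) ^ m * a) : a = 0 := by
  have := IsReg.eq_of_units (F := fun s => F s * s ^ (-m).toNat) (G := fun _ => a) (by fun_prop)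
    (isReg_const a) (fun s => by
      rw [h, ← zpow_natCast, Int.toNat_of_nonneg (by omega), mul_right_comm,
        ← zpow_add₀ s.ne_zero]
      simp) 0
  rw [← this, zero_pow (by omega), mul_zero]

/-- Elements of the parabolic subgroup raise degrees. -/
theorem raise (hρ : RatRep ρ) (hd : ∀ t ∈ Dn, ∀ w i, ρ t w i = eps (wt i) t * w i) {q : GL n k}
    (hq : q ∈ Pn y) (h : Ge wt y e v) :
    Ge wt y e (ρ q v) ∧ low wt y e (ρ q v) = ρ (lev y q) (low wt y e v) := by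
  have hr : IsReg (fun s : k => ρ (cc y s q) (gam wt y e v s)) :=
    hρ.isReg (IsReg.cc isReg_id (isReg_const q) fun _ => hq) isReg_gam
  have hu : ∀ s : kˣ, ρ (cc y s q) (gam wt y e v s) = ((s : k) ^ (-e)) • ρ (nu y s) (ρ q v) := by
    intro s
    rw [gam_unit hd h, cc_unit s hq, map_smul, ← rep_mul, ← rep_mul, inv_mul_cancel_right]
  have h1 : Ge wt y e (ρ q v) := fun i hi => by
    refine eq_zero_of_neg_pow (hr.app (W := fun _ => k) i) (m := wt i ⬝ᵥ y - e) (by omega)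
      fun s => ?_
    rw [hu, Pi.smul_apply, hd _ (nu_mem_Dn _ _), eps_nu, smul_eq_mul, ← mul_assoc,
      ← zpow_add₀ s.ne_zero]
    congr 2; ring
  refine ⟨h1, ?_⟩
  rw [← gam_zero h1, ← gam_zero h, lev]
  ext i
  exact IsReg.eq_of_units (isReg_gam.app (W := fun _ => k) i) (hr.app (W := fun _ => k) i)
    (fun s => by rw [hu, gam_unit hd h1]) 0

end ZipFG
end

-- merged part: Pool.Agent.Work.MP_5c492e_ag.Luna
section
/-! Fixed points of a maximal torus on the flag variety; the theorem of Chevalley. -/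

namespace ZipFG

open Function Set Matrix

variable {k : Type} [Field k] [LF k] {n : Type} [Fintype n] [DecidableEq n]

/-- A reductive group with a diagonal maximal torus. -/
structure Red (G T : Subgroup (GL n k)) : Prop where
  cl : ZClosed (G : Set (GL n k))
  irr : Irr (G : Set (GL n k))
  tor : Tor T
  le : T ≤ G
  max : MaxT G T
  red : ∀ N : Subgroup (GL n k), ZClosed (N : Set (GL n k)) → Irr (N : Set (GL n k)) → N ≤ G →
    (∀ g ∈ G, ∀ x ∈ N, g * x * g⁻¹ ∈ N) → (∀ x ∈ N, Un k x) → N = ⊥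

/-- `y` separates the weights of `T`. -/
def Sep (T : Subgroup (GL n k)) {ι : Type} (wt : ι → n → ℤ) (y : n → ℤ) : Prop :=
  ∀ i j, wt i ⬝ᵥ y = wt j ⬝ᵥ y → ∀ t ∈ T, eps (wt i) t = eps (wt j) t

variable [IsAlgClosed k] {G T : Subgroup (GL n k)} {M d : ℕ}

theorem exists_sep_gen (hT : Tor T) {ι : Type} [Finite ι] (wt : ι → n → ℤ) {y0 : n → ℤ}
    (hy0 : y0 ∈ Yl T) : ∃ y, Gen T y ∧ Sep T wt y ∧ ∀ i j, y0 j < y0 i → y j < y i := by
  obtain ⟨y, h1, h2, h3⟩ := exists_gen (F := range fun p : ι × ι => wt p.1 - wt p.2)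
    (finite_range _) hy0
  refine ⟨y, h1, fun i j e => hT.eps_eq fun z hz => ?_, h2⟩
  by_contra h
  refine h3 _ ⟨(i, j), rfl⟩ ⟨z, hz, ?_⟩ ?_
  · rwa [sub_dotProduct, sub_ne_zero]
  · rw [sub_dotProduct, e, sub_self]

theorem Gen.eq_of_refine {y y1 : n → ℤ} (hy : Gen T y) (hy1 : Gen T y1)
    (h : ∀ i j, y j < y i → y1 j < y1 i) :
    Pn (k := k) y1 = Pn y ∧ Uu (k := k) y1 = Uu y ∧ Pn (k := k) (-y1) = Pn (-y) ∧
      Uu (k := k) (-y1) = Uu (-y) := by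
  have e : ∀ i j, y1 j < y1 i ↔ y j < y i := fun i j => ⟨fun h1 => by
    rcases lt_trichotomy (y j) (y i) with h2 | h2 | h2
    · exact h2
    · exact absurd (hy.2 _ _ h2 _ hy1.1) h1.ne
    · exact absurd (h _ _ h2) h1.not_gt, h i j⟩
  refine ⟨?_, ?_, ?_, ?_⟩ <;> ext g <;> simp only [mem_Pn, mem_Uu, mem_NN, Pi.neg_apply] <;>
    refine forall_congr' fun a => forall_congr' fun b => imp_congr_left ?_
  · have := e b a; omega
  · have := e a b; omega
  · have := e a b; omega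
  · have := e b a; omega

theorem Flag.le_St_low (F : Flag G T M d) (hT : T ≤ Dn) {y : n → ℤ} (hy : Sep T F.wt y) (e : ℤ)
    (w : Fin d → k) : T ≤ St F.ρ (low F.wt y e w) := by
  intro t ht
  by_cases h : ∃ i0, F.wt i0 ⬝ᵥ y = e
  · obtain ⟨i0, h⟩ := h
    refine ⟨eps (F.wt i0) t, funext fun i => ?_⟩
    rw [F.diag t (hT ht), Pi.smul_apply, smul_eq_mul, low]
    split_ifs with h1
    · rw [hy i i0 (h1.trans h.symm) t ht]
    · simp
  · have : low F.wt y e w = 0 := funext fun i => if_neg fun h1 => h ⟨i, h1⟩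
    exact ⟨1, by simp [this]⟩

namespace LunaAux

omit [IsAlgClosed k] in
lemma fix_of_St {W : Type*} [AddCommGroup W] [Module k W] {ρ : GL n k →* Module.End k W} {v : W}
    {g : GL n k} (h : g ∈ St ρ v) (hu : Un k g) : ρ g v = v :=
  h.elim fun _ ha => hu.eigen ρ ha

omit [IsAlgClosed k] in
lemma T_le_PF (F : Flag G T M d) : T ≤ PF F.h F.l := fun t ht => Dn_le_Pn _ (F.hT t ht)

omit [IsAlgClosed k] in
lemma T_le_idc (hG : Red G T) (F : Flag G T M d) : T ≤ idc (G ⊓ PF F.h F.l) :=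
  hG.tor.irr.le_idc (le_inf hG.le (T_le_PF F))

omit [IsAlgClosed k] in
lemma nu_norm (hG : Red G T) {y : n → ℤ} (hy : y ∈ Yl T) :
    ∀ t, ∀ g ∈ G, nu y t * g * (nu y t)⁻¹ ∈ G := fun t _ hg =>
  G.mul_mem (G.mul_mem (hG.le (hy t)) hg) (G.inv_mem (hG.le (hy t)))

/-- Elements all of whose conjugates by a set lie in the unitriangular group. -/
def core (G : Subgroup (GL n k)) (h : GL n k) (l : n → ℤ) (X : Set (GL n k)) :
    Subgroup (GL n k) := G ⊓ ⨅ x ∈ X, UF (h * x⁻¹) l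

omit [IsAlgClosed k] in
lemma mem_core {h g : GL n k} {l : n → ℤ} {X : Set (GL n k)} :
    g ∈ core G h l X ↔ g ∈ G ∧ ∀ x ∈ X, x⁻¹ * g * x ∈ UF h l := by
  simp [core, Subgroup.mem_iInf, mem_UF, mul_assoc]

omit [IsAlgClosed k] in
lemma zclosed_core (hc : ZClosed (G : Set (GL n k))) (h : GL n k) (l : n → ℤ) (X : Set (GL n k)) :
    ZClosed (core G h l X : Set (GL n k)) := by
  refine hc.inf ?_
  simp only [Subgroup.coe_iInf]
  exact zclosed_iInter fun x => zclosed_iInter fun _ => zclosed_UF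

omit [IsAlgClosed k] in
lemma core_un {h g x : GL n k} {l : n → ℤ} {X : Set (GL n k)} (hg : g ∈ core G h l X)
    (hx : x ∈ X) : Un k g :=
  Un.of_conj (x := x⁻¹) (by simpa using UF_un ((mem_core.1 hg).2 x hx))

omit [IsAlgClosed k] in
lemma mem_core_of (F : Flag G T M d) {X : Set (GL n k)} {g : GL n k} (hg : g ∈ G) (hu : Un k g)
    (h : ∀ x ∈ X, g ∈ St F.ρ (F.ρ x F.v)) : g ∈ core G F.h F.l X :=
  mem_core.2 ⟨hg, fun x hx => Un.mem_UF F.l_inj (F.stab ▸ mem_St_rep.1 (h x hx))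
    (by simpa using hu.conj x⁻¹)⟩

omit [IsAlgClosed k] in
lemma core_conj {h m : GL n k} {l : n → ℤ} {X : Subgroup (GL n k)} (hX : X ≤ G) (hm : m ∈ X) :
    ∀ g ∈ core G h l X, m * g * m⁻¹ ∈ core G h l X := fun g hg => by
  obtain ⟨h1, h2⟩ := mem_core.1 hg
  refine mem_core.2 ⟨G.mul_mem (G.mul_mem (hX hm) h1) (G.inv_mem (hX hm)), fun x hx => ?_⟩
  simpa [mul_assoc] using h2 (m⁻¹ * x) (X.mul_mem (X.inv_mem hm) hx)

/-- A connected solvable unipotent group fixes a vector whose orbit closure is separated from the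
origin by invariant linear forms. -/
lemma fix_of_forms {ι : Type} [Finite ι] {ρ : GL n k →* Module.End k (ι → k)} (hρ : RatRep ρ)
    {J : Subgroup (GL n k)} (hJ : Irr (J : Set (GL n k))) [Group.IsSolvable J]
    (hu : ∀ j ∈ J, Un k j) {C : Set (ι → k)} (hC : ZClosed C) {w : ι → k}
    (hw : cone ρ J w ⊆ C)
    (h : ∀ z ∈ C, z ≠ 0 → ∃ ξ : (ι → k) →ₗ[k] k, ξ z ≠ 0 ∧ ∀ j ∈ J, ξ (ρ j w) = ξ w) :
    ∀ j ∈ J, ρ j w = w := by
  by_cases hw0 : w = 0
  · simp [hw0]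
  let V : Submodule k (ι → k) := Submodule.span k ((fun j => ρ j w) '' J)
  have wV : w ∈ V := Submodule.subset_span ⟨1, J.one_mem, rep_one _ _⟩
  have hV : ∀ j ∈ J, ∀ v ∈ V, ρ j v ∈ V := fun j hj => by
    have : V ≤ V.comap (ρ j) := Submodule.span_le.2 (by
      rintro _ ⟨j', hj', rfl⟩
      exact Submodule.subset_span ⟨j * j', J.mul_mem hj hj', rep_mul _ _ _ _⟩)
    exact fun v hv => this hv
  obtain ⟨z, hz, z0, hzJ⟩ := borel_fixed hρ hJ (zclosed_zcl (cone ρ J w))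
    (fun c v hv => zcl_map (f := fun v => c • v) (by fun_prop) (cone_smul c) hv)
    (fun j hj v hv => zcl_map (f := fun v => ρ j v) (hρ.isReg (isReg_const j) isReg_id)
      (cone_rep j hj) hv) ⟨w, subset_zcl _ self_mem_cone, hw0⟩
  have hz' : ∀ j ∈ J, ρ j z = z := fun j hj => fix_of_St (hzJ j hj) (hu j hj)
  have zV : z ∈ V := (zclosed_submodule V).zcl_subset (by
    rintro _ ⟨c, j, hj, rfl⟩
    exact V.smul_mem c (Submodule.subset_span ⟨j, hj, rfl⟩)) hz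
  by_cases hle : V ≤ Submodule.span k {z}
  · obtain ⟨a, ha⟩ := Submodule.mem_span_singleton.1 (hle wV)
    intro j hj
    rw [← ha, map_smul, hz' j hj]
  exfalso
  obtain ⟨η, ⟨v, hv, hv0⟩, h0, h1⟩ := lie_kolchin_dual hJ hρ hV (V0 := Submodule.span k {z})
    (fun j hj v hv => by
      obtain ⟨a, rfl⟩ := Submodule.mem_span_singleton.1 hv
      rwa [map_smul, hz' j hj]) hle
  have h2 : ∀ j ∈ J, η (ρ j w) = η w := fun j hj => by
    obtain ⟨a, ha⟩ := h1 j hj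
    obtain ⟨r, hr⟩ := hu j hj
    have h3 : ∀ m : ℕ, η (ρ (j ^ m) v) = a ^ m * η v := fun m => by
      induction m with
      | zero => simp
      | succ m ih => rw [pow_succ', rep_mul, ha _ (hV _ (J.pow_mem hj m) v hv), ih]; ring
    have h4 := h3 (ringChar k ^ r)
    rw [hr, rep_one] at h4
    have h5 : a = 1 := Un.field ⟨r, (mul_right_cancel₀ hv0 (h4.symm.trans (one_mul _).symm))⟩
    rw [ha w wV, h5, one_mul]
  obtain ⟨ξ, ξ0, hξ⟩ := h z (hC.zcl_subset hw hz) z0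
  have h3 : V ≤ LinearMap.ker (ξ w • η - η w • ξ) := Submodule.span_le.2 (by
    rintro _ ⟨j, hj, rfl⟩
    simp [h2 j hj, hξ j hj, mul_comm])
  have h4 : η w = 0 := by
    simpa [h0 z ⟨zV, Submodule.mem_span_singleton_self z⟩, ξ0] using h3 zV
  have h5 : V ≤ LinearMap.ker η := Submodule.span_le.2 (by
    rintro _ ⟨j, hj, rfl⟩
    simp [h2 j hj, h4])
  exact hv0 (h5 hv)

end LunaAux

open LunaAux

/-- The lines fixed by the torus form one orbit of the normaliser. -/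
theorem Red.fixed_line (hG : Red G T) (F : Flag G T M d) {w : Fin d → k}
    (hw : w ∈ cone F.ρ G F.v) (hw0 : w ≠ 0) (h : T ≤ St F.ρ w) :
    ∃ x ∈ G ⊓ Nm T, ∃ c : k, c ≠ 0 ∧ w = c • F.ρ x F.v := by
  obtain ⟨c, g, hg, rfl⟩ := hw
  have hc : c ≠ 0 := by rintro rfl; simp at hw0
  rw [St_smul _ _ hc] at h
  obtain ⟨u, hu, hx⟩ := conj_torus F.l_inj (irr_idc (G ⊓ PF F.h F.l))
    ((idc_le _).trans inf_le_right) (T_le_idc hG F) F.hT
    (hG.max.mono ((idc_le _).trans inf_le_left)) (g := g) fun t ht => by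
      refine (hG.tor.irr.image (f := fun t => g⁻¹ * t * g) (by fun_prop)).subset_idc ?_
        ⟨1, T.one_mem, by simp⟩ ⟨t, ht, rfl⟩
      rintro _ ⟨t, ht, rfl⟩
      exact ⟨G.mul_mem (G.mul_mem (G.inv_mem hg) (hG.le ht)) hg, F.stab ▸ mem_St_rep.1 (h ht)⟩
  refine ⟨g * u, ⟨G.mul_mem hg (idc_le _ hu.1).1, hx⟩, c, hc, ?_⟩
  rw [rep_mul, fix_of_St (F.stab ▸ UF_le_PF hu.2) (UF_un hu.2)]

theorem Red.cent_le (hG : Red G T) (F : Flag G T M d) {y : n → ℤ} (hy : Gen T y) {x : GL n k}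
    (hx : x ∈ G ⊓ Nm T) : G ⊓ Zn y ≤ St F.ρ (F.ρ x F.v) := by
  haveI := solvable_cent hG.cl hG.irr hG.tor hG.le hG.max hy
  obtain ⟨w, hw, w0, h⟩ := borel_fixed F.rat (irr_inf_Zn hG.cl hG.irr (nu_norm hG hy.1)) F.closed
    cone_smul (fun g hg => cone_rep g hg.1) ⟨F.v, self_mem_cone, F.v_ne⟩
  obtain ⟨x0, hx0, c, hc, rfl⟩ := hG.fixed_line F hw w0 fun t ht =>
    h t ⟨hG.le ht, Dn_le_Zn y (hG.tor.le ht)⟩
  intro g hg
  have hm : x0 * x⁻¹ ∈ G ⊓ Nm T := mul_mem hx0 (inv_mem hx)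
  have h1 : x0 * x⁻¹ * g * (x0 * x⁻¹)⁻¹ ∈ G ⊓ Zn y := by
    refine ⟨G.mul_mem (G.mul_mem hm.1 hg.1) (G.inv_mem hm.1), (hy.mem_Zn_iff hG.tor).2 ?_⟩
    generalize x0 * x⁻¹ = m at hm
    intro t ht
    have := (hy.mem_Zn_iff hG.tor).1 hg.2 _ ((Nm T).inv_mem hm.2 t ht)
    calc t * (m * g * m⁻¹) = m * (m⁻¹ * t * m⁻¹⁻¹ * g) * m⁻¹ := by group
      _ = _ := by rw [this]; group
  have h2 : _ ∈ St F.ρ (c • F.ρ x0 F.v) := h _ h1
  rw [St_smul _ _ hc, mem_St_rep] at h2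
  rw [mem_St_rep]
  simpa [mul_assoc] using h2

/-- The lowest point of the flag variety. -/
theorem Red.exists_lowest (hG : Red G T) (F : Flag G T M d) {y : n → ℤ} (hy : Gen T y)
    (hs : Sep T F.wt y) : ∃ x ∈ G ⊓ Nm T, ∃ e : ℤ, (∀ w ∈ cone F.ρ G F.v, Ge F.wt y e w) ∧
      low F.wt y e (F.ρ x F.v) = F.ρ x F.v ∧ G ⊓ Pn (-y) ≤ St F.ρ (F.ρ x F.v) := by
  obtain ⟨e, h1, w, hw, w0⟩ := exists_low F.wt y (C := cone F.ρ G F.v)
    ⟨F.v, self_mem_cone, F.v_ne⟩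
  obtain ⟨x, hx, c, hc, h2⟩ := hG.fixed_line F (low_mem F.diag F.closed cone_smul
    (fun s => cone_rep _ (hG.le (hy.1 s))) hw (h1 w hw)) w0 (F.le_St_low hG.tor.le hs e w)
  have h3 : low F.wt y e (F.ρ x F.v) = F.ρ x F.v := by
    have := low_low (wt := F.wt) (y := y) (e := e) (v := w)
    rwa [h2, low_smul, smul_right_inj hc] at this
  refine ⟨x, hx, e, h1, h3, fun q hq => ?_⟩
  obtain ⟨h4, h5⟩ := raise F.rat F.diag hq.2 (Ge.of_low (e := -e) (low_neg.trans h3))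
  rw [low_neg, low_neg, h3, low_eq_of_ge (h1 _ (cone_rep q hq.1 _ (mem_cone hx.1))) h4] at h5
  have h6 := lev_mem hG.cl (nu_norm hG hy.neg.1) hq
  rw [Zn_neg] at h6
  rw [mem_St, h5]
  exact hG.cent_le F hy hx h6

/-- A connected unipotent group fixing all fixed points of the torus is trivial. -/
theorem Red.luna (hG : Red G T) (F : Flag G T M d) {K : Subgroup (GL n k)}
    (hK : Irr (K : Set (GL n k))) (hKG : K ≤ G) (hu : ∀ x ∈ K, Un k x)
    (h : ∀ x ∈ G ⊓ Nm T, K ≤ St F.ρ (F.ρ x F.v)) : K = ⊥ := by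
  obtain ⟨y, hy, hs, -⟩ := exists_sep_gen hG.tor F.wt (zero_mem _)
  obtain ⟨x0, hx0, e, ge0, lo0, st0⟩ := hG.exists_lowest F hy hs
  obtain ⟨x1, hx1, -, -, -, st1⟩ := hG.exists_lowest F hy.neg fun i j h => hs i j (by simpa using h)
  rw [neg_neg] at st1
  obtain ⟨i0, hi0⟩ := Function.ne_iff.1 (rep_ne_zero F.ρ x0 F.v_ne)
  have wi : F.wt i0 ⬝ᵥ y = e := by
    by_contra h1
    exact hi0 ((congrFun lo0 i0).symm.trans (if_neg h1))
  have reg : ∀ m : GL n k, IsReg fun g : GL n k => F.ρ (m * g) (F.ρ x0 F.v) i0 := fun m =>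
    (F.rat.isReg (by fun_prop) (isReg_const _)).app (W := fun _ => k) i0
  have s1 : ∀ u ∈ Uu y, F.ρ u (F.ρ x0 F.v) i0 = F.ρ x0 F.v i0 := fun u hu => by
    have := (raise F.rat F.diag (Uu_le_Pn y hu) (Ge.of_low lo0)).2
    rw [lev_Uu hu, rep_one, lo0] at this
    exact (if_pos wi).symm.trans (congrFun this i0)
  have cU := zclosed_core hG.cl F.h F.l {x1}
  have s2 : ∀ u ∈ idc (core G F.h F.l {x1}), F.ρ u (F.ρ x0 F.v) i0 = F.ρ x0 F.v i0 := by
    intro u hu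
    refine eq_of_zcl (F := fun g => F.ρ g (F.ρ x0 F.v) i0) (by simpa using reg 1) (isReg_const _)
      ?_ (bigcell_dense (y := y) (zclosed_idc cU) (irr_idc _) (fun t g hg => conj_mem_idc
        (fun g hg => ?_) hg) hu)
    · rintro _ ⟨u, hu, q, hq, rfl⟩
      have h1 := idc_le _ hq.1
      rw [rep_mul, fix_of_St (st0 ⟨h1.1, hq.2⟩) (core_un h1 rfl), s1 u hu.2]
    · obtain ⟨h1, h2⟩ := mem_core.1 hg
      refine mem_core.2 ⟨nu_norm hG hy.1 t g h1, ?_⟩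
      rintro x rfl
      simpa [mul_assoc] using
        conj_mem_UF (T_le_PF F ((Nm T).inv_mem hx1.2 _ (hy.1 t))) (h2 x rfl)
  have hU : G ⊓ Uu y ≤ idc (core G F.h F.l {x1}) :=
    (irr_inf_Uu hG.cl (nu_norm hG hy.1)).le_idc fun g hg => mem_core_of F hg.1 (Uu_un hg.2) (by
      rintro x rfl
      exact st1 ⟨hg.1, Uu_le_Pn y hg.2⟩)
  obtain ⟨J, hJ⟩ : ∃ J, J = idc (core G F.h F.l (G ⊓ Nm T : Subgroup (GL n k))) := ⟨_, rfl⟩
  have J0 : J ≤ core G F.h F.l (G ⊓ Nm T : Subgroup (GL n k)) := hJ ▸ idc_le _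
  have JU : J ≤ idc (core G F.h F.l {x1}) := hJ ▸ idc_mono fun g hg =>
    mem_core.2 ⟨hg.1, fun x hx => (mem_core.1 hg).2 x (hx ▸ hx1)⟩
  have Jun : ∀ j ∈ J, Un k j := fun j hj => core_un (J0 hj) (one_mem (G ⊓ Nm T))
  have s3 : ∀ j ∈ J, ∀ w ∈ cone F.ρ G F.v, F.ρ j w i0 = w i0 := by
    rintro j hj _ ⟨c, g, hg, rfl⟩
    have : F.ρ (j * (g * x0⁻¹)) (F.ρ x0 F.v) i0 = F.ρ (1 * (g * x0⁻¹)) (F.ρ x0 F.v) i0 := by
      refine eq_of_zcl (reg j) (reg 1) ?_ (bigcell_dense (y := y) hG.cl hG.irr (nu_norm hG hy.1)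
        (G.mul_mem hg (G.inv_mem hx0.1)))
      rintro _ ⟨u, hu, q, hq, rfl⟩
      obtain ⟨a, ha⟩ := st0 hq
      rw [← mul_assoc, one_mul, rep_mul, rep_mul _ u, ha, map_smul, map_smul, Pi.smul_apply,
        Pi.smul_apply, s2 _ (mul_mem (JU hj) (hU hu)), s2 _ (hU hu)]
    simp only [← rep_mul, one_mul, mul_assoc, inv_mul_cancel, mul_one] at this
    rw [map_smul, Pi.smul_apply, Pi.smul_apply, ← rep_mul, this]
  have s4 : ∀ z ∈ cone F.ρ G F.v, z ≠ 0 → ∃ ξ : (Fin d → k) →ₗ[k] k, ξ z ≠ 0 ∧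
      ∀ j ∈ J, ∀ w ∈ cone F.ρ G F.v, ξ (F.ρ j w) = ξ w := by
    intro z hz z0
    obtain ⟨e', h1, z', hz', h2⟩ := exists_low F.wt y (C := {z}) ⟨z, rfl, z0⟩
    rw [show z' = z from hz'] at h2
    have h3 := h1 _ rfl
    obtain ⟨x, hx, c, hc, h4⟩ := hG.fixed_line F (low_mem F.diag F.closed cone_smul
      (fun s => cone_rep _ (hG.le (hy.1 s))) hz h3) h2 (F.le_St_low hG.tor.le hs e' _)
    obtain ⟨m, hm, em⟩ : ∃ m ∈ G ⊓ Nm T, m * x = x0 :=
      ⟨x0 * x⁻¹, mul_mem hx0 (inv_mem hx), by simp⟩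
    refine ⟨(LinearMap.proj i0).comp (F.ρ m), fun h5 => ?_, fun j hj w hw => ?_⟩
    · have h6 := IsReg.eq_of_units (F := fun s => F.ρ m (gam F.wt y e' z s) i0) (G := fun _ => 0)
        ((F.rat.isReg (isReg_const m) isReg_gam).app (W := fun _ => k) i0) (isReg_const _)
        (fun s => by
          have h7 : F.ρ m z i0 = 0 := h5
          have h8 := F.diag _ (hG.tor.le (hm.2 _ (hy.1 s))) (F.ρ m z) i0
          rw [← rep_mul, inv_mul_cancel_right, h7, mul_zero] at h8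
          rw [gam_unit F.diag h3, map_smul, Pi.smul_apply, ← rep_mul, h8, smul_zero]) 0
      rw [gam_zero h3, h4, map_smul, ← rep_mul, em, Pi.smul_apply, smul_eq_mul] at h6
      exact mul_ne_zero hc hi0 h6
    · have h5 : m * j * m⁻¹ ∈ J := hJ ▸ conj_mem_idc (core_conj inf_le_left hm) (hJ ▸ hj)
      have h6 := s3 _ h5 _ (cone_rep m hm.1 w hw)
      rw [← rep_mul, inv_mul_cancel_right, rep_mul] at h6
      exact h6
  have Jirr : Irr (J : Set (GL n k)) := hJ ▸ irr_idc _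
  haveI : Group.IsSolvable J := solvable_of_le_PF (h := F.h) F.l_inj fun j hj =>
    UF_le_PF (by simpa using (mem_core.1 (J0 hj)).2 1 (one_mem (G ⊓ Nm T)))
  have s5 : J ≤ idc (core G F.h F.l G) := Jirr.le_idc fun j hj =>
    mem_core_of F (J0 hj).1 (Jun j hj) fun x hx => ⟨1, by
      rw [one_smul]
      refine fix_of_forms F.rat Jirr Jun F.closed ?_ (fun z hz z0 => ?_) j hj
      · rintro _ ⟨c, g, hg, rfl⟩
        exact cone_smul c _ (cone_rep g (J0 hg).1 _ (mem_cone hx))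
      · obtain ⟨ξ, h1, h2⟩ := s4 z hz z0
        exact ⟨ξ, h1, fun j hj => h2 j hj _ (mem_cone hx)⟩⟩
  rw [hG.red (idc (core G F.h F.l G)) (zclosed_idc (zclosed_core hG.cl _ _ _)) (irr_idc _)
    ((idc_le _).trans inf_le_left) (fun g hg x hx => conj_mem_idc (core_conj le_rfl hg) hx)
    fun x hx => core_un (idc_le _ hx) G.one_mem] at s5
  refine le_bot_iff.1 (le_trans ?_ s5)
  exact hJ ▸ hK.le_idc fun g hg => mem_core_of F (hKG hg) (hu g hg) fun x hx => h x hx hg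

theorem Red.cent (hG : Red G T) : ∀ g ∈ G, (∀ t ∈ T, t * g = g * t) → g ∈ T := by
  obtain ⟨d, ⟨F⟩⟩ := exists_flag hG.cl hG.irr hG.tor.le hG.tor.irr hG.le 0
  obtain ⟨y, hy, -, -⟩ := exists_gen (T := T) finite_empty (zero_mem _)
  have h1 : G ⊓ Zn y ≤ PF F.h F.l := by
    simpa [F.stab] using hG.cent_le F hy (one_mem _)
  obtain ⟨h2, h3⟩ := btu F.l_inj (irr_inf_Zn hG.cl hG.irr (nu_norm hG hy.1)) h1
    (le_inf hG.le (hG.tor.le.trans (Dn_le_Zn y))) F.hT (hG.max.mono inf_le_left)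
  have h4 := hG.luna F h3 (inf_le_left.trans inf_le_left) (fun x hx => UF_un hx.2)
    fun x hx => inf_le_left.trans (hG.cent_le F hy hx)
  intro g hg h
  have h5 : g ∈ G ⊓ Zn y := ⟨hg, (hy.mem_Zn_iff hG.tor).2 h⟩
  obtain ⟨t, ht, h6⟩ := h2 g h5
  have h7 : g * t⁻¹ ∈ G ⊓ Zn y ⊓ UF F.h F.l :=
    ⟨(G ⊓ Zn y).mul_mem h5 ((G ⊓ Zn y).inv_mem ⟨hG.le ht, Dn_le_Zn y (hG.tor.le ht)⟩), h6⟩
  rw [h4, Subgroup.mem_bot, mul_inv_eq_one] at h7
  exact h7 ▸ ht

theorem Red.irr_stab (hG : Red G T) (F : Flag G T M d) :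
    Irr ((G ⊓ St F.ρ F.v : Subgroup (GL n k)) : Set (GL n k)) := by
  rw [F.stab]
  refine irr_of_le_idc fun s hs => ?_
  obtain ⟨u, hu, h⟩ := exists_cent F.l_inj ((idc_le (G ⊓ PF F.h F.l)).trans inf_le_right)
    (T_le_idc hG F) F.hT hs.2 fun b hb =>
      conj_mem_idc (fun x hx => mul_mem (mul_mem hs hx) (inv_mem hs)) hb
  have h1 := hG.cent _ (G.mul_mem (G.inv_mem (idc_le _ hu.1).1) hs.1) h
  simpa using mul_mem hu.1 (T_le_idc hG F h1)

end ZipFG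
end

-- merged part: Pool.Agent.Work.MP_5c492e_ag.Bruhat
section
/-! Borel subgroups containing a maximal torus and the Bruhat decomposition. -/

namespace ZipFG

open Function Set Matrix

variable {k : Type} [Field k] [IsAlgClosed k] [LF k] {n : Type} [Fintype n] [DecidableEq n]
  {G T : Subgroup (GL n k)} {M d : ℕ}

/-- `M` bounds general points of all walls. -/
def Big (T : Subgroup (GL n k)) (M : ℕ) : Prop :=
  ∀ a b : n, ∃ y0 ∈ Yl T, y0 a = y0 b ∧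
    (∀ i j, y0 i = y0 j → ∀ z ∈ Yl T, z a = z b → z i = z j) ∧ ∀ i j, |y0 i - y0 j| ≤ M

theorem exists_bigM (T : Subgroup (GL n k)) : ∃ M, Big T M := by
  choose f hf1 hf2 hf3 using exists_wall_point T
  refine ⟨∑ p : (n × n) × n × n, (f p.1.1 p.1.2 p.2.1 - f p.1.1 p.1.2 p.2.2).natAbs,
    fun a b => ⟨f a b, hf1 a b, hf2 a b, hf3 a b, fun i j => ?_⟩⟩
  have := Finset.single_le_sum
    (f := fun p : (n × n) × n × n => (f p.1.1 p.1.2 p.2.1 - f p.1.1 p.1.2 p.2.2).natAbs)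
    (fun _ _ => Nat.zero_le _) (Finset.mem_univ ((a, b), (i, j)))
  rw [← Int.natCast_natAbs]
  exact_mod_cast this

namespace BruhatAux

lemma nu_conj {H : Subgroup (GL n k)} (hT : T ≤ H) {y : n → ℤ} (hy : y ∈ Yl T) :
    ∀ t, ∀ g ∈ H, nu y t * g * (nu y t)⁻¹ ∈ H := fun t _ hg =>
  H.mul_mem (H.mul_mem (hT (hy t)) hg) (H.inv_mem (hT (hy t)))

lemma mem_T (hG : Red G T) {y : n → ℤ} (hy : Gen T y) {g : GL n k} (hg : g ∈ G)
    (hz : g ∈ Zn y) : g ∈ T := hG.cent g hg ((hy.mem_Zn_iff hG.tor).1 hz)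

lemma lev_T (hG : Red G T) {y : n → ℤ} (hy : Gen T y) {g : GL n k} (hg : g ∈ G)
    (hp : g ∈ Pn y) : lev y g ∈ T :=
  have := lev_mem hG.cl (nu_conj hG.le hy.1) (g := g) ⟨hg, hp⟩
  mem_T hG hy this.1 this.2

lemma T_le_St (F : Flag G T M d) {x : GL n k} (hx : x ∈ Nm T) : T ≤ St F.ρ (F.ρ x F.v) := by
  intro t ht
  rw [mem_St_rep]
  have := (Nm T).inv_mem hx t ht
  rw [inv_inv] at this
  exact ⟨_, F.v_wt _ this⟩

lemma zclosed_St {ρ : GL n k →* Module.End k (Fin d → k)} (hρ : RatRep ρ) (w : Fin d → k) :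
    ZClosed (St ρ w : Set (GL n k)) := by
  have := (hρ w).zclosed_mem (Submodule.span k {w})
  convert this using 1
  ext g
  simp only [SetLike.mem_coe, mem_St, mem_setOf_eq, Submodule.mem_span_singleton]
  exact exists_congr fun a => eq_comm

lemma irr_Bp (hG : Red G T) (F : Flag G T M d) {x : GL n k} (hx : x ∈ G) :
    Irr ((G ⊓ St F.ρ (F.ρ x F.v) : Subgroup (GL n k)) : Set (GL n k)) := by
  have := (hG.irr_stab F).image (f := fun g => x * g * x⁻¹) (by fun_prop)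
  convert this using 1
  ext g
  constructor
  · rintro ⟨h1, h2⟩
    exact ⟨x⁻¹ * g * x, ⟨G.mul_mem (G.mul_mem (G.inv_mem hx) h1) hx, mem_St_rep.1 h2⟩, by group⟩
  · rintro ⟨g, ⟨h1, h2⟩, rfl⟩
    refine ⟨G.mul_mem (G.mul_mem hx h1) (G.inv_mem hx), mem_St_rep.2 ?_⟩
    have e : x⁻¹ * (x * g * x⁻¹) * x = g := by group
    rw [e]
    exact h2

lemma solv_St (F : Flag G T M d) (x : GL n k) {H : Subgroup (GL n k)}
    (h : H ≤ St F.ρ (F.ρ x F.v)) : Group.IsSolvable H := by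
  haveI := solvable_of_le_PF F.l_inj (le_of_eq F.stab)
  refine solvable_conj (K := St F.ρ F.v) (x := x⁻¹) fun g hg => ?_
  rw [inv_inv]
  exact mem_St_rep.1 (h hg)

lemma nu_rep (hT : T ≤ Dn) (F : Flag G T M d) {x : GL n k} (hx : x ∈ Nm T) {z : n → ℤ}
    (hz : z ∈ Yl T) (s : kˣ) :
    F.ρ (nu z s) (F.ρ x F.v) = ((s : k) ^ (F.μ ⬝ᵥ act x⁻¹ z)) • F.ρ x F.v := by
  have h1 := Nm_conj_nu hT ((Nm T).inv_mem hx) hz s
  have h2 : nu z s * x = x * nu (act x⁻¹ z) s := by rw [← h1]; group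
  rw [← rep_mul, h2, rep_mul, F.v_wt _ (act_mem hT ((Nm T).inv_mem hx) hz s), eps_nu, map_smul]

lemma mem_T_of_act (hG : Red G T) {y : n → ℤ} (hy : Gen T y) {w : GL n k} (hw : w ∈ G)
    (hw' : w ∈ Nm T) (h : ∀ z ∈ Yl T, act w z = z) : w ∈ T :=
  mem_T hG hy hw ((act_eq_iff hG.tor.le hw' hy.1).1 (h y hy.1))

lemma St_of_T (F : Flag G T M d) {x x' : GL n k} (hx' : x' ∈ Nm T) (h : x * x'⁻¹ ∈ T) :
    St F.ρ (F.ρ x F.v) = St F.ρ (F.ρ x' F.v) := by
  obtain ⟨a, ha⟩ := T_le_St F hx' h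
  rw [← rep_mul, inv_mul_cancel_right] at ha
  have h0 : a ≠ 0 := by
    rintro rfl
    exact rep_ne_zero F.ρ x F.v_ne (by simpa using ha)
  rw [ha, St_smul _ _ h0]

/-- A fixed point of a connected solvable subgroup of a Levi subgroup. -/
lemma levi_fixed (hG : Red G T) (F : Flag G T M d) {y0 : n → ℤ} (hy0 : y0 ∈ Yl T)
    (hb : ∀ i j, |y0 i - y0 j| ≤ M) {x' : GL n k} (hx' : x' ∈ G ⊓ Nm T) {K : Subgroup (GL n k)}
    (hK : Irr (K : Set (GL n k))) [Group.IsSolvable K] (hTK : T ≤ K) (hKL : K ≤ G ⊓ Zn y0) :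
    ∃ x ∈ G ⊓ Nm T, x * x'⁻¹ ∈ Zn y0 ∧ K ≤ St F.ρ (F.ρ x F.v) := by
  have hT := hG.tor.le
  obtain ⟨w, hw, hw0, hfix⟩ := borel_fixed F.rat hK
    (C := zcl (cone F.ρ (G ⊓ Zn y0) (F.ρ x' F.v))) (zclosed_zcl _)
    (fun c w hw => zcl_map (f := fun w => c • w) (by fun_prop) (cone_smul c) hw)
    (fun g hg w hw => zcl_map (f := fun w => F.ρ g w) (F.rat.isReg (isReg_const g) isReg_id)
      (cone_rep g (hKL hg)) hw)
    ⟨_, subset_zcl _ self_mem_cone, rep_ne_zero F.ρ x' F.v_ne⟩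
  have hwG : w ∈ cone F.ρ G F.v := by
    refine F.closed.zcl_subset ?_ hw
    rintro _ ⟨c, g, hg, rfl⟩
    exact ⟨c, g * x', G.mul_mem hg.1 hx'.1, by rw [rep_mul]⟩
  obtain ⟨x, hx, c, hc, rfl⟩ := hG.fixed_line F hwG hw0 (fun t ht => hfix t (hTK ht))
  refine ⟨x, hx, ?_, fun g hg => ?_⟩
  · have h1 : ∀ s : kˣ, (s : k) ^ (F.μ ⬝ᵥ act x⁻¹ y0) = (s : k) ^ (F.μ ⬝ᵥ act x'⁻¹ y0) := by
      intro s
      have h2 : F.ρ (nu y0 s) (c • F.ρ x F.v)
          = ((s : k) ^ (F.μ ⬝ᵥ act x'⁻¹ y0)) • (c • F.ρ x F.v) := by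
        refine (zclosed_eq (f := fun w => F.ρ (nu y0 s) w)
          (g := fun w : Fin d → k => ((s : k) ^ (F.μ ⬝ᵥ act x'⁻¹ y0)) • w)
          (F.rat.isReg (isReg_const _) isReg_id) (by fun_prop)).zcl_subset ?_ hw
        rintro _ ⟨c', g, hg, rfl⟩
        change F.ρ (nu y0 s) _ = _
        rw [map_smul, ← rep_mul, mem_Zn_iff_comm.1 hg.2 s, rep_mul, nu_rep hT F hx'.2 hy0,
          map_smul, smul_comm]
      rw [map_smul, nu_rep hT F hx.2 hy0, smul_comm] at h2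
      exact smul_left_injective k hw0 h2
    have h3 : act x⁻¹ y0 = act x'⁻¹ y0 := by
      rw [← sub_eq_zero]
      refine F.sep _ (fun i => hb _ _) ?_
      rw [dotProduct_sub, zpow_inj_units h1, sub_self]
    refine (act_eq_iff hT ((Nm T).mul_mem hx.2 ((Nm T).inv_mem hx'.2)) hy0).1 ?_
    rw [act_mul hT hx.2 ((Nm T).inv_mem hx'.2) hy0, ← h3, act_act_inv hT hx.2 hy0]
  · rw [← St_smul _ _ hc]
    exact hfix g hg

/-- A minimal torus stable subgroup of a contracted group centralises a general point of a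
wall. -/
lemma exists_min (hT : T ≤ Dn) (hM : Big T M) {U : Subgroup (GL n k)}
    (hU : ZClosed (U : Set (GL n k))) (hn : ∀ t ∈ T, ∀ u ∈ U, t * u * t⁻¹ ∈ U) {y : n → ℤ}
    (hy : y ∈ Yl T) (h : U ≤ Uu y) (hne : U ≠ ⊥) :
    ∃ J ≤ U, J ≠ ⊥ ∧ Irr (J : Set (GL n k)) ∧ ∃ a b, ∃ y0 ∈ Yl T,
      (∀ i j, y0 i = y0 j → ∀ z ∈ Yl T, z a = z b → z i = z j) ∧ (∀ i j, |y0 i - y0 j| ≤ M) ∧
      J ≤ Zn y0 := by
  obtain ⟨J, ⟨hJU, hJ0, hJc, hJn⟩, hmin⟩ := exists_minimal_closed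
    (fun J : Subgroup (GL n k) => J ≤ U ∧ J ≠ ⊥ ∧ ZClosed (J : Set (GL n k)) ∧
      ∀ t ∈ T, ∀ u ∈ J, t * u * t⁻¹ ∈ J) (fun J => (J : Set (GL n k)))
    (fun J hJ => hJ.2.2.1) ⟨U, le_rfl, hne, hU, hn⟩
  have hJi : Irr (J : Set (GL n k)) := by
    have := irr_inf_Uu hJc (y := y) fun t => hJn _ (hy t)
    rwa [inf_eq_left.2 (hJU.trans h)] at this
  obtain ⟨⟨u, hu⟩, hu1⟩ := Subgroup.ne_bot_iff_exists_ne_one.1 hJ0
  have hu2 : u.val - 1 ≠ 0 := fun e => hu1 (Subtype.ext (Units.ext (sub_eq_zero.1 e)))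
  obtain ⟨a, b, hab⟩ : ∃ a b, (u.val - 1) a b ≠ 0 := by
    by_contra hc
    push Not at hc
    exact hu2 (Matrix.ext hc)
  obtain ⟨y0, hy0, e, hr, hb⟩ := hM a b
  have key : ∀ z : n → ℤ, z a = z b → J ⊓ Uu z ≤ Zn y0 := by
    intro z hz
    by_cases h0 : J ⊓ Uu z = ⊥
    · rw [h0]; exact bot_le
    · have := hmin (J ⊓ Uu z) ⟨inf_le_left.trans hJU, h0, hJc.inf (zclosed_Uu z),
        fun t ht v hv => ⟨hJn t ht v hv.1, conj_mem_Uu (Dn_le_Pn z (hT ht)) hv.2⟩⟩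
        (fun v hv => hv.1) hu
      exact absurd (mem_Uu.1 this.2 a b (by omega)) hab
  exact ⟨J, hJU, hJ0, hJi, a, b, y0, hy0, hr, hb, le_of_cell hJc hJi (fun t => hJn _ (hy0 t))
    (key y0 e) inf_le_right (key (-y0) (by simp [e]))⟩

/-- The rank one argument. -/
lemma le_St (hG : Red G T) (F : Flag G T M d) {y : n → ℤ} (hy : Gen T y) {x : GL n k}
    (h : G ⊓ Pn y ≤ St F.ρ (F.ρ x F.v)) {J : Subgroup (GL n k)} (hJi : Irr (J : Set (GL n k)))
    (hJ : J ≤ G ⊓ St F.ρ (F.ρ x F.v) ⊓ Uu (-y)) {a b : n} {y0 : n → ℤ} (hy0 : y0 ∈ Yl T)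
    (hr : ∀ i j, y0 i = y0 j → ∀ z ∈ Yl T, z a = z b → z i = z j)
    (hb : ∀ i j, |y0 i - y0 j| ≤ M) (hJ0 : J ≤ Zn y0) {x' : GL n k} (hx' : x' ∈ G ⊓ Nm T) :
    J ≤ St F.ρ (F.ρ x' F.v) := by
  have hT := hG.tor.le
  have hLc : ZClosed ((G ⊓ Zn y0 : Subgroup (GL n k)) : Set (GL n k)) :=
    hG.cl.inf (zclosed_Zn y0)
  have hLi := irr_inf_Zn hG.cl hG.irr (nu_conj hG.le hy0)
  have hTL : T ≤ G ⊓ Zn y0 := le_inf hG.le (hT.trans (Dn_le_Zn y0))
  have hJL : J ≤ G ⊓ Zn y0 := le_inf (fun g hg => (hJ hg).1.1) hJ0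
  haveI : Group.IsSolvable (J ⊔ (G ⊓ Zn y0 ⊓ Pn y) : Subgroup (GL n k)) :=
    solv_St F x (sup_le (fun g hg => (hJ hg).1.2) fun g hg => h ⟨hg.1.1, hg.2⟩)
  haveI : Group.IsSolvable (G ⊓ Zn y0 ⊓ Pn (-y) : Subgroup (GL n k)) :=
    solvable_of_tri inf_le_right fun g hg => hT (lev_T hG hy.neg hg.1.1 hg.2)
  obtain ⟨x1, hx1, hn1, hK1⟩ := levi_fixed hG F hy0 hb hx' (K := J ⊔ (G ⊓ Zn y0 ⊓ Pn y))
    (hJi.sup (irr_inf_Pn hLc hLi (nu_conj hTL hy.1)))
    ((le_inf hTL (hT.trans (Dn_le_Pn y))).trans le_sup_right) (sup_le hJL inf_le_left)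
  obtain ⟨x2, hx2, hn2, hK2⟩ := levi_fixed hG F hy0 hb hx' (K := G ⊓ Zn y0 ⊓ Pn (-y))
    (irr_inf_Pn hLc hLi (nu_conj hTL hy.neg.1))
    (le_inf hTL (hT.trans (Dn_le_Pn (-y)))) inf_le_left
  have hN1 : x1 * x'⁻¹ ∈ G ⊓ Nm T := mul_mem hx1 (inv_mem hx')
  have hN2 : x2 * x'⁻¹ ∈ G ⊓ Nm T := mul_mem hx2 (inv_mem hx')
  rcases rk1_dichotomy hT hr hN1.2 hn1 with h1 | h1
  · rw [← St_of_T F hx'.2 (mem_T_of_act hG hy hN1.1 hN1.2 h1)]
    exact le_sup_left.trans hK1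
  rcases rk1_dichotomy hT hr hN2.2 hn2 with h2 | h2
  · rw [← St_of_T F hx'.2 (mem_T_of_act hG hy hN2.1 hN2.2 h2)]
    exact (le_inf hJL fun g hg => Uu_le_Pn _ (hJ hg).2).trans hK2
  have hN3 : (x1 * x'⁻¹)⁻¹ * (x2 * x'⁻¹) ∈ G ⊓ Nm T := mul_mem (inv_mem hN1) hN2
  have h3 := mem_T_of_act hG hy hN3.1 hN3.2 (rk1_two hT hr hN1.2 hn1 hN2.2 hn2 h1 h2)
  have h4 : x2 * x1⁻¹ ∈ T := by
    have := hN1.2 _ h3
    convert this using 1
    group
  rw [St_of_T F hx1.2 h4] at hK2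
  have h5 : G ⊓ Zn y0 ≤ St F.ρ (F.ρ x1 F.v) :=
    le_of_cell hLc hLi (nu_conj hTL hy.1)
      (((inf_le_inf_left _ (Uu_le_Pn y)).trans le_sup_right).trans hK1)
      (((inf_le_inf_left _ inf_le_left).trans le_sup_right).trans hK1)
      ((inf_le_inf_left _ (Uu_le_Pn (-y))).trans hK2)
  intro g hg
  have hL1 : x1 * x'⁻¹ ∈ G ⊓ Zn y0 := ⟨hN1.1, hn1⟩
  have h6 := mem_St_rep.1 (h5 (mul_mem (mul_mem hL1 (hJL hg)) (inv_mem hL1)))
  rw [mem_St_rep]
  convert h6 using 1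
  group

lemma sep_neg {ι : Type} {wt : ι → n → ℤ} {y : n → ℤ} (h : Sep T wt y) : Sep T wt (-y) :=
  fun i j e => h i j (by simpa using e)

/-- Transport of a fixed line by the normaliser. -/
lemma conj_nu_neg (hT : T ≤ Dn) {g : GL n k} (hg : g ∈ Nm T) {y : n → ℤ} (hy : y ∈ Yl T)
    (t : kˣ) : g * nu (-y) t * g⁻¹ = nu (-act g y) t :=
  Nm_conj_nu hT hg (neg_mem hy) t

end BruhatAux

open BruhatAux

/-- The stabiliser of the lowest point is the Borel subgroup of the cocharacter. -/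
theorem Red.stab_eq (hG : Red G T) (hM : Big T M) (F : Flag G T M d) {y : n → ℤ} (hy : Gen T y)
    {x : GL n k} (hx : x ∈ G ⊓ Nm T) (h : G ⊓ Pn y ≤ St F.ρ (F.ρ x F.v)) :
    G ⊓ St F.ρ (F.ρ x F.v) = G ⊓ Pn y := by
  refine le_antisymm (le_inf inf_le_left ?_) (le_inf inf_le_left h)
  have hT := hG.tor.le
  have hBc : ZClosed ((G ⊓ St F.ρ (F.ρ x F.v) : Subgroup (GL n k)) : Set (GL n k)) :=
    hG.cl.inf (zclosed_St F.rat _)
  have hTB : T ≤ G ⊓ St F.ρ (F.ρ x F.v) := le_inf hG.le (T_le_St F hx.2)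
  refine le_of_cell hBc (irr_Bp hG F hx.1) (nu_conj hTB hy.1) (inf_le_right.trans (Uu_le_Pn y))
    (inf_le_right.trans inf_le_left) ?_
  by_cases h0 : G ⊓ St F.ρ (F.ρ x F.v) ⊓ Uu (-y) = ⊥
  · rw [h0]; exact bot_le
  exfalso
  obtain ⟨J, hJ, hJ0, hJi, a, b, y0, hy0, hr, hb, hJZ⟩ := exists_min hT hM
    (hBc.inf (zclosed_Uu (-y)))
    (fun t ht u hu => ⟨Subgroup.mul_mem _ (Subgroup.mul_mem _ (hTB ht) hu.1)
      (Subgroup.inv_mem _ (hTB ht)),
      conj_mem_Uu (Dn_le_Pn _ (hT ht)) hu.2⟩) hy.neg.1 inf_le_right h0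
  exact hJ0 (hG.luna F hJi (fun g hg => (hJ hg).1.1) (fun g hg => Uu_un (hJ hg).2)
    fun x' hx' => le_St hG F hy h hJi hJ hy0 hr hb hJZ hx')

theorem Red.exists_stab (hG : Red G T) (hM : Big T M) (F : Flag G T M d) {y : n → ℤ}
    (hy : Gen T y) : ∃ x ∈ G ⊓ Nm T, G ⊓ St F.ρ (F.ρ x F.v) = G ⊓ Pn y := by
  obtain ⟨y1, hy1, hs, hr⟩ := exists_sep_gen hG.tor F.wt hy.1
  obtain ⟨x, hx, e, -, -, h⟩ := hG.exists_lowest F hy1.neg (sep_neg hs)
  rw [neg_neg, (hy.eq_of_refine hy1 hr).1] at h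
  exact ⟨x, hx, hG.stab_eq hM F hy hx h⟩

namespace BruhatAux

/-- Every point near a fixed point lies in the orbit of a unipotent group. -/
lemma exists_orbit (hG : Red G T) (F : Flag G T M d) {y : n → ℤ} (hy : Gen T y)
    (hs : Sep T F.wt y) {w : Fin d → k} (hw : w ∈ cone F.ρ G F.v) {e : ℤ} (he : Ge F.wt y e w)
    {x : GL n k} (hx : x ∈ G ⊓ Nm T) {c : k} (hc : c ≠ 0)
    (hl : low F.wt y e w = c • F.ρ x F.v) :
    ∃ y2 ∈ Yl T, w ∈ cone F.ρ (G ⊓ Uu y2) (F.ρ x F.v) := by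
  have hT := hG.tor.le
  obtain ⟨x0, hx0, -, -, -, h0⟩ := hG.exists_lowest F hy hs
  have hg : x * x0⁻¹ ∈ G ⊓ Nm T := mul_mem hx (inv_mem hx0)
  have hy2 := act_mem hT hg.2 hy.1
  refine ⟨_, hy2, ?_⟩
  set y2 := act (x * x0⁻¹) y with hy2d
  have h1 : G ⊓ Pn (-y2) ≤ St F.ρ (F.ρ x F.v) := by
    intro q hq
    have h2 : (x * x0⁻¹)⁻¹ * q * (x * x0⁻¹) ∈ Pn (-y) := by
      rw [← conj_Pn (conj_nu_neg hT hg.2 hy.1)]
      have e : x * x0⁻¹ * ((x * x0⁻¹)⁻¹ * q * (x * x0⁻¹)) * (x * x0⁻¹)⁻¹ = q := by group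
      rw [e]
      exact hq.2
    have h3 := mem_St_rep.1 (h0 ⟨G.mul_mem (G.mul_mem (G.inv_mem hg.1) hq.1) hg.1, h2⟩)
    rw [mem_St_rep]
    convert h3 using 1
    group
  have h4 : cone F.ρ G F.v ⊆ zcl (cone F.ρ (G ⊓ Uu y2) (F.ρ x F.v)) := by
    rintro _ ⟨c', g, hg', rfl⟩
    have h5 := zcl_map (f := fun g => c' • F.ρ g (F.ρ x F.v))
      ((isReg_const c').pi_smul (F.rat.isReg isReg_id (isReg_const _)))
      (T := cone F.ρ (G ⊓ Uu y2) (F.ρ x F.v)) ?_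
      (bigcell_dense hG.cl hG.irr (nu_conj hG.le hy2) (mul_mem hg' (inv_mem hx.1)))
    · rwa [← rep_mul, inv_mul_cancel_right] at h5
    · rintro _ ⟨u, hu, q, hq, rfl⟩
      obtain ⟨a, ha⟩ := h1 hq
      exact ⟨c' * a, u, hu, by rw [rep_mul, ha, map_smul, smul_smul]⟩
  obtain ⟨P, hP, hP0, hP1⟩ := cone_open F.rat (irr_inf_Uu hG.cl (nu_conj hG.le hy2))
    (hG.cl.inf (zclosed_Uu y2)) (F.ρ x F.v) (one_mem _) (Units.mk0 c hc)
  rw [rep_one, Units.val_mk0, ← hl, ← gam_zero he] at hP0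
  obtain ⟨s, hs'⟩ : ∃ s : kˣ, P (gam F.wt y e w s) ≠ 0 := by
    by_contra hn
    push Not at hn
    exact hP0 (IsReg.eq_of_units (hP.comp isReg_gam) (isReg_const 0) hn 0)
  have h6 : gam F.wt y e w s ∈ cone F.ρ G F.v := by
    rw [gam_unit F.diag he]
    exact cone_smul _ _ (cone_rep _ (hG.le (hy.1 s)) _ hw)
  obtain ⟨c', u, hu, h7⟩ := hP1 _ (h4 h6) hs'
  rw [gam_unit F.diag he] at h7
  obtain ⟨a, ha⟩ := T_le_St F hx.2 (inv_mem (hy.1 s))
  have hu' : (nu y s)⁻¹ * u * (nu y s)⁻¹⁻¹ ∈ G ⊓ Uu y2 :=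
    ⟨G.mul_mem (G.mul_mem (G.inv_mem (hG.le (hy.1 s))) hu.1)
      (G.inv_mem (G.inv_mem (hG.le (hy.1 s)))),
      conj_mem_Uu (Dn_le_Pn _ (inv_mem (nu_mem_Dn y s))) hu.2⟩
  refine ⟨(s : k) ^ e * c' * a, _, hu', ?_⟩
  have h8 := congrArg (fun z => ((s : k) ^ e) • F.ρ (nu y s)⁻¹ z) h7
  simp only [map_smul, smul_smul] at h8
  rw [← rep_mul, inv_mul_cancel, rep_one, ← zpow_add₀ s.ne_zero, add_neg_cancel, zpow_zero,
    one_smul] at h8
  rw [h8, ← smul_smul _ a, ← map_smul _ a, ← ha, ← rep_mul, ← rep_mul, ← rep_mul, ← rep_mul]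
  congr 3
  group

end BruhatAux

/-- The Bialynicki-Birula decomposition of the flag variety. -/
theorem Red.exists_cell (hG : Red G T) (F : Flag G T M d) {y : n → ℤ} (hy : Gen T y)
    {w : Fin d → k} (hw : w ∈ cone F.ρ G F.v) :
    ∃ u ∈ G ⊓ Uu y, ∃ x ∈ G ⊓ Nm T, ∃ c : k, w = c • F.ρ (u * x) F.v := by
  by_cases hw0 : w = 0
  · exact ⟨1, one_mem _, 1, one_mem _, 0, by rw [hw0, zero_smul]⟩
  have hT := hG.tor.le
  obtain ⟨y1, hy1, hs, hr⟩ := exists_sep_gen hG.tor F.wt hy.1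
  rw [← (hy.eq_of_refine hy1 hr).2.1]
  clear hr hy y
  obtain ⟨e, he, w', hw', hl0⟩ := exists_low F.wt y1 (C := {w}) ⟨w, rfl, hw0⟩
  rw [mem_singleton_iff.1 hw'] at hl0
  replace he := he w rfl
  have hl1 : low F.wt y1 e w ∈ cone F.ρ G F.v :=
    low_mem F.diag F.closed cone_smul (fun s => cone_rep _ (hG.le (hy1.1 s))) hw he
  obtain ⟨x, hx, c, hc, hl⟩ := hG.fixed_line F hl1 hl0 (F.le_St_low hT hs e w)
  obtain ⟨y2, hy2, c', u', hu', hw1⟩ := exists_orbit hG F hy1 hs hw he hx hc hl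
  have hc' : c' ≠ 0 := by
    rintro rfl
    exact hw0 (by simpa using hw1)
  obtain ⟨up, hup, z, hz, um, hum, rfl⟩ := exists_cell_decomp (y := y1)
    (hG.cl.inf (zclosed_Uu y2)) (irr_inf_Uu hG.cl (nu_conj hG.le hy2))
    (fun t g hg => ⟨nu_conj hG.le hy1.1 t g hg.1, conj_mem_Uu (Dn_le_Pn _ (nu_mem_Dn _ _)) hg.2⟩)
    hu' (by rw [Dl_eq_one_of_Uu hu'.2]; exact one_ne_zero)
  have hz1 : z = 1 := (Uu_un hz.1.2).eq_one (Dn_ss (hT (mem_T hG hy1 hz.1.1 hz.2)))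
  rw [hz1, mul_one, rep_mul] at hw1
  have h1 : low F.wt y1 e (F.ρ x F.v) = F.ρ x F.v := by
    have := low_low (wt := F.wt) (y := y1) (e := e) (v := w)
    rw [hl, low_smul] at this
    exact smul_right_injective _ hc this
  have h2 : Ge F.wt y1 e (F.ρ um (F.ρ x F.v)) := by
    have := ((raise F.rat F.diag (inv_mem (Uu_le_Pn _ hup.2)) he).1).smul c'⁻¹
    rwa [hw1, map_smul, ← rep_mul, inv_mul_cancel, rep_one, smul_smul, inv_mul_cancel₀ hc',
      one_smul] at this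
  obtain ⟨h3, h4⟩ := raise F.rat F.diag (Uu_le_Pn _ hum.2) (Ge.of_low (low_neg.trans h1))
  rw [low_neg, low_neg, low_eq_of_ge h2 h3, lev_Uu hum.2, rep_one, h1] at h4
  exact ⟨up, ⟨hup.1.1, hup.2⟩, x, hx, c', by rw [hw1, h4, rep_mul]⟩

theorem Red.good (hG : Red G T) : Good G T := by
  refine ⟨hG.cl, hG.irr, hG.tor, hG.le, hG.cent, fun y y' hy hy' g hg => ?_⟩
  obtain ⟨M, hM⟩ := exists_bigM T
  obtain ⟨d, ⟨F⟩⟩ := exists_flag hG.cl hG.irr hG.tor.le hG.tor.irr hG.le M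
  obtain ⟨x', hx', hst⟩ := hG.exists_stab hM F hy'
  obtain ⟨u, hu, x, hx, c, hc⟩ := hG.exists_cell F hy (mem_cone (mul_mem hg hx'.1))
  have hN : x * x'⁻¹ ∈ G ⊓ Nm T := mul_mem hx (inv_mem hx')
  have hq : (u * (x * x'⁻¹))⁻¹ * g ∈ G ⊓ Pn y' := by
    rw [← hst]
    refine ⟨G.mul_mem (G.inv_mem (G.mul_mem hu.1 hN.1)) hg, c, ?_⟩
    rw [rep_mul, ← rep_mul F.ρ g, hc, map_smul, ← rep_mul]
    congr 3
    group
  have ht := lev_T hG hy' hq.1 hq.2
  refine ⟨u, hu, _, mul_mem hN ⟨hG.le ht, le_Nm hG.tor.le ht⟩, _,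
    ⟨G.mul_mem (G.inv_mem (hG.le ht)) hq.1, lev_inv_mul_mem hq.2⟩, ?_⟩
  group

theorem Red.exists_borel (hG : Red G T) {B : Subgroup (GL n k)} (hB : Irr (B : Set (GL n k)))
    [Group.IsSolvable B] (hTB : T ≤ B) (hBG : B ≤ G) : ∃ y, Gen T y ∧ B ≤ Pn y := by
  have hT := hG.tor.le
  obtain ⟨M, hM⟩ := exists_bigM T
  obtain ⟨d, ⟨F⟩⟩ := exists_flag hG.cl hG.irr hT hG.tor.irr hG.le M
  obtain ⟨y, hy, -, -⟩ := exists_sep_gen hG.tor F.wt (zero_mem _)
  obtain ⟨x0, hx0, hst⟩ := hG.exists_stab hM F hy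
  obtain ⟨w, hw, hw0, hfix⟩ := borel_fixed F.rat hB F.closed cone_smul
    (fun g hg => cone_rep g (hBG hg)) ⟨_, self_mem_cone, F.v_ne⟩
  obtain ⟨x, hx, c, hc, rfl⟩ := hG.fixed_line F hw hw0 fun t ht => hfix t (hTB ht)
  have hN : x * x0⁻¹ ∈ G ⊓ Nm T := mul_mem hx (inv_mem hx0)
  refine ⟨_, hy.act hT hN.2, fun b hb => ?_⟩
  have h1 : b ∈ St F.ρ (F.ρ x F.v) := by
    rw [← St_smul _ _ hc]
    exact hfix b hb
  have h2 : (x * x0⁻¹)⁻¹ * b * (x * x0⁻¹) ∈ G ⊓ Pn y := by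
    rw [← hst]
    refine ⟨G.mul_mem (G.mul_mem (G.inv_mem hN.1) (hBG hb)) hN.1, mem_St_rep.2 ?_⟩
    convert mem_St_rep.1 h1 using 1
    group
  have h3 := (conj_Pn (Nm_conj_nu hT hN.2 hy.1)).2 h2.2
  convert h3 using 1
  group

end ZipFG
end

-- merged part: Pool.Agent.Work.MP_5c492e_ag.Frame
section
/-! Reduction to a diagonal maximal torus and the main theorem. -/

namespace ZipFG

open Function Set Matrix ZipDefs

section conj

variable {k : Type} [Field k] {n : Type} [Fintype n] [DecidableEq n]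

/-- The conjugate `h H h⁻¹`. -/
def cjs (h : GL n k) (H : Subgroup (GL n k)) : Subgroup (GL n k) :=
  H.comap (MulAut.conj h⁻¹).toMonoidHom

variable {h g : GL n k} {H K : Subgroup (GL n k)}

lemma mem_cjs : g ∈ cjs h H ↔ h⁻¹ * g * h ∈ H := by simp [cjs]

lemma conj_mem_cjs : h * g * h⁻¹ ∈ cjs h H ↔ g ∈ H := by simp [mem_cjs, mul_assoc]

lemma cjs_mono (e : H ≤ K) : cjs h H ≤ cjs h K := fun _ hg => mem_cjs.2 (e (mem_cjs.1 hg))

lemma cjs_cjs_inv : cjs h (cjs h⁻¹ H) = H := by ext; simp [mem_cjs, mul_assoc]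

lemma cjs_inv_cjs : cjs h⁻¹ (cjs h H) = H := by ext; simp [mem_cjs, mul_assoc]

lemma ZClosed.cjs (e : ZClosed (H : Set (GL n k))) : ZClosed (cjs h H : Set (GL n k)) := by
  have := e.preimage (f := fun g => h⁻¹ * g * h) (by fun_prop)
  convert this using 1
  ext; simp [mem_cjs]

lemma Irr.cjs (e : Irr (H : Set (GL n k))) : Irr (cjs h H : Set (GL n k)) := by
  have := e.image (f := fun g => h * g * h⁻¹) (by fun_prop)
  convert this using 1
  ext g
  exact ⟨fun hg => ⟨_, mem_cjs.1 hg, by group⟩, by rintro ⟨x, hx, rfl⟩; exact conj_mem_cjs.2 hx⟩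

lemma conj_mem_cjs' : h⁻¹ * g * h ∈ cjs h⁻¹ H ↔ g ∈ H := by simp [mem_cjs, mul_assoc]

lemma mem_cjs' : g ∈ cjs h⁻¹ H ↔ h * g * h⁻¹ ∈ H := by simp [cjs]

variable [LF k]

lemma mem_Dn_iff : g ∈ Dn ↔ g.val.IsDiag := ⟨fun e a b => e a b, fun e _ _ hab => e hab⟩

lemma relInv_fg_conj {G : Subgroup (GL n k)} {S S' : Set (GL n k × GL n k)}
    (hS : ∀ a b, (a, b) ∈ S ↔ (h * a * h⁻¹, h * b * h⁻¹) ∈ S') (hfg : (relInv (cjs h G) S').FG) :
    (relInv G S).FG := by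
  let f : G → cjs h G := fun x => ⟨h * x * h⁻¹, conj_mem_cjs.2 x.2⟩
  let f' : cjs h G → G := fun x => ⟨h⁻¹ * x * h, mem_cjs.1 x.2⟩
  have hf : IsReg f := isReg_of_val (by simp only [f]; fun_prop)
  have hf' : IsReg f' := isReg_of_val (by simp only [f']; fun_prop)
  convert hfg.map (pull f hf) using 1
  ext F
  constructor
  · intro hF
    refine ⟨pull f' hf' F, fun e he x x' hx => hF (h⁻¹ * e.1 * h, h⁻¹ * e.2 * h)
      ((hS _ _).2 (by simpa [mul_assoc] using he)) (f' x) (f' x') ?_,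
      O_ext fun x => congrArg F.1 (Subtype.ext (by simp [f, f', mul_assoc]))⟩
    simp only [f', hx]; group
  · rintro ⟨F', hF', rfl⟩ e he x x' hx
    refine hF' _ ((hS e.1 e.2).1 he) (f x) (f x') ?_
    simp only [f, hx]; group

lemma span_chars {T : Subgroup (GL n k)} (hT : cjs h T ≤ Dn) (F : T → k) (hF : IsReg F) :
    F ∈ Submodule.span k ((fun χ : T →* k => (χ : T → k)) '' {χ | IsReg χ}) := by
  let f : T →* cjs h T :=
    { toFun := fun x => ⟨h * x * h⁻¹, conj_mem_cjs.2 x.2⟩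
      map_one' := Subtype.ext (by simp)
      map_mul' := fun a b => Subtype.ext (by simp [mul_assoc]) }
  let f' : cjs h T → T := fun x => ⟨h⁻¹ * x * h, mem_cjs.1 x.2⟩
  have hf : IsReg f := isReg_of_val (f := f) (by
    change IsReg fun x : T => h * x * h⁻¹
    fun_prop)
  have hf' : IsReg f' := isReg_of_val (by simp only [f']; fun_prop)
  have h1 := Submodule.mem_map_of_mem (f := LinearMap.funLeft k k f) (span_eps hT _ (hF.comp hf'))
  rw [Submodule.map_span] at h1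
  have h2 : LinearMap.funLeft k k f (fun x => F (f' x)) = F := by
    ext x
    exact congrArg F (Subtype.ext (by simp [f, f', mul_assoc]))
  rw [h2] at h1
  refine Submodule.span_mono ?_ h1
  rintro _ ⟨_, ⟨_, ⟨a, rfl⟩, rfl⟩, rfl⟩
  exact ⟨(epsHom hT a).comp f, (IsReg.eps a isReg_val fun x : cjs h T => hT x.2).comp hf, rfl⟩

variable [IsAlgClosed k]

lemma red_cjs {G T : Subgroup (GL n k)} (hG : IsReductive G) (hT : IsMaxTorus G T)
    (hh : ∀ t ∈ T, (h * t * h⁻¹).val.IsDiag) : Red (cjs h G) (cjs h T) := by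
  obtain ⟨hGc, hGi⟩ := isConnGroup_iff.1 hG.1
  obtain ⟨hTc, hTi⟩ := isConnGroup_iff.1 hT.1.2.1
  refine ⟨hGc.cjs, hGi.cjs, ⟨fun t ht => ?_, hTc.cjs, hTi.cjs⟩, cjs_mono hT.1.1,
    fun A hA h1 h2 h3 h4 => ?_, fun N h1 h2 h3 h4 h5 => ?_⟩
  · simpa [mul_assoc, mem_Dn_iff] using hh _ (mem_cjs.1 ht)
  · obtain ⟨x, hx⟩ := exists_diag hA h1 h2
    have h5 : cjs h⁻¹ (zclSub A) ≤ T := hT.2 ⟨fun g hg => conj_mem_cjs.1
        (hGc.cjs.zcl_subset h4 (mem_cjs'.1 hg)),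
      isConnGroup_iff.2 ⟨(zclosed_zclSub A).cjs, Irr.cjs hA.zcl⟩, x * h, fun t ht => by
        have := zclosed_Dn.mem_of_zcl (f := fun a => x * a * x⁻¹) (by fun_prop) hx
          (mem_cjs'.1 ht)
        simpa [mul_assoc, mem_Dn_iff] using this⟩
      fun t ht => mem_cjs'.2 (le_zclSub A (h3 (conj_mem_cjs.2 ht)))
    exact fun a ha => mem_cjs.2 (h5 (conj_mem_cjs'.2 (le_zclSub A ha)))
  · have := hG.2 (cjs h⁻¹ N) ((cjs_mono h3).trans cjs_inv_cjs.le)
      (isConnGroup_iff.2 ⟨h1.cjs, h2.cjs⟩) (fun g hg x hx => mem_cjs.2 (by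
        simpa [mul_assoc] using h4 _ (conj_mem_cjs.2 hg) _ (mem_cjs.1 hx)))
      fun x hx => isUnip_iff.2 (Un.of_conj (x := h) (by simpa using h5 _ (mem_cjs.1 hx)))
    rw [← cjs_cjs_inv (h := h) (H := N), this, eq_bot_iff]
    intro x hx
    simpa [mem_cjs, mul_assoc, inv_mul_eq_one] using hx

lemma borel_eq {G B T : Subgroup (GL n k)} (hG : Red (cjs h G) (cjs h T)) (hB : IsBorel G B)
    (hTB : T ≤ B) : ∃ y, Gen (cjs h T) y ∧ cjs h B = cjs h G ⊓ Pn y := by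
  have := hB.1.2.2
  have : Group.IsSolvable (cjs h B) :=
    solvable_conj (K := B) (x := h⁻¹) fun g hg => by simpa using mem_cjs.1 hg
  obtain ⟨y, hy, h1⟩ := hG.exists_borel (isConnGroup_iff.1 hB.1.2.1).2.cjs (cjs_mono hTB)
    (cjs_mono hB.1.1)
  have h2 : cjs h B ≤ cjs h G ⊓ Pn y := le_inf (cjs_mono hB.1.1) h1
  refine ⟨y, hy, le_antisymm h2 ?_⟩
  have : Group.IsSolvable (cjs h G ⊓ Pn y : Subgroup (GL n k)) :=
    solvable_of_tri inf_le_right fun g hg => hG.tor.le (hG.good.lev_mem hy hg)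
  have h3 : cjs h⁻¹ (cjs h G ⊓ Pn y) ≤ B := hB.2 ⟨(cjs_mono inf_le_left).trans cjs_inv_cjs.le,
    isConnGroup_iff.2 ⟨(hG.cl.inf (zclosed_Pn y)).cjs,
      (irr_inf_Pn hG.cl hG.irr (hG.good.nu_conj hy.1)).cjs⟩,
    solvable_conj (K := cjs h G ⊓ Pn y) (x := h) fun g hg => by simpa using mem_cjs.1 hg⟩
    (cjs_inv_cjs.ge.trans (cjs_mono h2))
  exact cjs_cjs_inv.ge.trans (cjs_mono h3)

lemma lim_iff {μ : kˣ → GL n k} {m : n → ℤ} (hm : ∀ t, h * μ t * h⁻¹ = nu m t) {g l : GL n k} :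
    Lim μ g l ↔ h * g * h⁻¹ ∈ Pn m ∧ h * l * h⁻¹ = lev m (h * g * h⁻¹) := by
  rw [← lim_conj_iff h, funext hm, lim_nu_iff]

lemma mem_Pplus_iff {G : Subgroup (GL n k)} (hG : ZClosed (G : Set (GL n k))) {μ : kˣ → GL n k}
    (hμ : ∀ t, μ t ∈ G) {m : n → ℤ} (hm : ∀ t, h * μ t * h⁻¹ = nu m t) {g : GL n k} :
    g ∈ Pplus G μ ↔ h * g * h⁻¹ ∈ cjs h G ⊓ Pn m := by
  refine ⟨fun ⟨h1, l, _, h2⟩ => ⟨conj_mem_cjs.2 h1, ((lim_iff hm).1 h2).1⟩, fun h1 =>
    ⟨conj_mem_cjs.1 h1.1, h⁻¹ * lev m (h * g * h⁻¹) * h, mem_cjs.1 (lev_mem hG.cjs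
      (fun t x hx => ?_) h1).1, (lim_iff hm).2 ⟨h1.2, by group⟩⟩⟩
  have : nu m t ∈ cjs h G := hm t ▸ conj_mem_cjs.2 (hμ t)
  exact mul_mem (mul_mem this hx) (inv_mem this)

end conj

variable {k : Type} [Field k] [IsAlgClosed k] [LF k] {p : ℕ} [Fact p.Prime] [CharP k p]
  {n : Type} [Fintype n] [DecidableEq n]

lemma frob_mem_Uu {z : n → ℤ} {g : GL n k} : frob p g ∈ Uu z ↔ g ∈ Uu z := by
  refine forall₃_congr fun a b _ => ?_
  have : ((frob p g).val - 1) a b = frobenius k p ((g.val - 1) a b) := by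
    simp only [Matrix.sub_apply, map_sub, frob_apply, frobenius_def, one_apply]
    split_ifs <;> simp [(Fact.out : p.Prime).ne_zero]
  rw [this, map_eq_zero]

lemma frob_mem_Dn {g : GL n k} (hg : g ∈ Dn) : frob p g ∈ Dn := fun a b h => by
  rw [frob_apply, hg a b h, zero_pow (Fact.out : p.Prime).ne_zero]

lemma frob_nu (z : n → ℤ) (t : kˣ) : frob p (nu z t) = nu z (t ^ p) :=
  Dn_ext (frob_mem_Dn (nu_mem_Dn _ _)) (nu_mem_Dn _ _) fun i => by
    rw [frob_apply, nu_apply, nu_apply, Units.val_pow_eq_pow_val, ← zpow_natCast, ← zpow_natCast,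
      ← _root_.zpow_mul, ← _root_.zpow_mul, mul_comm]

lemma exists_root (t : kˣ) : ∃ s : kˣ, s ^ p = t := by
  obtain ⟨s, hs⟩ := IsAlgClosed.exists_pow_nat_eq (t : k) (Fact.out : p.Prime).pos
  exact ⟨Units.mk0 s (by rintro rfl; exact t.ne_zero (by simp [← hs, (Fact.out : p.Prime).ne_zero])),
    Units.ext hs⟩

/-- A twisted Frobenius map permutes the maximal unipotent subgroups normalised by the torus. -/
lemma map_Uu {G T : Subgroup (GL n k)} (hT : T ≤ Dn) {φ : GL n k →* GL n k}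
    {a : GL n k} (hφ : ∀ g, φ g = a * frob p g * a⁻¹) (hG : G.map φ = G) (hT' : T.map φ = T)
    {z : n → ℤ} (hz : Gen T z) : ∃ z', Gen T z' ∧ (G ⊓ Uu z).map φ = G ⊓ Uu z' := by
  have h1 : ∀ w ∈ Yl T, ∀ t, a * nu w t * a⁻¹ ∈ T := fun w hw t => by
    obtain ⟨s, rfl⟩ := exists_root t
    rw [← frob_nu, ← hφ]
    exact hT'.le ⟨_, hw s, rfl⟩
  have h2 : ∀ w ∈ Yl T, ∀ t, a * nu w t * a⁻¹ = nu (act a w) t := fun w hw =>
    conj_nu fun t => hT (h1 w hw t)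
  have h3 : ∀ w ∈ Yl T, ∃ w' ∈ Yl T, act a w' = w := fun w hw => by
    have h4 : ∀ t, ∃ g ∈ T, a⁻¹ * nu w t * a⁻¹⁻¹ = frob p g := fun t => by
      obtain ⟨g, hg, e⟩ := hT'.ge (hw t)
      exact ⟨g, hg, by rw [← e, hφ]; group⟩
    have h5 := conj_nu (g := a⁻¹) (y := w) fun t => by
      obtain ⟨g, hg, e⟩ := h4 t
      exact e ▸ frob_mem_Dn (hT hg)
    have h6 : act a⁻¹ w ∈ Yl T := fun t => by
      obtain ⟨g, hg, e⟩ := h4 (t ^ p)
      rw [h5, ← frob_nu] at e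
      exact frob_injective e ▸ hg
    refine ⟨_, h6, funext fun i => zpow_inj_units (k := k) fun t => ?_⟩
    rw [← nu_apply, ← nu_apply, ← h2 _ h6, ← h5]
    congr 2
    group
  refine ⟨act a z, ⟨fun t => h2 z hz.1 t ▸ h1 z hz.1 t, fun i j e w hw => ?_⟩, ?_⟩
  · obtain ⟨w', hw', rfl⟩ := h3 w hw
    exact hz.2 _ _ e w' hw'
  · have h7 : ∀ x, φ x ∈ Uu (act a z) ↔ x ∈ Uu z := fun x => by
      rw [hφ, conj_Uu (h2 z hz.1), frob_mem_Uu]
    ext g
    constructor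
    · rintro ⟨x, hx, rfl⟩
      exact ⟨hG.le ⟨x, hx.1, rfl⟩, (h7 x).2 hx.2⟩
    · rintro ⟨hg, hg'⟩
      obtain ⟨x, hx, rfl⟩ := hG.ge hg
      exact ⟨x, ⟨hx, (h7 x).1 hg'⟩, rfl⟩

/-- The Frobenius map in a new frame. -/
noncomputable def frobc (p : ℕ) [Fact p.Prime] [CharP k p] (h : GL n k) : GL n k →* GL n k :=
  (MulAut.conj h).toMonoidHom.comp ((frob p).comp (MulAut.conj h⁻¹).toMonoidHom)

lemma frobc_apply (h g : GL n k) : frobc p h g = h * frob p (h⁻¹ * g * h) * h⁻¹ := by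
  simp [frobc]

lemma map_frobc {h : GL n k} {H : Subgroup (GL n k)} (hH : DefinedOverFp p H) :
    (cjs h H).map (frobc p h) = cjs h H := by
  ext g
  constructor
  · rintro ⟨x, hx, rfl⟩
    rw [frobc_apply, conj_mem_cjs]
    exact hH.le ⟨_, mem_cjs.1 hx, rfl⟩
  · intro hg
    obtain ⟨x, hx, e⟩ := hH.ge (mem_cjs.1 hg)
    refine ⟨_, conj_mem_cjs.2 hx, ?_⟩
    rw [frobc_apply, show h⁻¹ * (h * x * h⁻¹) * h = x by group, e]
    group

lemma isReg_frobc (h : GL n k) : IsReg (frobc p h) :=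
  IsReg.congr (f := fun g => h * frob p (h⁻¹ * g * h) * h⁻¹)
    (((isReg_const h).mul (isReg_frob.comp (g := fun g => h⁻¹ * g * h) (by fun_prop))).mul
      (isReg_const _)) fun g => (frobc_apply h g).symm

variable {G B T : Subgroup (GL n k)} {μ : kˣ → GL n k} {h : GL n k}
  {m y : n → ℤ}

lemma neg_nu (hm : ∀ t, h * μ t * h⁻¹ = nu m t) (t : kˣ) :
    h * (μ t)⁻¹ * h⁻¹ = nu (-m) t := by
  rw [nu_neg, ← hm]; group

lemma mem_Pminus_iff (hG : ZClosed (G : Set (GL n k))) (hμ : ∀ t, μ t ∈ G)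
    (hm : ∀ t, h * μ t * h⁻¹ = nu m t) {g : GL n k} :
    g ∈ Pminus G μ ↔ h * g * h⁻¹ ∈ cjs h G ⊓ Pn (-m) :=
  mem_Pplus_iff hG (fun t => inv_mem (hμ t)) (neg_nu hm)

lemma nonempty_LD (hG : ZClosed (G : Set (GL n k))) (hGF : DefinedOverFp p G)
    (hμ : ∀ t, μ t ∈ G) (hm : ∀ t, h * μ t * h⁻¹ = nu m t) : Nonempty (LD p G μ) := by
  have hP : ∀ x : Pminus G μ, h * x.1 * h⁻¹ ∈ cjs h G ⊓ Pn (-m) := fun x =>
    (mem_Pminus_iff hG hμ hm).1 x.2
  have hL : ∀ x : Pminus G μ, lev (-m) (h * x.1 * h⁻¹) ∈ cjs h G ⊓ Zn (-m) := fun x =>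
    lev_mem hG.cjs (fun t x hx => by
      have : nu (-m) t ∈ cjs h G := neg_nu hm t ▸ conj_mem_cjs.2 (inv_mem (hμ t))
      exact mul_mem (mul_mem this hx) (inv_mem this)) (hP x)
  have h0 : ∀ z : GL n k, h * (h⁻¹ * z * h) * h⁻¹ = z := fun z => by group
  let θ : Pminus G μ →* GL n k :=
    { toFun := fun x => h⁻¹ * lev (-m) (h * x.1 * h⁻¹) * h
      map_one' := by simp [lev, cc_one]
      map_mul' := fun a b => by
        rw [Subgroup.coe_mul, show h * ((a : GL n k) * b) * h⁻¹ =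
          h * a.1 * h⁻¹ * (h * b.1 * h⁻¹) by group, lev_mul (hP a).2 (hP b).2]
        group }
  have hθ : ∀ x, θ x = h⁻¹ * lev (-m) (h * x.1 * h⁻¹) * h := fun _ => rfl
  refine ⟨θ, ?_, fun x => mem_cjs.1 (hL x).1, fun x => (lim_iff (neg_nu hm)).2
    ⟨(hP x).2, by rw [hθ, h0]⟩, fun x => (lim_iff hm).2 ?_, fun g hg => hGF.le ⟨g, hg, rfl⟩⟩
  · exact ((isReg_const _).mul (IsReg.lev (g := fun x : Pminus G μ => h * x.1 * h⁻¹) (y := -m)
      (by fun_prop) fun x => (hP x).2)).mul (isReg_const _)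
  · have h1 : lev (-m) (h * x.1 * h⁻¹) ∈ Zn m := Zn_neg (k := k) m ▸ (hL x).2
    rw [hθ, h0, lev_of_Zn h1]
    exact ⟨h1.1, rfl⟩

lemma mem_HU_iff (hG : ZClosed (G : Set (GL n k))) (hμ : ∀ t, μ t ∈ G)
    (hm : ∀ t, h * μ t * h⁻¹ = nu m t) (hBP : B ≤ Pminus G μ)
    (hU : ∀ {a}, h * a * h⁻¹ ∈ cjs h G ⊓ Uu y ↔ a ∈ B ∧ IsUnip a) (a b : GL n k) :
    (a, b) ∈ HU p G μ B ↔ h * a * h⁻¹ ∈ cjs h G ⊓ Uu y ∧ ∃ x ∈ cjs h G ⊓ Pn m,
      h * b * h⁻¹ = frobc p h x ∧ lev m x = lev (-m) (h * a * h⁻¹) := by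
  have h0 : ∀ z : GL n k, h * (h⁻¹ * z * h) * h⁻¹ = z := fun z => by group
  constructor
  · rintro ⟨⟨-, y', hy', rfl, l, l', hl, hl', e⟩, h1⟩
    obtain rfl := frob_injective e
    refine ⟨hU.2 h1, _, (mem_Pplus_iff hG hμ hm).1 hy', ?_, ?_⟩
    · rw [frobc_apply, show h⁻¹ * (h * y' * h⁻¹) * h = y' by group]
    · rw [← ((lim_iff hm).1 hl').2, ← ((lim_iff (neg_nu hm)).1 hl).2]
  · rintro ⟨h1, x, hx, e, e'⟩
    have ha := hBP (hU.1 h1).1
    refine ⟨⟨ha, h⁻¹ * x * h, (mem_Pplus_iff hG hμ hm).2 (by rwa [h0]), ?_, h⁻¹ * lev m x * h,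
      h⁻¹ * lev m x * h, (lim_iff (neg_nu hm)).2 ⟨((mem_Pminus_iff hG hμ hm).1 ha).2, ?_⟩,
      (lim_iff hm).2 ⟨?_, ?_⟩, rfl⟩, hU.1 h1⟩
    · rw [frobc_apply] at e
      simpa using e
    · rw [h0, e']
    · rw [h0]; exact hx.2
    · rw [h0, h0]

theorem rzip_finiteType {μ : kˣ →* GL n k}
    (hG : IsReductive G) (hGF : DefinedOverFp p G) (hμ : IsCochar G μ) (hB : IsBorel G B)
    (hT : IsMaxTorus G T) (hTB : T ≤ B) (hTF : DefinedOverFp p T) (hBP : B ≤ Pminus G μ)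
    (hTL : T ≤ Levi G μ) : RzipFG p G μ B T := by
  obtain ⟨h, hh⟩ := hT.1.2.2
  have hR := red_cjs hG hT hh
  have hGc := (isConnGroup_iff.1 hG.1).1
  have hμT : ∀ t, h * μ t * h⁻¹ ∈ cjs h T := fun t =>
    hR.cent _ (conj_mem_cjs.2 (hμ.1 t)) fun s hs => by
      have := (hTL (mem_cjs.1 hs)).2 (μ t) ⟨t, rfl⟩
      calc s * (h * μ t * h⁻¹) = h * (h⁻¹ * s * h * μ t) * h⁻¹ := by group
        _ = _ := by rw [← this]; group
  obtain ⟨m, hm⟩ := exists_nu ((MulAut.conj h).toMonoidHom.comp μ)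
    (((isReg_const h).mul (isReg_cochar hμ)).mul (isReg_const h⁻¹)) fun t => hR.tor.le (hμT t)
  replace hm : ∀ t, h * μ t * h⁻¹ = nu m t := hm
  have hmY : m ∈ Yl (cjs h T) := fun t => hm t ▸ hμT t
  obtain ⟨y, hy, hBy⟩ := borel_eq hR hB hTB
  obtain ⟨D⟩ := nonempty_LD hGc hGF hμ.1 hm
  have hU : ∀ {a}, h * a * h⁻¹ ∈ cjs h G ⊓ Uu y ↔ a ∈ B ∧ IsUnip a := by
    intro a
    rw [← conj_mem_cjs (h := h) (H := B), hBy, isUnip_iff]
    exact ⟨fun h1 => ⟨⟨h1.1, Uu_le_Pn y h1.2⟩, (Uu_un h1.2).of_conj⟩, fun h1 =>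
      ⟨h1.1.1, (h1.2.conj h).mem_Uu h1.1.2 (hR.tor.le (hR.good.lev_mem hy h1.1))⟩⟩
  have hB' : cjs h G ⊓ Uu y ≤ Pn (-m) := fun g hg => by
    have h1 : h * (h⁻¹ * g * h) * h⁻¹ = g := by group
    have h2 := ((mem_Pminus_iff hGc hμ.1 hm).1 (hBP (hU.1 (by rwa [h1])).1)).2
    rwa [h1] at h2
  have hfg := main_fg hR.good hmY hy hB' (frobc p h) (isReg_frobc h)
    (fun g hg => (map_frobc hGF).le ⟨g, hg, rfl⟩)
    fun z hz => map_Uu hR.tor.le (a := h * (frob p h)⁻¹)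
      (fun g => by rw [frobc_apply, map_mul, map_mul, map_inv]; group) (map_frobc hGF)
      (map_frobc hTF) hz
  exact D.finiteType hTB hBP hTL (span_chars hR.tor.le)
    (relInv_fg_conj (mem_HU_iff hGc hμ.1 hm hBP hU) hfg)

end ZipFG
end
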